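import Pool.Agent.HypVol.Defs
open MeasureTheory Real ProbabilityTheory
open scoped ENNReal BigOperators

namespace HypVol

/-- real coordinates of the Fourier coefficients in the layer -/
noncomputable def FC (d n : ℕ) (f : (Fin d → ℝ) → ℂ) : (layer d n) × Fin 2 → ℝ := fun i =>
  if i.2 = 0 then (fc f i.1.1).re else (fc f i.1.1).im

/-- unit ball of `L_q` in coefficient space -/
def LB (d n : ℕ) (q : ℝ≥0∞) : Set ((layer d n) × Fin 2 → ℝ) := {b | eLpNorm (poly b) q (TP d) ≤ 1}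

/-- polar set -/
def pol {ι : Type} [Fintype ι] (S : Set (ι → ℝ)) : Set (ι → ℝ) := {y | ∀ b ∈ S, |∑ i, b i * y i| ≤ 1}

/-- `Θ` is covered by `2^k` balls of radius `ε` of `L_q`, with centres in `L_q` -/
def Cov {𝕜 : Type} [RCLike 𝕜] {d : ℕ} (q : ℝ≥0∞) (k : ℕ) (ε : ℝ≥0∞) (Θ : Set ((Fin d → ℝ) → 𝕜)) : Prop :=
  ∃ c : Fin (2^k) → ((Fin d → ℝ) → 𝕜), (∀ j, MemLp (c j) q (TP d)) ∧
    ∀ f ∈ Θ, ∃ j, eLpNorm (fun x => f x - c j x) q (TP d) ≤ ε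

/-- `k`-th entropy number of `Θ` in `L_q` -/
noncomputable def entNum {𝕜 : Type} [RCLike 𝕜] {d : ℕ} (q : ℝ≥0∞) (k : ℕ)
    (Θ : Set ((Fin d → ℝ) → 𝕜)) : ℝ≥0∞ :=
  ⨅ (ε : ℝ≥0∞) (_ : 0 < ε ∧ Cov q k ε Θ), ε

/-- sup norm in coefficient space -/
noncomputable def supn {d n : ℕ} (a : (layer d n) × Fin 2 → ℝ) : ℝ := ⨆ x : Fin d → ℝ, ‖poly a x‖

/-- Euclidean norm -/
noncomputable def eu {ι : Type} [Fintype ι] (a : ι → ℝ) : ℝ := Real.sqrt (∑ i, a i ^ 2)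

/-- Euclidean unit ball -/
def V2 (d n : ℕ) : Set ((layer d n) × Fin 2 → ℝ) := {a | ∑ i, a i ^ 2 ≤ 1}

/-- finite nets with few points -/
def NetP (d : ℕ) (V : ∀ n, Set ((layer d n) × Fin 2 → ℝ)) (ν : ∀ n, ((layer d n) × Fin 2 → ℝ) → ℝ) : Prop :=
  ∃ C : ℝ, 0 < C ∧
    (∀ (n : ℕ) (ε : ℝ), 1 ≤ ε → ∃ S : Finset ((layer d n) × Fin 2 → ℝ),
      (S.card : ℝ) ≤ Real.exp (C * ((layer d n).card * ((n:ℝ) + 1) / ε^2 + ((n:ℝ) + 1))) ∧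
      ∀ a ∈ V n, ∃ s ∈ S, ν n (a - s) ≤ ε) ∧
    (∀ (n : ℕ) (ε t : ℝ), 1 ≤ ε → 0 < t → t ≤ 1 → ∃ S : Finset ((layer d n) × Fin 2 → ℝ),
      (S.card : ℝ) ≤ Real.exp (C * ((layer d n).card * ((n:ℝ) + 1) / ε^2 + ((n:ℝ) + 1)))
        * (1 + 2 / t)^(2 * (layer d n).card) ∧
      ∀ a ∈ V n, ∃ s ∈ S, ν n (a - s) ≤ t * ε)

noncomputable def Bn (d n0 : ℕ) : ℝ := 2^n0 * ((n0:ℝ) + 1)^(d-1)

/-- the conjectured order -/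
noncomputable def Rk (d : ℕ) (r : ℝ) (k : ℕ) : ℝ := (k:ℝ)^(-r) * (Real.log k)^(((d:ℝ)-1) * r + 1/2)

/-- the order with a general power of the logarithm -/
noncomputable def RkS (d : ℕ) (r : ℝ) (s k : ℕ) : ℝ := (k:ℝ)^(-r) * (Real.log k)^(((d:ℝ)-1) * r + (s:ℝ)/2)

/-- norm of `L_q` in coefficient space -/
noncomputable def nq {d n : ℕ} (q : ℝ) (a : (layer d n) × Fin 2 → ℝ) : ℝ :=
  (eLpNorm (poly a) (ENNReal.ofReal q) (TP d)).toReal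

/-- nets of `V n` in the norm `ν n`, loss `(n+1)^a` -/
def NetE (d : ℕ) (V : ∀ n, Set ((layer d n) × Fin 2 → ℝ)) (ν : ∀ n, ((layer d n) × Fin 2 → ℝ) → ℝ)
    (a : ℕ) : Prop :=
  ∃ C : ℝ, 0 < C ∧ ∀ (n : ℕ) (ε : ℝ), 1 ≤ ε → ∃ S : Finset ((layer d n) × Fin 2 → ℝ),
    (S.card : ℝ) ≤ Real.exp (C * ((layer d n).card * ((n:ℝ) + 1)^a / ε^2 + ((n:ℝ) + 1))) ∧
    ∀ b ∈ V n, ∃ s ∈ S, ν n (b - s) ≤ ε

/-- normalised image of `V n` under the convolution -/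
def Vs {d : ℕ} (r : ℝ) (α : Fin d → ℝ) (V : ∀ n, Set ((layer d n) × Fin 2 → ℝ)) (n : ℕ) :
    Set ((layer d n) × Fin 2 → ℝ) :=
  {y | ∃ x ∈ V n, y = ((2:ℝ)^(r * d) * (2:ℝ)^(-(r * n)))⁻¹ • Mact r α x}

/-- nets used in the two step scheme -/
def NetQ (d : ℕ) (V : ∀ n, Set ((layer d n) × Fin 2 → ℝ)) (ν : ∀ n, ((layer d n) × Fin 2 → ℝ) → ℝ)
    (s : ℕ) : Prop :=
  ∃ C : ℝ, 0 < C ∧
    (∀ (n : ℕ) (ε : ℝ), 1 ≤ ε → ∃ S : Finset ((layer d n) × Fin 2 → ℝ),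
      (S.card : ℝ) ≤ Real.exp (C * ((layer d n).card / ε + ((n:ℝ) + 1))) ∧
      ∀ a ∈ V n, ∃ s' ∈ S, ν n (a - s') ≤ ((n:ℝ) + 1)^((s:ℝ)/2) * ε) ∧
    (∀ (n : ℕ) (t : ℝ), 0 < t → t ≤ 1 → ∃ S : Finset ((layer d n) × Fin 2 → ℝ),
      (S.card : ℝ) ≤ Real.exp (C * ((layer d n).card + ((n:ℝ) + 1))) * (1 + 2 / t)^(2 * (layer d n).card) ∧
      ∀ a ∈ V n, ∃ s' ∈ S, ν n (a - s') ≤ t * ((n:ℝ) + 1)^((s:ℝ)/2))

/-- reflection in one coordinate of the torus -/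
noncomputable def rf {d : ℕ} (j : Fin d) (x : Fin d → ℝ) : Fin d → ℝ := Function.update x j (2 * π - x j)

/-- Bernoulli kernel; the series is summed in the sense of partial sums (any `r > 0`) -/
noncomputable def F1L (r α x : ℝ) : ℝ :=
  Filter.limUnder Filter.atTop (fun N : ℕ =>
    1 + 2 * ∑ k ∈ Finset.range N, ((k:ℝ)+1)^(-r) * Real.cos (((k:ℝ)+1) * x - α * π / 2))

noncomputable def FrL {d : ℕ} (r : ℝ) (α x : Fin d → ℝ) : ℝ := ∏ j, F1L r (α j) (x j)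

/-- the class of functions with bounded mixed derivative (any `r > 0`) -/
def ML (𝕜 : Type) [RCLike 𝕜] (d : ℕ) (r : ℝ) (p : ℝ≥0∞) (α : Fin d → ℝ) :
    Set ((Fin d → ℝ) → 𝕜) :=
  {f | ∃ φ : (Fin d → ℝ) → 𝕜, MemLp φ p (TP d) ∧ eLpNorm φ p (TP d) ≤ 1 ∧
    f = fun x => ∫ y, FrL r α (x - y) • φ y ∂(TP d)}

/-- inclusion of `ℝ` or `ℂ` into `ℂ` -/
noncomputable def toC {𝕜 : Type} [RCLike 𝕜] (z : 𝕜) : ℂ :=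
  ((RCLike.re z : ℝ) : ℂ) + ((RCLike.im z : ℝ) : ℂ) * Complex.I

/-- the class of functions with bounded mixed derivative, described by Fourier coefficients -/
def WF (d : ℕ) (r : ℝ) (p : ℝ≥0∞) (α : Fin d → ℝ) : Set ((Fin d → ℝ) → ℂ) :=
  {f | MemLp f 1 (TP d) ∧ ∃ φ : (Fin d → ℝ) → ℂ, MemLp φ p (TP d) ∧ eLpNorm φ p (TP d) ≤ 1 ∧
    ∀ k : Fin d → ℤ, fc f k = Fh r α k * fc φ k}

/-- nets of `V n` in the norm `ν n`, loss `(n+1)^a`, decay exponent `A` -/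
def NetA (d : ℕ) (V : ∀ n, Set ((layer d n) × Fin 2 → ℝ)) (ν : ∀ n, ((layer d n) × Fin 2 → ℝ) → ℝ)
    (a : ℕ) (A : ℝ) : Prop :=
  ∃ C : ℝ, 0 < C ∧ ∀ (n : ℕ) (ε : ℝ), 1 ≤ ε → ∃ S : Finset ((layer d n) × Fin 2 → ℝ),
    (S.card : ℝ) ≤ Real.exp (C * ((layer d n).card * ((n:ℝ) + 1)^a / ε^A + ((n:ℝ) + 1))) ∧
    ∀ b ∈ V n, ∃ s ∈ S, ν n (b - s) ≤ ε

/-- nets used in the two step scheme, with exponent `θ` -/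
def NetT (d : ℕ) (V : ∀ n, Set ((layer d n) × Fin 2 → ℝ)) (ν : ∀ n, ((layer d n) × Fin 2 → ℝ) → ℝ)
    (θ : ℝ) : Prop :=
  ∃ C : ℝ, 0 < C ∧
    (∀ (n : ℕ) (τ : ℝ), 1 ≤ τ → ∃ S : Finset ((layer d n) × Fin 2 → ℝ),
      (S.card : ℝ) ≤ Real.exp (C * ((layer d n).card / τ + ((n:ℝ) + 1))) ∧
      ∀ a ∈ V n, ∃ s' ∈ S, ν n (a - s') ≤ Real.sqrt ((n:ℝ) + 1) * τ^θ) ∧
    (∀ (n : ℕ) (t : ℝ), 0 < t → t ≤ 1 → ∃ S : Finset ((layer d n) × Fin 2 → ℝ),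
      (S.card : ℝ) ≤ Real.exp (C * ((layer d n).card + ((n:ℝ) + 1))) * (1 + 2 / t)^(2 * (layer d n).card) ∧
      ∀ a ∈ V n, ∃ s' ∈ S, ν n (a - s') ≤ t * Real.sqrt ((n:ℝ) + 1))

/-- coefficients of the functions of the unit ball of `L_p` -/
def VP (d : ℕ) (p : ℝ) (n : ℕ) : Set ((layer d n) × Fin 2 → ℝ) :=
  {a | ∃ φ : (Fin d → ℝ) → ℂ, MemLp φ (ENNReal.ofReal p) (TP d) ∧ eLpNorm φ (ENNReal.ofReal p) (TP d) ≤ 1 ∧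
    a = FC d n φ}

end HypVol
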