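import Pool.Agent.EntX.Defs
open MeasureTheory Real ProbabilityTheory
open scoped ENNReal BigOperators

namespace HypVol

/-- grid system for arbitrary frequencies on the grid `Gr d M` -/
noncomputable def tg {d M : ℕ} (β : (Fin d → ℤ) × Fin 2) (x : Gr d M) : ℝ :=
  Real.sqrt 2 * (if β.2 = x.2 then Real.cos (th β.1 x.1)
    else if β.2 = 0 then Real.sin (th β.1 x.1) else - Real.sin (th β.1 x.1))

open Classical in
/-- frequencies of the layers `m ≤ M`, `m ≠ n` -/
noncomputable def others (d n M : ℕ) : Finset (Fin d → ℤ) :=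
  ((Finset.range (M + 1)).filter (fun m => m ≠ n)).biUnion (fun m => layer d m)

/-- coefficients in layer `n` of the polynomials of sup norm at most one with spectrum in the
layers `≤ M` -/
def gapB (d n M : ℕ) : Set ((layer d n) × Fin 2 → ℝ) :=
  {a | ∃ g : ∀ m, (layer d m) × Fin 2 → ℝ, g n = a ∧
    ∀ x : Fin d → ℝ, ‖∑ m ∈ Finset.range (M + 1), poly (g m) x‖ ≤ 1}

/-- exponent in the kernel sums -/
noncomputable def Ax (d n : ℕ) (a : ℝ) (T : Fin d → ℕ) : ℝ := a * n * Th d n T / (2^n * shp d n)

end HypVol
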