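import Pool.Agent.EntX.Defs
open MeasureTheory Real ProbabilityTheory
open scoped ENNReal BigOperators

namespace HypVol
namespace Sol_EX_F1L_facts

noncomputable def fp (r α : ℝ) (N : ℕ) (x : ℝ) : ℝ :=
  1 + 2 * ∑ k ∈ Finset.range N, ((k:ℝ)+1)^(-r) * Real.cos (((k:ℝ)+1) * x - α * π / 2)

theorem fp_cont (r α : ℝ) (N : ℕ) : Continuous (fp r α N) := by
  unfold fp
  fun_prop

theorem fE_sin (φ x : ℝ) (n : ℕ) :
    2 * Real.sin (x / 2) * ∑ k ∈ Finset.range n, Real.cos (((k:ℝ)+1) * x - φ)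
      = Real.sin (((n:ℝ) + 1/2) * x - φ) - Real.sin (x / 2 - φ) := by
  induction n with
  | zero => simp; ring_nf
  | succ n ih =>
    rw [Finset.sum_range_succ, mul_add, ih]
    have h1 : ((n + 1 : ℕ) : ℝ) + 1/2 = (n:ℝ) + 1 + 1/2 := by push_cast; ring
    rw [h1]
    have h2 : ((n:ℝ) + 1 + 1/2) * x - φ = (((n:ℝ)+1) * x - φ) + x / 2 := by ring
    have h3 : ((n:ℝ) + 1/2) * x - φ = (((n:ℝ)+1) * x - φ) - x / 2 := by ring
    rw [h2, h3, Real.sin_add, Real.sin_sub]
    ring

theorem fE_le (φ x : ℝ) (hx : 0 < Real.sin (x / 2)) (n : ℕ) :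
    |∑ k ∈ Finset.range n, Real.cos (((k:ℝ)+1) * x - φ)| ≤ (Real.sin (x / 2))⁻¹ := by
  have h := fE_sin φ x n
  have h1 : |2 * Real.sin (x / 2) * ∑ k ∈ Finset.range n, Real.cos (((k:ℝ)+1) * x - φ)| ≤ 2 := by
    rw [h]
    have a1 := Real.sin_le_one (((n:ℝ) + 1/2) * x - φ)
    have a2 := Real.neg_one_le_sin (((n:ℝ) + 1/2) * x - φ)
    have a3 := Real.sin_le_one (x / 2 - φ)
    have a4 := Real.neg_one_le_sin (x / 2 - φ)
    rw [abs_le]
    constructor <;> linarith
  rw [abs_mul, abs_of_pos (by positivity)] at h1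
  rw [← one_div, le_div_iff₀ hx]
  nlinarith

theorem fE_le' (φ x : ℝ) (n : ℕ) :
    |∑ k ∈ Finset.range n, Real.cos (((k:ℝ)+1) * x - φ)| ≤ n := by
  refine (Finset.abs_sum_le_sum_abs _ _).trans ?_
  calc _ ≤ ∑ k ∈ Finset.range n, (1 : ℝ) := Finset.sum_le_sum fun k _ => Real.abs_cos_le_one _
    _ = n := by simp

theorem f_parts (c z : ℕ → ℝ) (n : ℕ) :
    ∑ i ∈ Finset.range n, c i * z i = c n * (∑ i ∈ Finset.range n, z i)
      + ∑ i ∈ Finset.range n, (c i - c (i+1)) * (∑ j ∈ Finset.range (i+1), z j) := by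
  induction n with
  | zero => simp
  | succ n ih =>
    rw [Finset.sum_range_succ, ih, Finset.sum_range_succ z n,
      Finset.sum_range_succ (fun i => (c i - c (i+1)) * (∑ j ∈ Finset.range (i+1), z j)) n,
      Finset.sum_range_succ z n]
    ring

theorem f_bound (r : ℝ) (β : ℝ) (hβ0 : 0 < β) (hβr : β ≤ r / 2) (hβ1 : β ≤ 1) (φ x : ℝ)
    (hx : 0 < Real.sin (x / 2)) (n : ℕ) :
    |∑ k ∈ Finset.range n, ((k:ℝ)+1)^(-r) * Real.cos (((k:ℝ)+1) * x - φ)| ≤
      3 * (Real.sin (x / 2)) ^ (-(1 - β)) := by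
  set z : ℕ → ℝ := fun k => Real.cos (((k:ℝ)+1) * x - φ) with hz
  set c : ℕ → ℝ := fun k => ((k:ℝ)+1)^(-r) with hc
  set s : ℕ → ℝ := fun k => ((k:ℝ)+1)^(-(r/2)) with hs
  set K : ℝ := (Real.sin (x / 2)) ^ (-(1 - β)) with hK
  have hK0 : 0 ≤ K := by positivity
  have hspos : ∀ k, 0 < s k := fun k => by simp only [hs]; positivity
  have hcs : ∀ k, c k = s k * s k := by
    intro k
    simp only [hc, hs]
    rw [← Real.rpow_add (by positivity)]
    congr 1
    ring
  have hsanti : ∀ k, s (k+1) ≤ s k := by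
    intro k
    simp only [hs]
    apply Real.rpow_le_rpow_of_nonpos (by positivity)
    · push_cast; linarith
    · linarith
  have hE : ∀ m : ℕ, |∑ i ∈ Finset.range m, z i| ≤ (m:ℝ) ^ β * K := by
    intro m
    have h1 := fE_le φ x hx m
    have h2 := fE_le' φ x m
    have h3 : |∑ i ∈ Finset.range m, z i| = |∑ i ∈ Finset.range m, z i| ^ β *
        |∑ i ∈ Finset.range m, z i| ^ (1 - β) := by
      rw [← Real.rpow_add_of_nonneg (abs_nonneg _) hβ0.le (by linarith)]
      simp
    rw [h3]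
    apply mul_le_mul
    · exact Real.rpow_le_rpow (abs_nonneg _) h2 hβ0.le
    · rw [hK, Real.rpow_neg hx.le, ← Real.inv_rpow hx.le]
      exact Real.rpow_le_rpow (abs_nonneg _) h1 (by linarith)
    · positivity
    · positivity
  have hkβ : ∀ k : ℕ, ((k:ℝ)+1) ^ β * s k ≤ 1 := by
    intro k
    simp only [hs]
    rw [← Real.rpow_add (by positivity)]
    apply Real.rpow_le_one_of_one_le_of_nonpos
    · have : (0:ℝ) ≤ k := by positivity
      linarith
    · linarith
  have hs1 : ∀ k, s k ≤ 1 := by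
    intro k
    simp only [hs]
    apply Real.rpow_le_one_of_one_le_of_nonpos
    · have : (0:ℝ) ≤ k := by positivity
      linarith
    · linarith
  have hmain := f_parts c z n
  have e0 : ∑ k ∈ Finset.range n, ((k:ℝ)+1)^(-r) * Real.cos (((k:ℝ)+1) * x - φ)
      = ∑ i ∈ Finset.range n, c i * z i := rfl
  rw [e0, hmain]
  have b1 : |c n * (∑ i ∈ Finset.range n, z i)| ≤ K := by
    rw [abs_mul, hcs n, abs_of_nonneg (by have := hspos n; positivity)]
    have h4 : (n:ℝ) ^ β ≤ ((n:ℝ)+1) ^ β := Real.rpow_le_rpow (by positivity) (by linarith) hβ0.le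
    calc s n * s n * |∑ i ∈ Finset.range n, z i| ≤ s n * s n * ((n:ℝ) ^ β * K) :=
          mul_le_mul_of_nonneg_left (hE n) (by have := hspos n; positivity)
      _ ≤ s n * s n * (((n:ℝ)+1) ^ β * K) := by
          have := hspos n
          gcongr
      _ = s n * (((n:ℝ)+1) ^ β * s n) * K := by ring
      _ ≤ 1 * 1 * K := by
          have := hspos n
          have h5 := hkβ n
          have h6 := hs1 n
          gcongr
      _ = K := by ring
  have b2 : |∑ i ∈ Finset.range n, (c i - c (i+1)) * (∑ j ∈ Finset.range (i+1), z j)| ≤ 2 * K := by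
    refine (Finset.abs_sum_le_sum_abs _ _).trans ?_
    have b3 : ∀ i ∈ Finset.range n, |(c i - c (i+1)) * (∑ j ∈ Finset.range (i+1), z j)| ≤
        (s i - s (i+1)) * (2 * K) := by
      intro i _
      have hd : 0 ≤ s i - s (i+1) := by linarith [hsanti i]
      have hci : c i - c (i+1) = (s i - s (i+1)) * (s i + s (i+1)) := by
        rw [hcs, hcs]; ring
      rw [abs_mul, hci, abs_of_nonneg (mul_nonneg hd (by linarith [hspos i, hspos (i+1)]))]
      have h7 := hE (i+1)
      have h8 := hkβ i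
      push_cast at h7
      calc (s i - s (i+1)) * (s i + s (i+1)) * |∑ j ∈ Finset.range (i+1), z j|
          ≤ (s i - s (i+1)) * (s i + s (i+1)) * (((i:ℝ)+1) ^ β * K) :=
            mul_le_mul_of_nonneg_left h7 (mul_nonneg hd (by linarith [hspos i, hspos (i+1)]))
        _ ≤ (s i - s (i+1)) * (2 * s i) * (((i:ℝ)+1) ^ β * K) := by
            apply mul_le_mul_of_nonneg_right _ (by positivity)
            apply mul_le_mul_of_nonneg_left _ hd
            linarith [hsanti i]
        _ = (s i - s (i+1)) * (2 * (((i:ℝ)+1) ^ β * s i) * K) := by ring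
        _ ≤ (s i - s (i+1)) * (2 * 1 * K) := by
            apply mul_le_mul_of_nonneg_left _ hd
            gcongr
        _ = _ := by ring
    refine (Finset.sum_le_sum b3).trans ?_
    rw [← Finset.sum_mul, Finset.sum_range_sub']
    have h9 : s 0 - s n ≤ 1 := by linarith [hs1 0, hspos n]
    calc (s 0 - s n) * (2 * K) ≤ 1 * (2 * K) := mul_le_mul_of_nonneg_right h9 (by positivity)
      _ = 2 * K := one_mul _
  calc _ ≤ |c n * (∑ i ∈ Finset.range n, z i)| + |∑ i ∈ Finset.range n, (c i - c (i+1)) *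
        (∑ j ∈ Finset.range (i+1), z j)| := abs_add_le _ _
    _ ≤ K + 2 * K := add_le_add b1 b2
    _ = 3 * K := by ring

theorem c_tendsto (r : ℝ) (hr : 0 < r) :
    Filter.Tendsto (fun k : ℕ => ((k:ℝ)+1)^(-r)) Filter.atTop (nhds 0) := by
  have h1 := tendsto_rpow_neg_atTop hr
  have h2 : Filter.Tendsto (fun k : ℕ => (k:ℝ)+1) Filter.atTop Filter.atTop :=
    Filter.tendsto_atTop_add_const_right _ _ tendsto_natCast_atTop_atTop
  exact h1.comp h2

theorem c_anti (r : ℝ) (hr : 0 < r) : Antitone (fun k : ℕ => ((k:ℝ)+1)^(-r)) := by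
  apply antitone_nat_of_succ_le
  intro k
  apply Real.rpow_le_rpow_of_nonpos (by positivity)
  · push_cast; linarith
  · linarith

theorem fp_tendsto (r : ℝ) (hr : 0 < r) (α x : ℝ) (hx : 0 < Real.sin (x / 2)) :
    Filter.Tendsto (fun N => fp r α N x) Filter.atTop (nhds (F1L r α x)) := by
  have h1 : CauchySeq (fun n : ℕ => ∑ k ∈ Finset.range n,
      ((k:ℝ)+1)^(-r) • Real.cos (((k:ℝ)+1) * x - α * π / 2)) := by
    apply Antitone.cauchySeq_series_mul_of_tendsto_zero_of_bounded (c_anti r hr) (c_tendsto r hr)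
      (b := (Real.sin (x / 2))⁻¹)
    intro n
    exact fE_le _ x hx n
  obtain ⟨l, hl⟩ := cauchySeq_tendsto_of_complete h1
  have h2 : Filter.Tendsto (fun N => fp r α N x) Filter.atTop (nhds (1 + 2 * l)) := by
    unfold fp
    exact tendsto_const_nhds.add (tendsto_const_nhds.mul hl)
  have h3 : F1L r α x = 1 + 2 * l := h2.limUnder_eq
  rw [h3]
  exact h2

theorem fp_period (r α : ℝ) (N : ℕ) (x : ℝ) (n : ℤ) : fp r α N (x + n * (2 * π)) = fp r α N x := by
  unfold fp
  congr 2
  refine Finset.sum_congr rfl fun k _ => ?_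
  congr 1
  have : ((k:ℝ)+1) * (x + n * (2 * π)) - α * π / 2
      = (((k:ℝ)+1) * x - α * π / 2) + (((k+1 : ℤ) * n : ℤ) : ℝ) * (2 * π) := by
    push_cast
    ring
  rw [this, Real.cos_add_int_mul_two_pi]

theorem F1L_period' (r α : ℝ) (x : ℝ) (n : ℤ) : F1L r α (x + n * (2 * π)) = F1L r α x := by
  have : (fun N => fp r α N (x + n * (2 * π))) = fun N => fp r α N x := by
    funext N
    exact fp_period r α N x n
  show Filter.limUnder Filter.atTop (fun N => fp r α N (x + n * (2 * π))) =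
    Filter.limUnder Filter.atTop (fun N => fp r α N x)
  rw [this]

theorem fp_tendsto' (r : ℝ) (hr : 0 < r) (α x : ℝ) (hx : Real.sin (x / 2) ≠ 0) :
    Filter.Tendsto (fun N => fp r α N x) Filter.atTop (nhds (F1L r α x)) := by
  rcases lt_or_gt_of_ne hx with h | h
  · have h1 : 0 < Real.sin ((x + (1 : ℤ) * (2 * π)) / 2) := by
      have : (x + (1 : ℤ) * (2 * π)) / 2 = x / 2 + π := by push_cast; ring
      rw [this, Real.sin_add_pi]
      linarith
    have h2 := fp_tendsto r hr α _ h1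
    rw [F1L_period'] at h2
    have h3 : (fun N => fp r α N (x + (1 : ℤ) * (2 * π))) = fun N => fp r α N x := by
      funext N
      exact fp_period r α N x 1
    rwa [h3] at h2
  · exact fp_tendsto r hr α x h

theorem F1L_meas (r : ℝ) (hr : 0 < r) (α : ℝ) : Measurable (F1L r α) := by
  classical
  have hS : MeasurableSet {x : ℝ | Real.sin (x / 2) = 0} :=
    measurableSet_eq_fun (by fun_prop) (by fun_prop)
  let G : ℕ → ℝ → ℝ := fun N x => if Real.sin (x / 2) = 0 then F1L r α 0 else fp r α N x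
  have hG : ∀ N, Measurable (G N) := fun N =>
    Measurable.ite hS measurable_const (fp_cont r α N).measurable
  refine measurable_of_tendsto_metrizable hG ?_
  rw [tendsto_pi_nhds]
  intro x
  by_cases h : Real.sin (x / 2) = 0
  · obtain ⟨n, hn⟩ := Real.sin_eq_zero_iff.1 h
    have hx : x = 0 + n * (2 * π) := by linarith
    have h1 : F1L r α x = F1L r α 0 := by rw [hx, F1L_period']
    have h2 : (fun N => G N x) = fun _ => F1L r α x := by
      funext N
      simp only [G, if_pos h, h1]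
    rw [h2]
    exact tendsto_const_nhds
  · have h2 : (fun N => G N x) = fun N => fp r α N x := by
      funext N
      simp only [G, if_neg h]
    rw [h2]
    exact fp_tendsto' r hr α x h

theorem sin_low (x : ℝ) (h0 : 0 < x) (h1 : x < 2 * π) :
    x / π ≤ Real.sin (x / 2) ∨ (2 * π - x) / π ≤ Real.sin (x / 2) := by
  have hpi := Real.pi_pos
  rcases le_total x π with h | h
  · left
    have := Real.mul_le_sin (x := x / 2) (by linarith) (by linarith)
    calc x / π = 2 / π * (x / 2) := by ring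
      _ ≤ _ := this
  · right
    have := Real.mul_le_sin (x := (2 * π - x) / 2) (by linarith) (by linarith)
    have h2 : Real.sin ((2 * π - x) / 2) = Real.sin (x / 2) := by
      rw [← Real.sin_pi_sub (x / 2)]
      congr 1
      ring
    rw [h2] at this
    calc (2 * π - x) / π = 2 / π * ((2 * π - x) / 2) := by ring
      _ ≤ _ := this

noncomputable def maj (θ x : ℝ) : ℝ := 1 + 6 * (π ^ θ * (x ^ (-θ) + (2 * π - x) ^ (-θ)))

theorem maj_bound (θ : ℝ) (hθ0 : 0 < θ) (x : ℝ) (h0 : 0 < x) (h1 : x < 2 * π) :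
    1 + 6 * (Real.sin (x / 2)) ^ (-θ) ≤ maj θ x := by
  have hpi := Real.pi_pos
  unfold maj
  have hx2 : 0 < 2 * π - x := by linarith
  have key : (Real.sin (x / 2)) ^ (-θ) ≤ π ^ θ * (x ^ (-θ) + (2 * π - x) ^ (-θ)) := by
    have e : ∀ y : ℝ, 0 < y → (y / π) ^ (-θ) = π ^ θ * y ^ (-θ) := by
      intro y hy
      rw [Real.div_rpow hy.le hpi.le, Real.rpow_neg hpi.le, div_inv_eq_mul, mul_comm]
    rcases sin_low x h0 h1 with h | h
    · calc (Real.sin (x / 2)) ^ (-θ) ≤ (x / π) ^ (-θ) :=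
            Real.rpow_le_rpow_of_nonpos (by positivity) h (by linarith)
        _ = π ^ θ * x ^ (-θ) := e x h0
        _ ≤ _ := by
            rw [mul_add]
            have : 0 ≤ π ^ θ * (2 * π - x) ^ (-θ) := by positivity
            linarith
    · calc (Real.sin (x / 2)) ^ (-θ) ≤ ((2 * π - x) / π) ^ (-θ) :=
            Real.rpow_le_rpow_of_nonpos (by positivity) h (by linarith)
        _ = π ^ θ * (2 * π - x) ^ (-θ) := e _ hx2
        _ ≤ _ := by
            rw [mul_add]
            have : 0 ≤ π ^ θ * x ^ (-θ) := by positivity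
            linarith
  linarith

theorem maj_int (θ : ℝ) (hθ1 : θ < 1) : IntegrableOn (maj θ) (Set.Ico 0 (2 * π)) := by
  have hpi := Real.pi_pos
  have h1 : IntervalIntegrable (fun x : ℝ => x ^ (-θ)) volume 0 (2 * π) :=
    intervalIntegral.intervalIntegrable_rpow' (by linarith)
  have h2 : IntervalIntegrable (fun x : ℝ => (2 * π - x) ^ (-θ)) volume 0 (2 * π) := by
    have := h1.comp_sub_left (2 * π)
    simp only [sub_zero, sub_self] at this
    exact this.symm
  have h3 : IntervalIntegrable (maj θ) volume 0 (2 * π) := by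
    unfold maj
    exact intervalIntegrable_const.add (((h1.add h2).const_mul (π ^ θ)).const_mul 6)
  have h4 := (intervalIntegrable_iff_integrableOn_Ioc_of_le (by positivity)).1 h3
  exact (integrableOn_Ico_iff_integrableOn_Ioo).2 ((integrableOn_Ioc_iff_integrableOn_Ioo).1 h4)

theorem fp_maj (r : ℝ) (hr : 0 < r) (α : ℝ) : ∃ θ : ℝ, 0 < θ ∧ θ < 1 ∧
    ∀ N x, 0 < x → x < 2 * π → |fp r α N x| ≤ maj θ x := by
  refine ⟨1 - min (r / 2) (1 / 2), ?_, ?_, ?_⟩
  · have := min_le_right (r / 2) (1 / 2 : ℝ)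
    linarith
  · have : 0 < min (r / 2) (1 / 2 : ℝ) := lt_min (by linarith) (by norm_num)
    linarith
  · intro N x h0 h1
    have hβ0 : 0 < min (r / 2) (1 / 2 : ℝ) := lt_min (by linarith) (by norm_num)
    have hθ : 0 < 1 - min (r / 2) (1 / 2 : ℝ) := by
      have := min_le_right (r / 2) (1 / 2 : ℝ)
      linarith
    have hs : 0 < Real.sin (x / 2) := Real.sin_pos_of_pos_of_lt_pi (by linarith) (by linarith)
    have hb := f_bound r (min (r / 2) (1 / 2)) hβ0 (min_le_left _ _)
      ((min_le_right _ _).trans (by norm_num)) (α * π / 2) x hs N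
    refine le_trans ?_ (maj_bound _ hθ x h0 h1)
    unfold fp
    calc _ ≤ |(1:ℝ)| + |2 * ∑ k ∈ Finset.range N, ((k:ℝ)+1)^(-r) *
          Real.cos (((k:ℝ)+1) * x - α * π / 2)| := abs_add_le _ _
      _ ≤ 1 + 2 * (3 * (Real.sin (x / 2)) ^ (-(1 - min (r / 2) (1 / 2)))) := by
          rw [abs_one, abs_mul, abs_two]
          gcongr
      _ = _ := by ring

theorem F1L_maj (r : ℝ) (hr : 0 < r) (α θ : ℝ)
    (h : ∀ N x, 0 < x → x < 2 * π → |fp r α N x| ≤ maj θ x) (x : ℝ) (h0 : 0 < x)
    (h1 : x < 2 * π) : |F1L r α x| ≤ maj θ x := by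
  have hs : 0 < Real.sin (x / 2) := Real.sin_pos_of_pos_of_lt_pi (by linarith) (by linarith)
  exact le_of_tendsto' (fp_tendsto r hr α x hs).abs (fun N => h N x h0 h1)

theorem ae_pos : ∀ᵐ x ∂(volume.restrict (Set.Ico 0 (2 * π))), 0 < x ∧ x < 2 * π := by
  rw [ae_restrict_iff' measurableSet_Ico]
  have : ∀ᵐ x : ℝ ∂volume, x ≠ 0 := by
    rw [ae_iff]
    simp
  filter_upwards [this] with x hx hxI
  exact ⟨lt_of_le_of_ne hxI.1 (Ne.symm hx), hxI.2⟩

theorem F1L_intOn (r : ℝ) (hr : 0 < r) (α : ℝ) : IntegrableOn (F1L r α) (Set.Ico 0 (2 * π)) := by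
  obtain ⟨θ, hθ0, hθ1, hmaj⟩ := fp_maj r hr α
  refine Integrable.mono' (maj_int θ hθ1) (F1L_meas r hr α).aestronglyMeasurable ?_
  filter_upwards [ae_pos] with x hx
  exact F1L_maj r hr α θ hmaj x hx.1 hx.2

noncomputable def mT : Measure ℝ := ENNReal.ofReal (2 * π)⁻¹ • volume.restrict (Set.Ico 0 (2 * π))

theorem mT_cont {f : ℝ → ℂ} (hf : Continuous f) : Integrable f mT := by
  have h1 : IntegrableOn f (Set.Icc 0 (2 * π)) := hf.integrableOn_Icc
  exact (h1.mono_set Set.Ico_subset_Icc_self).smul_measure ENNReal.ofReal_ne_top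

theorem mT_exp (j : ℤ) : ∫ t, Complex.exp (Complex.I * ((j : ℂ) * (t : ℂ))) ∂mT
    = if j = 0 then 1 else 0 := by
  have hpi := Real.pi_pos
  have h2pi : (0:ℝ) < 2 * π := by positivity
  unfold mT
  rw [integral_smul_measure, integral_Ico_eq_integral_Ioc,
    ← intervalIntegral.integral_of_le h2pi.le, ENNReal.toReal_ofReal (by positivity)]
  by_cases hj : j = 0
  · subst hj
    rw [if_pos rfl]
    simp only [Int.cast_zero, zero_mul, mul_zero, Complex.exp_zero]
    rw [intervalIntegral.integral_const, sub_zero, smul_smul, inv_mul_cancel₀ h2pi.ne', one_smul]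
  · rw [if_neg hj]
    have hc : (Complex.I * (j : ℂ)) ≠ 0 := mul_ne_zero Complex.I_ne_zero (by exact_mod_cast hj)
    have h1 : (fun t : ℝ => Complex.exp (Complex.I * ((j : ℂ) * (t : ℂ))))
        = fun t : ℝ => Complex.exp ((Complex.I * (j : ℂ)) * (t : ℂ)) := by
      funext t
      rw [mul_assoc]
    rw [h1, integral_exp_mul_complex hc]
    have h2 : Complex.exp (Complex.I * (j : ℂ) * ((2 * π : ℝ) : ℂ)) = 1 := by
      have : Complex.I * (j : ℂ) * ((2 * π : ℝ) : ℂ) = (j : ℂ) * (2 * π * Complex.I) := by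
        push_cast
        ring
      rw [this, Complex.exp_int_mul_two_pi_mul_I]
    rw [h2]
    simp

theorem fp_expand (r α : ℝ) (m : ℤ) (N : ℕ) (t : ℝ) :
    (fp r α N t : ℂ) * Complex.exp (-(Complex.I * (((m:ℝ) * t : ℝ) : ℂ))) =
      Complex.exp (Complex.I * (((-m : ℤ) : ℂ) * (t : ℂ))) + ∑ k ∈ Finset.range N,
        ((((k:ℝ)+1)^(-r) : ℝ) : ℂ) *
          (Complex.exp (-(Complex.I * ((α * π / 2 : ℝ) : ℂ))) *
            Complex.exp (Complex.I * ((((k:ℤ) + 1 - m : ℤ) : ℂ) * (t : ℂ))) +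
          Complex.exp (Complex.I * ((α * π / 2 : ℝ) : ℂ)) *
            Complex.exp (Complex.I * (((-((k:ℤ) + 1) - m : ℤ) : ℂ) * (t : ℂ)))) := by
  unfold fp
  rw [Complex.ofReal_add, Complex.ofReal_mul, Complex.ofReal_sum, add_mul, Finset.mul_sum,
    Finset.sum_mul]
  congr 1
  · rw [Complex.ofReal_one, one_mul]
    congr 1
    push_cast
    ring
  · refine Finset.sum_congr rfl fun k _ => ?_
    rw [Complex.ofReal_mul, Complex.ofReal_cos, Complex.cos]
    have e1 : Complex.exp (-(Complex.I * ((α * π / 2 : ℝ) : ℂ))) *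
        Complex.exp (Complex.I * ((((k:ℤ) + 1 - m : ℤ) : ℂ) * (t : ℂ)))
        = Complex.exp ((((((k:ℝ)+1) * t - α * π / 2 : ℝ)) : ℂ) * Complex.I) *
          Complex.exp (-(Complex.I * (((m:ℝ) * t : ℝ) : ℂ))) := by
      rw [← Complex.exp_add, ← Complex.exp_add]
      congr 1
      push_cast
      ring
    have e2 : Complex.exp (Complex.I * ((α * π / 2 : ℝ) : ℂ)) *
        Complex.exp (Complex.I * (((-((k:ℤ) + 1) - m : ℤ) : ℂ) * (t : ℂ)))
        = Complex.exp (-(((((k:ℝ)+1) * t - α * π / 2 : ℝ)) : ℂ) * Complex.I) *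
          Complex.exp (-(Complex.I * (((m:ℝ) * t : ℝ) : ℂ))) := by
      rw [← Complex.exp_add, ← Complex.exp_add]
      congr 1
      push_cast
      ring
    rw [e1, e2]
    push_cast
    ring

theorem fp_coef (r α : ℝ) (m : ℤ) (N : ℕ) :
    ∫ t, (fp r α N t : ℂ) * Complex.exp (-(Complex.I * (((m:ℝ) * t : ℝ) : ℂ))) ∂mT
      = (if -m = 0 then 1 else 0) + ∑ k ∈ Finset.range N, ((((k:ℝ)+1)^(-r) : ℝ) : ℂ) *
          (Complex.exp (-(Complex.I * ((α * π / 2 : ℝ) : ℂ))) *
            (if (k:ℤ) + 1 - m = 0 then 1 else 0) +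
          Complex.exp (Complex.I * ((α * π / 2 : ℝ) : ℂ)) *
            (if -((k:ℤ) + 1) - m = 0 then 1 else 0)) := by
  have h0 : ∀ j : ℤ, Continuous (fun t : ℝ => Complex.exp (Complex.I * ((j : ℂ) * (t : ℂ)))) := by
    intro j
    fun_prop
  simp only [fp_expand]
  rw [integral_add (mT_cont (h0 _)) (mT_cont (by fun_prop)), mT_exp,
    integral_finset_sum _ (fun k _ => mT_cont (by fun_prop))]
  congr 1
  refine Finset.sum_congr rfl fun k _ => ?_
  rw [integral_const_mul, integral_add (mT_cont (by fun_prop)) (mT_cont (by fun_prop)),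
    integral_const_mul, integral_const_mul, mT_exp, mT_exp]

theorem coef_val (r α : ℝ) (m : ℤ) (N : ℕ) (hN : m.natAbs ≤ N) :
    ((if -m = 0 then 1 else 0) + ∑ k ∈ Finset.range N, ((((k:ℝ)+1)^(-r) : ℝ) : ℂ) *
          (Complex.exp (-(Complex.I * ((α * π / 2 : ℝ) : ℂ))) *
            (if (k:ℤ) + 1 - m = 0 then 1 else 0) +
          Complex.exp (Complex.I * ((α * π / 2 : ℝ) : ℂ)) *
            (if -((k:ℤ) + 1) - m = 0 then 1 else 0)) : ℂ) =
      (if m = 0 then 1 else (((|(m : ℝ)|)^(-r) : ℝ) : ℂ) *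
        Complex.exp (-(Complex.I * (((SignType.sign m : ℤ) : ℝ) * α * π / 2 : ℝ)))) := by
  rcases lt_trichotomy m 0 with hm | hm | hm
  · obtain ⟨q, hq⟩ : ∃ q : ℕ, m = -((q:ℤ) + 1) := ⟨(-m - 1).toNat, by omega⟩
    have hs : SignType.sign m = -1 := sign_neg hm
    rw [if_neg (by omega), if_neg (by omega), zero_add,
      Finset.sum_eq_single q]
    · have habs : |(m : ℝ)| = (q : ℝ) + 1 := by
        rw [hq]
        push_cast
        rw [abs_neg, abs_of_nonneg (by positivity)]
      rw [if_neg (by omega), if_pos (by omega), habs, hs]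
      simp only [mul_zero, zero_add, mul_one]
      congr 2
      push_cast
      simp
      ring
    · intro k _ hk
      rw [if_neg (by omega), if_neg (by omega)]
      simp
    · intro h
      exfalso
      apply h
      rw [Finset.mem_range]
      omega
  · subst hm
    rw [if_pos (by simp), if_pos rfl, Finset.sum_eq_zero, add_zero]
    intro k _
    rw [if_neg (by omega), if_neg (by omega)]
    simp
  · obtain ⟨q, hq⟩ : ∃ q : ℕ, m = (q:ℤ) + 1 := ⟨(m - 1).toNat, by omega⟩
    have hs : SignType.sign m = 1 := sign_pos hm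
    rw [if_neg (by omega), if_neg (by omega), zero_add,
      Finset.sum_eq_single q]
    · have habs : |(m : ℝ)| = (q : ℝ) + 1 := by
        rw [hq]
        push_cast
        rw [abs_of_nonneg (by positivity)]
      rw [if_pos (by omega), if_neg (by omega), habs, hs]
      simp only [mul_zero, add_zero, mul_one]
      congr 2
      push_cast
      simp
    · intro k _ hk
      rw [if_neg (by omega), if_neg (by omega)]
      simp
    · intro h
      exfalso
      apply h
      rw [Finset.mem_range]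
      omega

theorem F1L_facts (r : ℝ) (hr : 0 < r) (a : ℝ) :
    Measurable (F1L r a) ∧ (∀ x, F1L r a (x + 2 * π) = F1L r a x) ∧
    IntegrableOn (F1L r a) (Set.Ico 0 (2 * π)) ∧
    ∀ m : ℤ, ∫ t, (F1L r a t : ℂ) * Complex.exp (-(Complex.I * (((m:ℝ) * t : ℝ) : ℂ)))
        ∂(ENNReal.ofReal (2 * π)⁻¹ • volume.restrict (Set.Ico 0 (2 * π))) =
      (if m = 0 then 1 else (((|(m : ℝ)|)^(-r) : ℝ) : ℂ) *
        Complex.exp (-(Complex.I * (((SignType.sign m : ℤ) : ℝ) * a * π / 2 : ℝ)))) := by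
  refine ⟨F1L_meas r hr a, ?_, F1L_intOn r hr a, ?_⟩
  · intro x
    have := F1L_period' r a x 1
    simpa using this
  · intro m
    obtain ⟨θ, hθ0, hθ1, hmaj⟩ := fp_maj r hr a
    have hae : ∀ᵐ x ∂mT, 0 < x ∧ x < 2 * π := by
      unfold mT
      exact Measure.ae_smul_measure ae_pos _
    have hlim : Filter.Tendsto (fun N => ∫ t, (fp r a N t : ℂ) *
        Complex.exp (-(Complex.I * (((m:ℝ) * t : ℝ) : ℂ))) ∂mT) Filter.atTop
        (nhds (∫ t, (F1L r a t : ℂ) * Complex.exp (-(Complex.I * (((m:ℝ) * t : ℝ) : ℂ))) ∂mT)) := by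
      refine tendsto_integral_of_dominated_convergence (maj θ) ?_ ?_ ?_ ?_
      · intro N
        have hc := fp_cont r a N
        exact (by fun_prop : Continuous fun t : ℝ => (fp r a N t : ℂ) *
          Complex.exp (-(Complex.I * (((m:ℝ) * t : ℝ) : ℂ)))).aestronglyMeasurable
      · exact Integrable.smul_measure (maj_int θ hθ1) ENNReal.ofReal_ne_top
      · intro N
        filter_upwards [hae] with t ht
        rw [norm_mul, Complex.norm_real]
        have : ‖Complex.exp (-(Complex.I * (((m:ℝ) * t : ℝ) : ℂ)))‖ = 1 := by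
          have e : -(Complex.I * (((m:ℝ) * t : ℝ) : ℂ)) = ((-((m:ℝ) * t) : ℝ) : ℂ) * Complex.I := by
            push_cast
            ring
          rw [e, Complex.norm_exp_ofReal_mul_I]
        rw [this, mul_one]
        exact hmaj N t ht.1 ht.2
      · filter_upwards [hae] with t ht
        have hs : 0 < Real.sin (t / 2) :=
          Real.sin_pos_of_pos_of_lt_pi (by linarith [ht.1]) (by linarith [ht.2])
        have h1 := fp_tendsto r hr a t hs
        have h2 : Filter.Tendsto (fun N => (fp r a N t : ℂ)) Filter.atTop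
            (nhds (F1L r a t : ℂ)) := (Complex.continuous_ofReal.tendsto _).comp h1
        exact h2.mul_const _
    have hev : Filter.Tendsto (fun N => ∫ t, (fp r a N t : ℂ) *
        Complex.exp (-(Complex.I * (((m:ℝ) * t : ℝ) : ℂ))) ∂mT) Filter.atTop
        (nhds (if m = 0 then 1 else (((|(m : ℝ)|)^(-r) : ℝ) : ℂ) *
          Complex.exp (-(Complex.I * (((SignType.sign m : ℤ) : ℝ) * a * π / 2 : ℝ))))) := by
      apply tendsto_const_nhds.congr'
      filter_upwards [Filter.eventually_ge_atTop m.natAbs] with N hN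
      rw [fp_coef, coef_val r a m N hN]
    exact tendsto_nhds_unique hlim hev

end Sol_EX_F1L_facts

alias F1L_facts := Sol_EX_F1L_facts.F1L_facts

end HypVol
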