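import Pool.Agent.EntX.Defs
import Pool.Agent.EntX.L_F1L_facts
import Pool.Agent.HypVol.L_TP_prob
open MeasureTheory Real ProbabilityTheory
open scoped ENNReal BigOperators

namespace HypVol
namespace Sol_EX_FrL_facts

theorem FrL_facts {d : ℕ} (r : ℝ) (hr : 0 < r) (α : Fin d → ℝ) :
    Measurable (FrL r α) ∧ (∀ (x : Fin d → ℝ) (j : Fin d), FrL r α (Function.update x j (x j + 2 * π)) = FrL r α x) ∧
    Integrable (FrL r α) (TP d) ∧ ∀ k : Fin d → ℤ, fc (fun x => (FrL r α x : ℂ)) k = Fh r α k := by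
  haveI hfin : IsFiniteMeasure (ENNReal.ofReal (2 * π)⁻¹ • volume.restrict (Set.Ico 0 (2 * π))) :=
    Measure.smul_finite _ ENNReal.ofReal_ne_top
  refine ⟨?_, ?_, ?_, ?_⟩
  · have : FrL r α = fun x : Fin d → ℝ => ∏ j, F1L r (α j) (x j) := rfl
    rw [this]
    exact Finset.measurable_fun_prod _ fun j _ =>
      (F1L_facts r hr (α j)).1.comp (measurable_pi_apply j)
  · intro x j
    unfold FrL
    refine Finset.prod_congr rfl fun i _ => ?_
    by_cases hij : i = j
    · rw [hij, Function.update_self]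
      exact (F1L_facts r hr (α j)).2.1 (x j)
    · rw [Function.update_of_ne hij]
  · have : FrL r α = fun x : Fin d → ℝ => ∏ j, F1L r (α j) (x j) := rfl
    rw [this]
    unfold TP
    exact Integrable.fintype_prod (f := fun j : Fin d => F1L r (α j)) fun j =>
      Integrable.smul_measure (F1L_facts r hr (α j)).2.2.1 ENNReal.ofReal_ne_top
  · intro k
    unfold fc Fh TP
    have h1 : ∀ x : Fin d → ℝ, ((FrL r α x : ℝ) : ℂ) *
        Complex.exp (-(Complex.I * ((∑ j, (k j : ℝ) * x j : ℝ) : ℂ))) =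
        ∏ j, ((F1L r (α j) (x j) : ℂ) *
          Complex.exp (-(Complex.I * (((k j : ℝ) * x j : ℝ) : ℂ)))) := by
      intro x
      rw [Finset.prod_mul_distrib, ← Complex.exp_sum]
      congr 1
      · unfold FrL
        push_cast
        rfl
      · congr 1
        rw [Finset.sum_neg_distrib, ← Finset.mul_sum]
        push_cast
        rfl
    simp_rw [h1]
    have h2 := integral_fintype_prod_eq_prod (𝕜 := ℂ)
      (fun (j : Fin d) (t : ℝ) => (F1L r (α j) t : ℂ) *
          Complex.exp (-(Complex.I * (((k j : ℝ) * t : ℝ) : ℂ))))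
      (μ := fun _ : Fin d => ENNReal.ofReal (2 * π)⁻¹ • volume.restrict (Set.Ico 0 (2 * π)))
    rw [h2]
    exact Finset.prod_congr rfl fun j _ => (F1L_facts r hr (α j)).2.2.2 (k j)

end Sol_EX_FrL_facts

alias FrL_facts := Sol_EX_FrL_facts.FrL_facts

end HypVol
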