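import Pool.Agent.EntX.Defs
import Pool.Agent.HypVol.L_TP_prob
open MeasureTheory Real ProbabilityTheory
open scoped ENNReal BigOperators

namespace HypVol
namespace Sol_EX_shift_mp

open Set in
theorem shift_one (y : ℝ) :
    MeasurePreserving (fun t : ℝ => toIcoMod Real.two_pi_pos 0 (t - y))
      (ENNReal.ofReal (2 * π)⁻¹ • volume.restrict (Set.Ico 0 (2 * π)))
      (ENNReal.ofReal (2 * π)⁻¹ • volume.restrict (Set.Ico 0 (2 * π))) := by
  have hmeasM : Measurable (toIcoMod Real.two_pi_pos 0) := by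
    have h1 : (toIcoMod Real.two_pi_pos 0) = fun t : ℝ => Int.fract (t / (2 * π)) * (2 * π) := by
      funext t
      rw [toIcoMod_eq_fract_mul]
    rw [h1]
    exact (measurable_fract.comp (measurable_id.div_const _)).mul_const _
  have hf : Measurable (fun t : ℝ => toIcoMod Real.two_pi_pos 0 (t - y)) :=
    hmeasM.comp (measurable_id.sub_const y)
  refine MeasurePreserving.smul_measure ⟨hf, ?_⟩ _
  ext s hs
  rw [Measure.map_apply hf hs, Measure.restrict_apply (hf hs), Measure.restrict_apply hs]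
  set P : Set ℝ := (toIcoMod Real.two_pi_pos 0) ⁻¹' s with hP
  have hPm : MeasurableSet P := hmeasM hs
  have hinv : ∀ g : AddSubgroup.zmultiples (2 * π), (fun x : ℝ => g +ᵥ x) ⁻¹' P = P := by
    rintro ⟨g, hg⟩
    obtain ⟨n, rfl⟩ := AddSubgroup.mem_zmultiples_iff.1 hg
    ext t
    have : toIcoMod Real.two_pi_pos 0 (n • (2 * π) + t) = toIcoMod Real.two_pi_pos 0 t := by
      rw [add_comm]
      exact toIcoMod_add_zsmul _ _ _ _
    simp only [mem_preimage, hP]
    constructor
    · intro h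
      have h' : toIcoMod Real.two_pi_pos 0 (n • (2 * π) + t) ∈ s := h
      rwa [this] at h'
    · intro h
      show toIcoMod Real.two_pi_pos 0 (n • (2 * π) + t) ∈ s
      rwa [this]
  have hset := (isAddFundamentalDomain_Ioc Real.two_pi_pos (-y) volume).measure_set_eq
    (isAddFundamentalDomain_Ioc Real.two_pi_pos 0 volume) hPm hinv
  have e1 : (fun t : ℝ => toIcoMod Real.two_pi_pos 0 (t - y)) ⁻¹' s ∩ Ico 0 (2 * π)
      = (fun t => t - y) ⁻¹' (P ∩ Ico (-y) (-y + 2 * π)) := by
    ext t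
    simp only [mem_inter_iff, mem_preimage, mem_Ico, hP]
    constructor
    · rintro ⟨h, h1, h2⟩
      exact ⟨h, by linarith, by linarith⟩
    · rintro ⟨h, h1, h2⟩
      exact ⟨h, by linarith, by linarith⟩
  have e2 : s ∩ Ico 0 (2 * π) = P ∩ Ico 0 (0 + 2 * π) := by
    ext t
    simp only [mem_inter_iff, mem_preimage, hP, zero_add]
    constructor
    · rintro ⟨h, ht⟩
      refine ⟨?_, ht⟩
      rw [(toIcoMod_eq_self Real.two_pi_pos).2 (by simpa using ht)]
      exact h
    · rintro ⟨h, ht⟩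
      refine ⟨?_, ht⟩
      rwa [(toIcoMod_eq_self Real.two_pi_pos).2 (by simpa using ht)] at h
  rw [e1, e2]
  have e3 : volume ((fun t : ℝ => t - y) ⁻¹' (P ∩ Ico (-y) (-y + 2 * π)))
      = volume (P ∩ Ico (-y) (-y + 2 * π)) :=
    (measurePreserving_sub_right volume y).measure_preimage
      (hPm.inter measurableSet_Ico).nullMeasurableSet
  rw [e3]
  have e4 : ∀ a b : ℝ, volume (P ∩ Ico a b) = volume (P ∩ Ioc a b) := by
    intro a b
    exact measure_congr ((ae_eq_refl P).inter Ico_ae_eq_Ioc)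
  rw [e4, e4]
  exact hset

theorem shift_sf : SigmaFinite (ENNReal.ofReal (2 * π)⁻¹ • volume.restrict (Set.Ico 0 (2 * π)) : Measure ℝ) := by
  have h1 : IsFiniteMeasure (volume.restrict (Set.Ico 0 (2 * π)) : Measure ℝ) :=
    ⟨by rw [Measure.restrict_apply_univ]; exact measure_Ico_lt_top⟩
  have h2 := Measure.smul_finite (volume.restrict (Set.Ico 0 (2 * π)) : Measure ℝ)
    (c := ENNReal.ofReal (2 * π)⁻¹) ENNReal.ofReal_ne_top
  infer_instance

theorem shift_mp {d : ℕ} (y : Fin d → ℝ) :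
    MeasurePreserving (fun (x : Fin d → ℝ) (j : Fin d) => toIcoMod Real.two_pi_pos 0 (x j - y j)) (TP d) (TP d) := by
  have inst : ∀ j : Fin d, SigmaFinite ((fun _ : Fin d =>
      (ENNReal.ofReal (2 * π)⁻¹ • volume.restrict (Set.Ico 0 (2 * π)) : Measure ℝ)) j) :=
    fun _ => shift_sf
  exact @measurePreserving_pi (Fin d) _ (fun _ => ℝ) (fun _ => ℝ) _ _
    (fun _ => (ENNReal.ofReal (2 * π)⁻¹ • volume.restrict (Set.Ico 0 (2 * π)) : Measure ℝ))
    (fun _ => (ENNReal.ofReal (2 * π)⁻¹ • volume.restrict (Set.Ico 0 (2 * π)) : Measure ℝ))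
    (fun j t => toIcoMod Real.two_pi_pos 0 (t - y j)) inst (fun j => shift_one (y j))

end Sol_EX_shift_mp

alias shift_mp := Sol_EX_shift_mp.shift_mp

end HypVol
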