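import Pool.Agent.EntX.Defs
import Pool.Agent.EntX.L_FrL_facts
import Pool.Agent.EntX.L_shift_mp
import Pool.Agent.HypVol.L_TP_prob
open MeasureTheory Real ProbabilityTheory
open scoped ENNReal BigOperators

namespace HypVol
namespace Sol_EX_conv_L

theorem per_toIcoMod {β : Type*} {d : ℕ} (g : (Fin d → ℝ) → β)
    (hg : ∀ (x : Fin d → ℝ) (j : Fin d), g (Function.update x j (x j + 2 * π)) = g x) (z : Fin d → ℝ) :
    g (fun j => toIcoMod Real.two_pi_pos 0 (z j)) = g z := by
  have h1 : ∀ (j : Fin d) (n : ℕ) (x : Fin d → ℝ), g (Function.update x j (x j + n * (2 * π))) = g x := by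
    intro j n
    induction n with
    | zero => intro x; simp
    | succ n ih =>
      intro x
      have h2 := hg (Function.update x j (x j + n * (2 * π))) j
      rw [ih x] at h2
      rw [← h2]
      congr 1
      rw [Function.update_idem, Function.update_self]
      congr 1
      push_cast; ring
  have h2 : ∀ (j : Fin d) (n : ℕ) (x : Fin d → ℝ), g (Function.update x j (x j - n * (2 * π))) = g x := by
    intro j n x
    have h3 := h1 j n (Function.update x j (x j - n * (2 * π)))
    rw [Function.update_idem, Function.update_self, sub_add_cancel, Function.update_eq_self] at h3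
    exact h3.symm
  have h3 : ∀ (j : Fin d) (n : ℤ) (x : Fin d → ℝ), g (Function.update x j (x j - n * (2 * π))) = g x := by
    intro j n x
    obtain ⟨m, rfl | rfl⟩ := n.eq_nat_or_neg
    · simpa using h2 j m x
    · have := h1 j m x
      simpa using this
  have h4 : ∀ s : Finset (Fin d),
      g (fun j => if j ∈ s then toIcoMod Real.two_pi_pos 0 (z j) else z j) = g z := by
    intro s
    induction s using Finset.induction_on with
    | empty => simp
    | insert a s ha ih =>
      rw [← ih]
      have h5 := h3 a (toIcoDiv Real.two_pi_pos 0 (z a))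
        (fun j => if j ∈ s then toIcoMod Real.two_pi_pos 0 (z j) else z j)
      rw [← h5]
      congr 1
      funext j
      by_cases hj : j = a
      · subst hj
        rw [Function.update_self, if_pos (Finset.mem_insert_self _ _), if_neg ha]
        rw [toIcoMod, zsmul_eq_mul]
      · rw [Function.update_of_ne hj]
        simp [hj]
  have := h4 Finset.univ
  simpa using this

theorem shift_integral {E : Type*} [NormedAddCommGroup E] [NormedSpace ℝ E] {d : ℕ} (g : (Fin d → ℝ) → E)
    (hg : ∀ (x : Fin d → ℝ) (j : Fin d), g (Function.update x j (x j + 2 * π)) = g x)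
    (hi : Integrable g (TP d)) (y : Fin d → ℝ) :
    Integrable (fun x => g (x - y)) (TP d) ∧ ∫ x, g (x - y) ∂(TP d) = ∫ x, g x ∂(TP d) := by
  have hS := shift_mp y
  have he : (fun x => g (x - y)) = g ∘ (fun (x : Fin d → ℝ) (j : Fin d) =>
      toIcoMod Real.two_pi_pos 0 (x j - y j)) := by
    funext x
    exact (per_toIcoMod g hg (x - y)).symm
  constructor
  · rw [he]
    exact hS.integrable_comp_of_integrable hi
  · rw [he]
    have := integral_map hS.measurable.aemeasurable (f := g)
      (by rw [hS.map_eq]; exact hi.aestronglyMeasurable)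
    rw [hS.map_eq] at this
    exact this.symm

noncomputable def TCL (𝕜 : Type) [RCLike 𝕜] : 𝕜 →L[ℝ] ℂ :=
  (RCLike.reCLM : 𝕜 →L[ℝ] ℝ).smulRight (1 : ℂ) + (RCLike.imCLM : 𝕜 →L[ℝ] ℝ).smulRight Complex.I

theorem TCL_apply {𝕜 : Type} [RCLike 𝕜] (z : 𝕜) : TCL 𝕜 z = toC z := by
  simp [TCL, toC, Complex.real_smul]

theorem toC_smul {𝕜 : Type} [RCLike 𝕜] (c : ℝ) (z : 𝕜) : toC (c • z) = (c : ℂ) * toC z := by
  rw [← TCL_apply, map_smul, TCL_apply, Complex.real_smul]

noncomputable def ech {d : ℕ} (k : Fin d → ℤ) (x : Fin d → ℝ) : ℂ :=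
  Complex.exp (-(Complex.I * ((∑ j, (k j : ℝ) * x j : ℝ) : ℂ)))

theorem ech_norm {d : ℕ} (k : Fin d → ℤ) (x : Fin d → ℝ) : ‖ech k x‖ = 1 := by
  unfold ech
  rw [Complex.norm_exp]
  simp

theorem ech_meas {d : ℕ} (k : Fin d → ℤ) : Continuous (ech k) := by
  unfold ech
  fun_prop

theorem ech_sub {d : ℕ} (k : Fin d → ℤ) (x y : Fin d → ℝ) : ech k x = ech k (x - y) * ech k y := by
  unfold ech
  rw [← Complex.exp_add]
  congr 1
  have : (∑ j, (k j : ℝ) * x j) = (∑ j, (k j : ℝ) * (x - y) j) + ∑ j, (k j : ℝ) * y j := by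
    rw [← Finset.sum_add_distrib]
    refine Finset.sum_congr rfl fun j _ => ?_
    simp only [Pi.sub_apply]
    ring
  rw [this]
  push_cast
  ring

theorem ech_per {d : ℕ} (k : Fin d → ℤ) (x : Fin d → ℝ) (j : Fin d) :
    ech k (Function.update x j (x j + 2 * π)) = ech k x := by
  unfold ech
  have h1 : (∑ i, (k i : ℝ) * Function.update x j (x j + 2 * π) i) = (∑ i, (k i : ℝ) * x i) + (k j : ℝ) * (2 * π) := by
    have h2 : ∀ i, (k i : ℝ) * Function.update x j (x j + 2 * π) i = (k i : ℝ) * x i +
        (if i = j then (k j : ℝ) * (2 * π) else 0) := by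
      intro i
      by_cases hi : i = j
      · subst hi
        simp
        ring
      · simp [hi]
    rw [Finset.sum_congr rfl fun i _ => h2 i, Finset.sum_add_distrib]
    simp
  rw [h1]
  rw [Complex.exp_eq_exp_iff_exists_int]
  refine ⟨-(k j), ?_⟩
  push_cast
  ring

theorem conv_L {𝕜 : Type} [RCLike 𝕜] {d : ℕ} (r : ℝ) (hr : 0 < r) (α : Fin d → ℝ) (φ : (Fin d → ℝ) → 𝕜)
    (hφ : Integrable φ (TP d)) :
    MemLp (fun x => ∫ y, FrL r α (x - y) • φ y ∂(TP d)) 1 (TP d) ∧
    ∀ k : Fin d → ℤ, fc (fun x => toC (∫ y, FrL r α (x - y) • φ y ∂(TP d))) k =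
      Fh r α k * fc (fun x => toC (φ x)) k := by
  have := TP_prob d
  obtain ⟨hm, hper, hint, hfc⟩ := FrL_facts r hr α
  
  have hmeas : Measurable (fun p : (Fin d → ℝ) × (Fin d → ℝ) => FrL r α (p.1 - p.2)) :=
    hm.comp (measurable_fst.sub measurable_snd)
  have hprod : Integrable (fun p : (Fin d → ℝ) × (Fin d → ℝ) => FrL r α (p.1 - p.2) • φ p.2)
      ((TP d).prod (TP d)) := by
    have haes : AEStronglyMeasurable (fun p : (Fin d → ℝ) × (Fin d → ℝ) => FrL r α (p.1 - p.2) • φ p.2)
        ((TP d).prod (TP d)) := hmeas.aestronglyMeasurable.smul hφ.aestronglyMeasurable.comp_snd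
    rw [integrable_prod_iff' haes]
    constructor
    · refine Filter.Eventually.of_forall fun y => ?_
      exact ((shift_integral (FrL r α) hper hint y).1).smul_const (φ y)
    · have h1 : (fun y => ∫ x, ‖FrL r α (x - y) • φ y‖ ∂(TP d)) =
          fun y => (∫ x, ‖FrL r α x‖ ∂(TP d)) * ‖φ y‖ := by
        funext y
        simp_rw [norm_smul]
        rw [integral_mul_const]
        congr 1
        exact (shift_integral (fun z => ‖FrL r α z‖) (fun x j => by rw [hper x j]) hint.norm y).2
      simp only
      rw [h1]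
      exact hφ.norm.const_mul _
  refine ⟨?_, ?_⟩
  · rw [memLp_one_iff_integrable]
    exact hprod.integral_prod_left
  · intro k
    have hprodC : Integrable (fun p : (Fin d → ℝ) × (Fin d → ℝ) =>
        toC (FrL r α (p.1 - p.2) • φ p.2)) ((TP d).prod (TP d)) := by
      have := (TCL 𝕜).integrable_comp hprod
      simpa only [TCL_apply] using this
    have hprodE : Integrable (fun p : (Fin d → ℝ) × (Fin d → ℝ) =>
        toC (FrL r α (p.1 - p.2) • φ p.2) * ech k p.1) ((TP d).prod (TP d)) := by
      refine hprodC.mul_bdd (c := 1) ?_ ?_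
      · exact ((ech_meas k).comp continuous_fst).aestronglyMeasurable
      · exact Filter.Eventually.of_forall fun p => (ech_norm k p.1).le
    have h1 : ∀ᵐ x ∂(TP d), toC (∫ y, FrL r α (x - y) • φ y ∂(TP d)) * ech k x =
        ∫ y, toC (FrL r α (x - y) • φ y) * ech k x ∂(TP d) := by
      filter_upwards [hprod.prod_right_ae] with x hx
      rw [integral_mul_const]
      congr 1
      have := (TCL 𝕜).integral_comp_comm hx
      simp only [TCL_apply] at this
      exact this.symm
    have h2 : fc (fun x => toC (∫ y, FrL r α (x - y) • φ y ∂(TP d))) k =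
        ∫ x, ∫ y, toC (FrL r α (x - y) • φ y) * ech k x ∂(TP d) ∂(TP d) := by
      unfold fc
      exact integral_congr_ae h1
    rw [h2, integral_integral_swap hprodE]
    have h3 : ∀ y, ∫ x, toC (FrL r α (x - y) • φ y) * ech k x ∂(TP d) =
        Fh r α k * (toC (φ y) * ech k y) := by
      intro y
      have h4 : ∀ x, toC (FrL r α (x - y) • φ y) * ech k x =
          (((FrL r α (x - y) : ℝ) : ℂ) * ech k (x - y)) * (toC (φ y) * ech k y) := by
        intro x
        rw [toC_smul, ech_sub k x y]
        ring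
      simp_rw [h4]
      rw [integral_mul_const]
      congr 1
      have h5 : Integrable (fun z => ((FrL r α z : ℝ) : ℂ) * ech k z) (TP d) := by
        refine (hint.ofReal (𝕜 := ℂ)).mul_bdd (c := 1) (ech_meas k).aestronglyMeasurable ?_
        exact Filter.Eventually.of_forall fun p => (ech_norm k p).le
      have h6 := (shift_integral (fun z => ((FrL r α z : ℝ) : ℂ) * ech k z)
        (fun x j => by simp only [hper x j, ech_per k x j]) h5 y).2
      rw [h6]
      exact hfc k
    simp_rw [h3]
    rw [integral_const_mul]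
    rfl

end Sol_EX_conv_L

alias conv_L := Sol_EX_conv_L.conv_L

end HypVol
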