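import Pool.Agent.EntX.Defs
import Pool.Agent.HypVol.L_TP_prob
open MeasureTheory Real ProbabilityTheory
open scoped ENNReal BigOperators

namespace HypVol
namespace Sol_EX_fc_unique

noncomputable local instance fcuInstM : MeasurableSpace Circle := borel Circle

local instance fcuInstB : BorelSpace Circle := ⟨rfl⟩

noncomputable def fcuChr {d : ℕ} (k : Fin d → ℤ) :
    BoundedContinuousFunction (Fin d → Circle) ℂ :=
  BoundedContinuousFunction.mkOfCompact
    ⟨fun z => ((∏ j, (z j) ^ (k j) : Circle) : ℂ), by fun_prop⟩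

theorem fcuChr_apply {d : ℕ} (k : Fin d → ℤ) (z : Fin d → Circle) :
    fcuChr k z = ((∏ j, (z j) ^ (k j) : Circle) : ℂ) := rfl

theorem fcuChr_mul {d : ℕ} (k l : Fin d → ℤ) : fcuChr k * fcuChr l = fcuChr (k + l) := by
  ext z
  rw [BoundedContinuousFunction.mul_apply, fcuChr_apply, fcuChr_apply, fcuChr_apply,
    ← Circle.coe_mul, ← Finset.prod_mul_distrib]
  congr 1
  refine Finset.prod_congr rfl fun j _ => ?_
  rw [Pi.add_apply, zpow_add]

theorem fcuChr_zero {d : ℕ} : fcuChr (0 : Fin d → ℤ) = 1 := by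
  ext z
  rw [fcuChr_apply]
  simp

theorem fcuChr_star {d : ℕ} (k : Fin d → ℤ) : star (fcuChr k) = fcuChr (-k) := by
  ext z
  rw [BoundedContinuousFunction.star_apply, fcuChr_apply, fcuChr_apply]
  have : (∏ j, (z j) ^ ((-k) j) : Circle) = (∏ j, (z j) ^ (k j) : Circle)⁻¹ := by
    rw [← Finset.prod_inv_distrib]
    refine Finset.prod_congr rfl fun j _ => ?_
    rw [Pi.neg_apply, zpow_neg]
  rw [this, Circle.coe_inv_eq_conj]
  rfl

noncomputable def fcuAlg (d : ℕ) : StarSubalgebra ℂ (BoundedContinuousFunction (Fin d → Circle) ℂ) where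
  carrier := (Submodule.span ℂ (Set.range (fcuChr (d := d))) : Set _)
  mul_mem' := by
    intro a b ha hb
    have h1 : a * b ∈ Submodule.span ℂ (Set.range (fcuChr (d := d))) *
        Submodule.span ℂ (Set.range (fcuChr (d := d))) := Submodule.mul_mem_mul ha hb
    rw [Submodule.span_mul_span] at h1
    refine Submodule.span_mono ?_ h1
    rintro _ ⟨_, ⟨k, rfl⟩, _, ⟨l, rfl⟩, rfl⟩
    exact ⟨k + l, (fcuChr_mul k l).symm⟩
  one_mem' := Submodule.subset_span (s := Set.range (fcuChr (d := d))) ⟨0, fcuChr_zero⟩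
  add_mem' := fun ha hb => Submodule.add_mem _ ha hb
  zero_mem' := Submodule.zero_mem _
  algebraMap_mem' := by
    intro r
    rw [Algebra.algebraMap_eq_smul_one]
    exact Submodule.smul_mem _ _ (Submodule.subset_span (s := Set.range (fcuChr (d := d))) ⟨0, fcuChr_zero⟩)
  star_mem' := by
    intro a ha
    change star a ∈ Submodule.span ℂ (Set.range (fcuChr (d := d)))
    change a ∈ Submodule.span ℂ (Set.range (fcuChr (d := d))) at ha
    induction ha using Submodule.span_induction with
    | mem x hx =>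
      obtain ⟨k, rfl⟩ := hx
      rw [fcuChr_star]
      exact Submodule.subset_span ⟨-k, rfl⟩
    | zero => rw [star_zero]; exact Submodule.zero_mem _
    | add x y _ _ hx hy => rw [star_add]; exact Submodule.add_mem _ hx hy
    | smul c x _ hx => rw [star_smul]; exact Submodule.smul_mem _ _ hx

theorem fcuAlg_sep (d : ℕ) : ((fcuAlg d).map
    (BoundedContinuousFunction.toContinuousMapStarₐ ℂ)).SeparatesPoints := by
  intro x y hxy
  obtain ⟨j, hj⟩ := Function.ne_iff.mp hxy
  refine ⟨_, ⟨BoundedContinuousFunction.toContinuousMapStarₐ ℂ (fcuChr (Pi.single j 1)), ?_, rfl⟩, ?_⟩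
  · exact ⟨_, Submodule.subset_span ⟨_, rfl⟩, rfl⟩
  · change fcuChr (Pi.single j 1) x ≠ fcuChr (Pi.single j 1) y
    have h : ∀ z : Fin d → Circle, fcuChr (Pi.single j 1) z = (z j : ℂ) := by
      intro z
      rw [fcuChr_apply]
      congr 1
      rw [Finset.prod_eq_single j]
      · simp
      · intro b _ hb
        simp [Pi.single_eq_of_ne hb]
      · simp
    rw [h, h]
    intro h2
    exact hj (Circle.ext h2)

theorem fcu_ext {d : ℕ} (P P' : Measure (Fin d → Circle)) [IsFiniteMeasure P] [IsFiniteMeasure P']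
    (h : ∀ k : Fin d → ℤ, ∫ z, fcuChr k z ∂P = ∫ z, fcuChr k z ∂P') : P = P' := by
  refine ext_of_forall_mem_subalgebra_integral_eq_of_polish (𝕜 := ℂ) (A := fcuAlg d) (fcuAlg_sep d) ?_
  intro g hg
  change g ∈ Submodule.span ℂ (Set.range (fcuChr (d := d))) at hg
  induction hg using Submodule.span_induction with
  | mem x hx =>
    obtain ⟨k, rfl⟩ := hx
    exact h k
  | zero => simp
  | add x y _ _ hx hy =>
    simp only [BoundedContinuousFunction.coe_add, Pi.add_apply]
    rw [integral_add (x.integrable _) (y.integrable _), integral_add (x.integrable _) (y.integrable _),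
      hx, hy]
  | smul c x _ hx =>
    simp only [BoundedContinuousFunction.coe_smul]
    rw [integral_smul, integral_smul, hx]

noncomputable def fcuPhi {d : ℕ} (x : Fin d → ℝ) : Fin d → Circle := fun j => Circle.exp (x j)

theorem fcuPhi_meas {d : ℕ} : Measurable (fcuPhi (d := d)) := by
  have : Continuous (fcuPhi (d := d)) := by
    unfold fcuPhi
    fun_prop
  exact this.measurable

noncomputable def fcuPsi {d : ℕ} (z : Fin d → Circle) : Fin d → ℝ := fun j =>
  if Complex.arg (z j : ℂ) < 0 then Complex.arg (z j : ℂ) + 2 * π else Complex.arg (z j : ℂ)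

theorem fcuPsi_meas {d : ℕ} : Measurable (fcuPsi (d := d)) := by
  refine measurable_pi_lambda _ fun j => ?_
  have h : Measurable (fun z : Fin d → Circle => Complex.arg (z j : ℂ)) := by
    refine Complex.measurable_arg.comp ?_
    have : Continuous (fun z : Fin d → Circle => ((z j : Circle) : ℂ)) := by fun_prop
    exact this.measurable
  exact Measurable.ite (measurableSet_lt h measurable_const) (h.add_const _) h

theorem fcuPsi_Phi {d : ℕ} (x : Fin d → ℝ) (hx : ∀ j, x j ∈ Set.Ico 0 (2 * π)) :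
    fcuPsi (fcuPhi x) = x := by
  funext j
  obtain ⟨h0, h1⟩ := hx j
  unfold fcuPsi fcuPhi
  by_cases h : x j ≤ π
  · rw [Circle.arg_exp (by linarith [Real.pi_pos]) h, if_neg (not_lt.mpr h0)]
  · push Not at h
    have e : Circle.exp (x j) = Circle.exp (x j - 2 * π) := by
      rw [Circle.exp_sub, Circle.exp_two_pi, div_one]
    have e2 : Complex.arg (Circle.exp (x j) : ℂ) = x j - 2 * π := by
      rw [e, Circle.arg_exp (by linarith) (by linarith [Real.pi_pos])]
    rw [e2, if_pos (by linarith)]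
    ring

theorem fcu_TP_mem {d : ℕ} : ∀ᵐ x ∂(TP d), ∀ j, x j ∈ Set.Ico 0 (2 * π) := by
  haveI : IsFiniteMeasure (ENNReal.ofReal (2 * π)⁻¹ • (volume : Measure ℝ).restrict (Set.Ico 0 (2 * π))) :=
    Measure.smul_finite _ ENNReal.ofReal_ne_top
  rw [ae_all_iff]
  intro j
  have h1 : ∀ᵐ t ∂(ENNReal.ofReal (2 * π)⁻¹ • (volume : Measure ℝ).restrict (Set.Ico 0 (2 * π))),
      t ∈ Set.Ico 0 (2 * π) := by
    refine Measure.ae_smul_measure ?_ _
    exact ae_restrict_mem measurableSet_Ico
  exact (Measure.tendsto_eval_ae_ae (μ := fun _ : Fin d => ENNReal.ofReal (2 * π)⁻¹ • (volume : Measure ℝ).restrict (Set.Ico 0 (2 * π))) (i := j)).eventually h1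

theorem fcuChr_Phi {d : ℕ} (k : Fin d → ℤ) (x : Fin d → ℝ) :
    fcuChr k (fcuPhi x) = Complex.exp (Complex.I * ((∑ j, (k j : ℝ) * x j : ℝ) : ℂ)) := by
  rw [fcuChr_apply]
  have : (∏ j, (fcuPhi x j) ^ (k j) : Circle) = Circle.exp (∑ j, (k j : ℝ) * x j) := by
    unfold fcuPhi
    apply Circle.ext
    rw [Circle.coe_exp, ← Circle.coeHom_apply, map_prod]
    push_cast
    rw [Finset.sum_mul, Complex.exp_sum]
    refine Finset.prod_congr rfl fun j _ => ?_
    rw [Circle.coeHom_apply, Circle.coe_zpow, Circle.coe_exp, ← Complex.exp_int_mul]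
    congr 1
    ring
  rw [this, Circle.coe_exp, mul_comm]

theorem fcu_int {d : ℕ} (k : Fin d → ℤ) (φ : (Fin d → ℝ) → ℝ) (hφ : Integrable φ (TP d)) :
    Integrable (fun x => (ENNReal.ofReal (φ x)).toReal • fcuChr k (fcuPhi x)) (TP d) := by
  refine Integrable.mono' (g := fun x => ‖φ x‖) hφ.norm ?_ ?_
  · exact (hφ.aemeasurable.ennreal_ofReal.ennreal_toReal.aestronglyMeasurable).smul
      ((fcuChr k).continuous.measurable.comp fcuPhi_meas).aestronglyMeasurable
  · refine Filter.Eventually.of_forall fun x => ?_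
    rw [norm_smul, fcuChr_apply, Circle.norm_coe, mul_one, Real.norm_eq_abs, Real.norm_eq_abs,
      abs_of_nonneg ENNReal.toReal_nonneg]
    rcases le_total 0 (φ x) with hx | hx
    · rw [ENNReal.toReal_ofReal hx]
      exact le_abs_self _
    · rw [ENNReal.ofReal_of_nonpos hx]
      simp

theorem fcu_bdd {d : ℕ} (F : (Fin d → ℝ) → ℂ) (hF : Integrable F (TP d)) (k : Fin d → ℤ) :
    Integrable (fun x => F x * Complex.exp (Complex.I * ((∑ j, (k j : ℝ) * x j : ℝ) : ℂ))) (TP d) := by
  refine Integrable.mono' (g := fun x => ‖F x‖) hF.norm ?_ ?_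
  · refine hF.aestronglyMeasurable.mul ?_
    have : Continuous (fun x : Fin d → ℝ => Complex.exp (Complex.I * ((∑ j, (k j : ℝ) * x j : ℝ) : ℂ))) := by
      fun_prop
    exact this.aestronglyMeasurable
  · refine Filter.Eventually.of_forall fun x => ?_
    rw [norm_mul, Complex.norm_exp_I_mul_ofReal, mul_one]

theorem fcu_real {d : ℕ} (g : (Fin d → ℝ) → ℝ) (hg : Integrable g (TP d))
    (h : ∀ k : Fin d → ℤ, ∫ x, (g x : ℂ) * Complex.exp (Complex.I * ((∑ j, (k j : ℝ) * x j : ℝ) : ℂ)) ∂(TP d) = 0) :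
    g =ᵐ[TP d] 0 := by
  haveI := TP_prob d
  have hm1 : AEMeasurable (fun x => ENNReal.ofReal (g x)) (TP d) := hg.aemeasurable.ennreal_ofReal
  have hm2 : AEMeasurable (fun x => ENNReal.ofReal (-g x)) (TP d) := hg.neg.aemeasurable.ennreal_ofReal
  have hfin1 : ∫⁻ x, ENNReal.ofReal (g x) ∂(TP d) ≠ ∞ := hg.lintegral_lt_top.ne
  have hfin2 : ∫⁻ x, ENNReal.ofReal (-g x) ∂(TP d) ≠ ∞ := hg.neg.lintegral_lt_top.ne
  haveI : IsFiniteMeasure ((TP d).withDensity (fun x => ENNReal.ofReal (g x))) :=
    isFiniteMeasure_withDensity hfin1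
  haveI : IsFiniteMeasure ((TP d).withDensity (fun x => ENNReal.ofReal (-g x))) :=
    isFiniteMeasure_withDensity hfin2
  have key : ((TP d).withDensity (fun x => ENNReal.ofReal (g x))).map fcuPhi =
      ((TP d).withDensity (fun x => ENNReal.ofReal (-g x))).map fcuPhi := by
    apply fcu_ext
    intro k
    rw [integral_map fcuPhi_meas.aemeasurable (fcuChr k).continuous.aestronglyMeasurable,
      integral_map fcuPhi_meas.aemeasurable (fcuChr k).continuous.aestronglyMeasurable,
      integral_withDensity_eq_integral_toReal_smul₀ hm1 (Filter.Eventually.of_forall fun x => ENNReal.ofReal_lt_top),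
      integral_withDensity_eq_integral_toReal_smul₀ hm2 (Filter.Eventually.of_forall fun x => ENNReal.ofReal_lt_top)]
    rw [← sub_eq_zero, ← integral_sub]
    · rw [← h k]
      refine integral_congr_ae (Filter.Eventually.of_forall fun x => ?_)
      simp only [fcuChr_Phi]
      rw [← sub_smul, Complex.real_smul]
      congr 2
      rcases le_total 0 (g x) with hx | hx
      · rw [ENNReal.toReal_ofReal hx, ENNReal.ofReal_of_nonpos (by linarith)]
        simp
      · rw [ENNReal.ofReal_of_nonpos hx, ENNReal.toReal_ofReal (show 0 ≤ -g x by linarith)]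
        simp
    · exact fcu_int k g hg
    · exact fcu_int k (fun x => -g x) hg.neg
  have key2 : (TP d).withDensity (fun x => ENNReal.ofReal (g x)) =
      (TP d).withDensity (fun x => ENNReal.ofReal (-g x)) := by
    have hid : ∀ φ : (Fin d → ℝ) → ℝ≥0∞, (((TP d).withDensity φ).map fcuPhi).map fcuPsi =
        (TP d).withDensity φ := by
      intro φ
      rw [Measure.map_map fcuPsi_meas fcuPhi_meas]
      have : (fcuPsi ∘ fcuPhi : (Fin d → ℝ) → (Fin d → ℝ)) =ᵐ[(TP d).withDensity φ] id := by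
        have h3 : ∀ᵐ x ∂((TP d).withDensity φ), ∀ j, x j ∈ Set.Ico 0 (2 * π) :=
          (withDensity_absolutelyContinuous (TP d) φ).ae_le fcu_TP_mem
        filter_upwards [h3] with x hx
        exact fcuPsi_Phi x hx
      rw [Measure.map_congr this, Measure.map_id]
    rw [← hid (fun x => ENNReal.ofReal (g x)), key, hid]
  rw [withDensity_eq_iff hm1 hm2 hfin1] at key2
  filter_upwards [key2] with x hx
  rcases le_total 0 (g x) with h0 | h0
  · rw [ENNReal.ofReal_of_nonpos (show -g x ≤ 0 by linarith), ENNReal.ofReal_eq_zero] at hx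
    exact le_antisymm hx h0
  · rw [ENNReal.ofReal_of_nonpos h0, eq_comm, ENNReal.ofReal_eq_zero] at hx
    exact le_antisymm h0 (by simpa using hx)

theorem fc_unique {d : ℕ} (f : (Fin d → ℝ) → ℂ) (hf : Integrable f (TP d))
    (h : ∀ k : Fin d → ℤ, fc f k = 0) : f =ᵐ[TP d] 0 := by
  have A : ∀ k : Fin d → ℤ, ∫ x, f x * Complex.exp (Complex.I * ((∑ j, (k j : ℝ) * x j : ℝ) : ℂ)) ∂(TP d) = 0 := by
    intro k
    have h1 := h (-k)
    unfold fc at h1
    rw [← h1]
    refine integral_congr_ae (Filter.Eventually.of_forall fun x => ?_)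
    simp only [Pi.neg_apply, Int.cast_neg, neg_mul, Finset.sum_neg_distrib, Complex.ofReal_neg, mul_neg, neg_neg]
  have B : ∀ k : Fin d → ℤ, ∫ x, (starRingEnd ℂ) (f x) * Complex.exp (Complex.I * ((∑ j, (k j : ℝ) * x j : ℝ) : ℂ)) ∂(TP d) = 0 := by
    intro k
    have h1 := congrArg (starRingEnd ℂ) (h k)
    unfold fc at h1
    rw [← integral_conj, map_zero] at h1
    rw [← h1]
    refine integral_congr_ae (Filter.Eventually.of_forall fun x => ?_)
    simp only [map_mul, ← Complex.exp_conj, map_neg, Complex.conj_I, Complex.conj_ofReal, neg_mul, neg_neg]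
  have hcf : Integrable (fun x => (starRingEnd ℂ) (f x)) (TP d) := by
    refine Integrable.mono' hf.norm ?_ ?_
    · exact (Complex.continuous_conj.comp_aestronglyMeasurable hf.aestronglyMeasurable)
    · refine Filter.Eventually.of_forall fun x => ?_
      simp
  have hre : (fun x => (f x).re) =ᵐ[TP d] 0 := by
    apply fcu_real _ hf.re
    intro k
    have e : ∀ x : Fin d → ℝ, (((f x).re : ℝ) : ℂ) * Complex.exp (Complex.I * ((∑ j, (k j : ℝ) * x j : ℝ) : ℂ)) =
        (1/2 : ℂ) * (f x * Complex.exp (Complex.I * ((∑ j, (k j : ℝ) * x j : ℝ) : ℂ))) +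
        (1/2 : ℂ) * ((starRingEnd ℂ) (f x) * Complex.exp (Complex.I * ((∑ j, (k j : ℝ) * x j : ℝ) : ℂ))) := by
      intro x
      rw [Complex.re_eq_add_conj]
      ring
    refine (integral_congr_ae (μ := TP d) (Filter.Eventually.of_forall e)).trans ?_
    rw [integral_add ((fcu_bdd f hf k).const_mul _) ((fcu_bdd _ hcf k).const_mul _),
      integral_const_mul, integral_const_mul, A k, B k]
    simp
  have him : (fun x => (f x).im) =ᵐ[TP d] 0 := by
    apply fcu_real _ hf.im
    intro k
    have e : ∀ x : Fin d → ℝ, (((f x).im : ℝ) : ℂ) * Complex.exp (Complex.I * ((∑ j, (k j : ℝ) * x j : ℝ) : ℂ)) =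
        (1/(2 * Complex.I) : ℂ) * (f x * Complex.exp (Complex.I * ((∑ j, (k j : ℝ) * x j : ℝ) : ℂ))) +
        (-1/(2 * Complex.I) : ℂ) * ((starRingEnd ℂ) (f x) * Complex.exp (Complex.I * ((∑ j, (k j : ℝ) * x j : ℝ) : ℂ))) := by
      intro x
      rw [Complex.im_eq_sub_conj]
      ring
    refine (integral_congr_ae (μ := TP d) (Filter.Eventually.of_forall e)).trans ?_
    rw [integral_add ((fcu_bdd f hf k).const_mul _) ((fcu_bdd _ hcf k).const_mul _),
      integral_const_mul, integral_const_mul, A k, B k]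
    simp
  filter_upwards [hre, him] with x h1 h2
  exact Complex.ext h1 h2

end Sol_EX_fc_unique

alias fc_unique := Sol_EX_fc_unique.fc_unique

end HypVol
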