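import Pool.Agent.EntX.Defs
import Pool.Agent.EntX.L_conv_L
import Pool.Agent.EntX.L_fc_unique
import Pool.Agent.HypVol.L_TP_prob
open MeasureTheory Real ProbabilityTheory
open scoped ENNReal BigOperators

namespace HypVol
namespace Sol_EX_Cov_ML_WF

theorem fc_expnorm {d : ℕ} (k : Fin d → ℤ) (x : Fin d → ℝ) :
    ‖Complex.exp (-(Complex.I * ((∑ j, (k j : ℝ) * x j : ℝ) : ℂ)))‖ = 1 := by
  have : -(Complex.I * ((∑ j, (k j : ℝ) * x j : ℝ) : ℂ)) =
      ((-(∑ j, (k j : ℝ) * x j) : ℝ) : ℂ) * Complex.I := by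
    rw [Complex.ofReal_neg]; ring
  rw [this, Complex.norm_exp_ofReal_mul_I]

theorem fc_int {d : ℕ} (u : (Fin d → ℝ) → ℂ) (hu : Integrable u (TP d)) (k : Fin d → ℤ) :
    Integrable (fun x => u x * Complex.exp (-(Complex.I * ((∑ j, (k j : ℝ) * x j : ℝ) : ℂ)))) (TP d) := by
  refine hu.mono ?_ (Filter.Eventually.of_forall fun x => ?_)
  · refine hu.1.mul ?_
    refine Continuous.aestronglyMeasurable ?_
    refine Complex.continuous_exp.comp ?_
    refine (continuous_const.mul ?_).neg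
    refine Complex.continuous_ofReal.comp ?_
    exact continuous_finset_sum _ fun j _ => continuous_const.mul (continuous_apply j)
  · rw [norm_mul, fc_expnorm, mul_one]

theorem fc_comb {d : ℕ} (u v : (Fin d → ℝ) → ℂ) (hu : Integrable u (TP d)) (hv : Integrable v (TP d))
    (k : Fin d → ℤ) : fc (fun x => u x + v x * Complex.I) k = fc u k + fc v k * Complex.I := by
  unfold fc
  rw [← integral_mul_const, ← integral_add (fc_int u hu k) ((fc_int v hv k).mul_const _)]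
  refine integral_congr_ae (Filter.Eventually.of_forall fun x => ?_)
  show (u x + v x * Complex.I) * _ = _
  ring

theorem fc_sub' {d : ℕ} (u v : (Fin d → ℝ) → ℂ) (hu : Integrable u (TP d)) (hv : Integrable v (TP d))
    (k : Fin d → ℤ) : fc (fun x => u x - v x) k = fc u k - fc v k := by
  unfold fc
  rw [← integral_sub (fc_int u hu k) (fc_int v hv k)]
  refine integral_congr_ae (Filter.Eventually.of_forall fun x => ?_)
  show (u x - v x) * _ = _
  ring

theorem ML_mem (𝕜 : Type) [RCLike 𝕜] {d : ℕ} (p : ℝ≥0∞) (hp : 1 ≤ p) (r : ℝ) (hr : 0 < r)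
    (α : Fin d → ℝ) (φ : (Fin d → ℝ) → ℂ) (hφ : MemLp φ p (TP d))
    (hφ1 : eLpNorm φ p (TP d) ≤ 1) (w : ℂ → ℝ) (hw : Continuous w)
    (hw1 : ∀ z, |w z| ≤ ‖z‖) :
    ∃ h ∈ ML 𝕜 d r p α, MemLp h 1 (TP d) ∧
      ∀ k, fc (fun x => ((RCLike.re (h x) : ℝ) : ℂ)) k = Fh r α k * fc (fun x => ((w (φ x) : ℝ) : ℂ)) k := by
  haveI := TP_prob d
  have hnorm : ∀ y, ‖((w (φ y) : ℝ) : 𝕜)‖ ≤ ‖φ y‖ := by
    intro y
    rw [RCLike.norm_ofReal]
    exact hw1 _
  have hmem : MemLp (fun y => ((w (φ y) : ℝ) : 𝕜)) p (TP d) := by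
    refine hφ.mono ?_ (Filter.Eventually.of_forall hnorm)
    exact (RCLike.continuous_ofReal.comp hw).comp_aestronglyMeasurable hφ.1
  obtain ⟨hm, hk⟩ := conv_L (𝕜 := 𝕜) (d := d) r hr α _ (hmem.integrable hp)
  refine ⟨fun x => ∫ y, FrL r α (x - y) • ((w (φ y) : ℝ) : 𝕜) ∂(TP d),
    ⟨fun y => ((w (φ y) : ℝ) : 𝕜), hmem, ?_, rfl⟩, hm, ?_⟩
  · exact (eLpNorm_mono hnorm).trans hφ1
  · intro k
    have h1 : ∀ x y, FrL r α (x - y) • ((w (φ y) : ℝ) : 𝕜) =
        ((FrL r α (x - y) * w (φ y) : ℝ) : 𝕜) := by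
      intro x y
      rw [RCLike.real_smul_eq_coe_mul, ← RCLike.ofReal_mul]
    have h2 : (fun x => toC (∫ y, FrL r α (x - y) • ((w (φ y) : ℝ) : 𝕜) ∂(TP d))) =
        (fun x => ((RCLike.re (∫ y, FrL r α (x - y) • ((w (φ y) : ℝ) : 𝕜) ∂(TP d)) : ℝ) : ℂ)) := by
      funext x
      unfold toC
      simp_rw [h1]
      rw [integral_ofReal, RCLike.ofReal_re, RCLike.ofReal_im]
      simp
    have h3 : (fun x => toC (((w (φ x) : ℝ) : 𝕜))) = (fun x => ((w (φ x) : ℝ) : ℂ)) := by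
      funext x
      unfold toC
      rw [RCLike.ofReal_re, RCLike.ofReal_im]
      simp
    have := hk k
    rw [h2, h3] at this
    exact this

theorem Cov_ML_WF (𝕜 : Type) [RCLike 𝕜] (d : ℕ) (r : ℝ) (hr : 0 < r) (α : Fin d → ℝ) (p q : ℝ≥0∞)
    (hp : 1 ≤ p) (hq : 1 ≤ q) (k : ℕ) (ε : ℝ) (hε : 0 < ε)
    (h : Cov q k (ENNReal.ofReal ε) (ML 𝕜 d r p α)) :
    Cov q (2 * k) (ENNReal.ofReal (2 * ε)) (WF d r p α) := by
  haveI := TP_prob d
  obtain ⟨c, hcm, hc⟩ := h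
  have hcard : 2 ^ (2 * k) = 2 ^ k * 2 ^ k := by rw [two_mul, pow_add]
  have hmre : ∀ j, MemLp (fun x => ((RCLike.re (c j x) : ℝ) : ℂ)) q (TP d) := by
    intro j
    refine (hcm j).mono ?_ (Filter.Eventually.of_forall fun x => ?_)
    · exact (Complex.continuous_ofReal.comp RCLike.continuous_re).comp_aestronglyMeasurable (hcm j).1
    · rw [Complex.norm_real]
      exact RCLike.norm_re_le_norm _
  refine ⟨fun j x => ((RCLike.re (c (finProdFinEquiv.symm (Fin.cast hcard j)).1 x) : ℝ) : ℂ) +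
    ((RCLike.re (c (finProdFinEquiv.symm (Fin.cast hcard j)).2 x) : ℝ) : ℂ) * Complex.I, ?_, ?_⟩
  · intro j
    exact (hmre _).add ((hmre _).mul_const Complex.I)
  rintro f ⟨hf, φ, hφ, hφ1, hfφ⟩
  obtain ⟨h1, hm1, hc1, hv1⟩ := ML_mem 𝕜 p hp r hr α φ hφ hφ1 Complex.re
    Complex.continuous_re Complex.abs_re_le_norm
  obtain ⟨h2, hm2, hc2, hv2⟩ := ML_mem 𝕜 p hp r hr α φ hφ hφ1 Complex.im
    Complex.continuous_im Complex.abs_im_le_norm
  obtain ⟨j1, hj1⟩ := hc h1 hm1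
  obtain ⟨j2, hj2⟩ := hc h2 hm2
  refine ⟨Fin.cast hcard.symm (finProdFinEquiv (j1, j2)), ?_⟩
  have hcast : Fin.cast hcard (Fin.cast hcard.symm (finProdFinEquiv (j1, j2))) =
      finProdFinEquiv (j1, j2) := by
    apply Fin.ext
    rfl
  simp only [hcast, Equiv.symm_apply_apply]
  have hre : ∀ g : (Fin d → ℝ) → 𝕜, MemLp g 1 (TP d) →
      Integrable (fun x => ((RCLike.re (g x) : ℝ) : ℂ)) (TP d) := by
    intro g hg
    have hgi : Integrable g (TP d) := memLp_one_iff_integrable.1 hg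
    refine hgi.mono ?_ (Filter.Eventually.of_forall fun x => ?_)
    · exact (Complex.continuous_ofReal.comp RCLike.continuous_re).comp_aestronglyMeasurable hgi.1
    · rw [Complex.norm_real]
      exact RCLike.norm_re_le_norm _
  have i1 := hre h1 hc1
  have i2 := hre h2 hc2
  have hfi : Integrable f (TP d) := memLp_one_iff_integrable.1 hf
  have hφi : Integrable φ (TP d) := hφ.integrable hp
  have hφre : Integrable (fun x => (((φ x).re : ℝ) : ℂ)) (TP d) := hφi.re.ofReal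
  have hφim : Integrable (fun x => (((φ x).im : ℝ) : ℂ)) (TP d) := hφi.im.ofReal
  have hH : Integrable (fun x => ((RCLike.re (h1 x) : ℝ) : ℂ) + ((RCLike.re (h2 x) : ℝ) : ℂ) * Complex.I)
      (TP d) := i1.add (i2.mul_const Complex.I)
  have hfh : (fun x => f x - (((RCLike.re (h1 x) : ℝ) : ℂ) + ((RCLike.re (h2 x) : ℝ) : ℂ) * Complex.I))
      =ᵐ[TP d] 0 := by
    refine fc_unique _ (hfi.sub hH) fun k => ?_
    rw [fc_sub' f _ hfi hH k, fc_comb _ _ i1 i2 k, hv1, hv2, hfφ k]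
    have : fc φ k = fc (fun x => (((φ x).re : ℝ) : ℂ)) k + fc (fun x => (((φ x).im : ℝ) : ℂ)) k * Complex.I := by
      rw [← fc_comb _ _ hφre hφim k]
      congr 1
      funext x
      exact (Complex.re_add_im _).symm
    rw [this]
    ring
  have heq : (fun x => f x -
      (((RCLike.re (c j1 x) : ℝ) : ℂ) + ((RCLike.re (c j2 x) : ℝ) : ℂ) * Complex.I)) =ᵐ[TP d]
      (fun x => ((RCLike.re (h1 x - c j1 x) : ℝ) : ℂ)) +
        (fun x => ((RCLike.re (h2 x - c j2 x) : ℝ) : ℂ) * Complex.I) := by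
    filter_upwards [hfh] with x hx
    have hx' : f x = ((RCLike.re (h1 x) : ℝ) : ℂ) + ((RCLike.re (h2 x) : ℝ) : ℂ) * Complex.I :=
      sub_eq_zero.1 hx
    show f x - _ = _ + _
    rw [hx']
    simp only [map_sub]
    push_cast
    ring
  rw [eLpNorm_congr_ae heq]
  have m1 : AEStronglyMeasurable (fun x => ((RCLike.re (h1 x - c j1 x) : ℝ) : ℂ)) (TP d) :=
    (Complex.continuous_ofReal.comp RCLike.continuous_re).comp_aestronglyMeasurable
      (hc1.1.sub (hcm j1).1)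
  have m2 : AEStronglyMeasurable (fun x => ((RCLike.re (h2 x - c j2 x) : ℝ) : ℂ) * Complex.I) (TP d) :=
    ((Complex.continuous_ofReal.comp RCLike.continuous_re).comp_aestronglyMeasurable
      (hc2.1.sub (hcm j2).1)).mul_const Complex.I
  refine (eLpNorm_add_le m1 m2 hq).trans ?_
  have b1 : eLpNorm (fun x => ((RCLike.re (h1 x - c j1 x) : ℝ) : ℂ)) q (TP d) ≤ ENNReal.ofReal ε := by
    refine (eLpNorm_mono fun x => ?_).trans hj1
    rw [Complex.norm_real]
    exact RCLike.norm_re_le_norm _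
  have b2 : eLpNorm (fun x => ((RCLike.re (h2 x - c j2 x) : ℝ) : ℂ) * Complex.I) q (TP d) ≤
      ENNReal.ofReal ε := by
    refine (eLpNorm_mono fun x => ?_).trans hj2
    rw [norm_mul, Complex.norm_I, mul_one, Complex.norm_real]
    exact RCLike.norm_re_le_norm _
  refine (add_le_add b1 b2).trans ?_
  rw [← ENNReal.ofReal_add hε.le hε.le, two_mul]

end Sol_EX_Cov_ML_WF

alias Cov_ML_WF := Sol_EX_Cov_ML_WF.Cov_ML_WF

end HypVol
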