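import Pool.Agent.EntX.Defs
import Pool.Agent.HypVol.L_TP_prob
open MeasureTheory Real ProbabilityTheory
open scoped ENNReal BigOperators

namespace HypVol
namespace Sol_EX_conv_facts

theorem summ899 (r : ℝ) (hr : 1 < r) : Summable (fun k : ℕ => ((k:ℝ)+1)^(-r)) := by
  have h1 : Summable (fun k : ℕ => (k : ℝ)^(-r)) := Real.summable_nat_rpow.2 (by linarith)
  have h2 := (summable_nat_add_iff 1).2 h1
  refine h2.congr fun k => ?_
  push_cast
  rfl

theorem term_le899 (r α : ℝ) (k : ℕ) (x : ℝ) :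
    ‖((k:ℝ)+1)^(-r) * Real.cos (((k:ℝ)+1) * x - α * π / 2)‖ ≤ ((k:ℝ)+1)^(-r) := by
  have h0 : (0:ℝ) ≤ ((k:ℝ)+1)^(-r) := Real.rpow_nonneg (by positivity) _
  rw [norm_mul, Real.norm_eq_abs, Real.norm_eq_abs, abs_of_nonneg h0]
  exact mul_le_of_le_one_right h0 (Real.abs_cos_le_one _)

theorem F1_cont899 (r : ℝ) (hr : 1 < r) (α : ℝ) : Continuous (F1 r α) := by
  unfold F1
  refine continuous_const.add (continuous_const.mul ?_)
  exact continuous_tsum (fun k => by fun_prop) (summ899 r hr) (fun k x => term_le899 r α k x)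

theorem F1_bound899 (r : ℝ) (hr : 1 < r) (α x : ℝ) :
    |F1 r α x| ≤ 1 + 2 * ∑' k : ℕ, ((k:ℝ)+1)^(-r) := by
  have h1 : ‖∑' k : ℕ, ((k:ℝ)+1)^(-r) * Real.cos (((k:ℝ)+1) * x - α * π / 2)‖ ≤
      ∑' k : ℕ, ((k:ℝ)+1)^(-r) :=
    tsum_of_norm_bounded (summ899 r hr).hasSum (fun k => term_le899 r α k x)
  rw [Real.norm_eq_abs] at h1
  unfold F1
  refine (abs_add_le _ _).trans ?_
  rw [abs_one, abs_mul, abs_two]
  linarith

theorem conv_facts {𝕜 : Type} [RCLike 𝕜] {d : ℕ} (r : ℝ) (hr : 1 < r) (α : Fin d → ℝ) :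
    Continuous (Fr r α) ∧ ∃ B : ℝ, 0 < B ∧ (∀ x, |Fr r α x| ≤ B) ∧
    ∀ φ : (Fin d → ℝ) → 𝕜, Integrable φ (TP d) →
      Continuous (fun x => ∫ y, Fr r α (x - y) • φ y ∂(TP d)) ∧
      ∀ x, ‖∫ y, Fr r α (x - y) • φ y ∂(TP d)‖ ≤ B * ∫ y, ‖φ y‖ ∂(TP d) := by
  have hc : Continuous (Fr r α) := by
    unfold Fr
    exact continuous_finset_prod _ fun j _ => (F1_cont899 r hr (α j)).comp (continuous_apply j)
  have hS : 0 ≤ ∑' k : ℕ, ((k:ℝ)+1)^(-r) :=
    tsum_nonneg fun k => Real.rpow_nonneg (by positivity) _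
  have hB : ∀ x, |Fr r α x| ≤ (1 + 2 * ∑' k : ℕ, ((k:ℝ)+1)^(-r)) ^ d := by
    intro x
    unfold Fr
    rw [Finset.abs_prod]
    calc ∏ j, |F1 r (α j) (x j)| ≤ ∏ _j : Fin d, (1 + 2 * ∑' k : ℕ, ((k:ℝ)+1)^(-r)) :=
          Finset.prod_le_prod (fun j _ => abs_nonneg _) fun j _ => F1_bound899 r hr _ _
      _ = _ := by simp
  refine ⟨hc, (1 + 2 * ∑' k : ℕ, ((k:ℝ)+1)^(-r)) ^ d, by positivity, hB, fun φ hφ => ?_⟩
  have hb : ∀ x y, ‖Fr r α (x - y) • φ y‖ ≤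
      (1 + 2 * ∑' k : ℕ, ((k:ℝ)+1)^(-r)) ^ d * ‖φ y‖ := by
    intro x y
    rw [norm_smul, Real.norm_eq_abs]
    exact mul_le_mul_of_nonneg_right (hB _) (norm_nonneg _)
  refine ⟨?_, fun x => ?_⟩
  · refine continuous_of_dominated
      (bound := fun y => (1 + 2 * ∑' k : ℕ, ((k:ℝ)+1)^(-r)) ^ d * ‖φ y‖) (fun x => ?_)
      (fun x => Filter.Eventually.of_forall fun y => hb x y) (hφ.norm.const_mul _)
      (Filter.Eventually.of_forall fun y => ?_)
    · have h1 : Continuous fun y => Fr r α (x - y) := hc.comp (continuous_const.sub continuous_id)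
      exact h1.aestronglyMeasurable.smul hφ.aestronglyMeasurable
    · exact (hc.comp (continuous_id.sub continuous_const)).smul continuous_const
  · rw [← integral_const_mul]
    exact norm_integral_le_of_norm_le (hφ.norm.const_mul _)
      (Filter.Eventually.of_forall fun y => hb x y)

end Sol_EX_conv_facts

alias conv_facts := Sol_EX_conv_facts.conv_facts

end HypVol
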