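import Pool.Agent.EntX.Defs
import Pool.Agent.HypVol.L_TP_prob
import Pool.Agent.EntX.L_conv_facts
open MeasureTheory Real ProbabilityTheory
open scoped ENNReal BigOperators

namespace HypVol
namespace Sol_EX_Cov_complex

theorem Cov_complex_int {d : ℕ} (r : ℝ) (hr : 1 < r) (α : Fin d → ℝ) (p : ℝ≥0∞) (hp : 1 ≤ p)
    (φ : (Fin d → ℝ) → ℂ) (hφ : MemLp φ p (TP d)) (x : Fin d → ℝ) :
    Integrable (fun y => Fr r α (x - y) • φ y) (TP d) := by
  haveI := TP_prob d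
  obtain ⟨hc, B, hB, hbd, -⟩ := conv_facts (𝕜 := ℂ) (d := d) r hr α
  have h1 : Integrable φ (TP d) := hφ.integrable hp
  have h2 : Continuous (fun y => Fr r α (x - y)) := hc.comp (continuous_const.sub continuous_id)
  refine Integrable.mono' (h1.norm.const_mul B) ?_ ?_
  · exact h2.aestronglyMeasurable.smul h1.aestronglyMeasurable
  · refine Filter.Eventually.of_forall (fun y => ?_)
    rw [norm_smul]
    exact mul_le_mul_of_nonneg_right (hbd _) (norm_nonneg _)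

theorem Cov_complex_mem (𝕜 : Type) [RCLike 𝕜] {d : ℕ} (p : ℝ≥0∞) (hp : 1 ≤ p) (r : ℝ) (hr : 1 < r)
    (α : Fin d → ℝ) (φ : (Fin d → ℝ) → ℂ) (hφ : MemLp φ p (TP d))
    (hφ1 : eLpNorm φ p (TP d) ≤ 1) (w : ℂ → ℝ) (hw : Continuous w)
    (hw1 : ∀ z, |w z| ≤ ‖z‖) :
    ∃ h ∈ MW 𝕜 d r p α, Continuous h ∧
      ∀ x, RCLike.re (h x) = ∫ y, Fr r α (x - y) * w (φ y) ∂(TP d) := by
  haveI := TP_prob d
  have hnorm : ∀ y, ‖((w (φ y) : ℝ) : 𝕜)‖ ≤ ‖φ y‖ := by
    intro y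
    rw [RCLike.norm_ofReal]
    exact hw1 _
  have hmem : MemLp (fun y => ((w (φ y) : ℝ) : 𝕜)) p (TP d) := by
    refine hφ.mono ?_ (Filter.Eventually.of_forall hnorm)
    exact (RCLike.continuous_ofReal.comp hw).comp_aestronglyMeasurable hφ.1
  obtain ⟨-, B, -, -, hcv⟩ := conv_facts (𝕜 := 𝕜) (d := d) r hr α
  refine ⟨fun x => ∫ y, Fr r α (x - y) • ((w (φ y) : ℝ) : 𝕜) ∂(TP d),
    ⟨fun y => ((w (φ y) : ℝ) : 𝕜), hmem, ?_, rfl⟩, (hcv _ (hmem.integrable hp)).1, ?_⟩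
  · exact (eLpNorm_mono hnorm).trans hφ1
  · intro x
    have h1 : ∀ y, Fr r α (x - y) • ((w (φ y) : ℝ) : 𝕜) =
        ((Fr r α (x - y) * w (φ y) : ℝ) : 𝕜) := by
      intro y
      rw [RCLike.real_smul_eq_coe_mul, ← RCLike.ofReal_mul]
    show RCLike.re (∫ y, Fr r α (x - y) • ((w (φ y) : ℝ) : 𝕜) ∂(TP d)) = _
    simp_rw [h1]
    rw [integral_ofReal, RCLike.ofReal_re]

theorem Cov_complex (𝕜 : Type) [RCLike 𝕜] (d : ℕ) (r : ℝ) (hr : 1 < r) (α : Fin d → ℝ) (p q : ℝ≥0∞)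
    (hp : 1 ≤ p) (hq : 1 ≤ q) (k : ℕ) (ε : ℝ) (hε : 0 < ε)
    (h : Cov q k (ENNReal.ofReal ε) (MW 𝕜 d r p α)) :
    Cov q (2 * k) (ENNReal.ofReal (2 * ε)) (MW ℂ d r p α) := by
  haveI := TP_prob d
  obtain ⟨c, hcm, hc⟩ := h
  have hcard : 2 ^ (2 * k) = 2 ^ k * 2 ^ k := by rw [two_mul, pow_add]
  have hmre : ∀ j, MemLp (fun x => ((RCLike.re (c j x) : ℝ) : ℂ)) q (TP d) := by
    intro j
    refine (hcm j).mono ?_ (Filter.Eventually.of_forall fun x => ?_)
    · exact (Complex.continuous_ofReal.comp RCLike.continuous_re).comp_aestronglyMeasurable (hcm j).1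
    · rw [Complex.norm_real]
      exact RCLike.norm_re_le_norm _
  refine ⟨fun j x => ((RCLike.re (c (finProdFinEquiv.symm (Fin.cast hcard j)).1 x) : ℝ) : ℂ) +
    ((RCLike.re (c (finProdFinEquiv.symm (Fin.cast hcard j)).2 x) : ℝ) : ℂ) * Complex.I, ?_, ?_⟩
  · intro j
    exact (hmre _).add ((hmre _).mul_const Complex.I)
  rintro f ⟨φ, hφ, hφ1, rfl⟩
  obtain ⟨h1, hm1, hc1, hv1⟩ := Cov_complex_mem 𝕜 p hp r hr α φ hφ hφ1 Complex.re
    Complex.continuous_re Complex.abs_re_le_norm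
  obtain ⟨h2, hm2, hc2, hv2⟩ := Cov_complex_mem 𝕜 p hp r hr α φ hφ hφ1 Complex.im
    Complex.continuous_im Complex.abs_im_le_norm
  obtain ⟨j1, hj1⟩ := hc h1 hm1
  obtain ⟨j2, hj2⟩ := hc h2 hm2
  refine ⟨Fin.cast hcard.symm (finProdFinEquiv (j1, j2)), ?_⟩
  have hcast : Fin.cast hcard (Fin.cast hcard.symm (finProdFinEquiv (j1, j2))) =
      finProdFinEquiv (j1, j2) := by
    apply Fin.ext
    rfl
  simp only [hcast, Equiv.symm_apply_apply]
  have heq : (fun x => (∫ y, Fr r α (x - y) • φ y ∂(TP d)) -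
      (((RCLike.re (c j1 x) : ℝ) : ℂ) + ((RCLike.re (c j2 x) : ℝ) : ℂ) * Complex.I)) =
      (fun x => ((RCLike.re (h1 x - c j1 x) : ℝ) : ℂ)) +
        (fun x => ((RCLike.re (h2 x - c j2 x) : ℝ) : ℂ) * Complex.I) := by
    funext x
    have hint := Cov_complex_int r hr α p hp φ hφ x
    have hre : (∫ y, Fr r α (x - y) • φ y ∂(TP d)).re = ∫ y, Fr r α (x - y) * (φ y).re ∂(TP d) := by
      have := integral_re (𝕜 := ℂ) hint
      rw [← RCLike.re_eq_complex_re, ← this]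
      refine integral_congr_ae (Filter.Eventually.of_forall (fun y => ?_))
      simp
    have him : (∫ y, Fr r α (x - y) • φ y ∂(TP d)).im = ∫ y, Fr r α (x - y) * (φ y).im ∂(TP d) := by
      have := integral_im (𝕜 := ℂ) hint
      rw [← RCLike.im_eq_complex_im, ← this]
      refine integral_congr_ae (Filter.Eventually.of_forall (fun y => ?_))
      simp
    have hg : ∫ y, Fr r α (x - y) • φ y ∂(TP d) =
        ((RCLike.re (h1 x) : ℝ) : ℂ) + ((RCLike.re (h2 x) : ℝ) : ℂ) * Complex.I := by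
      rw [hv1, hv2, ← hre, ← him]
      exact (Complex.re_add_im _).symm
    show (∫ y, Fr r α (x - y) • φ y ∂(TP d)) - _ = _ + _
    rw [hg]
    simp only [map_sub]
    push_cast
    ring
  rw [heq]
  have m1 : AEStronglyMeasurable (fun x => ((RCLike.re (h1 x - c j1 x) : ℝ) : ℂ)) (TP d) :=
    (Complex.continuous_ofReal.comp RCLike.continuous_re).comp_aestronglyMeasurable
      (hc1.aestronglyMeasurable.sub (hcm j1).1)
  have m2 : AEStronglyMeasurable (fun x => ((RCLike.re (h2 x - c j2 x) : ℝ) : ℂ) * Complex.I) (TP d) :=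
    ((Complex.continuous_ofReal.comp RCLike.continuous_re).comp_aestronglyMeasurable
      (hc2.aestronglyMeasurable.sub (hcm j2).1)).mul_const Complex.I
  refine (eLpNorm_add_le m1 m2 hq).trans ?_
  have b1 : eLpNorm (fun x => ((RCLike.re (h1 x - c j1 x) : ℝ) : ℂ)) q (TP d) ≤ ENNReal.ofReal ε := by
    refine (eLpNorm_mono fun x => ?_).trans hj1
    rw [Complex.norm_real]
    exact RCLike.norm_re_le_norm _
  have b2 : eLpNorm (fun x => ((RCLike.re (h2 x - c j2 x) : ℝ) : ℂ) * Complex.I) q (TP d) ≤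
      ENNReal.ofReal ε := by
    refine (eLpNorm_mono fun x => ?_).trans hj2
    rw [norm_mul, Complex.norm_I, mul_one, Complex.norm_real]
    exact RCLike.norm_re_le_norm _
  refine (add_le_add b1 b2).trans ?_
  rw [← ENNReal.ofReal_add hε.le hε.le, two_mul]

end Sol_EX_Cov_complex

alias Cov_complex := Sol_EX_Cov_complex.Cov_complex

end HypVol
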