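import Pool.Agent.EntX.Defs
open MeasureTheory Real ProbabilityTheory
open scoped ENNReal BigOperators

namespace HypVol

theorem F1L_eq (r : ℝ) (hr : 1 < r) (a x : ℝ) : F1L r a x = F1 r a x := by
  have hs : Summable (fun k : ℕ => ((k:ℝ)+1)^(-r)) := by
    have h1 := (summable_nat_add_iff 1).2 (Real.summable_nat_rpow.2 (show -r < -1 by linarith))
    refine h1.congr (fun m => ?_)
    push_cast
    rfl
  have hs2 : Summable (fun k : ℕ => ((k:ℝ)+1)^(-r) * Real.cos (((k:ℝ)+1) * x - a * π / 2)) := by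
    refine Summable.of_norm_bounded hs (fun k => ?_)
    rw [norm_mul, Real.norm_of_nonneg (by positivity : (0:ℝ) ≤ ((k:ℝ)+1)^(-r))]
    refine mul_le_of_le_one_right (by positivity) ?_
    rw [Real.norm_eq_abs]
    exact Real.abs_cos_le_one _
  unfold F1L F1
  exact Filter.Tendsto.limUnder_eq ((hs2.hasSum.tendsto_sum_nat.const_mul 2).const_add 1)

theorem FrL_eq {d : ℕ} (r : ℝ) (hr : 1 < r) (α x : Fin d → ℝ) : FrL r α x = Fr r α x := by
  unfold FrL Fr
  exact Finset.prod_congr rfl (fun j _ => F1L_eq r hr (α j) (x j))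

theorem ML_eq_MW (𝕜 : Type) [RCLike 𝕜] (d : ℕ) (r : ℝ) (hr : 1 < r) (p : ℝ≥0∞) (α : Fin d → ℝ) :
    ML 𝕜 d r p α = MW 𝕜 d r p α := by
  unfold ML MW
  simp only [FrL_eq r hr]

end HypVol
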