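import Pool.Agent.EntX.Defs
open MeasureTheory Real ProbabilityTheory
open scoped ENNReal BigOperators

namespace HypVol
namespace Sol_EX_F1_mean

theorem F1_mean (r : ℝ) (hr : 1 < r) (a x : ℝ) :
    (2 * π)⁻¹ * ∫ t in (0:ℝ)..(2 * π), F1 r a (t - x) = 1 := by
  have hsum : Summable (fun k : ℕ => ((k:ℝ)+1)^(-r)) := by
    have h1 : Summable (fun n : ℕ => (n:ℝ)^(-r)) := Real.summable_nat_rpow.mpr (by linarith)
    have h2 := (summable_nat_add_iff 1).mpr h1
    refine h2.congr ?_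
    intro k
    push_cast
    rfl
  have hbd : ∀ (k : ℕ) (t : ℝ), ‖((k:ℝ)+1)^(-r) * Real.cos (((k:ℝ)+1) * (t - x) - a * π / 2)‖
      ≤ ((k:ℝ)+1)^(-r) := by
    intro k t
    have hk : 0 ≤ ((k:ℝ)+1)^(-r) := Real.rpow_nonneg (by positivity) _
    rw [norm_mul, Real.norm_eq_abs, Real.norm_eq_abs, abs_of_nonneg hk]
    calc ((k:ℝ)+1)^(-r) * |Real.cos (((k:ℝ)+1) * (t - x) - a * π / 2)|
        ≤ ((k:ℝ)+1)^(-r) * 1 := mul_le_mul_of_nonneg_left (Real.abs_cos_le_one _) hk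
      _ = ((k:ℝ)+1)^(-r) := mul_one _
  have hcont : ∀ k : ℕ, Continuous
      (fun t : ℝ => ((k:ℝ)+1)^(-r) * Real.cos (((k:ℝ)+1) * (t - x) - a * π / 2)) := by
    intro k
    fun_prop
  have hHS : ∀ t : ℝ, HasSum (fun k : ℕ => ((k:ℝ)+1)^(-r) * Real.cos (((k:ℝ)+1) * (t - x) - a * π / 2))
      (∑' k : ℕ, ((k:ℝ)+1)^(-r) * Real.cos (((k:ℝ)+1) * (t - x) - a * π / 2)) := by
    intro t
    exact (Summable.of_norm_bounded hsum (fun k => hbd k t)).hasSum
  have hint := intervalIntegral.hasSum_integral_of_dominated_convergence (μ := volume)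
    (a := (0:ℝ)) (b := 2 * π)
    (F := fun (k : ℕ) (t : ℝ) => ((k:ℝ)+1)^(-r) * Real.cos (((k:ℝ)+1) * (t - x) - a * π / 2))
    (f := fun t : ℝ => ∑' k : ℕ, ((k:ℝ)+1)^(-r) * Real.cos (((k:ℝ)+1) * (t - x) - a * π / 2))
    (fun (k : ℕ) (_ : ℝ) => ((k:ℝ)+1)^(-r))
    (fun k => (hcont k).aestronglyMeasurable)
    (fun k => Filter.Eventually.of_forall (fun t _ => hbd k t))
    (Filter.Eventually.of_forall (fun t _ => hsum))
    intervalIntegrable_const
    (Filter.Eventually.of_forall (fun t _ => hHS t))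
  have hzero : ∀ k : ℕ, ∫ t in (0:ℝ)..(2 * π),
      ((k:ℝ)+1)^(-r) * Real.cos (((k:ℝ)+1) * (t - x) - a * π / 2) = 0 := by
    intro k
    rw [intervalIntegral.integral_const_mul]
    have hk : ((k:ℝ)+1) ≠ 0 := by positivity
    have hd : ∀ t ∈ Set.uIcc (0:ℝ) (2 * π),
        HasDerivAt (fun t : ℝ => Real.sin (((k:ℝ)+1) * (t - x) - a * π / 2) / ((k:ℝ)+1))
          (Real.cos (((k:ℝ)+1) * (t - x) - a * π / 2)) t := by
      intro t _
      have h1 : HasDerivAt (fun t : ℝ => ((k:ℝ)+1) * (t - x) - a * π / 2) (((k:ℝ)+1) * 1) t :=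
        (((hasDerivAt_id t).sub_const x).const_mul ((k:ℝ)+1)).sub_const _
      have h2 := (h1.sin).div_const ((k:ℝ)+1)
      have h4 : Real.cos (((k:ℝ)+1) * (t - x) - a * π / 2) * (((k:ℝ)+1) * 1) / ((k:ℝ)+1)
          = Real.cos (((k:ℝ)+1) * (t - x) - a * π / 2) := by
        rw [mul_one, mul_div_assoc, div_self hk, mul_one]
      rw [h4] at h2
      exact h2
    rw [intervalIntegral.integral_eq_sub_of_hasDerivAt hd
      ((by fun_prop : Continuous (fun t : ℝ => Real.cos (((k:ℝ)+1) * (t - x) - a * π / 2))).intervalIntegrable _ _)]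
    have h3 : ((k:ℝ)+1) * (2 * π - x) - a * π / 2
        = (((k:ℝ)+1) * (0 - x) - a * π / 2) + ((k+1 : ℕ) : ℝ) * (2 * π) := by
      push_cast
      ring
    rw [h3, Real.sin_add_nat_mul_two_pi]
    simp
  have hS : ∫ t in (0:ℝ)..(2 * π), (∑' k : ℕ, ((k:ℝ)+1)^(-r) *
      Real.cos (((k:ℝ)+1) * (t - x) - a * π / 2)) = 0 := by
    have h0 : HasSum (fun k : ℕ => ∫ t in (0:ℝ)..(2 * π),
      ((k:ℝ)+1)^(-r) * Real.cos (((k:ℝ)+1) * (t - x) - a * π / 2)) 0 := by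
      simp_rw [hzero]
      exact hasSum_zero
    exact hint.unique h0
  have hcontS : Continuous (fun t : ℝ => ∑' k : ℕ, ((k:ℝ)+1)^(-r) *
      Real.cos (((k:ℝ)+1) * (t - x) - a * π / 2)) :=
    continuous_tsum hcont hsum hbd
  have hF : ∫ t in (0:ℝ)..(2 * π), F1 r a (t - x) = 2 * π := by
    unfold F1
    have hi2 : IntervalIntegrable (fun t : ℝ => 2 * ∑' k : ℕ, ((k:ℝ)+1)^(-r) *
        Real.cos (((k:ℝ)+1) * (t - x) - a * π / 2)) volume 0 (2 * π) :=
      (continuous_const.mul hcontS).intervalIntegrable _ _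
    have hi1 : IntervalIntegrable (fun _ : ℝ => (1:ℝ)) volume 0 (2 * π) := intervalIntegrable_const
    rw [intervalIntegral.integral_add hi1 hi2, intervalIntegral.integral_const_mul, hS]
    simp
  rw [hF]
  exact inv_mul_cancel₀ (by positivity)

end Sol_EX_F1_mean

alias F1_mean := Sol_EX_F1_mean.F1_mean

end HypVol
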