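import Pool.Agent.EntX.Defs
import Pool.Agent.HypVol.L_TP_prob
open MeasureTheory Real ProbabilityTheory
open scoped ENNReal BigOperators

namespace HypVol
namespace Sol_EX_FC_pair

theorem FC_pair {d n : ℕ} (f : (Fin d → ℝ) → ℂ) (hf : Integrable f (TP d)) (b : (layer d n) × Fin 2 → ℝ) :
    (∫ x, f x * (starRingEnd ℂ) (poly b x) ∂(TP d)).re = ∑ i, b i * FC d n f i := by
  have hconj : ∀ x : Fin d → ℝ, f x * (starRingEnd ℂ) (poly b x) =
      ∑ k : layer d n, ((b (k, 0) : ℂ) - (b (k, 1) : ℂ) * Complex.I) *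
        (f x * Complex.exp (-(Complex.I * ((∑ j, (k.1 j : ℝ) * x j : ℝ) : ℂ)))) := by
    intro x
    unfold poly
    rw [map_sum, Finset.mul_sum]
    refine Finset.sum_congr rfl fun k _ => ?_
    rw [map_mul, map_add, map_mul, Complex.conj_ofReal, Complex.conj_ofReal, Complex.conj_I,
      ← Complex.exp_conj, map_mul, Complex.conj_I, Complex.conj_ofReal]
    rw [neg_mul]
    ring
  have hint : ∀ k : layer d n, Integrable (fun x : Fin d → ℝ =>
      f x * Complex.exp (-(Complex.I * ((∑ j, (k.1 j : ℝ) * x j : ℝ) : ℂ)))) (TP d) := by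
    intro k
    have hc : Continuous (fun x : Fin d → ℝ =>
        Complex.exp (-(Complex.I * ((∑ j, (k.1 j : ℝ) * x j : ℝ) : ℂ)))) := by
      fun_prop
    refine hf.mul_bdd (c := 1) hc.aestronglyMeasurable (Filter.Eventually.of_forall fun x => ?_)
    rw [Complex.norm_exp]
    simp
  have hI : (∫ x, f x * (starRingEnd ℂ) (poly b x) ∂(TP d)) =
      ∑ k : layer d n, ((b (k, 0) : ℂ) - (b (k, 1) : ℂ) * Complex.I) * fc f k.1 := by
    simp_rw [hconj]
    rw [integral_finsetSum]
    · refine Finset.sum_congr rfl fun k _ => ?_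
      rw [integral_const_mul]
      rfl
    · intro k _
      exact (hint k).const_mul _
  rw [hI, Complex.re_sum, Fintype.sum_prod_type]
  refine Finset.sum_congr rfl fun k _ => ?_
  rw [Fin.sum_univ_two]
  simp [FC, Complex.mul_re]

end Sol_EX_FC_pair

alias FC_pair := Sol_EX_FC_pair.FC_pair

end HypVol
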