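import Pool.Agent.EntX.Defs
import Pool.Agent.EntX.L_FC_pair
import Pool.Agent.HypVol.L_TP_prob
open MeasureTheory Real ProbabilityTheory
open scoped ENNReal BigOperators

namespace HypVol
namespace Sol_EX_FC_L1

theorem FC_L1 {d n : ℕ} (φ : (Fin d → ℝ) → ℂ) (hφ : MemLp φ 1 (TP d)) (h : eLpNorm φ 1 (TP d) ≤ 1) :
    FC d n φ ∈ pol (ball d n) := by
  intro b hb
  have hI : Integrable φ (TP d) := memLp_one_iff_integrable.1 hφ
  rw [← FC_pair φ hI b]
  have h1 : ‖∫ x, φ x * (starRingEnd ℂ) (poly b x) ∂(TP d)‖ ≤ ∫ x, ‖φ x‖ ∂(TP d) := by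
    refine norm_integral_le_of_norm_le hI.norm (Filter.Eventually.of_forall fun x => ?_)
    rw [norm_mul, RCLike.norm_conj]
    exact mul_le_of_le_one_right (norm_nonneg _) (hb x)
  have h2 : ∫ x, ‖φ x‖ ∂(TP d) ≤ 1 := by
    rw [integral_norm_eq_lintegral_enorm hI.aestronglyMeasurable, ← eLpNorm_one_eq_lintegral_enorm]
    have := ENNReal.toReal_mono ENNReal.one_ne_top h
    simpa using this
  exact (Complex.abs_re_le_norm _).trans (h1.trans h2)

end Sol_EX_FC_L1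

alias FC_L1 := Sol_EX_FC_L1.FC_L1

end HypVol
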