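import Pool.Agent.EntX.Defs
import Pool.Agent.HypVol.L_TP_prob
import Pool.Agent.HypVol.L_conv_poly
import Pool.Agent.EntX.L_conv_facts
import Pool.Agent.HypVol.L_mem_layer
open MeasureTheory Real ProbabilityTheory
open scoped ENNReal BigOperators

namespace HypVol
namespace Sol_EX_FC_conv

noncomputable def FC_conv_single {d n : ℕ} (κ : layer d n) (c : ℂ) : (layer d n) × Fin 2 → ℝ :=
  fun i => if i.1 = κ then (if i.2 = 0 then c.re else c.im) else 0

theorem FC_conv_poly_single {d n : ℕ} (κ : layer d n) (c : ℂ) (x : Fin d → ℝ) :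
    poly (FC_conv_single κ c) x
      = c * Complex.exp (Complex.I * ((∑ j, (κ.1 j : ℝ) * x j : ℝ) : ℂ)) := by
  unfold poly
  rw [Finset.sum_eq_single κ]
  · congr 1
    have h0 : FC_conv_single κ c (κ, 0) = c.re := by simp [FC_conv_single]
    have h1 : FC_conv_single κ c (κ, 1) = c.im := by simp [FC_conv_single]
    rw [h0, h1, Complex.re_add_im]
  · intro b _ hb
    have h0 : FC_conv_single κ c (b, 0) = 0 := by simp [FC_conv_single, hb]
    have h1 : FC_conv_single κ c (b, 1) = 0 := by simp [FC_conv_single, hb]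
    rw [h0, h1]
    simp
  · intro h
    exact absurd (Finset.mem_univ _) h

theorem FC_conv_Mact_single {d n : ℕ} (r : ℝ) (α : Fin d → ℝ) (κ : layer d n) (c : ℂ) :
    Mact r α (FC_conv_single κ c) = FC_conv_single κ (Fh r α κ.1 * c) := by
  funext i
  obtain ⟨i1, i2⟩ := i
  by_cases h : i1 = κ
  · subst h
    have h0 : FC_conv_single i1 c (i1, 0) = c.re := by simp [FC_conv_single]
    have h1 : FC_conv_single i1 c (i1, 1) = c.im := by simp [FC_conv_single]
    unfold Mact
    simp only [h0, h1, Complex.re_add_im]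
    unfold FC_conv_single
    simp
  · have h0 : FC_conv_single κ c (i1, 0) = 0 := by simp [FC_conv_single, h]
    have h1 : FC_conv_single κ c (i1, 1) = 0 := by simp [FC_conv_single, h]
    unfold Mact
    simp only [h0, h1]
    unfold FC_conv_single
    simp [h]

theorem FC_conv_F1_neg (r α x : ℝ) : F1 r (-α) (-x) = F1 r α x := by
  unfold F1
  congr 2
  apply tsum_congr
  intro k
  congr 1
  rw [← Real.cos_neg]
  congr 1
  ring

theorem FC_conv_Fr_neg {d : ℕ} (r : ℝ) (α x y : Fin d → ℝ) :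
    Fr r α (x - y) = Fr r (-α) (y - x) := by
  unfold Fr
  apply Finset.prod_congr rfl
  intro j _
  have h : (y - x) j = -((x - y) j) := by simp
  rw [h, Pi.neg_apply, FC_conv_F1_neg]

theorem FC_conv_Fh_neg {d : ℕ} (r : ℝ) (α : Fin d → ℝ) (k : Fin d → ℤ) :
    Fh r (-α) (-k) = Fh r α k := by
  unfold Fh
  apply Finset.prod_congr rfl
  intro j _
  by_cases h : k j = 0
  · simp [h]
  · have h' : (-k) j ≠ 0 := by simpa using h
    rw [if_neg h, if_neg h']
    have h1 : |(((-k) j : ℤ) : ℝ)| = |(k j : ℝ)| := by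
      rw [Pi.neg_apply, Int.cast_neg, abs_neg]
    have h2 : (((SignType.sign ((-k) j) : ℤ) : ℝ) * (-α) j * π / 2 : ℝ)
        = ((SignType.sign (k j) : ℤ) : ℝ) * α j * π / 2 := by
      rw [Pi.neg_apply, Pi.neg_apply, Left.sign_neg]
      simp
    rw [h1, h2]

theorem FC_conv_neg_mem {d n : ℕ} {k : Fin d → ℤ} (hk : k ∈ layer d n) : -k ∈ layer d n := by
  rw [mem_layer_iff] at hk ⊢
  simpa using hk

theorem FC_conv_fc {d n : ℕ} (r : ℝ) (hr : 1 < r) (α : Fin d → ℝ) (φ : (Fin d → ℝ) → ℂ)
    (hφ : Integrable φ (TP d)) (k : Fin d → ℤ) (hk : k ∈ layer d n) :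
    fc (fun x => ∫ y, Fr r α (x - y) • φ y ∂(TP d)) k = Fh r α k * fc φ k := by
  have := TP_prob d
  obtain ⟨hc, B, hB, hFB, -⟩ := conv_facts (𝕜 := ℂ) r hr α
  unfold fc
  obtain ⟨e, he⟩ : ∃ e : (Fin d → ℝ) → ℂ,
    e = fun x => Complex.exp (-(Complex.I * ((∑ j, (k j : ℝ) * x j : ℝ) : ℂ))) := ⟨_, rfl⟩
  have hec : Continuous e := by
    rw [he]
    fun_prop
  have hen : ∀ x, ‖e x‖ = 1 := by
    intro x
    rw [he]
    simp only
    rw [Complex.norm_exp]
    simp
  have hE : ∀ x, Complex.exp (-(Complex.I * ((∑ j, (k j : ℝ) * x j : ℝ) : ℂ))) = e x := by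
    intro x; rw [he]
  simp only [hE]
  
  have hinner : ∀ y : Fin d → ℝ, ∫ x, Fr r α (x - y) • e x ∂(TP d) = Fh r α k * e y := by
    intro y
    have h1 := conv_poly (n := n) r hr (-α) (FC_conv_single ⟨-k, FC_conv_neg_mem hk⟩ 1) y
    rw [FC_conv_Mact_single, FC_conv_poly_single] at h1
    simp only [FC_conv_poly_single] at h1
    rw [FC_conv_Fh_neg] at h1
    have h2 : ∀ x : Fin d → ℝ,
        Complex.exp (Complex.I * ((∑ j, ((-k) j : ℝ) * x j : ℝ) : ℂ)) = e x := by
      intro x
      rw [he]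
      simp only
      congr 1
      rw [← mul_neg]
      congr 1
      push_cast
      rw [← Finset.sum_neg_distrib]
      apply Finset.sum_congr rfl
      intro j _
      simp
    have h3 : ∀ x : Fin d → ℝ, Fr r α (x - y) • e x = Fr r (-α) (y - x) •
        ((1 : ℂ) * Complex.exp (Complex.I * ((∑ j, ((-k) j : ℝ) * x j : ℝ) : ℂ))) := by
      intro x
      rw [h2, one_mul, FC_conv_Fr_neg]
    simp only [h3]
    rw [h1, h2, mul_one]
  have hint : Integrable (Function.uncurry fun (x y : Fin d → ℝ) =>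
      (Fr r α (x - y) • φ y) * e x) ((TP d).prod (TP d)) := by
    have h1 : Integrable (fun p : (Fin d → ℝ) × (Fin d → ℝ) => φ p.2) ((TP d).prod (TP d)) :=
      hφ.comp_snd (TP d)
    have h2 : Continuous (fun p : (Fin d → ℝ) × (Fin d → ℝ) =>
        ((Fr r α (p.1 - p.2) : ℝ) : ℂ) * e p.1) := by
      apply Continuous.mul
      · exact Complex.continuous_ofReal.comp (hc.comp (continuous_fst.sub continuous_snd))
      · exact hec.comp continuous_fst
    have h3 := h1.bdd_mul (c := B) h2.aestronglyMeasurable (Filter.Eventually.of_forall (fun p => by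
      rw [norm_mul, hen, mul_one, Complex.norm_real, Real.norm_eq_abs]
      exact hFB _))
    refine h3.congr (Filter.Eventually.of_forall (fun p => ?_))
    simp only [Function.uncurry, Complex.real_smul]
    ring
  calc ∫ x, (∫ y, Fr r α (x - y) • φ y ∂(TP d)) * e x ∂(TP d)
      = ∫ x, ∫ y, (Fr r α (x - y) • φ y) * e x ∂(TP d) ∂(TP d) := by
        apply integral_congr_ae
        refine Filter.Eventually.of_forall (fun x => ?_)
        simp only
        rw [integral_mul_const]
    _ = ∫ y, ∫ x, (Fr r α (x - y) • φ y) * e x ∂(TP d) ∂(TP d) :=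
        integral_integral_swap hint
    _ = ∫ y, Fh r α k * (φ y * e y) ∂(TP d) := by
        apply integral_congr_ae
        refine Filter.Eventually.of_forall (fun y => ?_)
        simp only
        have h4 : ∀ x, (Fr r α (x - y) • φ y) * e x = φ y * (Fr r α (x - y) • e x) := by
          intro x
          rw [Complex.real_smul, Complex.real_smul]; ring
        simp only [h4]
        rw [integral_const_mul, hinner y]
        ring
    _ = Fh r α k * ∫ y, φ y * e y ∂(TP d) := by
        rw [integral_const_mul]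

theorem FC_conv {d n : ℕ} (r : ℝ) (hr : 1 < r) (α : Fin d → ℝ) (φ : (Fin d → ℝ) → ℂ)
    (hφ : Integrable φ (TP d)) :
    FC d n (fun x => ∫ y, Fr r α (x - y) • φ y ∂(TP d)) = Mact r α (FC d n φ) := by
  funext i
  obtain ⟨i1, i2⟩ := i
  have h := FC_conv_fc (n := n) r hr α φ hφ i1.1 i1.2
  have h0 : FC d n φ (i1, 0) = (fc φ i1.1).re := by simp [FC]
  have h1 : FC d n φ (i1, 1) = (fc φ i1.1).im := by simp [FC]
  unfold Mact
  simp only [h0, h1, Complex.re_add_im]
  unfold FC
  simp only [h]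

end Sol_EX_FC_conv

alias FC_conv := Sol_EX_FC_conv.FC_conv

end HypVol
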