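import Pool.Agent.EntX.Defs
import Pool.Agent.HypVol.L_TP_prob
import Pool.Agent.HypVol.L_fc_poly
open MeasureTheory Real ProbabilityTheory
open scoped ENNReal BigOperators

namespace HypVol
namespace Sol_EX_LB_facts

theorem LBf_poly_neg {d n : ℕ} (b : (layer d n) × Fin 2 → ℝ) : poly (-b) = -poly b := by
  funext x
  unfold poly
  rw [Pi.neg_apply, ← Finset.sum_neg_distrib]
  refine Finset.sum_congr rfl fun k _ => ?_
  simp only [Pi.neg_apply]
  push_cast
  ring

theorem LBf_poly_sub {d n : ℕ} (a b : (layer d n) × Fin 2 → ℝ) :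
    poly (a - b) = poly a - poly b := by
  funext x
  unfold poly
  rw [Pi.sub_apply, ← Finset.sum_sub_distrib]
  refine Finset.sum_congr rfl fun k _ => ?_
  simp only [Pi.sub_apply]
  push_cast
  ring

theorem LBf_bound {d n : ℕ} (b : (layer d n) × Fin 2 → ℝ) (x : Fin d → ℝ) :
    ‖poly b x‖ ≤ ∑ i, |b i| := by
  unfold poly
  rw [Fintype.sum_prod_type]
  refine (norm_sum_le _ _).trans (Finset.sum_le_sum fun k _ => ?_)
  rw [norm_mul, mul_comm Complex.I, Complex.norm_exp_ofReal_mul_I, mul_one, Fin.sum_univ_two]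
  refine (norm_add_le _ _).trans ?_
  rw [norm_mul, Complex.norm_I, mul_one, Complex.norm_real, Complex.norm_real, Real.norm_eq_abs,
    Real.norm_eq_abs]

theorem LBf_cont {d n : ℕ} (b : (layer d n) × Fin 2 → ℝ) : Continuous (poly b) := by
  unfold poly
  fun_prop

theorem LBf_lp {d n : ℕ} (q : ℝ≥0∞) (b : (layer d n) × Fin 2 → ℝ) :
    eLpNorm (poly b) q (TP d) ≤ ENNReal.ofReal (∑ i, |b i|) := by
  have := TP_prob d
  have h := eLpNorm_le_of_ae_bound (μ := TP d) (p := q) (f := poly b) (C := ∑ i, |b i|)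
    (Filter.Eventually.of_forall fun x => LBf_bound b x)
  simpa using h

theorem LBf_coef {d n : ℕ} (q : ℝ≥0∞) (hq : 1 ≤ q) (b : (layer d n) × Fin 2 → ℝ)
    (hb : b ∈ LB d n q) (i : (layer d n) × Fin 2) : |b i| ≤ 1 := by
  have := TP_prob d
  have h0 : eLpNorm (poly b) q (TP d) ≤ 1 := hb
  obtain ⟨k, s⟩ := i
  have h1 : ‖fc (poly b) k.1‖ ≤ 1 := by
    have e1 : ‖fc (poly b) k.1‖ ≤ ∫ x, ‖poly b x‖ ∂(TP d) := by
      unfold fc
      refine (norm_integral_le_integral_norm _).trans (le_of_eq ?_)
      refine integral_congr_ae (Filter.Eventually.of_forall fun x => ?_)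
      show ‖poly b x * Complex.exp _‖ = ‖poly b x‖
      have e3 : -(Complex.I * ((∑ j, (k.1 j : ℝ) * x j : ℝ) : ℂ)) =
          ((-(∑ j, (k.1 j : ℝ) * x j) : ℝ) : ℂ) * Complex.I := by
        push_cast; ring
      rw [norm_mul, e3, Complex.norm_exp_ofReal_mul_I, mul_one]
    have e2 : ∫ x, ‖poly b x‖ ∂(TP d) ≤ 1 := by
      rw [integral_norm_eq_lintegral_enorm (LBf_cont b).aestronglyMeasurable,
        ← eLpNorm_one_eq_lintegral_enorm]
      have e4 : eLpNorm (poly b) 1 (TP d) ≤ 1 :=
        (eLpNorm_le_eLpNorm_of_exponent_le hq (LBf_cont b).aestronglyMeasurable).trans h0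
      have e5 := ENNReal.toReal_mono ENNReal.one_ne_top e4
      simpa using e5
    exact e1.trans e2
  rw [fc_poly b k] at h1
  have hs : s = 0 ∨ s = 1 := by
    fin_cases s
    · left; rfl
    · right; rfl
  rcases hs with rfl | rfl
  · have e1 := Complex.abs_re_le_norm ((b (k, 0) : ℂ) + (b (k, 1) : ℂ) * Complex.I)
    simp only [Complex.add_re, Complex.ofReal_re, Complex.mul_re, Complex.I_re, mul_zero,
      Complex.ofReal_im, Complex.I_im, zero_mul, sub_zero, add_zero, sub_self] at e1
    exact e1.trans h1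
  · have e1 := Complex.abs_im_le_norm ((b (k, 0) : ℂ) + (b (k, 1) : ℂ) * Complex.I)
    simp only [Complex.add_im, Complex.ofReal_im, Complex.mul_im, Complex.I_im, mul_one,
      Complex.ofReal_re, Complex.I_re, mul_zero, zero_add, add_zero] at e1
    exact e1.trans h1

theorem LB_facts (d n : ℕ) (q : ℝ) (hq : 1 ≤ q) :
    IsCompact (LB d n (ENNReal.ofReal q)) ∧ (∀ x ∈ LB d n (ENNReal.ofReal q), -x ∈ LB d n (ENNReal.ofReal q)) ∧
    IsCompact (pol (LB d n (ENNReal.ofReal q))) ∧
    (∀ x ∈ pol (LB d n (ENNReal.ofReal q)), -x ∈ pol (LB d n (ENNReal.ofReal q))) := by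
  classical
  have := TP_prob d
  have hq1 : 1 ≤ ENNReal.ofReal q := by
    rw [← ENNReal.ofReal_one]; exact ENNReal.ofReal_le_ofReal hq
  refine ⟨?_, ?_, ?_, ?_⟩
  · refine Metric.isCompact_of_isClosed_isBounded ?_ ?_
    · refine isClosed_of_closure_subset ?_
      intro b hb
      rw [Metric.mem_closure_iff] at hb
      show eLpNorm (poly b) (ENNReal.ofReal q) (TP d) ≤ 1
      refine ENNReal.le_of_forall_pos_le_add fun ε hε _ => ?_
      set N : ℝ := Fintype.card ((layer d n) × Fin 2) + 1 with hN
      have hNpos : 0 < N := by positivity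
      obtain ⟨a, ha, hdist⟩ := hb ((ε : ℝ) / N) (div_pos (by exact_mod_cast hε) hNpos)
      have e1 : poly b = poly a + poly (b - a) := by
        rw [LBf_poly_sub]; abel
      have e2 : ∑ i, |(b - a) i| ≤ ε := by
        calc ∑ i, |(b - a) i| ≤ ∑ _i : (layer d n) × Fin 2, (ε : ℝ) / N := by
              refine Finset.sum_le_sum fun i _ => ?_
              have h3 := dist_le_pi_dist b a i
              rw [Real.dist_eq] at h3
              exact h3.trans hdist.le
          _ = (Fintype.card ((layer d n) × Fin 2) : ℝ) * ((ε : ℝ) / N) := by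
              rw [Finset.sum_const, nsmul_eq_mul, Finset.card_univ]
          _ ≤ N * ((ε : ℝ) / N) := by
              refine mul_le_mul_of_nonneg_right ?_ (by positivity)
              rw [hN]; linarith
          _ = ε := by field_simp
      rw [e1]
      refine (eLpNorm_add_le (LBf_cont a).aestronglyMeasurable
        (LBf_cont (b - a)).aestronglyMeasurable hq1).trans ?_
      refine add_le_add ha ((LBf_lp _ _).trans ?_)
      calc ENNReal.ofReal (∑ i, |(b - a) i|) ≤ ENNReal.ofReal (ε : ℝ) := ENNReal.ofReal_le_ofReal e2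
        _ = ε := ENNReal.ofReal_coe_nnreal
    · refine (Metric.isBounded_closedBall (x := (0 : (layer d n) × Fin 2 → ℝ)) (r := 1)).subset ?_
      intro b hb
      rw [mem_closedBall_zero_iff, pi_norm_le_iff_of_nonneg zero_le_one]
      intro i
      exact LBf_coef _ hq1 b hb i
  · intro b hb
    show eLpNorm (poly (-b)) (ENNReal.ofReal q) (TP d) ≤ 1
    rw [LBf_poly_neg, eLpNorm_neg]
    exact hb
  · refine Metric.isCompact_of_isClosed_isBounded ?_ ?_
    · have e1 : pol (LB d n (ENNReal.ofReal q)) =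
          ⋂ b ∈ LB d n (ENNReal.ofReal q), {y | |∑ i, b i * y i| ≤ 1} := by
        ext y
        simp only [pol, Set.mem_iInter, Set.mem_setOf_eq]
      rw [e1]
      refine isClosed_biInter fun b _ => isClosed_le ?_ continuous_const
      fun_prop
    · refine (Metric.isBounded_closedBall (x := (0 : (layer d n) × Fin 2 → ℝ)) (r := 1)).subset ?_
      intro y hy
      rw [mem_closedBall_zero_iff, pi_norm_le_iff_of_nonneg zero_le_one]
      intro i
      have e1 : (Pi.single i 1 : (layer d n) × Fin 2 → ℝ) ∈ LB d n (ENNReal.ofReal q) := by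
        show eLpNorm (poly _) (ENNReal.ofReal q) (TP d) ≤ 1
        refine (LBf_lp _ _).trans ?_
        have e2 : ∑ j, |(Pi.single i 1 : (layer d n) × Fin 2 → ℝ) j| = 1 := by
          rw [Finset.sum_eq_single i]
          · simp
          · intro j _ hj
            rw [Pi.single_eq_of_ne hj]; simp
          · intro h; exact absurd (Finset.mem_univ i) h
        rw [e2, ENNReal.ofReal_one]
      have e3 := hy _ e1
      have e4 : ∑ j, (Pi.single i 1 : (layer d n) × Fin 2 → ℝ) j * y j = y i := by
        rw [Finset.sum_eq_single i]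
        · simp
        · intro j _ hj
          rw [Pi.single_eq_of_ne hj]; simp
        · intro h; exact absurd (Finset.mem_univ i) h
      rw [e4] at e3
      exact e3
  · intro y hy b hb
    have := hy b hb
    simp only [Pi.neg_apply, mul_neg, Finset.sum_neg_distrib, abs_neg]
    exact this

end Sol_EX_LB_facts

alias LB_facts := Sol_EX_LB_facts.LB_facts

end HypVol
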