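import Pool.Agent.EntX.Defs
import Pool.Agent.HypVol.L_TP_prob
import Pool.Agent.HypVol.L_fc_poly
open MeasureTheory Real ProbabilityTheory
open scoped ENNReal BigOperators

namespace HypVol
namespace Sol_EX_bperp_lift

theorem bl_poly_cont {d n : ℕ} (a : (layer d n) × Fin 2 → ℝ) : Continuous (poly a) := by
  unfold poly
  fun_prop

theorem bl_poly_int {d n : ℕ} (a : (layer d n) × Fin 2 → ℝ) : Integrable (poly a) (TP d) := by
  haveI := TP_prob d
  refine Integrable.of_bound (bl_poly_cont a).aestronglyMeasurable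
    (∑ k : layer d n, ‖((a (k, 0) : ℂ) + (a (k, 1) : ℂ) * Complex.I)‖) ?_
  refine Filter.Eventually.of_forall fun x => ?_
  unfold poly
  refine (norm_sum_le _ _).trans (Finset.sum_le_sum fun k _ => ?_)
  rw [norm_mul, Complex.norm_exp_I_mul_ofReal, mul_one]

theorem bl_mul_exp_int {d : ℕ} {g : (Fin d → ℝ) → ℂ} (hg : Integrable g (TP d)) (k : Fin d → ℤ) :
    Integrable (fun x => g x * Complex.exp (-(Complex.I * ((∑ j, (k j : ℝ) * x j : ℝ) : ℂ)))) (TP d) := by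
  refine hg.mul_bdd (c := 1) ?_ ?_
  · apply Continuous.aestronglyMeasurable
    fun_prop
  · refine Filter.Eventually.of_forall fun x => ?_
    have : -(Complex.I * ((∑ j, (k j : ℝ) * x j : ℝ) : ℂ)) =
        Complex.I * ((-(∑ j, (k j : ℝ) * x j) : ℝ) : ℂ) := by push_cast; ring
    rw [this, Complex.norm_exp_I_mul_ofReal]

theorem bperp_lift {d n : ℕ} (a : (layer d n) × Fin 2 → ℝ) (ha : a ∈ bperp d n) (δ : ℝ) (hδ : 0 < δ) :
    ∃ φ : (Fin d → ℝ) → ℂ, MemLp φ 1 (TP d) ∧ eLpNorm φ 1 (TP d) ≤ 1 ∧ FC d n φ = (1 + δ)⁻¹ • a := by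
  haveI := TP_prob d
  have hne : {r : ℝ | ∃ g : (Fin d → ℝ) → ℂ, Integrable g (TP d) ∧ (∀ k ∈ layer d n, fc g k = 0) ∧
    r = ∫ x, ‖poly a x - g x‖ ∂(TP d)}.Nonempty := by
    refine ⟨∫ x, ‖poly a x - (0 : ℂ)‖ ∂(TP d), fun _ => 0, integrable_zero _ _ _, ?_, rfl⟩
    intro k _
    simp [fc]
  have hlt : sInf {r : ℝ | ∃ g : (Fin d → ℝ) → ℂ, Integrable g (TP d) ∧
      (∀ k ∈ layer d n, fc g k = 0) ∧ r = ∫ x, ‖poly a x - g x‖ ∂(TP d)} < 1 + δ := by
    have h1 : Eperp a ≤ 1 := ha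
    unfold Eperp at h1
    linarith
  obtain ⟨r, ⟨g, hg, hgk, hr⟩, hr1⟩ := exists_lt_of_csInf_lt hne hlt
  have hp := bl_poly_int a
  have hδ1 : 0 < 1 + δ := by linarith
  have hsub : Integrable (fun x => poly a x - g x) (TP d) := hp.sub hg
  have hφ : Integrable (fun x => (((1 + δ)⁻¹ : ℝ) : ℂ) * (poly a x - g x)) (TP d) :=
    hsub.const_mul _
  refine ⟨fun x => (((1 + δ)⁻¹ : ℝ) : ℂ) * (poly a x - g x), memLp_one_iff_integrable.mpr hφ, ?_, ?_⟩
  · rw [eLpNorm_one_eq_lintegral_enorm, ← ofReal_integral_norm_eq_lintegral_enorm hφ]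
    rw [← ENNReal.ofReal_one]
    apply ENNReal.ofReal_le_ofReal
    have e : (fun x => ‖(((1 + δ)⁻¹ : ℝ) : ℂ) * (poly a x - g x)‖) =
        fun x => (1 + δ)⁻¹ * ‖poly a x - g x‖ := by
      funext x
      rw [norm_mul, Complex.norm_real, Real.norm_of_nonneg (by positivity)]
    rw [e, integral_const_mul, ← hr, inv_mul_le_iff₀ hδ1]
    linarith
  · have key : ∀ k : layer d n, fc (fun x => (((1 + δ)⁻¹ : ℝ) : ℂ) * (poly a x - g x)) k.1 =
        (((1 + δ)⁻¹ : ℝ) : ℂ) * ((a (k, 0) : ℂ) + (a (k, 1) : ℂ) * Complex.I) := by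
      intro k
      rw [← fc_poly a k]
      have h0 := hgk k.1 k.2
      unfold fc at h0 ⊢
      have e : (fun x => (((1 + δ)⁻¹ : ℝ) : ℂ) * (poly a x - g x) *
          Complex.exp (-(Complex.I * ((∑ j, (k.1 j : ℝ) * x j : ℝ) : ℂ)))) =
          fun x => (((1 + δ)⁻¹ : ℝ) : ℂ) * (poly a x *
          Complex.exp (-(Complex.I * ((∑ j, (k.1 j : ℝ) * x j : ℝ) : ℂ))) - g x *
          Complex.exp (-(Complex.I * ((∑ j, (k.1 j : ℝ) * x j : ℝ) : ℂ)))) := by
        funext x; ring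
      rw [e, integral_const_mul, integral_sub (bl_mul_exp_int hp k.1) (bl_mul_exp_int hg k.1), h0,
        sub_zero]
    funext i
    obtain ⟨k, c⟩ := i
    have hk := key k
    unfold FC
    simp only [Pi.smul_apply, smul_eq_mul]
    rw [hk]
    have e1 : ∀ (t u v : ℝ), ((t : ℂ) * ((u : ℂ) + (v : ℂ) * Complex.I)).re = t * u := by
      intro t u v; simp
    have e2 : ∀ (t u v : ℝ), ((t : ℂ) * ((u : ℂ) + (v : ℂ) * Complex.I)).im = t * v := by
      intro t u v; simp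
    rw [e1, e2]
    fin_cases c <;> simp

end Sol_EX_bperp_lift

alias bperp_lift := Sol_EX_bperp_lift.bperp_lift

end HypVol
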