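import Pool.Agent.EntX.Defs
import Pool.Agent.HypVol.L_TP_prob
import Pool.Agent.EntX.L_FC_pair
open MeasureTheory Real ProbabilityTheory
open scoped ENNReal BigOperators

namespace HypVol
namespace Sol_EX_holder_FC

theorem holder_FC_memLp {d n : ℕ} (b : (layer d n) × Fin 2 → ℝ) (p : ℝ≥0∞) :
    MemLp (poly b) p (TP d) := by
  have := TP_prob d
  have hc : Continuous (poly b) := by
    unfold poly
    fun_prop
  refine MemLp.of_bound hc.aestronglyMeasurable
    (∑ k : layer d n, ‖((b (k, 0) : ℂ) + (b (k, 1) : ℂ) * Complex.I)‖)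
    (Filter.Eventually.of_forall fun x => ?_)
  unfold poly
  refine (norm_sum_le _ _).trans (Finset.sum_le_sum fun k _ => ?_)
  rw [norm_mul, mul_comm Complex.I, Complex.norm_exp_ofReal_mul_I, mul_one]

theorem holder_FC_norm {d : ℕ} (q : ℝ) (hq : 0 < q) (f : (Fin d → ℝ) → ℂ)
    (hf : MemLp f (ENNReal.ofReal q) (TP d)) :
    (eLpNorm f (ENNReal.ofReal q) (TP d)).toReal = (∫ x, ‖f x‖ ^ q ∂(TP d)) ^ (1 / q) := by
  have h0 : ENNReal.ofReal q ≠ 0 := by
    rw [Ne, ENNReal.ofReal_eq_zero]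
    exact not_le.2 hq
  rw [hf.eLpNorm_eq_integral_rpow_norm h0 ENNReal.ofReal_ne_top, ENNReal.toReal_ofReal hq.le,
    ENNReal.toReal_ofReal, one_div]
  exact Real.rpow_nonneg (integral_nonneg fun x => Real.rpow_nonneg (norm_nonneg _) _) _

theorem holder_FC {d n : ℕ} (q q' : ℝ) (hq : q.HolderConjugate q') (f : (Fin d → ℝ) → ℂ)
    (hf : MemLp f (ENNReal.ofReal q) (TP d)) (b : (layer d n) × Fin 2 → ℝ) :
    |∑ i, b i * FC d n f i| ≤
      (eLpNorm f (ENNReal.ofReal q) (TP d)).toReal * (eLpNorm (poly b) (ENNReal.ofReal q') (TP d)).toReal := by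
  have := TP_prob d
  have hq1 : (1 : ℝ≥0∞) ≤ ENNReal.ofReal q := by
    rw [← ENNReal.ofReal_one]
    exact ENNReal.ofReal_le_ofReal hq.lt.le
  have hfi : Integrable f (TP d) := hf.integrable hq1
  have hb := holder_FC_memLp (d := d) (n := n) b (ENNReal.ofReal q')
  rw [← FC_pair f hfi b, holder_FC_norm q hq.pos f hf, holder_FC_norm q' hq.symm.pos _ hb]
  refine (Complex.abs_re_le_norm _).trans ?_
  refine (norm_integral_le_integral_norm _).trans ?_
  refine le_trans (le_of_eq ?_) (integral_mul_norm_le_Lp_mul_Lq hq hf hb)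
  congr 1
  funext x
  rw [norm_mul, RCLike.norm_conj]

end Sol_EX_holder_FC

alias holder_FC := Sol_EX_holder_FC.holder_FC

end HypVol
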