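import Pool.Agent.EntX.Defs
import Pool.Agent.HypVol.L_Lq_vol
import Pool.Agent.HypVol.L_TP_prob
open MeasureTheory Real ProbabilityTheory
open scoped ENNReal BigOperators

namespace HypVol
namespace Sol_EX_LB_vol

theorem LB_vol (d : ℕ) (q : ℝ) (hq : 1 ≤ q) : ∃ C : ℝ, 0 < C ∧ ∀ n : ℕ, 1 ≤ (layer d n).card →
    ENNReal.ofReal (((C * Real.sqrt ((layer d n).card))⁻¹)^(2 * (layer d n).card)) ≤
      volume (LB d n (ENNReal.ofReal q)) := by
  open scoped Pointwise in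
  obtain ⟨C, hC, hvol⟩ := Lq_vol d q hq
  refine ⟨C, hC, ?_⟩
  intro n hn
  have hcard : (0 : ℝ) < ((layer d n).card : ℝ) := by exact_mod_cast (by omega : 0 < (layer d n).card)
  obtain ⟨c, hc⟩ : ∃ c, c = C * Real.sqrt ((layer d n).card) := ⟨_, rfl⟩
  have hc0 : 0 < c := by rw [hc]; positivity
  have hv := hvol n
  rw [← hc] at hv ⊢
  obtain ⟨A, hA⟩ : ∃ A, A = {a : (layer d n) × Fin 2 → ℝ | (∀ i, |a i| ≤ 1) ∧
        eLpNorm (poly a) (ENNReal.ofReal q) (TP d) ≤ ENNReal.ofReal c} := ⟨_, rfl⟩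
  rw [← hA] at hv
  have hsub : (c⁻¹ : ℝ) • A ⊆ LB d n (ENNReal.ofReal q) := by
    intro b hb
    rw [Set.mem_smul_set] at hb
    obtain ⟨a, ha, rfl⟩ := hb
    rw [hA] at ha
    obtain ⟨_, ha2⟩ := ha
    change eLpNorm (poly (c⁻¹ • a)) (ENNReal.ofReal q) (TP d) ≤ 1
    have h1 : poly (c⁻¹ • a) = (c⁻¹ : ℝ) • poly a := by
      funext x
      simp only [poly, Pi.smul_apply, smul_eq_mul]
      rw [Complex.real_smul, Finset.mul_sum]
      apply Finset.sum_congr rfl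
      intro k _
      push_cast
      ring
    rw [h1, eLpNorm_const_smul]
    calc ‖(c⁻¹ : ℝ)‖ₑ * eLpNorm (poly a) (ENNReal.ofReal q) (TP d)
        ≤ ENNReal.ofReal (c⁻¹) * ENNReal.ofReal c := by
          gcongr
          rw [Real.enorm_of_nonneg (by positivity)]
      _ = 1 := by
          rw [← ENNReal.ofReal_mul (by positivity), inv_mul_cancel₀ hc0.ne', ENNReal.ofReal_one]
  refine le_trans ?_ (measure_mono hsub)
  rw [Measure.addHaar_smul]
  have hfr : Module.finrank ℝ ((layer d n) × Fin 2 → ℝ) = 2 * (layer d n).card := by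
    rw [Module.finrank_fintype_fun_eq_card, Fintype.card_prod, Fintype.card_coe, Fintype.card_fin]
    ring
  rw [hfr, abs_of_nonneg (by positivity)]
  have h2 : (1 : ℝ≥0∞) ≤ volume A := by
    refine le_trans ?_ hv
    rw [← ENNReal.ofReal_one]
    apply ENNReal.ofReal_le_ofReal
    have h3 : (2 : ℝ) ^ 2 ≤ 2 ^ (2 * (layer d n).card) :=
      pow_le_pow_right₀ (by norm_num) (by omega)
    linarith
  calc ENNReal.ofReal ((c⁻¹) ^ (2 * (layer d n).card))
      = ENNReal.ofReal ((c⁻¹) ^ (2 * (layer d n).card)) * 1 := (mul_one _).symm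
    _ ≤ ENNReal.ofReal ((c⁻¹) ^ (2 * (layer d n).card)) * volume A := by gcongr

end Sol_EX_LB_vol

alias LB_vol := Sol_EX_LB_vol.LB_vol

end HypVol
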