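import Pool.Agent.EntX.Defs
import Pool.Agent.HypVol.L_santalo
import Pool.Agent.EntX.L_LB_vol
import Pool.Agent.EntX.L_LB_facts
open MeasureTheory Real ProbabilityTheory
open scoped ENNReal BigOperators

namespace HypVol
namespace Sol_EX_pol_LB_vol

theorem pol_LB_vol (d : ℕ) (q : ℝ) (hq : 1 ≤ q) : ∃ C : ℝ, 0 < C ∧ ∀ n : ℕ, 1 ≤ (layer d n).card →
    volume (pol (LB d n (ENNReal.ofReal q))) ≤
      ENNReal.ofReal ((C * (Real.sqrt ((layer d n).card))⁻¹)^(2 * (layer d n).card)) := by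
  obtain ⟨C, hC, hvol⟩ := LB_vol d q hq
  refine ⟨π * Real.exp 1 * C, by positivity, fun n hn => ?_⟩
  obtain ⟨h1, h2, h3, h4⟩ := LB_facts d n q hq
  have hcard : Fintype.card ((layer d n) × Fin 2) = 2 * (layer d n).card := by
    rw [Fintype.card_prod, Fintype.card_coe, Fintype.card_fin, mul_comm]
  have hs := santalo (ι := (layer d n) × Fin 2) (by rw [hcard]; omega)
    (pol (LB d n (ENNReal.ofReal q))) (LB d n (ENNReal.ofReal q)) h3 h1 h4 h2 (by
      intro x hx y hy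
      have h := hx y hy
      have h5 : ∑ j, x j * y j = ∑ j, y j * x j := Finset.sum_congr rfl fun j _ => mul_comm _ _
      rw [h5]
      exact (le_abs_self _).trans h)
  have hv := hvol n hn
  rw [hcard] at hs
  set c := (layer d n).card with hc
  have hc0 : (0 : ℝ) < c := by exact_mod_cast hn
  have hsq : 0 < Real.sqrt c := Real.sqrt_pos.2 hc0
  have hvpos : 0 < ((C * Real.sqrt c)⁻¹) ^ (2 * c) := by positivity
  have h6 : volume (pol (LB d n (ENNReal.ofReal q))) * ENNReal.ofReal (((C * Real.sqrt c)⁻¹) ^ (2 * c)) ≤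
      ENNReal.ofReal ((2 * π * Real.exp 1 / ((2 * c : ℕ) : ℝ)) ^ (2 * c)) :=
    (mul_le_mul_right hv _).trans hs
  have h7 : volume (pol (LB d n (ENNReal.ofReal q))) ≤
      ENNReal.ofReal ((2 * π * Real.exp 1 / ((2 * c : ℕ) : ℝ)) ^ (2 * c)) /
        ENNReal.ofReal (((C * Real.sqrt c)⁻¹) ^ (2 * c)) := by
    rw [ENNReal.le_div_iff_mul_le (Or.inl (by simpa using hvpos)) (Or.inl ENNReal.ofReal_ne_top)]
    exact h6
  refine h7.trans ?_
  rw [← ENNReal.ofReal_div_of_pos hvpos]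
  apply ENNReal.ofReal_le_ofReal
  rw [← div_pow]
  apply le_of_eq
  congr 1
  have hss : Real.sqrt c * Real.sqrt c = c := Real.mul_self_sqrt hc0.le
  push_cast
  rw [div_inv_eq_mul]
  field_simp
  rw [sq, hss]

end Sol_EX_pol_LB_vol

alias pol_LB_vol := Sol_EX_pol_LB_vol.pol_LB_vol

end HypVol
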