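import Pool.Agent.EntX.Defs
import Pool.Agent.EntX.L_cover_L1
import Pool.Agent.HypVol.L_ent_num
open MeasureTheory Real ProbabilityTheory
open scoped ENNReal BigOperators

namespace HypVol
namespace Sol_EX_L1_lower

theorem L1_lower (d : ℕ) (hd : 3 ≤ d) (q r : ℝ) (hq : 1 < q) (hr : 1 < r) (α : Fin d → ℝ) :
    ∃ c : ℝ, 0 < c ∧ ∀ (k : ℕ) (ε : ℝ), 2 ≤ k → 0 < ε →
      Cov (ENNReal.ofReal q) k (ENNReal.ofReal ε) (MW ℂ d r 1 α) → c * Rk d r k ≤ ε := by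
  obtain ⟨c0, hc0, h0⟩ := cover_L1 d hd q r hq hr α
  obtain ⟨c, hc, h1⟩ := ent_num d hd r c0 hr hc0
  refine ⟨c, hc, ?_⟩
  intro k ε hk hε hcov
  obtain ⟨n, hn, h2⟩ := h1 k hk
  have h3 := h0 n k ε hn hε hcov
  unfold Rk
  rw [← mul_assoc]
  exact h2.trans h3

end Sol_EX_L1_lower

alias L1_lower := Sol_EX_L1_lower.L1_lower

end HypVol
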