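import Pool.Agent.EntX.Defs
import Pool.Agent.EntX.L_conv_L
open MeasureTheory Real ProbabilityTheory
open scoped ENNReal BigOperators

namespace HypVol
namespace Sol_EX_WF_exists

theorem WF_exists {d : ℕ} (r : ℝ) (hr : 0 < r) (α : Fin d → ℝ) (φ : (Fin d → ℝ) → ℂ)
    (hφ : Integrable φ (TP d)) :
    ∃ f : (Fin d → ℝ) → ℂ, MemLp f 1 (TP d) ∧ ∀ k : Fin d → ℤ, fc f k = Fh r α k * fc φ k := by
  have htoC : ∀ z : ℂ, toC z = z := by
    intro z
    unfold toC
    simp only [RCLike.re_eq_complex_re, RCLike.im_eq_complex_im]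
    exact Complex.re_add_im z
  obtain ⟨h1, h2⟩ := conv_L r hr α φ hφ
  refine ⟨_, h1, fun k => ?_⟩
  have h3 := h2 k
  simp only [htoC] at h3
  exact h3

end Sol_EX_WF_exists

alias WF_exists := Sol_EX_WF_exists.WF_exists

end HypVol
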