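import Pool.Agent.EntX.Defs
import Pool.Agent.HypVol.L_TP_prob
import Pool.Agent.EntX.L_WF_exists
import Pool.Agent.EntX.L_holder_FC
import Pool.Agent.EntX.L_bperp_lift
import Pool.Agent.EntX.L_LB_facts
import Pool.Agent.EntX.L_pol_LB_vol
import Pool.Agent.HypVol.L_perp_lower
import Pool.Agent.HypVol.L_Mact_vol
import Pool.Agent.HypVol.L_card_layer
import Pool.Agent.HypVol.L_shp_lower
import Pool.Agent.HypVol.L_shp_upper
open MeasureTheory Real ProbabilityTheory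
open scoped ENNReal BigOperators

namespace HypVol
namespace Sol_EX_cover_L1_F

theorem clF_fc_sub {d : ℕ} (f g : (Fin d → ℝ) → ℂ) (hf : Integrable f (TP d))
    (hg : Integrable g (TP d)) (k : Fin d → ℤ) :
    fc (fun x => f x - g x) k = fc f k - fc g k := by
  have hc : Continuous (fun x : Fin d → ℝ =>
      Complex.exp (-(Complex.I * ((∑ j, (k j : ℝ) * x j : ℝ) : ℂ)))) := by
    apply Complex.continuous_exp.comp
    apply Continuous.neg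
    apply Continuous.mul continuous_const
    apply Complex.continuous_ofReal.comp
    fun_prop
  have hn : ∀ x : Fin d → ℝ,
      ‖Complex.exp (-(Complex.I * ((∑ j, (k j : ℝ) * x j : ℝ) : ℂ)))‖ = 1 := by
    intro x
    rw [Complex.norm_exp]
    have : (-(Complex.I * ((∑ j, (k j : ℝ) * x j : ℝ) : ℂ))).re = 0 := by
      simp only [Complex.neg_re, Complex.mul_re, Complex.I_re, Complex.I_im, Complex.ofReal_re,
        Complex.ofReal_im]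
      ring
    rw [this, Real.exp_zero]
  have hi : ∀ h : (Fin d → ℝ) → ℂ, Integrable h (TP d) → Integrable (fun x => h x *
      Complex.exp (-(Complex.I * ((∑ j, (k j : ℝ) * x j : ℝ) : ℂ)))) (TP d) := by
    intro h hh
    refine hh.mono (hh.aestronglyMeasurable.mul hc.aestronglyMeasurable) (ae_of_all _ fun x => ?_)
    rw [norm_mul, hn, mul_one]
  unfold fc
  rw [← integral_sub (hi f hf) (hi g hg)]
  congr 1
  funext x
  ring

theorem clF_FC_sub {d n : ℕ} (f g : (Fin d → ℝ) → ℂ) (hf : Integrable f (TP d))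
    (hg : Integrable g (TP d)) :
    FC d n (fun x => f x - g x) = FC d n f + (-FC d n g) := by
  funext i
  rw [Pi.add_apply, Pi.neg_apply]
  unfold FC
  rw [clF_fc_sub f g hf hg]
  split_ifs
  · rw [Complex.sub_re]; ring
  · rw [Complex.sub_im]; ring

theorem clF_real (M n k d : ℕ) (hd : 3 ≤ d) (hn : 1 ≤ n) (hM : 1 ≤ M)
    (C c0 c1 ε r : ℝ) (hC : 0 < C) (hc0 : 0 < c0) (hc1 : 0 < c1) (hε : 0 < ε)
    (hML : c1 * (2 ^ n * (n : ℝ) ^ (d - 1)) ≤ (M : ℝ))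
    (h : (c0 * (Real.sqrt (2^n * (n:ℝ)^(d-2)))⁻¹) ^ (2 * M) ≤
      2 ^ k * ((2:ℝ)^(r * n) * (2 * ε * (C * (Real.sqrt M)⁻¹))) ^ (2 * M)) :
    c0 * Real.sqrt c1 / (2 * C) * (2:ℝ)^(-(k:ℝ) / (2 * M : ℕ)) * (2:ℝ)^(-(r * n)) *
      Real.sqrt n ≤ ε := by
  have hn0 : (0 : ℝ) < n := by exact_mod_cast hn
  have hM0' : (0 : ℝ) < M := by exact_mod_cast hM
  have hP0 : (0 : ℝ) < 2 ^ n * (n : ℝ) ^ (d - 2) := by positivity
  have hsn : 0 < Real.sqrt n := Real.sqrt_pos.2 hn0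
  have hsC : 0 < Real.sqrt c1 := Real.sqrt_pos.2 hc1
  have hsM : 0 < Real.sqrt M := Real.sqrt_pos.2 hM0'
  have hsP : 0 < Real.sqrt (2^n * (n:ℝ)^(d-2)) := Real.sqrt_pos.2 hP0
  have h1 : (Real.sqrt M)⁻¹ * Real.sqrt (2^n * (n:ℝ)^(d-2)) ≤
      (Real.sqrt c1 * Real.sqrt n)⁻¹ := by
    rw [← Real.sqrt_mul hc1.le, mul_comm, ← div_eq_mul_inv, div_le_iff₀ hsM, ← div_eq_inv_mul,
      le_div_iff₀ (Real.sqrt_pos.2 (by positivity)), ← Real.sqrt_mul hP0.le]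
    apply Real.sqrt_le_sqrt
    have e : (n : ℝ) ^ (d - 1) = (n : ℝ) ^ (d - 2) * n := by
      rw [← pow_succ]
      congr 1
      omega
    rw [e] at hML
    calc 2 ^ n * (n : ℝ) ^ (d - 2) * (c1 * n) = c1 * (2 ^ n * ((n : ℝ) ^ (d - 2) * n)) := by ring
      _ ≤ M := hML
  have hr0 : 0 < (2:ℝ)^(r * n) := Real.rpow_pos_of_pos two_pos _
  obtain ⟨Q, hQ⟩ : ∃ Q : ℝ, Q = (2:ℝ)^(r * n) * (2 * ε * C) / c0 * (Real.sqrt c1 * Real.sqrt n)⁻¹ :=
    ⟨_, rfl⟩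
  have hQ0 : 0 < Q := by
    rw [hQ]
    positivity
  have h2 : (2:ℝ)^(r * n) * (2 * ε * (C * (Real.sqrt M)⁻¹)) ≤
      Q * (c0 * (Real.sqrt (2^n * (n:ℝ)^(d-2)))⁻¹) := by
    have h3 : (Real.sqrt M)⁻¹ ≤ (Real.sqrt c1 * Real.sqrt n)⁻¹ *
        (Real.sqrt (2^n * (n:ℝ)^(d-2)))⁻¹ := by
      rw [← div_eq_mul_inv, le_div_iff₀ hsP]
      exact h1
    calc (2:ℝ)^(r * n) * (2 * ε * (C * (Real.sqrt M)⁻¹)) =
        (2:ℝ)^(r * n) * (2 * ε * C) * (Real.sqrt M)⁻¹ := by ring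
      _ ≤ (2:ℝ)^(r * n) * (2 * ε * C) * ((Real.sqrt c1 * Real.sqrt n)⁻¹ *
        (Real.sqrt (2^n * (n:ℝ)^(d-2)))⁻¹) := mul_le_mul_of_nonneg_left h3 (by positivity)
      _ = _ := by
        rw [hQ]
        field_simp
  have hB : 0 < c0 * (Real.sqrt (2^n * (n:ℝ)^(d-2)))⁻¹ := by positivity
  have h5 : 1 ≤ (2 : ℝ) ^ k * Q ^ (2 * M) := by
    have h3 : (c0 * (Real.sqrt (2^n * (n:ℝ)^(d-2)))⁻¹) ^ (2 * M) ≤
        2 ^ k * (Q * (c0 * (Real.sqrt (2^n * (n:ℝ)^(d-2)))⁻¹)) ^ (2 * M) := by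
      refine h.trans ?_
      apply mul_le_mul_of_nonneg_left _ (by positivity)
      exact pow_le_pow_left₀ (by positivity) h2 _
    have h3' : (Q * (c0 * (Real.sqrt (2^n * (n:ℝ)^(d-2)))⁻¹)) ^ (2 * M) =
        Q ^ (2 * M) * (c0 * (Real.sqrt (2^n * (n:ℝ)^(d-2)))⁻¹) ^ (2 * M) := mul_pow _ _ _
    rw [h3', ← mul_assoc] at h3
    have h4 : 0 < (c0 * (Real.sqrt (2^n * (n:ℝ)^(d-2)))⁻¹) ^ (2 * M) := pow_pos hB _
    have h6 : 1 * (c0 * (Real.sqrt (2^n * (n:ℝ)^(d-2)))⁻¹) ^ (2 * M) ≤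
        (2 ^ k * Q ^ (2 * M)) * (c0 * (Real.sqrt (2^n * (n:ℝ)^(d-2)))⁻¹) ^ (2 * M) := by
      rw [one_mul]; exact h3
    exact le_of_mul_le_mul_right h6 h4
  have h6 : (2:ℝ)^(-(k:ℝ) / (2 * M : ℕ)) ≤ Q := by
    have hM0 : ((2 * M : ℕ) : ℝ) ≠ 0 := by
      have : 2 * M ≠ 0 := by omega
      exact_mod_cast this
    have h7 : ((2:ℝ)^(-(k:ℝ) / (2 * M : ℕ))) ^ (2 * M) = ((2 : ℝ) ^ k)⁻¹ := by
      rw [← Real.rpow_natCast, ← Real.rpow_mul two_pos.le, div_mul_cancel₀ _ hM0,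
        Real.rpow_neg two_pos.le, Real.rpow_natCast]
    apply le_of_pow_le_pow_left₀ (n := 2 * M) (by omega) hQ0.le
    rw [h7, inv_le_iff_one_le_mul₀ (by positivity), mul_comm]
    exact h5
  have h8 : (2:ℝ)^(r * n) * (2:ℝ)^(-(r * n)) = 1 := by
    rw [← Real.rpow_add two_pos, add_neg_cancel, Real.rpow_zero]
  have hr1 : 0 < (2:ℝ)^(-(r * n)) := Real.rpow_pos_of_pos two_pos _
  calc c0 * Real.sqrt c1 / (2 * C) * (2:ℝ)^(-(k:ℝ) / (2 * M : ℕ)) * (2:ℝ)^(-(r * n)) *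
      Real.sqrt n ≤ c0 * Real.sqrt c1 / (2 * C) * Q * (2:ℝ)^(-(r * n)) * Real.sqrt n := by
        apply mul_le_mul_of_nonneg_right _ hsn.le
        apply mul_le_mul_of_nonneg_right _ hr1.le
        exact mul_le_mul_of_nonneg_left h6 (by positivity)
    _ = ε * ((2:ℝ)^(r * n) * (2:ℝ)^(-(r * n))) := by
        rw [hQ]
        field_simp
    _ = ε := by rw [h8, mul_one]

theorem clF_finrank (d n : ℕ) :
    Module.finrank ℝ ((layer d n) × Fin 2 → ℝ) = 2 * (layer d n).card := by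
  rw [Module.finrank_fintype_fun_eq_card, Fintype.card_prod,
    Fintype.card_coe, Fintype.card_fin, mul_comm (layer d n).card 2]

theorem clF_vol {d n : ℕ} (r : ℝ) (hr : 0 < r) (α : Fin d → ℝ) (ε : ℝ) (hε : 0 < ε)
    (P : Set ((layer d n) × Fin 2 → ℝ)) (b : (layer d n) × Fin 2 → ℝ) :
    volume {a : (layer d n) × Fin 2 → ℝ | ε⁻¹ • (Mact r α ((2:ℝ)⁻¹ • a) + (-b)) ∈ P} ≤
      ENNReal.ofReal (((2:ℝ)^(r * n) * (2 * ε)) ^ (2 * (layer d n).card)) * volume P := by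
  have e1 : {a : (layer d n) × Fin 2 → ℝ | ε⁻¹ • (Mact r α ((2:ℝ)⁻¹ • a) + (-b)) ∈ P} =
      (fun a : (layer d n) × Fin 2 → ℝ => (2:ℝ)⁻¹ • a) ⁻¹' ((Mact r α) ⁻¹'
        ((fun v => v + (-b)) ⁻¹' ((fun v : (layer d n) × Fin 2 → ℝ => ε⁻¹ • v) ⁻¹' P))) := rfl
  rw [e1, Measure.addHaar_preimage_smul _ (by norm_num : (2:ℝ)⁻¹ ≠ 0), clF_finrank]
  have h2 := Mact_vol r hr α
    ((fun v => v + (-b)) ⁻¹' ((fun v : (layer d n) × Fin 2 → ℝ => ε⁻¹ • v) ⁻¹' P))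
  rw [measure_preimage_add_right,
    Measure.addHaar_preimage_smul _ (inv_ne_zero hε.ne'), clF_finrank] at h2
  refine (mul_le_mul' le_rfl h2).trans (le_of_eq ?_)
  rw [← mul_assoc, ← mul_assoc, ← ENNReal.ofReal_mul (abs_nonneg _),
    ← ENNReal.ofReal_mul (by positivity)]
  congr 2
  rw [inv_pow, inv_inv, inv_pow, inv_inv, abs_of_pos (by positivity), abs_of_pos (by positivity),
    mul_pow, mul_pow]
  ring

theorem clF_FC_WF {d n : ℕ} (r : ℝ) (α : Fin d → ℝ) (f φ : (Fin d → ℝ) → ℂ)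
    (h : ∀ k : Fin d → ℤ, fc f k = Fh r α k * fc φ k) :
    FC d n f = Mact r α (FC d n φ) := by
  funext i
  have e : ((FC d n φ (i.1, 0) : ℂ) + (FC d n φ (i.1, 1) : ℂ) * Complex.I) = fc φ i.1.1 := by
    have h0 : FC d n φ (i.1, 0) = (fc φ i.1.1).re := by simp [FC]
    have h1 : FC d n φ (i.1, 1) = (fc φ i.1.1).im := by simp [FC]
    rw [h0, h1, Complex.re_add_im]
  unfold Mact
  rw [e, ← h]
  rfl

theorem clF_mem {d n : ℕ} (q q' r : ℝ) (hq : 1 < q) (hqq : q.HolderConjugate q') (hr : 0 < r)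
    (α : Fin d → ℝ) (k : ℕ) (ε : ℝ) (hε : 0 < ε)
    (c : Fin (2^k) → ((Fin d → ℝ) → ℂ)) (hc : ∀ j, MemLp (c j) (ENNReal.ofReal q) (TP d))
    (hcov : ∀ f ∈ WF d r 1 α, ∃ j, eLpNorm (fun x => f x - c j x) (ENNReal.ofReal q) (TP d) ≤
      ENNReal.ofReal ε) (a : (layer d n) × Fin 2 → ℝ) (ha : a ∈ bperp d n) :
    ∃ j, ε⁻¹ • (Mact r α ((2:ℝ)⁻¹ • a) + (-FC d n (c j))) ∈
      pol (LB d n (ENNReal.ofReal q')) := by
  have := TP_prob d
  obtain ⟨φ, hφ1, hφ2, hφ3⟩ := bperp_lift a ha 1 one_pos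
  have hφi : Integrable φ (TP d) := memLp_one_iff_integrable.1 hφ1
  have hq1 : 1 ≤ ENNReal.ofReal q := ENNReal.one_le_ofReal.2 hq.le
  obtain ⟨f, hf1, hf2⟩ := WF_exists r hr α φ hφi
  obtain ⟨j, hj⟩ := hcov f ⟨hf1, φ, hφ1, hφ2, hf2⟩
  refine ⟨j, ?_⟩
  have e1 : (2:ℝ)⁻¹ • a = FC d n φ := by
    rw [hφ3]
    norm_num
  rw [e1, ← clF_FC_WF r α f φ hf2, ← clF_FC_sub _ _ (memLp_one_iff_integrable.1 hf1)
    ((hc j).integrable hq1)]
  have hsub : MemLp (fun x => f x - c j x) (ENNReal.ofReal q) (TP d) :=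
    ⟨hf1.1.sub (hc j).1, lt_of_le_of_lt hj ENNReal.ofReal_lt_top⟩
  intro b hb
  have h1 := holder_FC (n := n) q q' hqq _ hsub b
  have h2 : (eLpNorm (fun x => f x - c j x)
      (ENNReal.ofReal q) (TP d)).toReal ≤ ε := ENNReal.toReal_le_of_le_ofReal hε.le hj
  have h3 : (eLpNorm (poly b) (ENNReal.ofReal q') (TP d)).toReal ≤ 1 :=
    ENNReal.toReal_le_of_le_ofReal zero_le_one (by rw [ENNReal.ofReal_one]; exact hb)
  have h4 : ∑ i, b i * (ε⁻¹ • FC d n (fun x => f x - c j x)) i =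
      ε⁻¹ * ∑ i, b i * FC d n (fun x => f x - c j x) i := by
    rw [Finset.mul_sum]
    refine Finset.sum_congr rfl (fun i _ => ?_)
    rw [Pi.smul_apply, smul_eq_mul]
    ring
  rw [h4, abs_mul, abs_of_pos (inv_pos.2 hε)]
  have h5 : (eLpNorm (fun x => f x - c j x)
      (ENNReal.ofReal q) (TP d)).toReal * (eLpNorm (poly b) (ENNReal.ofReal q') (TP d)).toReal ≤
      ε * 1 := mul_le_mul h2 h3 ENNReal.toReal_nonneg hε.le
  rw [inv_mul_le_iff₀ hε]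
  exact h1.trans h5

theorem cover_L1_F (d : ℕ) (hd : 3 ≤ d) (q r : ℝ) (hq : 1 < q) (hr : 1/2 < r) (α : Fin d → ℝ) :
    ∃ c : ℝ, 0 < c ∧ ∀ (n k : ℕ) (ε : ℝ), 1 ≤ n → 0 < ε →
      Cov (ENNReal.ofReal q) k (ENNReal.ofReal ε) (WF d r 1 α) →
      c * (2:ℝ)^(-(k:ℝ) / (2 * (layer d n).card : ℕ)) * (2:ℝ)^(-(r * n)) * Real.sqrt n ≤ ε := by
  have hqq : q.HolderConjugate q.conjExponent := Real.HolderConjugate.conjExponent hq
  have hq' : 1 ≤ q.conjExponent := hqq.symm.lt.le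
  obtain ⟨C, hC, hPV⟩ := pol_LB_vol d q.conjExponent hq'
  obtain ⟨c0, hc0, hBV⟩ := perp_lower d hd
  obtain ⟨c1, hc1, hL⟩ := shp_lower d (by omega)
  refine ⟨c0 * Real.sqrt c1 / (2 * C), by positivity, ?_⟩
  rintro n k ε hn hε ⟨cc, hccM, hcc⟩
  have hn0 : (0 : ℝ) < n := by exact_mod_cast hn
  have hshp : 0 < shp d n := by
    have h1 := hL n hn
    have h2 : 0 < c1 * (n:ℝ)^(d-1) := by positivity
    have h3 : (0 : ℝ) < shp d n := lt_of_lt_of_le h2 h1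
    exact_mod_cast h3
  have hM : 1 ≤ (layer d n).card := by
    rw [card_layer]
    exact Nat.mul_pos (pow_pos two_pos n) hshp
  have hML : c1 * (2 ^ n * (n : ℝ) ^ (d - 1)) ≤ ((layer d n).card : ℝ) := by
    rw [card_layer]
    push_cast
    have h1 := hL n hn
    calc c1 * (2 ^ n * (n : ℝ) ^ (d - 1)) = 2 ^ n * (c1 * (n : ℝ) ^ (d - 1)) := by ring
      _ ≤ 2 ^ n * (shp d n : ℝ) := mul_le_mul_of_nonneg_left h1 (by positivity)
  apply clF_real (layer d n).card n k d hd hn hM C c0 c1 ε r hC hc0 hc1 hε hML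
  have hcov : bperp d n ⊆ ⋃ j : Fin (2^k), {a : (layer d n) × Fin 2 → ℝ |
      ε⁻¹ • (Mact r α ((2:ℝ)⁻¹ • a) + (-FC d n (cc j))) ∈
        pol (LB d n (ENNReal.ofReal q.conjExponent))} := by
    intro a ha
    obtain ⟨j, hj⟩ := clF_mem q q.conjExponent r hq hqq (by linarith) α k ε hε cc hccM hcc a ha
    exact Set.mem_iUnion.2 ⟨j, hj⟩
  have h1 := ((hBV n hn).trans (measure_mono hcov)).trans (measure_iUnion_fintype_le _ _)
  have h2 : ∀ j : Fin (2^k), volume {a : (layer d n) × Fin 2 → ℝ |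
      ε⁻¹ • (Mact r α ((2:ℝ)⁻¹ • a) + (-FC d n (cc j))) ∈
        pol (LB d n (ENNReal.ofReal q.conjExponent))} ≤ ENNReal.ofReal (((2:ℝ)^(r * n) *
            (2 * ε * (C * (Real.sqrt ((layer d n).card))⁻¹))) ^ (2 * (layer d n).card)) := by
    intro j
    refine (clF_vol r (by linarith) α ε hε _ _).trans ?_
    refine (mul_le_mul' le_rfl (hPV n hM)).trans ?_
    rw [← ENNReal.ofReal_mul (by positivity), ← mul_pow]
    apply ENNReal.ofReal_le_ofReal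
    apply le_of_eq
    congr 1
    ring
  have h3 := h1.trans (Finset.sum_le_card_nsmul Finset.univ _ _ (fun j _ => h2 j))
  rw [Finset.card_univ, Fintype.card_fin, nsmul_eq_mul] at h3
  have h4 : ((2 ^ k : ℕ) : ℝ≥0∞) = ENNReal.ofReal ((2 : ℝ) ^ k) := by
    rw [← ENNReal.ofReal_natCast]
    congr 1
    push_cast
    ring
  rw [h4, ← ENNReal.ofReal_mul (by positivity), ENNReal.ofReal_le_ofReal_iff (by positivity)] at h3
  exact h3

end Sol_EX_cover_L1_F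

alias cover_L1_F := Sol_EX_cover_L1_F.cover_L1_F

end HypVol
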