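import Pool.Agent.EntX.Defs
import Pool.Agent.EntX.L_cover_L1_F
import Pool.Agent.EntX.L_ent_numH
open MeasureTheory Real ProbabilityTheory
open scoped ENNReal BigOperators

namespace HypVol
namespace Sol_EX_L1_lower_F

theorem L1_lower_F (d : ℕ) (hd : 3 ≤ d) (q r : ℝ) (hq : 1 < q) (hr : 1/2 < r) (α : Fin d → ℝ) :
    ∃ c : ℝ, 0 < c ∧ ∀ (k : ℕ) (ε : ℝ), 2 ≤ k → 0 < ε →
      Cov (ENNReal.ofReal q) k (ENNReal.ofReal ε) (WF d r 1 α) → c * Rk d r k ≤ ε := by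
  obtain ⟨c0, hc0, h0⟩ := cover_L1_F d hd q r hq hr α
  obtain ⟨c, hc, h1⟩ := ent_numH d hd r c0 hr hc0
  refine ⟨c, hc, fun k ε hk hε hcov => ?_⟩
  obtain ⟨n, hn, hle⟩ := h1 k hk
  exact hle.trans (h0 n k ε hn hε hcov)

end Sol_EX_L1_lower_F

alias L1_lower_F := Sol_EX_L1_lower_F.L1_lower_F

end HypVol
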