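import Pool.Agent.EntX.Defs
import Pool.Agent.EntX.L_conv_facts
import Pool.Agent.HypVol.L_TP_prob
open MeasureTheory Real ProbabilityTheory
open scoped ENNReal BigOperators

namespace HypVol
namespace Sol_EX_ess_everywhere

theorem espx_F1 (r α x : ℝ) (m : ℤ) : F1 r α (x - (m : ℝ) * (2 * π)) = F1 r α x := by
  unfold F1
  congr 2
  apply tsum_congr
  intro k
  congr 1
  have e : ((k:ℝ)+1) * (x - (m : ℝ) * (2 * π)) - α * π / 2 =
      (((k:ℝ)+1) * x - α * π / 2) - ((((k : ℤ) + 1) * m : ℤ) : ℝ) * (2 * π) := by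
    push_cast; ring
  rw [e]
  exact Real.cos_sub_int_mul_two_pi _ _

theorem espx_Fr {d : ℕ} (r : ℝ) (α x y : Fin d → ℝ) (m : Fin d → ℤ) :
    Fr r α ((fun j => x j - (m j : ℝ) * (2 * π)) - y) = Fr r α (x - y) := by
  unfold Fr
  apply Finset.prod_congr rfl
  intro j _
  have e : ((fun j => x j - (m j : ℝ) * (2 * π)) - y : Fin d → ℝ) j =
      (x - y) j - (m j : ℝ) * (2 * π) := by
    simp only [Pi.sub_apply]; ring
  rw [e, espx_F1]

theorem espx_pos {d : ℕ} (U : Set (Fin d → ℝ)) (hU : IsOpen U) (x : Fin d → ℝ) (hx : x ∈ U)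
    (hx0 : ∀ j, x j ∈ Set.Ico 0 (2 * π)) : 0 < TP d U := by
  obtain ⟨ε, hε, hb⟩ := Metric.isOpen_iff.1 hU x hx
  have hsub : Set.pi Set.univ (fun j => Set.Ico (x j) (min (x j + ε / 2) (2 * π))) ⊆ U := by
    intro y hy
    apply hb
    rw [Metric.mem_ball]
    refine lt_of_le_of_lt ((dist_pi_le_iff (by positivity : (0:ℝ) ≤ ε / 2)).2 (fun j => ?_))
      (by linarith)
    have h1 := hy j (Set.mem_univ j)
    rw [Real.dist_eq, abs_le]
    have h2 := h1.1
    have h3 := h1.2.trans_le (min_le_left _ _)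
    constructor <;> linarith
  refine lt_of_lt_of_le ?_ (measure_mono hsub)
  unfold TP
  have : IsFiniteMeasure (ENNReal.ofReal (2 * π)⁻¹ • (volume : Measure ℝ).restrict
      (Set.Ico 0 (2 * π))) := Measure.smul_finite _ ENNReal.ofReal_ne_top
  rw [Measure.pi_pi]
  rw [pos_iff_ne_zero, Finset.prod_ne_zero_iff]
  intro j _
  have hxj := hx0 j
  have hin : Set.Ico (x j) (min (x j + ε / 2) (2 * π)) ∩ Set.Ico 0 (2 * π) =
      Set.Ico (x j) (min (x j + ε / 2) (2 * π)) :=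
    Set.inter_eq_left.2 (fun t ht => ⟨hxj.1.trans ht.1, ht.2.trans_le (min_le_right _ _)⟩)
  rw [Measure.smul_apply, smul_eq_mul, Measure.restrict_apply measurableSet_Ico, hin,
    Real.volume_Ico]
  apply mul_ne_zero
  · rw [ENNReal.ofReal_ne_zero_iff]
    positivity
  · rw [ENNReal.ofReal_ne_zero_iff, sub_pos, lt_min_iff]
    exact ⟨by linarith, hxj.2⟩

theorem ess_everywhere {d : ℕ} (r : ℝ) (hr : 1 < r) (α : Fin d → ℝ) (ψ : (Fin d → ℝ) → ℂ)
    (hψ : Integrable ψ (TP d)) (ε : ℝ) (hε : 0 ≤ ε)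
    (h : eLpNorm (fun x => ∫ y, Fr r α (x - y) • ψ y ∂(TP d)) ⊤ (TP d) ≤ ENNReal.ofReal ε) (x : Fin d → ℝ) :
    ‖∫ y, Fr r α (x - y) • ψ y ∂(TP d)‖ ≤ ε := by
  obtain ⟨_, B, _, _, hB⟩ := conv_facts (𝕜 := ℂ) r hr α
  have hcont := (hB ψ hψ).1
  set f : (Fin d → ℝ) → ℂ := fun x => ∫ y, Fr r α (x - y) • ψ y ∂(TP d) with hf
  have hper : ∀ (x : Fin d → ℝ) (m : Fin d → ℤ), f (fun j => x j - (m j : ℝ) * (2 * π)) = f x := by
    intro x m
    simp only [hf, espx_Fr]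
  have hae : ∀ᵐ x ∂(TP d), ‖f x‖ ≤ ε := by
    rw [eLpNorm_exponent_top] at h
    filter_upwards [enorm_ae_le_eLpNormEssSup f (TP d)] with y hy
    have h2 := hy.trans h
    rw [← ofReal_norm] at h2
    exact (ENNReal.ofReal_le_ofReal_iff hε).1 h2
  show ‖f x‖ ≤ ε
  by_contra hcon
  push Not at hcon
  have hU : IsOpen {y : Fin d → ℝ | ε < ‖f y‖} :=
    isOpen_lt continuous_const hcont.norm
  have hpos := espx_pos _ hU (fun j => x j - (toIcoDiv Real.two_pi_pos 0 (x j) : ℝ) * (2 * π))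
    (by
      show ε < ‖f _‖
      rw [hper]
      exact hcon)
    (fun j => by
      have h1 := toIcoMod_mem_Ico Real.two_pi_pos 0 (x j)
      rw [zero_add] at h1
      have h2 : x j - (toIcoDiv Real.two_pi_pos 0 (x j) : ℝ) * (2 * π) =
          toIcoMod Real.two_pi_pos 0 (x j) := by
        rw [toIcoMod, zsmul_eq_mul]
      show x j - (toIcoDiv Real.two_pi_pos 0 (x j) : ℝ) * (2 * π) ∈ _
      rw [h2]
      exact h1)
  have hz : TP d {y : Fin d → ℝ | ε < ‖f y‖} = 0 := by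
    rw [ae_iff] at hae
    simpa only [not_le] using hae
  exact absurd hz hpos.ne'

end Sol_EX_ess_everywhere

alias ess_everywhere := Sol_EX_ess_everywhere.ess_everywhere

end HypVol
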