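import Pool.Agent.EntX.Defs
import Pool.Agent.EntX.L_conv_facts
import Pool.Agent.EntX.L_ess_everywhere
import Pool.Agent.HypVol.L_TP_prob
open MeasureTheory Real ProbabilityTheory
open scoped ENNReal BigOperators

namespace HypVol
namespace Sol_EX_cov_centres

theorem cov_centres {d : ℕ} (r : ℝ) (hr : 1 < r) (α : Fin d → ℝ) (k : ℕ) (ε : ℝ) (hε : 0 < ε)
    (h : Cov ⊤ k (ENNReal.ofReal ε) (MW ℂ d r 1 α)) :
    ∃ φc : Fin (2^k) → ((Fin d → ℝ) → ℂ), (∀ j, Integrable (φc j) (TP d) ∧ ∫ x, ‖φc j x‖ ∂(TP d) ≤ 1) ∧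
      ∀ φ : (Fin d → ℝ) → ℂ, Integrable φ (TP d) → ∫ x, ‖φ x‖ ∂(TP d) ≤ 1 → ∃ j, ∀ x,
        ‖(∫ y, Fr r α (x - y) • φ y ∂(TP d)) - ∫ y, Fr r α (x - y) • φc j y ∂(TP d)‖ ≤ 2 * ε := by
  classical
  have := TP_prob d
  obtain ⟨c, hc, hcov⟩ := h
  obtain ⟨hFc, B, hB, hFB, hconv⟩ := conv_facts (𝕜 := ℂ) r hr α
  set F : ((Fin d → ℝ) → ℂ) → (Fin d → ℝ) → ℂ := fun φ x => ∫ y, Fr r α (x - y) • φ y ∂(TP d) with hF
  set P : Fin (2^k) → ((Fin d → ℝ) → ℂ) → Prop := fun j φ => Integrable φ (TP d) ∧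
    ∫ x, ‖φ x‖ ∂(TP d) ≤ 1 ∧ eLpNorm (fun x => F φ x - c j x) ⊤ (TP d) ≤ ENNReal.ofReal ε with hP
  have hint : ∀ (φ : (Fin d → ℝ) → ℂ), Integrable φ (TP d) → ∀ x,
      Integrable (fun y => Fr r α (x - y) • φ y) (TP d) := by
    intro φ hφ x
    have hcx : Continuous (fun y => Fr r α (x - y)) := hFc.comp (continuous_const.sub continuous_id)
    refine Integrable.mono' (hφ.norm.const_mul B) (hcx.aestronglyMeasurable.smul hφ.1) ?_
    refine Filter.Eventually.of_forall (fun y => ?_)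
    rw [norm_smul, Real.norm_eq_abs]
    exact mul_le_mul_of_nonneg_right (hFB _) (norm_nonneg _)
  refine ⟨fun j => if hj : ∃ φ, P j φ then hj.choose else 0, ?_, ?_⟩
  · intro j
    by_cases hj : ∃ φ, P j φ
    · simp only [dif_pos hj]
      exact ⟨hj.choose_spec.1, hj.choose_spec.2.1⟩
    · simp only [dif_neg hj]
      refine ⟨integrable_zero _ _ _, ?_⟩
      simp
  · intro φ hφ hφ1
    have hmem : F φ ∈ MW ℂ d r 1 α := by
      refine ⟨φ, memLp_one_iff_integrable.mpr hφ, ?_, rfl⟩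
      rw [eLpNorm_one_eq_lintegral_enorm, ← ofReal_integral_norm_eq_lintegral_enorm hφ]
      calc ENNReal.ofReal (∫ x, ‖φ x‖ ∂(TP d)) ≤ ENNReal.ofReal 1 := ENNReal.ofReal_le_ofReal hφ1
        _ = 1 := ENNReal.ofReal_one
    obtain ⟨j, hj⟩ := hcov (F φ) hmem
    have hPj : ∃ φ, P j φ := ⟨φ, hφ, hφ1, hj⟩
    refine ⟨j, fun x => ?_⟩
    simp only [dif_pos hPj]
    obtain ⟨h1, h2, h3⟩ := hPj.choose_spec
    set ψ := hPj.choose
    have hsub : ∀ x, F (fun y => φ y - ψ y) x = F φ x - F ψ x := by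
      intro x
      simp only [hF, smul_sub]
      exact integral_sub (hint φ hφ x) (hint ψ h1 x)
    have hm1 : AEStronglyMeasurable (fun x => F φ x - c j x) (TP d) :=
      ((hconv φ hφ).1.aestronglyMeasurable).sub (hc j).1
    have hm2 : AEStronglyMeasurable (fun x => F ψ x - c j x) (TP d) :=
      ((hconv ψ h1).1.aestronglyMeasurable).sub (hc j).1
    have hb : eLpNorm (F (fun y => φ y - ψ y)) ⊤ (TP d) ≤ ENNReal.ofReal (2 * ε) := by
      have e : F (fun y => φ y - ψ y) = (fun x => F φ x - c j x) - (fun x => F ψ x - c j x) := by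
        funext x
        rw [hsub x]
        simp
      rw [e]
      refine (eLpNorm_sub_le hm1 hm2 le_top).trans ?_
      rw [two_mul, ENNReal.ofReal_add hε.le hε.le]
      exact add_le_add hj h3
    have hfin := ess_everywhere r hr α (fun y => φ y - ψ y) (hφ.sub h1) (2 * ε) (by positivity) hb x
    have := hsub x
    simp only [hF] at this
    rw [← this]
    exact hfin

end Sol_EX_cov_centres

alias cov_centres := Sol_EX_cov_centres.cov_centres

end HypVol
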