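import Pool.Agent.EntX.Defs
import Pool.Agent.EntX.L_conv_facts
import Pool.Agent.HypVol.L_mem_layer
import Pool.Agent.HypVol.L_TP_prob
open MeasureTheory Real ProbabilityTheory
open scoped ENNReal BigOperators

namespace HypVol
namespace Sol_EX_conv_series

noncomputable def cs_Fh1 (r a : ℝ) (m : ℤ) : ℂ :=
  if m = 0 then 1 else (((|(m : ℝ)|)^(-r) : ℝ) : ℂ) *
    Complex.exp (-(Complex.I * (((SignType.sign m : ℤ) : ℝ) * a * π / 2 : ℝ)))

theorem cs_norm_exp (t : ℝ) : ‖Complex.exp (-(Complex.I * (t : ℝ)))‖ = 1 := by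
  have h : -(Complex.I * (t : ℂ)) = ((-t : ℝ) : ℂ) * Complex.I := by push_cast; ring
  rw [h, Complex.norm_exp_ofReal_mul_I]

theorem cs_norm_exp' (t : ℝ) : ‖Complex.exp (Complex.I * (t : ℝ))‖ = 1 := by
  rw [mul_comm, Complex.norm_exp_ofReal_mul_I]

theorem cs_norm_Fh1 (r a : ℝ) (m : ℤ) :
    ‖cs_Fh1 r a m‖ = if m = 0 then 1 else (|(m : ℝ)|)^(-r) := by
  unfold cs_Fh1
  split_ifs with h
  · simp
  · rw [norm_mul, cs_norm_exp, mul_one, Complex.norm_real, Real.norm_eq_abs,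
      abs_of_nonneg (Real.rpow_nonneg (abs_nonneg _) _)]

theorem cs_summable_Fh1 (r a : ℝ) (hr : 1 < r) : Summable fun m : ℤ => ‖cs_Fh1 r a m‖ := by
  have h0 : Summable fun n : ℕ => (((n : ℝ) + 1)) ^ (-r) := by
    have := (summable_nat_add_iff 1).2 (Real.summable_nat_rpow.2 (by linarith : -r < -1))
    simpa using this
  apply Summable.of_nat_of_neg
  · rw [← summable_nat_add_iff 1]
    refine h0.congr fun n => ?_
    rw [cs_norm_Fh1, if_neg (by positivity)]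
    have : |(((n + 1 : ℕ) : ℤ) : ℝ)| = (n : ℝ) + 1 := by
      push_cast
      exact abs_of_nonneg (by positivity)
    rw [this]
  · rw [← summable_nat_add_iff 1]
    refine h0.congr fun n => ?_
    rw [cs_norm_Fh1, if_neg (by
      rw [neg_eq_zero]
      positivity)]
    have : |((-((n + 1 : ℕ) : ℤ) : ℤ) : ℝ)| = (n : ℝ) + 1 := by
      push_cast
      rw [abs_neg]
      exact abs_of_nonneg (by positivity)
    rw [this]

noncomputable def cs_f (r a t : ℝ) (m : ℤ) : ℂ :=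
  cs_Fh1 r a m * Complex.exp (Complex.I * ((m * t : ℝ) : ℂ))

theorem cs_norm_f (r a t : ℝ) (m : ℤ) : ‖cs_f r a t m‖ = ‖cs_Fh1 r a m‖ := by
  unfold cs_f
  rw [norm_mul, cs_norm_exp', mul_one]

theorem cs_summable_f (r a t : ℝ) (hr : 1 < r) : Summable fun m : ℤ => ‖cs_f r a t m‖ := by
  simpa only [cs_norm_f] using cs_summable_Fh1 r a hr

theorem cs_pair (r a t : ℝ) (n : ℕ) :
    cs_f r a t ((n + 1 : ℕ) : ℤ) + cs_f r a t (-((n : ℤ) + 1)) =
      2 * ((((n:ℝ)+1)^(-r) * Real.cos (((n:ℝ)+1) * t - a * π / 2) : ℝ) : ℂ) := by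
  unfold cs_f cs_Fh1
  have h1 : ((n + 1 : ℕ) : ℤ) ≠ 0 := by positivity
  have h2 : (-((n : ℤ) + 1)) ≠ 0 := by
    rw [neg_ne_zero]; positivity
  rw [if_neg h1, if_neg h2]
  have a1 : |(((n + 1 : ℕ) : ℤ) : ℝ)| = (n : ℝ) + 1 := by
    push_cast
    exact abs_of_nonneg (by positivity)
  have a2 : |((-((n : ℤ) + 1) : ℤ) : ℝ)| = (n : ℝ) + 1 := by
    push_cast
    rw [abs_neg]
    exact abs_of_nonneg (by positivity)
  have s1 : SignType.sign ((n + 1 : ℕ) : ℤ) = 1 := sign_pos (by positivity)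
  have s2 : SignType.sign (-((n : ℤ) + 1)) = -1 := sign_neg (by
    rw [neg_lt_zero]; positivity)
  rw [a1, a2, s1, s2]
  have e1 : Complex.exp (-(Complex.I * ((((1 : SignType) : ℤ) : ℝ) * a * π / 2 : ℝ))) *
      Complex.exp (Complex.I * (((((n + 1 : ℕ) : ℤ) : ℝ) * t : ℝ) : ℂ)) =
      Complex.exp ((((((n:ℝ)+1) * t - a * π / 2) : ℝ) : ℂ) * Complex.I) := by
    rw [← Complex.exp_add]
    congr 1
    push_cast
    simp
    ring
  have e2 : Complex.exp (-(Complex.I * ((((-1 : SignType) : ℤ) : ℝ) * a * π / 2 : ℝ))) *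
      Complex.exp (Complex.I * (((((-((n : ℤ) + 1)) : ℤ) : ℝ) * t : ℝ) : ℂ)) =
      Complex.exp (-(((((n:ℝ)+1) * t - a * π / 2) : ℝ) : ℂ) * Complex.I) := by
    rw [← Complex.exp_add]
    congr 1
    push_cast
    simp
    ring
  have e3 : ((Real.cos (((n:ℝ)+1) * t - a * π / 2) : ℝ) : ℂ) =
      (Complex.exp ((((((n:ℝ)+1) * t - a * π / 2) : ℝ) : ℂ) * Complex.I) +
        Complex.exp (-(((((n:ℝ)+1) * t - a * π / 2) : ℝ) : ℂ) * Complex.I)) / 2 := by
    rw [Complex.ofReal_cos, Complex.cos]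
  have e4 : ((((n:ℝ)+1)^(-r) * Real.cos (((n:ℝ)+1) * t - a * π / 2) : ℝ) : ℂ) =
      ((((n:ℝ)+1)^(-r) : ℝ) : ℂ) * ((Real.cos (((n:ℝ)+1) * t - a * π / 2) : ℝ) : ℂ) :=
    Complex.ofReal_mul _ _
  rw [e4]
  linear_combination ((((n:ℝ)+1)^(-r) : ℝ) : ℂ) * e1 + ((((n:ℝ)+1)^(-r) : ℝ) : ℂ) * e2 -
    2 * ((((n:ℝ)+1)^(-r) : ℝ) : ℂ) * e3

theorem cs_summable_c (r a t : ℝ) (hr : 1 < r) :
    Summable fun n : ℕ => ((n:ℝ)+1)^(-r) * Real.cos (((n:ℝ)+1) * t - a * π / 2) := by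
  have h0 : Summable fun n : ℕ => (((n : ℝ) + 1)) ^ (-r) := by
    have := (summable_nat_add_iff 1).2 (Real.summable_nat_rpow.2 (by linarith : -r < -1))
    simpa using this
  refine Summable.of_norm_bounded h0 fun n => ?_
  rw [norm_mul, Real.norm_eq_abs, Real.norm_eq_abs,
    abs_of_nonneg (Real.rpow_nonneg (by positivity) _)]
  exact mul_le_of_le_one_right (Real.rpow_nonneg (by positivity) _) (Real.abs_cos_le_one _)

theorem cs_hasSum_one (r a t : ℝ) (hr : 1 < r) :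
    HasSum (cs_f r a t) ((F1 r a t : ℝ) : ℂ) := by
  have hs : Summable (cs_f r a t) := (cs_summable_f r a t hr).of_norm
  have hi1 : Summable (fun n : ℕ => cs_f r a t (n : ℤ)) :=
    hs.comp_injective (i := fun n : ℕ => (n : ℤ)) (fun _ _ h => by simpa using h)
  have hi2 : Summable (fun n : ℕ => cs_f r a t (-((n : ℤ) + 1))) :=
    hs.comp_injective (i := fun n : ℕ => (-((n : ℤ) + 1))) (fun _ _ h => by simpa using h)
  have h1 := tsum_of_nat_of_neg_add_one hi1 hi2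
  have hi3 : Summable (fun n : ℕ => cs_f r a t ((n + 1 : ℕ) : ℤ)) :=
    (summable_nat_add_iff (f := fun n : ℕ => cs_f r a t (n : ℤ)) 1).2 hi1
  rw [hi1.tsum_eq_zero_add, add_assoc, ← hi3.tsum_add hi2] at h1
  have h2 : (∑' n : ℕ, (cs_f r a t ((n + 1 : ℕ) : ℤ) + cs_f r a t (-((n : ℤ) + 1)))) =
      2 * ((∑' n : ℕ, ((n:ℝ)+1)^(-r) * Real.cos (((n:ℝ)+1) * t - a * π / 2) : ℝ) : ℂ) := by
    rw [Complex.ofReal_tsum, ← tsum_mul_left]
    exact tsum_congr fun n => cs_pair r a t n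
  rw [h2] at h1
  have h3 : cs_f r a t ((0 : ℕ) : ℤ) = 1 := by
    unfold cs_f cs_Fh1
    simp
  rw [h3] at h1
  have h4 : ((F1 r a t : ℝ) : ℂ) = ∑' m, cs_f r a t m := by
    rw [h1]
    unfold F1
    push_cast
    rfl
  rw [h4]
  exact hs.hasSum

theorem cs_congr {ι : Type} {f g : ι → ℂ} {a : ℂ} (h : HasSum g a) (e : ∀ i, f i = g i) :
    HasSum f a := by
  rw [show f = g from funext e]
  exact h

def cs_cons (d : ℕ) : ℤ × (Fin d → ℤ) ≃ (Fin (d + 1) → ℤ) where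
  toFun p := Fin.cons (α := fun _ => ℤ) p.1 p.2
  invFun f := (f 0, fun j => f j.succ)
  left_inv p := by
    ext
    · rfl
    · rfl
  right_inv f := by
    funext j
    refine Fin.cases ?_ (fun i => ?_) j
    · rfl
    · rfl

theorem cs_cons_zero (d : ℕ) (p : ℤ × (Fin d → ℤ)) : cs_cons d p 0 = p.1 := rfl

theorem cs_cons_succ (d : ℕ) (p : ℤ × (Fin d → ℤ)) (j : Fin d) :
    cs_cons d p j.succ = p.2 j := rfl

theorem cs_prod (d : ℕ) : ∀ (f : Fin d → ℤ → ℂ) (s : Fin d → ℂ), (∀ j, HasSum (f j) (s j)) →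
    (∀ j, Summable fun m => ‖f j m‖) →
    Summable (fun k : Fin d → ℤ => ‖∏ j, f j (k j)‖) ∧
      HasSum (fun k : Fin d → ℤ => ∏ j, f j (k j)) (∏ j, s j) := by
  induction d with
  | zero =>
    intro f s _ _
    constructor
    · exact (hasSum_fintype _).summable
    · have := hasSum_fintype (fun k : Fin 0 → ℤ => ∏ j, f j (k j))
      simpa using this
  | succ d ih =>
    intro f s hs hn
    obtain ⟨i1, i2⟩ := ih (fun j => f j.succ) (fun j => s j.succ) (fun j => hs j.succ)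
      (fun j => hn j.succ)
    have he : ∀ p : ℤ × (Fin d → ℤ), ∏ j, f j (cs_cons d p j) =
        f 0 p.1 * ∏ j : Fin d, f j.succ (p.2 j) := by
      intro p
      rw [Fin.prod_univ_succ, cs_cons_zero]
      congr 1
    have h1 : Summable fun p : ℤ × (Fin d → ℤ) => ‖f 0 p.1 * ∏ j : Fin d, f j.succ (p.2 j)‖ :=
      Summable.mul_norm (f := fun m => f 0 m)
        (g := fun k : Fin d → ℤ => ∏ j : Fin d, f j.succ (k j)) (hn 0) i1
    have h2 : HasSum (fun p : ℤ × (Fin d → ℤ) => f 0 p.1 * ∏ j : Fin d, f j.succ (p.2 j))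
        (s 0 * ∏ j : Fin d, s j.succ) :=
      HasSum.mul (f := fun m => f 0 m)
        (g := fun k : Fin d → ℤ => ∏ j : Fin d, f j.succ (k j)) (hs 0) i2 h1.of_norm
    constructor
    · rw [← (cs_cons d).summable_iff]
      refine h1.congr fun p => ?_
      rw [Function.comp_apply, he p]
    · rw [← (cs_cons d).hasSum_iff, Fin.prod_univ_succ]
      refine cs_congr h2 fun p => ?_
      rw [Function.comp_apply, he p]

def cs_n {d : ℕ} (k : Fin d → ℤ) : ℕ := ∑ j, Nat.size (k j).natAbs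

noncomputable def cs_e (d : ℕ) : (Σ n : ℕ, {k : Fin d → ℤ // k ∈ layer d n}) ≃ (Fin d → ℤ) where
  toFun p := p.2.1
  invFun k := ⟨cs_n k, ⟨k, (mem_layer_iff d _ k).2 rfl⟩⟩
  left_inv := by
    rintro ⟨n, k, hk⟩
    have h : cs_n k = n := (mem_layer_iff d n k).1 hk
    subst h
    rfl
  right_inv _ := rfl

theorem cs_Fh_eq {d : ℕ} (r : ℝ) (α : Fin d → ℝ) (k : Fin d → ℤ) :
    Fh r α k = ∏ j, cs_Fh1 r (α j) (k j) := rfl

theorem cs_exp_prod {d : ℕ} (k : Fin d → ℤ) (x : Fin d → ℝ) :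
    Complex.exp (Complex.I * ((∑ j, (k j : ℝ) * x j : ℝ) : ℂ)) =
      ∏ j, Complex.exp (Complex.I * (((k j : ℝ) * x j : ℝ) : ℂ)) := by
  rw [← Complex.exp_sum]
  congr 1
  push_cast
  rw [Finset.mul_sum]

theorem cs_kernel {d : ℕ} (r : ℝ) (hr : 1 < r) (α x : Fin d → ℝ) :
    HasSum (fun k : Fin d → ℤ => Fh r α k *
      Complex.exp (Complex.I * ((∑ j, (k j : ℝ) * x j : ℝ) : ℂ))) ((Fr r α x : ℝ) : ℂ) := by
  have h := (cs_prod d (fun j => cs_f r (α j) (x j)) (fun j => ((F1 r (α j) (x j) : ℝ) : ℂ))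
    (fun j => cs_hasSum_one r (α j) (x j) hr) (fun j => cs_summable_f r (α j) (x j) hr)).2
  have e1 : ((Fr r α x : ℝ) : ℂ) = ∏ j, ((F1 r (α j) (x j) : ℝ) : ℂ) := by
    unfold Fr
    push_cast
    rfl
  rw [e1]
  refine cs_congr h fun k => ?_
  rw [cs_Fh_eq, cs_exp_prod, ← Finset.prod_mul_distrib]
  rfl

theorem cs_Fh_summable {d : ℕ} (r : ℝ) (hr : 1 < r) (α : Fin d → ℝ) :
    Summable fun k : Fin d → ℤ => ‖Fh r α k‖ :=
  (cs_prod d (fun j => cs_Fh1 r (α j)) (fun j => ∑' m, cs_Fh1 r (α j) m)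
    (fun j => (cs_summable_Fh1 r (α j) hr).of_norm.hasSum)
    (fun j => cs_summable_Fh1 r (α j) hr)).1

theorem cs_total {d : ℕ} (r : ℝ) (hr : 1 < r) (α : Fin d → ℝ) (φ : (Fin d → ℝ) → ℂ)
    (hφ : Integrable φ (TP d)) (x : Fin d → ℝ) :
    HasSum (fun k : Fin d → ℤ => Fh r α k * fc φ k *
      Complex.exp (Complex.I * ((∑ j, (k j : ℝ) * x j : ℝ) : ℂ)))
      (∫ y, Fr r α (x - y) • φ y ∂(TP d)) := by
  let G : (Fin d → ℤ) → (Fin d → ℝ) → ℂ := fun k y => (Fh r α k *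
      Complex.exp (Complex.I * ((∑ j, (k j : ℝ) * (x - y) j : ℝ) : ℂ))) * φ y
  have hGn : ∀ k y, ‖G k y‖ = ‖Fh r α k‖ * ‖φ y‖ := by
    intro k y
    simp only [G]
    rw [norm_mul, norm_mul, cs_norm_exp', mul_one]
  have hGm : ∀ k, Integrable (G k) (TP d) := by
    intro k
    have hc : Continuous (fun y : Fin d → ℝ => Fh r α k *
      Complex.exp (Complex.I * ((∑ j, (k j : ℝ) * (x - y) j : ℝ) : ℂ))) := by
      simp only [Pi.sub_apply]
      fun_prop
    refine Integrable.bdd_mul (c := ‖Fh r α k‖) hφ hc.aestronglyMeasurable ?_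
    refine Filter.Eventually.of_forall fun y => ?_
    rw [norm_mul, cs_norm_exp', mul_one]
  have hsum : Summable fun k => ∫ y, ‖G k y‖ ∂(TP d) := by
    have : ∀ k, ∫ y, ‖G k y‖ ∂(TP d) = ‖Fh r α k‖ * ∫ y, ‖φ y‖ ∂(TP d) := by
      intro k
      simp only [hGn]
      rw [integral_const_mul]
    simp only [this]
    exact (cs_Fh_summable r hr α).mul_right _
  have h := hasSum_integral_of_summable_integral_norm hGm hsum
  have e1 : ∫ y, ∑' k, G k y ∂(TP d) = ∫ y, Fr r α (x - y) • φ y ∂(TP d) := by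
    refine integral_congr_ae (Filter.Eventually.of_forall fun y => ?_)
    have h1 := (cs_kernel r hr α (x - y)).mul_right (φ y)
    have h2 := h1.tsum_eq
    simp only [G]
    rw [h2, Complex.real_smul]
  rw [e1] at h
  refine cs_congr h fun k => ?_
  simp only [G]
  have e2 : ∀ y : Fin d → ℝ, Fh r α k *
      Complex.exp (Complex.I * ((∑ j, (k j : ℝ) * (x - y) j : ℝ) : ℂ)) * φ y =
      (Fh r α k * Complex.exp (Complex.I * ((∑ j, (k j : ℝ) * x j : ℝ) : ℂ))) *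
      (φ y * Complex.exp (-(Complex.I * ((∑ j, (k j : ℝ) * y j : ℝ) : ℂ)))) := by
    intro y
    have e3 : Complex.exp (Complex.I * ((∑ j, (k j : ℝ) * (x - y) j : ℝ) : ℂ)) =
        Complex.exp (Complex.I * ((∑ j, (k j : ℝ) * x j : ℝ) : ℂ)) *
        Complex.exp (-(Complex.I * ((∑ j, (k j : ℝ) * y j : ℝ) : ℂ))) := by
      rw [← Complex.exp_add]
      congr 1
      simp only [Pi.sub_apply, mul_sub, Finset.sum_sub_distrib]
      push_cast
      ring
    rw [e3]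
    ring
  rw [integral_congr_ae (Filter.Eventually.of_forall e2), integral_const_mul]
  unfold fc
  ring

theorem conv_series (d : ℕ) (r : ℝ) (hr : 1 < r) (α : Fin d → ℝ) (φ : (Fin d → ℝ) → ℂ)
    (hφ : Integrable φ (TP d)) (x : Fin d → ℝ) :
    HasSum (fun n : ℕ => poly (Mact r α (FC d n φ)) x) (∫ y, Fr r α (x - y) • φ y ∂(TP d)) := by
  have h := cs_total r hr α φ hφ x
  rw [← (cs_e d).hasSum_iff] at h
  refine h.sigma fun n => ?_
  have h1 := hasSum_fintype (fun c : {k : Fin d → ℤ // k ∈ layer d n} =>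
    Fh r α c.1 * fc φ c.1 * Complex.exp (Complex.I * ((∑ j, (c.1 j : ℝ) * x j : ℝ) : ℂ)))
  have h2 : poly (Mact r α (FC d n φ)) x = ∑ c : {k : Fin d → ℤ // k ∈ layer d n},
    Fh r α c.1 * fc φ c.1 * Complex.exp (Complex.I * ((∑ j, (c.1 j : ℝ) * x j : ℝ) : ℂ)) := by
    unfold poly
    refine Finset.sum_congr rfl fun c _ => ?_
    congr 1
    unfold Mact FC
    simp only [if_true, one_ne_zero, if_false, Fin.isValue]
    have h3 : ((fc φ c.1).re : ℂ) + ((fc φ c.1).im : ℂ) * Complex.I = fc φ c.1 :=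
      Complex.re_add_im _
    rw [h3]
    exact Complex.re_add_im _
  rw [h2]
  exact h1

end Sol_EX_conv_series

alias conv_series := Sol_EX_conv_series.conv_series

end HypVol
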