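import Pool.Agent.EntX.Defs
import Pool.Agent.EntX.L_conv_series
import Pool.Agent.EntX.L_conv_facts
import Pool.Agent.EntX.L_FC_pair
import Pool.Agent.HypVol.L_mem_layer
import Pool.Agent.HypVol.L_TP_prob
open MeasureTheory Real ProbabilityTheory
open scoped ENNReal BigOperators

namespace HypVol
namespace Sol_EX_pos_pair

noncomputable def pos_pair_g (r : ℝ) (k : ℤ) : ℝ := if k = 0 then 1 else |(k : ℝ)| ^ (-r)

noncomputable def pos_pair_F {d : ℕ} (r : ℝ) (k : Fin d → ℤ) : ℝ := ∏ j, pos_pair_g r (k j)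

theorem pos_pair_g_nonneg (r : ℝ) (k : ℤ) : 0 ≤ pos_pair_g r k := by
  unfold pos_pair_g
  split_ifs
  · exact zero_le_one
  · positivity

theorem pos_pair_F_nonneg {d : ℕ} (r : ℝ) (k : Fin d → ℤ) : 0 ≤ pos_pair_F r k :=
  Finset.prod_nonneg (fun _ _ => pos_pair_g_nonneg r _)

theorem pos_pair_Fh {d : ℕ} (r : ℝ) (k : Fin d → ℤ) :
    Fh r (fun _ : Fin d => (0:ℝ)) k = (pos_pair_F r k : ℂ) := by
  unfold Fh pos_pair_F
  rw [Complex.ofReal_prod]
  apply Finset.prod_congr rfl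
  intro j _
  unfold pos_pair_g
  by_cases h : k j = 0
  · rw [if_pos h, if_pos h, Complex.ofReal_one]
  · rw [if_neg h, if_neg h]
    simp

theorem pos_pair_Mact {d n : ℕ} (r : ℝ) (a : (layer d n) × Fin 2 → ℝ) (i : (layer d n) × Fin 2) :
    Mact r (fun _ : Fin d => (0:ℝ)) a i = pos_pair_F r i.1.1 * a i := by
  obtain ⟨k, e⟩ := i
  unfold Mact
  simp only [pos_pair_Fh]
  have h0 : ((a (k, 0) : ℂ) + (a (k, 1) : ℂ) * Complex.I).re = a (k, 0) := by simp
  have h1 : ((a (k, 0) : ℂ) + (a (k, 1) : ℂ) * Complex.I).im = a (k, 1) := by simp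
  rw [Complex.re_ofReal_mul, Complex.im_ofReal_mul, h0, h1]
  fin_cases e
  · simp
  · simp

theorem pos_pair_lower {d n : ℕ} (r : ℝ) (hr : 1 < r) (k : Fin d → ℤ) (hk : k ∈ layer d n) :
    (2:ℝ)^(-(r * n)) ≤ pos_pair_F r k := by
  rw [mem_layer_iff] at hk
  have h1 : (2:ℝ)^(-(r * n)) = ∏ j, (2:ℝ)^(-(r * (Nat.size (k j).natAbs : ℝ))) := by
    rw [← Real.rpow_sum_of_pos (by norm_num : (0:ℝ) < 2)]
    congr 1
    rw [Finset.sum_neg_distrib, ← Finset.mul_sum, ← Nat.cast_sum, hk]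
  rw [h1]
  unfold pos_pair_F
  apply Finset.prod_le_prod
  · intro j _; positivity
  · intro j _
    unfold pos_pair_g
    split_ifs with h
    · rw [h]; simp
    · have h2 : |(k j : ℝ)| ≤ (2:ℝ) ^ (Nat.size (k j).natAbs) := by
        have h3 : (k j).natAbs < 2 ^ (Nat.size (k j).natAbs) := Nat.lt_size_self _
        have h4 : ((k j).natAbs : ℝ) ≤ (2:ℝ) ^ (Nat.size (k j).natAbs) := by
          exact_mod_cast h3.le
        rwa [Nat.cast_natAbs, Int.cast_abs] at h4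
      have h5 : 0 < |(k j : ℝ)| := by
        rw [abs_pos]; exact_mod_cast h
      have h6 := Real.rpow_le_rpow_of_nonpos h5 h2 (by linarith : -r ≤ 0)
      refine le_trans (le_of_eq ?_) h6
      rw [← Real.rpow_natCast, ← Real.rpow_mul (by norm_num)]
      congr 1
      ring

theorem pos_pair_g_summable (r : ℝ) (hr : 1 < r) : Summable (pos_pair_g r) := by
  have h1 := (Real.summable_abs_int_rpow hr).add
    (hasSum_ite_eq (0 : ℤ) (1 : ℝ)).summable
  refine h1.congr ?_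
  intro k
  unfold pos_pair_g
  by_cases h : k = 0
  · rw [if_pos h, if_pos h, h, Int.cast_zero, abs_zero, Real.zero_rpow (by linarith), zero_add]
  · rw [if_neg h, if_neg h, add_zero]

theorem pos_pair_layers {d : ℕ} (r : ℝ) (hr : 1 < r) (T : ℕ) :
    ∑ m ∈ Finset.range T, ∑ k ∈ layer d m, pos_pair_F r k ≤ (∑' z : ℤ, pos_pair_g r z) ^ d := by
  classical
  have hs := pos_pair_g_summable r hr
  have hdisj : Set.PairwiseDisjoint (↑(Finset.range T) : Set ℕ) (fun m => layer d m) := by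
    intro m _ m' _ hmm
    rw [Function.onFun, Finset.disjoint_left]
    intro k hk hk'
    rw [mem_layer_iff] at hk hk'
    exact hmm (hk.symm.trans hk')
  rw [← Finset.sum_biUnion hdisj]
  have hsub : (Finset.range T).biUnion (fun m => layer d m) ⊆
      Fintype.piFinset (fun _ : Fin d => Finset.Ioo (-(2:ℤ)^T) ((2:ℤ)^T)) := by
    intro k hk
    rw [Finset.mem_biUnion] at hk
    obtain ⟨m, hm, hk⟩ := hk
    have hm' := Finset.mem_range.1 hm
    unfold layer at hk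
    rw [Finset.mem_filter, Fintype.mem_piFinset] at hk
    rw [Fintype.mem_piFinset]
    intro j
    have h1 := hk.1 j
    rw [Finset.mem_Ioo] at h1 ⊢
    have h2 : (2:ℤ)^m ≤ (2:ℤ)^T := pow_le_pow_right₀ (by norm_num) hm'.le
    constructor <;> linarith [h1.1, h1.2]
  refine (Finset.sum_le_sum_of_subset_of_nonneg hsub
    (fun k _ _ => pos_pair_F_nonneg r k)).trans ?_
  unfold pos_pair_F
  rw [← Finset.prod_univ_sum (fun _ : Fin d => Finset.Ioo (-(2:ℤ)^T) ((2:ℤ)^T))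
    (fun _ z => pos_pair_g r z), Finset.prod_const, Finset.card_univ, Fintype.card_fin]
  apply pow_le_pow_left₀
  · exact Finset.sum_nonneg (fun z _ => pos_pair_g_nonneg r z)
  · exact hs.sum_le_tsum _ (fun z _ => pos_pair_g_nonneg r z)

theorem pos_pair_fc {d : ℕ} (ψ : (Fin d → ℝ) → ℂ) (k : Fin d → ℤ) :
    ‖fc ψ k‖ ≤ ∫ x, ‖ψ x‖ ∂(TP d) := by
  unfold fc
  refine (norm_integral_le_integral_norm _).trans (le_of_eq ?_)
  congr 1
  funext x
  rw [norm_mul, Complex.norm_exp]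
  simp

theorem pos_pair_poly {d m : ℕ} (r : ℝ) (ψ : (Fin d → ℝ) → ℂ) (x : Fin d → ℝ) :
    ‖poly (Mact r (fun _ : Fin d => (0:ℝ)) (FC d m ψ)) x‖
      ≤ (∑ k ∈ layer d m, pos_pair_F r k) * ∫ x, ‖ψ x‖ ∂(TP d) := by
  unfold poly
  refine (norm_sum_le _ _).trans ?_
  rw [← Finset.sum_coe_sort (layer d m), Finset.sum_mul]
  apply Finset.sum_le_sum
  intro k _
  rw [norm_mul, pos_pair_Mact, pos_pair_Mact]
  have h0 : FC d m ψ (k, 0) = (fc ψ k.1).re := by simp [FC]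
  have h1 : FC d m ψ (k, 1) = (fc ψ k.1).im := by simp [FC]
  have h2 : ((pos_pair_F r k.1 * FC d m ψ (k, 0) : ℝ) : ℂ)
      + ((pos_pair_F r k.1 * FC d m ψ (k, 1) : ℝ) : ℂ) * Complex.I
      = (pos_pair_F r k.1 : ℂ) * fc ψ k.1 := by
    rw [h0, h1, Complex.ofReal_mul, Complex.ofReal_mul, mul_assoc, ← mul_add, Complex.re_add_im]
  have h3 : ‖Complex.exp (Complex.I * ((∑ j, (k.1 j : ℝ) * x j : ℝ) : ℂ))‖ = 1 := by
    rw [Complex.norm_exp]
    simp
  rw [h3, mul_one]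
  simp only
  rw [h2, norm_mul, Complex.norm_real, Real.norm_eq_abs, abs_of_nonneg (pos_pair_F_nonneg r _)]
  exact mul_le_mul_of_nonneg_left (pos_pair_fc ψ k.1) (pos_pair_F_nonneg r _)

theorem pos_pair_cont {d m : ℕ} (a : (layer d m) × Fin 2 → ℝ) : Continuous (poly a) := by
  unfold poly
  fun_prop

theorem pos_pair {d n : ℕ} (r : ℝ) (hr : 1 < r) (ψ : (Fin d → ℝ) → ℂ) (hψ : Integrable ψ (TP d)) (M : ℝ)
    (hM : ∀ x, ‖∫ y, Fr r (fun _ : Fin d => (0:ℝ)) (x - y) • ψ y ∂(TP d)‖ ≤ M) :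
    (2:ℝ)^(-(r * n)) * ∑ i, FC d n ψ i ^ 2 ≤ M * ∫ x, ‖ψ x‖ ∂(TP d) := by
  have := TP_prob d
  obtain ⟨I1, hI1⟩ : ∃ I1 : ℝ, I1 = ∫ x, ‖ψ x‖ ∂(TP d) := ⟨_, rfl⟩
  have hI0 : 0 ≤ I1 := by rw [hI1]; exact integral_nonneg (fun _ => norm_nonneg _)
  obtain ⟨c, hc⟩ : ∃ c : ℕ → ℝ, c = fun m => ∑ k ∈ layer d m, pos_pair_F r k := ⟨_, rfl⟩
  have hc0 : ∀ m, 0 ≤ c m := by
    intro m; rw [hc]; exact Finset.sum_nonneg (fun k _ => pos_pair_F_nonneg r k)
  have hcs : Summable c := by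
    apply summable_of_sum_range_le hc0
    intro T
    rw [hc]
    exact pos_pair_layers r hr T
  obtain ⟨P, hP⟩ : ∃ P : ℕ → (Fin d → ℝ) → ℂ,
    P = fun m => poly (Mact r (fun _ : Fin d => (0:ℝ)) (FC d m ψ)) := ⟨_, rfl⟩
  have hPb : ∀ m x, ‖P m x‖ ≤ c m * I1 := by
    intro m x
    rw [hP, hc, hI1]
    exact pos_pair_poly r ψ x
  have hPc : ∀ m, Continuous (P m) := by
    intro m; rw [hP]; exact pos_pair_cont _
  obtain ⟨F, hF⟩ : ∃ F : ℕ → (Fin d → ℝ) → ℂ,
    F = fun m x => ψ x * (starRingEnd ℂ) (P m x) := ⟨_, rfl⟩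
  have hFint : ∀ m, Integrable (F m) (TP d) := by
    intro m
    have h2 : Continuous (fun x => (starRingEnd ℂ) (P m x)) :=
      Complex.continuous_conj.comp (hPc m)
    have h3 := hψ.bdd_mul (c := c m * I1) h2.aestronglyMeasurable
      (Filter.Eventually.of_forall (fun p => by
        rw [RCLike.norm_conj]
        exact hPb m p))
    refine h3.congr (Filter.Eventually.of_forall (fun p => ?_))
    rw [hF]
    exact mul_comm _ _
  have hFn : ∀ m x, ‖F m x‖ ≤ ‖ψ x‖ * (c m * I1) := by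
    intro m x
    rw [hF]
    simp only
    rw [norm_mul, RCLike.norm_conj]
    exact mul_le_mul_of_nonneg_left (hPb m x) (norm_nonneg _)
  have hFsum : Summable (fun m => ∫ x, ‖F m x‖ ∂(TP d)) := by
    apply Summable.of_nonneg_of_le (fun m => integral_nonneg (fun _ => norm_nonneg _))
      (f := fun m => c m * (I1 * I1)) _ (hcs.mul_right _)
    intro m
    calc ∫ x, ‖F m x‖ ∂(TP d) ≤ ∫ x, ‖ψ x‖ * (c m * I1) ∂(TP d) :=
          integral_mono (hFint m).norm (hψ.norm.mul_const _) (hFn m)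
      _ = c m * (I1 * I1) := by
          rw [integral_mul_const, ← hI1]; ring
  have hmain := hasSum_integral_of_summable_integral_norm hFint hFsum
  have hpt : ∀ x, ∑' m, F m x = ψ x * (starRingEnd ℂ)
      (∫ y, Fr r (fun _ : Fin d => (0:ℝ)) (x - y) • ψ y ∂(TP d)) := by
    intro x
    have h1 := conv_series d r hr (fun _ : Fin d => (0:ℝ)) ψ hψ x
    have h2 := (Complex.hasSum_conj'.2 h1).mul_left (ψ x)
    rw [hF, hP]
    exact h2.tsum_eq
  simp only [hpt] at hmain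
  have hre := Complex.reCLM.hasSum hmain
  have hterm : ∀ m, Complex.reCLM (∫ x, F m x ∂(TP d))
      = ∑ i, pos_pair_F r i.1.1 * FC d m ψ i ^ 2 := by
    intro m
    rw [Complex.reCLM_apply, hF, hP]
    simp only
    rw [FC_pair ψ hψ]
    apply Finset.sum_congr rfl
    intro i _
    rw [pos_pair_Mact]
    ring
  simp only [Function.comp_def, hterm] at hre
  have hn := le_hasSum hre n (fun m _ => Finset.sum_nonneg (fun i _ =>
    mul_nonneg (pos_pair_F_nonneg r _) (sq_nonneg _)))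
  have h1 : (2:ℝ)^(-(r * n)) * ∑ i, FC d n ψ i ^ 2
      ≤ ∑ i : (layer d n) × Fin 2, pos_pair_F r i.1.1 * FC d n ψ i ^ 2 := by
    rw [Finset.mul_sum]
    apply Finset.sum_le_sum
    intro i _
    exact mul_le_mul_of_nonneg_right (pos_pair_lower r hr _ i.1.2) (sq_nonneg _)
  refine (h1.trans hn).trans ?_
  rw [Complex.reCLM_apply]
  refine (Complex.re_le_norm _).trans ?_
  have h2 : ‖∫ x, ψ x * (starRingEnd ℂ)
      (∫ y, Fr r (fun _ : Fin d => (0:ℝ)) (x - y) • ψ y ∂(TP d)) ∂(TP d)‖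
      ≤ ∫ x, M * ‖ψ x‖ ∂(TP d) := by
    apply norm_integral_le_of_norm_le (hψ.norm.const_mul M)
    refine Filter.Eventually.of_forall (fun x => ?_)
    rw [norm_mul, RCLike.norm_conj, mul_comm]
    exact mul_le_mul_of_nonneg_right (hM x) (norm_nonneg _)
  refine h2.trans (le_of_eq ?_)
  rw [integral_const_mul]

end Sol_EX_pos_pair

alias pos_pair := Sol_EX_pos_pair.pos_pair

end HypVol
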