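import Pool.Agent.EntX.Defs
import Pool.Agent.HypVol.L_santalo
open MeasureTheory Real ProbabilityTheory
open scoped ENNReal BigOperators

namespace HypVol
namespace Sol_EX_vol_eucl

theorem vol_eucl : ∃ C : ℝ, 0 < C ∧ ∀ (ι : Type) [Fintype ι], 0 < Fintype.card ι →
    volume {a : ι → ℝ | ∑ i, a i ^ 2 ≤ 1} ≤
      ENNReal.ofReal ((C * (Real.sqrt (Fintype.card ι))⁻¹)^(Fintype.card ι)) := by
  refine ⟨Real.sqrt (2 * π * Real.exp 1), Real.sqrt_pos.2 (by positivity), ?_⟩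
  intro ι _ hN
  classical
  have hmem : ∀ a ∈ {a : ι → ℝ | ∑ i, a i ^ 2 ≤ 1}, ∑ i, a i ^ 2 ≤ 1 := fun a ha => ha
  have hK : IsCompact {a : ι → ℝ | ∑ i, a i ^ 2 ≤ 1} := by
    apply Metric.isCompact_of_isClosed_isBounded
    · exact isClosed_le (by fun_prop) continuous_const
    · refine (Metric.isBounded_closedBall (x := (0 : ι → ℝ)) (r := 1)).subset ?_
      intro a ha
      rw [mem_closedBall_zero_iff, pi_norm_le_iff_of_nonneg zero_le_one]
      intro i
      have h1 : a i ^ 2 ≤ ∑ i, a i ^ 2 :=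
        Finset.single_le_sum (f := fun i => a i ^ 2) (fun i _ => sq_nonneg (a i)) (Finset.mem_univ i)
      have h2 : a i ^ 2 ≤ 1 := h1.trans (hmem a ha)
      rw [Real.norm_eq_abs]
      exact (sq_le_one_iff_abs_le_one (a i)).1 h2
  have hs : ∀ x ∈ {a : ι → ℝ | ∑ i, a i ^ 2 ≤ 1}, -x ∈ {a : ι → ℝ | ∑ i, a i ^ 2 ≤ 1} := by
    intro x hx
    have := hmem x hx
    change ∑ i, (-x) i ^ 2 ≤ 1
    simpa using this
  have hS := santalo hN _ _ hK hK hs hs (by
    intro x hx y hy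
    have h1 := hmem x hx
    have h2 := hmem y hy
    have h3 : ∑ j, x j * y j ≤ ∑ j, (x j ^ 2 + y j ^ 2) / 2 :=
      Finset.sum_le_sum fun j _ => by nlinarith [sq_nonneg (x j - y j)]
    rw [← Finset.sum_div, Finset.sum_add_distrib] at h3
    linarith)
  set V := volume {a : ι → ℝ | ∑ i, a i ^ 2 ≤ 1} with hV
  set N := Fintype.card ι with hNN
  have hN' : (0:ℝ) < N := by exact_mod_cast hN
  set z : ℝ := (Real.sqrt (2 * π * Real.exp 1) * (Real.sqrt N)⁻¹) ^ N with hz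
  have hz0 : 0 ≤ z := by positivity
  have hzz : (2 * π * Real.exp 1 / N) ^ N = z * z := by
    rw [hz, ← mul_pow]
    congr 1
    have e1 : Real.sqrt (2 * π * Real.exp 1) * Real.sqrt (2 * π * Real.exp 1) = 2 * π * Real.exp 1 :=
      Real.mul_self_sqrt (by positivity)
    have e2 : Real.sqrt N * Real.sqrt N = N := Real.mul_self_sqrt hN'.le
    calc 2 * π * Real.exp 1 / N = (Real.sqrt (2 * π * Real.exp 1) * Real.sqrt (2 * π * Real.exp 1)) *
          (Real.sqrt N * Real.sqrt N)⁻¹ := by rw [e1, e2]; rfl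
      _ = _ := by rw [mul_inv]; ring
  rw [hzz, ENNReal.ofReal_mul hz0] at hS
  by_contra hlt
  push Not at hlt
  exact absurd hS (not_le.2 (ENNReal.mul_lt_mul hlt hlt))

end Sol_EX_vol_eucl

alias vol_eucl := Sol_EX_vol_eucl.vol_eucl

end HypVol
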