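import Pool.Agent.EntX.Defs
import Pool.Agent.HypVol.L_TP_prob
import Pool.Agent.EntX.L_conv_facts
import Pool.Agent.EntX.L_cov_centres
import Pool.Agent.EntX.L_pos_pair
import Pool.Agent.EntX.L_bperp_lift
import Pool.Agent.HypVol.L_perp_lower
import Pool.Agent.EntX.L_vol_eucl
import Pool.Agent.HypVol.L_card_layer
import Pool.Agent.HypVol.L_shp_lower
import Pool.Agent.HypVol.L_shp_upper
open MeasureTheory Real ProbabilityTheory
open scoped ENNReal BigOperators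

namespace HypVol
namespace Sol_EX_cover_pos

open scoped Pointwise in
theorem cover_pos_vol {ι : Type} [Fintype ι] (b : ι → ℝ) (ρ : ℝ) (hρ : 0 < ρ) :
    volume {a : ι → ℝ | ∑ i, (a i - b i) ^ 2 ≤ ρ ^ 2} ≤
      ENNReal.ofReal (ρ ^ (Fintype.card ι)) * volume {a : ι → ℝ | ∑ i, a i ^ 2 ≤ 1} := by
  have hsub : {a : ι → ℝ | ∑ i, (a i - b i) ^ 2 ≤ ρ ^ 2} ⊆
      (fun a => a + (-b)) ⁻¹' (ρ • {a : ι → ℝ | ∑ i, a i ^ 2 ≤ 1}) := by
    intro a ha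
    refine ⟨ρ⁻¹ • (a + (-b)), ?_, ?_⟩
    · change ∑ i, ((ρ⁻¹ • (a + (-b))) i) ^ 2 ≤ 1
      have h1 : ∑ i, ((ρ⁻¹ • (a + (-b))) i) ^ 2 = (ρ ^ 2)⁻¹ * ∑ i, (a i - b i) ^ 2 := by
        rw [Finset.mul_sum]
        refine Finset.sum_congr rfl fun i _ => ?_
        simp only [Pi.smul_apply, Pi.add_apply, Pi.neg_apply, smul_eq_mul]
        rw [mul_pow, inv_pow]; ring
      rw [h1, inv_mul_le_iff₀ (by positivity), mul_one]
      exact ha
    · change ρ • (ρ⁻¹ • (a + (-b))) = a + (-b)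
      rw [smul_inv_smul₀ hρ.ne']
  refine (measure_mono hsub).trans ?_
  rw [measure_preimage_add_right, Measure.addHaar_smul, Module.finrank_fintype_fun_eq_card,
    abs_of_pos (pow_pos hρ _)]

theorem cover_pos_fc {d : ℕ} (f g : (Fin d → ℝ) → ℂ) (hf : Integrable f (TP d))
    (hg : Integrable g (TP d)) (k : Fin d → ℤ) : fc (fun x => f x - g x) k = fc f k - fc g k := by
  have hI : ∀ h : (Fin d → ℝ) → ℂ, Integrable h (TP d) → Integrable (fun x => h x *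
      Complex.exp (-(Complex.I * ((∑ j, (k j : ℝ) * x j : ℝ) : ℂ)))) (TP d) := by
    intro h hh
    have hc : Continuous (fun x : Fin d → ℝ =>
        Complex.exp (-(Complex.I * ((∑ j, (k j : ℝ) * x j : ℝ) : ℂ)))) := by
      apply Complex.continuous_exp.comp
      apply Continuous.neg
      apply Continuous.mul continuous_const
      apply Complex.continuous_ofReal.comp
      fun_prop
    refine hh.mul_bdd (c := 1) hc.aestronglyMeasurable (ae_of_all _ fun x => ?_)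
    rw [Complex.norm_exp]
    simp
  unfold fc
  rw [← integral_sub (hI f hf) (hI g hg)]
  congr 1
  funext x
  ring

theorem cover_pos_cov {d n : ℕ} (r : ℝ) (hr : 1 < r) (k : ℕ) (ε : ℝ) (hε : 0 < ε)
    (h : Cov ⊤ k (ENNReal.ofReal ε) (MW ℂ d r 1 (fun _ => 0))) :
    ∃ b : Fin (2^k) → ((layer d n) × Fin 2 → ℝ), bperp d n ⊆
      ⋃ j, {a | ∑ i, (a i - b j i) ^ 2 ≤ (4 * Real.sqrt ((2:ℝ)^(r * n) * ε)) ^ 2} := by
  obtain ⟨φc, hφc, hcov⟩ := cov_centres r hr _ k ε hε h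
  refine ⟨fun j i => 2 * FC d n (φc j) i, fun a ha => ?_⟩
  obtain ⟨φ, hφ1, hφ2, hφ3⟩ := bperp_lift a ha 1 one_pos
  have hφI : Integrable φ (TP d) := memLp_one_iff_integrable.mp hφ1
  have hφn : ∫ x, ‖φ x‖ ∂(TP d) ≤ 1 := by
    rw [integral_norm_eq_lintegral_enorm hφI.aestronglyMeasurable]
    rw [eLpNorm_one_eq_lintegral_enorm] at hφ2
    exact ENNReal.toReal_le_of_le_ofReal zero_le_one (by simpa using hφ2)
  obtain ⟨j, hj⟩ := hcov φ hφI hφn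
  refine Set.mem_iUnion.2 ⟨j, ?_⟩
  obtain ⟨hcF, B, hB0, hB, -⟩ := conv_facts (𝕜 := ℂ) r hr (fun _ : Fin d => (0:ℝ))
  have hI : ∀ (x : Fin d → ℝ) (h : (Fin d → ℝ) → ℂ), Integrable h (TP d) →
      Integrable (fun y => Fr r (fun _ : Fin d => (0:ℝ)) (x - y) • h y) (TP d) := by
    intro x h hh
    have hm : AEStronglyMeasurable (fun y => Fr r (fun _ : Fin d => (0:ℝ)) (x - y)) (TP d) :=
      (hcF.comp (by fun_prop : Continuous fun y : Fin d → ℝ => x - y)).aestronglyMeasurable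
    have hb : ∀ᵐ y ∂(TP d), ‖Fr r (fun _ : Fin d => (0:ℝ)) (x - y)‖ ≤ B :=
      ae_of_all _ fun y => by rw [Real.norm_eq_abs]; exact hB _
    exact hh.bdd_smul B hm hb
  have hψ : Integrable (fun y => φ y - φc j y) (TP d) := hφI.sub (hφc j).1
  have hM : ∀ x, ‖∫ y, Fr r (fun _ : Fin d => (0:ℝ)) (x - y) • (φ y - φc j y) ∂(TP d)‖ ≤ 2 * ε := by
    intro x
    have e : ∫ y, Fr r (fun _ : Fin d => (0:ℝ)) (x - y) • (φ y - φc j y) ∂(TP d) =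
        (∫ y, Fr r (fun _ : Fin d => (0:ℝ)) (x - y) • φ y ∂(TP d)) -
          ∫ y, Fr r (fun _ : Fin d => (0:ℝ)) (x - y) • φc j y ∂(TP d) := by
      rw [← integral_sub (hI x _ hφI) (hI x _ (hφc j).1)]
      congr 1
      funext y
      rw [smul_sub]
    rw [e]
    exact hj x
  have h1 := pos_pair (n := n) r hr (fun y => φ y - φc j y) hψ (2 * ε) hM
  have h2 : ∫ x, ‖φ x - φc j x‖ ∂(TP d) ≤ 2 := by
    have h3 : ∫ x, ‖φ x - φc j x‖ ∂(TP d) ≤ ∫ x, (‖φ x‖ + ‖φc j x‖) ∂(TP d) :=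
      integral_mono hψ.norm (hφI.norm.add (hφc j).1.norm) fun x => norm_sub_le _ _
    rw [integral_add hφI.norm (hφc j).1.norm] at h3
    have h4 := (hφc j).2
    linarith
  have h5 : ∀ i, FC d n (fun y => φ y - φc j y) i = FC d n φ i - FC d n (φc j) i := by
    intro i
    unfold FC
    rw [cover_pos_fc φ (φc j) hφI (hφc j).1]
    split_ifs
    · rw [Complex.sub_re]
    · rw [Complex.sub_im]
  have h6 : ∑ i, FC d n (fun y => φ y - φc j y) i ^ 2 =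
      (1 / 4) * ∑ i, (a i - 2 * FC d n (φc j) i) ^ 2 := by
    rw [Finset.mul_sum]
    refine Finset.sum_congr rfl fun i _ => ?_
    rw [h5, hφ3, Pi.smul_apply, smul_eq_mul]
    ring
  rw [h6] at h1
  have hr0 : 0 < (2:ℝ)^(r * n) := Real.rpow_pos_of_pos two_pos _
  have h8 : (2:ℝ)^(r * n) * (2:ℝ)^(-(r * n)) = 1 := by
    rw [← Real.rpow_add two_pos, add_neg_cancel, Real.rpow_zero]
  have h9 : (2:ℝ)^(-(r * n)) * ((1 / 4) * ∑ i, (a i - 2 * FC d n (φc j) i) ^ 2) ≤ 2 * ε * 2 :=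
    h1.trans (mul_le_mul_of_nonneg_left h2 (by positivity))
  have h10 := mul_le_mul_of_nonneg_left h9 hr0.le
  rw [← mul_assoc, h8, one_mul] at h10
  change ∑ i, (a i - 2 * FC d n (φc j) i) ^ 2 ≤ (4 * Real.sqrt ((2:ℝ)^(r * n) * ε)) ^ 2
  rw [mul_pow, Real.sq_sqrt (by positivity)]
  nlinarith

theorem cover_pos_real (N n k d : ℕ) (hd : 3 ≤ d) (hn : 1 ≤ n) (hN : 1 ≤ N)
    (c C c1 ε r : ℝ) (hc : 0 < c) (hC : 0 < C) (hc1 : 0 < c1) (hε : 0 < ε)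
    (hNL : 2 * c1 * (2 ^ n * (n : ℝ) ^ (d - 1)) ≤ N)
    (h : (c * (Real.sqrt (2^n * (n:ℝ)^(d-2)))⁻¹) ^ N ≤
      2 ^ k * (4 * Real.sqrt ((2:ℝ)^(r * n) * ε) * (C * (Real.sqrt N)⁻¹)) ^ N) :
    (c ^ 2 * c1 / (8 * C ^ 2)) * ((2:ℝ)^(-(k:ℝ) / (N : ℕ)))^2 * (2:ℝ)^(-(r * n)) * n ≤ ε := by
  have hn0 : (0 : ℝ) < n := by exact_mod_cast hn
  have hN0 : (0 : ℝ) < N := by exact_mod_cast hN
  have hP0 : (0 : ℝ) < 2 ^ n * (n : ℝ) ^ (d - 2) := by positivity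
  have hr0 : 0 < (2:ℝ)^(r * n) := Real.rpow_pos_of_pos two_pos _
  have hr1 : 0 < (2:ℝ)^(-(r * n)) := Real.rpow_pos_of_pos two_pos _
  have h8 : (2:ℝ)^(r * n) * (2:ℝ)^(-(r * n)) = 1 := by
    rw [← Real.rpow_add two_pos, add_neg_cancel, Real.rpow_zero]
  have ht0 : 0 < (2:ℝ)^(-(k:ℝ) / (N : ℕ)) := Real.rpow_pos_of_pos two_pos _
  have h7 : ((2:ℝ)^(-(k:ℝ) / (N : ℕ))) ^ N = ((2 : ℝ) ^ k)⁻¹ := by
    rw [← Real.rpow_natCast, ← Real.rpow_mul two_pos.le, div_mul_cancel₀ _ hN0.ne',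
      Real.rpow_neg two_pos.le, Real.rpow_natCast]
  have h1 : (2:ℝ)^(-(k:ℝ) / (N : ℕ)) * (c * (Real.sqrt (2^n * (n:ℝ)^(d-2)))⁻¹) ≤
      4 * Real.sqrt ((2:ℝ)^(r * n) * ε) * (C * (Real.sqrt N)⁻¹) := by
    apply le_of_pow_le_pow_left₀ (n := N) (by omega) (by positivity)
    rw [mul_pow, h7, inv_mul_le_iff₀ (by positivity)]
    exact h
  have h2 := pow_le_pow_left₀ (by positivity) h1 2
  have e1 : ((2:ℝ)^(-(k:ℝ) / (N : ℕ)) * (c * (Real.sqrt (2^n * (n:ℝ)^(d-2)))⁻¹)) ^ 2 =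
      ((2:ℝ)^(-(k:ℝ) / (N : ℕ))) ^ 2 * c ^ 2 / (2 ^ n * (n:ℝ)^(d-2)) := by
    rw [mul_pow, mul_pow, inv_pow, Real.sq_sqrt hP0.le]
    field_simp
  have e2 : (4 * Real.sqrt ((2:ℝ)^(r * n) * ε) * (C * (Real.sqrt N)⁻¹)) ^ 2 =
      16 * ((2:ℝ)^(r * n) * ε) * C ^ 2 / N := by
    rw [mul_pow, mul_pow, mul_pow, inv_pow, Real.sq_sqrt hN0.le, Real.sq_sqrt (by positivity)]
    field_simp
    norm_num
  rw [e1, e2, div_le_div_iff₀ hP0 hN0] at h2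
  
  have e3 : (n : ℝ) ^ (d - 1) = (n : ℝ) ^ (d - 2) * n := by
    rw [← pow_succ]
    congr 1
    omega
  obtain ⟨t, ht⟩ : ∃ t : ℝ, t = (2:ℝ)^(-(k:ℝ) / (N : ℕ)) := ⟨_, rfl⟩
  rw [← ht] at h2 ht0 ⊢
  have h3 : t ^ 2 * c ^ 2 * (2 * c1 * (2 ^ n * (n : ℝ) ^ (d - 1))) ≤
      16 * ((2:ℝ)^(r * n) * ε) * C ^ 2 * (2 ^ n * (n:ℝ)^(d-2)) :=
    (mul_le_mul_of_nonneg_left hNL (by positivity)).trans h2
  rw [e3] at h3
  have h4 : (t ^ 2 * c ^ 2 * (2 * c1 * n)) * (2 ^ n * (n:ℝ)^(d-2)) ≤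
      (16 * ((2:ℝ)^(r * n) * ε) * C ^ 2) * (2 ^ n * (n:ℝ)^(d-2)) := by
    calc _ = t ^ 2 * c ^ 2 * (2 * c1 * (2 ^ n * ((n : ℝ) ^ (d - 2) * n))) := by ring
      _ ≤ _ := h3
  have h5 := le_of_mul_le_mul_right h4 hP0
  have h6 := mul_le_mul_of_nonneg_right h5 hr1.le
  have h9 : 16 * ((2:ℝ)^(r * n) * ε) * C ^ 2 * (2:ℝ)^(-(r * n)) = 16 * ε * C ^ 2 := by
    calc _ = 16 * ε * C ^ 2 * ((2:ℝ)^(r * n) * (2:ℝ)^(-(r * n))) := by ring
      _ = _ := by rw [h8, mul_one]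
  rw [h9] at h6
  have h10 : c ^ 2 * c1 / (8 * C ^ 2) * t ^ 2 * (2:ℝ)^(-(r * n)) * n =
      (t ^ 2 * c ^ 2 * (2 * c1 * n) * (2:ℝ)^(-(r * n))) / (16 * C ^ 2) := by
    field_simp
    ring
  rw [h10, div_le_iff₀ (by positivity)]
  linarith

theorem cover_pos (d : ℕ) (hd : 3 ≤ d) (r : ℝ) (hr : 1 < r) :
    ∃ c : ℝ, 0 < c ∧ ∀ (n k : ℕ) (ε : ℝ), 1 ≤ n → 0 < ε →
      Cov ⊤ k (ENNReal.ofReal ε) (MW ℂ d r 1 (fun _ => 0)) →
      c * ((2:ℝ)^(-(k:ℝ) / (2 * (layer d n).card : ℕ)))^2 * (2:ℝ)^(-(r * n)) * n ≤ ε := by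
  obtain ⟨c, hc, hP⟩ := perp_lower d hd
  obtain ⟨C, hC, hV⟩ := vol_eucl
  obtain ⟨c1, hc1, hL⟩ := shp_lower d (by omega)
  refine ⟨c ^ 2 * c1 / (8 * C ^ 2), by positivity, ?_⟩
  intro n k ε hn hε hcov
  have hn0 : (0 : ℝ) < n := by exact_mod_cast hn
  have hshp : 0 < shp d n := by
    have h1 := hL n hn
    have h2 : 0 < c1 * (n:ℝ)^(d-1) := by positivity
    have h3 : (0 : ℝ) < shp d n := lt_of_lt_of_le h2 h1
    exact_mod_cast h3
  have hM : 1 ≤ (layer d n).card := by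
    rw [card_layer]
    exact Nat.mul_pos (pow_pos two_pos n) hshp
  have hcard : Fintype.card ((layer d n) × Fin 2) = 2 * (layer d n).card := by
    rw [Fintype.card_prod, Fintype.card_coe, Fintype.card_fin, mul_comm]
  have hr0 : 0 < (2:ℝ)^(r * n) := Real.rpow_pos_of_pos two_pos _
  have hρ : 0 < 4 * Real.sqrt ((2:ℝ)^(r * n) * ε) := by positivity
  obtain ⟨b, hb⟩ := cover_pos_cov (n := n) r hr k ε hε hcov
  apply cover_pos_real (2 * (layer d n).card) n k d hd hn (by omega) c C c1 ε r hc hC hc1 hε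
  · rw [card_layer]
    push_cast
    have h1 := hL n hn
    calc 2 * c1 * (2 ^ n * (n : ℝ) ^ (d - 1)) = 2 * (2 ^ n * (c1 * (n : ℝ) ^ (d - 1))) := by ring
      _ ≤ 2 * (2 ^ n * (shp d n : ℝ)) := by gcongr
  · have h1 := (hP n hn).trans ((measure_mono hb).trans (measure_iUnion_fintype_le _ _))
    have hVi := hV ((layer d n) × Fin 2) (by rw [hcard]; omega)
    rw [hcard] at hVi
    have h2 : ∀ j : Fin (2^k), volume {a : (layer d n) × Fin 2 → ℝ |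
        ∑ i, (a i - b j i) ^ 2 ≤ (4 * Real.sqrt ((2:ℝ)^(r * n) * ε)) ^ 2} ≤
        ENNReal.ofReal ((4 * Real.sqrt ((2:ℝ)^(r * n) * ε) *
          (C * (Real.sqrt ((2 * (layer d n).card : ℕ) : ℝ))⁻¹)) ^ (2 * (layer d n).card)) := by
      intro j
      refine (cover_pos_vol (b j) _ hρ).trans ?_
      rw [hcard]
      refine (mul_le_mul' le_rfl hVi).trans ?_
      rw [← ENNReal.ofReal_mul (by positivity), ← mul_pow]
    have h3 := h1.trans (Finset.sum_le_card_nsmul Finset.univ _ _ (fun j _ => h2 j))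
    rw [Finset.card_univ, Fintype.card_fin, nsmul_eq_mul] at h3
    have h4 : ((2 ^ k : ℕ) : ℝ≥0∞) = ENNReal.ofReal ((2 : ℝ) ^ k) := by
      rw [← ENNReal.ofReal_natCast]
      congr 1
      push_cast
      ring
    rw [h4, ← ENNReal.ofReal_mul (by positivity), ENNReal.ofReal_le_ofReal_iff (by positivity)] at h3
    exact h3

end Sol_EX_cover_pos

alias cover_pos := Sol_EX_cover_pos.cover_pos

end HypVol
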