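import Pool.Agent.EntX.Defs
import Pool.Agent.HypVol.L_TP_prob
open MeasureTheory Real ProbabilityTheory
open scoped ENNReal BigOperators

namespace HypVol
namespace Sol_EX_rf_mp

theorem rf_mp {d : ℕ} (j : Fin d) : MeasurePreserving (rf j) (TP d) (TP d) := by
  haveI hfin : IsFiniteMeasure (ENNReal.ofReal (2 * π)⁻¹ • (volume : Measure ℝ).restrict (Set.Ico 0 (2 * π))) :=
    Measure.smul_finite _ ENNReal.ofReal_ne_top
  have h1 : MeasurePreserving (fun t : ℝ => 2 * π - t)
      (ENNReal.ofReal (2 * π)⁻¹ • (volume : Measure ℝ).restrict (Set.Ico 0 (2 * π)))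
      (ENNReal.ofReal (2 * π)⁻¹ • (volume : Measure ℝ).restrict (Set.Ico 0 (2 * π))) := by
    apply MeasurePreserving.smul_measure
    have h2 := (Measure.measurePreserving_sub_left (volume : Measure ℝ) (2 * π)).restrict_preimage
      (measurableSet_Ico : MeasurableSet (Set.Ico (0:ℝ) (2 * π)))
    have h3 : (fun t : ℝ => 2 * π - t) ⁻¹' (Set.Ico (0:ℝ) (2 * π)) = Set.Ioc (0:ℝ) (2 * π) := by
      ext t
      simp only [Set.mem_preimage, Set.mem_Ico, Set.mem_Ioc]
      constructor
      · rintro ⟨h, h'⟩; constructor <;> linarith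
      · rintro ⟨h, h'⟩; constructor <;> linarith
    rw [h3] at h2
    have h4 : (volume : Measure ℝ).restrict (Set.Ioc (0:ℝ) (2 * π)) =
        (volume : Measure ℝ).restrict (Set.Ico (0:ℝ) (2 * π)) :=
      Measure.restrict_congr_set Ico_ae_eq_Ioc.symm
    rwa [h4] at h2
  have h5 : (rf j : (Fin d → ℝ) → (Fin d → ℝ)) =
      fun x i => (if i = j then (fun t : ℝ => 2 * π - t) else id) (x i) := by
    funext x i
    unfold rf
    by_cases h : i = j
    · subst h
      simp
    · simp [h]
  rw [h5]
  unfold TP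
  refine measurePreserving_pi _ _ (fun i => ?_)
  by_cases h : i = j
  · simp only [h, if_true]
    exact h1
  · simp only [h, if_false]
    exact MeasurePreserving.id _

end Sol_EX_rf_mp

alias rf_mp := Sol_EX_rf_mp.rf_mp

end HypVol
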