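import Pool.Agent.EntX.Defs
import Pool.Agent.HypVol.L_TP_prob
import Pool.Agent.EntX.L_conv_facts
import Pool.Agent.EntX.L_cov_centres
import Pool.Agent.EntX.L_rf_mp
import Pool.Agent.EntX.L_F1_mean
open MeasureTheory Real ProbabilityTheory
open scoped ENNReal BigOperators

namespace HypVol
namespace Sol_EX_refl_step

theorem F1_summ (r : ℝ) (hr : 1 < r) (a x : ℝ) :
    Summable (fun k : ℕ => ((k:ℝ)+1)^(-r) * Real.cos (((k:ℝ)+1) * x - a * π / 2)) := by
  have h1 : Summable (fun k : ℕ => ((k:ℝ)+1)^(-r)) := by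
    have h2 : Summable (fun k : ℕ => ((k:ℝ))^(-r)) := Real.summable_nat_rpow.2 (by linarith)
    have h3 := (summable_nat_add_iff 1).2 h2
    simpa using h3
  refine Summable.of_norm_bounded h1 ?_
  intro k
  have h4 : (0:ℝ) ≤ ((k:ℝ)+1)^(-r) := by positivity
  rw [norm_mul, Real.norm_eq_abs, Real.norm_eq_abs, abs_of_nonneg h4]
  exact mul_le_of_le_one_right h4 (Real.abs_cos_le_one _)

theorem F1_refl (r : ℝ) (hr : 1 < r) (a x : ℝ) (hc : Real.cos (a * π / 2) ≠ 0) :
    F1 r 0 x = (1 - 1 / Real.cos (a * π / 2)) +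
      (1 / (2 * Real.cos (a * π / 2))) * (F1 r a x + F1 r a (-x)) := by
  have h1 : F1 r a x + F1 r a (-x) = 2 + 2 * Real.cos (a * π / 2) * (F1 r 0 x - 1) := by
    unfold F1
    have h2 : (∑' k : ℕ, ((k:ℝ)+1)^(-r) * Real.cos (((k:ℝ)+1) * x - a * π / 2)) +
        (∑' k : ℕ, ((k:ℝ)+1)^(-r) * Real.cos (((k:ℝ)+1) * (-x) - a * π / 2)) =
        2 * Real.cos (a * π / 2) *
          ∑' k : ℕ, ((k:ℝ)+1)^(-r) * Real.cos (((k:ℝ)+1) * x - 0 * π / 2) := by
      rw [← (F1_summ r hr a x).tsum_add (F1_summ r hr a (-x)), ← tsum_mul_left]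
      congr 1
      funext k
      have h3 : Real.cos (((k:ℝ)+1) * x - a * π / 2) =
          Real.cos (((k:ℝ)+1) * x) * Real.cos (a * π / 2) +
          Real.sin (((k:ℝ)+1) * x) * Real.sin (a * π / 2) := Real.cos_sub _ _
      have h4 : Real.cos (((k:ℝ)+1) * (-x) - a * π / 2) =
          Real.cos (((k:ℝ)+1) * x) * Real.cos (a * π / 2) -
          Real.sin (((k:ℝ)+1) * x) * Real.sin (a * π / 2) := by
        rw [mul_neg, Real.cos_sub, Real.cos_neg, Real.sin_neg]
        ring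
      have h5 : ((k:ℝ)+1) * x - 0 * π / 2 = ((k:ℝ)+1) * x := by ring
      rw [h3, h4, h5]
      ring
    linear_combination 2 * h2
  rw [h1]
  field_simp
  ring

noncomputable def PP {d : ℕ} (r : ℝ) (α : Fin d → ℝ) (j : Fin d) (z : Fin d → ℝ) : ℝ :=
  ∏ i ∈ Finset.univ.erase j, F1 r (α i) (z i)

theorem Fr_split {d : ℕ} (r : ℝ) (α : Fin d → ℝ) (j : Fin d) (z : Fin d → ℝ) :
    Fr r α z = F1 r (α j) (z j) * PP r α j z := by
  unfold Fr PP
  exact (Finset.mul_prod_erase Finset.univ (fun i => F1 r (α i) (z i)) (Finset.mem_univ j)).symm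

theorem PP_upd {d : ℕ} (r : ℝ) (α : Fin d → ℝ) (j : Fin d) (z : Fin d → ℝ) (t : ℝ) :
    PP r α j (Function.update z j t) = PP r α j z := by
  unfold PP
  refine Finset.prod_congr rfl fun i hi => ?_
  rw [Function.update_of_ne (Finset.ne_of_mem_erase hi)]

theorem PP_upd' {d : ℕ} (r : ℝ) (α : Fin d → ℝ) (j : Fin d) (z : Fin d → ℝ) (t : ℝ) :
    PP r (Function.update α j t) j z = PP r α j z := by
  unfold PP
  refine Finset.prod_congr rfl fun i hi => ?_
  rw [Function.update_of_ne (Finset.ne_of_mem_erase hi)]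

theorem PP_mean {d : ℕ} (r : ℝ) (hr : 1 < r) (α : Fin d → ℝ) (j : Fin d) (z : Fin d → ℝ) (s : ℝ) :
    (2 * π)⁻¹ * ∫ t in (0:ℝ)..(2 * π), Fr r α (Function.update z j (t - s)) = PP r α j z := by
  have h1 : ∀ t : ℝ, Fr r α (Function.update z j (t - s)) = F1 r (α j) (t - s) * PP r α j z := by
    intro t
    rw [Fr_split r α j, PP_upd, Function.update_self]
  simp only [h1]
  rw [intervalIntegral.integral_mul_const, ← mul_assoc, F1_mean r hr, one_mul]

theorem Fr_refl {d : ℕ} (r : ℝ) (hr : 1 < r) (α : Fin d → ℝ) (j : Fin d) (z : Fin d → ℝ)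
    (hc : Real.cos (α j * π / 2) ≠ 0) :
    Fr r (Function.update α j 0) z = (1 - 1 / Real.cos (α j * π / 2)) * PP r α j z +
      (1 / (2 * Real.cos (α j * π / 2))) * (Fr r α z + Fr r α (Function.update z j (- z j))) := by
  rw [Fr_split r (Function.update α j 0) j, PP_upd', Function.update_self,
    F1_refl r hr (α j) (z j) hc, Fr_split r α j z, Fr_split r α j (Function.update z j (- z j)),
    PP_upd, Function.update_self]
  ring

theorem rf_rf {d : ℕ} (j : Fin d) : Function.Involutive (rf j) := by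
  intro x
  unfold rf
  funext i
  by_cases h : i = j
  · subst h
    simp
  · simp [Function.update_of_ne h]

theorem rf_emb {d : ℕ} (j : Fin d) : MeasurableEmbedding (rf j) :=
  (MeasurableEquiv.ofInvolutive (rf j) (rf_rf j) (rf_mp j).measurable).measurableEmbedding

theorem upd_sub {d : ℕ} (j : Fin d) (x y : Fin d → ℝ) (t : ℝ) :
    Function.update (x - y) j (t - y j) = Function.update x j t - y := by
  funext i
  by_cases h : i = j
  · subst h; simp
  · simp [Function.update_of_ne h]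

theorem upd_neg {d : ℕ} (j : Fin d) (x y : Fin d → ℝ) :
    Function.update (x - y) j (-(x - y) j) = rf j x - rf j y := by
  unfold rf
  funext i
  by_cases h : i = j
  · subst h; simp
  · simp [Function.update_of_ne h]

noncomputable def cv {d : ℕ} (r : ℝ) (α : Fin d → ℝ) (φ : (Fin d → ℝ) → ℂ) (x : Fin d → ℝ) : ℂ :=
  ∫ y, Fr r α (x - y) • φ y ∂(TP d)

theorem kint {d : ℕ} (φ : (Fin d → ℝ) → ℂ) (hφ : Integrable φ (TP d)) (K : (Fin d → ℝ) → ℝ)
    (hK : Continuous K) (B : ℝ) (hB : ∀ x, |K x| ≤ B) :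
    Integrable (fun y => K y • φ y) (TP d) :=
  hφ.bdd_smul B hK.aestronglyMeasurable (Filter.Eventually.of_forall hB)

theorem rf_cont {d : ℕ} (j : Fin d) : Continuous (rf j) :=
  continuous_id.update j (continuous_const.sub (continuous_apply j))

theorem PP_cont {d : ℕ} (r : ℝ) (hr : 1 < r) (α : Fin d → ℝ) (j : Fin d)
    (hF : Continuous (Fr r α)) : Continuous (PP r α j) := by
  have h1 : PP r α j = fun z => (2 * π)⁻¹ * ∫ t in (0:ℝ)..(2 * π),
      Fr r α (Function.update z j (t - 0)) := by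
    funext z
    exact (PP_mean r hr α j z 0).symm
  rw [h1]
  refine continuous_const.mul ?_
  refine intervalIntegral.continuous_parametric_intervalIntegral_of_continuous' ?_ _ _
  exact hF.comp (continuous_fst.update j (continuous_snd.sub continuous_const))

theorem PP_bdd {d : ℕ} (r : ℝ) (hr : 1 < r) (α : Fin d → ℝ) (j : Fin d)
    (B : ℝ) (hB : ∀ z, |Fr r α z| ≤ B) (z : Fin d → ℝ) : |PP r α j z| ≤ B := by
  rw [← PP_mean r hr α j z 0, abs_mul]
  have h1 : ‖∫ t in (0:ℝ)..(2 * π), Fr r α (Function.update z j (t - 0))‖ ≤ B * |2 * π - 0| :=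
    intervalIntegral.norm_integral_le_of_norm_le_const (fun t _ => hB _)
  have h2 : 0 < 2 * π := by positivity
  rw [Real.norm_eq_abs, sub_zero, abs_of_pos h2] at h1
  rw [abs_of_pos (inv_pos.2 h2)]
  calc (2 * π)⁻¹ * |∫ t in (0:ℝ)..(2 * π), Fr r α (Function.update z j (t - 0))|
      ≤ (2 * π)⁻¹ * (B * (2 * π)) := by gcongr
    _ = B := by field_simp

theorem cv_avg {d : ℕ} (r : ℝ) (hr : 1 < r) (α : Fin d → ℝ) (j : Fin d)
    (hF : Continuous (Fr r α)) (B : ℝ) (hB : ∀ z, |Fr r α z| ≤ B)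
    (φ : (Fin d → ℝ) → ℂ) (hφ : Integrable φ (TP d)) (x : Fin d → ℝ) :
    ∫ y, PP r α j (x - y) • φ y ∂(TP d) =
      (2 * π)⁻¹ • ∫ t in (0:ℝ)..(2 * π), cv r α φ (Function.update x j t) := by
  have := TP_prob d
  have h0 : (0:ℝ) ≤ 2 * π := by positivity
  have h1 : ∀ y, PP r α j (x - y) • φ y =
      (2 * π)⁻¹ • ∫ t in Set.Ioc (0:ℝ) (2 * π), Fr r α (Function.update x j t - y) • φ y := by
    intro y
    rw [← PP_mean r hr α j (x - y) (y j)]
    simp only [upd_sub]
    rw [intervalIntegral.integral_of_le h0, mul_smul, integral_smul_const]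
  simp only [h1]
  rw [integral_smul, intervalIntegral.integral_of_le h0]
  congr 1
  rw [integral_integral_swap]
  · rfl
  · have h2 : Integrable (fun p : (Fin d → ℝ) × ℝ => φ p.1)
        ((TP d).prod (volume.restrict (Set.Ioc (0:ℝ) (2 * π)))) := hφ.comp_fst _
    have h3 : Continuous (fun p : (Fin d → ℝ) × ℝ => Fr r α (Function.update x j p.2 - p.1)) :=
      hF.comp ((continuous_const.update j continuous_snd).sub continuous_fst)
    exact h2.bdd_smul B h3.aestronglyMeasurable (Filter.Eventually.of_forall fun p => hB _)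

theorem cv_refl {d : ℕ} (r : ℝ) (hr : 1 < r) (α : Fin d → ℝ) (j : Fin d)
    (hc : Real.cos (α j * π / 2) ≠ 0)
    (hF : Continuous (Fr r α)) (B : ℝ) (hB : ∀ z, |Fr r α z| ≤ B)
    (φ : (Fin d → ℝ) → ℂ) (hφ : Integrable φ (TP d)) (x : Fin d → ℝ) :
    cv r (Function.update α j 0) φ x = (1 - 1 / Real.cos (α j * π / 2)) •
        ((2 * π)⁻¹ • ∫ t in (0:ℝ)..(2 * π), cv r α φ (Function.update x j t)) +
      (1 / (2 * Real.cos (α j * π / 2))) • (cv r α φ x + cv r α (φ ∘ rf j) (rf j x)) := by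
  rw [← cv_avg r hr α j hF B hB φ hφ x]
  have h1 : ∀ y, Fr r (Function.update α j 0) (x - y) • φ y =
      (1 - 1 / Real.cos (α j * π / 2)) • (PP r α j (x - y) • φ y) +
      (1 / (2 * Real.cos (α j * π / 2))) • (Fr r α (x - y) • φ y +
        Fr r α (rf j x - rf j y) • φ y) := by
    intro y
    rw [Fr_refl r hr α j (x - y) hc, upd_neg]
    rw [add_smul, mul_smul, mul_smul, add_smul]
  have i1 : Integrable (fun y => PP r α j (x - y) • φ y) (TP d) :=
    kint φ hφ (fun y => PP r α j (x - y))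
      ((PP_cont r hr α j hF).comp (continuous_const.sub continuous_id)) B
      (fun y => PP_bdd r hr α j B hB _)
  have i2 : Integrable (fun y => Fr r α (x - y) • φ y) (TP d) :=
    kint φ hφ (fun y => Fr r α (x - y)) (hF.comp (continuous_const.sub continuous_id)) B
      (fun y => hB _)
  have i3 : Integrable (fun y => Fr r α (rf j x - rf j y) • φ y) (TP d) :=
    kint φ hφ (fun y => Fr r α (rf j x - rf j y))
      (hF.comp (continuous_const.sub (rf_cont j))) B (fun y => hB _)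
  have h2 : cv r (Function.update α j 0) φ x =
      (1 - 1 / Real.cos (α j * π / 2)) • (∫ y, PP r α j (x - y) • φ y ∂(TP d)) +
      (1 / (2 * Real.cos (α j * π / 2))) • ((∫ y, Fr r α (x - y) • φ y ∂(TP d)) +
        ∫ y, Fr r α (rf j x - rf j y) • φ y ∂(TP d)) := by
    have i4 : Integrable (fun y => (1 - 1 / Real.cos (α j * π / 2)) • (PP r α j (x - y) • φ y))
        (TP d) := i1.smul (1 - 1 / Real.cos (α j * π / 2))
    have i5 : Integrable (fun y => (1 / (2 * Real.cos (α j * π / 2))) •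
        (Fr r α (x - y) • φ y + Fr r α (rf j x - rf j y) • φ y)) (TP d) :=
      (i2.add i3).smul (1 / (2 * Real.cos (α j * π / 2)))
    unfold cv
    simp only [h1]
    rw [integral_add i4 i5, integral_smul, integral_smul, integral_add i2 i3]
  have h3 : ∫ y, Fr r α (rf j x - rf j y) • φ y ∂(TP d) = cv r α (φ ∘ rf j) (rf j x) := by
    have h4 := (rf_mp j).integral_comp (rf_emb j)
      (fun y => Fr r α (rf j x - y) • (φ ∘ rf j) y)
    unfold cv
    rw [← h4]
    refine integral_congr_ae (Filter.Eventually.of_forall fun y => ?_)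
    simp only [Function.comp_apply, rf_rf j y]
  rw [h2, h3]
  rfl

theorem refl_step (d : ℕ) (r : ℝ) (hr : 1 < r) (α : Fin d → ℝ) (j : Fin d)
    (hα : Real.cos (α j * π / 2) ≠ 0) :
    ∃ M : ℝ, 0 < M ∧ ∀ (k : ℕ) (ε : ℝ), 0 < ε → Cov ⊤ k (ENNReal.ofReal ε) (MW ℂ d r 1 α) →
      Cov ⊤ (2 * k) (ENNReal.ofReal (M * ε)) (MW ℂ d r 1 (Function.update α j 0)) := by
  obtain ⟨hF, B, hB0, hB, hconv⟩ := conv_facts (𝕜 := ℂ) r hr α
  set c : ℝ := Real.cos (α j * π / 2) with hcdef
  have hpi : 0 < 2 * π := by positivity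
  refine ⟨2 * |1 - 1 / c| + 4 * |1 / (2 * c)| + 1, by positivity, ?_⟩
  intro k ε hε hcov
  obtain ⟨φc, hφc, hcen⟩ := cov_centres r hr α k ε hε hcov
  have hpow : 2 ^ (2 * k) = 2 ^ k * 2 ^ k := by rw [two_mul, pow_add]
  let e : Fin (2 ^ (2 * k)) ≃ Fin (2 ^ k) × Fin (2 ^ k) :=
    (finCongr hpow).trans finProdFinEquiv.symm
  let C : Fin (2 ^ k) × Fin (2 ^ k) → (Fin d → ℝ) → ℂ := fun p x =>
    (1 - 1 / c) • ((2 * π)⁻¹ • ∫ t in (0:ℝ)..(2 * π), cv r α (φc p.1) (Function.update x j t)) +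
      (1 / (2 * c)) • (cv r α (φc p.1) x + cv r α (φc p.2) (rf j x))
  have hcvc : ∀ φ : (Fin d → ℝ) → ℂ, Integrable φ (TP d) → Continuous (cv r α φ) :=
    fun φ hφ => (hconv φ hφ).1
  have hcvb : ∀ φ : (Fin d → ℝ) → ℂ, Integrable φ (TP d) → ∫ x, ‖φ x‖ ∂(TP d) ≤ 1 →
      ∀ x, ‖cv r α φ x‖ ≤ B := by
    intro φ hφ h1 x
    have h2 := (hconv φ hφ).2 x
    have h3 : B * ∫ y, ‖φ y‖ ∂(TP d) ≤ B := mul_le_of_le_one_right hB0.le h1
    exact h2.trans h3
  have havg : ∀ (g : (Fin d → ℝ) → ℂ) (E : ℝ), (∀ x, ‖g x‖ ≤ E) → ∀ x,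
      ‖(2 * π)⁻¹ • ∫ t in (0:ℝ)..(2 * π), g (Function.update x j t)‖ ≤ E := by
    intro g E hg x
    have h1 : ‖∫ t in (0:ℝ)..(2 * π), g (Function.update x j t)‖ ≤ E * |2 * π - 0| :=
      intervalIntegral.norm_integral_le_of_norm_le_const (fun t _ => hg _)
    rw [sub_zero, abs_of_pos hpi] at h1
    rw [norm_smul, Real.norm_eq_abs, abs_of_pos (inv_pos.2 hpi)]
    calc (2 * π)⁻¹ * ‖∫ t in (0:ℝ)..(2 * π), g (Function.update x j t)‖
        ≤ (2 * π)⁻¹ * (E * (2 * π)) := by gcongr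
      _ = E := by field_simp
  refine ⟨fun i => C (e i), ?_, ?_⟩
  · intro i
    have h1 := hcvc _ (hφc (e i).1).1
    have h2 := hcvc _ (hφc (e i).2).1
    have hCc : Continuous (C (e i)) := by
      have hA : Continuous (fun x : Fin d → ℝ =>
          ∫ t in (0:ℝ)..(2 * π), cv r α (φc (e i).1) (Function.update x j t)) := by
        refine intervalIntegral.continuous_parametric_intervalIntegral_of_continuous' ?_ _ _
        exact h1.comp (continuous_fst.update j continuous_snd)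
      have hA2 : Continuous (fun x : Fin d → ℝ => (1 - 1 / c) • ((2 * π)⁻¹ •
          ∫ t in (0:ℝ)..(2 * π), cv r α (φc (e i).1) (Function.update x j t))) :=
        (hA.const_smul (2 * π)⁻¹).const_smul (1 - 1 / c)
      have hB1 : Continuous (fun x : Fin d → ℝ =>
          cv r α (φc (e i).1) x + cv r α (φc (e i).2) (rf j x)) :=
        h1.add (h2.comp (rf_cont j))
      have hB2 : Continuous (fun x : Fin d → ℝ => (1 / (2 * c)) •
          (cv r α (φc (e i).1) x + cv r α (φc (e i).2) (rf j x))) := hB1.const_smul (1 / (2 * c))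
      exact hA2.add hB2
    refine memLp_top_of_bound hCc.aestronglyMeasurable
      (|1 - 1 / c| * B + |1 / (2 * c)| * (B + B)) (Filter.Eventually.of_forall fun x => ?_)
    have h3 := havg _ B (hcvb _ (hφc (e i).1).1 (hφc (e i).1).2) x
    have h4 := hcvb _ (hφc (e i).1).1 (hφc (e i).1).2 x
    have h5 := hcvb _ (hφc (e i).2).1 (hφc (e i).2).2 (rf j x)
    refine (norm_add_le _ _).trans ?_
    rw [norm_smul, norm_smul (1 / (2 * c)), Real.norm_eq_abs, Real.norm_eq_abs]
    have h6 := (norm_add_le (cv r α (φc (e i).1) x) (cv r α (φc (e i).2) (rf j x)))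
    have h7 : ‖cv r α (φc (e i).1) x + cv r α (φc (e i).2) (rf j x)‖ ≤ B + B := by linarith
    gcongr
  · rintro f ⟨φ, hφ1, hφ2, rfl⟩
    have hφ : Integrable φ (TP d) := memLp_one_iff_integrable.1 hφ1
    have hφn : ∫ x, ‖φ x‖ ∂(TP d) ≤ 1 := by
      rw [integral_norm_eq_lintegral_enorm hφ.aestronglyMeasurable,
        ← eLpNorm_one_eq_lintegral_enorm]
      exact ENNReal.toReal_le_of_le_ofReal zero_le_one (by simpa using hφ2)
    have hφ' : Integrable (φ ∘ rf j) (TP d) := ((rf_mp j).integrable_comp_emb (rf_emb j)).2 hφ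
    have hφn' : ∫ x, ‖(φ ∘ rf j) x‖ ∂(TP d) ≤ 1 := by
      have h1 := (rf_mp j).integral_comp (rf_emb j) (fun y => ‖φ y‖)
      exact h1.trans_le hφn
    obtain ⟨i, hi⟩ := hcen φ hφ hφn
    obtain ⟨i', hi'⟩ := hcen (φ ∘ rf j) hφ' hφn'
    refine ⟨e.symm (i, i'), ?_⟩
    simp only [Equiv.apply_symm_apply]
    rw [eLpNorm_exponent_top]
    refine eLpNormEssSup_le_of_ae_bound (Filter.Eventually.of_forall fun x => ?_)
    have hi1 : ∀ x, ‖cv r α φ x - cv r α (φc i) x‖ ≤ 2 * ε := hi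
    have hi2 : ∀ x, ‖cv r α (φ ∘ rf j) x - cv r α (φc i') x‖ ≤ 2 * ε := hi'
    have h1 : (∫ y, Fr r (Function.update α j 0) (x - y) • φ y ∂(TP d)) =
      (1 - 1 / c) •
        ((2 * π)⁻¹ • ∫ t in (0:ℝ)..(2 * π), cv r α φ (Function.update x j t)) +
      (1 / (2 * c)) • (cv r α φ x + cv r α (φ ∘ rf j) (rf j x)) :=
      cv_refl r hr α j hα hF B hB φ hφ x
    have hint : ∀ φ : (Fin d → ℝ) → ℂ, Integrable φ (TP d) →
        IntervalIntegrable (fun t => cv r α φ (Function.update x j t)) volume 0 (2 * π) := by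
      intro φ hφ
      exact ((hcvc φ hφ).comp (continuous_const.update j continuous_id)).intervalIntegrable _ _
    have h2 : (∫ y, Fr r (Function.update α j 0) (x - y) • φ y ∂(TP d)) - C (i, i') x =
      (1 - 1 / c) • ((2 * π)⁻¹ • ∫ t in (0:ℝ)..(2 * π),
        (fun y => cv r α φ y - cv r α (φc i) y) (Function.update x j t)) +
      (1 / (2 * c)) • ((cv r α φ x - cv r α (φc i) x) +
        (cv r α (φ ∘ rf j) (rf j x) - cv r α (φc i') (rf j x))) := by
      have h3 : ∫ t in (0:ℝ)..(2 * π),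
          (fun y => cv r α φ y - cv r α (φc i) y) (Function.update x j t) =
          (∫ t in (0:ℝ)..(2 * π), cv r α φ (Function.update x j t)) -
          ∫ t in (0:ℝ)..(2 * π), cv r α (φc i) (Function.update x j t) :=
        intervalIntegral.integral_sub (hint φ hφ) (hint _ (hφc i).1)
      rw [h1, h3]
      change _ - ((1 - 1 / c) • ((2 * π)⁻¹ •
        ∫ t in (0:ℝ)..(2 * π), cv r α (φc i) (Function.update x j t)) +
        (1 / (2 * c)) • (cv r α (φc i) x + cv r α (φc i') (rf j x))) = _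
      module
    rw [h2]
    have h4 := havg (fun y => cv r α φ y - cv r α (φc i) y) (2 * ε) hi1 x
    have h5 := hi1 x
    have h6 := hi2 (rf j x)
    refine (norm_add_le _ _).trans ?_
    rw [norm_smul, norm_smul (1 / (2 * c)), Real.norm_eq_abs, Real.norm_eq_abs]
    have h7 : ‖(cv r α φ x - cv r α (φc i) x) +
        (cv r α (φ ∘ rf j) (rf j x) - cv r α (φc i') (rf j x))‖ ≤ 2 * ε + 2 * ε :=
      (norm_add_le _ _).trans (add_le_add h5 h6)
    calc |1 - 1 / c| * ‖(2 * π)⁻¹ • ∫ t in (0:ℝ)..(2 * π),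
          (fun y => cv r α φ y - cv r α (φc i) y) (Function.update x j t)‖ +
        |1 / (2 * c)| * ‖(cv r α φ x - cv r α (φc i) x) +
          (cv r α (φ ∘ rf j) (rf j x) - cv r α (φc i') (rf j x))‖
        ≤ |1 - 1 / c| * (2 * ε) + |1 / (2 * c)| * (2 * ε + 2 * ε) := by gcongr
      _ ≤ (2 * |1 - 1 / c| + 4 * |1 / (2 * c)| + 1) * ε := by nlinarith

end Sol_EX_refl_step

alias refl_step := Sol_EX_refl_step.refl_step

end HypVol
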