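import Pool.Agent.EntX.Defs
import Pool.Agent.EntX.L_refl_step
open MeasureTheory Real ProbabilityTheory
open scoped ENNReal BigOperators

namespace HypVol
namespace Sol_EX_refl_all

theorem refl_all (d : ℕ) (r : ℝ) (hr : 1 < r) (α : Fin d → ℝ) (hα : ∀ j, Real.cos (α j * π / 2) ≠ 0) :
    ∃ M : ℝ, 0 < M ∧ ∀ (k : ℕ) (ε : ℝ), 0 < ε → Cov ⊤ k (ENNReal.ofReal ε) (MW ℂ d r 1 α) →
      Cov ⊤ (2^d * k) (ENNReal.ofReal (M * ε)) (MW ℂ d r 1 (fun _ => 0)) := by
  classical
  have key : ∀ T : Finset (Fin d), ∃ M : ℝ, 0 < M ∧ ∀ (k : ℕ) (ε : ℝ), 0 < ε →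
      Cov ⊤ k (ENNReal.ofReal ε) (MW ℂ d r 1 α) →
      Cov ⊤ (2^T.card * k) (ENNReal.ofReal (M * ε))
        (MW ℂ d r 1 (fun i => if i ∈ T then 0 else α i)) := by
    intro T
    induction T using Finset.induction_on with
    | empty =>
      refine ⟨1, one_pos, ?_⟩
      intro k ε hε h
      simpa using h
    | insert j T hj ih =>
      obtain ⟨M, hM, h1⟩ := ih
      obtain ⟨M', hM', h2⟩ := refl_step d r hr (fun i => if i ∈ T then 0 else α i) j
        (by simpa [hj] using hα j)
      refine ⟨M' * M, mul_pos hM' hM, ?_⟩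
      intro k ε hε h
      have h3 := h2 (2^T.card * k) (M * ε) (mul_pos hM hε) (h1 k ε hε h)
      have e1 : Function.update (fun i => if i ∈ T then (0:ℝ) else α i) j 0
          = fun i => if i ∈ insert j T then (0:ℝ) else α i := by
        funext i
        by_cases hij : i = j
        · subst hij; simp
        · simp [Function.update_of_ne hij, Finset.mem_insert, hij]
      rw [e1] at h3
      rw [Finset.card_insert_of_notMem hj, pow_succ, mul_assoc M' M ε,
        show 2 ^ T.card * 2 * k = 2 * (2 ^ T.card * k) by ring]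
      exact h3
  obtain ⟨M, hM, h⟩ := key Finset.univ
  refine ⟨M, hM, ?_⟩
  intro k ε hε hc
  have := h k ε hε hc
  simpa using this

end Sol_EX_refl_all

alias refl_all := Sol_EX_refl_all.refl_all

end HypVol
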