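import Pool.Agent.EntX.Defs
import Pool.Agent.EntX.L_refl_all
import Pool.Agent.EntX.L_cover_pos
import Pool.Agent.EntX.L_ent_num2
open MeasureTheory Real ProbabilityTheory
open scoped ENNReal BigOperators

namespace HypVol
namespace Sol_EX_L1inf_lower

theorem L1inf_lower (d : ℕ) (hd : 3 ≤ d) (r : ℝ) (hr : 1 < r) (α : Fin d → ℝ)
    (hα : ∀ j, Real.cos (α j * π / 2) ≠ 0) :
    ∃ c : ℝ, 0 < c ∧ ∀ (k : ℕ) (ε : ℝ), 2 ≤ k → 0 < ε →
      Cov ⊤ k (ENNReal.ofReal ε) (MW ℂ d r 1 α) → c * RkS d r 2 k ≤ ε := by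
  obtain ⟨M, hM, hrefl⟩ := refl_all d r hr α hα
  obtain ⟨c0, hc0, hcov⟩ := cover_pos d hd r hr
  obtain ⟨c1, hc1, hent⟩ := ent_num2 d hd r c0 hr hc0
  have h2 : (0:ℝ) < (2:ℝ)^(-((d:ℝ) * r)) := Real.rpow_pos_of_pos two_pos _
  refine ⟨c1 * (2:ℝ)^(-((d:ℝ) * r)) / M, by positivity, fun k ε hk hε hC => ?_⟩
  have hK : 2 ≤ 2 ^ d * k := by
    calc 2 ≤ k := hk
      _ = 1 * k := (one_mul k).symm
      _ ≤ 2 ^ d * k := Nat.mul_le_mul_right k (Nat.one_le_two_pow)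
  obtain ⟨n, hn, hle⟩ := hent (2 ^ d * k) hK
  have h3 := hcov n (2 ^ d * k) (M * ε) hn (by positivity) (hrefl k ε hε hC)
  have h4 : c1 * RkS d r 2 (2 ^ d * k) ≤ M * ε := hle.trans h3
  have hk0 : (0:ℝ) < (k:ℝ) := by exact_mod_cast (by omega : 0 < k)
  have hk1 : (1:ℝ) ≤ (k:ℝ) := by exact_mod_cast (by omega : 1 ≤ k)
  have h5 : (2:ℝ)^(-((d:ℝ) * r)) * RkS d r 2 k ≤ RkS d r 2 (2 ^ d * k) := by
    unfold RkS
    have e1 : ((2 ^ d * k : ℕ) : ℝ) ^ (-r) = (2:ℝ)^(-((d:ℝ) * r)) * (k:ℝ)^(-r) := by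
      push_cast
      rw [Real.mul_rpow (by positivity) hk0.le, ← Real.rpow_natCast 2 d,
        ← Real.rpow_mul (by norm_num)]
      congr 2
      ring
    rw [e1, ← mul_assoc]
    refine mul_le_mul_of_nonneg_left ?_ (by positivity)
    have hlk : 0 ≤ Real.log k := Real.log_nonneg hk1
    refine Real.rpow_le_rpow hlk ?_ ?_
    · apply Real.log_le_log hk0
      exact_mod_cast Nat.le_mul_of_pos_left k (by positivity)
    · have : (3:ℝ) ≤ d := by exact_mod_cast hd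
      have h6 : 0 ≤ ((d:ℝ) - 1) * r := mul_nonneg (by linarith) (by linarith)
      push_cast
      linarith
  rw [div_mul_eq_mul_div, div_le_iff₀ hM]
  calc c1 * (2:ℝ)^(-((d:ℝ) * r)) * RkS d r 2 k = c1 * ((2:ℝ)^(-((d:ℝ) * r)) * RkS d r 2 k) := by ring
    _ ≤ c1 * RkS d r 2 (2 ^ d * k) := mul_le_mul_of_nonneg_left h5 hc1.le
    _ ≤ M * ε := h4
    _ = ε * M := mul_comm _ _

end Sol_EX_L1inf_lower

alias L1inf_lower := Sol_EX_L1inf_lower.L1inf_lower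

end HypVol
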