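import Pool.Agent.EntX.Defs2
import Pool.Agent.HypVol.L_gam_prob
import Pool.Agent.HypVol.L_gam_mgf
open MeasureTheory Real ProbabilityTheory
open scoped ENNReal BigOperators

namespace HypVol
namespace Sol_EX_gap_good

theorem gap_good {X ι κ : Type} [Fintype X] [Nonempty X] [Fintype ι] [DecidableEq ι] [Fintype κ] [DecidableEq κ]
    (b : ι → X → ℝ) (e : κ → X → ℝ)
    (h2 : ∀ x, ∑ i, b i x ^ 2 = Fintype.card ι)
    (s : ℝ) (hs : 0 < s) (D : ℝ)
    (hZ : (∑ x, ∑ y, (Real.exp (s^2 * ∑ i, b i x * b i y) - 1)) / (Fintype.card X : ℝ)^2 ≤ 1/64)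
    (hD : (∑ x, ∑ y, (∑ k, e k x * e k y) * Real.exp (s^2 * ∑ i, b i x * b i y))
        / (Fintype.card X : ℝ)^2 ≤ D) (hD1 : 1 ≤ D) :
    ∃ G : Set (ι → ℝ), MeasurableSet G ∧ (1/2 : ℝ≥0∞) ≤ gam ι s G ∧ ∀ u ∈ G,
      (1/2 : ℝ) ≤ Zf b u / (Fintype.card X * Real.exp (s^2 * Fintype.card ι / 2)) ∧
      Zf b u / (Fintype.card X * Real.exp (s^2 * Fintype.card ι / 2)) ≤ 2 ∧
      ∑ k, ((∑ x, ex b u x * e k x) / Zf b u)^2 ≤ 32 * D := by
  classical
  haveI := gam_prob ι s
  have hM : (0:ℝ) < Fintype.card X := by exact_mod_cast Fintype.card_pos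
  obtain ⟨M, hMdef⟩ : ∃ M : ℝ, M = (Fintype.card X : ℝ) := ⟨_, rfl⟩
  obtain ⟨c0, hc0⟩ : ∃ c0 : ℝ, c0 = Real.exp (s^2 * Fintype.card ι / 2) := ⟨_, rfl⟩
  have hc0p : 0 < c0 := by rw [hc0]; exact Real.exp_pos _
  rw [← hMdef] at hZ hD hM
  rw [← hMdef, ← hc0]
  obtain ⟨Kx, hKx⟩ : ∃ Kx : X → X → ℝ, Kx = fun x y => Real.exp (s^2 * ∑ i, b i x * b i y) := ⟨_, rfl⟩
  have hKxa : ∀ x y, Real.exp (s^2 * ∑ i, b i x * b i y) = Kx x y := fun x y => by rw [hKx]
  simp only [hKxa] at hZ hD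
  have hex2 : ∀ (u : ι → ℝ) (x y : X), ex b u x * ex b u y =
      Real.exp (∑ i, u i * (b i x + b i y)) := by
    intro u x y
    unfold ex
    rw [← Real.exp_add, ← Finset.sum_add_distrib]
    congr 1
    refine Finset.sum_congr rfl (fun i _ => ?_)
    ring
  have hexp2 : ∀ x y, Real.exp (s^2 * (∑ i, (b i x + b i y)^2) / 2) = c0^2 * Kx x y := by
    intro x y
    rw [← hKxa, hc0, ← Real.exp_nat_mul, ← Real.exp_add]
    congr 1
    have h3 : ∑ i, (b i x + b i y)^2 = 2 * Fintype.card ι + 2 * ∑ i, b i x * b i y := by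
      have h4 : ∑ i, (b i x + b i y)^2 = ∑ i, b i x ^ 2 + ∑ i, b i y ^ 2 + 2 * ∑ i, b i x * b i y := by
        rw [Finset.mul_sum, ← Finset.sum_add_distrib, ← Finset.sum_add_distrib]
        refine Finset.sum_congr rfl (fun i _ => ?_)
        ring
      rw [h4, h2, h2]
      ring
    rw [h3]
    push_cast
    ring
  have int1 : ∀ (p : X → ℝ), Integrable (fun u => ∑ x, ex b u x * p x) (gam ι s) ∧
      ∫ u, ∑ x, ex b u x * p x ∂(gam ι s) = c0 * ∑ x, p x := by
    intro p
    have h3 : ∀ x, Integrable (fun u => ex b u x) (gam ι s) ∧ ∫ u, ex b u x ∂(gam ι s) = c0 := by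
      intro x
      have h4 := gam_mgf s (fun i => b i x)
      refine ⟨h4.1, ?_⟩
      have h5 := h4.2
      rw [h2, ← hc0] at h5
      exact h5
    refine ⟨integrable_finset_sum _ (fun x _ => (h3 x).1.mul_const _), ?_⟩
    rw [integral_finset_sum _ (fun x _ => (h3 x).1.mul_const _), Finset.mul_sum]
    refine Finset.sum_congr rfl (fun x _ => ?_)
    rw [integral_mul_const, (h3 x).2]
  have int2 : ∀ (p q : X → ℝ),
      Integrable (fun u => (∑ x, ex b u x * p x) * (∑ y, ex b u y * q y)) (gam ι s) ∧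
      ∫ u, (∑ x, ex b u x * p x) * (∑ y, ex b u y * q y) ∂(gam ι s) =
        c0^2 * ∑ x, ∑ y, p x * q y * Kx x y := by
    intro p q
    have h3 : ∀ x y, Integrable (fun u => ex b u x * ex b u y) (gam ι s) ∧
        ∫ u, ex b u x * ex b u y ∂(gam ι s) = c0^2 * Kx x y := by
      intro x y
      have h4 := gam_mgf s (fun i => b i x + b i y)
      simp only [hex2]
      exact ⟨h4.1, h4.2.trans (hexp2 x y)⟩
    have h5 : ∀ u : ι → ℝ, (∑ x, ex b u x * p x) * (∑ y, ex b u y * q y) =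
        ∑ x, ∑ y, (ex b u x * ex b u y) * (p x * q y) := by
      intro u
      rw [Finset.sum_mul_sum]
      refine Finset.sum_congr rfl (fun x _ => Finset.sum_congr rfl (fun y _ => ?_))
      ring
    simp only [h5]
    have h6 : ∀ x y, Integrable (fun u => (ex b u x * ex b u y) * (p x * q y)) (gam ι s) :=
      fun x y => (h3 x y).1.mul_const _
    refine ⟨integrable_finset_sum _ (fun x _ => integrable_finset_sum _ (fun y _ => h6 x y)), ?_⟩
    rw [integral_finset_sum _ (fun x _ => integrable_finset_sum _ (fun y _ => h6 x y)), Finset.mul_sum]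
    refine Finset.sum_congr rfl (fun x _ => ?_)
    rw [integral_finset_sum _ (fun y _ => h6 x y), Finset.mul_sum]
    refine Finset.sum_congr rfl (fun y _ => ?_)
    rw [integral_mul_const, (h3 x y).2]
    ring
  have hZf : ∀ u : ι → ℝ, Zf b u = ∑ x, ex b u x * (1:ℝ) := by
    intro u; unfold Zf; simp
  have hZ1 := int1 (fun _ => (1:ℝ))
  have hZ2 := int2 (fun _ => (1:ℝ)) (fun _ => (1:ℝ))
  simp only [← hZf] at hZ1 hZ2
  have hcard : ∑ _x : X, (1:ℝ) = M := by rw [hMdef]; simp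
  rw [hcard] at hZ1
  
  obtain ⟨f1, hf1⟩ : ∃ f1 : (ι → ℝ) → ℝ, f1 = fun u => (Zf b u / (M * c0) - 1)^2 := ⟨_, rfl⟩
  have hf1e : ∀ u, f1 u = (Zf b u * Zf b u) * (1 / (M * c0)^2) - Zf b u * (2 / (M * c0)) + 1 := by
    intro u
    rw [hf1]
    simp only
    have : M * c0 ≠ 0 := by positivity
    field_simp
    ring
  have hf1i : Integrable f1 (gam ι s) := by
    have h3 : f1 = fun u => (Zf b u * Zf b u) * (1 / (M * c0)^2) - Zf b u * (2 / (M * c0)) + 1 := by
      funext u; exact hf1e u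
    rw [h3]
    exact ((hZ2.1.mul_const _).sub (hZ1.1.mul_const _)).add (integrable_const _)
  have hf1int : ∫ u, f1 u ∂(gam ι s) ≤ 1/64 := by
    have h3 : ∫ u, f1 u ∂(gam ι s) = (c0^2 * ∑ x, ∑ y, 1 * 1 * Kx x y) * (1 / (M * c0)^2) -
        (c0 * M) * (2 / (M * c0)) + 1 := by
      simp only [hf1e]
      have hA : Integrable (fun u => Zf b u * Zf b u * (1 / (M * c0)^2)) (gam ι s) :=
        hZ2.1.mul_const _
      have hB : Integrable (fun u => Zf b u * (2 / (M * c0))) (gam ι s) := hZ1.1.mul_const _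
      have hAB : Integrable (fun u => Zf b u * Zf b u * (1 / (M * c0)^2) -
        Zf b u * (2 / (M * c0))) (gam ι s) := hA.sub hB
      rw [integral_add hAB (integrable_const _), integral_sub hA hB, integral_mul_const,
        integral_mul_const, hZ2.2, hZ1.2]
      simp
    rw [h3]
    have h4 : (∑ x : X, ∑ y : X, (Kx x y - 1)) = (∑ x, ∑ y, 1 * 1 * Kx x y) - M^2 := by
      simp only [Finset.sum_sub_distrib, one_mul]
      congr 1
      simp only [Finset.sum_const, Finset.card_univ, nsmul_eq_mul, mul_one]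
      rw [hMdef]; ring
    rw [h4] at hZ
    refine le_trans (le_of_eq ?_) hZ
    field_simp
    ring
  have hf1n : ∀ u, 0 ≤ f1 u := by
    intro u; rw [hf1]; exact sq_nonneg _
  
  obtain ⟨f2, hf2⟩ : ∃ f2 : (ι → ℝ) → ℝ, f2 = fun u =>
      ∑ k, ((∑ x, ex b u x * e k x) * (∑ x, ex b u x * e k x)) * (1 / (M * c0)^2) := ⟨_, rfl⟩
  have hf2i : Integrable f2 (gam ι s) := by
    rw [hf2]
    exact integrable_finset_sum _ (fun k _ => (int2 (e k) (e k)).1.mul_const _)
  have hf2int : ∫ u, f2 u ∂(gam ι s) ≤ D := by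
    rw [hf2]
    simp only
    rw [integral_finset_sum _ (fun k _ => (int2 (e k) (e k)).1.mul_const _)]
    refine le_trans (le_of_eq ?_) hD
    simp only [integral_mul_const, (int2 _ _).2]
    have h3 : ∀ k, c0 ^ 2 * (∑ x, ∑ y, e k x * e k y * Kx x y) * (1 / (M * c0) ^ 2) =
        (∑ x, ∑ y, e k x * e k y * Kx x y) / M ^ 2 := by
      intro k
      field_simp
    simp only [h3]
    rw [← Finset.sum_div, Finset.sum_comm]
    congr 1
    refine Finset.sum_congr rfl (fun x _ => ?_)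
    rw [Finset.sum_comm]
    refine Finset.sum_congr rfl (fun y _ => ?_)
    rw [Finset.sum_mul]
  have hf2n : ∀ u, 0 ≤ f2 u := by
    intro u; rw [hf2]
    exact Finset.sum_nonneg (fun k _ => mul_nonneg (mul_self_nonneg _) (by positivity))
  have hexc : ∀ x, Continuous (fun u : ι → ℝ => ex b u x) := by
    intro x; unfold ex; fun_prop
  have hf1c : Continuous f1 := by
    rw [hf1]; unfold Zf
    have := hexc
    fun_prop
  have hf2c : Continuous f2 := by
    rw [hf2]
    have := hexc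
    fun_prop
  have hm1 := mul_meas_ge_le_integral_of_nonneg (μ := gam ι s) (Filter.Eventually.of_forall hf1n) hf1i (1/4)
  have hm2 := mul_meas_ge_le_integral_of_nonneg (μ := gam ι s) (Filter.Eventually.of_forall hf2n) hf2i (8 * D)
  obtain ⟨G, hG⟩ : ∃ G : Set (ι → ℝ), G = {u | f1 u ≤ 1/4 ∧ f2 u ≤ 8 * D} := ⟨_, rfl⟩
  have hGm : MeasurableSet G := by
    rw [hG]
    exact (measurableSet_le hf1c.measurable measurable_const).inter
      (measurableSet_le hf2c.measurable measurable_const)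
  refine ⟨G, hGm, ?_, ?_⟩
  · have h3 : (gam ι s).real Gᶜ ≤ (gam ι s).real {x | 1/4 ≤ f1 x} + (gam ι s).real {x | 8 * D ≤ f2 x} := by
      refine le_trans (measureReal_mono ?_) (measureReal_union_le _ _)
      intro u hu
      rw [hG] at hu
      by_contra hcon
      apply hu
      simp only [Set.mem_union, Set.mem_ofPred_eq, not_or, not_le] at hcon
      exact ⟨hcon.1.le, hcon.2.le⟩
    have h4 : (gam ι s).real {x | 1/4 ≤ f1 x} ≤ 1/16 := by linarith
    have h5 : (gam ι s).real {x | 8 * D ≤ f2 x} ≤ 1/8 := by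
      have h6 : 8 * D * (gam ι s).real {x | 8 * D ≤ f2 x} ≤ D := hm2.trans hf2int
      have h7 : D * (8 * (gam ι s).real {x | 8 * D ≤ f2 x}) ≤ D * 1 := by linarith
      have h8 := le_of_mul_le_mul_left h7 (by linarith)
      linarith
    have h6 : (gam ι s).real G = 1 - (gam ι s).real Gᶜ := by
      have := measureReal_compl (μ := gam ι s) hGm
      rw [this]
      simp
    have h7 : (1/2 : ℝ) ≤ (gam ι s).real G := by linarith
    have h8 : gam ι s G = ENNReal.ofReal ((gam ι s).real G) := by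
      rw [Measure.real, ENNReal.ofReal_toReal (measure_ne_top _ _)]
    rw [h8]
    refine le_trans (le_of_eq ?_) (ENNReal.ofReal_le_ofReal h7)
    rw [ENNReal.ofReal_div_of_pos (by norm_num)]
    simp
  · intro u hu
    rw [hG] at hu
    obtain ⟨hu1, hu2⟩ := hu
    obtain ⟨z, hz⟩ : ∃ z : ℝ, z = Zf b u / (M * c0) := ⟨_, rfl⟩
    have hMc : 0 < M * c0 := by positivity
    rw [hf1] at hu1
    simp only at hu1
    rw [← hz] at hu1
    have hz1 : 1/2 ≤ z := by nlinarith
    have hz2 : z ≤ 3/2 := by nlinarith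
    refine ⟨by rw [← hz]; exact hz1, by rw [← hz]; linarith, ?_⟩
    have hZz : Zf b u = z * (M * c0) := by rw [hz]; field_simp
    have hle : ∀ k, ((∑ x, ex b u x * e k x) / Zf b u)^2 ≤
        4 * (((∑ x, ex b u x * e k x) * (∑ x, ex b u x * e k x)) * (1 / (M * c0)^2)) := by
      intro k
      rw [hZz, div_pow, mul_pow]
      have h3 : 1/4 ≤ z^2 := by nlinarith
      rw [div_le_iff₀ (by positivity)]
      have h4 : 4 * (((∑ x, ex b u x * e k x) * (∑ x, ex b u x * e k x)) * (1 / (M * c0)^2)) *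
          (z^2 * (M * c0)^2) = 4 * z^2 * (∑ x, ex b u x * e k x)^2 := by
        field_simp
      rw [h4]
      nlinarith [sq_nonneg (∑ x, ex b u x * e k x)]
    refine (Finset.sum_le_sum (fun k _ => hle k)).trans ?_
    rw [← Finset.mul_sum]
    rw [hf2] at hu2
    simp only at hu2
    linarith

end Sol_EX_gap_good

alias gap_good := Sol_EX_gap_good.gap_good

end HypVol
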