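import Pool.Agent.EntX.Defs2
import Pool.Agent.HypVol.L_gam_prob
import Pool.Agent.HypVol.L_Fm_contDiff
import Pool.Agent.HypVol.L_Fm_det
import Pool.Agent.HypVol.L_Fm_inj
import Pool.Agent.HypVol.L_logdet_Gp
import Pool.Agent.HypVol.L_HS_int
import Pool.Agent.HypVol.L_tail_int
open MeasureTheory Real ProbabilityTheory
open scoped ENNReal BigOperators

namespace HypVol
namespace Sol_EX_gibbs_volG

theorem gvG_one (s : ℝ) (hs : 0 < s) (A : Set ℝ) :
    ENNReal.ofReal (Real.sqrt (2 * π * s ^ 2)) * gaussianReal 0 (Real.toNNReal (s ^ 2)) A ≤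
      volume A := by
  have hs2 : 0 < s ^ 2 := by positivity
  have hv : Real.toNNReal (s ^ 2) ≠ 0 := by
    rw [Ne, Real.toNNReal_eq_zero, not_le]
    exact hs2
  have hvc : ((Real.toNNReal (s ^ 2) : NNReal) : ℝ) = s ^ 2 := Real.coe_toNNReal _ hs2.le
  have hpos : 0 < Real.sqrt (2 * π * s ^ 2) := Real.sqrt_pos.2 (by positivity)
  rw [gaussianReal_apply 0 hv]
  have h1 : ∀ x : ℝ, ENNReal.ofReal (Real.sqrt (2 * π * s ^ 2)) *
      gaussianPDF 0 (Real.toNNReal (s ^ 2)) x ≤ 1 := by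
    intro x
    unfold gaussianPDF gaussianPDFReal
    rw [hvc, ← ENNReal.ofReal_mul hpos.le, ← mul_assoc, mul_inv_cancel₀ hpos.ne', one_mul,
      ENNReal.ofReal_le_one, Real.exp_le_one_iff]
    have h2 : 0 ≤ (x - 0) ^ 2 / (2 * s ^ 2) := by positivity
    rw [neg_div]
    linarith
  calc ENNReal.ofReal (Real.sqrt (2 * π * s ^ 2)) *
        ∫⁻ x in A, gaussianPDF 0 (Real.toNNReal (s ^ 2)) x
      = ∫⁻ x in A, ENNReal.ofReal (Real.sqrt (2 * π * s ^ 2)) *
        gaussianPDF 0 (Real.toNNReal (s ^ 2)) x :=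
        (lintegral_const_mul _ (measurable_gaussianPDF _ _)).symm
    _ ≤ ∫⁻ _ in A, 1 := lintegral_mono (fun x => h1 x)
    _ = volume A := by rw [lintegral_const, Measure.restrict_apply_univ, one_mul]

theorem gvG_gam {ι : Type} [Fintype ι] (s : ℝ) (hs : 0 < s) :
    (ENNReal.ofReal (Real.sqrt (2 * π * s ^ 2)) ^ Fintype.card ι) • gam ι s ≤
      (volume : Measure (ι → ℝ)) := by
  have hle : ((ENNReal.ofReal (Real.sqrt (2 * π * s ^ 2)) ^ Fintype.card ι) •
      gam ι s).toOuterMeasure ≤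
      OuterMeasure.pi (fun _ : ι => (volume : Measure ℝ).toOuterMeasure) := by
    rw [OuterMeasure.le_pi]
    intro A _
    show (ENNReal.ofReal (Real.sqrt (2 * π * s ^ 2)) ^ Fintype.card ι) *
      gam ι s (Set.pi Set.univ A) ≤ ∏ i, volume (A i)
    unfold gam
    rw [Measure.pi_pi, ← Finset.card_univ, ← Finset.prod_const, ← Finset.prod_mul_distrib]
    exact Finset.prod_le_prod' (fun i _ => gvG_one s hs (A i))
  rw [Measure.le_iff]
  intro A hA
  have h1 := hle A
  rw [volume_pi, Measure.pi_def, toMeasure_apply _ _ hA]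
  exact h1

theorem gvG_ofReal {α : Type} [MeasurableSpace α] (μ : Measure α) (h : α → ℝ)
    (hint : Integrable h μ) :
    ENNReal.ofReal (∫ u, h u ∂μ) ≤ ∫⁻ u, ENNReal.ofReal (h u) ∂μ := by
  rw [integral_eq_lintegral_pos_part_sub_lintegral_neg_part hint]
  refine (ENNReal.ofReal_le_ofReal (sub_le_self _ ENNReal.toReal_nonneg)).trans ?_
  exact ENNReal.ofReal_toReal_le

theorem gibbs_volG {X ι : Type} [Fintype X] [Nonempty X] [Fintype ι] [DecidableEq ι] (b : ι → X → ℝ)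
    (h0 : ∀ i, ∑ x, b i x = 0)
    (h1 : ∀ i j, ∑ x, b i x * b j x = if i = j then (Fintype.card X : ℝ) else 0)
    (h2 : ∀ x, ∑ i, b i x ^ 2 = Fintype.card ι) (s : ℝ) (hs : 0 < s) (H : ℝ)
    (hH : (∑ x, ∑ y, (1 + ∑ i, b i x * b i y)^2 * (Real.exp (s^2 * ∑ i, b i x * b i y) - 1))
        / (Fintype.card X : ℝ)^2 ≤ H)
    (G : Set (ι → ℝ)) (hG : MeasurableSet G) (hG1 : (1/2 : ℝ≥0∞) ≤ gam ι s G)
    (hG2 : ∀ u ∈ G, Zf b u / (Fintype.card X * Real.exp (s^2 * Fintype.card ι / 2)) ≤ 2) :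
    ENNReal.ofReal (1/2 * Real.exp ((Fintype.card ι : ℝ) / 2 * Real.log (2 * π * s^2)
      - 2 * ((Fintype.card ι : ℝ) + 1) * (2 + Real.log 2)
      - 16 * (s^2 * Fintype.card ι + Real.log (2 * Fintype.card X) + 1) * H))
    ≤ volume (Fm b '' G) := by
  have := gam_prob ι s
  obtain ⟨Λ, hΛ⟩ : ∃ Λ : ℝ, Λ = 2 * (s^2 * Fintype.card ι + Real.log (2 * Fintype.card X) + 1) :=
    ⟨_, rfl⟩
  have hcX : (1 : ℝ) ≤ Fintype.card X := by exact_mod_cast Fintype.card_pos
  have hlog : 0 ≤ Real.log (2 * Fintype.card X) := Real.log_nonneg (by linarith)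
  have hN : (0 : ℝ) ≤ Fintype.card ι := Nat.cast_nonneg _
  have hsN : 0 ≤ s^2 * Fintype.card ι := by positivity
  have hΛ1 : 1 ≤ Λ := by rw [hΛ]; linarith
  obtain ⟨hSi, hSe⟩ := HS_int b h0 h1 h2 s
  obtain ⟨hTi, hTe⟩ := tail_int b h2 s Λ hΛ
  rw [← hSe] at hH
  set N : ℝ := (Fintype.card ι : ℝ) with hNdef
  set T : (ι → ℝ) → ℝ := fun u => Λ * ∑ x, Real.exp (s^2 * N / 2 + |∑ i, u i * b i x| - Λ)
    with hT
  have hT0 : ∀ u, 0 ≤ T u := fun u =>
    mul_nonneg (by linarith) (Finset.sum_nonneg (fun x _ => (Real.exp_pos _).le))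
  have hS0 : ∀ u, 0 ≤ HS b s u := fun u =>
    Finset.sum_nonneg (fun o _ => Finset.sum_nonneg (fun o' _ => sq_nonneg _))
  have hZpos : ∀ u, 0 < Zf b u := by
    intro u
    unfold Zf
    exact Finset.sum_pos (fun x _ => Real.exp_pos _) Finset.univ_nonempty
  have hH0 : 0 ≤ H := le_trans (integral_nonneg hS0) hH
  set m0 : ℝ := -2 * (N + 1) * Real.log 2 - 8 * Λ * H - 2 * (N + 1) with hm0
  set κ : ℝ := 1 + 8 * Λ * H + 2 * (N + 1) with hκ
  have hκ0 : 0 ≤ κ := by
    have : 0 ≤ 8 * Λ * H := by positivity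
    rw [hκ]; linarith
  set μ := gam ι s with hμ
  
  have hGr : 1/2 ≤ μ.real G := by
    have h3 : (1/2 : ℝ≥0∞).toReal ≤ (μ G).toReal :=
      ENNReal.toReal_mono (measure_ne_top μ G) hG1
    have h4 : (1/2 : ℝ≥0∞).toReal = 1/2 := by simp
    rw [h4] at h3
    exact h3
  have hSG : ∫ u in G, HS b s u ∂μ ≤ H :=
    (setIntegral_le_integral hSi (Filter.Eventually.of_forall hS0)).trans hH
  have hTG : ∫ u in G, T u ∂μ ≤ 1 :=
    (setIntegral_le_integral hTi (Filter.Eventually.of_forall hT0)).trans hTe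
  have hA : Integrable (fun _ : ι → ℝ => κ) (μ.restrict G) := integrable_const κ
  have hB : Integrable (fun u => 4 * Λ * HS b s u) (μ.restrict G) := (hSi.const_mul _).restrict
  have hC : Integrable (fun u => (N + 1) * T u) (μ.restrict G) := (hTi.const_mul _).restrict
  have hAB : Integrable (fun u => κ - 4 * Λ * HS b s u) (μ.restrict G) := hA.sub hB
  have hint : Integrable (fun u => κ - 4 * Λ * HS b s u - (N + 1) * T u) (μ.restrict G) :=
    hAB.sub hC
  have hval : 1/2 ≤ ∫ u in G, (κ - 4 * Λ * HS b s u - (N + 1) * T u) ∂μ := by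
    rw [integral_sub hAB hC, integral_sub hA hB, integral_const_mul, integral_const_mul,
      setIntegral_const, smul_eq_mul]
    have k1 : 1/2 * κ ≤ μ.real G * κ := mul_le_mul_of_nonneg_right hGr hκ0
    have k2 : 4 * Λ * ∫ u in G, HS b s u ∂μ ≤ 4 * Λ * H :=
      mul_le_mul_of_nonneg_left hSG (by linarith)
    have k3 : (N + 1) * ∫ u in G, T u ∂μ ≤ (N + 1) * 1 :=
      mul_le_mul_of_nonneg_left hTG (by linarith)
    have k4 : 1/2 * κ = 1/2 + 4 * Λ * H + (N + 1) := by rw [hκ]; ring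
    linarith
  have hstep3 : ENNReal.ofReal (1/2 * Real.exp m0) ≤
      ∫⁻ u in G, ENNReal.ofReal (Real.exp (m0 + (κ - 1 - 4 * Λ * HS b s u - (N + 1) * T u))) ∂μ := by
    have e1 : ENNReal.ofReal (1/2 * Real.exp m0) ≤
        ENNReal.ofReal (∫ u in G, Real.exp m0 * (κ - 4 * Λ * HS b s u - (N + 1) * T u) ∂μ) := by
      apply ENNReal.ofReal_le_ofReal
      rw [integral_const_mul, mul_comm]
      exact mul_le_mul_of_nonneg_left hval (Real.exp_pos _).le
    refine e1.trans ((gvG_ofReal _ _ (hint.const_mul _)).trans (lintegral_mono (fun u => ?_)))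
    apply ENNReal.ofReal_le_ofReal
    rw [Real.exp_add]
    apply mul_le_mul_of_nonneg_left _ (Real.exp_pos _).le
    have := Real.add_one_le_exp (κ - 1 - 4 * Λ * HS b s u - (N + 1) * T u)
    linarith
  
  have hdet : ∀ u, 0 < (fderiv ℝ (Fm b) u).det := fun u => by
    rw [Fm_det]; exact (logdet_Gp b h0 h1 s u Λ hΛ1).1
  have hGle : ∀ u ∈ G, Real.exp (m0 + (κ - 1 - 4 * Λ * HS b s u - (N + 1) * T u)) ≤
      (fderiv ℝ (Fm b) u).det := by
    intro u hu
    rw [← Real.exp_log (hdet u)]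
    apply Real.exp_le_exp.2
    rw [Fm_det]
    refine le_trans ?_ (logdet_Gp b h0 h1 s u Λ hΛ1).2
    have hl : Real.log (Zf b u / Fintype.card X) ≤ s^2 * N / 2 + Real.log 2 := by
      have h3 := hG2 u hu
      have h4 : Zf b u / Fintype.card X ≤ 2 * Real.exp (s^2 * N / 2) := by
        rw [div_le_iff₀ (by positivity)] at h3
        rw [div_le_iff₀ (by linarith)]
        linarith
      have h5 : 0 < Zf b u / Fintype.card X := div_pos (hZpos u) (by linarith)
      have h6 := Real.log_le_log h5 h4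
      rw [Real.log_mul (by norm_num) (Real.exp_pos _).ne', Real.log_exp] at h6
      linarith
    have h7 : (N + 1) * (-(Real.log 2)) ≤
        (N + 1) * (s^2 * N / 2 - Real.log (Zf b u / Fintype.card X)) :=
      mul_le_mul_of_nonneg_left (by linarith) (by linarith)
    have h8 : m0 + (κ - 1 - 4 * Λ * HS b s u - (N + 1) * T u) =
        (N + 1) * (-(Real.log 2)) - (N + 1) * Real.log 2 - 4 * Λ * HS b s u - (N + 1) * T u := by
      rw [hm0, hκ]; ring
    rw [h8]
    simp only [hT]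
    linarith
  have hvol : ∫⁻ u in G, ENNReal.ofReal ((fderiv ℝ (Fm b) u).det) = volume (Fm b '' G) := by
    have h3 := lintegral_abs_det_fderiv_eq_addHaar_image (volume : Measure (ι → ℝ))
      (s := G) (f := Fm b) (f' := fun u => fderiv ℝ (Fm b) u) hG
      (fun x _ => (((Fm_contDiff b).differentiable (by simp)) x).hasFDerivAt.hasFDerivWithinAt)
      (Fm_inj b h0 h1).injOn
    rw [← h3]
    refine lintegral_congr (fun u => ?_)
    rw [abs_of_pos (hdet u)]
  have hpos : 0 < 2 * π * s ^ 2 := by positivity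
  have hc : ENNReal.ofReal (Real.sqrt (2 * π * s ^ 2)) ^ Fintype.card ι =
      ENNReal.ofReal (Real.exp (N / 2 * Real.log (2 * π * s ^ 2))) := by
    rw [← ENNReal.ofReal_pow (Real.sqrt_nonneg _)]
    congr 1
    have h3 : Real.sqrt (2 * π * s ^ 2) = Real.exp (1 / 2 * Real.log (2 * π * s ^ 2)) := by
      rw [Real.sqrt_eq_rpow, Real.rpow_def_of_pos hpos]
      congr 1
      ring
    rw [h3, ← Real.exp_nat_mul]
    congr 1
    rw [hNdef]
    ring
  have hfirst : 1/2 * Real.exp (N / 2 * Real.log (2 * π * s^2)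
      - 2 * (N + 1) * (2 + Real.log 2)
      - 16 * (s^2 * N + Real.log (2 * Fintype.card X) + 1) * H) ≤
      Real.exp (N / 2 * Real.log (2 * π * s ^ 2)) * (1/2 * Real.exp m0) := by
    have h3 : Real.exp (N / 2 * Real.log (2 * π * s ^ 2)) * (1/2 * Real.exp m0) =
        1/2 * Real.exp (N / 2 * Real.log (2 * π * s ^ 2) + m0) := by
      rw [Real.exp_add]; ring
    rw [h3]
    apply mul_le_mul_of_nonneg_left _ (by norm_num)
    apply Real.exp_le_exp.2
    have h4 : 8 * Λ * H = 16 * (s^2 * N + Real.log (2 * Fintype.card X) + 1) * H := by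
      rw [hΛ]; ring
    rw [← h4, hm0]
    nlinarith [hN]
  refine (ENNReal.ofReal_le_ofReal hfirst).trans ?_
  rw [ENNReal.ofReal_mul (Real.exp_pos _).le, ← hc, ← hvol]
  calc ENNReal.ofReal (Real.sqrt (2 * π * s ^ 2)) ^ Fintype.card ι * ENNReal.ofReal (1/2 * Real.exp m0)
      ≤ ENNReal.ofReal (Real.sqrt (2 * π * s ^ 2)) ^ Fintype.card ι *
        ∫⁻ u in G, ENNReal.ofReal ((fderiv ℝ (Fm b) u).det) ∂μ := by
        gcongr
        refine hstep3.trans (setLIntegral_mono' hG (fun u hu => ?_))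
        exact ENNReal.ofReal_le_ofReal (hGle u hu)
    _ = ∫⁻ u in G, ENNReal.ofReal ((fderiv ℝ (Fm b) u).det)
        ∂((ENNReal.ofReal (Real.sqrt (2 * π * s ^ 2)) ^ Fintype.card ι) • μ) := by
        rw [Measure.restrict_smul, lintegral_smul_measure, smul_eq_mul]
    _ ≤ ∫⁻ u in G, ENNReal.ofReal ((fderiv ℝ (Fm b) u).det) :=
        lintegral_mono' (Measure.restrict_mono le_rfl (gvG_gam s hs)) le_rfl

end Sol_EX_gibbs_volG

alias gibbs_volG := Sol_EX_gibbs_volG.gibbs_volG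

end HypVol
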