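import Pool.Agent.EntX.Defs2
import Pool.Agent.EntX.L_gap_good
import Pool.Agent.EntX.L_gibbs_volG
import Pool.Agent.HypVol.L_santalo
import Pool.Agent.HypVol.L_gam_prob
open MeasureTheory Real ProbabilityTheory
open scoped ENNReal BigOperators

namespace HypVol
namespace Sol_EX_gap_gibbs

theorem gg_swap {X ι : Type} [Fintype X] [Fintype ι] (a : ι → ℝ) (b : ι → X → ℝ) (w : X → ℝ) (Z : ℝ) :
    ∑ i, a i * ((∑ x, w x * b i x) / Z) = (∑ x, w x * ∑ i, a i * b i x) / Z := by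
  calc ∑ i, a i * ((∑ x, w x * b i x) / Z) = ∑ i, (∑ x, w x * (a i * b i x)) / Z := by
        refine Finset.sum_congr rfl (fun i _ => ?_)
        rw [← mul_div_assoc, Finset.mul_sum]
        congr 1
        exact Finset.sum_congr rfl (fun x _ => by ring)
    _ = (∑ i, ∑ x, w x * (a i * b i x)) / Z := by rw [Finset.sum_div]
    _ = (∑ x, w x * ∑ i, a i * b i x) / Z := by
        rw [Finset.sum_comm]
        simp only [Finset.mul_sum]

theorem gg_bil {X ι κ : Type} [Fintype X] [Fintype ι] [Fintype κ] (a : ι → ℝ) (b : ι → X → ℝ)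
    (c : κ → ℝ) (e : κ → X → ℝ) :
    ∑ x, (∑ i, a i * b i x) * (∑ k, c k * e k x) = ∑ i, ∑ k, a i * c k * ∑ x, b i x * e k x := by
  have e0 : ∀ x, (∑ i, a i * b i x) * (∑ k, c k * e k x) =
      ∑ i, ∑ k, a i * c k * (b i x * e k x) := by
    intro x
    rw [Finset.sum_mul_sum]
    exact Finset.sum_congr rfl (fun i _ => Finset.sum_congr rfl (fun k _ => by ring))
  simp only [e0]
  rw [Finset.sum_comm]
  refine Finset.sum_congr rfl (fun i _ => ?_)
  rw [Finset.sum_comm]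
  refine Finset.sum_congr rfl (fun k _ => ?_)
  rw [Finset.mul_sum]

theorem gg_pars {X ι κ : Type} [Fintype X] [Fintype ι] [DecidableEq ι] [Fintype κ] [DecidableEq κ]
    (b : ι → X → ℝ) (e : κ → X → ℝ)
    (h1 : ∀ i j, ∑ x, b i x * b j x = if i = j then (Fintype.card X : ℝ) else 0)
    (h3 : ∀ k l, ∑ x, e k x * e l x = if k = l then (Fintype.card X : ℝ) else 0)
    (h4 : ∀ i k, ∑ x, b i x * e k x = 0) (a : ι → ℝ) (c : κ → ℝ) :
    ∑ x, (∑ i, a i * b i x + ∑ k, c k * e k x) ^ 2 =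
      Fintype.card X * (∑ i, a i ^ 2 + ∑ k, c k ^ 2) := by
  have e0 : ∑ x, (∑ i, a i * b i x + ∑ k, c k * e k x) ^ 2 =
      ∑ x, (∑ i, a i * b i x) * (∑ i, a i * b i x) + 2 * ∑ x, (∑ i, a i * b i x) * (∑ k, c k * e k x)
        + ∑ x, (∑ k, c k * e k x) * (∑ k, c k * e k x) := by
    rw [Finset.mul_sum, ← Finset.sum_add_distrib, ← Finset.sum_add_distrib]
    exact Finset.sum_congr rfl (fun x _ => by ring)
  rw [e0, gg_bil, gg_bil, gg_bil]
  simp only [h1, h3, h4, mul_zero, Finset.sum_const_zero, add_zero, mul_ite, Finset.sum_ite_eq,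
    Finset.mem_univ, if_true]
  rw [mul_add, Finset.mul_sum, Finset.mul_sum]
  congr 1
  · exact Finset.sum_congr rfl (fun x _ => by ring)
  · exact Finset.sum_congr rfl (fun x _ => by ring)

theorem gg_le {X ι κ : Type} [Fintype X] [Nonempty X] [Fintype ι] [DecidableEq ι] [Fintype κ] [DecidableEq κ]
    (b : ι → X → ℝ) (e : κ → X → ℝ)
    (h1 : ∀ i j, ∑ x, b i x * b j x = if i = j then (Fintype.card X : ℝ) else 0)
    (h3 : ∀ k l, ∑ x, e k x * e l x = if k = l then (Fintype.card X : ℝ) else 0)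
    (h4 : ∀ i k, ∑ x, b i x * e k x = 0) (a : ι → ℝ) (c : κ → ℝ)
    (h : ∀ x, |∑ i, a i * b i x + ∑ k, c k * e k x| ≤ 1) :
    ∑ i, a i ^ 2 + ∑ k, c k ^ 2 ≤ 1 := by
  have hp := gg_pars b e h1 h3 h4 a c
  have hX : (0:ℝ) < Fintype.card X := by exact_mod_cast Fintype.card_pos
  have hle : ∑ x, (∑ i, a i * b i x + ∑ k, c k * e k x) ^ 2 ≤ ∑ x : X, (1:ℝ) := by
    refine Finset.sum_le_sum (fun x _ => ?_)
    have := h x
    rw [← sq_abs]
    nlinarith [abs_nonneg (∑ i, a i * b i x + ∑ k, c k * e k x)]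
  rw [hp] at hle
  simp only [Finset.sum_const, Finset.card_univ, nsmul_eq_mul, mul_one] at hle
  by_contra hcon
  push Not at hcon
  nlinarith

open scoped Pointwise in
theorem gg_vol {ι : Type} [Fintype ι] (S M : Set (ι → ℝ)) (R : ℝ) (hR : 0 < R)
    (h : ∀ y ∈ S, R⁻¹ • y ∈ M) :
    volume S ≤ ENNReal.ofReal (R ^ Fintype.card ι) * volume M := by
  have hsub : S ⊆ R • M := by
    intro y hy
    rw [Set.mem_smul_set_iff_inv_smul_mem₀ hR.ne']
    exact h y hy
  refine (measure_mono hsub).trans ?_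
  rw [Measure.addHaar_smul, Module.finrank_fintype_fun_eq_card, abs_of_pos (by positivity)]

theorem gg_compactK {X ι κ : Type} [Fintype X] [Nonempty X] [Fintype ι] [DecidableEq ι] [Fintype κ] [DecidableEq κ]
    (b : ι → X → ℝ) (e : κ → X → ℝ)
    (h1 : ∀ i j, ∑ x, b i x * b j x = if i = j then (Fintype.card X : ℝ) else 0)
    (h3 : ∀ k l, ∑ x, e k x * e l x = if k = l then (Fintype.card X : ℝ) else 0)
    (h4 : ∀ i k, ∑ x, b i x * e k x = 0) :
    IsCompact {a : ι → ℝ | ∃ c : κ → ℝ, ∀ x, |∑ i, a i * b i x + ∑ k, c k * e k x| ≤ 1} := by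
  have hP : IsCompact {p : (ι → ℝ) × (κ → ℝ) | ∀ x, |∑ i, p.1 i * b i x + ∑ k, p.2 k * e k x| ≤ 1} := by
    refine (isCompact_closedBall (0 : (ι → ℝ) × (κ → ℝ)) 1).of_isClosed_subset ?_ ?_
    · have : {p : (ι → ℝ) × (κ → ℝ) | ∀ x, |∑ i, p.1 i * b i x + ∑ k, p.2 k * e k x| ≤ 1} =
          ⋂ x, {p : (ι → ℝ) × (κ → ℝ) | |∑ i, p.1 i * b i x + ∑ k, p.2 k * e k x| ≤ 1} := by
        ext p
        simp
      rw [this]
      refine isClosed_iInter (fun x => ?_)
      exact isClosed_le (by fun_prop) continuous_const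
    · intro p hp
      have hs := gg_le b e h1 h3 h4 p.1 p.2 hp
      rw [mem_closedBall_zero_iff, Prod.norm_def]
      have ha0 : 0 ≤ ∑ i, p.1 i ^ 2 := Finset.sum_nonneg (fun i _ => sq_nonneg _)
      have hc0 : 0 ≤ ∑ k, p.2 k ^ 2 := Finset.sum_nonneg (fun i _ => sq_nonneg _)
      refine max_le ?_ ?_
      · refine (pi_norm_le_iff_of_nonneg zero_le_one).2 (fun i => ?_)
        have h := Finset.single_le_sum (f := fun i => p.1 i ^ 2) (fun i _ => sq_nonneg _) (Finset.mem_univ i)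
        rw [Real.norm_eq_abs]
        refine abs_le_of_sq_le_sq ?_ zero_le_one
        have h' : p.1 i ^ 2 ≤ ∑ i, p.1 i ^ 2 := h
        linarith
      · refine (pi_norm_le_iff_of_nonneg zero_le_one).2 (fun i => ?_)
        have h := Finset.single_le_sum (f := fun i => p.2 i ^ 2) (fun i _ => sq_nonneg _) (Finset.mem_univ i)
        rw [Real.norm_eq_abs]
        refine abs_le_of_sq_le_sq ?_ zero_le_one
        have h' : p.2 i ^ 2 ≤ ∑ i, p.2 i ^ 2 := h
        linarith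
  have himg : {a : ι → ℝ | ∃ c : κ → ℝ, ∀ x, |∑ i, a i * b i x + ∑ k, c k * e k x| ≤ 1} =
      Prod.fst '' {p : (ι → ℝ) × (κ → ℝ) | ∀ x, |∑ i, p.1 i * b i x + ∑ k, p.2 k * e k x| ≤ 1} := by
    ext a
    constructor
    · rintro ⟨c, hc⟩
      exact ⟨(a, c), hc, rfl⟩
    · rintro ⟨p, hp, rfl⟩
      exact ⟨p.2, hp⟩
  rw [himg]
  exact hP.image continuous_fst

theorem gap_gibbs {X ι κ : Type} [Fintype X] [Nonempty X] [Fintype ι] [DecidableEq ι] [Fintype κ] [DecidableEq κ]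
    (b : ι → X → ℝ) (e : κ → X → ℝ) (hN : 0 < Fintype.card ι)
    (h0 : ∀ i, ∑ x, b i x = 0)
    (h1 : ∀ i j, ∑ x, b i x * b j x = if i = j then (Fintype.card X : ℝ) else 0)
    (h2 : ∀ x, ∑ i, b i x ^ 2 = Fintype.card ι)
    (h3 : ∀ k l, ∑ x, e k x * e l x = if k = l then (Fintype.card X : ℝ) else 0)
    (h4 : ∀ i k, ∑ x, b i x * e k x = 0)
    (s : ℝ) (hs : 0 < s) (H D : ℝ)
    (hH : (∑ x, ∑ y, (1 + ∑ i, b i x * b i y)^2 * (Real.exp (s^2 * ∑ i, b i x * b i y) - 1))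
        / (Fintype.card X : ℝ)^2 ≤ H)
    (hZ : (∑ x, ∑ y, (Real.exp (s^2 * ∑ i, b i x * b i y) - 1)) / (Fintype.card X : ℝ)^2 ≤ 1/64)
    (hD : (∑ x, ∑ y, (∑ k, e k x * e k y) * Real.exp (s^2 * ∑ i, b i x * b i y))
        / (Fintype.card X : ℝ)^2 ≤ D) (hD1 : 1 ≤ D) :
    volume {a : ι → ℝ | ∃ c : κ → ℝ, ∀ x, |∑ i, a i * b i x + ∑ k, c k * e k x| ≤ 1} ≤
    ENNReal.ofReal ((2 * π * Real.exp 1 / Fintype.card ι)^(Fintype.card ι) * (8 * Real.sqrt D)^(Fintype.card ι)
      * (2 * Real.exp (-((Fintype.card ι : ℝ) / 2 * Real.log (2 * π * s^2)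
      - 2 * ((Fintype.card ι : ℝ) + 1) * (2 + Real.log 2)
      - 16 * (s^2 * Fintype.card ι + Real.log (2 * Fintype.card X) + 1) * H)))) := by
  classical
  set K : Set (ι → ℝ) := {a : ι → ℝ | ∃ c : κ → ℝ, ∀ x, |∑ i, a i * b i x + ∑ k, c k * e k x| ≤ 1} with hKdef
  obtain ⟨E, hE⟩ : ∃ E : ℝ, E = ((Fintype.card ι : ℝ) / 2 * Real.log (2 * π * s^2)
      - 2 * ((Fintype.card ι : ℝ) + 1) * (2 + Real.log 2)
      - 16 * (s^2 * Fintype.card ι + Real.log (2 * Fintype.card X) + 1) * H) := ⟨_, rfl⟩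
  rw [← hE]
  obtain ⟨G, hG, hG1, hG2⟩ := gap_good b e h2 s hs D hZ hD hD1
  have hvol := gibbs_volG b h0 h1 h2 s hs H hH G hG hG1 (fun u hu => (hG2 u hu).2.1)
  rw [← hE] at hvol
  have hKc : IsCompact K := gg_compactK b e h1 h3 h4
  have hKs : ∀ x ∈ K, -x ∈ K := by
    rintro a ⟨c, hc⟩
    refine ⟨-c, fun x => ?_⟩
    have e1 : ∑ i, (-a) i * b i x + ∑ k, (-c) k * e k x = -(∑ i, a i * b i x + ∑ k, c k * e k x) := by
      simp only [Pi.neg_apply, neg_mul, Finset.sum_neg_distrib]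
      ring
    rw [e1, abs_neg]
    exact hc x
  
  set M : Set (ι → ℝ) := {y | ∀ a ∈ K, |∑ i, a i * y i| ≤ 1} with hMdef
  have hNpos : (0:ℝ) < Fintype.card ι := by exact_mod_cast hN
  have hδ : ∀ i : ι, (Pi.single i (1 / Real.sqrt (Fintype.card ι)) : ι → ℝ) ∈ K := by
    intro i
    refine ⟨0, fun x => ?_⟩
    have e1 : ∑ j, (Pi.single i (1 / Real.sqrt (Fintype.card ι)) : ι → ℝ) j * b j x +
        ∑ k, (0 : κ → ℝ) k * e k x = 1 / Real.sqrt (Fintype.card ι) * b i x := by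
      simp [Pi.single_apply, ite_mul]
    rw [e1, abs_mul]
    have hb : b i x ^ 2 ≤ Fintype.card ι := by
      rw [← h2 x]
      exact Finset.single_le_sum (f := fun i => b i x ^ 2) (fun i _ => sq_nonneg _) (Finset.mem_univ i)
    have hb2 : |b i x| ≤ Real.sqrt (Fintype.card ι) := Real.abs_le_sqrt hb
    have hsq : 0 < Real.sqrt (Fintype.card ι) := Real.sqrt_pos.2 hNpos
    rw [abs_of_pos (by positivity), div_mul_eq_mul_div, one_mul, div_le_one hsq]
    exact hb2
  have hMc : IsCompact M := by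
    refine (isCompact_closedBall (0 : ι → ℝ) (Real.sqrt (Fintype.card ι))).of_isClosed_subset ?_ ?_
    · have : M = ⋂ a ∈ K, {y : ι → ℝ | |∑ i, a i * y i| ≤ 1} := by
        ext y
        simp [hMdef]
      rw [this]
      refine isClosed_biInter (fun a _ => ?_)
      exact isClosed_le (by fun_prop) continuous_const
    · intro y hy
      rw [mem_closedBall_zero_iff]
      refine (pi_norm_le_iff_of_nonneg (Real.sqrt_nonneg _)).2 (fun i => ?_)
      have h := hy _ (hδ i)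
      have e1 : ∑ j, (Pi.single i (1 / Real.sqrt (Fintype.card ι)) : ι → ℝ) j * y j =
          1 / Real.sqrt (Fintype.card ι) * y i := by
        simp [Pi.single_apply, ite_mul]
      have hsq : 0 < Real.sqrt (Fintype.card ι) := Real.sqrt_pos.2 hNpos
      rw [e1, abs_mul, abs_of_pos (by positivity), div_mul_eq_mul_div, one_mul, div_le_one hsq] at h
      rw [Real.norm_eq_abs]
      exact h
  have hMs : ∀ x ∈ M, -x ∈ M := by
    intro y hy a ha
    have e1 : ∑ i, a i * (-y) i = -∑ i, a i * y i := by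
      simp [Finset.sum_neg_distrib]
    rw [e1, abs_neg]
    exact hy a ha
  have hsan := santalo hN K M hKc hMc hKs hMs (fun x hx y hy => (le_abs_self _).trans (hy x hx))
  
  have hD0 : 0 ≤ D := by linarith
  have hsD : 1 ≤ Real.sqrt D := by
    rw [Real.one_le_sqrt]
    exact hD1
  have hR : 0 < 8 * Real.sqrt D := by linarith
  have himg : ∀ y ∈ Fm b '' G, (8 * Real.sqrt D)⁻¹ • y ∈ M := by
    rintro _ ⟨u, hu, rfl⟩
    intro a ha
    obtain ⟨c, hc⟩ := ha
    have hac := gg_le b e h1 h3 h4 a c hc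
    have hZp : 0 < Zf b u := Finset.sum_pos (fun x _ => Real.exp_pos _) Finset.univ_nonempty
    have hex : ∀ x, 0 < ex b u x := fun x => Real.exp_pos _
    have e1 : ∑ i, a i * (((8 * Real.sqrt D)⁻¹ • Fm b u) i) = (8 * Real.sqrt D)⁻¹ * ∑ i, a i * Fm b u i := by
      rw [Finset.mul_sum]
      refine Finset.sum_congr rfl (fun i _ => ?_)
      simp only [Pi.smul_apply, smul_eq_mul]
      ring
    rw [e1, abs_mul, abs_of_pos (inv_pos.2 hR), inv_mul_le_iff₀ hR, mul_one]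
    have e2 : ∑ i, a i * Fm b u i = (∑ x, ex b u x * ∑ i, a i * b i x) / Zf b u := gg_swap a b _ _
    have e3 : ∑ k, c k * ((∑ x, ex b u x * e k x) / Zf b u) =
        (∑ x, ex b u x * ∑ k, c k * e k x) / Zf b u := gg_swap c e _ _
    have e4 : ∑ i, a i * Fm b u i = (∑ x, ex b u x * (∑ i, a i * b i x + ∑ k, c k * e k x)) / Zf b u -
        ∑ k, c k * ((∑ x, ex b u x * e k x) / Zf b u) := by
      rw [e2, e3, ← sub_div, ← Finset.sum_sub_distrib]
      congr 1
      exact Finset.sum_congr rfl (fun x _ => by ring)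
    have b1 : |(∑ x, ex b u x * (∑ i, a i * b i x + ∑ k, c k * e k x)) / Zf b u| ≤ 1 := by
      rw [abs_div, abs_of_pos hZp, div_le_one hZp]
      refine (Finset.abs_sum_le_sum_abs _ _).trans ?_
      unfold Zf
      refine Finset.sum_le_sum (fun x _ => ?_)
      rw [abs_mul, abs_of_pos (hex x)]
      calc ex b u x * |∑ i, a i * b i x + ∑ k, c k * e k x| ≤ ex b u x * 1 :=
            mul_le_mul_of_nonneg_left (hc x) (hex x).le
        _ = ex b u x := mul_one _
    have b2 : |∑ k, c k * ((∑ x, ex b u x * e k x) / Zf b u)| ≤ 7 * Real.sqrt D := by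
      refine abs_le_of_sq_le_sq ?_ (by linarith)
      have hCS := Finset.sum_mul_sq_le_sq_mul_sq Finset.univ c
        (fun k => (∑ x, ex b u x * e k x) / Zf b u)
      have hq := (hG2 u hu).2.2
      have ha0 : 0 ≤ ∑ i, a i ^ 2 := Finset.sum_nonneg (fun i _ => sq_nonneg _)
      have hc0 : 0 ≤ ∑ k, c k ^ 2 := Finset.sum_nonneg (fun i _ => sq_nonneg _)
      have hq0 : 0 ≤ ∑ k, ((∑ x, ex b u x * e k x) / Zf b u) ^ 2 :=
        Finset.sum_nonneg (fun i _ => sq_nonneg _)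
      have hc1 : ∑ k, c k ^ 2 ≤ 1 := by linarith
      have hs2 : Real.sqrt D ^ 2 = D := Real.sq_sqrt hD0
      calc (∑ k, c k * ((∑ x, ex b u x * e k x) / Zf b u)) ^ 2 ≤
            (∑ k, c k ^ 2) * ∑ k, ((∑ x, ex b u x * e k x) / Zf b u) ^ 2 := hCS
        _ ≤ 1 * (32 * D) := mul_le_mul hc1 hq hq0 zero_le_one
        _ ≤ (7 * Real.sqrt D) ^ 2 := by
            rw [mul_pow, hs2]
            linarith
    rw [e4]
    refine (abs_sub _ _).trans ?_
    linarith
  have hvol2 : volume (Fm b '' G) ≤ ENNReal.ofReal ((8 * Real.sqrt D) ^ Fintype.card ι) * volume M :=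
    gg_vol _ _ _ hR himg
  have hmain : volume K * ENNReal.ofReal (1/2 * Real.exp E) ≤
      ENNReal.ofReal ((2 * π * Real.exp 1 / Fintype.card ι)^(Fintype.card ι) * (8 * Real.sqrt D)^(Fintype.card ι)) := by
    calc volume K * ENNReal.ofReal (1/2 * Real.exp E) ≤
          volume K * (ENNReal.ofReal ((8 * Real.sqrt D) ^ Fintype.card ι) * volume M) :=
          mul_le_mul_right (hvol.trans hvol2) _
      _ = (volume K * volume M) * ENNReal.ofReal ((8 * Real.sqrt D) ^ Fintype.card ι) := by ring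
      _ ≤ ENNReal.ofReal ((2 * π * Real.exp 1 / Fintype.card ι)^(Fintype.card ι)) *
            ENNReal.ofReal ((8 * Real.sqrt D) ^ Fintype.card ι) := mul_le_mul_left hsan _
      _ = _ := by rw [← ENNReal.ofReal_mul (by positivity)]
  have hone : ENNReal.ofReal (1/2 * Real.exp E) * ENNReal.ofReal (2 * Real.exp (-E)) = 1 := by
    rw [← ENNReal.ofReal_mul (by positivity)]
    have : 1/2 * Real.exp E * (2 * Real.exp (-E)) = 1 := by
      have h := Real.exp_add E (-E)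
      rw [add_neg_cancel, Real.exp_zero] at h
      linarith
    rw [this, ENNReal.ofReal_one]
  calc volume K = volume K * ENNReal.ofReal (1/2 * Real.exp E) * ENNReal.ofReal (2 * Real.exp (-E)) := by
        rw [mul_assoc, hone, mul_one]
    _ ≤ ENNReal.ofReal ((2 * π * Real.exp 1 / Fintype.card ι)^(Fintype.card ι) * (8 * Real.sqrt D)^(Fintype.card ι)) *
          ENNReal.ofReal (2 * Real.exp (-E)) := mul_le_mul_left hmain _
    _ = _ := by rw [← ENNReal.ofReal_mul (by positivity)]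

end Sol_EX_gap_gibbs

alias gap_gibbs := Sol_EX_gap_gibbs.gap_gibbs

end HypVol
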