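import Pool.Agent.EntX.Defs2
open MeasureTheory Real ProbabilityTheory
open scoped ENNReal BigOperators

namespace HypVol
namespace Sol_EX_Th_bound

theorem ks_inj (ρ : ℝ) (h0 : 0 < ρ) (h1 : ρ < 1) (S : Finset ℕ) (φ : ℕ → ℕ)
    (hφ : Set.InjOn φ (S : Set ℕ)) : ∑ k ∈ S, ρ ^ (φ k) ≤ (1 - ρ)⁻¹ := by
  rw [← Finset.sum_image (f := fun i => ρ ^ i) hφ, ← tsum_geometric_of_lt_one h0.le h1]
  exact (summable_geometric_of_lt_one h0.le h1).sum_le_tsum _ (fun i _ => by positivity)

theorem ks_geo (ρ : ℝ) (h0 : 0 < ρ) (h1 : ρ < 1) (N t : ℕ) :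
    ∑ k : Fin N, ρ ^ (max (k : ℕ) t - min (k : ℕ) t) ≤ 2 / (1 - ρ) := by
  rw [Fin.sum_univ_eq_sum_range (fun k => ρ ^ (max k t - min k t)) N,
    ← Finset.sum_filter_add_sum_filter_not (Finset.range N) (fun k => t ≤ k)]
  have e1 : ∑ k ∈ (Finset.range N).filter (fun k => t ≤ k), ρ ^ (max k t - min k t)
      = ∑ k ∈ (Finset.range N).filter (fun k => t ≤ k), ρ ^ (k - t) := by
    apply Finset.sum_congr rfl
    intro k hk
    rw [Finset.mem_filter] at hk
    rw [max_eq_left hk.2, min_eq_right hk.2]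
  have e2 : ∑ k ∈ (Finset.range N).filter (fun k => ¬ t ≤ k), ρ ^ (max k t - min k t)
      = ∑ k ∈ (Finset.range N).filter (fun k => ¬ t ≤ k), ρ ^ (t - k) := by
    apply Finset.sum_congr rfl
    intro k hk
    rw [Finset.mem_filter, not_le] at hk
    rw [max_eq_right hk.2.le, min_eq_left hk.2.le]
  rw [e1, e2]
  have f1 := ks_inj ρ h0 h1 ((Finset.range N).filter (fun k => t ≤ k)) (fun k => k - t) (by
    intro x hx y hy hxy
    simp only [Finset.coe_filter, Finset.mem_range, Set.mem_ofPred_eq] at hx hy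
    simp only at hxy
    omega)
  have f2 := ks_inj ρ h0 h1 ((Finset.range N).filter (fun k => ¬ t ≤ k)) (fun k => t - k) (by
    intro x hx y hy hxy
    simp only [Finset.coe_filter, Finset.mem_range, Set.mem_ofPred_eq] at hx hy
    simp only at hxy
    omega)
  have : 2 / (1 - ρ) = (1 - ρ)⁻¹ + (1 - ρ)⁻¹ := by ring
  rw [this]
  exact add_le_add f1 f2

theorem ks_abs (k t : ℕ) : |(k : ℝ) - t| = ((max k t - min k t : ℕ) : ℝ) := by
  rcases le_total k t with h | h
  · rw [max_eq_right h, min_eq_left h, Nat.cast_sub h, abs_sub_comm, abs_of_nonneg]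
    rw [sub_nonneg]; exact_mod_cast h
  · rw [max_eq_left h, min_eq_right h, Nat.cast_sub h, abs_of_nonneg]
    rw [sub_nonneg]; exact_mod_cast h

theorem ks_one (κ : ℝ) (hκ : 0 < κ) (N t : ℕ) (E : ℝ) (hE : 0 ≤ E) :
    ∑ k : Fin N, Real.exp (-(κ * max 0 (|((k : ℕ) : ℝ) - t| - E)))
      ≤ (Real.exp κ * (2 / κ + 2)) * (1 + E) := by
  set z : ℝ := κ / (1 + E) with hz
  have hz0 : 0 < z := by positivity
  set ρ : ℝ := Real.exp (-z) with hρ
  have hρ0 : 0 < ρ := Real.exp_pos _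
  have hρ1 : ρ < 1 := by rw [hρ, Real.exp_lt_one_iff]; linarith
  have h1 : ∀ k : Fin N, Real.exp (-(κ * max 0 (|((k : ℕ) : ℝ) - t| - E)))
      ≤ Real.exp κ * ρ ^ (max (k : ℕ) t - min (k : ℕ) t) := by
    intro k
    rw [hρ, ← Real.exp_nat_mul, ← ks_abs, ← Real.exp_add]
    apply Real.exp_le_exp.2
    set y : ℝ := |((k : ℕ) : ℝ) - t| with hy
    have hy0 : 0 ≤ y := abs_nonneg _
    have h2 : y / (1 + E) - 1 ≤ max 0 (y - E) := by
      have hE1 : 0 < 1 + E := by linarith
      rcases le_total y (1 + E) with h | h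
      · refine le_trans ?_ (le_max_left _ _)
        rw [sub_nonpos, div_le_one hE1]; exact h
      · refine le_trans ?_ (le_max_right _ _)
        have : y / (1 + E) - 1 = (y - (1 + E)) / (1 + E) := by
          field_simp
        rw [this, div_le_iff₀ hE1]
        nlinarith
    have h3 := mul_le_mul_of_nonneg_left h2 hκ.le
    have h4 : y * -z = -(κ * (y / (1 + E))) := by rw [hz]; ring
    rw [h4]
    linarith
  have h5 := ks_geo ρ hρ0 hρ1 N t
  have h6 : 2 / (1 - ρ) ≤ (2 / κ + 2) * (1 + E) := by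
    have h7 : ρ ≤ 1 / (1 + z) := by
      rw [hρ, Real.exp_neg, ← one_div]
      apply one_div_le_one_div_of_le (by positivity)
      have := Real.add_one_le_exp z
      linarith
    have h8 : z / (1 + z) ≤ 1 - ρ := by
      have : z / (1 + z) = 1 - 1 / (1 + z) := by field_simp; ring
      rw [this]; linarith
    have h9 : 2 / (1 - ρ) ≤ 2 / (z / (1 + z)) :=
      div_le_div_of_nonneg_left (by norm_num) (by positivity) h8
    refine h9.trans ?_
    have : 2 / (z / (1 + z)) = 2 * (1 + E) / κ + 2 := by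
      rw [hz]; field_simp
    rw [this]
    have e1 : (2 / κ + 2) * (1 + E) = 2 * (1 + E) / κ + 2 + 2 * E := by ring
    rw [e1]
    linarith
  calc ∑ k : Fin N, Real.exp (-(κ * max 0 (|((k : ℕ) : ℝ) - t| - E)))
      ≤ ∑ k : Fin N, Real.exp κ * ρ ^ (max (k : ℕ) t - min (k : ℕ) t) :=
        Finset.sum_le_sum fun k _ => h1 k
    _ = Real.exp κ * ∑ k : Fin N, ρ ^ (max (k : ℕ) t - min (k : ℕ) t) := by
        rw [Finset.mul_sum]
    _ ≤ Real.exp κ * ((2 / κ + 2) * (1 + E)) :=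
        mul_le_mul_of_nonneg_left (h5.trans h6) (Real.exp_pos _).le
    _ = _ := by ring

theorem ks_shape (D n : ℕ) (hD : 1 ≤ D) (s : Fin (D + 1) → Fin (n + 1))
    (hs : ∑ j, ((s j : Fin (n + 1)) : ℕ) = n) (T : Fin (D + 1) → ℕ) :
    (2 : ℝ) ^ (∑ j, min (s j : ℕ) (T j)) ≤ 2 ^ n *
      Real.exp (-(Real.log 2 * ((n - ∑ j, T j : ℕ) : ℝ) / 2)) *
      ∏ j : Fin D, Real.exp (-(Real.log 2 / (4 * D) *
        max 0 (|((s j.castSucc : ℕ) : ℝ) - T j.castSucc| - ((∑ j, T j - n : ℕ) : ℝ)))) := by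
  set m : ℕ := ∑ j, min (s j : ℕ) (T j) with hm
  set tot : ℕ := ∑ j, T j with htot
  have hl : 0 < Real.log 2 := Real.log_pos (by norm_num)
  have hDr : (0 : ℝ) < D := by exact_mod_cast hD
  have c1 : m ≤ n := by
    rw [← hs]; exact Finset.sum_le_sum fun j _ => min_le_left _ _
  have c2 : m ≤ tot := Finset.sum_le_sum fun j _ => min_le_right _ _
  have c3 : ∀ j, |((s j : ℕ) : ℝ) - T j| ≤ n + tot - 2 * m := by
    intro j
    have e1 : ∑ j, |((s j : ℕ) : ℝ) - T j| = n + tot - 2 * m := by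
      have e2 : ∀ j, |((s j : ℕ) : ℝ) - T j|
          = ((s j : ℕ) : ℝ) + T j - 2 * ((min (s j : ℕ) (T j) : ℕ) : ℝ) := by
        intro j
        rcases le_total (s j : ℕ) (T j) with h | h
        · rw [min_eq_left h, abs_sub_comm, abs_of_nonneg]
          · ring
          · rw [sub_nonneg]; exact_mod_cast h
        · rw [min_eq_right h, abs_of_nonneg]
          · ring
          · rw [sub_nonneg]; exact_mod_cast h
      rw [Finset.sum_congr rfl (fun j _ => e2 j), Finset.sum_sub_distrib, Finset.sum_add_distrib,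
        ← Finset.mul_sum, hm, htot]
      have e3 : (n : ℝ) = ∑ j, (((s j : Fin (n + 1)) : ℕ) : ℝ) := by
        have := congrArg (fun x : ℕ => (x : ℝ)) hs
        simp only [Nat.cast_sum] at this
        exact this.symm
      rw [← e3]
      push_cast
      rfl
    rw [← e1]
    exact Finset.single_le_sum (f := fun j => |((s j : ℕ) : ℝ) - T j|)
      (fun j _ => abs_nonneg _) (Finset.mem_univ j)
  have c1r : (m : ℝ) ≤ n := by exact_mod_cast c1
  have c2r : (m : ℝ) ≤ tot := by exact_mod_cast c2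
  
  have p1 : (2 : ℝ) ^ m = Real.exp (m * Real.log 2) := by
    rw [Real.exp_nat_mul, Real.exp_log (by norm_num)]
  have p2 : (2 : ℝ) ^ n = Real.exp (n * Real.log 2) := by
    rw [Real.exp_nat_mul, Real.exp_log (by norm_num)]
  rw [p1, p2, ← Real.exp_sum, ← Real.exp_add, ← Real.exp_add]
  apply Real.exp_le_exp.2
  have hp : ((tot - n : ℕ) : ℝ) = max 0 ((tot : ℝ) - n) := by
    rcases le_total n tot with h | h
    · have h' : (n : ℝ) ≤ tot := by exact_mod_cast h
      rw [Nat.cast_sub h, max_eq_right (by linarith)]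
    · have h' : (tot : ℝ) ≤ n := by exact_mod_cast h
      rw [Nat.sub_eq_zero_of_le h, max_eq_left (by linarith)]; simp
  have hq : ((n - tot : ℕ) : ℝ) = max 0 ((n : ℝ) - tot) := by
    rcases le_total tot n with h | h
    · have h' : (tot : ℝ) ≤ n := by exact_mod_cast h
      rw [Nat.cast_sub h, max_eq_right (by linarith)]
    · have h' : (n : ℝ) ≤ tot := by exact_mod_cast h
      rw [Nat.sub_eq_zero_of_le h, max_eq_left (by linarith)]; simp
  have hqu : ((n - tot : ℕ) : ℝ) ≤ n - m := by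
    rw [hq]; apply max_le <;> linarith
  have hsum : ∑ j : Fin D, -(Real.log 2 / (4 * D) *
        max 0 (|((s j.castSucc : ℕ) : ℝ) - T j.castSucc| - ((tot - n : ℕ) : ℝ)))
      ≥ ∑ j : Fin D, -(Real.log 2 / (4 * D) * (2 * (n - m))) := by
    apply Finset.sum_le_sum
    intro j _
    apply neg_le_neg
    apply mul_le_mul_of_nonneg_left _ (by positivity)
    apply max_le
    · linarith
    · have h1 := c3 j.castSucc
      have h2 : (tot : ℝ) - n ≤ ((tot - n : ℕ) : ℝ) := by rw [hp]; exact le_max_right _ _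
      linarith
  rw [Finset.sum_const, Finset.card_univ, Fintype.card_fin, nsmul_eq_mul] at hsum
  have e5 : (D : ℝ) * -(Real.log 2 / (4 * D) * (2 * (n - m))) = -(Real.log 2 * (n - m) / 2) := by
    field_simp
    ring
  rw [e5] at hsum
  have h6 := mul_le_mul_of_nonneg_left hqu hl.le
  linarith

theorem ks_Th (D n : ℕ) (hD : 1 ≤ D) (T : Fin (D + 1) → ℕ) :
    Th (D + 1) n T ≤ 2 ^ n *
      Real.exp (-(Real.log 2 * ((n - ∑ j, T j : ℕ) : ℝ) / 2)) *
      ((Real.exp (Real.log 2 / (4 * D)) * (2 / (Real.log 2 / (4 * D)) + 2)) *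
        (1 + ((∑ j, T j - n : ℕ) : ℝ))) ^ D := by
  classical
  have hl : 0 < Real.log 2 := Real.log_pos (by norm_num)
  have hDr : (0 : ℝ) < D := by exact_mod_cast hD
  set κ : ℝ := Real.log 2 / (4 * D) with hκ
  have hκ0 : 0 < κ := by positivity
  set E : ℝ := ((∑ j, T j - n : ℕ) : ℝ) with hE
  have hE0 : 0 ≤ E := Nat.cast_nonneg _
  set g : Fin D → Fin (n + 1) → ℝ := fun j k =>
    Real.exp (-(κ * max 0 (|((k : ℕ) : ℝ) - T j.castSucc| - E))) with hg
  have h1 : Th (D + 1) n T ≤ ∑ s ∈ Sh (D + 1) n, (2 ^ n *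
      Real.exp (-(Real.log 2 * ((n - ∑ j, T j : ℕ) : ℝ) / 2)) *
      ∏ j : Fin D, g j (s j.castSucc)) := by
    unfold Th
    apply Finset.sum_le_sum
    intro s hs
    have hs' : ∑ j, ((s j : Fin (n + 1)) : ℕ) = n := by
      unfold Sh at hs
      exact (Finset.mem_filter.1 hs).2
    exact ks_shape D n hD s hs' T
  rw [← Finset.mul_sum] at h1
  refine h1.trans ?_
  apply mul_le_mul_of_nonneg_left _ (by positivity)
  
  have hinj : Set.InjOn (fun s : Fin (D + 1) → Fin (n + 1) => fun j : Fin D => s j.castSucc)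
      (Sh (D + 1) n : Set (Fin (D + 1) → Fin (n + 1))) := by
    intro s hs s' hs' hss
    have a1 : ∑ j, ((s j : Fin (n + 1)) : ℕ) = n := by
      have := Finset.mem_coe.1 hs
      unfold Sh at this
      exact (Finset.mem_filter.1 this).2
    have a2 : ∑ j, ((s' j : Fin (n + 1)) : ℕ) = n := by
      have := Finset.mem_coe.1 hs'
      unfold Sh at this
      exact (Finset.mem_filter.1 this).2
    have hc : ∀ j : Fin D, s j.castSucc = s' j.castSucc := fun j => congrFun hss j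
    rw [Fin.sum_univ_castSucc] at a1 a2
    have a3 : ∑ j : Fin D, ((s j.castSucc : Fin (n + 1)) : ℕ)
        = ∑ j : Fin D, ((s' j.castSucc : Fin (n + 1)) : ℕ) :=
      Finset.sum_congr rfl (fun j _ => by rw [hc j])
    funext j
    refine Fin.lastCases ?_ (fun j => hc j) j
    apply Fin.ext
    omega
  have h2 : ∑ s ∈ Sh (D + 1) n, ∏ j : Fin D, g j (s j.castSucc)
      ≤ ∑ p : Fin D → Fin (n + 1), ∏ j, g j (p j) := by
    rw [← Finset.sum_image (f := fun p : Fin D → Fin (n + 1) => ∏ j, g j (p j)) hinj]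
    apply Finset.sum_le_sum_of_subset_of_nonneg (Finset.subset_univ _)
    intro p _ _
    exact Finset.prod_nonneg fun j _ => (Real.exp_pos _).le
  refine h2.trans ?_
  have h3 : ∑ p : Fin D → Fin (n + 1), ∏ j, g j (p j) = ∏ j, ∑ k, g j k := by
    rw [Finset.prod_univ_sum]
    simp
  rw [h3]
  calc ∏ j, ∑ k, g j k ≤ ∏ _j : Fin D, ((Real.exp κ * (2 / κ + 2)) * (1 + E)) := by
        apply Finset.prod_le_prod
        · intro j _
          exact Finset.sum_nonneg fun k _ => (Real.exp_pos _).le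
        · intro j _
          exact ks_one κ hκ0 (n + 1) (T j.castSucc) E hE0
    _ = _ := by rw [Finset.prod_const, Finset.card_univ, Fintype.card_fin]

theorem Th_bound (d : ℕ) (hd : 2 ≤ d) : ∃ C : ℝ, 0 < C ∧ ∀ (n : ℕ) (T : Fin d → ℕ),
    Th d n T ≤ C * 2^n * (2:ℝ)^(-((n - ∑ j, T j : ℕ) : ℝ) / 2) * (1 + ((∑ j, T j - n : ℕ) : ℝ))^(d-1) := by
  obtain ⟨D, rfl⟩ : ∃ D, d = D + 1 := ⟨d - 1, by omega⟩
  have hD : 1 ≤ D := by omega
  have hl : 0 < Real.log 2 := Real.log_pos (by norm_num)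
  have hDr : (0 : ℝ) < D := by exact_mod_cast hD
  have hκ : 0 < Real.log 2 / (4 * D) := by positivity
  refine ⟨(Real.exp (Real.log 2 / (4 * D)) * (2 / (Real.log 2 / (4 * D)) + 2)) ^ D, by positivity, ?_⟩
  intro n T
  refine (ks_Th D n hD T).trans (le_of_eq ?_)
  have e : (2:ℝ)^(-((n - ∑ j, T j : ℕ) : ℝ) / 2) =
      Real.exp (-(Real.log 2 * ((n - ∑ j, T j : ℕ) : ℝ) / 2)) := by
    rw [Real.rpow_def_of_pos (by norm_num)]
    congr 1
    ring
  rw [e, mul_pow, Nat.add_sub_cancel]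
  ring

end Sol_EX_Th_bound

alias Th_bound := Sol_EX_Th_bound.Th_bound

end HypVol
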