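import Pool.Agent.EntX.Defs2
open MeasureTheory Real ProbabilityTheory
open scoped ENNReal BigOperators

namespace HypVol
namespace Sol_EX_count_T

theorem count_T (d L : ℕ) (hd : 1 ≤ d) (f : ℕ → ℝ) (hf : ∀ m, 0 ≤ f m) :
    ∑ T : Fin d → Fin L, f (∑ j, ((T j : Fin L) : ℕ)) ≤
      ∑ t ∈ Finset.range (d * L + 1), ((t:ℝ) + 1)^(d-1) * f t := by
  classical
  obtain ⟨D, rfl⟩ : ∃ D, d = D + 1 := ⟨d - 1, by omega⟩
  simp only [Nat.add_sub_cancel]
  have hM : ∀ T : Fin (D + 1) → Fin L, ∑ j, ((T j : Fin L) : ℕ) < (D + 1) * L + 1 := by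
    intro T
    have h1 : ∑ j, ((T j : Fin L) : ℕ) ≤ ∑ _j : Fin (D + 1), L :=
      Finset.sum_le_sum fun j _ => (T j).isLt.le
    rw [Finset.sum_const, Finset.card_univ, Fintype.card_fin, smul_eq_mul] at h1
    omega
  rw [← Finset.sum_fiberwise_of_maps_to (s := (Finset.univ : Finset (Fin (D + 1) → Fin L)))
    (t := Finset.range ((D + 1) * L + 1)) (g := fun T => ∑ j, ((T j : Fin L) : ℕ))
    (fun T _ => Finset.mem_range.2 (hM T))]
  apply Finset.sum_le_sum
  intro m _
  have h1 : ∑ T ∈ Finset.univ.filter (fun T : Fin (D + 1) → Fin L => ∑ j, ((T j : Fin L) : ℕ) = m),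
      f (∑ j, ((T j : Fin L) : ℕ))
      = ((Finset.univ.filter (fun T : Fin (D + 1) → Fin L => ∑ j, ((T j : Fin L) : ℕ) = m)).card : ℝ)
        * f m := by
    rw [← nsmul_eq_mul, ← Finset.sum_const]
    apply Finset.sum_congr rfl
    intro T hT
    rw [(Finset.mem_filter.1 hT).2]
  rw [h1]
  apply mul_le_mul_of_nonneg_right _ (hf m)
  have h2 : (Finset.univ.filter (fun T : Fin (D + 1) → Fin L =>
      ∑ j, ((T j : Fin L) : ℕ) = m)).card ≤
      (Fintype.piFinset (fun _ : Fin D => Finset.range (m + 1))).card := by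
    apply Finset.card_le_card_of_injOn
      (fun T : Fin (D + 1) → Fin L => fun j : Fin D => ((T j.castSucc : Fin L) : ℕ))
    · intro T hT
      have a1 : ∑ j, ((T j : Fin L) : ℕ) = m := (Finset.mem_filter.1 (Finset.mem_coe.1 hT)).2
      refine Finset.mem_coe.2 (Fintype.mem_piFinset.2 fun j => Finset.mem_range.2 ?_)
      have a2 : ((T j.castSucc : Fin L) : ℕ) ≤ ∑ j, ((T j : Fin L) : ℕ) :=
        Finset.single_le_sum (f := fun j => ((T j : Fin L) : ℕ)) (fun _ _ => Nat.zero_le _)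
          (Finset.mem_univ _)
      show ((T j.castSucc : Fin L) : ℕ) < m + 1
      omega
    · intro s hs s' hs' hss
      have a1 : ∑ j, ((s j : Fin L) : ℕ) = m := (Finset.mem_filter.1 (Finset.mem_coe.1 hs)).2
      have a2 : ∑ j, ((s' j : Fin L) : ℕ) = m := (Finset.mem_filter.1 (Finset.mem_coe.1 hs')).2
      have hc : ∀ j : Fin D, ((s j.castSucc : Fin L) : ℕ) = ((s' j.castSucc : Fin L) : ℕ) :=
        fun j => congrFun hss j
      rw [Fin.sum_univ_castSucc] at a1 a2
      have a3 : ∑ j : Fin D, ((s j.castSucc : Fin L) : ℕ)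
          = ∑ j : Fin D, ((s' j.castSucc : Fin L) : ℕ) :=
        Finset.sum_congr rfl (fun j _ => by rw [hc j])
      funext j
      refine Fin.lastCases ?_ (fun j => Fin.ext (hc j)) j
      apply Fin.ext
      omega
  rw [Fintype.card_piFinset] at h2
  simp only [Finset.card_range, Finset.prod_const, Finset.card_univ, Fintype.card_fin] at h2
  calc ((Finset.univ.filter (fun T : Fin (D + 1) → Fin L => ∑ j, ((T j : Fin L) : ℕ) = m)).card : ℝ)
      ≤ (((m + 1) ^ D : ℕ) : ℝ) := by exact_mod_cast h2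
    _ = ((m:ℝ) + 1) ^ D := by push_cast; ring

end Sol_EX_count_T

alias count_T := Sol_EX_count_T.count_T

end HypVol
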