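import Pool.Agent.EntX.Defs2
import Pool.Agent.EntX.L_Th_bound
open MeasureTheory Real ProbabilityTheory
open scoped ENNReal BigOperators

namespace HypVol
namespace Sol_EX_sumTh

theorem sumTh (d : ℕ) (hd : 2 ≤ d) : ∃ C : ℝ, 0 < C ∧ ∀ (M : ℕ) (T : Fin d → ℕ),
    ∑ m ∈ Finset.range (M + 1), Th d m T ≤
      C * 2^M * (2:ℝ)^(-((M - ∑ j, T j : ℕ) : ℝ) / 2) * (1 + ((∑ j, T j - M : ℕ) : ℝ))^(d-1) := by
  obtain ⟨C0, hC0, hb⟩ := Th_bound d hd
  obtain ⟨r, hr⟩ : ∃ r : ℝ, r = (2:ℝ)^(-(1/2 : ℝ)) := ⟨_, rfl⟩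
  have hr0 : 0 < r := by rw [hr]; positivity
  have hr1 : r < 1 := by
    rw [hr]
    exact Real.rpow_lt_one_of_one_lt_of_neg (by norm_num) (by norm_num)
  have hri : ∀ i : ℕ, r ^ i = (2:ℝ)^(-(i:ℝ)/2) := by
    intro i
    rw [hr, ← Real.rpow_natCast, ← Real.rpow_mul (by norm_num)]
    congr 1
    ring
  obtain ⟨f, hf⟩ : ∃ f : ℕ → ℝ, f = fun i : ℕ => (1 + (i:ℝ))^(d-1) * r ^ i := ⟨_, rfl⟩
  have hf0 : ∀ i, 0 ≤ f i := by intro i; rw [hf]; positivity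
  have hfs : Summable f := by
    have h1 : Summable (fun n : ℕ => ((n:ℝ))^(d-1) * r ^ n) :=
      summable_pow_mul_geometric_of_norm_lt_one (d-1) (by
        rw [Real.norm_eq_abs, abs_of_pos hr0]; exact hr1)
    have h2 := (summable_nat_add_iff 1).mpr h1
    have h3 := h2.mul_right r⁻¹
    rw [hf]
    refine h3.congr ?_
    intro n
    push_cast
    rw [pow_succ, add_comm (n:ℝ) 1]
    field_simp
  have hS : 0 < ∑' i, f i := by
    apply hfs.tsum_pos hf0 0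
    rw [hf]
    simp
  refine ⟨C0 * ∑' i, f i, by positivity, ?_⟩
  intro M T
  generalize hteq : ∑ j, T j = t
  have hterm : ∀ m ∈ Finset.range (M + 1), Th d m T ≤
      C0 * (2^M * (2:ℝ)^(-((M - t : ℕ) : ℝ) / 2) * (1 + ((t - M : ℕ) : ℝ))^(d-1)) * f (M - m) := by
    intro m hm
    have hmM : m ≤ M := by
      have := Finset.mem_range.mp hm
      omega
    have h1 := hb m T
    rw [hteq] at h1
    refine h1.trans ?_
    obtain ⟨i, hi⟩ : ∃ i, i = M - m := ⟨_, rfl⟩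
    rw [← hi]
    have hA : (2:ℝ)^m * (2:ℝ)^(-((m - t : ℕ) : ℝ) / 2) ≤
        2^M * (2:ℝ)^(-((M - t : ℕ) : ℝ) / 2) * r ^ i := by
      rw [hri, ← Real.rpow_natCast 2 m, ← Real.rpow_natCast 2 M, ← Real.rpow_add (by norm_num),
        ← Real.rpow_add (by norm_num), ← Real.rpow_add (by norm_num)]
      apply Real.rpow_le_rpow_of_exponent_le (by norm_num)
      have e1 : ((M - t : ℕ) : ℝ) ≤ ((m - t : ℕ) : ℝ) + (i : ℝ) := by
        exact_mod_cast (by omega : M - t ≤ (m - t) + i)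
      have e2 : (M : ℝ) = m + i := by
        exact_mod_cast (by omega : M = m + i)
      rw [e2]
      linarith
    have hB : (1 + ((t - m : ℕ) : ℝ))^(d-1) ≤ (1 + ((t - M : ℕ) : ℝ))^(d-1) * (1 + (i:ℝ))^(d-1) := by
      rw [← mul_pow]
      apply pow_le_pow_left₀ (by positivity)
      have e1 : ((t - m : ℕ) : ℝ) ≤ ((t - M : ℕ) : ℝ) + (i : ℝ) := by
        exact_mod_cast (by omega : t - m ≤ (t - M) + i)
      have e2 : (0:ℝ) ≤ ((t - M : ℕ) : ℝ) := by positivity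
      have e3 : (0:ℝ) ≤ (i : ℝ) := by positivity
      nlinarith
    have hAB := mul_le_mul hA hB (by positivity) (by positivity)
    rw [hf]
    calc C0 * 2^m * (2:ℝ)^(-((m - t : ℕ) : ℝ) / 2) * (1 + ((t - m : ℕ) : ℝ))^(d-1)
        = C0 * (2^m * (2:ℝ)^(-((m - t : ℕ) : ℝ) / 2) * (1 + ((t - m : ℕ) : ℝ))^(d-1)) := by ring
      _ ≤ C0 * (2^M * (2:ℝ)^(-((M - t : ℕ) : ℝ) / 2) * r ^ i *
          ((1 + ((t - M : ℕ) : ℝ))^(d-1) * (1 + (i:ℝ))^(d-1))) :=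
        mul_le_mul_of_nonneg_left hAB hC0.le
      _ = _ := by ring
  calc ∑ m ∈ Finset.range (M + 1), Th d m T
      ≤ ∑ m ∈ Finset.range (M + 1), C0 * (2^M * (2:ℝ)^(-((M - t : ℕ) : ℝ) / 2) *
          (1 + ((t - M : ℕ) : ℝ))^(d-1)) * f (M - m) := Finset.sum_le_sum hterm
    _ = C0 * (2^M * (2:ℝ)^(-((M - t : ℕ) : ℝ) / 2) * (1 + ((t - M : ℕ) : ℝ))^(d-1)) *
          ∑ i ∈ Finset.range (M + 1), f i := by
        rw [← Finset.mul_sum, Finset.sum_flip f]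
    _ ≤ C0 * (2^M * (2:ℝ)^(-((M - t : ℕ) : ℝ) / 2) * (1 + ((t - M : ℕ) : ℝ))^(d-1)) *
          ∑' i, f i := by
        apply mul_le_mul_of_nonneg_left _ (by positivity)
        exact hfs.sum_le_tsum _ (fun i _ => hf0 i)
    _ = _ := by ring

end Sol_EX_sumTh

alias sumTh := Sol_EX_sumTh.sumTh

end HypVol
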