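import Pool.Agent.EntX.Defs2
import Pool.Agent.EntX.L_Th_bound
import Pool.Agent.EntX.L_count_T
import Pool.Agent.HypVol.L_shp_lower
import Pool.Agent.EntX.L_sumTh
open MeasureTheory Real ProbabilityTheory
open scoped ENNReal BigOperators

namespace HypVol
namespace Sol_EX_sumD

theorem sd_exp (A : ℝ) (hA : 0 ≤ A) : Real.exp A - 1 - A ≤ A ^ 2 * Real.exp A := by
  have h1 : Real.exp A * (1 - A) ≤ 1 := by
    have h := Real.add_one_le_exp (-A)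
    have h2 : Real.exp A * Real.exp (-A) = 1 := by rw [← Real.exp_add]; simp
    nlinarith [Real.exp_pos A]
  have h3 : 1 + A ≤ Real.exp A := by linarith [Real.add_one_le_exp A]
  by_cases hA1 : A ≤ 1
  · 
    have : Real.exp A * (1 - A) * (1 + A) ≤ 1 * (1 + A) :=
      mul_le_mul_of_nonneg_right h1 (by linarith)
    nlinarith
  · push Not at hA1
    nlinarith [Real.exp_pos A, mul_self_nonneg (A - 1)]

theorem sd_poly (p : ℕ) : ∃ C : ℝ, 0 < C ∧ ∀ w : ℕ,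
    (1 + (w:ℝ))^p * (2:ℝ)^((1 + (w:ℝ))/8) ≤ C * (2:ℝ)^((w:ℝ)/4) := by
  have hl : 0 < Real.log 2 := Real.log_pos (by norm_num)
  refine ⟨(p.factorial : ℝ) * (8 / Real.log 2)^p * (2:ℝ)^((1:ℝ)/4), by positivity, fun w => ?_⟩
  have h := Real.pow_div_factorial_le_exp ((1 + (w:ℝ)) * Real.log 2 / 8) (by positivity) p
  have h2 : Real.exp ((1 + (w:ℝ)) * Real.log 2 / 8) = (2:ℝ)^((1 + (w:ℝ))/8) := by
    rw [Real.rpow_def_of_pos (by norm_num)]
    congr 1; ring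
  rw [h2, div_le_iff₀ (by positivity)] at h
  have h3 : (1 + (w:ℝ))^p = ((1 + (w:ℝ)) * Real.log 2 / 8)^p * (8 / Real.log 2)^p := by
    rw [← mul_pow]
    congr 1
    field_simp
  have h4 : (2:ℝ)^((1 + (w:ℝ))/8) * (2:ℝ)^((1 + (w:ℝ))/8) = (2:ℝ)^((1:ℝ)/4) * (2:ℝ)^((w:ℝ)/4) := by
    rw [← Real.rpow_add (by norm_num), ← Real.rpow_add (by norm_num)]
    congr 1; ring
  calc (1 + (w:ℝ))^p * (2:ℝ)^((1 + (w:ℝ))/8)
      = ((1 + (w:ℝ)) * Real.log 2 / 8)^p * (8 / Real.log 2)^p * (2:ℝ)^((1 + (w:ℝ))/8) := by rw [h3]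
    _ ≤ ((2:ℝ)^((1 + (w:ℝ))/8) * (p.factorial : ℝ)) * (8 / Real.log 2)^p * (2:ℝ)^((1 + (w:ℝ))/8) := by
        gcongr
    _ = (p.factorial : ℝ) * (8 / Real.log 2)^p * ((2:ℝ)^((1 + (w:ℝ))/8) * (2:ℝ)^((1 + (w:ℝ))/8)) := by
        ring
    _ = _ := by rw [h4]; ring

theorem sd_geo (q : ℝ) (h0 : 0 ≤ q) (h1 : q < 1) (n N : ℕ) :
    ∑ t ∈ Finset.range N, q^((n - t) + (t - n)) ≤ 2 / (1 - q) := by
  have hg : ∀ M : ℕ, ∑ i ∈ Finset.range M, q^i ≤ 1 / (1 - q) := by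
    intro M
    have := (summable_geometric_of_lt_one h0 h1).sum_le_tsum (Finset.range M)
      (fun i _ => pow_nonneg h0 i)
    rwa [tsum_geometric_of_lt_one h0 h1, ← one_div] at this
  have hs : ∑ t ∈ Finset.range N, q^((n - t) + (t - n)) ≤
      ∑ t ∈ Finset.range (n + N), q^((n - t) + (t - n)) := by
    apply Finset.sum_le_sum_of_subset_of_nonneg
    · intro x hx
      rw [Finset.mem_range] at hx ⊢
      omega
    · intro i _ _
      exact pow_nonneg h0 _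
  refine hs.trans ?_
  rw [Finset.sum_range_add]
  have e1 : ∑ x ∈ Finset.range n, q^((n - x) + (x - n)) ≤ 1 / (1 - q) := by
    rw [← Finset.sum_range_reflect]
    refine le_trans (Finset.sum_le_sum fun j hj => ?_) (hg n)
    rw [Finset.mem_range] at hj
    have : (n - (n - 1 - j)) + ((n - 1 - j) - n) = j + 1 := by omega
    rw [this]
    exact pow_le_pow_of_le_one h0 h1.le (by omega)
  have e2 : ∑ x ∈ Finset.range N, q^((n - (n + x)) + ((n + x) - n)) ≤ 1 / (1 - q) := by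
    refine le_trans (Finset.sum_le_sum fun j hj => ?_) (hg N)
    have : (n - (n + j)) + ((n + j) - n) = j := by omega
    rw [this]
  have : (2:ℝ) / (1 - q) = 1 / (1 - q) + 1 / (1 - q) := by ring
  linarith

theorem sd_expo (n J t : ℕ) :
    (1/2:ℝ)^t * 2^(n+J) * (2:ℝ)^(-((n + J - t : ℕ) : ℝ) / 2) * (2:ℝ)^(-((n - t : ℕ) : ℝ)) *
      (2:ℝ)^(((t - n : ℕ) : ℝ)/4) ≤ (2:ℝ)^((J:ℝ)/2) * ((2:ℝ)^(-(1:ℝ)/4))^((n - t) + (t - n)) := by
  have e1 : (1/2:ℝ)^t = (2:ℝ)^(-(t:ℝ)) := by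
    rw [Real.rpow_neg (by norm_num), Real.rpow_natCast, one_div, inv_pow]
  have e2 : (2:ℝ)^(n+J) = (2:ℝ)^(((n:ℝ) + J)) := by
    rw [← Real.rpow_natCast]; push_cast; rfl
  have e3 : ((2:ℝ)^(-(1:ℝ)/4))^((n - t) + (t - n)) =
      (2:ℝ)^((-(1:ℝ)/4) * (((n - t : ℕ):ℝ) + ((t - n : ℕ):ℝ))) := by
    rw [← Real.rpow_natCast, ← Real.rpow_mul (by norm_num)]; push_cast; rfl
  rw [e1, e2, e3, ← Real.rpow_add (by norm_num), ← Real.rpow_add (by norm_num),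
    ← Real.rpow_add (by norm_num), ← Real.rpow_add (by norm_num), ← Real.rpow_add (by norm_num)]
  apply Real.rpow_le_rpow_of_exponent_le (by norm_num)
  have hn0 : (0:ℝ) ≤ n := Nat.cast_nonneg n
  have hJ0 : (0:ℝ) ≤ J := Nat.cast_nonneg J
  rcases le_total t n with h | h
  · have h' : t ≤ n + J := by omega
    rw [Nat.cast_sub h, Nat.cast_sub h', Nat.sub_eq_zero_of_le h]
    have hh : (t:ℝ) ≤ n := by exact_mod_cast h
    push_cast
    linarith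
  · rcases le_total t (n + J) with h' | h'
    · rw [Nat.cast_sub h, Nat.cast_sub h', Nat.sub_eq_zero_of_le h]
      have hh : (n:ℝ) ≤ t := by exact_mod_cast h
      have hh' : (t:ℝ) ≤ n + J := by exact_mod_cast h'
      push_cast
      linarith
    · rw [Nat.cast_sub h, Nat.sub_eq_zero_of_le h', Nat.sub_eq_zero_of_le h]
      have hh : (n:ℝ) ≤ t := by exact_mod_cast h
      have hh' : (n:ℝ) + J ≤ t := by exact_mod_cast h'
      push_cast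
      linarith

theorem Th_nonneg' (d n : ℕ) (T : Fin d → ℕ) : 0 ≤ Th d n T := by
  unfold Th
  positivity

theorem sumD (d : ℕ) (hd : 3 ≤ d) : ∃ a0 C : ℝ, 0 < a0 ∧ 0 < C ∧ ∀ (a : ℝ) (J n : ℕ), 0 < a → a ≤ a0 → J + 2 ≤ n →
    ∑ T : Fin d → Fin (n+J+3), (1/2:ℝ)^(∑ j, ((T j : Fin (n+J+3)) : ℕ)) *
      ((∑ m ∈ Finset.range (n+J+1), 2 * Th d m (fun j => T j)) *
        (Real.exp (Ax d n a (fun j => T j)) - 1 - Ax d n a (fun j => T j))) ≤ C * (2:ℝ)^((J:ℝ)/2) := by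
  obtain ⟨C1, hC1, hTh⟩ := Th_bound d (by omega)
  obtain ⟨c, hc, hshp⟩ := shp_lower d (by omega)
  obtain ⟨C4, hC4, hsum⟩ := sumTh d (by omega)
  obtain ⟨D, rfl⟩ : ∃ D, d = D + 3 := ⟨d - 3, by omega⟩
  have hD1 : D + 3 - 1 = D + 2 := by omega
  rw [hD1] at hTh hshp hsum
  obtain ⟨C5, hC5, hpoly⟩ := sd_poly (4 * (D + 2))
  have hl : 0 < Real.log 2 := Real.log_pos (by norm_num)
  have hl1 : Real.log 2 ≤ 1 := by
    have := Real.log_le_sub_one_of_pos (show (0:ℝ) < 2 by norm_num)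
    linarith
  set C2 : ℝ := C1 / c with hC2
  have hC2p : 0 < C2 := by positivity
  set R : ℝ := (3 * ((D:ℝ) + 3))^(D + 1) with hR
  have hR1 : 1 ≤ R := by
    apply one_le_pow₀
    have : (0:ℝ) ≤ D := Nat.cast_nonneg D
    linarith
  have hq1 : (2:ℝ)^(-(1:ℝ)/4) < 1 := Real.rpow_lt_one_of_one_lt_of_neg (by norm_num) (by norm_num)
  have hq0 : (0:ℝ) ≤ (2:ℝ)^(-(1:ℝ)/4) := by positivity
  refine ⟨Real.log 2 / (8 * C2 * R), 2^(D+2) * (2 * C4) * C5 * (2 / (1 - (2:ℝ)^(-(1:ℝ)/4))),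
    by positivity, ?_, ?_⟩
  · have : 0 < 1 - (2:ℝ)^(-(1:ℝ)/4) := by linarith
    positivity
  intro a J n ha ha0 hJn
  have hn1 : (1:ℝ) ≤ n := by exact_mod_cast (by omega : 1 ≤ n)
  have hn0 : (0:ℝ) < n := by linarith
  have haC : a * C2 * R ≤ Real.log 2 / 8 := by
    rw [le_div_iff₀ (by positivity)] at ha0
    nlinarith
  have haC1 : a * C2 ≤ 1 := by
    have : a * C2 ≤ a * C2 * R := le_mul_of_one_le_right (by positivity) hR1
    linarith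
  let f : ℕ → ℝ := fun t => (1/2:ℝ)^t * ((2 * (C4 * 2^(n+J) * (2:ℝ)^(-((n + J - t : ℕ) : ℝ) / 2) *
      (1 + ((t - (n + J) : ℕ) : ℝ))^(D+2))) *
      ((((n:ℝ)^(2 * (D + 1)))⁻¹ * (2:ℝ)^(-((n - t : ℕ) : ℝ)) * (1 + ((t - n : ℕ) : ℝ))^(2 * (D+2))) *
        (2:ℝ)^((1 + ((t - n : ℕ) : ℝ))/8)))
  have hf : ∀ t, 0 ≤ f t := fun t => by positivity
  have hterm : ∀ T : Fin (D+3) → Fin (n+J+3), (1/2:ℝ)^(∑ j, ((T j : Fin (n+J+3)) : ℕ)) *
      ((∑ m ∈ Finset.range (n+J+1), 2 * Th (D+3) m (fun j => T j)) *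
        (Real.exp (Ax (D+3) n a (fun j => T j)) - 1 - Ax (D+3) n a (fun j => T j))) ≤
        f (∑ j, ((T j : Fin (n+J+3)) : ℕ)) := by
    intro T
    set t : ℕ := ∑ j, ((T j : Fin (n+J+3)) : ℕ) with ht
    have htle : t ≤ (D + 3) * (n + J + 2) := by
      calc t ≤ ∑ _j : Fin (D+3), (n + J + 2) := Finset.sum_le_sum fun j _ => by
            have := (T j).2
            omega
        _ = (D + 3) * (n + J + 2) := by simp
    have htle2 : (t:ℝ) ≤ ((D:ℝ) + 3) * (2 * n) := by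
      have h1 : (t:ℝ) ≤ ((D:ℝ) + 3) * ((n:ℝ) + J + 2) := by exact_mod_cast htle
      have h2 : (J:ℝ) + 2 ≤ n := by exact_mod_cast hJn
      have h3 : (0:ℝ) ≤ (D:ℝ) + 3 := by positivity
      nlinarith
    set w : ℝ := ((t - n : ℕ) : ℝ) with hw
    have hw0 : 0 ≤ w := Nat.cast_nonneg _
    have hwt : w ≤ t := by
      rw [hw]; exact_mod_cast Nat.sub_le t n
    set E : ℝ := (2:ℝ)^(-((n - t : ℕ) : ℝ) / 2) with hE
    have hE0 : 0 < E := by positivity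
    have hE1 : E ≤ 1 := Real.rpow_le_one_of_one_le_of_nonpos (by norm_num)
      (by have : (0:ℝ) ≤ ((n - t : ℕ) : ℝ) := Nat.cast_nonneg _
          linarith)
    have hEE : E^2 = (2:ℝ)^(-((n - t : ℕ) : ℝ)) := by
      rw [hE, ← Real.rpow_natCast, ← Real.rpow_mul (by norm_num)]
      congr 1; push_cast; ring
    have hThn := hTh n (fun j => (T j : ℕ))
    have hA0 : 0 ≤ Ax (D+3) n a (fun j => T j) := by
      unfold Ax
      have := Th_nonneg' (D+3) n (fun j => (T j : ℕ))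
      positivity
    have hA : Ax (D+3) n a (fun j => T j) ≤ a * C2 * (E * (1 + w)^(D+2)) / (n:ℝ)^(D+1) := by
      unfold Ax
      have hs := hshp n (by omega)
      have hs0 : 0 < c * (n:ℝ)^(D+2) := by positivity
      calc a * n * Th (D+3) n (fun j => (T j : ℕ)) / (2^n * (shp (D+3) n : ℝ))
          ≤ a * n * (C1 * 2^n * E * (1 + w)^(D+2)) / (2^n * (c * (n:ℝ)^(D+2))) := by
            gcongr
        _ = a * C2 * (E * (1 + w)^(D+2)) / (n:ℝ)^(D+1) := by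
            rw [hC2]
            field_simp
            ring
    have hA2 : (Ax (D+3) n a (fun j => T j))^2 ≤ ((n:ℝ)^(2 * (D + 1)))⁻¹ *
        (2:ℝ)^(-((n - t : ℕ) : ℝ)) * (1 + w)^(2 * (D+2)) := by
      have h1 : (Ax (D+3) n a (fun j => T j))^2 ≤
          (a * C2 * (E * (1 + w)^(D+2)) / (n:ℝ)^(D+1))^2 := by
        gcongr
      have h2 : (a * C2 * (E * (1 + w)^(D+2)) / (n:ℝ)^(D+1))^2 ≤
          (1 * (E * (1 + w)^(D+2)) / (n:ℝ)^(D+1))^2 := by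
        gcongr
      refine h1.trans (h2.trans (le_of_eq ?_))
      rw [← hEE, div_pow, one_mul, mul_pow, ← pow_mul, ← pow_mul, mul_comm (D+2) 2,
        mul_comm (D+1) 2]
      field_simp
    have hAexp : Real.exp (Ax (D+3) n a (fun j => T j)) ≤ (2:ℝ)^((1 + w)/8) := by
      rw [Real.rpow_def_of_pos (by norm_num)]
      apply Real.exp_le_exp.2
      have hW : 1 + w ≤ 3 * ((D:ℝ) + 3) * n := by
        have h3 : (1:ℝ) ≤ ((D:ℝ) + 3) * n := by nlinarith [Nat.cast_nonneg (α := ℝ) D]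
        nlinarith
      have h1 : (1 + w)^(D+1) ≤ R * (n:ℝ)^(D+1) := by
        rw [hR, ← mul_pow]
        gcongr
      have h2 : a * C2 * (E * (1 + w)^(D+2)) / (n:ℝ)^(D+1) ≤ a * C2 * R * (1 + w) := by
        rw [div_le_iff₀ (by positivity)]
        calc a * C2 * (E * (1 + w)^(D+2)) ≤ a * C2 * (1 * (1 + w)^(D+2)) := by gcongr
          _ = a * C2 * (1 + w) * (1 + w)^(D+1) := by ring
          _ ≤ a * C2 * (1 + w) * (R * (n:ℝ)^(D+1)) := by gcongr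
          _ = _ := by ring
      have h3 : a * C2 * R * (1 + w) ≤ Real.log 2 / 8 * (1 + w) := by gcongr
      have h4 : Real.log 2 / 8 * (1 + w) = Real.log 2 * ((1 + w)/8) := by ring
      linarith
    have hexp := sd_exp _ hA0
    have hexp0 : 0 ≤ Real.exp (Ax (D+3) n a (fun j => T j)) - 1 - Ax (D+3) n a (fun j => T j) := by
      linarith [Real.add_one_le_exp (Ax (D+3) n a (fun j => T j))]
    have hS : ∑ m ∈ Finset.range (n+J+1), 2 * Th (D+3) m (fun j => T j) ≤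
        2 * (C4 * 2^(n+J) * (2:ℝ)^(-((n + J - t : ℕ) : ℝ) / 2) *
        (1 + ((t - (n + J) : ℕ) : ℝ))^(D+2)) := by
      rw [← Finset.mul_sum]
      exact mul_le_mul_of_nonneg_left (hsum (n+J) (fun j => (T j : ℕ))) (by norm_num)
    have hX : Real.exp (Ax (D+3) n a (fun j => T j)) - 1 - Ax (D+3) n a (fun j => T j) ≤
        (((n:ℝ)^(2 * (D + 1)))⁻¹ * (2:ℝ)^(-((n - t : ℕ) : ℝ)) * (1 + w)^(2 * (D+2))) *
        (2:ℝ)^((1 + w)/8) := by
      refine hexp.trans ?_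
      exact mul_le_mul hA2 hAexp (Real.exp_pos _).le (by positivity)
    show _ ≤ (1/2:ℝ)^t * _
    apply mul_le_mul_of_nonneg_left _ (by positivity)
    exact mul_le_mul hS hX hexp0 (by positivity)
  have hcount := count_T (D+3) (n+J+3) (by omega) f hf
  rw [hD1] at hcount
  have hbound : ∀ t : ℕ, ((t:ℝ) + 1)^(D+2) * f t ≤
      2^(D+2) * (2 * C4) * C5 * (2:ℝ)^((J:ℝ)/2) * ((2:ℝ)^(-(1:ℝ)/4))^((n - t) + (t - n)) := by
    intro t
    have hW : (1:ℝ) ≤ 1 + ((t - n : ℕ) : ℝ) := by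
      have : (0:ℝ) ≤ ((t - n : ℕ) : ℝ) := Nat.cast_nonneg _
      linarith
    have h1 : (t:ℝ) + 1 ≤ 2 * n * (1 + ((t - n : ℕ) : ℝ)) := by
      have : (t:ℝ) ≤ n + ((t - n : ℕ) : ℝ) := by
        have : t ≤ n + (t - n) := by omega
        exact_mod_cast this
      have h0 : (0:ℝ) ≤ ((t - n : ℕ) : ℝ) := Nat.cast_nonneg _
      nlinarith
    have h2 : ((t - (n + J) : ℕ) : ℝ) ≤ ((t - n : ℕ) : ℝ) := by
      have : t - (n + J) ≤ t - n := by omega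
      exact_mod_cast this
    have h3 : (n:ℝ)^(D+2) * ((n:ℝ)^(2 * (D + 1)))⁻¹ ≤ 1 := by
      rw [← div_eq_mul_inv, div_le_one (by positivity)]
      exact pow_le_pow_right₀ hn1 (by omega)
    have hp := hpoly (t - n)
    have he := sd_expo n J t
    set W : ℝ := 1 + ((t - n : ℕ) : ℝ) with hWdef
    have hW0 : 0 < W := by linarith
    calc ((t:ℝ) + 1)^(D+2) * f t
        ≤ (2 * n * W)^(D+2) * ((1/2:ℝ)^t * ((2 * (C4 * 2^(n+J) *
          (2:ℝ)^(-((n + J - t : ℕ) : ℝ) / 2) * W^(D+2))) *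
          ((((n:ℝ)^(2 * (D + 1)))⁻¹ * (2:ℝ)^(-((n - t : ℕ) : ℝ)) * W^(2 * (D+2))) *
          (2:ℝ)^(W/8)))) := by
          show _ * ((1/2:ℝ)^t * _) ≤ _
          gcongr
          linarith
      _ = 2^(D+2) * (2 * C4) * ((n:ℝ)^(D+2) * ((n:ℝ)^(2 * (D + 1)))⁻¹) *
          ((W^(4 * (D+2)) * (2:ℝ)^(W/8)) * ((1/2:ℝ)^t * 2^(n+J) *
          (2:ℝ)^(-((n + J - t : ℕ) : ℝ) / 2) * (2:ℝ)^(-((n - t : ℕ) : ℝ)))) := by
          rw [mul_pow, mul_pow]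
          have : W^(4 * (D+2)) = W^(D+2) * W^(D+2) * W^(2 * (D+2)) := by
            rw [← pow_add, ← pow_add]; congr 1; ring
          rw [this]
          ring
      _ ≤ 2^(D+2) * (2 * C4) * 1 *
          ((C5 * (2:ℝ)^(((t - n : ℕ) : ℝ)/4)) * ((1/2:ℝ)^t * 2^(n+J) *
          (2:ℝ)^(-((n + J - t : ℕ) : ℝ) / 2) * (2:ℝ)^(-((n - t : ℕ) : ℝ)))) := by
          gcongr
      _ = 2^(D+2) * (2 * C4) * C5 * ((1/2:ℝ)^t * 2^(n+J) *
          (2:ℝ)^(-((n + J - t : ℕ) : ℝ) / 2) * (2:ℝ)^(-((n - t : ℕ) : ℝ)) *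
          (2:ℝ)^(((t - n : ℕ) : ℝ)/4)) := by ring
      _ ≤ 2^(D+2) * (2 * C4) * C5 * ((2:ℝ)^((J:ℝ)/2) *
          ((2:ℝ)^(-(1:ℝ)/4))^((n - t) + (t - n))) := by gcongr
      _ = _ := by ring
  calc _ ≤ ∑ T : Fin (D+3) → Fin (n+J+3), f (∑ j, ((T j : Fin (n+J+3)) : ℕ)) :=
        Finset.sum_le_sum fun T _ => hterm T
    _ ≤ ∑ t ∈ Finset.range ((D+3) * (n+J+3) + 1), ((t:ℝ) + 1)^(D+2) * f t := hcount
    _ ≤ ∑ t ∈ Finset.range ((D+3) * (n+J+3) + 1), 2^(D+2) * (2 * C4) * C5 * (2:ℝ)^((J:ℝ)/2) *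
        ((2:ℝ)^(-(1:ℝ)/4))^((n - t) + (t - n)) := Finset.sum_le_sum fun t _ => hbound t
    _ = 2^(D+2) * (2 * C4) * C5 * (2:ℝ)^((J:ℝ)/2) * ∑ t ∈ Finset.range ((D+3) * (n+J+3) + 1),
        ((2:ℝ)^(-(1:ℝ)/4))^((n - t) + (t - n)) := by rw [Finset.mul_sum]
    _ ≤ 2^(D+2) * (2 * C4) * C5 * (2:ℝ)^((J:ℝ)/2) * (2 / (1 - (2:ℝ)^(-(1:ℝ)/4))) := by
        gcongr
        exact sd_geo _ hq0 hq1 n _
    _ = _ := by ring

end Sol_EX_sumD

alias sumD := Sol_EX_sumD.sumD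

end HypVol
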