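import Pool.Agent.EntX.Defs2
import Pool.Agent.EntX.L_Th_bound
import Pool.Agent.EntX.L_count_T
import Pool.Agent.HypVol.L_shp_lower
open MeasureTheory Real ProbabilityTheory
open scoped ENNReal BigOperators

namespace HypVol
namespace Sol_EX_sumH

theorem sumHks_inj (ρ : ℝ) (h0 : 0 < ρ) (h1 : ρ < 1) (S : Finset ℕ) (φ : ℕ → ℕ)
    (hφ : Set.InjOn φ (S : Set ℕ)) : ∑ k ∈ S, ρ ^ (φ k) ≤ (1 - ρ)⁻¹ := by
  rw [← Finset.sum_image (f := fun i => ρ ^ i) hφ, ← tsum_geometric_of_lt_one h0.le h1]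
  exact (summable_geometric_of_lt_one h0.le h1).sum_le_tsum _ (fun i _ => by positivity)

theorem sumHks_geo (ρ : ℝ) (h0 : 0 < ρ) (h1 : ρ < 1) (N t : ℕ) :
    ∑ k : Fin N, ρ ^ (max (k : ℕ) t - min (k : ℕ) t) ≤ 2 / (1 - ρ) := by
  rw [Fin.sum_univ_eq_sum_range (fun k => ρ ^ (max k t - min k t)) N,
    ← Finset.sum_filter_add_sum_filter_not (Finset.range N) (fun k => t ≤ k)]
  have e1 : ∑ k ∈ (Finset.range N).filter (fun k => t ≤ k), ρ ^ (max k t - min k t)
      = ∑ k ∈ (Finset.range N).filter (fun k => t ≤ k), ρ ^ (k - t) := by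
    apply Finset.sum_congr rfl
    intro k hk
    rw [Finset.mem_filter] at hk
    rw [max_eq_left hk.2, min_eq_right hk.2]
  have e2 : ∑ k ∈ (Finset.range N).filter (fun k => ¬ t ≤ k), ρ ^ (max k t - min k t)
      = ∑ k ∈ (Finset.range N).filter (fun k => ¬ t ≤ k), ρ ^ (t - k) := by
    apply Finset.sum_congr rfl
    intro k hk
    rw [Finset.mem_filter, not_le] at hk
    rw [max_eq_right hk.2.le, min_eq_left hk.2.le]
  rw [e1, e2]
  have f1 := sumHks_inj ρ h0 h1 ((Finset.range N).filter (fun k => t ≤ k)) (fun k => k - t) (by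
    intro x hx y hy hxy
    simp only [Finset.coe_filter, Finset.mem_range, Set.mem_ofPred_eq] at hx hy
    simp only at hxy
    omega)
  have f2 := sumHks_inj ρ h0 h1 ((Finset.range N).filter (fun k => ¬ t ≤ k)) (fun k => t - k) (by
    intro x hx y hy hxy
    simp only [Finset.coe_filter, Finset.mem_range, Set.mem_ofPred_eq] at hx hy
    simp only at hxy
    omega)
  have : 2 / (1 - ρ) = (1 - ρ)⁻¹ + (1 - ρ)⁻¹ := by ring
  rw [this]
  exact add_le_add f1 f2

theorem sumHks_abs (k t : ℕ) : |(k : ℝ) - t| = ((max k t - min k t : ℕ) : ℝ) := by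
  rcases le_total k t with h | h
  · rw [max_eq_right h, min_eq_left h, Nat.cast_sub h, abs_sub_comm, abs_of_nonneg]
    rw [sub_nonneg]; exact_mod_cast h
  · rw [max_eq_left h, min_eq_right h, Nat.cast_sub h, abs_of_nonneg]
    rw [sub_nonneg]; exact_mod_cast h

theorem sumHks_one (κ : ℝ) (hκ : 0 < κ) (N t : ℕ) (E : ℝ) (hE : 0 ≤ E) :
    ∑ k : Fin N, Real.exp (-(κ * max 0 (|((k : ℕ) : ℝ) - t| - E)))
      ≤ (Real.exp κ * (2 / κ + 2)) * (1 + E) := by
  set z : ℝ := κ / (1 + E) with hz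
  have hz0 : 0 < z := by positivity
  set ρ : ℝ := Real.exp (-z) with hρ
  have hρ0 : 0 < ρ := Real.exp_pos _
  have hρ1 : ρ < 1 := by rw [hρ, Real.exp_lt_one_iff]; linarith
  have h1 : ∀ k : Fin N, Real.exp (-(κ * max 0 (|((k : ℕ) : ℝ) - t| - E)))
      ≤ Real.exp κ * ρ ^ (max (k : ℕ) t - min (k : ℕ) t) := by
    intro k
    rw [hρ, ← Real.exp_nat_mul, ← sumHks_abs, ← Real.exp_add]
    apply Real.exp_le_exp.2
    set y : ℝ := |((k : ℕ) : ℝ) - t| with hy
    have hy0 : 0 ≤ y := abs_nonneg _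
    have h2 : y / (1 + E) - 1 ≤ max 0 (y - E) := by
      have hE1 : 0 < 1 + E := by linarith
      rcases le_total y (1 + E) with h | h
      · refine le_trans ?_ (le_max_left _ _)
        rw [sub_nonpos, div_le_one hE1]; exact h
      · refine le_trans ?_ (le_max_right _ _)
        have : y / (1 + E) - 1 = (y - (1 + E)) / (1 + E) := by
          field_simp
        rw [this, div_le_iff₀ hE1]
        nlinarith
    have h3 := mul_le_mul_of_nonneg_left h2 hκ.le
    have h4 : y * -z = -(κ * (y / (1 + E))) := by rw [hz]; ring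
    rw [h4]
    linarith
  have h5 := sumHks_geo ρ hρ0 hρ1 N t
  have h6 : 2 / (1 - ρ) ≤ (2 / κ + 2) * (1 + E) := by
    have h7 : ρ ≤ 1 / (1 + z) := by
      rw [hρ, Real.exp_neg, ← one_div]
      apply one_div_le_one_div_of_le (by positivity)
      have := Real.add_one_le_exp z
      linarith
    have h8 : z / (1 + z) ≤ 1 - ρ := by
      have : z / (1 + z) = 1 - 1 / (1 + z) := by field_simp; ring
      rw [this]; linarith
    have h9 : 2 / (1 - ρ) ≤ 2 / (z / (1 + z)) :=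
      div_le_div_of_nonneg_left (by norm_num) (by positivity) h8
    refine h9.trans ?_
    have : 2 / (z / (1 + z)) = 2 * (1 + E) / κ + 2 := by
      rw [hz]; field_simp
    rw [this]
    have e1 : (2 / κ + 2) * (1 + E) = 2 * (1 + E) / κ + 2 + 2 * E := by ring
    rw [e1]
    linarith
  calc ∑ k : Fin N, Real.exp (-(κ * max 0 (|((k : ℕ) : ℝ) - t| - E)))
      ≤ ∑ k : Fin N, Real.exp κ * ρ ^ (max (k : ℕ) t - min (k : ℕ) t) :=
        Finset.sum_le_sum fun k _ => h1 k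
    _ = Real.exp κ * ∑ k : Fin N, ρ ^ (max (k : ℕ) t - min (k : ℕ) t) := by
        rw [Finset.mul_sum]
    _ ≤ Real.exp κ * ((2 / κ + 2) * (1 + E)) :=
        mul_le_mul_of_nonneg_left (h5.trans h6) (Real.exp_pos _).le
    _ = _ := by ring

theorem sumHks_shape (D n : ℕ) (hD : 1 ≤ D) (s : Fin (D + 1) → Fin (n + 1))
    (hs : ∑ j, ((s j : Fin (n + 1)) : ℕ) = n) (T : Fin (D + 1) → ℕ) :
    (2 : ℝ) ^ (∑ j, min (s j : ℕ) (T j)) ≤ 2 ^ n *
      Real.exp (-(Real.log 2 * ((n - ∑ j, T j : ℕ) : ℝ) / 2)) *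
      ∏ j : Fin D, Real.exp (-(Real.log 2 / (4 * D) *
        max 0 (|((s j.castSucc : ℕ) : ℝ) - T j.castSucc| - ((∑ j, T j - n : ℕ) : ℝ)))) := by
  set m : ℕ := ∑ j, min (s j : ℕ) (T j) with hm
  set tot : ℕ := ∑ j, T j with htot
  have hl : 0 < Real.log 2 := Real.log_pos (by norm_num)
  have hDr : (0 : ℝ) < D := by exact_mod_cast hD
  have c1 : m ≤ n := by
    rw [← hs]; exact Finset.sum_le_sum fun j _ => min_le_left _ _
  have c2 : m ≤ tot := Finset.sum_le_sum fun j _ => min_le_right _ _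
  have c3 : ∀ j, |((s j : ℕ) : ℝ) - T j| ≤ n + tot - 2 * m := by
    intro j
    have e1 : ∑ j, |((s j : ℕ) : ℝ) - T j| = n + tot - 2 * m := by
      have e2 : ∀ j, |((s j : ℕ) : ℝ) - T j|
          = ((s j : ℕ) : ℝ) + T j - 2 * ((min (s j : ℕ) (T j) : ℕ) : ℝ) := by
        intro j
        rcases le_total (s j : ℕ) (T j) with h | h
        · rw [min_eq_left h, abs_sub_comm, abs_of_nonneg]
          · ring
          · rw [sub_nonneg]; exact_mod_cast h
        · rw [min_eq_right h, abs_of_nonneg]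
          · ring
          · rw [sub_nonneg]; exact_mod_cast h
      rw [Finset.sum_congr rfl (fun j _ => e2 j), Finset.sum_sub_distrib, Finset.sum_add_distrib,
        ← Finset.mul_sum, hm, htot]
      have e3 : (n : ℝ) = ∑ j, (((s j : Fin (n + 1)) : ℕ) : ℝ) := by
        have := congrArg (fun x : ℕ => (x : ℝ)) hs
        simp only [Nat.cast_sum] at this
        exact this.symm
      rw [← e3]
      push_cast
      rfl
    rw [← e1]
    exact Finset.single_le_sum (f := fun j => |((s j : ℕ) : ℝ) - T j|)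
      (fun j _ => abs_nonneg _) (Finset.mem_univ j)
  have c1r : (m : ℝ) ≤ n := by exact_mod_cast c1
  have c2r : (m : ℝ) ≤ tot := by exact_mod_cast c2
  
  have p1 : (2 : ℝ) ^ m = Real.exp (m * Real.log 2) := by
    rw [Real.exp_nat_mul, Real.exp_log (by norm_num)]
  have p2 : (2 : ℝ) ^ n = Real.exp (n * Real.log 2) := by
    rw [Real.exp_nat_mul, Real.exp_log (by norm_num)]
  rw [p1, p2, ← Real.exp_sum, ← Real.exp_add, ← Real.exp_add]
  apply Real.exp_le_exp.2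
  have hp : ((tot - n : ℕ) : ℝ) = max 0 ((tot : ℝ) - n) := by
    rcases le_total n tot with h | h
    · have h' : (n : ℝ) ≤ tot := by exact_mod_cast h
      rw [Nat.cast_sub h, max_eq_right (by linarith)]
    · have h' : (tot : ℝ) ≤ n := by exact_mod_cast h
      rw [Nat.sub_eq_zero_of_le h, max_eq_left (by linarith)]; simp
  have hq : ((n - tot : ℕ) : ℝ) = max 0 ((n : ℝ) - tot) := by
    rcases le_total tot n with h | h
    · have h' : (tot : ℝ) ≤ n := by exact_mod_cast h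
      rw [Nat.cast_sub h, max_eq_right (by linarith)]
    · have h' : (n : ℝ) ≤ tot := by exact_mod_cast h
      rw [Nat.sub_eq_zero_of_le h, max_eq_left (by linarith)]; simp
  have hqu : ((n - tot : ℕ) : ℝ) ≤ n - m := by
    rw [hq]; apply max_le <;> linarith
  have hsum : ∑ j : Fin D, -(Real.log 2 / (4 * D) *
        max 0 (|((s j.castSucc : ℕ) : ℝ) - T j.castSucc| - ((tot - n : ℕ) : ℝ)))
      ≥ ∑ j : Fin D, -(Real.log 2 / (4 * D) * (2 * (n - m))) := by
    apply Finset.sum_le_sum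
    intro j _
    apply neg_le_neg
    apply mul_le_mul_of_nonneg_left _ (by positivity)
    apply max_le
    · linarith
    · have h1 := c3 j.castSucc
      have h2 : (tot : ℝ) - n ≤ ((tot - n : ℕ) : ℝ) := by rw [hp]; exact le_max_right _ _
      linarith
  rw [Finset.sum_const, Finset.card_univ, Fintype.card_fin, nsmul_eq_mul] at hsum
  have e5 : (D : ℝ) * -(Real.log 2 / (4 * D) * (2 * (n - m))) = -(Real.log 2 * (n - m) / 2) := by
    field_simp
    ring
  rw [e5] at hsum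
  have h6 := mul_le_mul_of_nonneg_left hqu hl.le
  linarith

theorem sumHks_Th (D n : ℕ) (hD : 1 ≤ D) (T : Fin (D + 1) → ℕ) :
    Th (D + 1) n T ≤ 2 ^ n *
      Real.exp (-(Real.log 2 * ((n - ∑ j, T j : ℕ) : ℝ) / 2)) *
      ((Real.exp (Real.log 2 / (4 * D)) * (2 / (Real.log 2 / (4 * D)) + 2)) *
        (1 + ((∑ j, T j - n : ℕ) : ℝ))) ^ D := by
  classical
  have hl : 0 < Real.log 2 := Real.log_pos (by norm_num)
  have hDr : (0 : ℝ) < D := by exact_mod_cast hD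
  set κ : ℝ := Real.log 2 / (4 * D) with hκ
  have hκ0 : 0 < κ := by positivity
  set E : ℝ := ((∑ j, T j - n : ℕ) : ℝ) with hE
  have hE0 : 0 ≤ E := Nat.cast_nonneg _
  set g : Fin D → Fin (n + 1) → ℝ := fun j k =>
    Real.exp (-(κ * max 0 (|((k : ℕ) : ℝ) - T j.castSucc| - E))) with hg
  have h1 : Th (D + 1) n T ≤ ∑ s ∈ Sh (D + 1) n, (2 ^ n *
      Real.exp (-(Real.log 2 * ((n - ∑ j, T j : ℕ) : ℝ) / 2)) *
      ∏ j : Fin D, g j (s j.castSucc)) := by
    unfold Th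
    apply Finset.sum_le_sum
    intro s hs
    have hs' : ∑ j, ((s j : Fin (n + 1)) : ℕ) = n := by
      unfold Sh at hs
      exact (Finset.mem_filter.1 hs).2
    exact sumHks_shape D n hD s hs' T
  rw [← Finset.mul_sum] at h1
  refine h1.trans ?_
  apply mul_le_mul_of_nonneg_left _ (by positivity)
  
  have hinj : Set.InjOn (fun s : Fin (D + 1) → Fin (n + 1) => fun j : Fin D => s j.castSucc)
      (Sh (D + 1) n : Set (Fin (D + 1) → Fin (n + 1))) := by
    intro s hs s' hs' hss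
    have a1 : ∑ j, ((s j : Fin (n + 1)) : ℕ) = n := by
      have := Finset.mem_coe.1 hs
      unfold Sh at this
      exact (Finset.mem_filter.1 this).2
    have a2 : ∑ j, ((s' j : Fin (n + 1)) : ℕ) = n := by
      have := Finset.mem_coe.1 hs'
      unfold Sh at this
      exact (Finset.mem_filter.1 this).2
    have hc : ∀ j : Fin D, s j.castSucc = s' j.castSucc := fun j => congrFun hss j
    rw [Fin.sum_univ_castSucc] at a1 a2
    have a3 : ∑ j : Fin D, ((s j.castSucc : Fin (n + 1)) : ℕ)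
        = ∑ j : Fin D, ((s' j.castSucc : Fin (n + 1)) : ℕ) :=
      Finset.sum_congr rfl (fun j _ => by rw [hc j])
    funext j
    refine Fin.lastCases ?_ (fun j => hc j) j
    apply Fin.ext
    omega
  have h2 : ∑ s ∈ Sh (D + 1) n, ∏ j : Fin D, g j (s j.castSucc)
      ≤ ∑ p : Fin D → Fin (n + 1), ∏ j, g j (p j) := by
    rw [← Finset.sum_image (f := fun p : Fin D → Fin (n + 1) => ∏ j, g j (p j)) hinj]
    apply Finset.sum_le_sum_of_subset_of_nonneg (Finset.subset_univ _)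
    intro p _ _
    exact Finset.prod_nonneg fun j _ => (Real.exp_pos _).le
  refine h2.trans ?_
  have h3 : ∑ p : Fin D → Fin (n + 1), ∏ j, g j (p j) = ∏ j, ∑ k, g j k := by
    rw [Finset.prod_univ_sum]
    simp
  rw [h3]
  calc ∏ j, ∑ k, g j k ≤ ∏ _j : Fin D, ((Real.exp κ * (2 / κ + 2)) * (1 + E)) := by
        apply Finset.prod_le_prod
        · intro j _
          exact Finset.sum_nonneg fun k _ => (Real.exp_pos _).le
        · intro j _
          exact sumHks_one κ hκ0 (n + 1) (T j.castSucc) E hE0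
    _ = _ := by rw [Finset.prod_const, Finset.card_univ, Fintype.card_fin]

theorem sumHks_Th_le (d n : ℕ) (T : Fin d → ℕ) : Th d n T ≤ 2 ^ n * shp d n := by
  unfold Th shp
  have : ∑ s ∈ Sh d n, (2 : ℝ) ^ (∑ j, min (s j : ℕ) (T j)) ≤ ∑ s ∈ Sh d n, (2 : ℝ) ^ n := by
    apply Finset.sum_le_sum
    intro s hs
    apply pow_le_pow_right₀ (by norm_num)
    have hs' : ∑ j, ((s j : Fin (n + 1)) : ℕ) = n := by
      unfold Sh at hs
      exact (Finset.mem_filter.1 hs).2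
    calc ∑ j, min (s j : ℕ) (T j) ≤ ∑ j, ((s j : Fin (n + 1)) : ℕ) :=
          Finset.sum_le_sum fun j _ => min_le_left _ _
      _ = n := hs'
  refine this.trans (le_of_eq ?_)
  rw [Finset.sum_const, nsmul_eq_mul, mul_comm]

theorem sumHks_le_Th (d n : ℕ) (T : Fin d → ℕ) : (shp d n : ℝ) ≤ Th d n T := by
  unfold Th shp
  have : ∑ s ∈ Sh d n, (1 : ℝ) ≤ ∑ s ∈ Sh d n, (2 : ℝ) ^ (∑ j, min (s j : ℕ) (T j)) := by
    apply Finset.sum_le_sum
    intro s _
    exact one_le_pow₀ (by norm_num)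
  simpa using this

theorem sumHks_count (D N : ℕ) (f : ℕ → ℝ) (hf : ∀ m, 0 ≤ f m) (M : ℕ)
    (hM : ∀ T : Fin (D + 1) → Fin N, ∑ j, ((T j : Fin N) : ℕ) < M) :
    ∑ T : Fin (D + 1) → Fin N, f (∑ j, ((T j : Fin N) : ℕ)) ≤ (N : ℝ) ^ D * ∑ m ∈ Finset.range M, f m := by
  classical
  rw [← Finset.sum_fiberwise_of_maps_to (s := (Finset.univ : Finset (Fin (D + 1) → Fin N)))
    (t := Finset.range M) (g := fun T => ∑ j, ((T j : Fin N) : ℕ))
    (fun T _ => Finset.mem_range.2 (hM T))]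
  rw [Finset.mul_sum]
  apply Finset.sum_le_sum
  intro m _
  have h1 : ∑ T ∈ Finset.univ.filter (fun T : Fin (D + 1) → Fin N => ∑ j, ((T j : Fin N) : ℕ) = m),
      f (∑ j, ((T j : Fin N) : ℕ))
      = ((Finset.univ.filter (fun T : Fin (D + 1) → Fin N => ∑ j, ((T j : Fin N) : ℕ) = m)).card : ℝ)
        * f m := by
    rw [← nsmul_eq_mul, ← Finset.sum_const]
    apply Finset.sum_congr rfl
    intro T hT
    rw [(Finset.mem_filter.1 hT).2]
  rw [h1]
  apply mul_le_mul_of_nonneg_right _ (hf m)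
  have h2 : (Finset.univ.filter (fun T : Fin (D + 1) → Fin N =>
      ∑ j, ((T j : Fin N) : ℕ) = m)).card ≤ (Finset.univ : Finset (Fin D → Fin N)).card := by
    apply Finset.card_le_card_of_injOn (fun T : Fin (D + 1) → Fin N => fun j : Fin D => T j.castSucc)
      (fun T _ => Finset.mem_coe.2 (Finset.mem_univ _))
    intro s hs s' hs' hss
    have a1 : ∑ j, ((s j : Fin N) : ℕ) = m := (Finset.mem_filter.1 (Finset.mem_coe.1 hs)).2
    have a2 : ∑ j, ((s' j : Fin N) : ℕ) = m := (Finset.mem_filter.1 (Finset.mem_coe.1 hs')).2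
    have hc : ∀ j : Fin D, s j.castSucc = s' j.castSucc := fun j => congrFun hss j
    rw [Fin.sum_univ_castSucc] at a1 a2
    have a3 : ∑ j : Fin D, ((s j.castSucc : Fin N) : ℕ)
        = ∑ j : Fin D, ((s' j.castSucc : Fin N) : ℕ) :=
      Finset.sum_congr rfl (fun j _ => by rw [hc j])
    funext j
    refine Fin.lastCases ?_ (fun j => hc j) j
    apply Fin.ext
    omega
  rw [Finset.card_univ, Fintype.card_fun, Fintype.card_fin, Fintype.card_fin] at h2
  exact_mod_cast h2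

theorem sumHks_tsum (h : ℕ → ℝ) (hs : Summable h) (h0 : ∀ i, 0 ≤ h i) (S : Finset ℕ) (φ : ℕ → ℕ)
    (hφ : Set.InjOn φ (S : Set ℕ)) : ∑ k ∈ S, h (φ k) ≤ ∑' i, h i := by
  rw [← Finset.sum_image (f := fun i => h i) hφ]
  exact hs.sum_le_tsum _ (fun i _ => h0 i)

theorem sumHks_B1 (D' n p : ℕ) (hn : 1 ≤ n) (C0 c th s : ℝ) (hC0 : 0 < C0) (hc : 0 < c)
    (hs : c * (n : ℝ) ^ (D' + 1) ≤ s) (hs0 : 0 < s) (h1 : th ≤ 2 ^ n * s)
    (h2 : th ≤ 2 ^ n * (C0 * (1 + p)) ^ (D' + 1)) :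
    n * th / (2 ^ n * s) ≤ (1 + C0 ^ (D' + 1) * 2 ^ D' / c) * (1 + p) := by
  have hn0 : (0 : ℝ) < n := by exact_mod_cast hn
  have hn1 : (1 : ℝ) ≤ n := by exact_mod_cast hn
  have hp0 : (0 : ℝ) ≤ p := Nat.cast_nonneg p
  rw [div_le_iff₀ (by positivity)]
  rcases le_total p n with h | h
  · have hpn : (p : ℝ) ≤ n := by exact_mod_cast h
    have e1 : (1 + (p : ℝ)) ^ D' ≤ (2 * n) ^ D' :=
      pow_le_pow_left₀ (by positivity) (by linarith) _
    have e2 : n * th ≤ n * (2 ^ n * (C0 * (1 + p)) ^ (D' + 1)) :=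
      mul_le_mul_of_nonneg_left h2 hn0.le
    have e3 : n * (2 ^ n * (C0 * (1 + (p : ℝ))) ^ (D' + 1))
        = (n * 2 ^ n * C0 ^ (D' + 1) * (1 + p)) * (1 + (p : ℝ)) ^ D' := by
      rw [mul_pow, pow_succ (1 + (p : ℝ))]; ring
    have e4 : (n * 2 ^ n * C0 ^ (D' + 1) * (1 + p)) * (1 + (p : ℝ)) ^ D'
        ≤ (n * 2 ^ n * C0 ^ (D' + 1) * (1 + p)) * (2 * n) ^ D' :=
      mul_le_mul_of_nonneg_left e1 (by positivity)
    have e5 : (n * 2 ^ n * C0 ^ (D' + 1) * (1 + p)) * (2 * (n : ℝ)) ^ D'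
        = (2 ^ n * C0 ^ (D' + 1) * (1 + p) * 2 ^ D') * (n : ℝ) ^ (D' + 1) := by
      rw [mul_pow, pow_succ (n : ℝ)]; ring
    have e6 : (n : ℝ) ^ (D' + 1) ≤ s / c := by
      rw [le_div_iff₀ hc]; linarith
    have e7 : (2 ^ n * C0 ^ (D' + 1) * (1 + p) * 2 ^ D') * (n : ℝ) ^ (D' + 1)
        ≤ (2 ^ n * C0 ^ (D' + 1) * (1 + p) * 2 ^ D') * (s / c) :=
      mul_le_mul_of_nonneg_left e6 (by positivity)
    have e8 : (2 ^ n * C0 ^ (D' + 1) * (1 + p) * 2 ^ D') * (s / c)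
        = (C0 ^ (D' + 1) * 2 ^ D' / c) * (1 + p) * (2 ^ n * s) := by ring
    have e9 : 0 ≤ (1 + (p : ℝ)) * (2 ^ n * s) := by positivity
    calc n * th ≤ (C0 ^ (D' + 1) * 2 ^ D' / c) * (1 + p) * (2 ^ n * s) := by
          linarith
      _ ≤ (1 + C0 ^ (D' + 1) * 2 ^ D' / c) * (1 + p) * (2 ^ n * s) := by
          have : (1 + C0 ^ (D' + 1) * 2 ^ D' / c) * (1 + p) * (2 ^ n * s)
            = (C0 ^ (D' + 1) * 2 ^ D' / c) * (1 + p) * (2 ^ n * s)
              + (1 + (p : ℝ)) * (2 ^ n * s) := by ring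
          rw [this]; linarith
  · have hpn : (n : ℝ) ≤ p := by exact_mod_cast h
    have e1 : n * th ≤ (1 + (p : ℝ)) * (2 ^ n * s) := by
      calc n * th ≤ n * (2 ^ n * s) := mul_le_mul_of_nonneg_left h1 hn0.le
        _ ≤ (1 + (p : ℝ)) * (2 ^ n * s) :=
          mul_le_mul_of_nonneg_right (by linarith) (by positivity)
    have e2 : 0 ≤ (C0 ^ (D' + 1) * 2 ^ D' / c) * (1 + (p : ℝ)) * (2 ^ n * s) := by positivity
    have e3 : (1 + C0 ^ (D' + 1) * 2 ^ D' / c) * (1 + p) * (2 ^ n * s)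
            = (C0 ^ (D' + 1) * 2 ^ D' / c) * (1 + p) * (2 ^ n * s)
              + (1 + (p : ℝ)) * (2 ^ n * s) := by ring
    rw [e3]; linarith

theorem sumHks_term (D n m : ℕ) (hn : 1 ≤ n) (C0 C1 th s : ℝ) (hC0 : 0 < C0) (hC1 : 0 < C1)
    (hs0 : 0 < s) (h1 : 1 ≤ th)
    (hB : n * th / (2 ^ n * s) ≤ C1 * (1 + ((m - n : ℕ) : ℝ)))
    (h2 : th ≤ 2 ^ n * Real.exp (-(Real.log 2 * ((n - m : ℕ) : ℝ) / 2)) *
      (C0 * (1 + ((m - n : ℕ) : ℝ))) ^ D) :
    (1 / 2 : ℝ) ^ m * ((1 + 2 * th) ^ 2 * (Real.exp (1 / (4 * C1) * n * th / (2 ^ n * s)) - 1))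
      ≤ (9 * (1 / (4 * C1)) * n * 2 ^ n / s * C0 ^ (3 * D)) *
        (((1 + ((m - n : ℕ) : ℝ)) ^ (3 * D) *
          Real.exp ((1 + ((m - n : ℕ) : ℝ)) / 4 - Real.log 2 * ((m - n : ℕ) : ℝ))) *
          Real.exp (-(Real.log 2 * ((n - m : ℕ) : ℝ) / 2))) := by
  set p : ℝ := ((m - n : ℕ) : ℝ) with hp
  set q : ℝ := ((n - m : ℕ) : ℝ) with hq
  have hp0 : 0 ≤ p := Nat.cast_nonneg _
  have hq0 : 0 ≤ q := Nat.cast_nonneg _
  have hpq : p - q = (m : ℝ) - n := by
    rw [hp, hq]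
    rcases le_total m n with h | h
    · rw [Nat.sub_eq_zero_of_le h, Nat.cast_sub h]; simp
    · rw [Nat.sub_eq_zero_of_le h, Nat.cast_sub h]; simp
  have hn0 : (0 : ℝ) < n := by exact_mod_cast hn
  set Z : ℝ := 1 / (4 * C1) * n * th / (2 ^ n * s) with hZ
  have hZe : Z = (1 / (4 * C1)) * (n * th / (2 ^ n * s)) := by rw [hZ]; ring
  have hZ0 : 0 ≤ Z := by rw [hZ]; positivity
  have hZ1 : Z ≤ (1 + p) / 4 := by
    rw [hZe]
    have := mul_le_mul_of_nonneg_left hB (by positivity : 0 ≤ 1 / (4 * C1))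
    refine this.trans (le_of_eq ?_)
    field_simp
  have e1 : Real.exp Z - 1 ≤ Z * Real.exp ((1 + p) / 4) := by
    have f1 : 1 - Z ≤ Real.exp (-Z) := by
      have := Real.add_one_le_exp (-Z); linarith
    have f2 : (1 - Z) * Real.exp Z ≤ Real.exp (-Z) * Real.exp Z :=
      mul_le_mul_of_nonneg_right f1 (Real.exp_pos _).le
    rw [← Real.exp_add, neg_add_cancel, Real.exp_zero] at f2
    have f3 : Z * Real.exp Z ≤ Z * Real.exp ((1 + p) / 4) :=
      mul_le_mul_of_nonneg_left (Real.exp_le_exp.2 hZ1) hZ0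
    linarith
  have e2 : (1 + 2 * th) ^ 2 ≤ 9 * th ^ 2 := by nlinarith
  have e3 : (1 + 2 * th) ^ 2 * (Real.exp Z - 1) ≤ 9 * th ^ 2 * (Z * Real.exp ((1 + p) / 4)) := by
    apply mul_le_mul e2 e1 _ (by positivity)
    have := Real.add_one_le_exp Z
    linarith
  have e4 := mul_le_mul_of_nonneg_left e3 (by positivity : (0 : ℝ) ≤ (1 / 2) ^ m)
  refine e4.trans ?_
  have e5 : (1 / 2 : ℝ) ^ m * (9 * th ^ 2 * (Z * Real.exp ((1 + p) / 4)))
      = (9 * (1 / (4 * C1)) * n / (2 ^ n * s) * Real.exp ((1 + p) / 4) * (1 / 2) ^ m) * th ^ 3 := by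
    rw [hZe]; ring
  rw [e5]
  have e6 : th ^ 3 ≤ (2 ^ n * Real.exp (-(Real.log 2 * q / 2)) * (C0 * (1 + p)) ^ D) ^ 3 :=
    pow_le_pow_left₀ (by linarith) h2 3
  have e7 := mul_le_mul_of_nonneg_left e6 (by positivity :
    0 ≤ 9 * (1 / (4 * C1)) * n / (2 ^ n * s) * Real.exp ((1 + p) / 4) * (1 / 2 : ℝ) ^ m)
  refine e7.trans (le_of_eq ?_)
  
  have g1 : (1 / 2 : ℝ) ^ m = Real.exp (-(m * Real.log 2)) := by
    rw [Real.exp_neg, Real.exp_nat_mul, Real.exp_log (by norm_num), one_div, inv_pow]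
  have g2 : (2 : ℝ) ^ n = Real.exp (n * Real.log 2) := by
    rw [Real.exp_nat_mul, Real.exp_log (by norm_num)]
  have g3 : Real.exp ((1 + p) / 4) * (1 / 2 : ℝ) ^ m * 2 ^ n *
      Real.exp (-(Real.log 2 * q / 2)) ^ 3
      = Real.exp ((1 + p) / 4 - Real.log 2 * p) * Real.exp (-(Real.log 2 * q / 2)) := by
    rw [g1, g2, ← Real.exp_nat_mul, ← Real.exp_add, ← Real.exp_add, ← Real.exp_add,
      ← Real.exp_add]
    congr 1
    push_cast
    have : (n : ℝ) = m - p + q := by linarith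
    rw [this]; ring
  have g4 : ((C0 * (1 + p)) ^ D) ^ 3 = C0 ^ (3 * D) * (1 + p) ^ (3 * D) := by
    rw [← pow_mul, mul_pow, mul_comm D 3]
  have g5 : (2 ^ n * Real.exp (-(Real.log 2 * q / 2)) * (C0 * (1 + p)) ^ D) ^ 3
      = ((2 : ℝ) ^ n) ^ 3 * Real.exp (-(Real.log 2 * q / 2)) ^ 3 * (C0 ^ (3 * D) * (1 + p) ^ (3 * D)) := by
    rw [mul_pow, mul_pow, g4]
  rw [g5]
  have h2n : (2 : ℝ) ^ n ≠ 0 := by positivity
  have g6 : 9 * (1 / (4 * C1)) * n / (2 ^ n * s) * Real.exp ((1 + p) / 4) * (1 / 2 : ℝ) ^ m *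
      (((2 : ℝ) ^ n) ^ 3 * Real.exp (-(Real.log 2 * q / 2)) ^ 3 *
        (C0 ^ (3 * D) * (1 + p) ^ (3 * D)))
      = 9 * (1 / (4 * C1)) * n * 2 ^ n / s * C0 ^ (3 * D) * (1 + p) ^ (3 * D) *
        (Real.exp ((1 + p) / 4) * (1 / 2 : ℝ) ^ m * 2 ^ n *
          Real.exp (-(Real.log 2 * q / 2)) ^ 3) := by
    field_simp
  rw [g6, g3]
  ring

theorem sumHks_sumh (D : ℕ) : Summable (fun p : ℕ => (1 + (p : ℝ)) ^ (3 * D) *
    Real.exp ((1 + (p : ℝ)) / 4 - Real.log 2 * (p : ℝ))) := by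
  set r : ℝ := Real.exp (1 / 4 - Real.log 2) with hr
  have hr0 : 0 < r := Real.exp_pos _
  have hr1 : r < 1 := by
    rw [hr, Real.exp_lt_one_iff]
    have := Real.log_two_gt_d9
    linarith
  have h1 : Summable (fun p : ℕ => (p : ℝ) ^ (3 * D) * r ^ p) :=
    summable_pow_mul_geometric_of_norm_lt_one (3 * D) (by rw [Real.norm_eq_abs, abs_of_pos hr0]; exact hr1)
  have h2 := (summable_nat_add_iff 1).2 h1
  have h3 := h2.mul_left (Real.exp (1 / 4) / r)
  refine h3.congr ?_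
  intro p
  have h4 : Real.exp ((1 + (p : ℝ)) / 4 - Real.log 2 * (p : ℝ)) = Real.exp (1 / 4) * r ^ p := by
    rw [hr, ← Real.exp_nat_mul, ← Real.exp_add]
    congr 1; ring
  rw [h4, pow_succ r]
  push_cast
  field_simp
  ring

theorem sumHks_suml : Summable (fun q : ℕ => Real.exp (-(Real.log 2 * (q : ℝ) / 2))) := by
  have h1 : Summable (fun q : ℕ => Real.exp (-(Real.log 2 / 2)) ^ q) := by
    apply summable_geometric_of_lt_one (Real.exp_pos _).le
    rw [Real.exp_lt_one_iff]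
    have := Real.log_pos (by norm_num : (1 : ℝ) < 2)
    linarith
  refine h1.congr ?_
  intro q
  rw [← Real.exp_nat_mul]
  congr 1; ring

theorem sumH_kern (d : ℕ) (hd : 2 ≤ d) : ∃ a C : ℝ, 0 < a ∧ 0 < C ∧ ∀ n J : ℕ, 1 ≤ n → J + 2 ≤ n →
    ∑ T : Fin d → Fin (n+J+3), (1/2:ℝ)^(∑ j, ((T j : Fin (n+J+3)) : ℕ)) *
      ((1 + 2 * Th d n (fun j => T j))^2 *
        (Real.exp (a * n * Th d n (fun j => T j) / (2^n * shp d n)) - 1)) ≤ C * n * 2^n := by
  obtain ⟨D', rfl⟩ : ∃ D', d = D' + 1 + 1 := ⟨d - 2, by omega⟩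
  obtain ⟨c, hc, hshp⟩ := shp_lower (D' + 1 + 1) (by omega)
  have hsub : D' + 1 + 1 - 1 = D' + 1 := rfl
  rw [hsub] at hshp
  set κ : ℝ := Real.log 2 / (4 * ((D' + 1 : ℕ) : ℝ)) with hκ
  have hl : 0 < Real.log 2 := Real.log_pos (by norm_num)
  have hκ0 : 0 < κ := by positivity
  set C0 : ℝ := Real.exp κ * (2 / κ + 2) with hC0
  have hC00 : 0 < C0 := by positivity
  set C1 : ℝ := 1 + C0 ^ (D' + 1) * 2 ^ D' / c with hC1
  have hC10 : 0 < C1 := by positivity
  set h : ℕ → ℝ := fun p => (1 + (p : ℝ)) ^ (3 * (D' + 1)) *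
    Real.exp ((1 + (p : ℝ)) / 4 - Real.log 2 * (p : ℝ)) with hh
  set l : ℕ → ℝ := fun q => Real.exp (-(Real.log 2 * (q : ℝ) / 2)) with hll
  have hh0 : ∀ i, 0 ≤ h i := fun i => by simp only [hh]; positivity
  have hl0 : ∀ i, 0 ≤ l i := fun i => by simp only [hll]; positivity
  set W : ℝ := (∑' i, h i) + h 0 * ∑' i, l i with hW
  have hW0 : 0 ≤ W := add_nonneg (tsum_nonneg hh0) (mul_nonneg (hh0 0) (tsum_nonneg hl0))
  set K : ℝ := 9 * (1 / (4 * C1)) * C0 ^ (3 * (D' + 1)) with hK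
  have hK0 : 0 < K := by positivity
  refine ⟨1 / (4 * C1), K * (4 ^ (D' + 1) / c) * W + 1, by positivity, by positivity, ?_⟩
  intro n J hn hJn
  have hn0 : (0 : ℝ) < n := by exact_mod_cast hn
  have hs := hshp n hn
  have hs0 : 0 < (shp (D' + 1 + 1) n : ℝ) := lt_of_lt_of_le (by positivity) hs
  have hs1 : (1 : ℝ) ≤ (shp (D' + 1 + 1) n : ℝ) := by
    have : 0 < shp (D' + 1 + 1) n := by exact_mod_cast hs0
    exact_mod_cast this
  set s : ℝ := (shp (D' + 1 + 1) n : ℝ) with hsdef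
  have hterm : ∀ T : Fin (D' + 1 + 1) → Fin (n + J + 3),
      (1/2:ℝ)^(∑ j, ((T j : Fin (n+J+3)) : ℕ)) *
      ((1 + 2 * Th (D' + 1 + 1) n (fun j => T j))^2 *
        (Real.exp (1 / (4 * C1) * n * Th (D' + 1 + 1) n (fun j => T j) / (2^n * s)) - 1))
      ≤ (fun m : ℕ => (K * n * 2 ^ n / s) * (h (m - n) * l (n - m)))
        (∑ j, ((T j : Fin (n+J+3)) : ℕ)) := by
    intro T
    set m : ℕ := ∑ j, ((T j : Fin (n+J+3)) : ℕ) with hm
    set th : ℝ := Th (D' + 1 + 1) n (fun j => T j) with hth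
    have a1 : th ≤ 2 ^ n * s := sumHks_Th_le _ _ _
    have a2 : 1 ≤ th := hs1.trans (sumHks_le_Th _ _ _)
    have a3 : th ≤ 2 ^ n * Real.exp (-(Real.log 2 * ((n - m : ℕ) : ℝ) / 2)) *
      (C0 * (1 + ((m - n : ℕ) : ℝ))) ^ (D' + 1) :=
      sumHks_Th (D' + 1) n (by omega) (fun j => ((T j : Fin (n+J+3)) : ℕ))
    have a4 : th ≤ 2 ^ n * (C0 * (1 + ((m - n : ℕ) : ℝ))) ^ (D' + 1) := by
      refine a3.trans ?_
      have : Real.exp (-(Real.log 2 * ((n - m : ℕ) : ℝ) / 2)) ≤ 1 := by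
        rw [Real.exp_le_one_iff]
        have : 0 ≤ Real.log 2 * ((n - m : ℕ) : ℝ) / 2 := by positivity
        linarith
      apply mul_le_mul_of_nonneg_right _ (by positivity)
      exact mul_le_of_le_one_right (by positivity) this
    have a5 := sumHks_B1 D' n (m - n) hn C0 c th s hC00 hc hs hs0 a1 a4
    have a6 := sumHks_term (D' + 1) n m hn C0 C1 th s hC00 hC10 hs0 a2 a5 a3
    refine a6.trans (le_of_eq ?_)
    simp only [hh, hll, hK]
    ring
  refine (Finset.sum_le_sum fun T _ => hterm T).trans ?_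
  have hcount := sumHks_count (D' + 1) (n + J + 3)
    (fun m : ℕ => (K * n * 2 ^ n / s) * (h (m - n) * l (n - m)))
    (fun m => mul_nonneg (by positivity) (mul_nonneg (hh0 _) (hl0 _)))
    ((D' + 1 + 1) * (n + J + 3)) (by
      intro T
      have h1 : ∑ j, ((T j : Fin (n + J + 3)) : ℕ) ≤ ∑ _j : Fin (D' + 1 + 1), (n + J + 2) :=
        Finset.sum_le_sum fun j _ => by have := (T j).isLt; omega
      rw [Finset.sum_const, Finset.card_univ, Fintype.card_fin, smul_eq_mul] at h1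
      refine lt_of_le_of_lt h1 ?_
      exact Nat.mul_lt_mul_of_pos_left (by omega) (by omega))
  refine hcount.trans ?_
  rw [← Finset.mul_sum]
  have hsumW : ∑ m ∈ Finset.range ((D' + 1 + 1) * (n + J + 3)), h (m - n) * l (n - m) ≤ W := by
    rw [← Finset.sum_filter_add_sum_filter_not _ (fun m => n ≤ m)]
    apply add_le_add
    · have e1 : ∑ m ∈ (Finset.range ((D' + 1 + 1) * (n + J + 3))).filter (fun m => n ≤ m),
          h (m - n) * l (n - m)
          = ∑ m ∈ (Finset.range ((D' + 1 + 1) * (n + J + 3))).filter (fun m => n ≤ m), h (m - n) := by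
        apply Finset.sum_congr rfl
        intro m hm
        rw [Nat.sub_eq_zero_of_le (Finset.mem_filter.1 hm).2]
        simp [hll]
      rw [e1]
      apply sumHks_tsum h (sumHks_sumh (D' + 1)) hh0 _ (fun m => m - n)
      intro x hx y hy hxy
      simp only [Finset.coe_filter, Finset.mem_range, Set.mem_ofPred_eq] at hx hy
      simp only at hxy
      omega
    · have e1 : ∑ m ∈ (Finset.range ((D' + 1 + 1) * (n + J + 3))).filter (fun m => ¬ n ≤ m),
          h (m - n) * l (n - m)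
          = h 0 * ∑ m ∈ (Finset.range ((D' + 1 + 1) * (n + J + 3))).filter (fun m => ¬ n ≤ m),
            l (n - m) := by
        rw [Finset.mul_sum]
        apply Finset.sum_congr rfl
        intro m hm
        have := (Finset.mem_filter.1 hm).2
        rw [Nat.sub_eq_zero_of_le (by omega : m ≤ n)]
      rw [e1]
      apply mul_le_mul_of_nonneg_left _ (hh0 0)
      apply sumHks_tsum l sumHks_suml hl0 _ (fun m => n - m)
      intro x hx y hy hxy
      simp only [Finset.coe_filter, Finset.mem_range, Set.mem_ofPred_eq] at hx hy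
      simp only at hxy
      omega
  have hn3 : (((n + J + 3 : ℕ) : ℝ)) ^ (D' + 1) ≤ 4 ^ (D' + 1) * (s / c) := by
    have e1 : ((n + J + 3 : ℕ) : ℝ) ≤ 4 * n := by
      push_cast
      have : (1 : ℝ) ≤ n := by exact_mod_cast hn
      have hJn' : (J : ℝ) + 2 ≤ n := by exact_mod_cast hJn
      linarith
    have e2 := pow_le_pow_left₀ (by positivity) e1 (D' + 1)
    rw [mul_pow] at e2
    refine e2.trans (mul_le_mul_of_nonneg_left ?_ (by positivity))
    rw [le_div_iff₀ hc]; linarith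
  calc (((n + J + 3 : ℕ) : ℝ)) ^ (D' + 1) * ((K * n * 2 ^ n / s) *
        ∑ m ∈ Finset.range ((D' + 1 + 1) * (n + J + 3)), h (m - n) * l (n - m))
      ≤ (4 ^ (D' + 1) * (s / c)) * ((K * n * 2 ^ n / s) * W) := by
        apply mul_le_mul hn3 _ _ (by positivity)
        · exact mul_le_mul_of_nonneg_left hsumW (by positivity)
        · exact mul_nonneg (by positivity)
            (Finset.sum_nonneg fun m _ => mul_nonneg (hh0 _) (hl0 _))
    _ = (K * (4 ^ (D' + 1) / c) * W) * n * 2 ^ n := by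
        field_simp
    _ ≤ (K * (4 ^ (D' + 1) / c) * W + 1) * n * 2 ^ n := by
        have : 0 ≤ (n : ℝ) * 2 ^ n := by positivity
        nlinarith

theorem sumH (d : ℕ) (hd : 3 ≤ d) : ∃ a0 C : ℝ, 0 < a0 ∧ 0 < C ∧ ∀ (a : ℝ) (J n : ℕ), 0 < a → a ≤ a0 → J + 2 ≤ n →
    ∑ T : Fin d → Fin (n+J+3), (1/2:ℝ)^(∑ j, ((T j : Fin (n+J+3)) : ℕ)) *
      ((1 + 2 * Th d n (fun j => T j))^2 * (Real.exp (Ax d n a (fun j => T j)) - 1)) ≤ C * n * 2^n := by
  obtain ⟨a0, C, ha0, hC, h⟩ := sumH_kern d (by omega)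
  refine ⟨a0, C, ha0, hC, ?_⟩
  intro a J n ha haa0 hJn
  refine le_trans ?_ (h n J (by omega) hJn)
  apply Finset.sum_le_sum
  intro T _
  apply mul_le_mul_of_nonneg_left _ (by positivity)
  apply mul_le_mul_of_nonneg_left _ (by positivity)
  apply sub_le_sub_right
  apply Real.exp_le_exp.mpr
  unfold Ax
  apply div_le_div_of_nonneg_right _ (by positivity)
  have hTh : 0 ≤ Th d n (fun j => T j) := by
    unfold Th
    exact Finset.sum_nonneg fun s _ => by positivity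
  apply mul_le_mul_of_nonneg_right _ hTh
  exact mul_le_mul_of_nonneg_right haa0 (Nat.cast_nonneg n)

end Sol_EX_sumH

alias sumH := Sol_EX_sumH.sumH

end HypVol
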