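import Pool.Agent.EntX.Defs2
import Pool.Agent.EntX.L_Th_bound
import Pool.Agent.EntX.L_count_T
import Pool.Agent.HypVol.L_shp_lower
open MeasureTheory Real ProbabilityTheory
open scoped ENNReal BigOperators

namespace HypVol
namespace Sol_EX_sumZ

theorem sumZ_aux1 (A : ℝ) (hA : 0 ≤ A) : Real.exp A - 1 - A ≤ A ^ 2 * Real.exp A := by
  have h1 : 1 - A ≤ Real.exp (-A) := by
    have := Real.add_one_le_exp (-A)
    linarith
  have h2 : Real.exp A * Real.exp (-A) = 1 := by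
    rw [← Real.exp_add]; simp
  have h3 : (1 - A) * (1 + A) ≤ Real.exp (-A) * (1 + A) :=
    mul_le_mul_of_nonneg_right h1 (by linarith)
  have h4 := mul_le_mul_of_nonneg_left h3 (Real.exp_pos A).le
  have h5 : Real.exp A * (Real.exp (-A) * (1 + A)) = 1 + A := by
    rw [← mul_assoc, h2, one_mul]
  rw [h5] at h4
  nlinarith [h4]

theorem sumZ_aux2 (m : ℕ) :
    Summable (fun t : ℕ => ((t:ℝ)+1)^m * (1/2:ℝ)^t * Real.exp ((1+(t:ℝ))/16)) := by
  have hr0 : 0 < Real.exp (1/16) / 2 := by positivity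
  have hr1 : Real.exp (1/16) / 2 < 1 := by
    have h1 : (1:ℝ) - 1/16 ≤ Real.exp (-(1/16)) := by
      have := Real.add_one_le_exp (-(1/16:ℝ))
      linarith
    have h2 : Real.exp (1/16) * Real.exp (-(1/16)) = 1 := by
      rw [← Real.exp_add]; simp
    have h3 := mul_le_mul_of_nonneg_left h1 (Real.exp_pos (1/16)).le
    rw [h2] at h3
    linarith
  have h1 := summable_pow_mul_geometric_of_norm_lt_one (R := ℝ) m (r := Real.exp (1/16) / 2)
    (by rw [Real.norm_of_nonneg hr0.le]; exact hr1)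
  have h2 := ((summable_nat_add_iff 1).2 h1).mul_left 2
  refine h2.congr fun t => ?_
  have h3 : Real.exp ((1+(t:ℝ))/16) = Real.exp (1/16) ^ (t+1) := by
    rw [← Real.exp_nat_mul]
    congr 1
    push_cast
    ring
  rw [h3, div_pow, div_pow, one_pow, pow_succ (2:ℝ) t]
  push_cast
  field_simp

theorem sumZ (d : ℕ) (hd : 3 ≤ d) : ∃ a0 : ℝ, 0 < a0 ∧ ∀ (a : ℝ) (J n : ℕ), 0 < a → a ≤ a0 → J + 2 ≤ n →
    ∑ T : Fin d → Fin (n+J+3), (1/2:ℝ)^(∑ j, ((T j : Fin (n+J+3)) : ℕ)) *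
      (Real.exp (Ax d n a (fun j => T j)) - 1 - Ax d n a (fun j => T j)) ≤ 1 / (64 * 4^d) := by
  obtain ⟨C, hC, hTh⟩ := Th_bound d (by omega)
  obtain ⟨c, hc, hshp⟩ := shp_lower d (by omega)
  have hsm := sumZ_aux2 (3 * (d - 1))
  generalize hHd : (∑' t : ℕ, ((t:ℝ)+1)^(3 * (d - 1)) * (1/2:ℝ)^t * Real.exp ((1+(t:ℝ))/16)) = H
  have hH : 0 ≤ H := by
    rw [← hHd]
    exact tsum_nonneg fun t => by positivity
  have hκ : 0 < C / c := by positivity
  generalize hκd : C / c = κ at hκ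
  have hM : (0:ℝ) < (3 * (d:ℝ)) ^ (d - 2) := by
    have : (0:ℝ) < d := by exact_mod_cast (by omega : 0 < d)
    positivity
  generalize hMd : (3 * (d:ℝ)) ^ (d - 2) = M at hM
  refine ⟨min 1 (min (1 / (16 * κ * M)) (1 / (64 * 4^d * κ^2 * (H + 1)))), by positivity, ?_⟩
  intro a J n ha ha0 hJ
  have ha1 : a ≤ 1 := ha0.trans (min_le_left _ _)
  have ha2 : a ≤ 1 / (16 * κ * M) := ha0.trans ((min_le_right _ _).trans (min_le_left _ _))
  have ha3 : a ≤ 1 / (64 * 4^d * κ^2 * (H + 1)) :=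
    ha0.trans ((min_le_right _ _).trans (min_le_right _ _))
  have hn1 : (1:ℝ) ≤ n := by exact_mod_cast (by omega : 1 ≤ n)
  have hn0 : (0:ℝ) < n := by linarith
  have hd1 : (3:ℝ) ≤ d := by exact_mod_cast hd
  
  have hA : ∀ T : Fin d → Fin (n+J+3),
      0 ≤ Ax d n a (fun j => T j) ∧
      Ax d n a (fun j => T j) ≤ κ * a * (1 + ((∑ j, ((T j : Fin (n+J+3)) : ℕ) : ℕ) : ℝ))^(d-1) ∧
      Ax d n a (fun j => T j) ≤ (1 + ((∑ j, ((T j : Fin (n+J+3)) : ℕ) : ℕ) : ℝ)) / 16 := by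
    intro T
    generalize htd : (∑ j, ((T j : Fin (n+J+3)) : ℕ)) = t
    have ht : t ≤ d * (2 * n) := by
      rw [← htd]
      calc (∑ j, ((T j : Fin (n+J+3)) : ℕ)) ≤ ∑ _j : Fin d, 2 * n :=
            Finset.sum_le_sum fun j _ => by have := (T j).2; omega
        _ = d * (2 * n) := by simp
    have h1 := hTh n (fun j => ((T j : Fin (n+J+3)) : ℕ))
    rw [htd] at h1
    have hsh := hshp n (by omega)
    have hTh0 : 0 ≤ Th d n (fun j => ((T j : Fin (n+J+3)) : ℕ)) :=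
      Finset.sum_nonneg fun s _ => by positivity
    have hAx : Ax d n a (fun j => ((T j : Fin (n+J+3)) : ℕ)) =
        a * n * Th d n (fun j => ((T j : Fin (n+J+3)) : ℕ)) / (2^n * shp d n) := rfl
    rw [hAx]
    generalize Th d n (fun j => ((T j : Fin (n+J+3)) : ℕ)) = θ at h1 hTh0 ⊢
    have hE : (2:ℝ)^(-((n - t : ℕ) : ℝ) / 2) ≤ 1 := by
      apply Real.rpow_le_one_of_one_le_of_nonpos (by norm_num)
      have : (0:ℝ) ≤ ((n - t : ℕ) : ℝ) := Nat.cast_nonneg _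
      linarith
    have hv : ((t - n : ℕ) : ℝ) ≤ (t:ℝ) := by exact_mod_cast Nat.sub_le t n
    have hv0 : (0:ℝ) ≤ ((t - n : ℕ) : ℝ) := Nat.cast_nonneg _
    generalize ((t - n : ℕ) : ℝ) = v at h1 hv hv0
    have hθ : θ ≤ C * 2^n * (1 + v)^(d-1) := by
      refine h1.trans ?_
      have h2 : C * 2^n * (2:ℝ)^(-((n - t : ℕ) : ℝ) / 2) ≤ C * 2^n * 1 :=
        mul_le_mul_of_nonneg_left hE (by positivity)
      rw [mul_one] at h2
      exact mul_le_mul_of_nonneg_right h2 (by positivity)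
    have hshpos : 0 < c * (n:ℝ)^(d-1) := by positivity
    have hsh0 : (0:ℝ) < shp d n := lt_of_lt_of_le hshpos hsh
    have hAle : a * n * θ / (2^n * shp d n) ≤ κ * a * ((1 + v)^(d-1) / (n:ℝ)^(d-2)) := by
      calc a * n * θ / (2^n * shp d n)
          ≤ a * n * (C * 2^n * (1 + v)^(d-1)) / (2^n * (c * (n:ℝ)^(d-1))) := by
            gcongr
        _ = κ * a * ((1 + v)^(d-1) / (n:ℝ)^(d-2)) := by
            have h3 : (n:ℝ)^(d-1) = (n:ℝ)^(d-2) * n := by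
              rw [← pow_succ]
              congr 1
              omega
            rw [h3, ← hκd]
            field_simp
    have hnp : (1:ℝ) ≤ (n:ℝ)^(d-2) := one_le_pow₀ hn1
    have hP0 : (0:ℝ) ≤ (1 + v)^(d-1) := by positivity
    have hvt : (1 + v)^(d-1) ≤ (1 + (t:ℝ))^(d-1) := by gcongr
    have hka : 0 < κ * a := by positivity
    refine ⟨by positivity, ?_, ?_⟩
    · refine hAle.trans (mul_le_mul_of_nonneg_left ?_ hka.le)
      exact (div_le_self hP0 hnp).trans hvt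
    · refine hAle.trans ?_
      have h4 : (1 + v)^(d-1) / (n:ℝ)^(d-2) = (1 + v) * ((1 + v) / n)^(d-2) := by
        have h5 : (1 + v)^(d-1) = (1 + v)^(d-2) * (1 + v) := by
          rw [← pow_succ]
          congr 1
          omega
        rw [h5, div_pow]
        ring
      have h6 : (1 + v) / n ≤ 3 * (d:ℝ) := by
        rw [div_le_iff₀ hn0]
        have ht' : (t:ℝ) ≤ d * (2 * n) := by exact_mod_cast ht
        nlinarith
      have h7 : ((1 + v) / n)^(d-2) ≤ M := by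
        rw [← hMd]
        gcongr
      rw [h4]
      have h8 : κ * a * M ≤ 1 / 16 := by
        have h9 : κ * M * a ≤ κ * M * (1 / (16 * κ * M)) :=
          mul_le_mul_of_nonneg_left ha2 (by positivity)
        have h10 : κ * M * (1 / (16 * κ * M)) = 1 / 16 := by
          field_simp
        rw [h10] at h9
        linarith
      calc κ * a * ((1 + v) * ((1 + v) / n)^(d-2)) ≤ κ * a * ((1 + v) * M) := by gcongr
        _ = κ * a * M * (1 + v) := by ring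
        _ ≤ 1 / 16 * (1 + v) := mul_le_mul_of_nonneg_right h8 (by linarith)
        _ ≤ (1 + (t:ℝ)) / 16 := by linarith
  
  have hterm : ∀ T : Fin d → Fin (n+J+3), (1/2:ℝ)^(∑ j, ((T j : Fin (n+J+3)) : ℕ)) *
      (Real.exp (Ax d n a (fun j => T j)) - 1 - Ax d n a (fun j => T j)) ≤
      (fun t : ℕ => (κ * a)^2 * ((1/2:ℝ)^t * ((1 + (t:ℝ))^(d-1))^2 * Real.exp ((1+(t:ℝ))/16)))
        (∑ j, ((T j : Fin (n+J+3)) : ℕ)) := by
    intro T
    obtain ⟨h0, h1, h2⟩ := hA T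
    generalize Ax d n a (fun j => ((T j : Fin (n+J+3)) : ℕ)) = A at h0 h1 h2 ⊢
    generalize (∑ j, ((T j : Fin (n+J+3)) : ℕ)) = t at h1 h2 ⊢
    change _ ≤ (κ * a)^2 * ((1/2:ℝ)^t * ((1 + (t:ℝ))^(d-1))^2 * Real.exp ((1+(t:ℝ))/16))
    have h3 : A ^ 2 ≤ (κ * a * (1 + (t:ℝ))^(d-1))^2 := by gcongr
    have h4 : Real.exp A ≤ Real.exp ((1+(t:ℝ))/16) := Real.exp_le_exp.2 h2
    calc (1/2:ℝ)^t * (Real.exp A - 1 - A) ≤ (1/2:ℝ)^t * (A ^ 2 * Real.exp A) :=
          mul_le_mul_of_nonneg_left (sumZ_aux1 A h0) (by positivity)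
      _ ≤ (1/2:ℝ)^t * ((κ * a * (1 + (t:ℝ))^(d-1))^2 * Real.exp ((1+(t:ℝ))/16)) := by gcongr
      _ = _ := by ring
  refine (Finset.sum_le_sum fun T _ => hterm T).trans ?_
  refine (count_T d (n+J+3) (by omega)
    (fun t : ℕ => (κ * a)^2 * ((1/2:ℝ)^t * ((1 + (t:ℝ))^(d-1))^2 * Real.exp ((1+(t:ℝ))/16)))
    (fun t => by positivity)).trans ?_
  have hsum2 : ∀ t ∈ Finset.range (d * (n+J+3) + 1), ((t:ℝ) + 1)^(d-1) *
      ((κ * a)^2 * ((1/2:ℝ)^t * ((1 + (t:ℝ))^(d-1))^2 * Real.exp ((1+(t:ℝ))/16))) =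
      (κ * a)^2 * (((t:ℝ)+1)^(3 * (d - 1)) * (1/2:ℝ)^t * Real.exp ((1+(t:ℝ))/16)) := by
    intro t _
    have h5 : ((t:ℝ)+1)^(3 * (d - 1)) = ((t:ℝ) + 1)^(d-1) * ((1 + (t:ℝ))^(d-1))^2 := by
      rw [add_comm (1:ℝ) (t:ℝ), ← pow_mul, ← pow_add]
      congr 1
      ring
    rw [h5]
    ring
  rw [Finset.sum_congr rfl hsum2, ← Finset.mul_sum]
  have h6 : ∑ t ∈ Finset.range (d * (n+J+3) + 1),
      ((t:ℝ)+1)^(3 * (d - 1)) * (1/2:ℝ)^t * Real.exp ((1+(t:ℝ))/16) ≤ H := by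
    rw [← hHd]
    exact hsm.sum_le_tsum _ (fun t _ => by positivity)
  have h7 : (κ * a)^2 * H ≤ 1 / (64 * 4^d) := by
    have h8 : a ^ 2 ≤ a := by nlinarith
    have h9 : a * (64 * 4^d * κ^2 * (H + 1)) ≤ 1 := by
      rw [le_div_iff₀ (by positivity)] at ha3
      exact ha3
    rw [le_div_iff₀ (by positivity)]
    calc (κ * a)^2 * H * (64 * 4^d) = a^2 * (64 * 4^d * κ^2 * H) := by ring
      _ ≤ a * (64 * 4^d * κ^2 * H) := mul_le_mul_of_nonneg_right h8 (by positivity)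
      _ ≤ a * (64 * 4^d * κ^2 * (H + 1)) := by
          gcongr
          linarith
      _ ≤ 1 := h9
  exact (mul_le_mul_of_nonneg_left h6 (by positivity)).trans h7

end Sol_EX_sumZ

alias sumZ := Sol_EX_sumZ.sumZ

end HypVol
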