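import Pool.Agent.EntX.Defs2
open MeasureTheory Real ProbabilityTheory
open scoped ENNReal BigOperators

namespace HypVol
namespace Sol_EX_tg_facts

theorem tgx_Esum {d n : ℕ} (m : Fin d → ℤ) (hm : ∀ j, |m j| < 2 ^ (n + 2)) (hne : m ≠ 0) :
    ∑ p : Fin d → Fin (2 ^ (n + 2)), Complex.exp ((th m p : ℂ) * Complex.I) = 0 := by
  obtain ⟨j0, hj0⟩ : ∃ j, m j ≠ 0 := Function.ne_iff.1 hne
  set ζ : Fin d → ℂ := fun j => Complex.exp ((2 * π * (m j : ℝ) / 2 ^ (n + 2) : ℝ) * Complex.I) with hζ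
  have h1 : ∀ p : Fin d → Fin (2 ^ (n + 2)), Complex.exp ((th m p : ℂ) * Complex.I)
      = ∏ j, ζ j ^ ((p j : ℕ)) := by
    intro p
    simp only [hζ, ← Complex.exp_nat_mul]
    rw [← Complex.exp_sum]
    congr 1
    unfold th
    push_cast
    rw [Finset.mul_sum, Finset.sum_div, Finset.sum_mul]
    apply Finset.sum_congr rfl
    intro j _
    ring
  simp_rw [h1]
  have h2 := Finset.prod_univ_sum (fun _ : Fin d => (Finset.univ : Finset (Fin (2 ^ (n + 2)))))
    (fun j (t : Fin (2 ^ (n + 2))) => ζ j ^ (t : ℕ))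
  rw [Fintype.piFinset_univ] at h2
  rw [← h2]
  apply Finset.prod_eq_zero (Finset.mem_univ j0)
  rw [Fin.sum_univ_eq_sum_range (fun i => ζ j0 ^ i)]
  have hN : (2 : ℂ) ^ (n + 2) ≠ 0 := pow_ne_zero _ two_ne_zero
  have hpi : (π : ℂ) ≠ 0 := by exact_mod_cast Real.pi_ne_zero
  have hz1 : ζ j0 ≠ 1 := by
    intro h
    rw [hζ] at h
    simp only at h
    rw [Complex.exp_eq_one_iff] at h
    obtain ⟨t, ht⟩ := h
    have h3 : (m j0 : ℂ) = t * 2 ^ (n + 2) := by
      have hI := Complex.I_ne_zero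
      push_cast at ht
      have h4 : (2 * π * Complex.I) * (m j0 : ℂ) = (2 * π * Complex.I) * (t * 2 ^ (n + 2)) := by
        have h5 : 2 * (π : ℂ) * (m j0 : ℂ) / 2 ^ (n + 2) * Complex.I * 2 ^ (n + 2)
            = t * (2 * π * Complex.I) * 2 ^ (n + 2) := by rw [ht]
        have h6 : 2 * (π : ℂ) * (m j0 : ℂ) / 2 ^ (n + 2) * Complex.I * 2 ^ (n + 2)
            = (2 * π * Complex.I) * (m j0 : ℂ) := by field_simp
        rw [← h6, h5]; ring
      exact mul_left_cancel₀ (mul_ne_zero (mul_ne_zero two_ne_zero hpi) hI) h4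
    have h4 : m j0 = t * 2 ^ (n + 2) := by exact_mod_cast h3
    have h5 := hm j0
    have ht0 : t ≠ 0 := by
      rintro rfl
      simp at h4
      exact hj0 h4
    rw [h4, abs_mul, abs_of_pos (show (0 : ℤ) < 2 ^ (n + 2) by positivity)] at h5
    have h6 : 1 ≤ |t| := Int.one_le_abs ht0
    have h7 : (0 : ℤ) < 2 ^ (n + 2) := by positivity
    nlinarith
  have hzN : ζ j0 ^ (2 ^ (n + 2)) = 1 := by
    simp only [hζ]
    rw [← Complex.exp_nat_mul, Complex.exp_eq_one_iff]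
    refine ⟨m j0, ?_⟩
    push_cast
    field_simp
  have h3 := mul_geom_sum (ζ j0) (2 ^ (n + 2))
  rw [hzN, sub_self] at h3
  rcases mul_eq_zero.1 h3 with h | h
  · exact absurd (sub_eq_zero.1 h) hz1
  · exact h

theorem tgx_th_sub {d n : ℕ} (k l : Fin d → ℤ) (p : Fin d → Fin (2 ^ (n + 2))) :
    th (n := n) (k - l) p = th k p - th l p := by
  unfold th
  rw [← sub_div, ← mul_sub, ← Finset.sum_sub_distrib]
  congr 2
  apply Finset.sum_congr rfl
  intro j _
  simp only [Pi.sub_apply]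
  push_cast
  ring

theorem tgx_trig0 {d n : ℕ} {m : Fin d → ℤ} (hm : ∀ j, |m j| < 2 ^ (n + 2)) (hne : m ≠ 0) :
    ∑ p : Fin d → Fin (2 ^ (n + 2)), Real.cos (th m p) = 0 ∧
    ∑ p : Fin d → Fin (2 ^ (n + 2)), Real.sin (th m p) = 0 := by
  have h := tgx_Esum m hm hne
  constructor
  · have h1 := congrArg Complex.re h
    rw [Complex.re_sum] at h1
    simpa only [Complex.exp_ofReal_mul_I_re, Complex.zero_re] using h1
  · have h1 := congrArg Complex.im h
    rw [Complex.im_sum] at h1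
    simpa only [Complex.exp_ofReal_mul_I_im, Complex.zero_im] using h1

theorem tgx_trig2 {d n : ℕ} {k l : Fin d → ℤ} (hk : ∀ j, |k j| < 2 ^ n) (hl : ∀ j, |l j| < 2 ^ n) :
    ∑ p : Fin d → Fin (2 ^ (n + 2)), Real.cos (th k p - th l p)
      = (if k = l then (Fintype.card (Fin d → Fin (2 ^ (n + 2))) : ℝ) else 0) ∧
    ∑ p : Fin d → Fin (2 ^ (n + 2)), Real.sin (th k p - th l p) = 0 := by
  by_cases h : k = l
  · subst h
    simp
  · rw [if_neg h]
    have h1 : ∀ j, |(k - l) j| < 2 ^ (n + 2) := by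
      intro j
      have h2 := hk j
      have h3 := hl j
      rw [abs_lt] at h2 h3 ⊢
      have h4 : (2 : ℤ) ^ (n + 2) = 4 * 2 ^ n := by ring
      have h5 : (0 : ℤ) < 2 ^ n := by positivity
      simp only [Pi.sub_apply]
      constructor <;> linarith
    have h2 := tgx_trig0 (n := n) h1 (sub_ne_zero.2 h)
    simpa only [tgx_th_sub] using h2

section tgv

variable {d n : ℕ} (k : Fin d → ℤ) (p : Fin d → Fin (2 ^ (n + 2)))

theorem tgx00 : tg (M := n) (k, 0) (p, 0) = Real.sqrt 2 * Real.cos (th k p) := by simp [tg]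

theorem tgx01 : tg (M := n) (k, 0) (p, 1) = Real.sqrt 2 * Real.sin (th k p) := by simp [tg]

theorem tgx10 : tg (M := n) (k, 1) (p, 0) = Real.sqrt 2 * (- Real.sin (th k p)) := by simp [tg]

theorem tgx11 : tg (M := n) (k, 1) (p, 1) = Real.sqrt 2 * Real.cos (th k p) := by simp [tg]

end tgv

theorem tgx_s2 (a b : ℝ) : Real.sqrt 2 * a * (Real.sqrt 2 * b) = 2 * (a * b) := by
  have := Real.mul_self_sqrt (show (0 : ℝ) ≤ 2 by norm_num)
  calc Real.sqrt 2 * a * (Real.sqrt 2 * b) = (Real.sqrt 2 * Real.sqrt 2) * (a * b) := by ring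
    _ = 2 * (a * b) := by rw [this]

theorem tg_facts (d M : ℕ) (hd : 1 ≤ d) (hM : 1 ≤ M) :
    (∀ β β' : (Fin d → ℤ) × Fin 2, (∀ j, |β.1 j| < 2^M) → (∀ j, |β'.1 j| < 2^M) →
      ∑ x : Gr d M, tg β x * tg β' x = if β = β' then (Fintype.card (Gr d M) : ℝ) else 0) ∧
    (∀ β : (Fin d → ℤ) × Fin 2, (∀ j, |β.1 j| < 2^M) → β.1 ≠ 0 → ∑ x : Gr d M, tg β x = 0) ∧
    (∀ e : Fin 2, ∑ x : Gr d M, tg ((0 : Fin d → ℤ), e) x = Real.sqrt 2 / 2 * Fintype.card (Gr d M)) ∧
    (∀ (k : Fin d → ℤ) (x : Gr d M), tg (k, 0) x ^ 2 + tg (k, 1) x ^ 2 = 2) := by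
  have hcard : (Fintype.card (Gr d M) : ℝ)
        = 2 * (Fintype.card (Fin d → Fin (2 ^ (M + 2))) : ℝ) := by
      rw [Fintype.card_prod, Fintype.card_fin]; push_cast; ring
  refine ⟨?_, ?_, ?_, ?_⟩
  · rintro ⟨k, e⟩ ⟨l, f⟩ hk hl
    obtain ⟨hc, hs⟩ := tgx_trig2 (n := M) hk hl
    rw [Fintype.sum_prod_type]
    simp only [Fin.sum_univ_two]
    have hkl : ∀ e : Fin 2, ((k, e) = (l, e)) ↔ k = l := by
      intro e
      simp
    have hkl' : ∀ e e' : Fin 2, e ≠ e' → ¬ ((k, e) = (l, e')) := by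
      intro e e' hee h
      exact hee (Prod.ext_iff.1 h).2
    fin_cases e <;> fin_cases f
    · show ∑ p, (tg (k, 0) (p, 0) * tg (l, 0) (p, 0) + tg (k, 0) (p, 1) * tg (l, 0) (p, 1)) =
        if ((k, 0) : (Fin d → ℤ) × Fin 2) = (l, 0) then _ else _
      have : ∀ p : Fin d → Fin (2 ^ (M + 2)),
          (tg (k, 0) (p, 0) * tg (l, 0) (p, 0) + tg (k, 0) (p, 1) * tg (l, 0) (p, 1))
          = 2 * Real.cos (th k p - th l p) := by
        intro p; rw [tgx00, tgx00, tgx01, tgx01, tgx_s2, tgx_s2, Real.cos_sub]; ring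
      simp only [this]
      rw [← Finset.mul_sum, hc]
      by_cases h : k = l
      · rw [if_pos h, if_pos ((hkl 0).2 h), hcard]
      · rw [if_neg h, if_neg (fun h' => h ((hkl 0).1 h')), mul_zero]
    · show ∑ p, (tg (k, 0) (p, 0) * tg (l, 1) (p, 0) + tg (k, 0) (p, 1) * tg (l, 1) (p, 1)) =
        if ((k, 0) : (Fin d → ℤ) × Fin 2) = (l, 1) then _ else _
      have : ∀ p : Fin d → Fin (2 ^ (M + 2)),
          (tg (k, 0) (p, 0) * tg (l, 1) (p, 0) + tg (k, 0) (p, 1) * tg (l, 1) (p, 1))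
          = 2 * Real.sin (th k p - th l p) := by
        intro p; rw [tgx00, tgx10, tgx01, tgx11, tgx_s2, tgx_s2, Real.sin_sub]; ring
      simp only [this]
      rw [← Finset.mul_sum, hs, if_neg (hkl' 0 1 (by decide)), mul_zero]
    · show ∑ p, (tg (k, 1) (p, 0) * tg (l, 0) (p, 0) + tg (k, 1) (p, 1) * tg (l, 0) (p, 1)) =
        if ((k, 1) : (Fin d → ℤ) × Fin 2) = (l, 0) then _ else _
      have : ∀ p : Fin d → Fin (2 ^ (M + 2)),
          (tg (k, 1) (p, 0) * tg (l, 0) (p, 0) + tg (k, 1) (p, 1) * tg (l, 0) (p, 1))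
          = (-2) * Real.sin (th k p - th l p) := by
        intro p; rw [tgx10, tgx00, tgx11, tgx01, tgx_s2, tgx_s2, Real.sin_sub]; ring
      simp only [this]
      rw [← Finset.mul_sum, hs, if_neg (hkl' 1 0 (by decide)), mul_zero]
    · show ∑ p, (tg (k, 1) (p, 0) * tg (l, 1) (p, 0) + tg (k, 1) (p, 1) * tg (l, 1) (p, 1)) =
        if ((k, 1) : (Fin d → ℤ) × Fin 2) = (l, 1) then _ else _
      have : ∀ p : Fin d → Fin (2 ^ (M + 2)),
          (tg (k, 1) (p, 0) * tg (l, 1) (p, 0) + tg (k, 1) (p, 1) * tg (l, 1) (p, 1))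
          = 2 * Real.cos (th k p - th l p) := by
        intro p; rw [tgx10, tgx10, tgx11, tgx11, tgx_s2, tgx_s2, Real.cos_sub]; ring
      simp only [this]
      rw [← Finset.mul_sum, hc]
      by_cases h : k = l
      · rw [if_pos h, if_pos ((hkl 1).2 h), hcard]
      · rw [if_neg h, if_neg (fun h' => h ((hkl 1).1 h')), mul_zero]
  · rintro ⟨k, e⟩ hk hk0
    have hk' : ∀ j, |k j| < 2 ^ M := hk
    have h1 : ∀ j, |k j| < 2 ^ (M + 2) := by
      intro j
      refine (hk' j).trans ?_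
      have h4 : (2 : ℤ) ^ (M + 2) = 4 * 2 ^ M := by ring
      have h5 : (0 : ℤ) < 2 ^ M := by positivity
      linarith
    obtain ⟨hc, hs⟩ := tgx_trig0 (n := M) h1 hk0
    rw [Fintype.sum_prod_type]
    simp only [Fin.sum_univ_two]
    fin_cases e
    · show ∑ p, (tg (k, 0) (p, 0) + tg (k, 0) (p, 1)) = 0
      simp only [tgx00, tgx01]
      rw [Finset.sum_add_distrib, ← Finset.mul_sum, ← Finset.mul_sum, hc, hs]
      ring
    · show ∑ p, (tg (k, 1) (p, 0) + tg (k, 1) (p, 1)) = 0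
      simp only [tgx10, tgx11]
      rw [Finset.sum_add_distrib, ← Finset.mul_sum, ← Finset.mul_sum, Finset.sum_neg_distrib, hc, hs]
      ring
  · intro e
    have hth : ∀ p : Fin d → Fin (2 ^ (M + 2)), th (n := M) (0 : Fin d → ℤ) p = 0 := by
      intro p
      unfold th
      simp
    rw [Fintype.sum_prod_type, hcard]
    simp only [Fin.sum_univ_two]
    fin_cases e
    · show ∑ p, (tg ((0 : Fin d → ℤ), 0) (p, 0) + tg ((0 : Fin d → ℤ), 0) (p, 1)) = _
      simp only [tgx00, tgx01, hth, Real.cos_zero, Real.sin_zero, mul_one, mul_zero, add_zero]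
      rw [Finset.sum_const, Finset.card_univ, nsmul_eq_mul]
      ring
    · show ∑ p, (tg ((0 : Fin d → ℤ), 1) (p, 0) + tg ((0 : Fin d → ℤ), 1) (p, 1)) = _
      simp only [tgx10, tgx11, hth, Real.cos_zero, Real.sin_zero, mul_one, mul_zero, neg_zero, zero_add]
      rw [Finset.sum_const, Finset.card_univ, nsmul_eq_mul]
      ring
  · rintro k ⟨p, e⟩
    have h1 := Real.sin_sq_add_cos_sq (th k p)
    fin_cases e
    · show tg (k, 0) (p, 0) ^ 2 + tg (k, 1) (p, 0) ^ 2 = 2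
      rw [tgx00, tgx10, sq, sq, tgx_s2, tgx_s2]; linarith
    · show tg (k, 0) (p, 1) ^ 2 + tg (k, 1) (p, 1) ^ 2 = 2
      rw [tgx01, tgx11, sq, sq, tgx_s2, tgx_s2]; linarith

end Sol_EX_tg_facts

alias tg_facts := Sol_EX_tg_facts.tg_facts

end HypVol
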