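import Pool.Agent.EntX.Defs2
import Pool.Agent.EntX.L_gap_gibbs
import Pool.Agent.EntX.L_tg_facts
import Pool.Agent.EntX.L_layer_boundM
import Pool.Agent.HypVol.L_pair_count
import Pool.Agent.EntX.L_sumH
import Pool.Agent.EntX.L_sumZ
import Pool.Agent.EntX.L_sumD
import Pool.Agent.HypVol.L_mem_layer
import Pool.Agent.HypVol.L_card_layer
import Pool.Agent.HypVol.L_shp_lower
import Pool.Agent.HypVol.L_shp_upper
open MeasureTheory Real ProbabilityTheory
open scoped ENNReal BigOperators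

namespace HypVol
namespace Sol_EX_gap_vol

noncomputable def KS251 {d M : ℕ} (S : Finset (Fin d → ℤ)) (x y : Gr d M) : ℝ :=
  ∑ k ∈ S, (tg (k, 0) x * tg (k, 0) y + tg (k, 1) x * tg (k, 1) y)

namespace Subgapball

noncomputable def part251 (e : Fin 2) (z : ℂ) : ℝ := if e = 0 then z.re else z.im

theorem part251_sum {ι : Type} (s : Finset ι) (e : Fin 2) (z : ι → ℂ) :
    part251 e (∑ i ∈ s, z i) = ∑ i ∈ s, part251 e (z i) := by
  unfold part251
  split_ifs
  · rw [Complex.re_sum]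
  · rw [Complex.im_sum]

theorem part251_le (e : Fin 2) (z : ℂ) : |part251 e z| ≤ ‖z‖ := by
  unfold part251
  split_ifs
  · exact Complex.abs_re_le_norm _
  · exact Complex.abs_im_le_norm _

theorem grid251 (d m M : ℕ) (a : (layer d m) × Fin 2 → ℝ) (y : Fin d → Fin (2^(M+2))) (e : Fin 2) :
    ∑ i : (layer d m) × Fin 2, a i * tg (i.1.1, i.2) ((y, e) : Gr d M) =
      Real.sqrt 2 * part251 e (poly a (fun j => 2 * π * ((y j : ℕ) : ℝ) / 2^(M+2))) := by
  have hth : ∀ k : Fin d → ℤ, (∑ j, (k j : ℝ) * (2 * π * ((y j : ℕ) : ℝ) / 2^(M+2))) = th k y := by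
    intro k
    unfold th
    rw [Finset.mul_sum, Finset.sum_div]
    apply Finset.sum_congr rfl
    intro j _
    ring
  have hre : (poly a (fun j => 2 * π * ((y j : ℕ) : ℝ) / 2^(M+2))).re =
      ∑ k : layer d m, (a (k, 0) * Real.cos (th k.1 y) - a (k, 1) * Real.sin (th k.1 y)) := by
    unfold poly
    rw [Complex.re_sum]
    apply Finset.sum_congr rfl
    intro k _
    rw [hth, mul_comm Complex.I, Complex.mul_re, Complex.exp_ofReal_mul_I_re,
      Complex.exp_ofReal_mul_I_im]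
    simp
  have him : (poly a (fun j => 2 * π * ((y j : ℕ) : ℝ) / 2^(M+2))).im =
      ∑ k : layer d m, (a (k, 0) * Real.sin (th k.1 y) + a (k, 1) * Real.cos (th k.1 y)) := by
    unfold poly
    rw [Complex.im_sum]
    apply Finset.sum_congr rfl
    intro k _
    rw [hth, mul_comm Complex.I, Complex.mul_im, Complex.exp_ofReal_mul_I_re,
      Complex.exp_ofReal_mul_I_im]
    simp
  have hsum : ∑ i : (layer d m) × Fin 2, a i * tg (i.1.1, i.2) ((y, e) : Gr d M) =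
      ∑ k : layer d m,
      (a (k, 0) * tg (k.1, 0) ((y, e) : Gr d M) + a (k, 1) * tg (k.1, 1) ((y, e) : Gr d M)) := by
    rw [Fintype.sum_prod_type]
    apply Finset.sum_congr rfl
    intro k _
    rw [Fin.sum_univ_two]
  rcases Fin.exists_fin_two.1 ⟨e, rfl⟩ with he | he
  · subst he
    rw [hsum]
    simp only [part251, if_true]
    rw [hre, Finset.mul_sum]
    apply Finset.sum_congr rfl
    intro k _
    simp [tg]
    ring
  · subst he
    rw [hsum]
    simp only [part251]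
    rw [if_neg (by decide), him, Finset.mul_sum]
    apply Finset.sum_congr rfl
    intro k _
    simp [tg]
    ring

theorem sub251 {d M : ℕ} (s : Finset (Fin d → ℤ)) (Gf : (Fin d → ℤ) → Fin 2 → ℝ) (x : Gr d M) :
    ∑ i : s × Fin 2, Gf i.1.1 i.2 * tg (i.1.1, i.2) x =
      ∑ k ∈ s, ∑ e', Gf k e' * tg (k, e') x := by
  rw [Fintype.sum_prod_type]
  exact Finset.sum_coe_sort s (fun k => ∑ e', Gf k e' * tg (k, e') x)

open scoped Pointwise in
theorem gap_ball251 (d n M : ℕ) (hn : n ≤ M) :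
    volume (gapB d n M) ≤ ENNReal.ofReal ((Real.sqrt 2)^(Fintype.card ((layer d n) × Fin 2))) *
      volume {a : (layer d n) × Fin 2 → ℝ | ∃ c : (others d n M) × Fin 2 → ℝ, ∀ x : Gr d M,
        |∑ i : (layer d n) × Fin 2, a i * tg (i.1.1, i.2) x +
          ∑ k : (others d n M) × Fin 2, c k * tg (k.1.1, k.2) x| ≤ 1} := by
  classical
  have hs2 : (0:ℝ) < Real.sqrt 2 := Real.sqrt_pos.2 (by norm_num)
  have hsub : gapB d n M ⊆ (Real.sqrt 2) •
      {a : (layer d n) × Fin 2 → ℝ | ∃ c : (others d n M) × Fin 2 → ℝ, ∀ x : Gr d M,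
        |∑ i : (layer d n) × Fin 2, a i * tg (i.1.1, i.2) x +
          ∑ k : (others d n M) × Fin 2, c k * tg (k.1.1, k.2) x| ≤ 1} := by
    rintro a ⟨g, rfl, hg⟩
    rw [Set.mem_smul_set_iff_inv_smul_mem₀ hs2.ne']
    have hmk : ∀ k : Fin d → ℤ, k ∈ layer d (∑ j, Nat.size (k j).natAbs) := fun k =>
      (mem_layer_iff d _ k).2 rfl
    set Gf : (Fin d → ℤ) → Fin 2 → ℝ :=
      fun k e => g (∑ j, Nat.size (k j).natAbs) (⟨k, hmk k⟩, e) with hGf
    have hG : ∀ m (k : layer d m) e, g m (k, e) = Gf k.1 e := by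
      intro m k e
      obtain ⟨k, hk⟩ := k
      have := (mem_layer_iff d m k).1 hk
      subst this
      rfl
    refine ⟨fun k => (Real.sqrt 2)⁻¹ * Gf k.1.1 k.2, ?_⟩
    rintro ⟨y, e⟩
    have h1 := hg (fun j => 2 * π * ((y j : ℕ) : ℝ) / 2^(M+2))
    have h2 : ∀ m, ∑ i : (layer d m) × Fin 2, g m i * tg (i.1.1, i.2) ((y, e) : Gr d M) =
        ∑ k ∈ layer d m, ∑ e', Gf k e' * tg (k, e') ((y, e) : Gr d M) := by
      intro m
      rw [← sub251]
      apply Finset.sum_congr rfl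
      rintro ⟨k, e'⟩ _
      rw [hG]
    have h3 : ∑ i : (layer d n) × Fin 2, ((Real.sqrt 2)⁻¹ • g n) i * tg (i.1.1, i.2) ((y, e) : Gr d M) +
        ∑ k : (others d n M) × Fin 2, ((Real.sqrt 2)⁻¹ * Gf k.1.1 k.2) * tg (k.1.1, k.2) ((y, e) : Gr d M) =
        (Real.sqrt 2)⁻¹ * ∑ m ∈ Finset.range (M + 1),
          ∑ i : (layer d m) × Fin 2, g m i * tg (i.1.1, i.2) ((y, e) : Gr d M) := by
      have e1 : ∑ i : (layer d n) × Fin 2, ((Real.sqrt 2)⁻¹ • g n) i * tg (i.1.1, i.2) ((y, e) : Gr d M) =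
          (Real.sqrt 2)⁻¹ * ∑ i : (layer d n) × Fin 2, g n i * tg (i.1.1, i.2) ((y, e) : Gr d M) := by
        rw [Finset.mul_sum]
        apply Finset.sum_congr rfl
        intro i _
        rw [Pi.smul_apply, smul_eq_mul, mul_assoc]
      have e2 : ∑ k : (others d n M) × Fin 2, ((Real.sqrt 2)⁻¹ * Gf k.1.1 k.2) * tg (k.1.1, k.2) ((y, e) : Gr d M) =
          (Real.sqrt 2)⁻¹ * ∑ k ∈ others d n M, ∑ e', Gf k e' * tg (k, e') ((y, e) : Gr d M) := by
        rw [← sub251, Finset.mul_sum]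
        apply Finset.sum_congr rfl
        intro i _
        rw [mul_assoc]
      have e3 : ∑ k ∈ others d n M, ∑ e', Gf k e' * tg (k, e') ((y, e) : Gr d M) =
          ∑ m ∈ (Finset.range (M + 1)).filter (fun m => m ≠ n),
            ∑ k ∈ layer d m, ∑ e', Gf k e' * tg (k, e') ((y, e) : Gr d M) := by
        unfold others
        have hd : Set.PairwiseDisjoint (((Finset.range (M + 1)).filter (fun m => m ≠ n) : Finset ℕ) : Set ℕ)
            (fun m => layer d m) := by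
          intro m1 _ m2 _ hne
          rw [Function.onFun, Finset.disjoint_left]
          intro k h1 h2
          exact hne (((mem_layer_iff d m1 k).1 h1).symm.trans ((mem_layer_iff d m2 k).1 h2))
        convert Finset.sum_biUnion hd using 2
      have e4 : ∑ m ∈ Finset.range (M + 1),
          ∑ k ∈ layer d m, ∑ e', Gf k e' * tg (k, e') ((y, e) : Gr d M) =
          ∑ k ∈ layer d n, ∑ e', Gf k e' * tg (k, e') ((y, e) : Gr d M) +
          ∑ m ∈ (Finset.range (M + 1)).filter (fun m => m ≠ n),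
            ∑ k ∈ layer d m, ∑ e', Gf k e' * tg (k, e') ((y, e) : Gr d M) := by
        rw [Finset.filter_ne']
        exact (Finset.add_sum_erase (Finset.range (M + 1))
          (fun m => ∑ k ∈ layer d m, ∑ e', Gf k e' * tg (k, e') ((y, e) : Gr d M))
          (Finset.mem_range.2 (by omega))).symm
      rw [e1, e2, e3, ← mul_add, Finset.sum_congr rfl (fun m _ => h2 m), e4, h2 n]
    rw [h3, Finset.sum_congr rfl (fun m _ => grid251 d m M (g m) y e), ← Finset.mul_sum,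
      ← part251_sum, ← mul_assoc, inv_mul_cancel₀ hs2.ne', one_mul]
    exact (part251_le _ _).trans h1
  refine (measure_mono hsub).trans (le_of_eq ?_)
  rw [Measure.addHaar_smul, Module.finrank_fintype_fun_eq_card, abs_of_nonneg (by positivity)]

end Subgapball

open Subgapball

namespace SubE1

theorem E1_251 (d n M : ℕ) (hd : 1 ≤ d) (hn : 1 ≤ n) (hM : 1 ≤ M) :
    ∑ x : Gr d M, ∑ y : Gr d M, KS251 (others d n M) x y = (Fintype.card (Gr d M) : ℝ)^2 := by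
  classical
  obtain ⟨-, hz, h0, -⟩ := tg_facts d M hd hM
  have hswap : ∑ x : Gr d M, ∑ y : Gr d M, KS251 (others d n M) x y =
      ∑ k ∈ others d n M, ((∑ x : Gr d M, tg (k, 0) x) * (∑ y : Gr d M, tg (k, 0) y) +
        (∑ x : Gr d M, tg (k, 1) x) * (∑ y : Gr d M, tg (k, 1) y)) := by
    have e1 : ∀ x : Gr d M, ∑ y : Gr d M, KS251 (others d n M) x y =
        ∑ k ∈ others d n M, (tg (k, 0) x * (∑ y : Gr d M, tg (k, 0) y) +
          tg (k, 1) x * (∑ y : Gr d M, tg (k, 1) y)) := by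
      intro x
      unfold KS251
      rw [Finset.sum_comm]
      refine Finset.sum_congr rfl fun k _ => ?_
      rw [Finset.sum_add_distrib, Finset.mul_sum, Finset.mul_sum]
    rw [Finset.sum_congr rfl (fun x _ => e1 x), Finset.sum_comm]
    refine Finset.sum_congr rfl fun k _ => ?_
    rw [Finset.sum_add_distrib, ← Finset.sum_mul, ← Finset.sum_mul]
  rw [hswap]
  have hmem0 : (0 : Fin d → ℤ) ∈ others d n M := by
    unfold others
    rw [Finset.mem_biUnion]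
    refine ⟨0, ?_, ?_⟩
    · rw [Finset.mem_filter, Finset.mem_range]
      exact ⟨by omega, by omega⟩
    · rw [mem_layer_iff]
      simp
  have hbd : ∀ k ∈ others d n M, ∀ j, |k j| < 2^M := by
    intro k hk j
    unfold others at hk
    rw [Finset.mem_biUnion] at hk
    obtain ⟨m, hm, hk⟩ := hk
    rw [Finset.mem_filter, Finset.mem_range] at hm
    unfold layer at hk
    rw [Finset.mem_filter, Fintype.mem_piFinset] at hk
    have h1 := hk.1 j
    rw [Finset.mem_Ioo] at h1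
    have h2 : |k j| < 2^m := abs_lt.mpr h1
    have h3 : (2:ℤ)^m ≤ 2^M := pow_le_pow_right₀ (by norm_num) (by omega)
    exact lt_of_lt_of_le h2 h3
  rw [Finset.sum_eq_single_of_mem (0 : Fin d → ℤ) hmem0]
  · rw [h0 0, h0 1]
    have h2 : Real.sqrt 2 * Real.sqrt 2 = 2 := Real.mul_self_sqrt (by norm_num)
    generalize (Fintype.card (Gr d M) : ℝ) = N
    nlinarith [h2]
  · intro k hk hk0
    have a0 := hz (k, 0) (hbd k hk) hk0
    have a1 := hz (k, 1) (hbd k hk) hk0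
    rw [a0, a1]
    simp

end SubE1

open SubE1

namespace SubE2

theorem E2_251 (d n M : ℕ) (hd : 1 ≤ d) (hn : n ≤ M) (hM : 1 ≤ M) :
    ∑ x : Gr d M, ∑ y : Gr d M, KS251 (others d n M) x y * KS251 (layer d n) x y = 0 := by
  obtain ⟨h1, -, -, -⟩ := tg_facts d M hd hM
  have hbd : ∀ m ≤ M, ∀ k ∈ layer d m, ∀ j, |k j| < 2^M := by
    classical
    intro m hm k hk j
    unfold layer at hk
    rw [Finset.mem_filter] at hk
    have hk1 := hk.1
    have hk2 := Fintype.mem_piFinset.1 hk1 j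
    rw [Finset.mem_Ioo] at hk2
    have h3 : (2:ℤ)^m ≤ 2^M := pow_le_pow_right₀ (by norm_num) hm
    exact lt_of_lt_of_le (abs_lt.2 hk2) h3
  have horth : ∀ k ∈ others d n M, ∀ l ∈ layer d n, ∀ e f : Fin 2,
      ∑ x : Gr d M, tg (k, e) x * tg (l, f) x = 0 := by
    intro k hk l hl e f
    unfold others at hk
    simp only [Finset.mem_biUnion, Finset.mem_filter, Finset.mem_range] at hk
    obtain ⟨m, ⟨hm, hmn⟩, hkm⟩ := hk
    rw [h1 (k, e) (l, f) (hbd m (by omega) k hkm) (hbd n hn l hl), if_neg]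
    intro heq
    have hkl : k = l := congrArg Prod.fst heq
    subst hkl
    rw [mem_layer_iff] at hkm hl
    omega
  have hsplit : ∀ k ∈ others d n M, ∀ l ∈ layer d n,
      ∑ x : Gr d M, ∑ y : Gr d M, (tg (k, 0) x * tg (k, 0) y + tg (k, 1) x * tg (k, 1) y) *
        (tg (l, 0) x * tg (l, 0) y + tg (l, 1) x * tg (l, 1) y) = 0 := by
    intro k hk l hl
    have e1 : ∀ x y : Gr d M, (tg (k, 0) x * tg (k, 0) y + tg (k, 1) x * tg (k, 1) y) *
        (tg (l, 0) x * tg (l, 0) y + tg (l, 1) x * tg (l, 1) y) =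
        (tg (k, 0) x * tg (l, 0) x) * (tg (k, 0) y * tg (l, 0) y) +
        (tg (k, 0) x * tg (l, 1) x) * (tg (k, 0) y * tg (l, 1) y) +
        (tg (k, 1) x * tg (l, 0) x) * (tg (k, 1) y * tg (l, 0) y) +
        (tg (k, 1) x * tg (l, 1) x) * (tg (k, 1) y * tg (l, 1) y) := by
      intro x y
      ring
    simp only [e1, Finset.sum_add_distrib, ← Finset.sum_mul_sum]
    rw [horth k hk l hl 0 0, horth k hk l hl 0 1, horth k hk l hl 1 0, horth k hk l hl 1 1]
    ring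
  calc ∑ x : Gr d M, ∑ y : Gr d M, KS251 (others d n M) x y * KS251 (layer d n) x y
      = ∑ x : Gr d M, ∑ y : Gr d M, ∑ k ∈ others d n M, ∑ l ∈ layer d n,
        (tg (k, 0) x * tg (k, 0) y + tg (k, 1) x * tg (k, 1) y) *
        (tg (l, 0) x * tg (l, 0) y + tg (l, 1) x * tg (l, 1) y) := by
        simp only [KS251, Finset.sum_mul_sum]
    _ = ∑ x : Gr d M, ∑ k ∈ others d n M, ∑ l ∈ layer d n, ∑ y : Gr d M,
        (tg (k, 0) x * tg (k, 0) y + tg (k, 1) x * tg (k, 1) y) *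
        (tg (l, 0) x * tg (l, 0) y + tg (l, 1) x * tg (l, 1) y) := by
        refine Finset.sum_congr rfl fun x _ => ?_
        rw [Finset.sum_comm]
        refine Finset.sum_congr rfl fun k _ => ?_
        rw [Finset.sum_comm]
    _ = ∑ k ∈ others d n M, ∑ l ∈ layer d n, ∑ x : Gr d M, ∑ y : Gr d M,
        (tg (k, 0) x * tg (k, 0) y + tg (k, 1) x * tg (k, 1) y) *
        (tg (l, 0) x * tg (l, 0) y + tg (l, 1) x * tg (l, 1) y) := by
        rw [Finset.sum_comm]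
        refine Finset.sum_congr rfl fun k _ => ?_
        rw [Finset.sum_comm]
    _ = 0 := by
        refine Finset.sum_eq_zero fun k hk => Finset.sum_eq_zero fun l hl => hsplit k hk l hl

end SubE2

open SubE2

namespace SubE3

theorem E3_251 (d n M : ℕ) (x y : Gr d M) :
    |KS251 (others d n M) x y| ≤
      ∑ m ∈ Finset.range (M + 1), 2 * Th d m (fun j => T1 M (x.1 j) (y.1 j)) := by
  classical
  have hTh : ∀ m, 0 ≤ 2 * Th d m (fun j => T1 M (x.1 j) (y.1 j)) := by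
    intro m
    unfold Th
    exact mul_nonneg (by norm_num) (Finset.sum_nonneg fun s _ => by positivity)
  have hdisj : Set.PairwiseDisjoint
      (((Finset.range (M + 1)).filter (fun m => m ≠ n) : Finset ℕ) : Set ℕ)
      (fun m => layer d m) := by
    intro m _ m' _ hne
    change Disjoint (layer d m) (layer d m')
    rw [Finset.disjoint_left]
    intro k hk hk'
    rw [mem_layer_iff] at hk hk'
    exact hne (hk.symm.trans hk')
  have h1 : KS251 (others d n M) x y = ∑ m ∈ (Finset.range (M + 1)).filter (fun m => m ≠ n),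
      ∑ k ∈ layer d m, (tg (k, 0) x * tg (k, 0) y + tg (k, 1) x * tg (k, 1) y) := by
    unfold KS251 others
    rw [← Finset.sum_biUnion hdisj]
  rw [h1]
  calc |∑ m ∈ (Finset.range (M + 1)).filter (fun m => m ≠ n),
      ∑ k ∈ layer d m, (tg (k, 0) x * tg (k, 0) y + tg (k, 1) x * tg (k, 1) y)|
      ≤ ∑ m ∈ (Finset.range (M + 1)).filter (fun m => m ≠ n),
        |∑ k ∈ layer d m, (tg (k, 0) x * tg (k, 0) y + tg (k, 1) x * tg (k, 1) y)| :=
        Finset.abs_sum_le_sum_abs _ _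
    _ ≤ ∑ m ∈ (Finset.range (M + 1)).filter (fun m => m ≠ n),
        2 * Th d m (fun j => T1 M (x.1 j) (y.1 j)) := by
        refine Finset.sum_le_sum fun m hm => ?_
        rw [Finset.mem_filter, Finset.mem_range] at hm
        exact layer_boundM d m M (by omega) x y
    _ ≤ ∑ m ∈ Finset.range (M + 1), 2 * Th d m (fun j => T1 M (x.1 j) (y.1 j)) :=
        Finset.sum_le_sum_of_subset_of_nonneg (Finset.filter_subset _ _) fun m _ _ => hTh m

end SubE3

open SubE3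

namespace SubZ

theorem pair_avg251 (d M : ℕ) (F : (Fin d → ℕ) → ℝ) (hF : ∀ T, 0 ≤ F T) :
    (∑ x : Gr d M, ∑ y : Gr d M, F (fun j => T1 M (x.1 j) (y.1 j))) / (Fintype.card (Gr d M) : ℝ)^2
      ≤ 4^d * ∑ T : Fin d → Fin (M+3), (1/2:ℝ)^(∑ j, ((T j : Fin (M+3)) : ℕ)) * F (fun j => T j) := by
  have h1 : (∑ x : Gr d M, ∑ y : Gr d M, F (fun j => T1 M (x.1 j) (y.1 j))) =
      4 * ∑ x : Fin d → Fin (2^(M+2)), ∑ y : Fin d → Fin (2^(M+2)), F (fun j => T1 M (x j) (y j)) := by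
    rw [Fintype.sum_prod_type]
    simp only [Fintype.sum_prod_type, Fin.sum_univ_two]
    rw [Finset.mul_sum]
    refine Finset.sum_congr rfl fun x _ => ?_
    rw [Finset.mul_sum, ← Finset.sum_add_distrib]
    refine Finset.sum_congr rfl fun y _ => ?_
    ring
  have h2 : (Fintype.card (Gr d M) : ℝ)^2 = 4 * ((2:ℝ)^(M+2))^(2*d) := by
    have : Fintype.card (Gr d M) = (2^(M+2))^d * 2 := by
      rw [Fintype.card_prod, Fintype.card_fun, Fintype.card_fin, Fintype.card_fin, Fintype.card_fin]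
    rw [this]
    push_cast
    rw [mul_pow, ← pow_mul ((2:ℝ)^(M+2)) d 2, mul_comm d 2]
    ring
  have h3 := pair_count d M F hF
  have h4 : (0:ℝ) < 4 * ((2:ℝ)^(M+2))^(2*d) := by positivity
  rw [h1, h2, div_le_iff₀ h4]
  calc 4 * ∑ x : Fin d → Fin (2^(M+2)), ∑ y : Fin d → Fin (2^(M+2)), F (fun j => T1 M (x j) (y j))
      ≤ 4 * (((2:ℝ)^(M+2))^(2*d) * 4^d *
          ∑ T : Fin d → Fin (M+3), (1/2)^(∑ j, ((T j : Fin (M+3)) : ℕ)) * F (fun j => T j)) := by
        gcongr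
    _ = _ := by ring

end SubZ

open SubZ

namespace Subfacts

theorem facts251_bd (d m M : ℕ) (hm : m ≤ M) (k : Fin d → ℤ) (hk : k ∈ layer d m) : ∀ j, |k j| < 2^M := by
  classical
  intro j
  unfold layer at hk
  rw [Finset.mem_filter] at hk
  have h1 := hk.1
  have h2 := Fintype.mem_piFinset.mp h1 j
  have h3 := Finset.mem_Ioo.mp h2
  have h4 : (2:ℤ)^m ≤ 2^M := pow_le_pow_right₀ (by norm_num) hm
  rw [abs_lt]
  constructor <;> linarith [h3.1, h3.2]

theorem facts251_ne (d n : ℕ) (hn : 1 ≤ n) (k : Fin d → ℤ) (hk : k ∈ layer d n) : k ≠ 0 := by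
  intro h0
  rw [mem_layer_iff, h0] at hk
  simp at hk
  omega

theorem facts251_oth (d n M : ℕ) (k : Fin d → ℤ) (hk : k ∈ others d n M) :
    ∃ m, m ≤ M ∧ m ≠ n ∧ k ∈ layer d m := by
  classical
  unfold others at hk
  rw [Finset.mem_biUnion] at hk
  obtain ⟨m, hm, hkm⟩ := hk
  rw [Finset.mem_filter, Finset.mem_range] at hm
  exact ⟨m, by omega, hm.2, hkm⟩

theorem facts251 (d n M : ℕ) (hd : 1 ≤ d) (hn : 1 ≤ n) (hnM : n ≤ M) :
    (∀ i : (layer d n) × Fin 2, ∑ x : Gr d M, tg (i.1.1, i.2) x = 0) ∧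
    (∀ i j : (layer d n) × Fin 2, ∑ x : Gr d M, tg (i.1.1, i.2) x * tg (j.1.1, j.2) x =
      if i = j then (Fintype.card (Gr d M) : ℝ) else 0) ∧
    (∀ x : Gr d M, ∑ i : (layer d n) × Fin 2, tg (i.1.1, i.2) x ^ 2 =
      Fintype.card ((layer d n) × Fin 2)) ∧
    (∀ k l : (others d n M) × Fin 2, ∑ x : Gr d M, tg (k.1.1, k.2) x * tg (l.1.1, l.2) x =
      if k = l then (Fintype.card (Gr d M) : ℝ) else 0) ∧
    (∀ (i : (layer d n) × Fin 2) (k : (others d n M) × Fin 2),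
      ∑ x : Gr d M, tg (i.1.1, i.2) x * tg (k.1.1, k.2) x = 0) := by
  have hM : 1 ≤ M := hn.trans hnM
  obtain ⟨t1, t2, t3, t4⟩ := tg_facts d M hd hM
  have hob : ∀ k : (others d n M), ∀ j, |k.1 j| < 2^M := by
    intro k
    obtain ⟨m, hm, _, hkm⟩ := facts251_oth d n M k.1 k.2
    exact facts251_bd d m M hm k.1 hkm
  have hlb : ∀ k : (layer d n), ∀ j, |k.1 j| < 2^M := fun k => facts251_bd d n M hnM k.1 k.2
  refine ⟨?_, ?_, ?_, ?_, ?_⟩
  · intro i
    exact t2 (i.1.1, i.2) (hlb i.1) (facts251_ne d n hn i.1.1 i.1.2)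
  · intro i j
    rw [t1 (i.1.1, i.2) (j.1.1, j.2) (hlb i.1) (hlb j.1)]
    by_cases hij : i = j
    · rw [if_pos hij, if_pos (by rw [hij])]
    · rw [if_neg hij, if_neg]
      intro h
      apply hij
      rw [Prod.mk.injEq] at h
      exact Prod.ext (Subtype.ext h.1) h.2
  · intro x
    rw [Fintype.sum_prod_type]
    simp only [Fin.sum_univ_two]
    rw [Finset.sum_congr rfl (fun k _ => t4 k.1 x)]
    simp
  · intro i j
    rw [t1 (i.1.1, i.2) (j.1.1, j.2) (hob i.1) (hob j.1)]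
    by_cases hij : i = j
    · rw [if_pos hij, if_pos (by rw [hij])]
    · rw [if_neg hij, if_neg]
      intro h
      apply hij
      rw [Prod.mk.injEq] at h
      exact Prod.ext (Subtype.ext h.1) h.2
  · intro i k
    rw [t1 (i.1.1, i.2) (k.1.1, k.2) (hlb i.1) (hob k.1), if_neg]
    intro h
    rw [Prod.mk.injEq] at h
    obtain ⟨m, hm, hmn, hkm⟩ := facts251_oth d n M k.1.1 k.1.2
    apply hmn
    rw [← h.1, mem_layer_iff] at hkm
    have h2 := i.1.2
    rw [mem_layer_iff] at h2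
    omega

end Subfacts

open Subfacts

theorem kerS251 {d M : ℕ} (S : Finset (Fin d → ℤ)) (x y : Gr d M) :
    ∑ i : S × Fin 2, tg (i.1.1, i.2) x * tg (i.1.1, i.2) y = KS251 S x y := by
  rw [Fintype.sum_prod_type]
  unfold KS251
  rw [← Finset.sum_coe_sort S (fun k => tg (k, 0) x * tg (k, 0) y + tg (k, 1) x * tg (k, 1) y)]
  apply Finset.sum_congr rfl
  intro k _
  rw [Fin.sum_univ_two]

theorem Th_nonneg251 (d n : ℕ) (T : Fin d → ℕ) : 0 ≤ Th d n T := by
  unfold Th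
  exact Finset.sum_nonneg (fun s _ => by positivity)

theorem Ax_nonneg251 (d n : ℕ) (a : ℝ) (ha : 0 < a) (T : Fin d → ℕ) : 0 ≤ Ax d n a T := by
  unfold Ax
  have := Th_nonneg251 d n T
  positivity

theorem K_le251 (d n M : ℕ) (hn : n ≤ M) (x y : Gr d M) :
    |KS251 (layer d n) x y| ≤ 2 * Th d n (fun j => T1 M (x.1 j) (y.1 j)) :=
  layer_boundM d n M hn x y

theorem AxK251 (d n M : ℕ) (hn : n ≤ M) (a s2 : ℝ) (ha : 0 < a)
    (hs : s2 = a * n / (2^(n+1) * shp d n)) (x y : Gr d M) :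
    |s2 * KS251 (layer d n) x y| ≤ Ax d n a (fun j => T1 M (x.1 j) (y.1 j)) := by
  have h1 := K_le251 d n M hn x y
  have hs0 : 0 ≤ s2 := by rw [hs]; positivity
  rw [abs_mul, abs_of_nonneg hs0]
  refine (mul_le_mul_of_nonneg_left h1 hs0).trans (le_of_eq ?_)
  rw [hs]
  unfold Ax
  rw [pow_succ]
  ring

theorem gapH251 (d : ℕ) (hd : 3 ≤ d) : ∃ a0 C : ℝ, 0 < a0 ∧ 0 < C ∧
    ∀ (a : ℝ) (J n : ℕ), 0 < a → a ≤ a0 → J + 2 ≤ n → ∀ s2 : ℝ, s2 = a * n / (2^(n+1) * shp d n) →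
    (∑ x : Gr d (n+J), ∑ y : Gr d (n+J), (1 + KS251 (layer d n) x y)^2 *
      (Real.exp (s2 * KS251 (layer d n) x y) - 1)) / (Fintype.card (Gr d (n+J)) : ℝ)^2 ≤
      C * n * 2^n := by
  obtain ⟨a0, C, ha0, hC, h⟩ := sumH d hd
  refine ⟨a0, 4^d * C, ha0, by positivity, ?_⟩
  intro a J n ha ha1 hJ s2 hs
  have hmain := h a J n ha ha1 hJ
  have hpa := pair_avg251 d (n+J) (fun T => (1 + 2 * Th d n T)^2 * (Real.exp (Ax d n a T) - 1))
    (fun T => mul_nonneg (sq_nonneg _) (by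
      have := Real.one_le_exp (Ax_nonneg251 d n a ha T)
      linarith))
  have hle : (∑ x : Gr d (n+J), ∑ y : Gr d (n+J), (1 + KS251 (layer d n) x y)^2 *
      (Real.exp (s2 * KS251 (layer d n) x y) - 1)) / (Fintype.card (Gr d (n+J)) : ℝ)^2 ≤
      (∑ x : Gr d (n+J), ∑ y : Gr d (n+J), (fun T => (1 + 2 * Th d n T)^2 *
        (Real.exp (Ax d n a T) - 1)) (fun j => T1 (n+J) (x.1 j) (y.1 j))) /
        (Fintype.card (Gr d (n+J)) : ℝ)^2 := by
    apply div_le_div_of_nonneg_right _ (sq_nonneg _)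
    apply Finset.sum_le_sum
    intro x _
    apply Finset.sum_le_sum
    intro y _
    show _ ≤ (1 + 2 * Th d n (fun j => T1 (n+J) (x.1 j) (y.1 j)))^2 *
        (Real.exp (Ax d n a (fun j => T1 (n+J) (x.1 j) (y.1 j))) - 1)
    have h1 := K_le251 d n (n+J) (Nat.le_add_right _ _) x y
    have h2 := AxK251 d n (n+J) (Nat.le_add_right _ _) a s2 ha hs x y
    have h3 := Ax_nonneg251 d n a ha (fun j => T1 (n+J) (x.1 j) (y.1 j))
    have h4 := Th_nonneg251 d n (fun j => T1 (n+J) (x.1 j) (y.1 j))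
    generalize Th d n (fun j => T1 (n+J) (x.1 j) (y.1 j)) = t at *
    generalize Ax d n a (fun j => T1 (n+J) (x.1 j) (y.1 j)) = A at *
    generalize KS251 (layer d n) x y = K at *
    have h5 : 1 ≤ Real.exp A := Real.one_le_exp h3
    have h6 : Real.exp (s2 * K) ≤ Real.exp A := Real.exp_le_exp.2 ((le_abs_self _).trans h2)
    have h7 : (1 + K)^2 ≤ (1 + 2 * t)^2 := by
      have := abs_le.1 h1
      apply sq_le_sq'
      · linarith
      · linarith
    calc (1 + K)^2 * (Real.exp (s2 * K) - 1) ≤ (1 + K)^2 * (Real.exp A - 1) := by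
          apply mul_le_mul_of_nonneg_left _ (sq_nonneg _)
          linarith
      _ ≤ (1 + 2 * t)^2 * (Real.exp A - 1) := by
          apply mul_le_mul_of_nonneg_right h7
          linarith
  refine hle.trans (hpa.trans ?_)
  calc (4:ℝ)^d * _ ≤ 4^d * (C * n * 2^n) := by
        apply mul_le_mul_of_nonneg_left _ (by positivity)
        exact hmain
    _ = 4^d * C * n * 2^n := by ring

theorem exp_aux251 (z A : ℝ) (h : |z| ≤ A) : Real.exp z - 1 - z ≤ Real.exp A - 1 - A := by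
  have hz := abs_nonneg z
  have h1 : Real.exp z - z ≤ Real.exp |z| - |z| := by
    rcases le_total 0 z with h0 | h0
    · rw [abs_of_nonneg h0]
    · rw [abs_of_nonpos h0]
      have h2 : -z ≤ Real.sinh (-z) := Real.self_le_sinh_iff.2 (by linarith)
      rw [Real.sinh_eq] at h2
      rw [neg_neg] at h2
      linarith
  have h2 : Real.exp |z| - |z| ≤ Real.exp A - A := by
    have h3 : Real.exp A = Real.exp |z| * Real.exp (A - |z|) := by
      rw [← Real.exp_add]; congr 1; ring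
    have h4 := Real.add_one_le_exp (A - |z|)
    have h5 : 1 ≤ Real.exp |z| := Real.one_le_exp hz
    have h6 : Real.exp |z| * (A - |z| + 1) ≤ Real.exp A := by
      rw [h3]; exact mul_le_mul_of_nonneg_left h4 (by positivity)
    nlinarith
  linarith

theorem sumK251 (d n M : ℕ) (hd : 1 ≤ d) (hn : 1 ≤ n) (hnM : n ≤ M) :
    ∑ x : Gr d M, ∑ y : Gr d M, KS251 (layer d n) x y = 0 := by
  apply Finset.sum_eq_zero
  intro x _
  obtain ⟨f, _⟩ := facts251 d n M hd hn hnM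
  have h : ∑ y : Gr d M, KS251 (layer d n) x y = ∑ i : (layer d n) × Fin 2,
      tg (i.1.1, i.2) x * ∑ y : Gr d M, tg (i.1.1, i.2) y := by
    simp_rw [← kerS251, Finset.mul_sum]
    rw [Finset.sum_comm]
  rw [h]
  apply Finset.sum_eq_zero
  intro i _
  rw [f i, mul_zero]

theorem Fz_nonneg251 (A : ℝ) : 0 ≤ Real.exp A - 1 - A := by
  have := Real.add_one_le_exp A
  linarith

theorem gapZ251 (d : ℕ) (hd : 3 ≤ d) : ∃ a0 : ℝ, 0 < a0 ∧
    ∀ (a : ℝ) (J n : ℕ), 0 < a → a ≤ a0 → J + 2 ≤ n → ∀ s2 : ℝ, s2 = a * n / (2^(n+1) * shp d n) →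
    (∑ x : Gr d (n+J), ∑ y : Gr d (n+J), (Real.exp (s2 * KS251 (layer d n) x y) - 1)) /
      (Fintype.card (Gr d (n+J)) : ℝ)^2 ≤ 1/64 := by
  obtain ⟨a0, ha0, h⟩ := sumZ d hd
  refine ⟨a0, ha0, ?_⟩
  intro a J n ha ha1 hJ s2 hs
  have hmain := h a J n ha ha1 hJ
  have hpa := pair_avg251 d (n+J) (fun T => Real.exp (Ax d n a T) - 1 - Ax d n a T)
    (fun T => Fz_nonneg251 _)
  have hK := sumK251 d n (n+J) (by omega) (by omega) (Nat.le_add_right _ _)
  have hle : (∑ x : Gr d (n+J), ∑ y : Gr d (n+J), (Real.exp (s2 * KS251 (layer d n) x y) - 1)) /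
      (Fintype.card (Gr d (n+J)) : ℝ)^2 ≤
      (∑ x : Gr d (n+J), ∑ y : Gr d (n+J), (fun T => Real.exp (Ax d n a T) - 1 - Ax d n a T)
        (fun j => T1 (n+J) (x.1 j) (y.1 j))) / (Fintype.card (Gr d (n+J)) : ℝ)^2 := by
    apply div_le_div_of_nonneg_right _ (sq_nonneg _)
    have e1 : ∑ x : Gr d (n+J), ∑ y : Gr d (n+J), (Real.exp (s2 * KS251 (layer d n) x y) - 1) =
        ∑ x : Gr d (n+J), ∑ y : Gr d (n+J), (Real.exp (s2 * KS251 (layer d n) x y) - 1 -
          s2 * KS251 (layer d n) x y) := by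
      have e2 : ∑ x : Gr d (n+J), ∑ y : Gr d (n+J), (Real.exp (s2 * KS251 (layer d n) x y) - 1 -
          s2 * KS251 (layer d n) x y) =
          ∑ x : Gr d (n+J), ∑ y : Gr d (n+J), (Real.exp (s2 * KS251 (layer d n) x y) - 1) -
          s2 * ∑ x : Gr d (n+J), ∑ y : Gr d (n+J), KS251 (layer d n) x y := by
        rw [Finset.mul_sum, ← Finset.sum_sub_distrib]
        apply Finset.sum_congr rfl
        intro x _
        rw [Finset.mul_sum, ← Finset.sum_sub_distrib]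
      rw [e2, hK, mul_zero, sub_zero]
    rw [e1]
    apply Finset.sum_le_sum
    intro x _
    apply Finset.sum_le_sum
    intro y _
    exact exp_aux251 _ _ (AxK251 d n (n+J) (Nat.le_add_right _ _) a s2 ha hs x y)
  refine hle.trans (hpa.trans ?_)
  calc (4:ℝ)^d * _ ≤ 4^d * (1 / (64 * 4^d)) := by
        apply mul_le_mul_of_nonneg_left _ (by positivity)
        exact hmain
    _ = 1/64 := by field_simp

theorem gapD251 (d : ℕ) (hd : 3 ≤ d) : ∃ a0 C : ℝ, 0 < a0 ∧ 0 < C ∧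
    ∀ (a : ℝ) (J n : ℕ), 0 < a → a ≤ a0 → J + 2 ≤ n → ∀ s2 : ℝ, s2 = a * n / (2^(n+1) * shp d n) →
    (∑ x : Gr d (n+J), ∑ y : Gr d (n+J), KS251 (others d n (n+J)) x y *
      Real.exp (s2 * KS251 (layer d n) x y)) / (Fintype.card (Gr d (n+J)) : ℝ)^2 ≤
      1 + C * (2:ℝ)^((J:ℝ)/2) := by
  obtain ⟨a0, C, ha0, hC, h⟩ := sumD d hd
  refine ⟨a0, 4^d * C, ha0, by positivity, ?_⟩
  intro a J n ha ha1 hJ s2 hs
  have hmain := h a J n ha ha1 hJ
  have hB : ∀ T : Fin d → ℕ, 0 ≤ ∑ m ∈ Finset.range (n+J+1), 2 * Th d m T := fun T =>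
    Finset.sum_nonneg (fun m _ => mul_nonneg (by norm_num) (Th_nonneg251 d m T))
  have hpa := pair_avg251 d (n+J) (fun T => (∑ m ∈ Finset.range (n+J+1), 2 * Th d m T) *
    (Real.exp (Ax d n a T) - 1 - Ax d n a T))
    (fun T => mul_nonneg (hB T) (Fz_nonneg251 _))
  have hcard : (0:ℝ) < (Fintype.card (Gr d (n+J)) : ℝ)^2 := by
    have hX : Nonempty (Gr d (n+J)) := ⟨(fun _ => ⟨0, by positivity⟩, 0)⟩
    have : 0 < Fintype.card (Gr d (n+J)) := Fintype.card_pos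
    positivity
  have h1 := E1_251 d n (n+J) (by omega) (by omega) (by omega)
  have h2 := E2_251 d n (n+J) (by omega) (by omega) (by omega)
  have e2 : ∑ x : Gr d (n+J), ∑ y : Gr d (n+J), KS251 (others d n (n+J)) x y *
      Real.exp (s2 * KS251 (layer d n) x y) =
      ∑ x : Gr d (n+J), ∑ y : Gr d (n+J), KS251 (others d n (n+J)) x y +
      s2 * ∑ x : Gr d (n+J), ∑ y : Gr d (n+J), KS251 (others d n (n+J)) x y *
        KS251 (layer d n) x y +
      ∑ x : Gr d (n+J), ∑ y : Gr d (n+J), KS251 (others d n (n+J)) x y *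
        (Real.exp (s2 * KS251 (layer d n) x y) - 1 - s2 * KS251 (layer d n) x y) := by
    rw [Finset.mul_sum, ← Finset.sum_add_distrib, ← Finset.sum_add_distrib]
    apply Finset.sum_congr rfl
    intro x _
    rw [Finset.mul_sum, ← Finset.sum_add_distrib, ← Finset.sum_add_distrib]
    apply Finset.sum_congr rfl
    intro y _
    ring
  rw [e2, h1, h2, mul_zero, add_zero, add_div, div_self hcard.ne']
  have hle : (∑ x : Gr d (n+J), ∑ y : Gr d (n+J), KS251 (others d n (n+J)) x y *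
        (Real.exp (s2 * KS251 (layer d n) x y) - 1 - s2 * KS251 (layer d n) x y)) /
        (Fintype.card (Gr d (n+J)) : ℝ)^2 ≤
      (∑ x : Gr d (n+J), ∑ y : Gr d (n+J), (fun T => (∑ m ∈ Finset.range (n+J+1), 2 * Th d m T) *
    (Real.exp (Ax d n a T) - 1 - Ax d n a T)) (fun j => T1 (n+J) (x.1 j) (y.1 j))) /
        (Fintype.card (Gr d (n+J)) : ℝ)^2 := by
    apply div_le_div_of_nonneg_right _ (sq_nonneg _)
    apply Finset.sum_le_sum
    intro x _
    apply Finset.sum_le_sum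
    intro y _
    have g1 := E3_251 d n (n+J) x y
    have g2 := exp_aux251 _ _ (AxK251 d n (n+J) (Nat.le_add_right _ _) a s2 ha hs x y)
    have g3 := Fz_nonneg251 (s2 * KS251 (layer d n) x y)
    calc KS251 (others d n (n+J)) x y *
        (Real.exp (s2 * KS251 (layer d n) x y) - 1 - s2 * KS251 (layer d n) x y)
        ≤ |KS251 (others d n (n+J)) x y| *
        (Real.exp (s2 * KS251 (layer d n) x y) - 1 - s2 * KS251 (layer d n) x y) :=
          mul_le_mul_of_nonneg_right (le_abs_self _) g3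
      _ ≤ _ := mul_le_mul g1 g2 g3 (hB _)
  have hfin := hle.trans (hpa.trans (mul_le_mul_of_nonneg_left hmain (by positivity)))
  have : (4:ℝ)^d * (C * (2:ℝ)^((J:ℝ)/2)) = 4^d * C * (2:ℝ)^((J:ℝ)/2) := by ring
  linarith

theorem vol_upper_real251 (N : ℕ) (hN : 1 ≤ N) (n : ℝ) (hn : 0 < n) (a c0 K1 q R : ℝ) (ha : 0 < a)
    (hc0 : 0 < c0) (hq : 0 < q) (hqN : 2 * c0 * q ≤ N * n) (s : ℝ) (hs : s^2 = a * n / N)
    (hR : ((N:ℝ)+1) * (1 + Real.log 2) + R ≤ K1 * N) :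
    (Real.sqrt 2)^N * ((2 * π * Real.exp 1 / N)^N *
      Real.exp (-((N:ℝ)/2 * Real.log (2 * π * s^2) - ((N:ℝ)+1) * (1 + Real.log 2) - R))) ≤
    ((Real.sqrt 2 * (2 * π * Real.exp 1) * Real.exp K1 * (Real.sqrt (2 * π * a))⁻¹ *
      (Real.sqrt (2 * c0))⁻¹) * (Real.sqrt q)⁻¹)^N := by
  have hN0 : (0:ℝ) < N := by exact_mod_cast hN
  have hy : 0 < 2 * π * s^2 := by
    rw [hs]
    positivity
  have hinv : (Real.sqrt (2 * π * s^2))⁻¹ = Real.exp (-(Real.log (2 * π * s^2) / 2)) := by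
    rw [← Real.log_sqrt hy.le, Real.exp_neg, Real.exp_log (Real.sqrt_pos.2 hy)]
  have hexp : Real.exp (-((N:ℝ)/2 * Real.log (2 * π * s^2) - ((N:ℝ)+1) * (1 + Real.log 2) - R)) ≤
      ((Real.sqrt (2 * π * s^2))⁻¹ * Real.exp K1)^N := by
    rw [hinv, ← Real.exp_add, ← Real.exp_nat_mul]
    apply Real.exp_le_exp.2
    nlinarith
  have h1 : (N:ℝ)⁻¹ * (Real.sqrt (2 * π * s^2))⁻¹ =
      (Real.sqrt (2 * π * a))⁻¹ * (Real.sqrt (N * n))⁻¹ := by
    rw [← mul_inv, ← mul_inv]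
    congr 1
    have e1 : (N:ℝ) * Real.sqrt (2 * π * s^2) = Real.sqrt ((N:ℝ)^2 * (2 * π * s^2)) := by
      rw [Real.sqrt_mul (by positivity : (0:ℝ) ≤ (N:ℝ)^2), Real.sqrt_sq hN0.le]
    rw [e1, ← Real.sqrt_mul (by positivity), hs]
    congr 1
    field_simp
  have h2 : (Real.sqrt (N * n))⁻¹ ≤ (Real.sqrt (2 * c0))⁻¹ * (Real.sqrt q)⁻¹ := by
    rw [← mul_inv, ← Real.sqrt_mul (by positivity)]
    apply inv_anti₀ (Real.sqrt_pos.2 (by positivity))
    exact Real.sqrt_le_sqrt hqN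
  have hbase : Real.sqrt 2 * (2 * π * Real.exp 1 / N) *
      ((Real.sqrt (2 * π * s^2))⁻¹ * Real.exp K1) ≤
      (Real.sqrt 2 * (2 * π * Real.exp 1) * Real.exp K1 * (Real.sqrt (2 * π * a))⁻¹ *
      (Real.sqrt (2 * c0))⁻¹) * (Real.sqrt q)⁻¹ := by
    have e1 : Real.sqrt 2 * (2 * π * Real.exp 1 / N) *
      ((Real.sqrt (2 * π * s^2))⁻¹ * Real.exp K1) =
      Real.sqrt 2 * (2 * π * Real.exp 1) * Real.exp K1 *
        ((N:ℝ)⁻¹ * (Real.sqrt (2 * π * s^2))⁻¹) := by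
      rw [div_eq_mul_inv]
      ring
    rw [e1, h1]
    calc Real.sqrt 2 * (2 * π * Real.exp 1) * Real.exp K1 *
          ((Real.sqrt (2 * π * a))⁻¹ * (Real.sqrt (N * n))⁻¹)
        ≤ Real.sqrt 2 * (2 * π * Real.exp 1) * Real.exp K1 *
          ((Real.sqrt (2 * π * a))⁻¹ * ((Real.sqrt (2 * c0))⁻¹ * (Real.sqrt q)⁻¹)) := by
          gcongr
      _ = _ := by ring
  calc (Real.sqrt 2)^N * ((2 * π * Real.exp 1 / N)^N *
      Real.exp (-((N:ℝ)/2 * Real.log (2 * π * s^2) - ((N:ℝ)+1) * (1 + Real.log 2) - R)))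
      ≤ (Real.sqrt 2)^N * ((2 * π * Real.exp 1 / N)^N *
        ((Real.sqrt (2 * π * s^2))⁻¹ * Real.exp K1)^N) := by
        gcongr
    _ = (Real.sqrt 2 * (2 * π * Real.exp 1 / N) *
      ((Real.sqrt (2 * π * s^2))⁻¹ * Real.exp K1))^N := by
        rw [mul_pow, mul_pow]
        ring
    _ ≤ _ := pow_le_pow_left₀ (by positivity) hbase N

theorem final251 (N : ℕ) (hN : 1 ≤ N) (J : ℕ) (n : ℝ) (hn : 0 < n) (a c0 K1 q R C3 D : ℝ) (ha : 0 < a)
    (hc0 : 0 < c0) (hq : 0 < q) (hqN : 2 * c0 * q ≤ N * n) (s : ℝ) (hs : s^2 = a * n / N)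
    (hC3 : 0 < C3) (hD : D = 1 + C3 * (2:ℝ)^((J:ℝ)/2))
    (hR : 2 * ((N:ℝ)+1) * (2 + Real.log 2) + R ≤ K1 * N) :
    (Real.sqrt 2)^N * ((2 * π * Real.exp 1 / N)^N * (8 * Real.sqrt D)^N *
      (2 * Real.exp (-((N:ℝ)/2 * Real.log (2 * π * s^2) - 2 * ((N:ℝ)+1) * (2 + Real.log 2) - R)))) ≤
    (((Real.sqrt 2 * (2 * π * Real.exp 1) * Real.exp K1 * (Real.sqrt (2 * π * a))⁻¹ *
      (Real.sqrt (2 * c0))⁻¹) * (16 * Real.sqrt (1 + C3))) * (2:ℝ)^((J:ℝ)/4) *
        (Real.sqrt q)⁻¹)^N := by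
  have h := vol_upper_real251 N hN n hn a c0 K1 q
    (2 * ((N:ℝ)+1) * (2 + Real.log 2) + R - ((N:ℝ)+1) * (1 + Real.log 2)) ha hc0 hq hqN s hs
    (by linarith)
  have e1 : -((N:ℝ)/2 * Real.log (2 * π * s^2) - ((N:ℝ)+1) * (1 + Real.log 2) -
      (2 * ((N:ℝ)+1) * (2 + Real.log 2) + R - ((N:ℝ)+1) * (1 + Real.log 2))) =
      -((N:ℝ)/2 * Real.log (2 * π * s^2) - 2 * ((N:ℝ)+1) * (2 + Real.log 2) - R) := by ring
  rw [e1] at h
  have h2N : (2:ℝ) ≤ 2^N := by
    calc (2:ℝ) = 2^1 := (pow_one _).symm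
      _ ≤ 2^N := pow_le_pow_right₀ (by norm_num) hN
  have hJ4 : Real.sqrt ((2:ℝ)^((J:ℝ)/2)) = (2:ℝ)^((J:ℝ)/4) := by
    rw [Real.sqrt_eq_rpow, ← Real.rpow_mul (by norm_num)]
    congr 1
    ring
  have hJ1 : (1:ℝ) ≤ (2:ℝ)^((J:ℝ)/2) := Real.one_le_rpow (by norm_num) (by positivity)
  have hsD : Real.sqrt D ≤ Real.sqrt (1 + C3) * (2:ℝ)^((J:ℝ)/4) := by
    rw [← hJ4, ← Real.sqrt_mul (by positivity)]
    apply Real.sqrt_le_sqrt
    rw [hD]
    nlinarith
  calc (Real.sqrt 2)^N * ((2 * π * Real.exp 1 / N)^N * (8 * Real.sqrt D)^N *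
      (2 * Real.exp (-((N:ℝ)/2 * Real.log (2 * π * s^2) - 2 * ((N:ℝ)+1) * (2 + Real.log 2) - R))))
      = ((Real.sqrt 2)^N * ((2 * π * Real.exp 1 / N)^N *
        Real.exp (-((N:ℝ)/2 * Real.log (2 * π * s^2) - 2 * ((N:ℝ)+1) * (2 + Real.log 2) - R)))) *
        ((8 * Real.sqrt D)^N * 2) := by ring
    _ ≤ ((Real.sqrt 2 * (2 * π * Real.exp 1) * Real.exp K1 * (Real.sqrt (2 * π * a))⁻¹ *
      (Real.sqrt (2 * c0))⁻¹) * (Real.sqrt q)⁻¹)^N *
        ((8 * (Real.sqrt (1 + C3) * (2:ℝ)^((J:ℝ)/4)))^N * 2^N) := by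
        apply mul_le_mul h _ (by positivity) (by positivity)
        apply mul_le_mul _ h2N (by positivity) (by positivity)
        exact pow_le_pow_left₀ (by positivity) (mul_le_mul_of_nonneg_left hsD (by norm_num)) N
    _ = _ := by
        rw [← mul_pow, ← mul_pow]
        congr 1
        ring

set_option maxHeartbeats 8000000 in

theorem gap_vol (d : ℕ) (hd : 3 ≤ d) : ∃ C : ℝ, 0 < C ∧ ∀ J n : ℕ, J + 2 ≤ n →
    volume (gapB d n (n + J)) ≤ ENNReal.ofReal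
      ((C * (2:ℝ)^((J:ℝ)/4) * (Real.sqrt (2^n * (n:ℝ)^d))⁻¹)^(2 * (layer d n).card)) := by
  obtain ⟨a1, CH, ha1, hCH, hH⟩ := gapH251 d hd
  obtain ⟨a2, ha2, hZ⟩ := gapZ251 d hd
  obtain ⟨a3, C3, ha3, hC3, hDD⟩ := gapD251 d hd
  obtain ⟨c0, hc0, hshp⟩ := shp_lower d (by omega)
  obtain ⟨a, ha, haa1, haa2, haa3⟩ : ∃ a : ℝ, 0 < a ∧ a ≤ a1 ∧ a ≤ a2 ∧ a ≤ a3 :=
    ⟨min a1 (min a2 a3), lt_min ha1 (lt_min ha2 ha3), min_le_left _ _,
      (min_le_right _ _).trans (min_le_left _ _), (min_le_right _ _).trans (min_le_right _ _)⟩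
  refine ⟨(Real.sqrt 2 * (2 * π * Real.exp 1) *
    Real.exp (12 + 8 * (a + 3 + 2 * d) * CH / c0) * (Real.sqrt (2 * π * a))⁻¹ *
      (Real.sqrt (2 * c0))⁻¹) * (16 * Real.sqrt (1 + C3)), by positivity, ?_⟩
  intro J n hJn
  have hn : 1 ≤ n := by omega
  have hn1 : (1:ℝ) ≤ n := by exact_mod_cast hn
  have hn0 : (0:ℝ) < n := by linarith
  have hJr : (J:ℝ) + 2 ≤ n := by exact_mod_cast hJn
  have hsp : c0 * (n:ℝ)^(d-1) ≤ shp d n := hshp n hn
  have hsp0 : (0:ℝ) < shp d n := lt_of_lt_of_le (by positivity) hsp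
  have hNcard : Fintype.card ((layer d n) × Fin 2) = 2 * (layer d n).card := by
    rw [Fintype.card_prod, Fintype.card_coe, Fintype.card_fin, mul_comm]
  have hNreal : ((Fintype.card ((layer d n) × Fin 2) : ℕ) : ℝ) = 2^(n+1) * shp d n := by
    rw [hNcard, card_layer]
    push_cast
    ring
  have hNpos : (0:ℝ) < ((Fintype.card ((layer d n) × Fin 2) : ℕ) : ℝ) := by
    rw [hNreal]
    positivity
  have hN1 : 1 ≤ Fintype.card ((layer d n) × Fin 2) := by exact_mod_cast hNpos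
  have hN1r : (1:ℝ) ≤ ((Fintype.card ((layer d n) × Fin 2) : ℕ) : ℝ) := by exact_mod_cast hN1
  have hpow : (n:ℝ)^(d-1) * n = (n:ℝ)^d := by
    rw [← pow_succ]
    congr 1
    omega
  have hpow2 : (n:ℝ)^2 ≤ (n:ℝ)^(d-1) := pow_le_pow_right₀ hn1 (by omega)
  have hqN : 2 * c0 * (2^n * (n:ℝ)^d) ≤
      ((Fintype.card ((layer d n) × Fin 2) : ℕ) : ℝ) * n := by
    rw [hNreal, ← hpow]
    calc 2 * c0 * (2^n * ((n:ℝ)^(d-1) * n)) = 2^(n+1) * (c0 * (n:ℝ)^(d-1)) * n := by ring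
      _ ≤ 2^(n+1) * (shp d n) * n := by gcongr
  obtain ⟨s, hs0, hs⟩ : ∃ s : ℝ, 0 < s ∧ s^2 = a * n / (2^(n+1) * shp d n) :=
    ⟨Real.sqrt (a * n / (2^(n+1) * shp d n)), Real.sqrt_pos.2 (by positivity),
      Real.sq_sqrt (by positivity)⟩
  have hs2 : s^2 = a * n / ((Fintype.card ((layer d n) × Fin 2) : ℕ) : ℝ) := by
    rw [hNreal, hs]
  obtain ⟨f0, f1, f2, f3, f4⟩ := facts251 d n (n+J) (by omega) hn (Nat.le_add_right _ _)
  have hX : Nonempty (Gr d (n+J)) := ⟨(fun _ => ⟨0, by positivity⟩, 0)⟩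
  have hH1 := hH a J n ha haa1 hJn (s^2) hs
  have hZ1 := hZ a J n ha haa2 hJn (s^2) hs
  have hD1 := hDD a J n ha haa3 hJn (s^2) hs
  have hDge : 1 ≤ 1 + C3 * (2:ℝ)^((J:ℝ)/2) := by
    have : 0 ≤ C3 * (2:ℝ)^((J:ℝ)/2) := by positivity
    linarith
  have hker1 : ∀ x y : Gr d (n+J), KS251 (layer d n) x y =
      ∑ i : (layer d n) × Fin 2, tg (i.1.1, i.2) x * tg (i.1.1, i.2) y :=
    fun x y => (kerS251 _ x y).symm
  have hker2 : ∀ x y : Gr d (n+J), KS251 (others d n (n+J)) x y =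
      ∑ i : (others d n (n+J)) × Fin 2, tg (i.1.1, i.2) x * tg (i.1.1, i.2) y :=
    fun x y => (kerS251 _ x y).symm
  simp only [hker1] at hH1 hZ1 hD1
  simp only [hker2] at hD1
  have hpol := gap_gibbs (X := Gr d (n+J)) (ι := (layer d n) × Fin 2)
    (κ := (others d n (n+J)) × Fin 2) (fun i x => tg (i.1.1, i.2) x)
    (fun k x => tg (k.1.1, k.2) x) hN1 f0 f1 f2 f3 f4 s hs0 (CH * n * 2^n)
    (1 + C3 * (2:ℝ)^((J:ℝ)/2)) hH1 hZ1 hD1 hDge
  have hlog2 : Real.log 2 ≤ 1 := by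
    have := Real.log_two_lt_d9
    linarith
  have hlog20 : 0 ≤ Real.log 2 := Real.log_nonneg (by norm_num)
  have hlogX : Real.log (2 * Fintype.card (Gr d (n+J))) ≤ 2 + ((n:ℝ) + J + 2) * d := by
    have e1 : (2 * Fintype.card (Gr d (n+J)) : ℝ) = 2^(2 + (n+J+2)*d) := by
      have : Fintype.card (Gr d (n+J)) = (2^(n+J+2))^d * 2 := by
        rw [Fintype.card_prod, Fintype.card_fun, Fintype.card_fin, Fintype.card_fin,
          Fintype.card_fin]
      rw [this]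
      push_cast
      rw [← pow_mul]
      ring
    rw [e1, Real.log_pow]
    push_cast
    calc (2 + ((n:ℝ)+J+2) * d) * Real.log 2 ≤ (2 + ((n:ℝ)+J+2) * d) * 1 := by gcongr
      _ = _ := mul_one _
  have hR : 2 * (((Fintype.card ((layer d n) × Fin 2) : ℕ) : ℝ) + 1) * (2 + Real.log 2) +
      16 * (s^2 * ((Fintype.card ((layer d n) × Fin 2) : ℕ) : ℝ) +
        Real.log (2 * Fintype.card (Gr d (n+J))) + 1) * (CH * n * 2^n) ≤
      (12 + 8 * (a + 3 + 2 * d) * CH / c0) * ((Fintype.card ((layer d n) × Fin 2) : ℕ) : ℝ) := by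
    have e1 : s^2 * ((Fintype.card ((layer d n) × Fin 2) : ℕ) : ℝ) = a * n := by
      rw [hs2]
      field_simp
    rw [e1]
    have e2 : 2 * (((Fintype.card ((layer d n) × Fin 2) : ℕ) : ℝ) + 1) * (2 + Real.log 2) ≤
        12 * ((Fintype.card ((layer d n) × Fin 2) : ℕ) : ℝ) := by
      nlinarith
    have hd0 : (0:ℝ) ≤ d := by positivity
    have e3 : a * n + Real.log (2 * Fintype.card (Gr d (n+J))) + 1 ≤ (a + 3 + 2 * d) * n := by
      have e31 : ((n:ℝ) + J + 2) * d ≤ (2 * n) * d := by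
        apply mul_le_mul_of_nonneg_right _ hd0
        linarith
      nlinarith
    have e4 : 2 * c0 * (2^n * (n:ℝ)^2) ≤ ((Fintype.card ((layer d n) × Fin 2) : ℕ) : ℝ) := by
      rw [hNreal]
      calc 2 * c0 * (2^n * (n:ℝ)^2) ≤ 2 * c0 * (2^n * (n:ℝ)^(d-1)) := by gcongr
        _ = 2^(n+1) * (c0 * (n:ℝ)^(d-1)) := by ring
        _ ≤ 2^(n+1) * (shp d n) := by gcongr
    have e5 : 16 * (a * n + Real.log (2 * Fintype.card (Gr d (n+J))) + 1) * (CH * n * 2^n) ≤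
        8 * (a + 3 + 2 * d) * CH / c0 * ((Fintype.card ((layer d n) × Fin 2) : ℕ) : ℝ) := by
      calc 16 * (a * n + Real.log (2 * Fintype.card (Gr d (n+J))) + 1) * (CH * n * 2^n)
          ≤ 16 * ((a + 3 + 2 * d) * n) * (CH * n * 2^n) := by gcongr
        _ = 8 * (a + 3 + 2 * d) * CH / c0 * (2 * c0 * (2^n * (n:ℝ)^2)) := by
            field_simp
            ring
        _ ≤ _ := by gcongr
    refine (add_le_add e2 e5).trans (le_of_eq ?_)
    ring
  have hfin := final251 (Fintype.card ((layer d n) × Fin 2)) hN1 J n hn0 a c0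
    (12 + 8 * (a + 3 + 2 * d) * CH / c0) (2^n * (n:ℝ)^d) _ C3 (1 + C3 * (2:ℝ)^((J:ℝ)/2))
    ha hc0 (by positivity) hqN s hs2 hC3 rfl hR
  rw [← hNcard]
  calc volume (gapB d n (n+J)) ≤ _ := gap_ball251 d n (n+J) (Nat.le_add_right _ _)
    _ ≤ _ := mul_le_mul_right hpol _
    _ = _ := (ENNReal.ofReal_mul (by positivity)).symm
    _ ≤ _ := ENNReal.ofReal_le_ofReal hfin

end Sol_EX_gap_vol

alias gap_vol := Sol_EX_gap_vol.gap_vol

end HypVol
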