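import Pool.Agent.EntX.Defs
import Pool.Agent.HypVol.L_mem_layer
open MeasureTheory Real ProbabilityTheory
open scoped ENNReal BigOperators

namespace HypVol
namespace Sol_EX_Mact_norm

theorem Mact_norm_fac (r : ℝ) (hr : 0 < r) (k : ℤ) (x : ℝ) :
    ‖(if k = 0 then (1 : ℂ) else (((|(k : ℝ)|)^(-r) : ℝ) : ℂ) *
      Complex.exp (-(Complex.I * ((x : ℝ) : ℂ))))‖ ≤
      (2:ℝ) ^ r * (2:ℝ) ^ (-(r * (Nat.size k.natAbs : ℝ))) := by
  by_cases hk : k = 0
  · subst hk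
    rw [if_pos rfl, norm_one]
    simp only [Int.natAbs_zero, Nat.size_zero, Nat.cast_zero, mul_zero, neg_zero, Real.rpow_zero,
      mul_one]
    exact Real.one_le_rpow (by norm_num) hr.le
  · rw [if_neg hk, norm_mul, Complex.norm_real]
    have h1 : ‖Complex.exp (-(Complex.I * ((x : ℝ) : ℂ)))‖ = 1 := by
      have h2 : -(Complex.I * ((x : ℝ) : ℂ)) = (((-x : ℝ)) : ℂ) * Complex.I := by
        push_cast
        ring
      rw [h2, Complex.norm_exp_ofReal_mul_I]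
    rw [h1, mul_one]
    have hn : k.natAbs ≠ 0 := Int.natAbs_ne_zero.2 hk
    have habs : |(k : ℝ)| = (k.natAbs : ℝ) := by
      rw [Nat.cast_natAbs, Int.cast_abs]
    have hs : 0 < Nat.size k.natAbs := Nat.size_pos.2 (Nat.pos_of_ne_zero hn)
    obtain ⟨m, hm⟩ : ∃ m, Nat.size k.natAbs = m + 1 := ⟨Nat.size k.natAbs - 1, by omega⟩
    have h3 : 2 ^ m ≤ k.natAbs := Nat.lt_size.1 (by omega)
    have h4 : ((2:ℝ) ^ m) ≤ |(k : ℝ)| := by
      rw [habs]
      exact_mod_cast h3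
    have h5 : (0:ℝ) < (2:ℝ) ^ m := by positivity
    have h6 : (0:ℝ) ≤ |(k : ℝ)| := abs_nonneg _
    rw [Real.norm_of_nonneg (Real.rpow_nonneg h6 _), Real.rpow_neg h6, hm]
    have h7 : (2:ℝ) ^ r * (2:ℝ) ^ (-(r * ((m + 1 : ℕ) : ℝ))) = (((2:ℝ) ^ m) ^ r)⁻¹ := by
      rw [← Real.rpow_natCast 2 m, ← Real.rpow_mul (by norm_num), ← Real.rpow_neg (by norm_num),
        ← Real.rpow_add (by norm_num)]
      congr 1
      push_cast
      ring
    rw [h7]
    apply inv_anti₀ (Real.rpow_pos_of_pos h5 _)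
    exact Real.rpow_le_rpow h5.le h4 hr.le

theorem Mact_norm_Fh {d n : ℕ} (r : ℝ) (hr : 0 < r) (α : Fin d → ℝ) (k : Fin d → ℤ)
    (hk : k ∈ layer d n) : ‖Fh r α k‖ ≤ (2:ℝ)^(r * d) * (2:ℝ)^(-(r * n)) := by
  have hs : ∑ j, Nat.size (k j).natAbs = n := (mem_layer_iff d n k).1 hk
  unfold Fh
  rw [norm_prod]
  calc ∏ j, ‖(if k j = 0 then (1 : ℂ) else (((|(k j : ℝ)|)^(-r) : ℝ) : ℂ) *
      Complex.exp (-(Complex.I * (((SignType.sign (k j) : ℤ) : ℝ) * α j * π / 2 : ℝ))))‖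
      ≤ ∏ j, ((2:ℝ) ^ r * (2:ℝ) ^ (-(r * (Nat.size (k j).natAbs : ℝ)))) := by
        apply Finset.prod_le_prod
        · intro j _
          exact norm_nonneg _
        · intro j _
          exact Mact_norm_fac r hr (k j) _
    _ = (2:ℝ)^(r * d) * (2:ℝ)^(-(r * n)) := by
        rw [Finset.prod_mul_distrib, Finset.prod_const, Finset.card_univ, Fintype.card_fin]
        congr 1
        · rw [← Real.rpow_natCast, ← Real.rpow_mul (by norm_num)]
        · rw [← Real.rpow_sum_of_pos (by norm_num)]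
          congr 1
          rw [Finset.sum_neg_distrib, ← Finset.mul_sum, ← hs]
          push_cast
          rfl

theorem Mact_norm {d n : ℕ} (r : ℝ) (hr : 0 < r) (α : Fin d → ℝ) (a : (layer d n) × Fin 2 → ℝ) :
    eu (Mact r α a) ≤ (2:ℝ)^(r * d) * (2:ℝ)^(-(r * n)) * eu a := by
  set C : ℝ := (2:ℝ)^(r * d) * (2:ℝ)^(-(r * n)) with hC
  have hC0 : 0 ≤ C := by positivity
  have key : ∑ i, (Mact r α a i) ^ 2 ≤ C ^ 2 * ∑ i, a i ^ 2 := by
    rw [Fintype.sum_prod_type, Fintype.sum_prod_type, Finset.mul_sum]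
    apply Finset.sum_le_sum
    intro k _
    rw [Fin.sum_univ_two, Fin.sum_univ_two]
    have h0 : Mact r α a (k, 0) =
        (Fh r α k.1 * ((a (k, 0) : ℂ) + (a (k, 1) : ℂ) * Complex.I)).re := by
      simp [Mact]
    have h1 : Mact r α a (k, 1) =
        (Fh r α k.1 * ((a (k, 0) : ℂ) + (a (k, 1) : ℂ) * Complex.I)).im := by
      simp [Mact]
    rw [h0, h1]
    have h2 : ∀ z : ℂ, z.re ^ 2 + z.im ^ 2 = ‖z‖ ^ 2 := by
      intro z
      rw [← Complex.normSq_eq_norm_sq, Complex.normSq_apply]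
      ring
    have h3 : ‖((a (k, 0) : ℂ) + (a (k, 1) : ℂ) * Complex.I)‖ ^ 2 = a (k, 0) ^ 2 + a (k, 1) ^ 2 := by
      rw [← h2]
      simp
    rw [h2, norm_mul, mul_pow, h3]
    have h4 := Mact_norm_Fh (n := n) r hr α k.1 k.2
    have h5 : ‖Fh r α k.1‖ ^ 2 ≤ C ^ 2 := by
      gcongr
    apply mul_le_mul_of_nonneg_right h5
    positivity
  unfold eu
  calc Real.sqrt (∑ i, (Mact r α a i) ^ 2) ≤ Real.sqrt (C ^ 2 * ∑ i, a i ^ 2) := Real.sqrt_le_sqrt key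
    _ = C * Real.sqrt (∑ i, a i ^ 2) := by
        rw [Real.sqrt_mul (by positivity), Real.sqrt_sq hC0]

end Sol_EX_Mact_norm

alias Mact_norm := Sol_EX_Mact_norm.Mact_norm

end HypVol
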