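import Pool.Agent.EntX.Defs
import Pool.Agent.HypVol.L_gam_prob
open MeasureTheory Real ProbabilityTheory
open scoped ENNReal BigOperators

namespace HypVol
namespace Sol_EX_gauss_shift

theorem gauss_shift_fin {n : ℕ} (μ : Fin n → Measure ℝ)
    [∀ i, SigmaFinite (μ i)] (f : Fin n → ℝ → ℝ≥0∞) (hf : ∀ i, Measurable (f i)) :
    ∫⁻ x : Fin n → ℝ, ∏ i, f i (x i) ∂(Measure.pi μ) = ∏ i, ∫⁻ x, f i x ∂(μ i) := by
  induction n with
  | zero => simp
  | succ n n_ih =>
      calc
        _ = ∫⁻ x : ℝ × (Fin n → ℝ),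
            f 0 x.1 * ∏ i : Fin n, f (Fin.succ i) (x.2 i)
            ∂((μ 0).prod (Measure.pi (fun i ↦ μ i.succ))) := by
          rw [← ((measurePreserving_piFinSuccAbove μ 0).symm).lintegral_comp_emb
            (MeasurableEquiv.measurableEmbedding _)]
          simp_rw [MeasurableEquiv.piFinSuccAbove_symm_apply, Fin.insertNthEquiv,
            Fin.prod_univ_succ, Fin.insertNth_zero, Equiv.coe_fn_mk, Fin.cons_succ,
            Fin.zero_succAbove, cast_eq, Fin.cons_zero]
        _ = (∫⁻ x, f 0 x ∂μ 0)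
            * ∏ i : Fin n, ∫⁻ (x : ℝ), f (Fin.succ i) x ∂(μ i.succ) := by
          rw [← n_ih (fun i => μ i.succ) (fun i => f i.succ) (fun i => hf _)]
          exact lintegral_prod_mul (hf 0).aemeasurable (Finset.measurable_prod _ (fun i _ =>
            (hf _).comp (measurable_pi_apply i))).aemeasurable
        _ = ∏ i, ∫⁻ x, f i x ∂(μ i) := by rw [Fin.prod_univ_succ]

theorem gauss_shift_fintype {ι : Type*} [Fintype ι] (μ : ι → Measure ℝ)
    [∀ i, SigmaFinite (μ i)] (f : ι → ℝ → ℝ≥0∞) (hf : ∀ i, Measurable (f i)) :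
    ∫⁻ x : ι → ℝ, ∏ i, f i (x i) ∂(Measure.pi μ) = ∏ i, ∫⁻ x, f i x ∂(μ i) := by
  let e := (Fintype.equivFin ι).symm
  rw [← (measurePreserving_piCongrLeft _ e).lintegral_comp_emb
    (MeasurableEquiv.measurableEmbedding _)]
  simp_rw [← e.prod_comp, MeasurableEquiv.coe_piCongrLeft, Equiv.piCongrLeft_apply_apply]
  exact gauss_shift_fin (fun i => μ (e i)) (fun i => f (e i)) (fun i => hf _)

theorem gauss_shift_pi {ι : Type*} [Fintype ι] (g : ι → ℝ → ℝ≥0∞) (hg : ∀ i, Measurable (g i))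
    [∀ i, SigmaFinite ((volume : Measure ℝ).withDensity (g i))] :
    Measure.pi (fun i => (volume : Measure ℝ).withDensity (g i)) =
      (Measure.pi (fun _ : ι => (volume : Measure ℝ))).withDensity (fun y => ∏ i, g i (y i)) := by
  apply Measure.pi_eq
  intro s hs
  rw [withDensity_apply _ (MeasurableSet.univ_pi hs), Measure.restrict_pi_pi,
    gauss_shift_fintype _ _ hg]
  apply Finset.prod_congr rfl
  intro i _
  rw [withDensity_apply _ (hs i)]

noncomputable def gauss_shift_r {ι : Type} [Fintype ι] (v : ι → ℝ) : ℝ :=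
  ((Real.sqrt (2 * π))⁻¹) ^ (Fintype.card ι) * Real.exp (-(∑ i, v i ^ 2) / 2)

theorem gauss_shift_dens {ι : Type} [Fintype ι] :
    gam ι 1 = (volume : Measure (ι → ℝ)).withDensity (fun v => ENNReal.ofReal (gauss_shift_r v)) := by
  have h1 : ∀ y : ι → ℝ, ∏ i, gaussianPDF 0 (Real.toNNReal (1 ^ 2)) (y i) =
      ENNReal.ofReal (gauss_shift_r y) := by
    intro y
    have h2 : ∀ i, gaussianPDF 0 (Real.toNNReal (1 ^ 2)) (y i) =
        ENNReal.ofReal ((Real.sqrt (2 * π))⁻¹ * Real.exp (-(y i ^ 2) / 2)) := by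
      intro i
      rw [gaussianPDF_def, gaussianPDFReal_def]
      simp
    simp_rw [h2]
    rw [← ENNReal.ofReal_prod_of_nonneg (fun i _ => by positivity)]
    congr 1
    rw [Finset.prod_mul_distrib, Finset.prod_const, Finset.card_univ, ← Real.exp_sum]
    unfold gauss_shift_r
    congr 2
    rw [← Finset.sum_div, Finset.sum_neg_distrib]
  have hne : Real.toNNReal (1 ^ 2) ≠ 0 := by simp
  have h3 : (fun _ : ι => gaussianReal 0 (Real.toNNReal (1 ^ 2))) =
      fun _ : ι => (volume : Measure ℝ).withDensity (gaussianPDF 0 (Real.toNNReal (1 ^ 2))) := by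
    funext _
    exact gaussianReal_of_var_ne_zero 0 hne
  have hsf : ∀ _ : ι, SigmaFinite ((volume : Measure ℝ).withDensity
      (gaussianPDF 0 (Real.toNNReal (1 ^ 2)))) := by
    intro _
    rw [← gaussianReal_of_var_ne_zero 0 hne]
    infer_instance
  have hpi := @gauss_shift_pi ι _ (fun _ : ι => gaussianPDF 0 (Real.toNNReal (1 ^ 2)))
    (fun _ => measurable_gaussianPDF _ _) hsf
  unfold gam
  rw [h3, hpi, volume_pi]
  congr 1
  funext y
  exact h1 y

theorem gauss_shift_cont {ι : Type} [Fintype ι] :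
    Continuous (fun v : ι → ℝ => gauss_shift_r v) := by
  unfold gauss_shift_r
  fun_prop

theorem gauss_shift_ineq {ι : Type} [Fintype ι] (x v : ι → ℝ) :
    2 * (Real.exp (-(∑ i, x i ^ 2) / 2) * gauss_shift_r v) ≤
      gauss_shift_r (v + x) + gauss_shift_r (v - x) := by
  unfold gauss_shift_r
  set c : ℝ := ((Real.sqrt (2 * π))⁻¹) ^ (Fintype.card ι) with hc
  have hc0 : 0 ≤ c := by positivity
  set P : ℝ := -(∑ i, (v + x) i ^ 2) / 2 with hP
  set Q : ℝ := -(∑ i, (v - x) i ^ 2) / 2 with hQ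
  have hPQ : -(∑ i, x i ^ 2) / 2 + -(∑ i, v i ^ 2) / 2 = P / 2 + Q / 2 := by
    have h1 : ∑ i, (v + x) i ^ 2 + ∑ i, (v - x) i ^ 2 = 2 * ∑ i, v i ^ 2 + 2 * ∑ i, x i ^ 2 := by
      rw [← Finset.sum_add_distrib, Finset.mul_sum, Finset.mul_sum, ← Finset.sum_add_distrib]
      refine Finset.sum_congr rfl (fun i _ => ?_)
      simp only [Pi.add_apply, Pi.sub_apply]
      ring
    rw [hP, hQ]
    linarith
  have h2 : Real.exp (-(∑ i, x i ^ 2) / 2) * Real.exp (-(∑ i, v i ^ 2) / 2) =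
      Real.exp (P / 2) * Real.exp (Q / 2) := by
    rw [← Real.exp_add, ← Real.exp_add, hPQ]
  have h3 : Real.exp P = Real.exp (P / 2) ^ 2 := by
    rw [← Real.exp_nat_mul]
    congr 1
    push_cast
    ring
  have h4 : Real.exp Q = Real.exp (Q / 2) ^ 2 := by
    rw [← Real.exp_nat_mul]
    congr 1
    push_cast
    ring
  rw [h3, h4]
  have h5 : 2 * (Real.exp (-(∑ i, x i ^ 2) / 2) * (c * Real.exp (-(∑ i, v i ^ 2) / 2))) =
      c * (2 * (Real.exp (P / 2) * Real.exp (Q / 2))) := by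
    rw [← h2]
    ring
  rw [h5]
  have h6 : 0 ≤ c * (Real.exp (P / 2) - Real.exp (Q / 2)) ^ 2 := by positivity
  nlinarith [h6]

theorem gauss_shift_even {ι : Type} [Fintype ι] (v : ι → ℝ) :
    gauss_shift_r (-v) = gauss_shift_r v := by
  unfold gauss_shift_r
  simp

theorem gauss_shift {ι : Type} [Fintype ι] (A : Set (ι → ℝ)) (hA : MeasurableSet A)
    (hs : ∀ u ∈ A, -u ∈ A) (x : ι → ℝ) :
    ENNReal.ofReal (Real.exp (-(∑ i, x i ^ 2) / 2)) * gam ι 1 A ≤ gam ι 1 {u | u - x ∈ A} := by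
  set ρ : (ι → ℝ) → ℝ≥0∞ := fun v => ENNReal.ofReal (gauss_shift_r v) with hρ
  have hρm : Measurable ρ := ENNReal.measurable_ofReal.comp gauss_shift_cont.measurable
  have hdens : gam ι 1 = (volume : Measure (ι → ℝ)).withDensity ρ := gauss_shift_dens
  have hB : MeasurableSet {u : ι → ℝ | u - x ∈ A} :=
    (measurable_id.sub measurable_const) hA
  have hneg : ∀ v, (-v ∈ A ↔ v ∈ A) := by
    intro v
    exact ⟨fun h => by simpa using hs _ h, fun h => hs _ h⟩
  
  have h1 : gam ι 1 {u | u - x ∈ A} = ∫⁻ v in A, ρ (v + x) := by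
    rw [hdens, withDensity_apply _ hB, ← lintegral_indicator hB, ← lintegral_indicator hA,
      ← lintegral_sub_right_eq_self (A.indicator fun v => ρ (v + x)) x]
    refine lintegral_congr (fun u => ?_)
    by_cases hu : u - x ∈ A
    · rw [Set.indicator_of_mem (show u ∈ {u | u - x ∈ A} from hu), Set.indicator_of_mem hu,
        sub_add_cancel]
    · rw [Set.indicator_of_notMem (show u ∉ {u | u - x ∈ A} from hu),
        Set.indicator_of_notMem hu]
  have h2 : ∫⁻ v in A, ρ (v - x) = ∫⁻ v in A, ρ (v + x) := by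
    rw [← lintegral_indicator hA, ← lintegral_indicator hA,
      ← lintegral_neg_eq_self (A.indicator fun v => ρ (v - x))]
    refine lintegral_congr (fun u => ?_)
    by_cases hu : u ∈ A
    · rw [Set.indicator_of_mem ((hneg u).2 hu), Set.indicator_of_mem hu]
      have h3 : -u - x = -(u + x) := by abel
      rw [h3]
      simp only [hρ, gauss_shift_even]
    · rw [Set.indicator_of_notMem (mt (hneg u).1 hu), Set.indicator_of_notMem hu]
  have h4 : ∀ v, 2 * (ENNReal.ofReal (Real.exp (-(∑ i, x i ^ 2) / 2)) * ρ v) ≤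
      ρ (v + x) + ρ (v - x) := by
    intro v
    have hr : ∀ w : ι → ℝ, 0 ≤ gauss_shift_r w := by
      intro w
      unfold gauss_shift_r
      positivity
    simp only [hρ]
    rw [← ENNReal.ofReal_mul (Real.exp_pos _).le, ← ENNReal.ofReal_add (hr _) (hr _),
      show (2 : ℝ≥0∞) = ENNReal.ofReal 2 by simp, ← ENNReal.ofReal_mul (by norm_num)]
    exact ENNReal.ofReal_le_ofReal (gauss_shift_ineq x v)
  have hm1 : Measurable (fun v => ρ (v + x)) := hρm.comp (measurable_id.add measurable_const)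
  have h5 : 2 * (ENNReal.ofReal (Real.exp (-(∑ i, x i ^ 2) / 2)) * gam ι 1 A) ≤
      2 * gam ι 1 {u | u - x ∈ A} := by
    calc 2 * (ENNReal.ofReal (Real.exp (-(∑ i, x i ^ 2) / 2)) * gam ι 1 A)
        = ∫⁻ v in A, 2 * (ENNReal.ofReal (Real.exp (-(∑ i, x i ^ 2) / 2)) * ρ v) := by
          rw [hdens, withDensity_apply _ hA, lintegral_const_mul _ (hρm.const_mul _),
            lintegral_const_mul _ hρm]
      _ ≤ ∫⁻ v in A, (ρ (v + x) + ρ (v - x)) := lintegral_mono (fun v => h4 v)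
      _ = (∫⁻ v in A, ρ (v + x)) + ∫⁻ v in A, ρ (v - x) := lintegral_add_left hm1 _
      _ = 2 * gam ι 1 {u | u - x ∈ A} := by rw [h2, h1, two_mul]
  exact (ENNReal.mul_le_mul_iff_right (by norm_num) (by norm_num)).1 h5

end Sol_EX_gauss_shift

alias gauss_shift := Sol_EX_gauss_shift.gauss_shift

end HypVol
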