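import Pool.Agent.EntX.Defs
import Pool.Agent.HypVol.L_gam_prob
import Pool.Agent.EntX.L_gauss_shift
open MeasureTheory Real ProbabilityTheory
open scoped ENNReal BigOperators

namespace HypVol
namespace Sol_EX_dual_sudakov

theorem dual_sudakov {ι : Type} [Fintype ι] (nu : (ι → ℝ) → ℝ) (h1 : ∀ a b, nu (a + b) ≤ nu a + nu b)
    (h2 : ∀ (c : ℝ) a, nu (c • a) = |c| * nu a) (h3 : Continuous nu) (t : ℝ) (ht : 0 < t)
    (hg : (1/2 : ℝ≥0∞) ≤ gam ι 1 {u | nu u ≤ t}) (ε : ℝ) (hε : 0 < ε) :
    ∃ S : Finset (ι → ℝ), (S.card : ℝ) ≤ 2 * Real.exp (2 * t^2 / ε^2) ∧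
      ∀ a : ι → ℝ, ∑ i, a i ^ 2 ≤ 1 → ∃ s ∈ S, nu (a - s) ≤ ε := by
  classical
  have hneg : ∀ u, nu (-u) = nu u := by
    intro u
    have := h2 (-1) u
    simpa using this
  have hnu0 : nu 0 = 0 := by
    have := h2 0 0
    simpa using this
  let A : Set (ι → ℝ) := {u | nu u ≤ t}
  have hA : MeasurableSet A := (isClosed_le h3 continuous_const).measurableSet
  have hAs : ∀ u ∈ A, -u ∈ A := by
    intro u hu
    change nu (-u) ≤ t
    rw [hneg]; exact hu
  let lam : ℝ := 2 * t / ε
  have hlam : 0 < lam := by positivity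
  let pack : Finset (ι → ℝ) → Prop := fun S => (∀ s ∈ S, ∑ i, s i ^ 2 ≤ 1) ∧
    (∀ s ∈ S, ∀ s' ∈ S, s ≠ s' → ε < nu (s - s'))
  have hcard : ∀ S, pack S → (S.card : ℝ) ≤ 2 * Real.exp (2 * t^2 / ε^2) := by
    intro S hS
    have hprob := gam_prob ι 1
    let As : (ι → ℝ) → Set (ι → ℝ) := fun s => {u | u - lam • s ∈ A}
    have hms : ∀ s, MeasurableSet (As s) := fun s => hA.preimage (measurable_id.sub_const _)
    have hlow : ∀ s ∈ S, ENNReal.ofReal (Real.exp (-(2 * t^2 / ε^2))) * (1/2) ≤ gam ι 1 (As s) := by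
      intro s hs
      refine le_trans ?_ (gauss_shift A hA hAs (lam • s))
      refine mul_le_mul' (ENNReal.ofReal_le_ofReal (Real.exp_le_exp.mpr ?_)) hg
      have e1 : ∑ i, (lam • s) i ^ 2 = lam ^ 2 * ∑ i, s i ^ 2 := by
        rw [Finset.mul_sum]
        apply Finset.sum_congr rfl
        intro i _
        rw [Pi.smul_apply, smul_eq_mul, mul_pow]
      rw [e1]
      have e2 : lam ^ 2 / 2 = 2 * t^2 / ε^2 := by
        simp only [lam]; field_simp
      have e3 : lam ^ 2 * ∑ i, s i ^ 2 ≤ lam ^ 2 * 1 := mul_le_mul_of_nonneg_left (hS.1 s hs) (by positivity)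
      linarith
    have hdisj : (S : Set (ι → ℝ)).PairwiseDisjoint As := by
      intro s hs s' hs' hne
      rw [Function.onFun, Set.disjoint_left]
      intro u hu hu'
      have h4 : nu (u - lam • s) ≤ t := hu
      have h5 : nu (u - lam • s') ≤ t := hu'
      have h6 := hS.2 s hs s' hs' hne
      have h7 : lam • (s - s') = (u - lam • s') + (-(u - lam • s)) := by
        rw [smul_sub]; abel
      have h8 : nu (lam • (s - s')) ≤ 2 * t := by
        rw [h7]
        refine (h1 _ _).trans ?_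
        rw [hneg]; linarith
      rw [h2, abs_of_pos hlam] at h8
      have h9 : 2 * t < lam * nu (s - s') := by
        have : lam * ε = 2 * t := by simp only [lam]; field_simp
        rw [← this]
        exact mul_lt_mul_of_pos_left h6 hlam
      linarith
    have hsum : ∑ s ∈ S, gam ι 1 (As s) ≤ 1 := by
      rw [← measure_biUnion_finset hdisj (fun s _ => hms s)]
      exact prob_le_one
    have h10 : (S.card : ℝ≥0∞) * (ENNReal.ofReal (Real.exp (-(2 * t^2 / ε^2))) * (1/2)) ≤ 1 := by
      refine le_trans ?_ hsum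
      rw [← nsmul_eq_mul, ← Finset.sum_const]
      exact Finset.sum_le_sum hlow
    have h11 : ENNReal.ofReal ((S.card : ℝ) * (Real.exp (-(2 * t^2 / ε^2)) * (1/2))) ≤ ENNReal.ofReal 1 := by
      rw [ENNReal.ofReal_mul (Nat.cast_nonneg _), ENNReal.ofReal_mul (Real.exp_pos _).le, ENNReal.ofReal_natCast,
        ENNReal.ofReal_one]
      have : ENNReal.ofReal (1/2) = 1/2 := by
        rw [ENNReal.ofReal_div_of_pos (by norm_num)]; simp
      rw [this]
      exact h10
    rw [ENNReal.ofReal_le_ofReal_iff zero_le_one, Real.exp_neg] at h11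
    have hE := Real.exp_pos (2 * t^2 / ε^2)
    have h12 : (S.card : ℝ) * ((Real.exp (2 * t^2 / ε^2))⁻¹ * (1/2)) = (S.card : ℝ) / (2 * Real.exp (2 * t^2 / ε^2)) := by
      field_simp
    rw [h12, div_le_one (by positivity)] at h11
    exact h11
  let P : Set ℕ := {n | ∃ S, pack S ∧ S.card = n}
  have hPne : P.Nonempty := ⟨0, ∅, ⟨fun s hs => absurd hs (Finset.notMem_empty s),
    fun s hs => absurd hs (Finset.notMem_empty s)⟩, rfl⟩
  have hPb : BddAbove P := by
    refine ⟨⌈2 * Real.exp (2 * t^2 / ε^2)⌉₊, ?_⟩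
    rintro n ⟨S, hS, rfl⟩
    have := (hcard S hS).trans (Nat.le_ceil _)
    exact_mod_cast this
  obtain ⟨S, hS, hSc⟩ := Nat.sSup_mem hPne hPb
  refine ⟨S, hcard S hS, fun a ha => ?_⟩
  by_contra hcon
  push Not at hcon
  have haS : a ∉ S := by
    intro h
    have := hcon a h
    rw [sub_self, hnu0] at this
    linarith
  have hins : pack (insert a S) := by
    constructor
    · intro s hs
      rcases Finset.mem_insert.mp hs with rfl | hs
      · exact ha
      · exact hS.1 s hs
    · intro s hs s' hs' hne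
      rcases Finset.mem_insert.mp hs with e | hs1
      · rcases Finset.mem_insert.mp hs' with e' | hs1'
        · exact absurd (e.trans e'.symm) hne
        · rw [e]; exact hcon s' hs1'
      · rcases Finset.mem_insert.mp hs' with e' | hs1'
        · rw [e', ← neg_sub, hneg]; exact hcon s hs1
        · exact hS.2 s hs1 s' hs1' hne
  have h13 : (insert a S).card ≤ sSup P := le_csSup hPb ⟨_, hins, rfl⟩
  rw [Finset.card_insert_of_notMem haS, hSc] at h13
  omega

end Sol_EX_dual_sudakov

alias dual_sudakov := Sol_EX_dual_sudakov.dual_sudakov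

end HypVol
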