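import Pool.Agent.EntX.Defs
import Pool.Agent.HypVol.L_gam_prob
import Pool.Agent.HypVol.L_gam_mgf
import Pool.Agent.HypVol.L_card_layer
open MeasureTheory Real ProbabilityTheory
open scoped ENNReal BigOperators

namespace HypVol
namespace Sol_EX_gauss_sup

noncomputable def vl_b {d n : ℕ} {Y : Type} (g : Y → Fin d → ℝ) (β : (layer d n) × Fin 2)
    (x : Y × Fin 2) : ℝ :=
  if x.2 = 0 then (if β.2 = 0 then Real.cos (∑ j, (β.1.1 j : ℝ) * g x.1 j)
    else -Real.sin (∑ j, (β.1.1 j : ℝ) * g x.1 j))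
  else (if β.2 = 0 then Real.sin (∑ j, (β.1.1 j : ℝ) * g x.1 j)
    else Real.cos (∑ j, (β.1.1 j : ℝ) * g x.1 j))

theorem vl_b_sq {d n : ℕ} {Y : Type} (g : Y → Fin d → ℝ) (x : Y × Fin 2) :
    ∑ β : (layer d n) × Fin 2, vl_b g β x ^ 2 ≤ ((layer d n).card : ℝ) := by
  rw [Fintype.sum_prod_type]
  have h : ∀ k : layer d n, ∑ e : Fin 2, vl_b g (k, e) x ^ 2 = 1 := by
    intro k
    rw [Fin.sum_univ_two]
    unfold vl_b
    by_cases hx : x.2 = 0
    · simp [hx]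
    · simp [hx]
  rw [Finset.sum_congr rfl (fun k _ => h k), Finset.sum_const, Finset.card_univ, Fintype.card_coe,
    nsmul_eq_mul, mul_one]

theorem vl_exp (t : ℝ) : Complex.exp (Complex.I * (t : ℂ)) =
    (Real.cos t : ℂ) + (Real.sin t : ℂ) * Complex.I := by
  rw [mul_comm, Complex.exp_mul_I, Complex.ofReal_cos, Complex.ofReal_sin]

theorem vl_term_re (a0 a1 A B : ℝ) :
    (((a0 : ℂ) + (a1 : ℂ) * Complex.I) * ((A : ℂ) + (B : ℂ) * Complex.I)).re = a0 * A - a1 * B := by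
  simp

theorem vl_term_im (a0 a1 A B : ℝ) :
    (((a0 : ℂ) + (a1 : ℂ) * Complex.I) * ((A : ℂ) + (B : ℂ) * Complex.I)).im = a0 * B + a1 * A := by
  simp

theorem vl_re {d n : ℕ} {Y : Type} (g : Y → Fin d → ℝ) (a : (layer d n) × Fin 2 → ℝ) (y : Y) :
    (poly a (g y)).re = ∑ β, a β * vl_b g β (y, 0) := by
  rw [Fintype.sum_prod_type]
  unfold poly
  rw [Complex.re_sum]
  refine Finset.sum_congr rfl fun k _ => ?_
  rw [Fin.sum_univ_two, vl_exp, vl_term_re]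
  simp [vl_b]
  ring

theorem vl_im {d n : ℕ} {Y : Type} (g : Y → Fin d → ℝ) (a : (layer d n) × Fin 2 → ℝ) (y : Y) :
    (poly a (g y)).im = ∑ β, a β * vl_b g β (y, 1) := by
  rw [Fintype.sum_prod_type]
  unfold poly
  rw [Complex.im_sum]
  refine Finset.sum_congr rfl fun k _ => ?_
  rw [Fin.sum_univ_two, vl_exp, vl_term_im]
  simp [vl_b]

theorem vl_coord (Q : ℕ) (hQ : 0 < Q) (t : ℝ) : ∃ (q : Fin Q) (z : ℤ) (δ : ℝ),
    t = 2 * π * ((q : ℕ) : ℝ) / Q + 2 * π * z + δ ∧ |δ| ≤ 2 * π / Q := by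
  have hpi : (0 : ℝ) < 2 * π := by positivity
  have hQ' : (0 : ℝ) < Q := by exact_mod_cast hQ
  obtain ⟨f, hf⟩ : ∃ f, f = Int.fract (t / (2 * π)) := ⟨_, rfl⟩
  have hf0 : 0 ≤ f := by rw [hf]; exact Int.fract_nonneg _
  have hf1 : f < 1 := by rw [hf]; exact Int.fract_lt_one _
  have hfl : (⌊t / (2 * π)⌋ : ℝ) + f = t / (2 * π) := by rw [hf]; exact Int.floor_add_fract _
  have ht : t = 2 * π * ⌊t / (2 * π)⌋ + 2 * π * f := by
    have h1 : t = 2 * π * (t / (2 * π)) := by field_simp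
    calc t = 2 * π * (t / (2 * π)) := h1
      _ = 2 * π * ((⌊t / (2 * π)⌋ : ℝ) + f) := by rw [hfl]
      _ = _ := by ring
  have hq : ⌊(Q : ℝ) * f⌋₊ < Q := by
    rw [Nat.floor_lt (by positivity)]
    nlinarith
  have h1 : ((⌊(Q : ℝ) * f⌋₊ : ℕ) : ℝ) ≤ Q * f := Nat.floor_le (by positivity)
  have h2 : (Q : ℝ) * f < ((⌊(Q : ℝ) * f⌋₊ : ℕ) : ℝ) + 1 := Nat.lt_floor_add_one _
  refine ⟨⟨⌊(Q : ℝ) * f⌋₊, hq⟩, ⌊t / (2 * π)⌋,
    2 * π * (((Q : ℝ) * f - ((⌊(Q : ℝ) * f⌋₊ : ℕ) : ℝ)) / Q), ?_, ?_⟩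
  · have e : 2 * π * ((⌊(Q : ℝ) * f⌋₊ : ℕ) : ℝ) / Q + 2 * π * (⌊t / (2 * π)⌋ : ℝ) +
        2 * π * (((Q : ℝ) * f - ((⌊(Q : ℝ) * f⌋₊ : ℕ) : ℝ)) / Q) =
        2 * π * ⌊t / (2 * π)⌋ + 2 * π * f := by
      field_simp
      ring
    show t = 2 * π * ((⌊(Q : ℝ) * f⌋₊ : ℕ) : ℝ) / Q + 2 * π * (⌊t / (2 * π)⌋ : ℝ) +
        2 * π * (((Q : ℝ) * f - ((⌊(Q : ℝ) * f⌋₊ : ℕ) : ℝ)) / Q)
    rw [e]
    exact ht
  · have h3 : (((Q : ℝ) * f - ((⌊(Q : ℝ) * f⌋₊ : ℕ) : ℝ)) / Q) ≤ 1 / Q :=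
      div_le_div_of_nonneg_right (by linarith) hQ'.le
    have h4 : 0 ≤ (((Q : ℝ) * f - ((⌊(Q : ℝ) * f⌋₊ : ℕ) : ℝ)) / Q) :=
      div_nonneg (by linarith) hQ'.le
    rw [abs_of_nonneg (by positivity)]
    calc 2 * π * (((Q : ℝ) * f - ((⌊(Q : ℝ) * f⌋₊ : ℕ) : ℝ)) / Q) ≤ 2 * π * (1 / Q) :=
          mul_le_mul_of_nonneg_left h3 hpi.le
      _ = 2 * π / Q := by ring

theorem vl_mem {d n : ℕ} (k : layer d n) (j : Fin d) : |((k.1 j : ℤ) : ℝ)| ≤ 2 ^ n := by
  have hk := k.2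
  simp only [layer, Finset.mem_filter] at hk
  have h1 := hk.1
  have h2 := Finset.mem_Ioo.1 (Fintype.mem_piFinset.1 h1 j)
  have h3 : ((-(2:ℤ)^n : ℤ) : ℝ) < ((k.1 j : ℤ) : ℝ) := by exact_mod_cast h2.1
  have h4 : ((k.1 j : ℤ) : ℝ) < (((2:ℤ)^n : ℤ) : ℝ) := by exact_mod_cast h2.2
  push_cast at h3 h4
  rw [abs_le]
  exact ⟨h3.le, h4.le⟩

theorem vl_close {d n : ℕ} (Q : ℕ) (hQ : 0 < Q) (a : (layer d n) × Fin 2 → ℝ)
    (ha : ∀ i, |a i| ≤ 1)
    (hsm : ((layer d n).card : ℝ) * (2 * ((d : ℝ) * (2 ^ n * (2 * π / Q)))) ≤ 1)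
    (y : Fin d → ℝ) :
    ∃ x : Fin d → Fin Q, ‖poly a y‖ ≤
      ‖poly a (fun j => 2 * π * ((x j : ℕ) : ℝ) / Q)‖ + 1 := by
  choose q z δ h1 h2 using fun j => vl_coord Q hQ (y j)
  refine ⟨q, ?_⟩
  have key : ‖poly a y - poly a (fun j => 2 * π * ((q j : ℕ) : ℝ) / Q)‖ ≤ 1 := by
    unfold poly
    rw [← Finset.sum_sub_distrib]
    refine (norm_sum_le _ _).trans ?_
    refine le_trans ?_ hsm
    have hterm : ∀ k ∈ (Finset.univ : Finset (layer d n)),
        ‖((a (k, 0) : ℂ) + (a (k, 1) : ℂ) * Complex.I) *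
          Complex.exp (Complex.I * ((∑ j, (k.1 j : ℝ) * y j : ℝ) : ℂ)) -
        ((a (k, 0) : ℂ) + (a (k, 1) : ℂ) * Complex.I) *
          Complex.exp (Complex.I * ((∑ j, (k.1 j : ℝ) * (2 * π * ((q j : ℕ) : ℝ) / Q) : ℝ) : ℂ))‖ ≤
        2 * ((d : ℝ) * (2 ^ n * (2 * π / Q))) := by
      intro k _
      rw [← mul_sub, norm_mul]
      have e1 : ‖(a (k, 0) : ℂ) + (a (k, 1) : ℂ) * Complex.I‖ ≤ 2 := by
        refine (norm_add_le _ _).trans ?_
        rw [norm_mul, Complex.norm_I, mul_one, Complex.norm_real, Complex.norm_real,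
          Real.norm_eq_abs, Real.norm_eq_abs]
        linarith [ha (k, 0), ha (k, 1)]
      have e2 : (∑ j, (k.1 j : ℝ) * y j : ℝ) =
          (∑ j, (k.1 j : ℝ) * (2 * π * ((q j : ℕ) : ℝ) / Q)) +
          ((∑ j, k.1 j * z j : ℤ) : ℝ) * (2 * π) + ∑ j, (k.1 j : ℝ) * δ j := by
        push_cast
        rw [Finset.sum_mul, ← Finset.sum_add_distrib, ← Finset.sum_add_distrib]
        refine Finset.sum_congr rfl fun j _ => ?_
        conv_lhs => rw [h1 j]
        ring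
      have e3 : Complex.exp (Complex.I * ((∑ j, (k.1 j : ℝ) * y j : ℝ) : ℂ)) =
          Complex.exp (Complex.I * ((∑ j, (k.1 j : ℝ) * (2 * π * ((q j : ℕ) : ℝ) / Q) : ℝ) : ℂ)) *
          Complex.exp (Complex.I * ((∑ j, (k.1 j : ℝ) * δ j : ℝ) : ℂ)) := by
        rw [e2, Complex.ofReal_add, Complex.ofReal_add, mul_add, mul_add, Complex.exp_add,
          Complex.exp_add]
        have e4 : Complex.exp (Complex.I * ((((∑ j, k.1 j * z j : ℤ) : ℝ) * (2 * π) : ℝ) : ℂ)) = 1 := by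
          rw [← Complex.exp_int_mul_two_pi_mul_I (∑ j, k.1 j * z j)]
          congr 1
          push_cast
          ring
        rw [e4, mul_one]
      have e5 : ‖Complex.exp (Complex.I * ((∑ j, (k.1 j : ℝ) * y j : ℝ) : ℂ)) -
          Complex.exp (Complex.I * ((∑ j, (k.1 j : ℝ) * (2 * π * ((q j : ℕ) : ℝ) / Q) : ℝ) : ℂ))‖ ≤
          (d : ℝ) * (2 ^ n * (2 * π / Q)) := by
        rw [e3]
        have e6 : ∀ A B : ℂ, A * B - A = A * (B - 1) := fun A B => by ring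
        rw [e6, norm_mul]
        have e7 : ‖Complex.exp (Complex.I *
            ((∑ j, (k.1 j : ℝ) * (2 * π * ((q j : ℕ) : ℝ) / Q) : ℝ) : ℂ))‖ = 1 := by
          rw [mul_comm]
          exact Complex.norm_exp_ofReal_mul_I _
        rw [e7, one_mul]
        refine (Real.norm_exp_I_mul_ofReal_sub_one_le).trans ?_
        rw [Real.norm_eq_abs]
        refine (Finset.abs_sum_le_sum_abs _ _).trans ?_
        have e8 : ∀ j ∈ (Finset.univ : Finset (Fin d)), |(k.1 j : ℝ) * δ j| ≤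
            2 ^ n * (2 * π / Q) := by
          intro j _
          rw [abs_mul]
          exact mul_le_mul (vl_mem k j) (h2 j) (abs_nonneg _) (by positivity)
        refine (Finset.sum_le_sum e8).trans ?_
        rw [Finset.sum_const, Finset.card_univ, Fintype.card_fin, nsmul_eq_mul]
      exact mul_le_mul e1 e5 (norm_nonneg _) (by norm_num)
    refine (Finset.sum_le_sum hterm).trans ?_
    rw [Finset.sum_const, Finset.card_univ, Fintype.card_coe, nsmul_eq_mul]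
  have := norm_sub_norm_le (poly a y) (poly a (fun j => 2 * π * ((q j : ℕ) : ℝ) / Q))
  linarith

theorem vl_card (d n : ℕ) : ((layer d n).card : ℝ) ≤ 2 ^ ((n + 1) * d) := by
  classical
  have h1 : (layer d n).card ≤ (2 ^ (n + 1)) ^ d := by
    unfold layer
    refine (Finset.card_filter_le _ _).trans ?_
    rw [Fintype.card_piFinset, Finset.prod_const, Finset.card_univ, Fintype.card_fin, Int.card_Ioo]
    refine Nat.pow_le_pow_left ?_ d
    have h2 : ((2:ℤ)^n - -(2:ℤ)^n - 1) ≤ ((2 ^ (n + 1) : ℕ) : ℤ) := by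
      push_cast
      rw [pow_succ]
      linarith
    exact Int.toNat_le.2 h2
  rw [← pow_mul] at h1
  exact_mod_cast h1

theorem vl_small (d n : ℕ) :
    ((layer d n).card : ℝ) * (2 * ((d : ℝ) * (2 ^ n *
      (2 * π / ((2 ^ ((n + 1) * d + d + n + 4) : ℕ) : ℝ))))) ≤ 1 := by
  have h1 := vl_card d n
  have h2 : (d : ℝ) ≤ 2 ^ d := by exact_mod_cast (Nat.lt_two_pow_self (n := d)).le
  have h3 : 2 * π ≤ 8 := by linarith [Real.pi_le_four]
  have hpi := Real.pi_pos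
  have hP : (0 : ℝ) < ((2 ^ ((n + 1) * d + d + n + 4) : ℕ) : ℝ) := by positivity
  have e : ((layer d n).card : ℝ) * (2 * ((d : ℝ) * (2 ^ n *
      (2 * π / ((2 ^ ((n + 1) * d + d + n + 4) : ℕ) : ℝ))))) =
      ((layer d n).card : ℝ) * (2 * ((d : ℝ) * (2 ^ n * (2 * π)))) /
      ((2 ^ ((n + 1) * d + d + n + 4) : ℕ) : ℝ) := by ring
  rw [e, div_le_one hP]
  calc ((layer d n).card : ℝ) * (2 * ((d : ℝ) * (2 ^ n * (2 * π)))) ≤
      2 ^ ((n + 1) * d) * (2 * (2 ^ d * (2 ^ n * 8))) := by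
        refine mul_le_mul h1 ?_ (by positivity) (by positivity)
        refine mul_le_mul_of_nonneg_left ?_ (by norm_num)
        refine mul_le_mul h2 ?_ (by positivity) (by positivity)
        exact mul_le_mul_of_nonneg_left h3 (by positivity)
    _ = ((2 ^ ((n + 1) * d + d + n + 4) : ℕ) : ℝ) := by
        push_cast
        rw [pow_add, pow_add, pow_add]
        norm_num
        ring

theorem vl_smul {d n : ℕ} (c : ℝ) (a : (layer d n) × Fin 2 → ℝ) (x : Fin d → ℝ) :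
    poly (c • a) x = (c : ℂ) * poly a x := by
  unfold poly
  rw [Finset.mul_sum]
  refine Finset.sum_congr rfl fun k _ => ?_
  simp only [Pi.smul_apply, smul_eq_mul, Complex.ofReal_mul]
  ring

theorem chern1_406 {ι : Type} [Fintype ι] (c : ι → ℝ) (N R : ℝ) (hN : 0 < N) (hR : 0 < R)
    (hc : ∑ i, c i ^ 2 ≤ N) :
    (gam ι 1).real {u | R ≤ ∑ i, u i * c i} ≤ Real.exp (-(R ^ 2 / (2 * N))) := by
  have := gam_prob ι 1
  obtain ⟨l, hl⟩ : ∃ l : ℝ, l = R / N := ⟨_, rfl⟩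
  have hl0 : 0 < l := by rw [hl]; positivity
  obtain ⟨hi, he⟩ := gam_mgf 1 (fun i => l * c i)
  have hsum : ∀ u : ι → ℝ, ∑ i, u i * (l * c i) = l * ∑ i, u i * c i := by
    intro u
    rw [Finset.mul_sum]
    exact Finset.sum_congr rfl fun i _ => by ring
  have h1 := mul_meas_ge_le_integral_of_nonneg (μ := gam ι 1)
    (f := fun u => Real.exp (∑ i, u i * (l * c i)))
    (Filter.Eventually.of_forall fun u => (Real.exp_pos _).le) hi (Real.exp (l * R))
  rw [he] at h1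
  have hset : {u : ι → ℝ | R ≤ ∑ i, u i * c i} ⊆
      {u | Real.exp (l * R) ≤ Real.exp (∑ i, u i * (l * c i))} := by
    intro u hu
    show Real.exp (l * R) ≤ Real.exp (∑ i, u i * (l * c i))
    rw [hsum]
    exact Real.exp_le_exp.2 (mul_le_mul_of_nonneg_left hu hl0.le)
  have h2 : (gam ι 1).real {u | R ≤ ∑ i, u i * c i} ≤
      (gam ι 1).real {u | Real.exp (l * R) ≤ Real.exp (∑ i, u i * (l * c i))} :=
    measureReal_mono hset
  have hsq : ∑ i, (l * c i) ^ 2 = l ^ 2 * ∑ i, c i ^ 2 := by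
    rw [Finset.mul_sum]
    exact Finset.sum_congr rfl fun i _ => by ring
  have h3 : Real.exp (1 ^ 2 * (∑ i, (l * c i) ^ 2) / 2) ≤ Real.exp (l ^ 2 * N / 2) := by
    apply Real.exp_le_exp.2
    rw [hsq]
    have := mul_le_mul_of_nonneg_left hc (sq_nonneg l)
    linarith
  have h4 : Real.exp (l ^ 2 * N / 2) = Real.exp (l * R) * Real.exp (-(R ^ 2 / (2 * N))) := by
    rw [← Real.exp_add]
    congr 1
    rw [hl]
    field_simp
    ring
  have h5 : Real.exp (l * R) * (gam ι 1).real {u | R ≤ ∑ i, u i * c i} ≤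
      Real.exp (l * R) * Real.exp (-(R ^ 2 / (2 * N))) := by
    rw [← h4]
    refine le_trans (mul_le_mul_of_nonneg_left h2 (Real.exp_pos _).le) (h1.trans h3)
  exact le_of_mul_le_mul_left h5 (Real.exp_pos _)

theorem chern2_406 {ι : Type} [Fintype ι] (c : ι → ℝ) (N R : ℝ) (hN : 0 < N) (hR : 0 < R)
    (hc : ∑ i, c i ^ 2 ≤ N) :
    (gam ι 1).real {u | R < |∑ i, u i * c i|} ≤ 2 * Real.exp (-(R ^ 2 / (2 * N))) := by
  have := gam_prob ι 1
  have h1 := chern1_406 c N R hN hR hc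
  have h2 := chern1_406 (fun i => -c i) N R hN hR (by simpa using hc)
  have hset : {u : ι → ℝ | R < |∑ i, u i * c i|} ⊆
      {u | R ≤ ∑ i, u i * c i} ∪ {u | R ≤ ∑ i, u i * (-c i)} := by
    intro u hu
    have hu' : R < |∑ i, u i * c i| := hu
    have hneg : ∑ i, u i * (-c i) = -∑ i, u i * c i := by
      rw [← Finset.sum_neg_distrib]
      exact Finset.sum_congr rfl fun i _ => by ring
    rcases lt_abs.1 hu' with h | h
    · left; exact h.le
    · right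
      show R ≤ ∑ i, u i * (-c i)
      rw [hneg]; exact h.le
  calc (gam ι 1).real {u | R < |∑ i, u i * c i|} ≤
      (gam ι 1).real ({u | R ≤ ∑ i, u i * c i} ∪ {u | R ≤ ∑ i, u i * (-c i)}) :=
        measureReal_mono hset
    _ ≤ _ := (measureReal_union_le _ _).trans (by linarith)

theorem union_406 {ι J : Type} [Fintype ι] [Fintype J] [Nonempty J] (cf : J → ι → ℝ) (N : ℝ)
    (hN : 0 < N) (hc : ∀ j, ∑ i, cf j i ^ 2 ≤ N) :
    (1/2 : ℝ≥0∞) ≤ gam ι 1 {u | ∀ j, |∑ i, u i * cf j i| ≤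
      Real.sqrt (2 * N * Real.log (4 * (Fintype.card J : ℝ)))} := by
  have := gam_prob ι 1
  have hJ : (1 : ℝ) ≤ (Fintype.card J : ℝ) := by exact_mod_cast Fintype.card_pos
  have hlog : 0 < Real.log (4 * (Fintype.card J : ℝ)) := Real.log_pos (by linarith)
  obtain ⟨R, hR⟩ : ∃ R : ℝ, R = Real.sqrt (2 * N * Real.log (4 * (Fintype.card J : ℝ))) := ⟨_, rfl⟩
  have hR0 : 0 < R := by rw [hR]; positivity
  have hR2 : R ^ 2 = 2 * N * Real.log (4 * (Fintype.card J : ℝ)) := by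
    rw [hR]; exact Real.sq_sqrt (by positivity)
  rw [← hR]
  have hexp : Real.exp (-(R ^ 2 / (2 * N))) = (4 * (Fintype.card J : ℝ))⁻¹ := by
    rw [hR2, mul_div_cancel_left₀ _ (by positivity), Real.exp_neg, Real.exp_log (by positivity)]
  have hmeas : MeasurableSet {u : ι → ℝ | ∀ j, |∑ i, u i * cf j i| ≤ R} := by
    have : IsClosed {u : ι → ℝ | ∀ j, |∑ i, u i * cf j i| ≤ R} := by
      simp only [Set.ofPred_forall]
      exact isClosed_iInter fun j => isClosed_le (by fun_prop) continuous_const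
    exact this.measurableSet
  have hcompl : {u : ι → ℝ | ∀ j, |∑ i, u i * cf j i| ≤ R}ᶜ ⊆
      ⋃ j, {u | R < |∑ i, u i * cf j i|} := by
    intro u hu
    rw [Set.mem_compl_iff] at hu
    have : ∃ j, R < |∑ i, u i * cf j i| := by
      by_contra h
      push Not at h
      exact hu h
    obtain ⟨j, hj⟩ := this
    exact Set.mem_iUnion.2 ⟨j, hj⟩
  have h1 : (gam ι 1).real ({u : ι → ℝ | ∀ j, |∑ i, u i * cf j i| ≤ R}ᶜ) ≤ 1 / 2 := by
    calc (gam ι 1).real ({u : ι → ℝ | ∀ j, |∑ i, u i * cf j i| ≤ R}ᶜ) ≤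
        (gam ι 1).real (⋃ j, {u | R < |∑ i, u i * cf j i|}) := measureReal_mono hcompl
      _ ≤ ∑ j, (gam ι 1).real {u | R < |∑ i, u i * cf j i|} := measureReal_iUnion_fintype_le _
      _ ≤ ∑ j : J, 2 * Real.exp (-(R ^ 2 / (2 * N))) :=
          Finset.sum_le_sum fun j _ => chern2_406 (cf j) N R hN hR0 (hc j)
      _ = 1 / 2 := by
          rw [Finset.sum_const, Finset.card_univ, nsmul_eq_mul, hexp]
          field_simp
          norm_num
  have h2 : (gam ι 1).real {u : ι → ℝ | ∀ j, |∑ i, u i * cf j i| ≤ R} ≥ 1 / 2 := by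
    have := probReal_compl_eq_one_sub (μ := gam ι 1) hmeas
    linarith
  have h3 : gam ι 1 {u : ι → ℝ | ∀ j, |∑ i, u i * cf j i| ≤ R} =
      ENNReal.ofReal ((gam ι 1).real {u : ι → ℝ | ∀ j, |∑ i, u i * cf j i| ≤ R}) := by
    rw [ofReal_measureReal]
  rw [h3]
  have h4 : (1/2 : ℝ≥0∞) = ENNReal.ofReal (1/2) := by
    rw [ENNReal.ofReal_div_of_pos (by norm_num)]
    simp
  rw [h4]
  exact ENNReal.ofReal_le_ofReal h2

theorem log_406 (d n : ℕ) :
    Real.log (4 * (Fintype.card (((Fin d → Fin (2 ^ ((n + 1) * d + d + n + 4))) × Fin 2) ⊕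
      ((layer d n) × Fin 2)) : ℝ)) ≤ ((2 * (d : ℝ) + 5) * d + 4) * ((n : ℝ) + 1) := by
  obtain ⟨m, hm⟩ : ∃ m : ℕ, m = (n + 1) * d + d + n + 4 := ⟨_, rfl⟩
  rw [← hm]
  have hl : (layer d n).card ≤ 2 ^ ((n + 1) * d) := by
    exact_mod_cast vl_card d n
  have hmd : (n + 1) * d ≤ m * d := Nat.mul_le_mul_right _ (by rw [hm]; omega)
  have hl2 : (layer d n).card ≤ 2 ^ (m * d) :=
    hl.trans (Nat.pow_le_pow_right (by norm_num) hmd)
  have hcard : Fintype.card (((Fin d → Fin (2 ^ m)) × Fin 2) ⊕ ((layer d n) × Fin 2)) ≤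
      4 * 2 ^ (m * d) := by
    rw [Fintype.card_sum, Fintype.card_prod, Fintype.card_prod, Fintype.card_fun, Fintype.card_fin,
      Fintype.card_fin, Fintype.card_fin, Fintype.card_coe, ← pow_mul]
    omega
  have hpos : 0 < Fintype.card (((Fin d → Fin (2 ^ m)) × Fin 2) ⊕ ((layer d n) × Fin 2)) := by
    have : NeZero (2 ^ m) := ⟨by positivity⟩
    exact Fintype.card_pos
  have h1 : 4 * (Fintype.card (((Fin d → Fin (2 ^ m)) × Fin 2) ⊕ ((layer d n) × Fin 2)) : ℝ) ≤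
      2 ^ (m * d + 4) := by
    have : 4 * Fintype.card (((Fin d → Fin (2 ^ m)) × Fin 2) ⊕ ((layer d n) × Fin 2)) ≤
        2 ^ (m * d + 4) := by
      rw [pow_add]; omega
    exact_mod_cast this
  have h2 : Real.log (4 * (Fintype.card (((Fin d → Fin (2 ^ m)) × Fin 2) ⊕
      ((layer d n) × Fin 2)) : ℝ)) ≤ Real.log (2 ^ (m * d + 4)) := by
    apply Real.log_le_log _ h1
    have : (0 : ℝ) < (Fintype.card (((Fin d → Fin (2 ^ m)) × Fin 2) ⊕
      ((layer d n) × Fin 2)) : ℝ) := by exact_mod_cast hpos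
    linarith
  refine h2.trans ?_
  rw [Real.log_pow]
  have hlog : Real.log 2 ≤ 1 := by linarith [Real.log_two_lt_d9]
  have hlog0 : 0 ≤ Real.log 2 := Real.log_nonneg (by norm_num)
  have hn0 : (0 : ℝ) ≤ n := Nat.cast_nonneg n
  have hd0 : (0 : ℝ) ≤ d := Nat.cast_nonneg d
  have hmr : (m : ℝ) ≤ (2 * (d : ℝ) + 5) * ((n : ℝ) + 1) := by
    rw [hm]; push_cast; nlinarith [mul_nonneg hn0 hd0]
  have h3 : (((m * d + 4 : ℕ) : ℝ)) ≤ ((2 * (d : ℝ) + 5) * d + 4) * ((n : ℝ) + 1) := by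
    push_cast
    have := mul_le_mul_of_nonneg_right hmr hd0
    nlinarith
  calc (((m * d + 4 : ℕ) : ℝ)) * Real.log 2 ≤ (((m * d + 4 : ℕ) : ℝ)) * 1 :=
        mul_le_mul_of_nonneg_left hlog (Nat.cast_nonneg _)
    _ ≤ _ := by rw [mul_one]; exact h3

theorem gauss_sup (d : ℕ) : ∃ C : ℝ, 0 < C ∧ ∀ n : ℕ,
    (1/2 : ℝ≥0∞) ≤ gam ((layer d n) × Fin 2) 1
      {u | ∀ x, ‖poly u x‖ ≤ C * Real.sqrt ((layer d n).card * ((n:ℝ) + 1))} := by
  classical
  obtain ⟨K, hK⟩ : ∃ K : ℝ, K = (2 * (d : ℝ) + 5) * d + 4 := ⟨_, rfl⟩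
  have hK0 : 0 < K := by rw [hK]; positivity
  refine ⟨3 * Real.sqrt (2 * K), by positivity, fun n => ?_⟩
  have hprob := gam_prob ((layer d n) × Fin 2) 1
  rcases Nat.eq_zero_or_pos (layer d n).card with h0 | h0
  · have hempty : layer d n = ∅ := Finset.card_eq_zero.1 h0
    have huniv : {u : (layer d n) × Fin 2 → ℝ | ∀ x, ‖poly u x‖ ≤
        3 * Real.sqrt (2 * K) * Real.sqrt ((layer d n).card * ((n:ℝ) + 1))} = Set.univ := by
      ext u
      simp only [Set.mem_univ, iff_true]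
      intro x
      have : IsEmpty (layer d n) := by
        rw [hempty]; infer_instance
      have hz : poly u x = 0 := by
        unfold poly
        exact Finset.sum_of_isEmpty _
      rw [hz, norm_zero]
      positivity
    rw [huniv, measure_univ]
    norm_num
  · have hN : (0 : ℝ) < ((layer d n).card : ℝ) := by exact_mod_cast h0
    obtain ⟨m, hm⟩ : ∃ m : ℕ, m = (n + 1) * d + d + n + 4 := ⟨_, rfl⟩
    have hQ : 0 < 2 ^ m := by positivity
    have : NeZero (2 ^ m) := ⟨hQ.ne'⟩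
    let g : (Fin d → Fin (2 ^ m)) → Fin d → ℝ := fun x j =>
      2 * π * ((x j : ℕ) : ℝ) / ((2 ^ m : ℕ) : ℝ)
    let cf : (((Fin d → Fin (2 ^ m)) × Fin 2) ⊕ ((layer d n) × Fin 2)) →
        ((layer d n) × Fin 2) → ℝ := fun j β =>
      Sum.elim (fun y => vl_b g β y) (fun β' => if β = β' then 1 else 0) j
    have hcf : ∀ j, ∑ β, cf j β ^ 2 ≤ ((layer d n).card : ℝ) := by
      rintro (y | β')
      · exact vl_b_sq g y
      · have : ∑ β, cf (Sum.inr β') β ^ 2 = 1 := by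
          simp [cf]
        rw [this]
        exact_mod_cast h0
    have hu := union_406 cf ((layer d n).card : ℝ) hN hcf
    obtain ⟨R, hR⟩ : ∃ R : ℝ, R = Real.sqrt (2 * ((layer d n).card : ℝ) *
      Real.log (4 * (Fintype.card (((Fin d → Fin (2 ^ m)) × Fin 2) ⊕
        ((layer d n) × Fin 2)) : ℝ))) := ⟨_, rfl⟩
    rw [← hR] at hu
    have hlog := log_406 d n
    rw [← hm, ← hK] at hlog
    have hJ : (1 : ℝ) ≤ (Fintype.card (((Fin d → Fin (2 ^ m)) × Fin 2) ⊕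
        ((layer d n) × Fin 2)) : ℝ) := by exact_mod_cast Fintype.card_pos
    have hlog0 : 0 < Real.log (4 * (Fintype.card (((Fin d → Fin (2 ^ m)) × Fin 2) ⊕
        ((layer d n) × Fin 2)) : ℝ)) := Real.log_pos (by linarith)
    have hR0 : 0 < R := by rw [hR]; positivity
    have hRle : R ≤ Real.sqrt (2 * K) * Real.sqrt ((layer d n).card * ((n:ℝ) + 1)) := by
      rw [hR, ← Real.sqrt_mul (by positivity)]
      apply Real.sqrt_le_sqrt
      calc 2 * ((layer d n).card : ℝ) * Real.log (4 * (Fintype.card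
            (((Fin d → Fin (2 ^ m)) × Fin 2) ⊕ ((layer d n) × Fin 2)) : ℝ)) ≤
            2 * ((layer d n).card : ℝ) * (K * ((n : ℝ) + 1)) :=
            mul_le_mul_of_nonneg_left hlog (by positivity)
        _ = 2 * K * ((layer d n).card * ((n:ℝ) + 1)) := by ring
    refine hu.trans (measure_mono ?_)
    intro u hu2 y
    have hu2' : ∀ j, |∑ i, u i * cf j i| ≤ R := hu2
    have hcoord : ∀ β, |u β| ≤ R := by
      intro β
      have := hu2' (Sum.inr β)
      simpa [cf] using this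
    have hsm := vl_small d n
    rw [← hm] at hsm
    have ha : ∀ i, |(R⁻¹ • u) i| ≤ 1 := by
      intro i
      rw [Pi.smul_apply, smul_eq_mul, abs_mul, abs_of_pos (inv_pos.2 hR0)]
      rw [inv_mul_le_one₀ hR0]
      exact hcoord i
    obtain ⟨x, hx⟩ := vl_close (2 ^ m) hQ (R⁻¹ • u) ha hsm y
    rw [vl_smul, vl_smul, norm_mul, norm_mul, Complex.norm_real, Real.norm_eq_abs,
      abs_of_pos (inv_pos.2 hR0)] at hx
    have hx2 : ‖poly u y‖ ≤ ‖poly u (g x)‖ + R := by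
      have := mul_le_mul_of_nonneg_left hx hR0.le
      rw [mul_add, mul_one, mul_inv_cancel_left₀ hR0.ne', mul_inv_cancel_left₀ hR0.ne'] at this
      exact this
    have h1 : ‖poly u (g x)‖ ≤ 2 * R := by
      refine (Complex.norm_le_abs_re_add_abs_im _).trans ?_
      rw [vl_re g u x, vl_im g u x]
      have e0 := hu2' (Sum.inl (x, 0))
      have e1 := hu2' (Sum.inl (x, 1))
      simp only [cf, Sum.elim_inl] at e0 e1
      linarith
    calc ‖poly u y‖ ≤ 3 * R := by linarith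
      _ ≤ 3 * (Real.sqrt (2 * K) * Real.sqrt ((layer d n).card * ((n:ℝ) + 1))) := by linarith
      _ = _ := by ring

end Sol_EX_gauss_sup

alias gauss_sup := Sol_EX_gauss_sup.gauss_sup

end HypVol
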