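import Pool.Agent.EntX.Defs
open MeasureTheory Real ProbabilityTheory
open scoped ENNReal BigOperators

namespace HypVol
namespace Sol_EX_vol_net

theorem vol_net {ι : Type} [Fintype ι] (nu : (ι → ℝ) → ℝ) (h1 : ∀ a b, nu (a + b) ≤ nu a + nu b)
    (h2 : ∀ (c : ℝ) a, nu (c • a) = |c| * nu a) (h3 : Continuous nu) (h4 : ∀ a, a ≠ 0 → 0 < nu a)
    (t : ℝ) (ht : 0 < t) (ht1 : t ≤ 1) :
    ∃ S : Finset (ι → ℝ), (S.card : ℝ) ≤ (1 + 2 / t)^(Fintype.card ι) ∧
      ∀ a : ι → ℝ, nu a ≤ 1 → ∃ s ∈ S, nu (a - s) ≤ t := by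
  classical
  have h0 : nu 0 = 0 := by
    have := h2 0 0
    simpa using this
  have hneg : ∀ a, nu (-a) = nu a := by
    intro a
    have := h2 (-1) a
    simpa using this
  have hnn : ∀ a, 0 ≤ nu a := by
    intro a
    rcases eq_or_ne a 0 with rfl | ha
    · exact h0.ge
    · exact (h4 a ha).le
  set N := Fintype.card ι with hN
  set W : Set (ι → ℝ) := {a | nu a < 1} with hW
  have hWo : IsOpen W := isOpen_lt h3 continuous_const
  have hWpos : 0 < (volume : Measure (ι → ℝ)) W :=
    hWo.measure_pos volume ⟨0, by simp [hW, h0]⟩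
  have hbd : ∃ R : ℝ, ∀ a : ι → ℝ, nu a ≤ 1 → ‖a‖ ≤ R := by
    rcases subsingleton_or_nontrivial (ι → ℝ) with hs | hs
    · exact ⟨0, fun a _ => by rw [Subsingleton.elim a 0]; simp⟩
    · have hc : IsCompact (Metric.sphere (0 : ι → ℝ) 1) := isCompact_sphere 0 1
      have hne : (Metric.sphere (0 : ι → ℝ) 1).Nonempty := NormedSpace.sphere_nonempty.mpr zero_le_one
      obtain ⟨m, hm, hmin⟩ := hc.exists_isMinOn hne h3.continuousOn
      have hm0 : m ≠ 0 := by
        intro hh
        rw [hh] at hm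
        simp at hm
      have hmp := h4 m hm0
      refine ⟨(nu m)⁻¹, fun a ha => ?_⟩
      rcases eq_or_ne a 0 with rfl | ha0
      · simp [hmp.le]
      have hna : 0 < ‖a‖ := norm_pos_iff.mpr ha0
      have h5 : ‖a‖⁻¹ • a ∈ Metric.sphere (0 : ι → ℝ) 1 := by
        simp [norm_smul, hna.ne']
      have h6 : nu m ≤ nu (‖a‖⁻¹ • a) := hmin h5
      rw [h2, abs_of_pos (inv_pos.mpr hna)] at h6
      have h7 : nu m * ‖a‖ ≤ 1 := by
        calc nu m * ‖a‖ ≤ (‖a‖⁻¹ * nu a) * ‖a‖ := mul_le_mul_of_nonneg_right h6 hna.le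
          _ = nu a := by field_simp
          _ ≤ 1 := ha
      rw [← one_div, le_div_iff₀ hmp]
      linarith
  have hWfin : (volume : Measure (ι → ℝ)) W < ⊤ := by
    obtain ⟨R, hR⟩ := hbd
    have : W ⊆ Metric.closedBall 0 R := by
      intro a ha
      rw [mem_closedBall_zero_iff]
      exact hR a (le_of_lt ha)
    exact lt_of_le_of_lt (measure_mono this) measure_closedBall_lt_top
  have hvol : ∀ (r : ℝ), 0 < r → ∀ s : ι → ℝ, (volume : Measure (ι → ℝ)) {x | nu (x - s) < r}
      = ENNReal.ofReal (r ^ N) * volume W := by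
    intro r hr s
    have e1 : {x : ι → ℝ | nu (x - s) < r} = (fun x => x + (-s)) ⁻¹' ((fun x => r⁻¹ • x) ⁻¹' W) := by
      ext x
      change nu (x - s) < r ↔ nu (r⁻¹ • (x + -s)) < 1
      rw [h2, abs_of_pos (inv_pos.mpr hr), ← sub_eq_add_neg, inv_mul_lt_iff₀ hr, mul_one]
    rw [e1, measure_preimage_add_right, Measure.addHaar_preimage_smul _ (inv_ne_zero hr.ne')]
    rw [Module.finrank_fintype_fun_eq_card, inv_pow, inv_inv, abs_of_pos (pow_pos hr _)]
  
  have hpack : ∀ F : Finset (ι → ℝ), (∀ s ∈ F, nu s ≤ 1) →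
      (∀ s ∈ F, ∀ s' ∈ F, s ≠ s' → t < nu (s - s')) → (F.card : ℝ) ≤ (1 + 2 / t) ^ N := by
    intro F hF1 hF2
    have ht2 : 0 < t / 2 := by linarith
    have hdis : (F : Set (ι → ℝ)).PairwiseDisjoint (fun s => {x : ι → ℝ | nu (x - s) < t / 2}) := by
      intro s hs s' hs' hne
      rw [Function.onFun, Set.disjoint_left]
      intro x hx hx'
      have hx1 : nu (x - s) < t / 2 := hx
      have hx2 : nu (x - s') < t / 2 := hx'
      have h5 := hF2 s hs s' hs' hne
      have h6 : nu (s - s') ≤ nu (x - s') + nu (x - s) := by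
        have : s - s' = (x - s') + (-(x - s)) := by abel
        rw [this]
        refine (h1 _ _).trans ?_
        rw [hneg]
      linarith
    have hmeas : ∀ s ∈ F, MeasurableSet {x : ι → ℝ | nu (x - s) < t / 2} := by
      intro s _
      exact (isOpen_lt (h3.comp (continuous_id.sub continuous_const)) continuous_const).measurableSet
    have h5 := measure_biUnion_finset (μ := (volume : Measure (ι → ℝ))) hdis hmeas
    have h6 : (⋃ s ∈ F, {x : ι → ℝ | nu (x - s) < t / 2}) ⊆ {x | nu (x - 0) < 1 + t / 2} := by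
      intro x hx
      simp only [Set.mem_iUnion] at hx
      obtain ⟨s, hs, hx⟩ := hx
      have hx1 : nu (x - s) < t / 2 := hx
      change nu (x - 0) < 1 + t / 2
      have h7 : nu x ≤ nu (x - s) + nu s := by
        have : x = (x - s) + s := by abel
        calc nu x = nu ((x - s) + s) := by rw [← this]
          _ ≤ _ := h1 _ _
      rw [sub_zero]
      linarith [hF1 s hs]
    have h7 := measure_mono (μ := (volume : Measure (ι → ℝ))) h6
    rw [h5, hvol _ (by linarith) 0] at h7
    simp only [hvol _ ht2] at h7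
    rw [Finset.sum_const, nsmul_eq_mul, ← mul_assoc] at h7
    rw [ENNReal.mul_le_mul_iff_left hWpos.ne' hWfin.ne] at h7
    have h8 : ((F.card : ℝ)) * (t / 2) ^ N ≤ (1 + t / 2) ^ N := by
      have h9 : ENNReal.ofReal ((F.card : ℝ) * (t / 2) ^ N) ≤ ENNReal.ofReal ((1 + t / 2) ^ N) := by
        rw [ENNReal.ofReal_mul (Nat.cast_nonneg _), ENNReal.ofReal_natCast]
        exact h7
      exact (ENNReal.ofReal_le_ofReal_iff (by positivity)).mp h9
    have h9 : (1 + 2 / t) ^ N = (1 + t / 2) ^ N / (t / 2) ^ N := by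
      rw [← div_pow]
      congr 1
      field_simp
      ring
    rw [h9, le_div_iff₀ (pow_pos ht2 _)]
    exact h8
  
  set P : Set ℕ := {m | ∃ F : Finset (ι → ℝ), (∀ s ∈ F, nu s ≤ 1) ∧
      (∀ s ∈ F, ∀ s' ∈ F, s ≠ s' → t < nu (s - s')) ∧ F.card = m} with hP
  have hPne : P.Nonempty := ⟨0, ∅, by simp, by simp, rfl⟩
  have hPbd : BddAbove P := by
    refine ⟨⌈(1 + 2 / t) ^ N⌉₊, ?_⟩
    rintro m ⟨F, hF1, hF2, rfl⟩
    have := (hpack F hF1 hF2).trans (Nat.le_ceil _)
    exact_mod_cast this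
  obtain ⟨F, hF1, hF2, hF3⟩ := Nat.sSup_mem hPne hPbd
  refine ⟨F, hpack F hF1 hF2, fun a ha => ?_⟩
  by_contra hcon
  push Not at hcon
  have haF : a ∉ F := by
    intro h
    have := hcon a h
    rw [sub_self, h0] at this
    linarith
  have h5 : (insert a F).card ∈ P := by
    refine ⟨insert a F, ?_, ?_, rfl⟩
    · intro s hs
      rcases Finset.mem_insert.mp hs with rfl | hs
      · exact ha
      · exact hF1 s hs
    · intro s hs s' hs' hne
      rcases Finset.mem_insert.mp hs with rfl | hs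
      · rcases Finset.mem_insert.mp hs' with rfl | hs'
        · exact absurd rfl hne
        · exact hcon s' hs'
      · rcases Finset.mem_insert.mp hs' with rfl | hs'
        · have h6 := hcon s ((Finset.mem_insert.mp ‹_›).resolve_left hne)
          rw [← hneg, neg_sub] at h6
          exact h6
        · exact hF2 s hs s' hs' hne
  have h6 := le_csSup hPbd h5
  rw [Finset.card_insert_of_notMem haF, hF3] at h6
  omega

end Sol_EX_vol_net

alias vol_net := Sol_EX_vol_net.vol_net

end HypVol
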