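import Pool.Agent.EntX.Defs
import Pool.Agent.EntX.L_vol_net
open MeasureTheory Real ProbabilityTheory
open scoped ENNReal BigOperators

namespace HypVol
namespace Sol_EX_net_combine

theorem net_combine {ι : Type} [Fintype ι] (nu : (ι → ℝ) → ℝ) (h1 : ∀ a b, nu (a + b) ≤ nu a + nu b)
    (h2 : ∀ (c : ℝ) a, nu (c • a) = |c| * nu a) (h3 : Continuous nu) (h4 : ∀ a, a ≠ 0 → 0 < nu a)
    (V : Set (ι → ℝ)) (ε t : ℝ) (hε : 0 < ε) (ht : 0 < t) (ht1 : t ≤ 1) (S : Finset (ι → ℝ))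
    (hS : ∀ a ∈ V, ∃ s ∈ S, nu (a - s) ≤ ε) :
    ∃ S' : Finset (ι → ℝ), (S'.card : ℝ) ≤ S.card * (1 + 2 / t)^(Fintype.card ι) ∧
      ∀ a ∈ V, ∃ s ∈ S', nu (a - s) ≤ t * ε := by
  classical
  obtain ⟨S0, hc, h0⟩ := vol_net nu h1 h2 h3 h4 t ht ht1
  refine ⟨Finset.image₂ (fun s s' => s + ε • s') S S0, ?_, ?_⟩
  · calc ((Finset.image₂ (fun s s' => s + ε • s') S S0).card : ℝ)
        ≤ ((S.card * S0.card : ℕ) : ℝ) := by exact_mod_cast Finset.card_image₂_le _ _ _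
      _ = S.card * S0.card := by push_cast; ring
      _ ≤ _ := mul_le_mul_of_nonneg_left hc (Nat.cast_nonneg _)
  · intro a ha
    obtain ⟨s, hs, hsa⟩ := hS a ha
    have hb : nu (ε⁻¹ • (a - s)) ≤ 1 := by
      rw [h2, abs_of_pos (inv_pos.2 hε), inv_mul_le_iff₀ hε, mul_one]
      exact hsa
    obtain ⟨s', hs', hsb⟩ := h0 _ hb
    refine ⟨s + ε • s', Finset.mem_image₂_of_mem hs hs', ?_⟩
    have e : a - (s + ε • s') = ε • (ε⁻¹ • (a - s) - s') := by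
      rw [smul_sub, smul_smul, mul_inv_cancel₀ hε.ne', one_smul]
      abel
    rw [e, h2, abs_of_pos hε, mul_comm t ε]
    exact mul_le_mul_of_nonneg_left hsb hε.le

end Sol_EX_net_combine

alias net_combine := Sol_EX_net_combine.net_combine

end HypVol
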