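import Pool.Agent.EntX.Defs
import Pool.Agent.HypVol.L_fc_poly
open MeasureTheory Real ProbabilityTheory
open scoped ENNReal BigOperators

namespace HypVol
namespace Sol_EX_supn_facts

theorem poly_add' {d n : ℕ} (a b : (layer d n) × Fin 2 → ℝ) (x : Fin d → ℝ) :
    poly (a + b) x = poly a x + poly b x := by
  unfold poly
  rw [← Finset.sum_add_distrib]
  refine Finset.sum_congr rfl (fun k _ => ?_)
  simp only [Pi.add_apply]
  push_cast
  ring

theorem poly_smul' {d n : ℕ} (c : ℝ) (a : (layer d n) × Fin 2 → ℝ) (x : Fin d → ℝ) :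
    poly (c • a) x = (c : ℂ) * poly a x := by
  unfold poly
  rw [Finset.mul_sum]
  refine Finset.sum_congr rfl (fun k _ => ?_)
  simp only [Pi.smul_apply, smul_eq_mul]
  push_cast
  ring

theorem norm_poly_le' {d n : ℕ} (a : (layer d n) × Fin 2 → ℝ) (x : Fin d → ℝ) :
    ‖poly a x‖ ≤ Real.sqrt ((layer d n).card) * Real.sqrt (∑ i, a i ^ 2) := by
  have h1 : ‖poly a x‖ ≤ ∑ k : layer d n, ‖((a (k, 0) : ℂ) + (a (k, 1) : ℂ) * Complex.I)‖ := by
    unfold poly
    refine (norm_sum_le _ _).trans (Finset.sum_le_sum (fun k _ => ?_))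
    rw [norm_mul]
    have : ‖Complex.exp (Complex.I * ((∑ j, (k.1 j : ℝ) * x j : ℝ) : ℂ))‖ = 1 := by
      rw [mul_comm]
      exact Complex.norm_exp_ofReal_mul_I _
    rw [this, mul_one]
  have h2 : (∑ k : layer d n, ‖((a (k, 0) : ℂ) + (a (k, 1) : ℂ) * Complex.I)‖)^2 ≤
      (layer d n).card * ∑ i, a i ^ 2 := by
    have h3 := sq_sum_le_card_mul_sum_sq (s := (Finset.univ : Finset (layer d n)))
      (f := fun k => ‖((a (k, 0) : ℂ) + (a (k, 1) : ℂ) * Complex.I)‖)
    have h4 : ∑ k : layer d n, ‖((a (k, 0) : ℂ) + (a (k, 1) : ℂ) * Complex.I)‖^2 = ∑ i, a i ^ 2 := by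
      rw [Fintype.sum_prod_type]
      refine Finset.sum_congr rfl (fun k _ => ?_)
      rw [Fin.sum_univ_two, ← Complex.normSq_eq_norm_sq, Complex.normSq_add_mul_I]
    rw [h4] at h3
    simpa [Finset.card_univ, Fintype.card_coe] using h3
  have h5 : 0 ≤ ∑ k : layer d n, ‖((a (k, 0) : ℂ) + (a (k, 1) : ℂ) * Complex.I)‖ :=
    Finset.sum_nonneg (fun k _ => norm_nonneg _)
  refine h1.trans ?_
  rw [← Real.sqrt_mul (Nat.cast_nonneg _)]
  exact Real.le_sqrt_of_sq_le h2

theorem bdd_poly' {d n : ℕ} (a : (layer d n) × Fin 2 → ℝ) :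
    BddAbove (Set.range (fun x : Fin d → ℝ => ‖poly a x‖)) := by
  refine ⟨Real.sqrt ((layer d n).card) * Real.sqrt (∑ i, a i ^ 2), ?_⟩
  rintro _ ⟨x, rfl⟩
  exact norm_poly_le' a x

theorem le_supn' {d n : ℕ} (a : (layer d n) × Fin 2 → ℝ) (x : Fin d → ℝ) :
    ‖poly a x‖ ≤ supn a := le_ciSup (bdd_poly' a) x

theorem supn_le' {d n : ℕ} (a : (layer d n) × Fin 2 → ℝ) (M : ℝ) (h : ∀ x, ‖poly a x‖ ≤ M) :
    supn a ≤ M := ciSup_le h

theorem supn_add' {d n : ℕ} (a b : (layer d n) × Fin 2 → ℝ) : supn (a + b) ≤ supn a + supn b := by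
  refine supn_le' _ _ (fun x => ?_)
  rw [poly_add']
  exact (norm_add_le _ _).trans (add_le_add (le_supn' a x) (le_supn' b x))

theorem supn_smul' {d n : ℕ} (c : ℝ) (a : (layer d n) × Fin 2 → ℝ) : supn (c • a) = |c| * supn a := by
  unfold supn
  rw [Real.mul_iSup_of_nonneg (abs_nonneg c)]
  refine congrArg _ (funext (fun x => ?_))
  rw [poly_smul', norm_mul, Complex.norm_real, Real.norm_eq_abs]

theorem supn_bound' {d n : ℕ} (a : (layer d n) × Fin 2 → ℝ) :
    supn a ≤ Real.sqrt ((layer d n).card) * Real.sqrt (∑ i, a i ^ 2) :=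
  supn_le' _ _ (norm_poly_le' a)

theorem supn_sub' {d n : ℕ} (a b : (layer d n) × Fin 2 → ℝ) :
    |supn a - supn b| ≤ supn (a - b) := by
  have h1 : supn a ≤ supn (a - b) + supn b := by
    have := supn_add' (a - b) b
    rwa [sub_add_cancel] at this
  have h2 : supn b ≤ supn (a - b) + supn a := by
    have := supn_add' (b - a) a
    rw [sub_add_cancel] at this
    have h3 : supn (b - a) = supn (a - b) := by
      have := supn_smul' (-1) (a - b)
      rw [abs_neg, abs_one, one_mul] at this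
      rw [← this]
      congr 1
      simp
    rwa [h3] at this
  rw [abs_le]
  constructor <;> linarith

theorem supn_facts (d n : ℕ) :
    (∀ a b : (layer d n) × Fin 2 → ℝ, supn (a + b) ≤ supn a + supn b) ∧
    (∀ (c : ℝ) (a : (layer d n) × Fin 2 → ℝ), supn (c • a) = |c| * supn a) ∧
    Continuous (supn : ((layer d n) × Fin 2 → ℝ) → ℝ) ∧
    (∀ a : (layer d n) × Fin 2 → ℝ, a ≠ 0 → 0 < supn a) ∧
    (∀ (a : (layer d n) × Fin 2 → ℝ) x, ‖poly a x‖ ≤ supn a) ∧
    (∀ (a : (layer d n) × Fin 2 → ℝ) (M : ℝ), (∀ x, ‖poly a x‖ ≤ M) → supn a ≤ M) ∧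
    (∀ a : (layer d n) × Fin 2 → ℝ, supn a ≤ Real.sqrt ((layer d n).card) * Real.sqrt (∑ i, a i ^ 2)) := by
  refine ⟨supn_add', supn_smul', ?_, ?_, le_supn', supn_le', supn_bound'⟩
  · rw [continuous_iff_continuousAt]
    intro a
    unfold ContinuousAt
    rw [tendsto_iff_norm_sub_tendsto_zero]
    have hc : Continuous (fun b : (layer d n) × Fin 2 → ℝ =>
        Real.sqrt ((layer d n).card) * Real.sqrt (∑ i, (b - a) i ^ 2)) := by
      fun_prop
    have h0 := hc.tendsto a
    simp only [sub_self, Pi.zero_apply] at h0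
    have h1 : Real.sqrt ((layer d n).card) * Real.sqrt (∑ _i : (layer d n) × Fin 2, (0:ℝ) ^ 2) = 0 := by
      simp
    rw [h1] at h0
    refine squeeze_zero (fun _ => norm_nonneg _) (fun b => ?_) h0
    rw [Real.norm_eq_abs]
    exact (supn_sub' b a).trans (supn_bound' (b - a))
  · intro a ha
    by_contra hcon
    push Not at hcon
    have hz : poly a = fun _ => 0 := by
      funext x
      have := (le_supn' a x).trans hcon
      exact norm_le_zero_iff.mp this
    apply ha
    funext i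
    obtain ⟨k, j⟩ := i
    have hk := fc_poly a k
    have h0 : fc (poly a) k.1 = 0 := by
      rw [hz]
      simp [fc]
    rw [h0] at hk
    have hre := congrArg Complex.re hk
    have him := congrArg Complex.im hk
    simp at hre him
    fin_cases j
    · simpa using hre.symm
    · simpa using him.symm

end Sol_EX_supn_facts

alias supn_facts := Sol_EX_supn_facts.supn_facts

end HypVol
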