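import Pool.Agent.EntX.Defs
import Pool.Agent.EntX.L_supn_facts
open MeasureTheory Real ProbabilityTheory
open scoped ENNReal BigOperators

namespace HypVol
namespace Sol_EX_pol_ball_eu

theorem pol_ball_eu (d n : ℕ) (y : (layer d n) × Fin 2 → ℝ) (hy : y ∈ pol (ball d n)) :
    eu y ≤ Real.sqrt ((layer d n).card) := by
  
  obtain ⟨-, h2, -, h4, h5, -, h7⟩ := supn_facts d n
  by_cases hy0 : y = 0
  · rw [hy0]
    simp [eu]
  have h8 := (h4 y hy0).trans_le (h7 y)
  set s : ℝ := Real.sqrt ((layer d n).card) with hs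
  have hs0 : 0 ≤ s := Real.sqrt_nonneg _
  have he0 : 0 ≤ eu y := Real.sqrt_nonneg _
  have he : Real.sqrt (∑ i, y i ^ 2) = eu y := rfl
  rw [he] at h8
  have hspos : 0 < s := by
    rcases hs0.lt_or_eq with h | h
    · exact h
    · rw [← h, zero_mul] at h8
      exact absurd h8 (lt_irrefl _)
  have hepos : 0 < eu y := by
    rcases he0.lt_or_eq with h | h
    · exact h
    · rw [← h, mul_zero] at h8
      exact absurd h8 (lt_irrefl _)
  have hb : ((s * eu y)⁻¹ • y) ∈ ball d n := by
    intro x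
    refine (h5 _ x).trans ?_
    rw [h2, abs_of_pos (by positivity)]
    have h9 := h7 y
    rw [he] at h9
    rw [inv_mul_le_iff₀ (by positivity), mul_one]
    exact h9
  have h10 := hy _ hb
  have h11 : ∑ i, ((s * eu y)⁻¹ • y) i * y i = (s * eu y)⁻¹ * (eu y) ^ 2 := by
    have h12 : (eu y) ^ 2 = ∑ i, y i ^ 2 := by
      rw [eu, Real.sq_sqrt (Finset.sum_nonneg fun _ _ => sq_nonneg _)]
    rw [h12, Finset.mul_sum]
    refine Finset.sum_congr rfl fun i _ => ?_
    rw [Pi.smul_apply, smul_eq_mul]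
    ring
  rw [h11, abs_of_pos (by positivity), inv_mul_le_iff₀ (by positivity), mul_one, sq] at h10
  exact le_of_mul_le_mul_right h10 hepos

end Sol_EX_pol_ball_eu

alias pol_ball_eu := Sol_EX_pol_ball_eu.pol_ball_eu

end HypVol
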