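import Pool.Agent.EntX.Defs
open MeasureTheory Real ProbabilityTheory
open scoped ENNReal BigOperators

namespace HypVol
namespace Sol_EX_sudakov_primal

theorem sudakov_primal {ι : Type} [Fintype ι] (nu : (ι → ℝ) → ℝ) (h1 : ∀ a b, nu (a + b) ≤ nu a + nu b)
    (h2 : ∀ (c : ℝ) a, nu (c • a) = |c| * nu a) (A : ℝ) (hA : 0 ≤ A)
    (hcov : ∀ η : ℝ, 0 < η → ∃ S : Finset (ι → ℝ), (S.card : ℝ) ≤ 2 * Real.exp (A / η^2) ∧
      ∀ a : ι → ℝ, ∑ i, a i ^ 2 ≤ 1 → ∃ s ∈ S, nu (a - s) ≤ η)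
    (h4 : ∀ a, a ≠ 0 → 0 < nu a)
    (R : ℝ) (hR : ∀ y ∈ pol {b : ι → ℝ | nu b ≤ 1}, eu y ≤ R) (m : ℕ) (ε : ℝ) (hε : 0 < ε) (hm : R ≤ 2^m * ε) :
    ∃ S : Finset (ι → ℝ), (S.card : ℝ) ≤ 2^m * Real.exp (86 * A / ε^2) ∧
      ∀ y ∈ pol {b : ι → ℝ | nu b ≤ 1}, ∃ s ∈ S, eu (y - s) ≤ ε := by
  classical
  have nu0 : nu 0 = 0 := by
    have := h2 0 0
    simpa using this
  have nuneg : ∀ a, nu (-a) = nu a := by
    intro a
    have := h2 (-1) a
    simpa using this
  have hpol : ∀ y ∈ pol {b : ι → ℝ | nu b ≤ 1}, ∀ z : ι → ℝ, |∑ i, z i * y i| ≤ nu z := by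
    intro y hy z
    by_cases hz : z = 0
    · subst hz
      simp [nu0]
    · have hp := h4 z hz
      have h5 : nu ((nu z)⁻¹ • z) ≤ 1 := by
        rw [h2, abs_of_pos (inv_pos.2 hp), inv_mul_cancel₀ hp.ne']
      have h6 := hy _ h5
      have h7 : ∑ i, ((nu z)⁻¹ • z) i * y i = (nu z)⁻¹ * ∑ i, z i * y i := by
        rw [Finset.mul_sum]
        refine Finset.sum_congr rfl fun i _ => ?_
        simp only [Pi.smul_apply, smul_eq_mul]
        ring
      rw [h7, abs_mul, abs_of_pos (inv_pos.2 hp), inv_mul_le_iff₀ hp, mul_one] at h6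
      exact h6
  induction m generalizing ε with
  | zero =>
    refine ⟨{0}, ?_, ?_⟩
    · have h8 : (1 : ℝ) ≤ Real.exp (86 * A / ε^2) := Real.one_le_exp (by positivity)
      simpa using h8
    · intro y hy
      refine ⟨0, by simp, ?_⟩
      rw [sub_zero]
      refine (hR y hy).trans ?_
      simpa using hm
  | succ m ih =>
    obtain ⟨S1, hS1c, hS1⟩ := ih (2 * ε) (by positivity) (by rw [pow_succ] at hm; linarith)
    obtain ⟨S2, hS2c, hS2⟩ := hcov (ε / 8) (by positivity)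
    let P : (ι → ℝ) × (ι → ℝ) → (ι → ℝ) → Prop := fun s y =>
      y ∈ pol {b : ι → ℝ | nu b ≤ 1} ∧ nu (y - s.1 - (2 * ε) • s.2) ≤ ε^2 / 4
    let f : (ι → ℝ) × (ι → ℝ) → (ι → ℝ) := fun s => if h : ∃ y, P s y then h.choose else 0
    refine ⟨(S1 ×ˢ S2).image f, ?_, ?_⟩
    · have hc : (((S1 ×ˢ S2).image f).card : ℝ) ≤ (S1.card : ℝ) * S2.card := by
        have := Finset.card_image_le (s := S1 ×ˢ S2) (f := f)
        rw [Finset.card_product] at this
        exact_mod_cast this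
      refine hc.trans ?_
      have hm1 : (S1.card : ℝ) * S2.card ≤
          (2^m * Real.exp (86 * A / (2 * ε)^2)) * (2 * Real.exp (A / (ε / 8)^2)) :=
        mul_le_mul hS1c hS2c (by positivity) (by positivity)
      refine hm1.trans ?_
      have e1 : (2^m * Real.exp (86 * A / (2 * ε)^2)) * (2 * Real.exp (A / (ε / 8)^2)) =
          2^(m+1) * Real.exp (86 * A / (2 * ε)^2 + A / (ε / 8)^2) := by
        rw [Real.exp_add, pow_succ]
        ring
      rw [e1]
      refine mul_le_mul_of_nonneg_left (Real.exp_le_exp.2 ?_) (by positivity)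
      have e2 : 86 * A / (2 * ε)^2 + A / (ε / 8)^2 = (85.5 * A) / ε^2 := by
        field_simp
        ring
      rw [e2]
      have hA2 : 85.5 * A ≤ 86 * A := by nlinarith
      exact div_le_div_of_nonneg_right hA2 (by positivity)
    · intro y hy
      obtain ⟨s1, hs1, hd1⟩ := hS1 y hy
      have hsq : ∑ i, (y - s1) i ^ 2 ≤ (2 * ε)^2 := by
        have h9 : 0 ≤ ∑ i, (y - s1) i ^ 2 := Finset.sum_nonneg fun i _ => sq_nonneg _
        unfold eu at hd1
        have h10 := Real.sq_sqrt h9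
        have h11 := Real.sqrt_nonneg (∑ i, (y - s1) i ^ 2)
        nlinarith
      obtain ⟨s2, hs2, hd2⟩ := hS2 ((2 * ε)⁻¹ • (y - s1)) (by
        have e3 : ∑ i, ((2 * ε)⁻¹ • (y - s1)) i ^ 2 = ((2 * ε)^2)⁻¹ * ∑ i, (y - s1) i ^ 2 := by
          rw [Finset.mul_sum]
          refine Finset.sum_congr rfl fun i _ => ?_
          simp only [Pi.smul_apply, smul_eq_mul, mul_pow, inv_pow]
        rw [e3, inv_mul_le_iff₀ (by positivity), mul_one]
        exact hsq)
      have hP : P (s1, s2) y := by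
        refine ⟨hy, ?_⟩
        have e4 : y - s1 - (2 * ε) • s2 = (2 * ε) • ((2 * ε)⁻¹ • (y - s1) - s2) := by
          rw [smul_sub, smul_smul, mul_inv_cancel₀ (by positivity), one_smul]
        show nu (y - s1 - (2 * ε) • s2) ≤ ε^2 / 4
        rw [e4, h2, abs_of_pos (by positivity)]
        nlinarith
      have hex : ∃ y, P (s1, s2) y := ⟨y, hP⟩
      have hf : P (s1, s2) (f (s1, s2)) := by
        have : f (s1, s2) = hex.choose := by
          simp only [f]
          rw [dif_pos hex]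
        rw [this]
        exact hex.choose_spec
      refine ⟨f (s1, s2), Finset.mem_image.2 ⟨(s1, s2), Finset.mem_product.2 ⟨hs1, hs2⟩, rfl⟩, ?_⟩
      set yc := f (s1, s2) with hyc
      have hz : nu (y - yc) ≤ ε^2 / 2 := by
        have e5 : y - yc = (y - s1 - (2 * ε) • s2) + (-(yc - s1 - (2 * ε) • s2)) := by abel
        have h12 := h1 (y - s1 - (2 * ε) • s2) (-(yc - s1 - (2 * ε) • s2))
        rw [← e5, nuneg] at h12
        have h13 : nu (y - s1 - (2 * ε) • s2) ≤ ε^2 / 4 := hP.2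
        have h14 : nu (yc - s1 - (2 * ε) • s2) ≤ ε^2 / 4 := hf.2
        linarith
      have h15 := hpol y hy (y - yc)
      have h16 := hpol yc hf.1 (y - yc)
      have h17 : ∑ i, (y - yc) i ^ 2 = ∑ i, (y - yc) i * y i - ∑ i, (y - yc) i * yc i := by
        rw [← Finset.sum_sub_distrib]
        refine Finset.sum_congr rfl fun i _ => ?_
        simp only [Pi.sub_apply]
        ring
      unfold eu
      rw [Real.sqrt_le_left hε.le, h17]
      have h18 := (abs_le.1 h15).2
      have h19 := (abs_le.1 h16).1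
      linarith

end Sol_EX_sudakov_primal

alias sudakov_primal := Sol_EX_sudakov_primal.sudakov_primal

end HypVol
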