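import Pool.Agent.EntX.Defs
import Pool.Agent.EntX.L_dual_sudakov
import Pool.Agent.EntX.L_net_combine
import Pool.Agent.EntX.L_gauss_sup
import Pool.Agent.EntX.L_supn_facts
import Pool.Agent.EntX.L_sudakov_primal
import Pool.Agent.EntX.L_pol_ball_eu
import Pool.Agent.HypVol.L_card_layer
import Pool.Agent.HypVol.L_shp_upper
open MeasureTheory Real ProbabilityTheory
open scoped ENNReal BigOperators

namespace HypVol
namespace Sol_EX_netP_two

theorem eu_eq_norm {ι : Type} [Fintype ι] (a : ι → ℝ) :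
    eu a = ‖(WithLp.toLp 2 a : EuclideanSpace ℝ ι)‖ := by
  unfold eu
  rw [EuclideanSpace.norm_eq]
  congr 1
  apply Finset.sum_congr rfl
  intro i _
  rw [Real.norm_eq_abs, sq_abs]

theorem eu_add {ι : Type} [Fintype ι] (a b : ι → ℝ) : eu (a + b) ≤ eu a + eu b := by
  rw [eu_eq_norm, eu_eq_norm, eu_eq_norm, WithLp.toLp_add]
  exact norm_add_le _ _

theorem eu_smul {ι : Type} [Fintype ι] (c : ℝ) (a : ι → ℝ) : eu (c • a) = |c| * eu a := by
  rw [eu_eq_norm, eu_eq_norm, WithLp.toLp_smul, norm_smul, Real.norm_eq_abs]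

theorem eu_cont {ι : Type} [Fintype ι] : Continuous (eu : (ι → ℝ) → ℝ) := by
  unfold eu
  fun_prop

theorem eu_pos {ι : Type} [Fintype ι] (a : ι → ℝ) (ha : a ≠ 0) : 0 < eu a := by
  rw [eu_eq_norm, norm_pos_iff]
  intro h
  apply ha
  funext i
  have := congrArg (fun z : EuclideanSpace ℝ ι => z i) h
  simpa using this

theorem ball_eq_supn (d n : ℕ) : ball d n = {b | supn b ≤ 1} := by
  obtain ⟨-, -, -, -, h5, h6, -⟩ := supn_facts d n
  ext a
  constructor
  · intro h
    exact h6 a 1 h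
  · intro h x
    exact le_trans (h5 a x) h

theorem card_layer_le (d n : ℕ) : (layer d n).card ≤ 2 ^ (n * (d + 1)) := by
  rw [card_layer]
  have h1 : shp d n ≤ (n + 1) ^ d := by
    unfold shp
    refine le_trans (Finset.card_le_univ _) ?_
    simp
  have h2 : (n + 1) ^ d ≤ (2 ^ n) ^ d := Nat.pow_le_pow_left (Nat.lt_two_pow_self) d
  calc 2 ^ n * shp d n ≤ 2 ^ n * (2 ^ n) ^ d := Nat.mul_le_mul_left _ (h1.trans h2)
    _ = 2 ^ (n * (d + 1)) := by rw [← pow_succ', ← pow_mul]

theorem net_one (d : ℕ) : ∃ C : ℝ, 0 < C ∧ ∀ (n : ℕ) (ε : ℝ), 1 ≤ ε →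
    ∃ S : Finset ((layer d n) × Fin 2 → ℝ),
      (S.card : ℝ) ≤ Real.exp (C * ((layer d n).card * ((n:ℝ) + 1) / ε^2 + ((n:ℝ) + 1))) ∧
      ∀ a ∈ pol (ball d n), ∃ s ∈ S, eu (a - s) ≤ ε := by
  obtain ⟨C0, hC0, hg⟩ := gauss_sup d
  refine ⟨172 * C0 ^ 2 + (d + 1), by positivity, ?_⟩
  intro n ε hε
  have hε0 : 0 < ε := by linarith
  rcases Nat.eq_zero_or_pos (layer d n).card with h0 | hpos
  · refine ⟨{0}, ?_, ?_⟩
    · rw [Finset.card_singleton, Nat.cast_one]
      apply Real.one_le_exp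
      positivity
    · intro a _
      refine ⟨0, Finset.mem_singleton_self _, ?_⟩
      have he : IsEmpty ((layer d n) × Fin 2) := by
        rw [Finset.card_eq_zero] at h0
        constructor
        rintro ⟨⟨k, hk⟩, _⟩
        rw [h0] at hk
        simp at hk
      have : eu (a - 0) = 0 := by
        unfold eu
        rw [Finset.univ_eq_empty, Finset.sum_empty, Real.sqrt_zero]
      rw [this]
      exact hε0.le
  · obtain ⟨f1, f2, f3, f4, f5, f6, f7⟩ := supn_facts d n
    have hNpos : (0 : ℝ) < (layer d n).card := by exact_mod_cast hpos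
    have hN1 : (1 : ℝ) ≤ (layer d n).card := by exact_mod_cast hpos
    have ht : 0 < C0 * Real.sqrt ((layer d n).card * ((n:ℝ) + 1)) := by positivity
    have hset : {u : (layer d n) × Fin 2 → ℝ |
        ∀ x, ‖poly u x‖ ≤ C0 * Real.sqrt ((layer d n).card * ((n:ℝ) + 1))} =
        {u | supn u ≤ C0 * Real.sqrt ((layer d n).card * ((n:ℝ) + 1))} := by
      ext u
      constructor
      · intro h
        exact f6 u _ h
      · intro h x
        exact le_trans (f5 u x) h
    have hg' := hg n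
    rw [hset] at hg'
    have hA : 2 * (C0 * Real.sqrt ((layer d n).card * ((n:ℝ) + 1))) ^ 2 =
        2 * C0 ^ 2 * ((layer d n).card * ((n:ℝ) + 1)) := by
      rw [mul_pow, Real.sq_sqrt (by positivity)]
      ring
    have hcov : ∀ η : ℝ, 0 < η → ∃ S : Finset ((layer d n) × Fin 2 → ℝ),
        (S.card : ℝ) ≤ 2 * Real.exp ((2 * C0 ^ 2 * ((layer d n).card * ((n:ℝ) + 1))) / η^2) ∧
        ∀ a : (layer d n) × Fin 2 → ℝ, ∑ i, a i ^ 2 ≤ 1 → ∃ s ∈ S, supn (a - s) ≤ η := by
      intro η hη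
      have := dual_sudakov supn f1 f2 f3 _ ht hg' η hη
      rwa [hA] at this
    have hR : ∀ y ∈ pol {b : (layer d n) × Fin 2 → ℝ | supn b ≤ 1},
        eu y ≤ Real.sqrt ((layer d n).card) := by
      intro y hy
      rw [← ball_eq_supn] at hy
      exact pol_ball_eu d n y hy
    have hm : Real.sqrt ((layer d n).card) ≤ 2 ^ (n * (d + 1)) * ε := by
      have h1 : Real.sqrt ((layer d n).card) ≤ (layer d n).card := by
        rw [Real.sqrt_le_left (by positivity)]
        nlinarith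
      have h2 : ((layer d n).card : ℝ) ≤ 2 ^ (n * (d + 1)) := by
        exact_mod_cast card_layer_le d n
      have h3 : (0 : ℝ) < 2 ^ (n * (d + 1)) := by positivity
      nlinarith
    obtain ⟨S, hS1, hS2⟩ := sudakov_primal supn f1 f2
      (2 * C0 ^ 2 * ((layer d n).card * ((n:ℝ) + 1))) (by positivity) hcov f4
      (Real.sqrt ((layer d n).card)) hR (n * (d + 1)) ε hε0 hm
    refine ⟨S, ?_, ?_⟩
    · refine le_trans hS1 ?_
      have h2 : (2 : ℝ) ^ (n * (d + 1)) ≤ Real.exp ((n : ℝ) * (d + 1)) := by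
        have h3 : (2 : ℝ) ≤ Real.exp 1 := by
          have := Real.add_one_le_exp (1 : ℝ)
          linarith
        calc (2 : ℝ) ^ (n * (d + 1)) ≤ (Real.exp 1) ^ (n * (d + 1)) :=
              pow_le_pow_left₀ (by norm_num) h3 _
          _ = Real.exp ((n : ℝ) * (d + 1)) := by
              rw [← Real.exp_nat_mul]
              congr 1
              push_cast
              ring
      calc (2 : ℝ) ^ (n * (d + 1)) *
            Real.exp (86 * (2 * C0 ^ 2 * ((layer d n).card * ((n:ℝ) + 1))) / ε ^ 2)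
          ≤ Real.exp ((n : ℝ) * (d + 1)) *
            Real.exp (86 * (2 * C0 ^ 2 * ((layer d n).card * ((n:ℝ) + 1))) / ε ^ 2) :=
            mul_le_mul_of_nonneg_right h2 (Real.exp_pos _).le
        _ = Real.exp ((n : ℝ) * (d + 1) +
            86 * (2 * C0 ^ 2 * ((layer d n).card * ((n:ℝ) + 1))) / ε ^ 2) := by
            rw [Real.exp_add]
        _ ≤ _ := by
            apply Real.exp_le_exp.2
            have e1 : 86 * (2 * C0 ^ 2 * ((layer d n).card * ((n:ℝ) + 1))) / ε ^ 2 =
              172 * C0 ^ 2 * ((layer d n).card * ((n:ℝ) + 1) / ε ^ 2) := by ring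
            rw [e1]
            have hX : 0 ≤ ((layer d n).card : ℝ) * ((n:ℝ) + 1) / ε ^ 2 := by positivity
            generalize ((layer d n).card : ℝ) * ((n:ℝ) + 1) / ε ^ 2 = X at hX ⊢
            have hC : 0 < C0 ^ 2 := by positivity
            have hn : (0 : ℝ) ≤ n := Nat.cast_nonneg n
            have hd : (0 : ℝ) ≤ d := Nat.cast_nonneg d
            have p1 : 0 ≤ (d + 1 : ℝ) * X := by positivity
            have p2 : 0 ≤ 172 * C0 ^ 2 * ((n : ℝ) + 1) := by positivity
            nlinarith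
    · intro a ha
      rw [ball_eq_supn] at ha
      exact hS2 a ha

theorem netP_two (d : ℕ) : NetP d (fun n => pol (ball d n)) (fun _ => eu) := by
  obtain ⟨C, hC, h1⟩ := net_one d
  refine ⟨C, hC, h1, ?_⟩
  intro n ε t hε ht ht1
  obtain ⟨S, hS1, hS2⟩ := h1 n ε hε
  obtain ⟨S', hS'1, hS'2⟩ := net_combine eu eu_add eu_smul eu_cont eu_pos (pol (ball d n)) ε t
    (by linarith) ht ht1 S hS2
  refine ⟨S', ?_, hS'2⟩
  refine le_trans hS'1 ?_
  have hc : Fintype.card ((layer d n) × Fin 2) = 2 * (layer d n).card := by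
    simp [mul_comm]
  rw [hc]
  exact mul_le_mul_of_nonneg_right hS1 (by positivity)

end Sol_EX_netP_two

alias netP_two := Sol_EX_netP_two.netP_two

end HypVol
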