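import Pool.Agent.EntX.Defs
import Pool.Agent.EntX.L_netP_two
open MeasureTheory Real ProbabilityTheory
open scoped ENNReal BigOperators

namespace HypVol
namespace Sol_EX_netE_pol

theorem netE_pol (d : ℕ) : NetE d (fun n => pol (ball d n)) (fun _ => eu) 1 := by
  obtain ⟨C, hC, h1, _⟩ := netP_two d
  refine ⟨C, hC, fun n ε hε => ?_⟩
  obtain ⟨S, hS, hcov⟩ := h1 n ε hε
  refine ⟨S, ?_, hcov⟩
  rw [pow_one]
  exact hS

end Sol_EX_netE_pol

alias netE_pol := Sol_EX_netE_pol.netE_pol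

end HypVol
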