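import Pool.Agent.EntX.Defs
import Pool.Agent.EntX.L_dual_sudakov
import Pool.Agent.EntX.L_net_combine
import Pool.Agent.EntX.L_gauss_sup
import Pool.Agent.EntX.L_supn_facts
open MeasureTheory Real ProbabilityTheory
open scoped ENNReal BigOperators

namespace HypVol
namespace Sol_EX_netP_inf

theorem netP_inf_first (d : ℕ) (C0 : ℝ) (hC0 : 0 < C0)
    (hg : ∀ n : ℕ, (1/2 : ℝ≥0∞) ≤ gam ((layer d n) × Fin 2) 1
      {u | ∀ x, ‖poly u x‖ ≤ C0 * Real.sqrt ((layer d n).card * ((n:ℝ) + 1))})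
    (n : ℕ) (ε : ℝ) (hε : 1 ≤ ε) : ∃ S : Finset ((layer d n) × Fin 2 → ℝ),
      (S.card : ℝ) ≤ Real.exp ((1 + 2 * C0 ^ 2) *
        ((layer d n).card * ((n:ℝ) + 1) / ε^2 + ((n:ℝ) + 1))) ∧
      ∀ a ∈ V2 d n, ∃ s ∈ S, supn (a - s) ≤ ε := by
  obtain ⟨f1, f2, f3, f4, f5, f6, f7⟩ := supn_facts d n
  have hn0 : (0:ℝ) ≤ n := Nat.cast_nonneg n
  have hc0 : (0:ℝ) ≤ (layer d n).card := Nat.cast_nonneg _
  have hε0 : 0 < ε := by linarith
  rcases Nat.eq_zero_or_pos (layer d n).card with h0 | hpos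
  · refine ⟨{0}, ?_, ?_⟩
    · rw [Finset.card_singleton, Nat.cast_one]
      exact Real.one_le_exp (by positivity)
    · intro a _
      refine ⟨0, Finset.mem_singleton_self 0, ?_⟩
      have := f7 (a - 0)
      rw [h0, Nat.cast_zero, Real.sqrt_zero, zero_mul] at this
      linarith
  · have hpos' : (0:ℝ) < (layer d n).card := by exact_mod_cast hpos
    have ht : 0 < C0 * Real.sqrt ((layer d n).card * ((n:ℝ) + 1)) := by positivity
    have hsub : {u : (layer d n) × Fin 2 → ℝ |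
        ∀ x, ‖poly u x‖ ≤ C0 * Real.sqrt ((layer d n).card * ((n:ℝ) + 1))} ⊆
        {u | supn u ≤ C0 * Real.sqrt ((layer d n).card * ((n:ℝ) + 1))} := fun u hu => f6 u _ hu
    obtain ⟨S, hS1, hS2⟩ := dual_sudakov (supn : ((layer d n) × Fin 2 → ℝ) → ℝ) f1 f2 f3
      (C0 * Real.sqrt ((layer d n).card * ((n:ℝ) + 1))) ht
      ((hg n).trans (measure_mono hsub)) ε hε0
    refine ⟨S, hS1.trans ?_, fun a ha => hS2 a ha⟩
    have e1 : (C0 * Real.sqrt ((layer d n).card * ((n:ℝ) + 1))) ^ 2 =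
        C0 ^ 2 * ((layer d n).card * ((n:ℝ) + 1)) := by
      rw [mul_pow, Real.sq_sqrt (by positivity)]
    have h2 : (2:ℝ) ≤ Real.exp ((n:ℝ) + 1) := by
      have h3 := Real.exp_one_gt_d9
      have h4 : Real.exp 1 ≤ Real.exp ((n:ℝ) + 1) := Real.exp_le_exp.mpr (by linarith)
      linarith
    rw [e1]
    calc 2 * Real.exp (2 * (C0 ^ 2 * ((layer d n).card * ((n:ℝ) + 1))) / ε ^ 2) ≤
          Real.exp ((n:ℝ) + 1) *
            Real.exp (2 * (C0 ^ 2 * ((layer d n).card * ((n:ℝ) + 1))) / ε ^ 2) :=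
          mul_le_mul_of_nonneg_right h2 (Real.exp_pos _).le
      _ = Real.exp (((n:ℝ) + 1) + 2 * C0 ^ 2 * ((layer d n).card * ((n:ℝ) + 1) / ε ^ 2)) := by
          rw [← Real.exp_add]
          congr 1
          ring
      _ ≤ _ := by
          refine Real.exp_le_exp.mpr ?_
          have h5 : 0 ≤ (layer d n).card * ((n:ℝ) + 1) / ε ^ 2 := by positivity
          have h6 : 0 ≤ 2 * C0 ^ 2 * ((n:ℝ) + 1) := by positivity
          nlinarith

theorem netP_inf (d : ℕ) : NetP d (V2 d) (fun _ => supn) := by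
  obtain ⟨C0, hC0, hg⟩ := gauss_sup d
  refine ⟨1 + 2 * C0 ^ 2, by positivity, fun n ε hε => netP_inf_first d C0 hC0 hg n ε hε, ?_⟩
  intro n ε t hε ht ht1
  obtain ⟨f1, f2, f3, f4, f5, f6, f7⟩ := supn_facts d n
  obtain ⟨S, hS1, hS2⟩ := netP_inf_first d C0 hC0 hg n ε hε
  obtain ⟨S', hS'1, hS'2⟩ := net_combine (supn : ((layer d n) × Fin 2 → ℝ) → ℝ) f1 f2 f3 f4
    (V2 d n) ε t (by linarith) ht ht1 S hS2
  refine ⟨S', hS'1.trans ?_, hS'2⟩
  have e : Fintype.card ((layer d n) × Fin 2) = 2 * (layer d n).card := by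
    rw [Fintype.card_prod, Fintype.card_coe, Fintype.card_fin, mul_comm]
  rw [e]
  exact mul_le_mul_of_nonneg_right hS1 (by positivity)

end Sol_EX_netP_inf

alias netP_inf := Sol_EX_netP_inf.netP_inf

end HypVol
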