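import Pool.Agent.EntX.Defs
import Pool.Agent.EntX.L_netP_inf
open MeasureTheory Real ProbabilityTheory
open scoped ENNReal BigOperators

namespace HypVol
namespace Sol_EX_netE_sup

theorem netE_sup (d : ℕ) : NetE d (V2 d) (fun _ => supn) 1 := by
  obtain ⟨C, hC, h1, -⟩ := netP_inf d
  refine ⟨C, hC, ?_⟩
  intro n ε hε
  obtain ⟨S, hS1, hS2⟩ := h1 n ε hε
  refine ⟨S, ?_, hS2⟩
  rw [pow_one]
  exact hS1

end Sol_EX_netE_sup

alias netE_sup := Sol_EX_netE_sup.netE_sup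

end HypVol
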