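import Pool.Agent.EntX.Defs
import Pool.Agent.EntX.L_net_combine
import Pool.Agent.EntX.L_Mact_norm
open MeasureTheory Real ProbabilityTheory
open scoped ENNReal BigOperators

namespace HypVol
namespace Sol_EX_net_two

theorem net_two_Mact {d n : ℕ} (r : ℝ) (α : Fin d → ℝ) (x s : (layer d n) × Fin 2 → ℝ) :
    Mact r α (x - s) = Mact r α x - Mact r α s := by
  funext i
  have h : Fh r α i.1.1 * (((x - s) (i.1, 0) : ℂ) + ((x - s) (i.1, 1) : ℂ) * Complex.I) =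
      Fh r α i.1.1 * ((x (i.1, 0) : ℂ) + (x (i.1, 1) : ℂ) * Complex.I) -
      Fh r α i.1.1 * ((s (i.1, 0) : ℂ) + (s (i.1, 1) : ℂ) * Complex.I) := by
    simp only [Pi.sub_apply, Complex.ofReal_sub]
    ring
  simp only [Pi.sub_apply]
  unfold Mact
  simp only [Pi.sub_apply] at h
  split_ifs with h0
  · simp only [Pi.sub_apply]
    rw [h, Complex.sub_re]
  · simp only [Pi.sub_apply]
    rw [h, Complex.sub_im]

theorem net_two_eu {ι : Type} [Fintype ι] (c : ℝ) (a : ι → ℝ) : eu (c • a) = |c| * eu a := by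
  unfold eu
  have h : ∑ i, (c • a) i ^ 2 = c ^ 2 * ∑ i, a i ^ 2 := by
    rw [Finset.mul_sum]
    refine Finset.sum_congr rfl fun i _ => ?_
    rw [Pi.smul_apply, smul_eq_mul, mul_pow]
  rw [h, Real.sqrt_mul (sq_nonneg c), Real.sqrt_sq_eq_abs]

theorem net_two_V2 {d n : ℕ} (z : (layer d n) × Fin 2 → ℝ) (h : eu z ≤ 1) : z ∈ V2 d n := by
  unfold eu at h
  show ∑ i, z i ^ 2 ≤ 1
  have h0 : 0 ≤ ∑ i, z i ^ 2 := Finset.sum_nonneg fun i _ => sq_nonneg _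
  have h1 := Real.sq_sqrt h0
  have h2 := Real.sqrt_nonneg (∑ i, z i ^ 2)
  nlinarith

theorem net_two_pow (n a b : ℕ) (ε : ℝ) (hε : 0 ≤ ε) :
    Real.sqrt (((n:ℝ) + 1)^a * ε) * Real.sqrt (((n:ℝ) + 1)^b * ε) =
      ((n:ℝ) + 1)^(((a + b : ℕ):ℝ)/2) * ε := by
  have hn : (0:ℝ) ≤ (n:ℝ) + 1 := by positivity
  rw [← Real.sqrt_mul (by positivity)]
  have h1 : ((n:ℝ) + 1)^a * ε * (((n:ℝ) + 1)^b * ε) = (((n:ℝ) + 1)^(((a + b : ℕ):ℝ)/2) * ε) ^ 2 := by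
    rw [mul_pow, ← Real.rpow_natCast (((n:ℝ) + 1)^(((a + b : ℕ):ℝ)/2)) 2, ← Real.rpow_mul hn]
    have h2 : ((a + b : ℕ):ℝ)/2 * ((2:ℕ):ℝ) = ((a + b : ℕ):ℝ) := by push_cast; ring
    rw [h2, Real.rpow_natCast, pow_add]
    ring
  rw [h1, Real.sqrt_sq (by positivity)]

theorem net_two_first (d : ℕ) (r : ℝ) (hr : 1 < r) (α : Fin d → ℝ)
    (V : ∀ n, Set ((layer d n) × Fin 2 → ℝ))
    (ν : ∀ n, ((layer d n) × Fin 2 → ℝ) → ℝ) (a b : ℕ) (C1 C2 : ℝ)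
    (n : ℕ) (ε : ℝ) (hε : 1 ≤ ε)
    (hE : ∀ (n : ℕ) (ε : ℝ), 1 ≤ ε → ∃ S : Finset ((layer d n) × Fin 2 → ℝ),
      (S.card : ℝ) ≤ Real.exp (C1 * ((layer d n).card * ((n:ℝ) + 1)^a / ε^2 + ((n:ℝ) + 1))) ∧
      ∀ b ∈ V n, ∃ s ∈ S, eu (b - s) ≤ ε)
    (hB : ∀ (n : ℕ) (ε : ℝ), 1 ≤ ε → ∃ S : Finset ((layer d n) × Fin 2 → ℝ),
      (S.card : ℝ) ≤ Real.exp (C2 * ((layer d n).card * ((n:ℝ) + 1)^b / ε^2 + ((n:ℝ) + 1))) ∧
      ∀ b ∈ V2 d n, ∃ s ∈ S, ν n (b - s) ≤ ε)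
    (h2 : ∀ n (c : ℝ) x, ν n (c • x) = |c| * ν n x) :
    ∃ S : Finset ((layer d n) × Fin 2 → ℝ),
      (S.card : ℝ) ≤ Real.exp ((C1 + C2) * ((layer d n).card / ε + ((n:ℝ) + 1))) ∧
      ∀ y ∈ Vs r α V n, ∃ s' ∈ S, ν n (y - s') ≤ ((n:ℝ) + 1)^(((a + b : ℕ):ℝ)/2) * ε := by
  classical
  have hn1 : (1:ℝ) ≤ (n:ℝ) + 1 := by
    have : (0:ℝ) ≤ (n:ℝ) := Nat.cast_nonneg n
    linarith
  have hn0 : (0:ℝ) < (n:ℝ) + 1 := by linarith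
  have hε0 : 0 < ε := by linarith
  have hk : ∀ m : ℕ, 1 ≤ Real.sqrt (((n:ℝ) + 1)^m * ε) := by
    intro m
    rw [Real.one_le_sqrt]
    have h3 : 1 ≤ ((n:ℝ) + 1)^m := one_le_pow₀ hn1
    nlinarith
  have hdiv : ∀ m : ℕ, ((layer d n).card : ℝ) * ((n:ℝ) + 1)^m / (Real.sqrt (((n:ℝ) + 1)^m * ε))^2 =
      (layer d n).card / ε := by
    intro m
    rw [Real.sq_sqrt (by positivity)]
    have h3 : ((n:ℝ) + 1)^m ≠ 0 := by positivity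
    field_simp
  obtain ⟨S1, hS1, hS1'⟩ := hE n _ (hk a)
  obtain ⟨S2, hS2, hS2'⟩ := hB n _ (hk b)
  rw [hdiv] at hS1 hS2
  set ε1 : ℝ := Real.sqrt (((n:ℝ) + 1)^a * ε) with hε1
  set ε2 : ℝ := Real.sqrt (((n:ℝ) + 1)^b * ε) with hε2
  have hε1p : 0 < ε1 := lt_of_lt_of_le one_pos (hk a)
  set κ : ℝ := (2:ℝ)^(r * d) * (2:ℝ)^(-(r * n)) with hκ
  have hκp : 0 < κ := by positivity
  refine ⟨Finset.image₂ (fun s s' => κ⁻¹ • Mact r α s + ε1 • s') S1 S2, ?_, ?_⟩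
  · have h3 : ((Finset.image₂ (fun s s' => κ⁻¹ • Mact r α s + ε1 • s') S1 S2).card : ℝ) ≤
        (S1.card : ℝ) * S2.card := by exact_mod_cast Finset.card_image₂_le _ _ _
    refine h3.trans ?_
    rw [add_mul, Real.exp_add]
    exact mul_le_mul hS1 hS2 (Nat.cast_nonneg _) (Real.exp_pos _).le
  · rintro y ⟨x, hx, rfl⟩
    obtain ⟨s, hs, hs'⟩ := hS1' x hx
    have hz : (κ * ε1)⁻¹ • Mact r α (x - s) ∈ V2 d n := by
      apply net_two_V2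
      rw [net_two_eu, abs_of_pos (by positivity)]
      have h4 := Mact_norm (d := d) (n := n) r (by linarith) α (x - s)
      rw [← hκ] at h4
      calc (κ * ε1)⁻¹ * eu (Mact r α (x - s)) ≤ (κ * ε1)⁻¹ * (κ * eu (x - s)) :=
            mul_le_mul_of_nonneg_left h4 (by positivity)
        _ ≤ (κ * ε1)⁻¹ * (κ * ε1) :=
            mul_le_mul_of_nonneg_left (mul_le_mul_of_nonneg_left hs' hκp.le) (by positivity)
        _ = 1 := inv_mul_cancel₀ (by positivity)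
    obtain ⟨s', hs2, hs2'⟩ := hS2' _ hz
    refine ⟨κ⁻¹ • Mact r α s + ε1 • s', Finset.mem_image₂_of_mem hs hs2, ?_⟩
    have h5 : κ⁻¹ • Mact r α x - (κ⁻¹ • Mact r α s + ε1 • s') =
        ε1 • ((κ * ε1)⁻¹ • Mact r α (x - s) - s') := by
      rw [net_two_Mact]
      funext i
      simp only [Pi.sub_apply, Pi.add_apply, Pi.smul_apply, smul_eq_mul]
      field_simp
      ring
    rw [h5, h2, abs_of_pos hε1p]
    calc ε1 * ν n ((κ * ε1)⁻¹ • Mact r α (x - s) - s') ≤ ε1 * ε2 :=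
          mul_le_mul_of_nonneg_left hs2' hε1p.le
      _ = _ := by rw [hε1, hε2, net_two_pow n a b ε hε0.le]

theorem net_two (d : ℕ) (r : ℝ) (hr : 1 < r) (α : Fin d → ℝ) (V : ∀ n, Set ((layer d n) × Fin 2 → ℝ))
    (ν : ∀ n, ((layer d n) × Fin 2 → ℝ) → ℝ) (a b : ℕ)
    (hE : NetE d V (fun _ => eu) a) (hB : NetE d (V2 d) ν b)
    (h1 : ∀ n x y, ν n (x + y) ≤ ν n x + ν n y) (h2 : ∀ n (c : ℝ) x, ν n (c • x) = |c| * ν n x)
    (h3 : ∀ n, Continuous (ν n)) (h4 : ∀ n x, x ≠ 0 → 0 < ν n x) :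
    NetQ d (Vs r α V) ν (a + b) := by
  obtain ⟨C1, hC1, hE⟩ := hE
  obtain ⟨C2, hC2, hB⟩ := hB
  have hfirst := fun (n : ℕ) (ε : ℝ) (hε : 1 ≤ ε) =>
    net_two_first d r hr α V ν a b C1 C2 n ε hε hE hB h2
  refine ⟨C1 + C2, by positivity, hfirst, ?_⟩
  intro n t ht ht1
  obtain ⟨S, hS, hS'⟩ := hfirst n 1 le_rfl
  have hn0 : (0:ℝ) < ((n:ℝ) + 1)^(((a + b : ℕ):ℝ)/2) := by positivity
  rw [mul_one] at hS'
  obtain ⟨S', hc, hS''⟩ := net_combine (ν n) (h1 n) (h2 n) (h3 n) (h4 n) (Vs r α V n)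
    (((n:ℝ) + 1)^(((a + b : ℕ):ℝ)/2)) t hn0 ht ht1 S hS'
  refine ⟨S', ?_, hS''⟩
  have hcard : Fintype.card ((layer d n) × Fin 2) = 2 * (layer d n).card := by
    rw [Fintype.card_prod, Fintype.card_coe, Fintype.card_fin, mul_comm]
  rw [hcard] at hc
  rw [div_one] at hS
  refine hc.trans ?_
  exact mul_le_mul_of_nonneg_right hS (by positivity)

end Sol_EX_net_two

alias net_two := Sol_EX_net_two.net_two

end HypVol
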