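import Pool.Agent.EntX.Defs2
import Pool.Agent.EntX.L_net_two
import Pool.Agent.EntX.L_netE_pol
import Pool.Agent.EntX.L_netE_sup
import Pool.Agent.EntX.L_supn_facts
open MeasureTheory Real ProbabilityTheory
open scoped ENNReal BigOperators

namespace HypVol
namespace Sol_EX_netQ_1inf

theorem netQ_1inf (d : ℕ) (r : ℝ) (hr : 1 < r) (α : Fin d → ℝ) :
    NetQ d (Vs r α (fun n => pol (ball d n))) (fun _ => supn) 2 :=
  net_two d r hr α (fun n => pol (ball d n)) (fun _ => supn) 1 1 (netE_pol d) (netE_sup d)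
    (fun n x y => (supn_facts d n).1 x y)
    (fun n c x => (supn_facts d n).2.1 c x)
    (fun n => (supn_facts d n).2.2.1)
    (fun n x hx => (supn_facts d n).2.2.2.1 x hx)

end Sol_EX_netQ_1inf

alias netQ_1inf := Sol_EX_netQ_1inf.netQ_1inf

end HypVol
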