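import Pool.Agent.EntX.Defs2
import Pool.Agent.EntX.L_netQ_1inf
import Pool.Agent.EntX.L_conv_series
import Pool.Agent.EntX.L_FC_L1
import Pool.Agent.EntX.L_supn_facts
import Pool.Agent.EntX.L_pol_ball_eu
import Pool.Agent.EntX.L_Mact_norm
import Pool.Agent.HypVol.L_card_layer
import Pool.Agent.HypVol.L_shp_lower
import Pool.Agent.HypVol.L_shp_upper
import Pool.Agent.HypVol.L_TP_prob
open MeasureTheory Real ProbabilityTheory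
open scoped ENNReal BigOperators

namespace HypVol
namespace Sol_EX_tail_net

noncomputable def qq (d : ℕ) (j : ℕ) : ℝ := (2 * ((j:ℝ) + 1)) ^ d * (2:ℝ) ^ (-((j:ℝ) / 4))

theorem qq_nonneg (d j : ℕ) : 0 ≤ qq d j := by unfold qq; positivity

theorem qq_summable (d : ℕ) : Summable (qq d) := by
  have h1 : Summable (fun j : ℕ => ((j:ℝ)) ^ d * ((2:ℝ) ^ (-(1/4:ℝ))) ^ j) := by
    apply summable_pow_mul_geometric_of_norm_lt_one
    rw [Real.norm_of_nonneg (by positivity)]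
    exact Real.rpow_lt_one_of_one_lt_of_neg (by norm_num) (by norm_num)
  have h2 := (summable_nat_add_iff 1).mpr h1
  refine (h2.mul_left ((2:ℝ)^d * ((2:ℝ) ^ (-(1/4:ℝ)))⁻¹)).congr fun j => ?_
  have hx : (0:ℝ) < (2:ℝ) ^ (-(1/4:ℝ)) := by positivity
  have e1 : (2:ℝ) ^ (-((j:ℝ) / 4)) = ((2:ℝ) ^ (-(1/4:ℝ))) ^ j := by
    rw [← Real.rpow_natCast, ← Real.rpow_mul two_pos.le]
    congr 1; ring
  unfold qq
  rw [e1, mul_pow, pow_succ]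
  push_cast
  field_simp

theorem nearB (d : ℕ) (hd : 1 ≤ d) (r : ℝ) (hr : 2 ≤ r) (n J j m : ℕ) (hj : J ≤ j) (hm : m = n + j) :
    (2:ℝ)^(r*d) * (2:ℝ)^(-(r*(m:ℝ))) * (((m:ℝ)+1) * (2:ℝ)^(5*(j:ℝ)/4)) ≤
      (2:ℝ)^(r*d) * ((2:ℝ)^(-(r*n)) * ((n:ℝ)+1) * (2:ℝ)^(-((J:ℝ)/2))) * qq d j := by
  have hJ : (J:ℝ) ≤ j := by exact_mod_cast hj
  have hj0 : (0:ℝ) ≤ j := Nat.cast_nonneg _
  have hn0 : (0:ℝ) ≤ n := Nat.cast_nonneg _
  have e1 : (2:ℝ)^(-(r*(m:ℝ))) * (2:ℝ)^(5*(j:ℝ)/4) ≤ (2:ℝ)^(-(r*n)) * (2:ℝ)^(-((J:ℝ)/2)) * (2:ℝ)^(-((j:ℝ)/4)) := by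
    rw [← Real.rpow_add two_pos, ← Real.rpow_add two_pos, ← Real.rpow_add two_pos]
    apply Real.rpow_le_rpow_of_exponent_le one_le_two
    rw [hm]; push_cast
    nlinarith
  have e2 : (m:ℝ)+1 ≤ ((n:ℝ)+1) * (2*((j:ℝ)+1))^d := by
    have h1 : (1:ℝ) ≤ 2*((j:ℝ)+1) := by linarith
    have h2 : 2*((j:ℝ)+1) ≤ (2*((j:ℝ)+1))^d := le_self_pow₀ h1 (by omega)
    rw [hm]; push_cast; nlinarith
  have hm0 : (0:ℝ) ≤ (m:ℝ) + 1 := by positivity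
  calc (2:ℝ)^(r*d) * (2:ℝ)^(-(r*(m:ℝ))) * (((m:ℝ)+1) * (2:ℝ)^(5*(j:ℝ)/4))
      = (2:ℝ)^(r*d) * (((2:ℝ)^(-(r*(m:ℝ))) * (2:ℝ)^(5*(j:ℝ)/4)) * ((m:ℝ)+1)) := by ring
    _ ≤ (2:ℝ)^(r*d) * (((2:ℝ)^(-(r*n)) * (2:ℝ)^(-((J:ℝ)/2)) * (2:ℝ)^(-((j:ℝ)/4))) * (((n:ℝ)+1) * (2*((j:ℝ)+1))^d)) := by
        gcongr
    _ = _ := by unfold qq; ring

theorem farB (d : ℕ) (hd : 1 ≤ d) (r : ℝ) (hr : 2 ≤ r) (C2 : ℝ) (hC2 : 0 < C2) (n J j m : ℕ) (hj : J ≤ j)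
    (hm : m = n + j) (hjn : 4 * n ≤ j) (c : ℝ) (hcard : c ≤ (2:ℝ)^m * (C2 * (m:ℝ)^(d-1))) :
    (2:ℝ)^(r*d) * (2:ℝ)^(-(r*(m:ℝ))) * c ≤
      C2 * ((2:ℝ)^(r*d) * ((2:ℝ)^(-(r*n)) * ((n:ℝ)+1) * (2:ℝ)^(-((J:ℝ)/2))) * qq d j) := by
  have hJ : (J:ℝ) ≤ j := by exact_mod_cast hj
  have hj0 : (0:ℝ) ≤ j := Nat.cast_nonneg _
  have hn0 : (0:ℝ) ≤ n := Nat.cast_nonneg _
  have hjn' : 4 * (n:ℝ) ≤ j := by exact_mod_cast hjn
  have e1 : (2:ℝ)^(-(r*(m:ℝ))) * (2:ℝ)^m ≤ (2:ℝ)^(-(r*n)) * (2:ℝ)^(-((J:ℝ)/2)) * (2:ℝ)^(-((j:ℝ)/4)) := by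
    rw [← Real.rpow_natCast 2 m, ← Real.rpow_add two_pos, ← Real.rpow_add two_pos, ← Real.rpow_add two_pos]
    apply Real.rpow_le_rpow_of_exponent_le one_le_two
    rw [hm]; push_cast
    nlinarith
  have e2 : (m:ℝ)^(d-1) ≤ ((n:ℝ)+1) * (2*((j:ℝ)+1))^d := by
    have h1 : (1:ℝ) ≤ 2*((j:ℝ)+1) := by linarith
    have h2 : (m:ℝ)^(d-1) ≤ (2*((j:ℝ)+1))^(d-1) := by
      apply pow_le_pow_left₀ (by positivity)
      rw [hm]; push_cast; linarith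
    have h3 : (2*((j:ℝ)+1))^(d-1) ≤ (2*((j:ℝ)+1))^d := pow_le_pow_right₀ h1 (by omega)
    have h4 : (0:ℝ) ≤ (2*((j:ℝ)+1))^d := by positivity
    nlinarith
  calc (2:ℝ)^(r*d) * (2:ℝ)^(-(r*(m:ℝ))) * c
      ≤ (2:ℝ)^(r*d) * (2:ℝ)^(-(r*(m:ℝ))) * ((2:ℝ)^m * (C2 * (m:ℝ)^(d-1))) := by gcongr
    _ = C2 * ((2:ℝ)^(r*d) * (((2:ℝ)^(-(r*(m:ℝ))) * (2:ℝ)^m) * (m:ℝ)^(d-1))) := by ring
    _ ≤ C2 * ((2:ℝ)^(r*d) * (((2:ℝ)^(-(r*n)) * (2:ℝ)^(-((J:ℝ)/2)) * (2:ℝ)^(-((j:ℝ)/4))) * (((n:ℝ)+1) * (2*((j:ℝ)+1))^d))) := by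
        gcongr
    _ = _ := by unfold qq; ring

theorem entB (d : ℕ) (hd : 1 ≤ d) (c1 C2 : ℝ) (hc1 : 0 < c1) (hC2 : 0 < C2) (n j m : ℕ) (hn : 1 ≤ n)
    (hm : m = n + j) (cm cn : ℝ) (hcm : cm ≤ (2:ℝ)^m * (C2 * (m:ℝ)^(d-1)))
    (hcn : (2:ℝ)^n * (c1 * (n:ℝ)^(d-1)) ≤ cn) :
    cm / (2:ℝ)^(5*(j:ℝ)/4) ≤ C2 / c1 * cn * qq d j := by
  have hj0 : (0:ℝ) ≤ j := Nat.cast_nonneg _
  have hn1 : (1:ℝ) ≤ n := by exact_mod_cast hn
  have h1 : (m:ℝ)^(d-1) ≤ ((n:ℝ) * ((j:ℝ)+1))^(d-1) := by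
    apply pow_le_pow_left₀ (by positivity)
    rw [hm]; push_cast; nlinarith
  have h2 : ((j:ℝ)+1)^(d-1) ≤ (2*((j:ℝ)+1))^d := by
    have h3 : ((j:ℝ)+1)^(d-1) ≤ (2*((j:ℝ)+1))^(d-1) := pow_le_pow_left₀ (by positivity) (by linarith) _
    exact h3.trans (pow_le_pow_right₀ (by linarith) (by omega))
  have e1 : (2:ℝ)^j / (2:ℝ)^(5*(j:ℝ)/4) = (2:ℝ)^(-((j:ℝ)/4)) := by
    rw [← Real.rpow_natCast 2 j, ← Real.rpow_sub two_pos]
    congr 1; ring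
  calc cm / (2:ℝ)^(5*(j:ℝ)/4) ≤ ((2:ℝ)^m * (C2 * ((n:ℝ) * ((j:ℝ)+1))^(d-1))) / (2:ℝ)^(5*(j:ℝ)/4) := by
        gcongr
        exact hcm.trans (by gcongr)
    _ = C2 / c1 * ((2:ℝ)^n * (c1 * (n:ℝ)^(d-1))) * (((j:ℝ)+1)^(d-1) * ((2:ℝ)^j / (2:ℝ)^(5*(j:ℝ)/4))) := by
        rw [hm, pow_add, mul_pow]; field_simp
    _ ≤ C2 / c1 * cn * ((2*((j:ℝ)+1))^d * ((2:ℝ)^j / (2:ℝ)^(5*(j:ℝ)/4))) := by
        have hcn0 : 0 ≤ cn := le_trans (by positivity) hcn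
        gcongr
    _ = _ := by rw [e1]; unfold qq; ring

theorem poly_smul' {d n : ℕ} (c : ℝ) (a : (layer d n) × Fin 2 → ℝ) (x : Fin d → ℝ) :
    poly (c • a) x = (c : ℂ) * poly a x := by
  unfold poly
  rw [Finset.mul_sum]
  refine Finset.sum_congr rfl fun k _ => ?_
  simp only [Pi.smul_apply, smul_eq_mul]
  push_cast
  ring

theorem poly_sub' {d n : ℕ} (a b : (layer d n) × Fin 2 → ℝ) (x : Fin d → ℝ) :
    poly (a - b) x = poly a x - poly b x := by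
  unfold poly
  rw [← Finset.sum_sub_distrib]
  refine Finset.sum_congr rfl fun k _ => ?_
  simp only [Pi.sub_apply]
  push_cast
  ring

theorem tail_net (d : ℕ) (hd : 3 ≤ d) (r : ℝ) (hr : 2 ≤ r) (α : Fin d → ℝ) : ∃ C : ℝ, 0 < C ∧ ∀ J n : ℕ, 1 ≤ n →
    ∃ (M : ℕ) (h : Fin M → (Fin d → ℝ) → ℂ),
      (M:ℝ) ≤ Real.exp (C * ((layer d n).card + ((n:ℝ) + J + 1)^2)) ∧
      ∀ φ : (Fin d → ℝ) → ℂ, Integrable φ (TP d) → ∫ x, ‖φ x‖ ∂(TP d) ≤ 1 → ∃ l : Fin M, ∀ x,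
        ‖(∫ y, Fr r α (x - y) • φ y ∂(TP d)) - ∑ m ∈ Finset.range (n + J + 1), poly (Mact r α (FC d m φ)) x
          - h l x‖ ≤ C * (2:ℝ)^(-(r * n)) * ((n:ℝ) + 1) * (2:ℝ)^(-((J:ℝ)/2)) := by
  classical
  obtain ⟨C0, hC0, hnet, -⟩ := netQ_1inf d r (by linarith) α
  obtain ⟨c1, hc1, hlow⟩ := shp_lower d (by omega)
  obtain ⟨C2, hC2, hup⟩ := shp_upper d (by omega)
  have hQ0 : 0 ≤ ∑' j, qq d j := tsum_nonneg (qq_nonneg d)
  set Q := ∑' j, qq d j with hQ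
  have hcardup : ∀ m : ℕ, 1 ≤ m → ((layer d m).card : ℝ) ≤ (2:ℝ)^m * (C2 * (m:ℝ)^(d-1)) := by
    intro m hm
    rw [card_layer]; push_cast
    gcongr
    exact hup m hm
  have hcardlow : ∀ m : ℕ, 1 ≤ m → (2:ℝ)^m * (c1 * (m:ℝ)^(d-1)) ≤ ((layer d m).card : ℝ) := by
    intro m hm
    rw [card_layer]; push_cast
    gcongr
    exact hlow m hm
  refine ⟨C0 * (C2 / c1 * Q + 20) + (1 + C2) * (2:ℝ)^(r*d) * Q + 1, by positivity, fun J n hn => ?_⟩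
  have hsumm' : Summable (fun i : ℕ => qq d (i + (J + 1))) := (summable_nat_add_iff (J + 1)).mpr (qq_summable d)
  have hQtail : ∑' i : ℕ, qq d (i + (J + 1)) ≤ Q := by
    have h1 := (qq_summable d).sum_add_tsum_nat_add (J + 1)
    have h2 : 0 ≤ ∑ i ∈ Finset.range (J + 1), qq d i := Finset.sum_nonneg fun i _ => qq_nonneg d i
    rw [hQ]; linarith
  have hS : ∀ i : ℕ, ∃ S : Finset ((layer d (i + (n + J + 1))) × Fin 2 → ℝ),
      (S.card : ℝ) ≤ Real.exp (C0 * ((layer d (i + (n + J + 1))).card / (2:ℝ)^(5*((i + (J + 1) : ℕ):ℝ)/4) + (((i + (n + J + 1) : ℕ):ℝ) + 1))) ∧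
      ∀ a ∈ Vs r α (fun n => pol (ball d n)) (i + (n + J + 1)), ∃ s' ∈ S,
        supn (a - s') ≤ (((i + (n + J + 1) : ℕ):ℝ) + 1)^(((2:ℕ):ℝ)/2) * (2:ℝ)^(5*((i + (J + 1) : ℕ):ℝ)/4) := fun i =>
    hnet (i + (n + J + 1)) _ (Real.one_le_rpow one_le_two (by positivity))
  choose S hScard hSnet using hS
  obtain ⟨K, hK⟩ : ∃ K : ℕ, K = 4 * n + 2 * J := ⟨_, rfl⟩
  let e : (∀ i : Fin K, ↥(S i)) ≃ Fin (Fintype.card (∀ i : Fin K, ↥(S i))) := Fintype.equivFin _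
  refine ⟨Fintype.card (∀ i : Fin K, ↥(S i)), fun l x => ∑ i : Fin K,
    (((2:ℝ)^(r*d) * (2:ℝ)^(-(r*((((i : ℕ) + (n + J + 1) : ℕ)) : ℝ))) : ℝ) : ℂ) *
      poly ((e.symm l i : ↥(S i)) : (layer d ((i : ℕ) + (n + J + 1))) × Fin 2 → ℝ) x, ?_, ?_⟩
  · rw [Fintype.card_pi]
    push_cast
    have h1 : ∏ i : Fin K, ((Fintype.card ↥(S i) : ℕ) : ℝ) ≤ ∏ i : Fin K, Real.exp (C0 * ((layer d ((i:ℕ) + (n + J + 1))).card / (2:ℝ)^(5*(((i:ℕ) + (J + 1) : ℕ):ℝ)/4) + ((((i:ℕ) + (n + J + 1) : ℕ):ℝ) + 1))) := by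
      refine Finset.prod_le_prod (fun i _ => Nat.cast_nonneg _) fun i _ => ?_
      rw [Fintype.card_coe]
      exact hScard i
    refine h1.trans ?_
    rw [← Real.exp_sum]
    apply Real.exp_le_exp.mpr
    rw [← Finset.mul_sum, Finset.sum_add_distrib]
    have h2 : ∑ i : Fin K, ((layer d ((i:ℕ) + (n + J + 1))).card / (2:ℝ)^(5*(((i:ℕ) + (J + 1) : ℕ):ℝ)/4) : ℝ) ≤
        C2 / c1 * (layer d n).card * Q := by
      calc _ ≤ ∑ i : Fin K, C2 / c1 * (layer d n).card * qq d ((i:ℕ) + (J + 1)) := by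
            refine Finset.sum_le_sum fun i _ => ?_
            exact entB d (by omega) c1 C2 hc1 hC2 n ((i:ℕ) + (J + 1)) ((i:ℕ) + (n + J + 1)) hn (by omega) _ _
              (hcardup _ (by omega)) (hcardlow n hn)
        _ = C2 / c1 * (layer d n).card * ∑ i ∈ Finset.range K, qq d (i + (J + 1)) := by
            rw [← Finset.mul_sum, Fin.sum_univ_eq_sum_range (fun i => qq d (i + (J + 1))) K]
        _ ≤ C2 / c1 * (layer d n).card * Q := by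
            gcongr
            exact (hsumm'.sum_le_tsum _ fun i _ => qq_nonneg d _).trans hQtail
    have h3 : ∑ i : Fin K, ((((i:ℕ) + (n + J + 1) : ℕ):ℝ) + 1) ≤ 20 * ((n:ℝ) + J + 1)^2 := by
      calc _ ≤ ∑ i : Fin K, (5 * ((n:ℝ) + J + 1)) := by
            refine Finset.sum_le_sum fun i _ => ?_
            have hi : ((i:ℕ):ℝ) + 1 ≤ (K:ℝ) := by exact_mod_cast i.2
            have hK' : (K:ℝ) = 4 * n + 2 * J := by rw [hK]; push_cast; ring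
            have hJ0 : (0:ℝ) ≤ J := Nat.cast_nonneg _
            push_cast
            linarith
        _ = (K:ℝ) * (5 * ((n:ℝ) + J + 1)) := by simp
        _ ≤ (4 * ((n:ℝ) + J + 1)) * (5 * ((n:ℝ) + J + 1)) := by
            have hK' : (K:ℝ) = 4 * n + 2 * J := by rw [hK]; push_cast; ring
            have hJ0 : (0:ℝ) ≤ J := Nat.cast_nonneg _
            gcongr
            linarith
        _ = _ := by ring
    have hB0 : 0 ≤ (1 + C2) * (2:ℝ)^(r*d) * Q := by positivity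
    have hc0 : (0:ℝ) ≤ (layer d n).card := Nat.cast_nonneg _
    have hs0 : (0:ℝ) ≤ ((n:ℝ) + J + 1)^2 := by positivity
    have hK1 : 0 ≤ C2 / c1 * Q := by positivity
    calc C0 * (_ + _) ≤ C0 * (C2 / c1 * (layer d n).card * Q + 20 * ((n:ℝ) + J + 1)^2) := by
          gcongr
      _ ≤ C0 * ((C2 / c1 * Q + 20) * ((layer d n).card + ((n:ℝ) + J + 1)^2)) := by
          gcongr
          nlinarith
      _ ≤ _ := by nlinarith
  · intro φ hφ hφ1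
    have hM : MemLp φ 1 (TP d) := memLp_one_iff_integrable.mpr hφ
    have hL : eLpNorm φ 1 (TP d) ≤ 1 := by
      rw [eLpNorm_one_eq_lintegral_enorm, ← ofReal_integral_norm_eq_lintegral_enorm hφ]
      rw [← ENNReal.ofReal_one]
      exact ENNReal.ofReal_le_ofReal hφ1
    have hb : ∀ m, FC d m φ ∈ pol (ball d m) := fun m => FC_L1 φ hM hL
    have hs : ∀ i : ℕ, ∃ s' ∈ S i, supn (((2:ℝ)^(r * d) * (2:ℝ)^(-(r * ((i + (n + J + 1) : ℕ):ℝ))))⁻¹ • Mact r α (FC d (i + (n + J + 1)) φ) - s') ≤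
        (((i + (n + J + 1) : ℕ):ℝ) + 1)^(((2:ℕ):ℝ)/2) * (2:ℝ)^(5*((i + (J + 1) : ℕ):ℝ)/4) := fun i =>
      hSnet i _ ⟨FC d (i + (n + J + 1)) φ, hb _, rfl⟩
    choose s hsS hsb using hs
    refine ⟨e (fun i : Fin K => ⟨s i, hsS i⟩), fun x => ?_⟩
    simp only [Equiv.symm_apply_apply]
    rw [Fin.sum_univ_eq_sum_range (fun i => (((2:ℝ)^(r*d) * (2:ℝ)^(-(r*(((i + (n + J + 1) : ℕ)) : ℝ))) : ℝ) : ℂ) *
      poly (s i) x) K]
    have hser := conv_series d r (by linarith) α φ hφ x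
    have htail := (hasSum_nat_add_iff' (n + J + 1)).mpr hser
    have hfin : HasSum (fun i : ℕ => if i ∈ Finset.range K then (((2:ℝ)^(r*d) * (2:ℝ)^(-(r*(((i + (n + J + 1) : ℕ)) : ℝ))) : ℝ) : ℂ) *
        poly (s i) x else 0) (∑ i ∈ Finset.range K, (((2:ℝ)^(r*d) * (2:ℝ)^(-(r*(((i + (n + J + 1) : ℕ)) : ℝ))) : ℝ) : ℂ) *
        poly (s i) x) := by
      have h1 := hasSum_sum_of_ne_finset_zero (L := SummationFilter.unconditional ℕ) (s := Finset.range K) (f := fun i : ℕ => if i ∈ Finset.range K then (((2:ℝ)^(r*d) * (2:ℝ)^(-(r*(((i + (n + J + 1) : ℕ)) : ℝ))) : ℝ) : ℂ) *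
        poly (s i) x else 0) (fun i hi => if_neg hi)
      have h2 : ∑ i ∈ Finset.range K, (if i ∈ Finset.range K then (((2:ℝ)^(r*d) * (2:ℝ)^(-(r*(((i + (n + J + 1) : ℕ)) : ℝ))) : ℝ) : ℂ) *
        poly (s i) x else 0) = ∑ i ∈ Finset.range K, (((2:ℝ)^(r*d) * (2:ℝ)^(-(r*(((i + (n + J + 1) : ℕ)) : ℝ))) : ℝ) : ℂ) *
        poly (s i) x := Finset.sum_congr rfl fun i hi => if_pos hi
      rw [h2] at h1
      exact h1
    have hdiff := htail.sub hfin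
    set B := (1 + C2) * ((2:ℝ)^(r*d) * ((2:ℝ)^(-(r*n)) * ((n:ℝ)+1) * (2:ℝ)^(-((J:ℝ)/2)))) with hB
    have hB0 : 0 ≤ B := by positivity
    have hbound := hdiff.norm_le_of_bounded ((hsumm'.hasSum).mul_left B) (fun i => ?_)
    · refine hbound.trans ?_
      calc B * ∑' i : ℕ, qq d (i + (J + 1)) ≤ B * Q := by gcongr
        _ = ((1 + C2) * (2:ℝ)^(r*d) * Q) * ((2:ℝ)^(-(r*n)) * ((n:ℝ)+1) * (2:ℝ)^(-((J:ℝ)/2))) := by rw [hB]; ring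
        _ ≤ (C0 * (C2 / c1 * Q + 20) + (1 + C2) * (2:ℝ)^(r*d) * Q + 1) * ((2:ℝ)^(-(r*n)) * ((n:ℝ)+1) * (2:ℝ)^(-((J:ℝ)/2))) := by
            gcongr
            have : 0 ≤ C0 * (C2 / c1 * Q + 20) := by positivity
            linarith
        _ = _ := by ring
    · obtain ⟨f1, f2, f3, f4, f5, f6, f7⟩ := supn_facts d (i + (n + J + 1))
      have hκ : (0:ℝ) < (2:ℝ)^(r * d) * (2:ℝ)^(-(r * ((i + (n + J + 1) : ℕ):ℝ))) := by positivity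
      set κ := (2:ℝ)^(r * d) * (2:ℝ)^(-(r * ((i + (n + J + 1) : ℕ):ℝ))) with hκd
      by_cases hi : i ∈ Finset.range K
      · rw [if_pos hi]
        have h1 : poly (Mact r α (FC d (i + (n + J + 1)) φ)) x - (κ : ℂ) * poly (s i) x =
            (κ : ℂ) * poly (κ⁻¹ • Mact r α (FC d (i + (n + J + 1)) φ) - s i) x := by
          rw [poly_sub', poly_smul', mul_sub, ← mul_assoc]
          congr 1
          rw [← Complex.ofReal_mul, mul_inv_cancel₀ hκ.ne', Complex.ofReal_one, one_mul]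
        rw [h1, norm_mul, Complex.norm_real, Real.norm_of_nonneg hκ.le]
        have h2 : (((i + (n + J + 1) : ℕ):ℝ) + 1)^(((2:ℕ):ℝ)/2) = ((i + (n + J + 1) : ℕ):ℝ) + 1 := by
          norm_num
        have h3 := hsb i
        rw [h2] at h3
        calc κ * ‖poly (κ⁻¹ • Mact r α (FC d (i + (n + J + 1)) φ) - s i) x‖
            ≤ κ * ((((i + (n + J + 1) : ℕ):ℝ) + 1) * (2:ℝ)^(5*((i + (J + 1) : ℕ):ℝ)/4)) := by
              gcongr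
              exact (f5 _ x).trans h3
          _ ≤ (2:ℝ)^(r*d) * ((2:ℝ)^(-(r*n)) * ((n:ℝ)+1) * (2:ℝ)^(-((J:ℝ)/2))) * qq d (i + (J + 1)) :=
              nearB d (by omega) r hr n J (i + (J + 1)) (i + (n + J + 1)) (by omega) (by omega)
          _ ≤ B * qq d (i + (J + 1)) := by
              have := qq_nonneg d (i + (J + 1))
              gcongr
              rw [hB]
              have h9 : 0 ≤ (2:ℝ)^(r*d) * ((2:ℝ)^(-(r*n)) * ((n:ℝ)+1) * (2:ℝ)^(-((J:ℝ)/2))) := by positivity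
              nlinarith
      · rw [if_neg hi, sub_zero]
        have hi' : K ≤ i := by simpa using hi
        have h1 : ‖poly (Mact r α (FC d (i + (n + J + 1)) φ)) x‖ ≤ κ * (layer d (i + (n + J + 1))).card := by
          calc ‖poly (Mact r α (FC d (i + (n + J + 1)) φ)) x‖ ≤ supn (Mact r α (FC d (i + (n + J + 1)) φ)) := f5 _ x
            _ ≤ Real.sqrt ((layer d (i + (n + J + 1))).card) * eu (Mact r α (FC d (i + (n + J + 1)) φ)) := f7 _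
            _ ≤ Real.sqrt ((layer d (i + (n + J + 1))).card) * (κ * Real.sqrt ((layer d (i + (n + J + 1))).card)) := by
                gcongr
                refine (Mact_norm r (by linarith) α _).trans ?_
                gcongr
                exact pol_ball_eu d _ _ (hb _)
            _ = κ * (Real.sqrt ((layer d (i + (n + J + 1))).card) * Real.sqrt ((layer d (i + (n + J + 1))).card)) := by ring
            _ = _ := by rw [Real.mul_self_sqrt (Nat.cast_nonneg _)]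
        refine h1.trans ?_
        have h2 := farB d (by omega) r hr C2 hC2 n J (i + (J + 1)) (i + (n + J + 1)) (by omega) (by omega) (by omega)
          _ (hcardup (i + (n + J + 1)) (by omega))
        refine h2.trans ?_
        have h3 := qq_nonneg d (i + (J + 1))
        have h9 : 0 ≤ (2:ℝ)^(r*d) * ((2:ℝ)^(-(r*n)) * ((n:ℝ)+1) * (2:ℝ)^(-((J:ℝ)/2))) := by positivity
        have h10 : 0 ≤ (2:ℝ)^(r*d) * ((2:ℝ)^(-(r*n)) * ((n:ℝ)+1) * (2:ℝ)^(-((J:ℝ)/2))) * qq d (i + (J + 1)) := mul_nonneg h9 h3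
        rw [hB]
        nlinarith

end Sol_EX_tail_net

alias tail_net := Sol_EX_tail_net.tail_net

end HypVol
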