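import Pool.Agent.EntX.Defs2
import Pool.Agent.HypVol.L_TP_prob
import Pool.Agent.EntX.L_conv_facts
import Pool.Agent.EntX.L_conv_series
import Pool.Agent.EntX.L_cov_centres
import Pool.Agent.EntX.L_tail_net
import Pool.Agent.EntX.L_gap_vol
import Pool.Agent.EntX.L_bperp_lift
import Pool.Agent.HypVol.L_perp_lower
import Pool.Agent.HypVol.L_Mact_vol
import Pool.Agent.HypVol.L_card_layer
import Pool.Agent.HypVol.L_shp_lower
import Pool.Agent.HypVol.L_shp_upper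
open MeasureTheory Real ProbabilityTheory
open scoped ENNReal BigOperators

namespace HypVol
namespace Sol_EX_cover_all

theorem ca_finrank (d n : ℕ) :
    Module.finrank ℝ ((layer d n) × Fin 2 → ℝ) = 2 * (layer d n).card := by
  rw [Module.finrank_fintype_fun_eq_card, Fintype.card_prod,
    Fintype.card_coe, Fintype.card_fin, mul_comm (layer d n).card 2]

theorem ca_vol {d n : ℕ} (r : ℝ) (hr : 0 < r) (α : Fin d → ℝ) (ε : ℝ) (hε : 0 < ε)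
    (P : Set ((layer d n) × Fin 2 → ℝ)) (b : (layer d n) × Fin 2 → ℝ) :
    volume {a : (layer d n) × Fin 2 → ℝ | ε⁻¹ • (Mact r α ((2:ℝ)⁻¹ • a) + (-b)) ∈ P} ≤
      ENNReal.ofReal (((2:ℝ)^(r * n) * (2 * ε)) ^ (2 * (layer d n).card)) * volume P := by
  have e1 : {a : (layer d n) × Fin 2 → ℝ | ε⁻¹ • (Mact r α ((2:ℝ)⁻¹ • a) + (-b)) ∈ P} =
      (fun a : (layer d n) × Fin 2 → ℝ => (2:ℝ)⁻¹ • a) ⁻¹' ((Mact r α) ⁻¹'
        ((fun v => v + (-b)) ⁻¹' ((fun v : (layer d n) × Fin 2 → ℝ => ε⁻¹ • v) ⁻¹' P))) := rfl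
  rw [e1, Measure.addHaar_preimage_smul _ (by norm_num : (2:ℝ)⁻¹ ≠ 0), ca_finrank]
  have h2 := Mact_vol r hr α
    ((fun v => v + (-b)) ⁻¹' ((fun v : (layer d n) × Fin 2 → ℝ => ε⁻¹ • v) ⁻¹' P))
  rw [measure_preimage_add_right,
    Measure.addHaar_preimage_smul _ (inv_ne_zero hε.ne'), ca_finrank] at h2
  refine (mul_le_mul' le_rfl h2).trans (le_of_eq ?_)
  rw [← mul_assoc, ← mul_assoc, ← ENNReal.ofReal_mul (abs_nonneg _),
    ← ENNReal.ofReal_mul (by positivity)]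
  congr 2
  rw [inv_pow, inv_inv, inv_pow, inv_inv, abs_of_pos (by positivity), abs_of_pos (by positivity),
    mul_pow, mul_pow]
  ring

theorem ca_poly {d n : ℕ} (c : ℝ) (u v : (layer d n) × Fin 2 → ℝ) (x : Fin d → ℝ) :
    poly (c • (u + (-v))) x = (c:ℂ) * (poly u x - poly v x) := by
  unfold poly
  rw [← Finset.sum_sub_distrib, Finset.mul_sum]
  refine Finset.sum_congr rfl fun k _ => ?_
  simp only [Pi.smul_apply, Pi.add_apply, Pi.neg_apply, smul_eq_mul]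
  push_cast
  ring

theorem ca_cell {d n J : ℕ} (r : ℝ) (α : Fin d → ℝ) (φ φ0 : (Fin d → ℝ) → ℂ)
    (F F0 Fc H : (Fin d → ℝ) → ℂ) (ε ρ : ℝ) (hε : 0 < ε) (hρ : 0 ≤ ρ)
    (h1 : ∀ x, ‖F x - Fc x‖ ≤ 2 * ε) (h2 : ∀ x, ‖F0 x - Fc x‖ ≤ 2 * ε)
    (h3 : ∀ x, ‖F x - ∑ m ∈ Finset.range (n + J + 1), poly (Mact r α (FC d m φ)) x - H x‖ ≤ ρ)
    (h4 : ∀ x, ‖F0 x - ∑ m ∈ Finset.range (n + J + 1), poly (Mact r α (FC d m φ0)) x - H x‖ ≤ ρ) :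
    (4 * ε + 2 * ρ)⁻¹ • (Mact r α (FC d n φ) + (-Mact r α (FC d n φ0))) ∈ gapB d n (n + J) := by
  refine ⟨fun m => (4 * ε + 2 * ρ)⁻¹ • (Mact r α (FC d m φ) + (-Mact r α (FC d m φ0))), rfl,
    fun x => ?_⟩
  have hR : 0 < 4 * ε + 2 * ρ := by positivity
  simp only [ca_poly]
  rw [← Finset.mul_sum, Finset.sum_sub_distrib, norm_mul, Complex.norm_real, Real.norm_eq_abs,
    abs_of_pos (inv_pos.2 hR), inv_mul_le_iff₀ hR, mul_one]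
  have e : (∑ m ∈ Finset.range (n + J + 1), poly (Mact r α (FC d m φ)) x)
      - ∑ m ∈ Finset.range (n + J + 1), poly (Mact r α (FC d m φ0)) x =
      ((F x - Fc x) - (F0 x - Fc x)) -
      ((F x - ∑ m ∈ Finset.range (n + J + 1), poly (Mact r α (FC d m φ)) x - H x) -
       (F0 x - ∑ m ∈ Finset.range (n + J + 1), poly (Mact r α (FC d m φ0)) x - H x)) := by ring
  rw [e]
  have a1 := norm_sub_le ((F x - Fc x) - (F0 x - Fc x))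
      ((F x - ∑ m ∈ Finset.range (n + J + 1), poly (Mact r α (FC d m φ)) x - H x) -
       (F0 x - ∑ m ∈ Finset.range (n + J + 1), poly (Mact r α (FC d m φ0)) x - H x))
  have a2 := norm_sub_le (F x - Fc x) (F0 x - Fc x)
  have a3 := norm_sub_le
      (F x - ∑ m ∈ Finset.range (n + J + 1), poly (Mact r α (FC d m φ)) x - H x)
      (F0 x - ∑ m ∈ Finset.range (n + J + 1), poly (Mact r α (FC d m φ0)) x - H x)
  have b1 := h1 x
  have b2 := h2 x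
  have b3 := h3 x
  have b4 := h4 x
  linarith

theorem ca_real (N n k M d : ℕ) (hd : 3 ≤ d) (hn : 1 ≤ n) (hN : 1 ≤ N) (hk : k ≤ N)
    (cp Cg Ct R r X : ℝ) (hcp : 0 < cp) (hCg : 0 < Cg) (hR : 0 < R) (hX : 0 < X)
    (hM : (M:ℝ) ≤ Real.exp (Ct * N))
    (h : (cp * (Real.sqrt (2^n * (n:ℝ)^(d-2)))⁻¹)^N ≤ (2^k * (M:ℝ)) *
      (((2:ℝ)^(r*n) * (2*R)) * (Cg * X * (Real.sqrt (2^n * (n:ℝ)^d))⁻¹))^N) :
    cp / (4 * Real.exp Ct * Cg) * n * (2:ℝ)^(-(r*n)) * X⁻¹ ≤ R := by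
  have hn0 : (0 : ℝ) < n := by exact_mod_cast hn
  have hP0 : (0 : ℝ) < 2 ^ n * (n : ℝ) ^ (d - 2) := by positivity
  have hr0 : 0 < (2:ℝ)^(r * n) := Real.rpow_pos_of_pos two_pos _
  have hr1 : 0 < (2:ℝ)^(-(r * n)) := Real.rpow_pos_of_pos two_pos _
  have h8 : (2:ℝ)^(r * n) * (2:ℝ)^(-(r * n)) = 1 := by
    rw [← Real.rpow_add two_pos, add_neg_cancel, Real.rpow_zero]
  have hE : 0 < Real.exp Ct := Real.exp_pos _
  have hs0 : 0 < Real.sqrt (2^n * (n:ℝ)^(d-2)) := Real.sqrt_pos.2 hP0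
  have hsq : Real.sqrt (2^n * (n:ℝ)^d) = Real.sqrt (2^n * (n:ℝ)^(d-2)) * n := by
    have e : (2:ℝ)^n * (n:ℝ)^d = (2^n * (n:ℝ)^(d-2)) * (n:ℝ)^2 := by
      rw [mul_assoc, ← pow_add]
      congr 2
      omega
    rw [e, Real.sqrt_mul hP0.le, Real.sqrt_sq hn0.le]
  have h1 : (2:ℝ)^k * (M:ℝ) ≤ (2 * Real.exp Ct)^N := by
    rw [mul_pow]
    have a1 : (2:ℝ)^k ≤ 2^N := pow_le_pow_right₀ (by norm_num) hk
    have a2 : (M:ℝ) ≤ (Real.exp Ct)^N := by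
      rw [← Real.exp_nat_mul]
      refine hM.trans (le_of_eq ?_)
      congr 1
      ring
    exact mul_le_mul a1 a2 (by positivity) (by positivity)
  have h2 : (cp * (Real.sqrt (2^n * (n:ℝ)^(d-2)))⁻¹)^N ≤
      ((2 * Real.exp Ct) * (((2:ℝ)^(r*n) * (2*R)) * (Cg * X * (Real.sqrt (2^n * (n:ℝ)^d))⁻¹)))^N := by
    rw [mul_pow (2 * Real.exp Ct)]
    exact h.trans (mul_le_mul_of_nonneg_right h1 (by positivity))
  have h3 := le_of_pow_le_pow_left₀ (n := N) (by omega) (by positivity) h2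
  rw [hsq, mul_inv] at h3
  have h4 : cp * n ≤ 4 * Real.exp Ct * Cg * (2:ℝ)^(r*n) * R * X := by
    have h5 := mul_le_mul_of_nonneg_right h3 (by positivity : 0 ≤ Real.sqrt (2^n * (n:ℝ)^(d-2)) * n)
    have e1 : cp * (Real.sqrt (2^n * (n:ℝ)^(d-2)))⁻¹ * (Real.sqrt (2^n * (n:ℝ)^(d-2)) * n) = cp * n := by
      field_simp
    have e2 : 2 * Real.exp Ct * ((2:ℝ)^(r*n) * (2*R) * (Cg * X *
        ((Real.sqrt (2^n * (n:ℝ)^(d-2)))⁻¹ * (n:ℝ)⁻¹))) * (Real.sqrt (2^n * (n:ℝ)^(d-2)) * n) =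
        4 * Real.exp Ct * Cg * (2:ℝ)^(r*n) * R * X := by
      field_simp
      ring
    rw [e1, e2] at h5
    exact h5
  have h6 : cp / (4 * Real.exp Ct * Cg) * n * (2:ℝ)^(-(r*n)) * X⁻¹ =
      (cp * n) * ((2:ℝ)^(-(r*n)) / (4 * Real.exp Ct * Cg * X)) := by
    field_simp
  rw [h6]
  refine (mul_le_mul_of_nonneg_right h4 (by positivity)).trans (le_of_eq ?_)
  have h7 : 4 * Real.exp Ct * Cg * (2:ℝ)^(r*n) * R * X *
      ((2:ℝ)^(-(r*n)) / (4 * Real.exp Ct * Cg * X)) = R * ((2:ℝ)^(r * n) * (2:ℝ)^(-(r * n))) := by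
    field_simp
  rw [h7, h8, mul_one]

theorem cover_all (d : ℕ) (hd : 3 ≤ d) (r : ℝ) (hr : 2 ≤ r) (α : Fin d → ℝ) :
    ∃ (c : ℝ) (n1 : ℕ), 0 < c ∧ ∀ (n k : ℕ) (ε : ℝ), n1 ≤ n → 0 < ε → k ≤ 2 * (layer d n).card →
      Cov ⊤ k (ENNReal.ofReal ε) (MW ℂ d r 1 α) → c * (2:ℝ)^(-(r * n)) * n ≤ ε := by
  have hr1 : 1 < r := by linarith
  obtain ⟨cp, hcp, hP⟩ := perp_lower d hd
  obtain ⟨Cg, hCg, hG⟩ := gap_vol d hd
  obtain ⟨Ct, hCt, hT⟩ := tail_net d hd r hr α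
  obtain ⟨c1, hc1, hL⟩ := shp_lower d (by omega)
  obtain ⟨c2, hc2⟩ : ∃ c2 : ℝ, c2 = cp / (4 * Real.exp Ct * Cg) := ⟨_, rfl⟩
  have hc20 : 0 < c2 := by rw [hc2]; positivity
  have hq1 : (2:ℝ)^(-(1/4:ℝ)) < 1 := by
    apply Real.rpow_lt_one_of_one_lt_of_neg (by norm_num) (by norm_num)
  obtain ⟨J, hJ⟩ := exists_pow_lt_of_lt_one (show 0 < c2 / (8 * Ct) by positivity) hq1
  have hJe : ((2:ℝ)^(-(1/4:ℝ)))^J = (2:ℝ)^(-((J:ℝ)/4)) := by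
    rw [← Real.rpow_natCast, ← Real.rpow_mul (by norm_num)]
    congr 1
    ring
  rw [hJe, lt_div_iff₀ (by positivity)] at hJ
  have hY0 : 0 < (2:ℝ)^(-((J:ℝ)/4)) := Real.rpow_pos_of_pos two_pos _
  refine ⟨c2 * (2:ℝ)^(-((J:ℝ)/4)) / 8, max (J+2) ⌈4/c1⌉₊, by positivity, ?_⟩
  intro n k ε hn hε hk hcov
  have hnJ : J + 2 ≤ n := le_trans (le_max_left _ _) hn
  have hnc : 4 / c1 ≤ (n:ℝ) := Nat.ceil_le.1 (le_trans (le_max_right _ _) hn)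
  have hn1 : 1 ≤ n := by omega
  have hn0 : (0 : ℝ) < n := by exact_mod_cast hn1
  have hshp : 0 < shp d n := by
    have h1 := hL n hn1
    have h2 : 0 < c1 * (n:ℝ)^(d-1) := by positivity
    have h3 : (0 : ℝ) < shp d n := lt_of_lt_of_le h2 h1
    exact_mod_cast h3
  have hM0 : 1 ≤ (layer d n).card := by
    rw [card_layer]
    exact Nat.mul_pos (pow_pos two_pos n) hshp
  have hbig : ((n:ℝ) + J + 1)^2 ≤ ((layer d n).card : ℝ) := by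
    have a1 : (n:ℝ) + J + 1 ≤ 2 * n := by
      have : (J:ℝ) + 2 ≤ n := by exact_mod_cast hnJ
      linarith
    have a2 : ((n:ℝ) + J + 1)^2 ≤ 4 * (n:ℝ)^2 := by
      calc ((n:ℝ) + J + 1)^2 ≤ (2 * n)^2 := pow_le_pow_left₀ (by positivity) a1 2
        _ = 4 * (n:ℝ)^2 := by ring
    have a3 : 4 ≤ c1 * (2:ℝ)^n := by
      have b1 : (n:ℝ) ≤ 2^n := by exact_mod_cast (Nat.lt_two_pow_self (n := n)).le
      rw [div_le_iff₀ hc1] at hnc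
      nlinarith
    have a4 : (n:ℝ)^2 ≤ (n:ℝ)^(d-1) := pow_le_pow_right₀ (by exact_mod_cast hn1) (by omega)
    have a5 : c1 * (2 ^ n * (n : ℝ) ^ (d - 1)) ≤ ((layer d n).card : ℝ) := by
      rw [card_layer]
      push_cast
      have h1 := hL n hn1
      calc c1 * (2 ^ n * (n : ℝ) ^ (d - 1)) = 2 ^ n * (c1 * (n : ℝ) ^ (d - 1)) := by ring
        _ ≤ 2 ^ n * (shp d n : ℝ) := mul_le_mul_of_nonneg_left h1 (by positivity)
    calc ((n:ℝ) + J + 1)^2 ≤ 4 * (n:ℝ)^2 := a2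
      _ ≤ (c1 * (2:ℝ)^n) * (n:ℝ)^(d-1) := mul_le_mul a3 a4 (by positivity) (by positivity)
      _ = c1 * (2 ^ n * (n : ℝ) ^ (d - 1)) := by ring
      _ ≤ _ := a5
  obtain ⟨M, H, hM, hH⟩ := hT J n hn1
  obtain ⟨φc, hφc, hcc⟩ := cov_centres r hr1 α k ε hε hcov
  obtain ⟨ρ, hρ⟩ : ∃ ρ : ℝ, ρ = Ct * (2:ℝ)^(-(r * n)) * ((n:ℝ) + 1) * (2:ℝ)^(-((J:ℝ)/2)) := ⟨_, rfl⟩
  rw [← hρ] at hH
  have hw0 : 0 < (2:ℝ)^(-(r * n)) := Real.rpow_pos_of_pos two_pos _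
  have hρ0 : 0 < ρ := by
    rw [hρ]
    have : 0 < (2:ℝ)^(-((J:ℝ)/2)) := Real.rpow_pos_of_pos two_pos _
    positivity
  have hR0 : 0 < 4 * ε + 2 * ρ := by positivity
  obtain ⟨Z, hZ⟩ : ∃ Z : Fin (2^k) × Fin M → Set ((layer d n) × Fin 2 → ℝ), Z = fun p =>
    {a | ∃ φ : (Fin d → ℝ) → ℂ, FC d n φ = (2:ℝ)⁻¹ • a ∧
      (∀ x, ‖(∫ y, Fr r α (x - y) • φ y ∂(TP d)) - ∫ y, Fr r α (x - y) • φc p.1 y ∂(TP d)‖ ≤ 2 * ε) ∧
      (∀ x, ‖(∫ y, Fr r α (x - y) • φ y ∂(TP d)) - ∑ m ∈ Finset.range (n + J + 1),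
        poly (Mact r α (FC d m φ)) x - H p.2 x‖ ≤ ρ)} := ⟨_, rfl⟩
  have hcells : bperp d n ⊆ ⋃ p, Z p := by
    intro a ha
    obtain ⟨φ, hφ1, hφ2, hφ3⟩ := bperp_lift a ha 1 one_pos
    have hφI : Integrable φ (TP d) := memLp_one_iff_integrable.mp hφ1
    have hφn : ∫ x, ‖φ x‖ ∂(TP d) ≤ 1 := by
      rw [integral_norm_eq_lintegral_enorm hφI.aestronglyMeasurable]
      rw [eLpNorm_one_eq_lintegral_enorm] at hφ2
      exact ENNReal.toReal_le_of_le_ofReal zero_le_one (by simpa using hφ2)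
    obtain ⟨j, hj⟩ := hcc φ hφI hφn
    obtain ⟨l, hl⟩ := hH φ hφI hφn
    refine Set.mem_iUnion.2 ⟨(j, l), ?_⟩
    rw [hZ]
    refine ⟨φ, ?_, hj, hl⟩
    rw [hφ3]
    norm_num
  have hvolZ : ∀ p, volume (Z p) ≤ ENNReal.ofReal ((((2:ℝ)^(r * n) * (2 * (4 * ε + 2 * ρ))) *
      (Cg * (2:ℝ)^((J:ℝ)/4) * (Real.sqrt (2^n * (n:ℝ)^d))⁻¹)) ^ (2 * (layer d n).card)) := by
    intro p
    rcases (Z p).eq_empty_or_nonempty with he | ⟨a0, ha0⟩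
    · rw [he, measure_empty]
      exact zero_le
    · rw [hZ] at ha0
      obtain ⟨φ0, q1, q2, q3⟩ := ha0
      have hsub : Z p ⊆ {a : (layer d n) × Fin 2 → ℝ | (4 * ε + 2 * ρ)⁻¹ •
          (Mact r α ((2:ℝ)⁻¹ • a) + (-Mact r α (FC d n φ0))) ∈ gapB d n (n + J)} := by
        intro a ha
        rw [hZ] at ha
        obtain ⟨φ, p1, p2, p3⟩ := ha
        show (4 * ε + 2 * ρ)⁻¹ • (Mact r α ((2:ℝ)⁻¹ • a) + (-Mact r α (FC d n φ0))) ∈ gapB d n (n + J)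
        rw [← p1]
        exact ca_cell r α φ φ0 (fun x => ∫ y, Fr r α (x - y) • φ y ∂(TP d))
          (fun x => ∫ y, Fr r α (x - y) • φ0 y ∂(TP d))
          (fun x => ∫ y, Fr r α (x - y) • φc p.1 y ∂(TP d)) (H p.2) ε ρ hε hρ0.le p2 q2 p3 q3
      refine (measure_mono hsub).trans ?_
      refine (ca_vol r (by linarith) α _ hR0 _ _).trans ?_
      refine (mul_le_mul' le_rfl (hG J n hnJ)).trans ?_
      rw [← ENNReal.ofReal_mul (by positivity), ← mul_pow]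
  have h1 := (hP n hn1).trans ((measure_mono hcells).trans (measure_iUnion_fintype_le _ _))
  have h3 := h1.trans (Finset.sum_le_card_nsmul Finset.univ _ _ (fun j _ => hvolZ j))
  rw [Finset.card_univ, Fintype.card_prod, Fintype.card_fin, Fintype.card_fin, nsmul_eq_mul] at h3
  have h4 : ((2 ^ k * M : ℕ) : ℝ≥0∞) = ENNReal.ofReal ((2 : ℝ) ^ k * (M:ℝ)) := by
    rw [← ENNReal.ofReal_natCast]
    congr 1
    push_cast
    ring
  rw [h4, ← ENNReal.ofReal_mul (by positivity), ENNReal.ofReal_le_ofReal_iff (by positivity)] at h3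
  have h5 := ca_real (2 * (layer d n).card) n k M d hd hn1 (by omega) hk cp Cg Ct
    (4 * ε + 2 * ρ) r ((2:ℝ)^((J:ℝ)/4)) hcp hCg hR0 (Real.rpow_pos_of_pos two_pos _) (by
      refine hM.trans (Real.exp_le_exp.2 ?_)
      push_cast
      nlinarith) h3
  rw [← hc2, ← Real.rpow_neg two_pos.le, hρ] at h5
  have hsq : (2:ℝ)^(-((J:ℝ)/2)) = (2:ℝ)^(-((J:ℝ)/4)) * (2:ℝ)^(-((J:ℝ)/4)) := by
    rw [← Real.rpow_add two_pos]
    congr 1
    ring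
  rw [hsq] at h5
  obtain ⟨Y, hY⟩ : ∃ Y : ℝ, Y = (2:ℝ)^(-((J:ℝ)/4)) := ⟨_, rfl⟩
  obtain ⟨w, hw⟩ : ∃ w : ℝ, w = (2:ℝ)^(-(r * n)) := ⟨_, rfl⟩
  rw [← hY, ← hw] at h5
  rw [← hY] at hJ hY0
  rw [← hw] at hw0
  rw [← hY, ← hw]
  have hn1' : (1:ℝ) ≤ n := by exact_mod_cast hn1
  
  have g1 : 2 * (Ct * w * ((n:ℝ) + 1) * (Y * Y)) ≤ (c2 / 2) * (n * w * Y) := by
    have e1 : 2 * (Ct * w * ((n:ℝ) + 1) * (Y * Y)) = (w * Y) * (Y * (2 * Ct) * (n + 1)) := by ring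
    have e2 : (c2 / 2) * (n * w * Y) = (w * Y) * ((c2 / 2) * n) := by ring
    rw [e1, e2]
    apply mul_le_mul_of_nonneg_left _ (by positivity)
    have e3 : Y * (2 * Ct) * (n + 1) ≤ Y * (2 * Ct) * (2 * n) := by
      apply mul_le_mul_of_nonneg_left _ (by positivity)
      linarith
    have e4 : Y * (2 * Ct) * (2 * n) = (Y * (8 * Ct)) * (n / 2) := by ring
    have e5 : (Y * (8 * Ct)) * (n / 2) ≤ c2 * (n / 2) := mul_le_mul_of_nonneg_right hJ.le (by positivity)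
    linarith
  nlinarith

end Sol_EX_cover_all

alias cover_all := Sol_EX_cover_all.cover_all

end HypVol
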