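import Pool.Agent.EntX.Defs
import Pool.Agent.HypVol.L_entropy_C
open MeasureTheory Real ProbabilityTheory
open scoped ENNReal BigOperators

namespace HypVol
namespace Sol_EX_Linf_lower

theorem Linf_lower (d : ℕ) (hd : 3 ≤ d) (p r : ℝ) (hp : 1 ≤ p) (hr : 1 < r) (α : Fin d → ℝ) :
    ∃ c : ℝ, 0 < c ∧ ∀ (k : ℕ) (ε : ℝ), 2 ≤ k → 0 < ε →
      Cov ⊤ k (ENNReal.ofReal ε) (MW ℂ d r (ENNReal.ofReal p) α) → c * Rk d r k ≤ ε := by
  obtain ⟨c, hc, h⟩ := entropy_lower_complex d hd p r hp hr α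
  refine ⟨c, hc, fun k ε hk hε hcov => ?_⟩
  obtain ⟨cc, _, hcc⟩ := hcov
  have h1 := h k ε hk hε ⟨cc, hcc⟩
  unfold Rk
  rw [← mul_assoc]
  exact h1

end Sol_EX_Linf_lower

alias Linf_lower := Sol_EX_Linf_lower.Linf_lower

end HypVol
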