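import Pool.Agent.EntX.Defs
import Pool.Agent.EntX.L_cover_inf_F
import Pool.Agent.EntX.L_ent_numH
open MeasureTheory Real ProbabilityTheory
open scoped ENNReal BigOperators

namespace HypVol
namespace Sol_EX_Linf_lower_F

theorem Linf_lower_F (d : ℕ) (hd : 3 ≤ d) (p r : ℝ) (hp : 1 ≤ p) (hr : 1/2 < r) (α : Fin d → ℝ) :
    ∃ c : ℝ, 0 < c ∧ ∀ (k : ℕ) (ε : ℝ), 2 ≤ k → 0 < ε →
      Cov ⊤ k (ENNReal.ofReal ε) (WF d r (ENNReal.ofReal p) α) → c * Rk d r k ≤ ε := by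
  obtain ⟨c0, hc0, h0⟩ := cover_inf_F d hd p r hp hr α
  obtain ⟨c, hc, h1⟩ := ent_numH d hd r c0 hr hc0
  refine ⟨c, hc, ?_⟩
  intro k ε hk hε hcov
  obtain ⟨n, hn, h2⟩ := h1 k hk
  exact h2.trans (h0 n k ε hn hε hcov)

end Sol_EX_Linf_lower_F

alias Linf_lower_F := Sol_EX_Linf_lower_F.Linf_lower_F

end HypVol
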