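import Pool.Agent.EntX.Defs
import Pool.Agent.HypVol.L_TP_prob
import Pool.Agent.EntX.L_conv_facts
open MeasureTheory Real ProbabilityTheory
open scoped ENNReal BigOperators

namespace HypVol
namespace Sol_EX_MW_mono

theorem MW_mono {d : ℕ} (r : ℝ) (α : Fin d → ℝ) (p p' q q' : ℝ≥0∞) (hp : p ≤ p') (hq : q' ≤ q) (k : ℕ)
    (ε : ℝ≥0∞) (r1 : 1 < r) (hp1 : 1 ≤ p) (h : Cov q k ε (MW ℂ d r p α)) : Cov q' k ε (MW ℂ d r p' α) := by
  haveI := TP_prob d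
  obtain ⟨c, hc, hcov⟩ := h
  refine ⟨c, fun j => (hc j).mono_exponent hq, ?_⟩
  intro f hf
  obtain ⟨φ, hφ, hφ1, hfe⟩ := hf
  have hφp : MemLp φ p (TP d) := hφ.mono_exponent hp
  have hφp1 : eLpNorm φ p (TP d) ≤ 1 :=
    le_trans (eLpNorm_le_eLpNorm_of_exponent_le hp hφ.aestronglyMeasurable) hφ1
  have hfm : f ∈ MW ℂ d r p α := ⟨φ, hφp, hφp1, hfe⟩
  obtain ⟨j, hj⟩ := hcov f hfm
  refine ⟨j, le_trans ?_ hj⟩
  obtain ⟨_, B, _, _, hB⟩ := conv_facts (𝕜 := ℂ) r r1 α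
  have hcont : Continuous f := by
    rw [hfe]
    exact (hB φ (hφp.integrable hp1)).1
  exact eLpNorm_le_eLpNorm_of_exponent_le hq
    (hcont.aestronglyMeasurable.sub (hc j).aestronglyMeasurable)

end Sol_EX_MW_mono

alias MW_mono := Sol_EX_MW_mono.MW_mono

end HypVol
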