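import Pool.Agent.EntX.Defs
import Pool.Agent.HypVol.L_fc_poly
import Pool.Agent.HypVol.L_TP_prob
import Pool.Agent.EntX.L_supn_facts
open MeasureTheory Real ProbabilityTheory
open scoped ENNReal BigOperators

namespace HypVol
namespace Sol_EX_nq_facts

theorem nq_aux_add {d n : ℕ} (a b : (layer d n) × Fin 2 → ℝ) : poly (a + b) = poly a + poly b := by
  funext x
  simp only [poly, Pi.add_apply]
  rw [← Finset.sum_add_distrib]
  apply Finset.sum_congr rfl
  intro k _
  push_cast
  ring

theorem nq_aux_smul {d n : ℕ} (c : ℝ) (a : (layer d n) × Fin 2 → ℝ) :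
    poly (c • a) = (c : ℂ) • poly a := by
  funext x
  simp only [poly, Pi.smul_apply, smul_eq_mul]
  rw [Finset.mul_sum]
  apply Finset.sum_congr rfl
  intro k _
  push_cast
  ring

theorem nq_aux_cont {d n : ℕ} (a : (layer d n) × Fin 2 → ℝ) : Continuous (poly a) := by
  unfold poly
  fun_prop

theorem nq_facts (d n : ℕ) (q : ℝ) (hq : 1 ≤ q) :
    (∀ a b : (layer d n) × Fin 2 → ℝ, nq q (a + b) ≤ nq q a + nq q b) ∧
    (∀ (c : ℝ) (a : (layer d n) × Fin 2 → ℝ), nq q (c • a) = |c| * nq q a) ∧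
    Continuous (nq q : ((layer d n) × Fin 2 → ℝ) → ℝ) ∧
    (∀ a : (layer d n) × Fin 2 → ℝ, a ≠ 0 → 0 < nq q a) ∧
    (∀ a : (layer d n) × Fin 2 → ℝ, eLpNorm (poly a) (ENNReal.ofReal q) (TP d) = ENNReal.ofReal (nq q a)) ∧
    (∀ a : (layer d n) × Fin 2 → ℝ, nq q a ≤ supn a) := by
  have := TP_prob d
  obtain ⟨s1, s2, s3, s4, s5, s6, s7⟩ := supn_facts d n
  have hq1 : (1:ℝ≥0∞) ≤ ENNReal.ofReal q := ENNReal.one_le_ofReal.2 hq
  have hq0 : ENNReal.ofReal q ≠ 0 := (lt_of_lt_of_le zero_lt_one hq1).ne'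
  have hm : ∀ a : (layer d n) × Fin 2 → ℝ, MemLp (poly a) (ENNReal.ofReal q) (TP d) := fun a =>
    MemLp.of_bound (nq_aux_cont a).aestronglyMeasurable (supn a) (Filter.Eventually.of_forall (s5 a))
  have hfin : ∀ a : (layer d n) × Fin 2 → ℝ, eLpNorm (poly a) (ENNReal.ofReal q) (TP d) ≠ ⊤ :=
    fun a => (hm a).2.ne
  have hadd : ∀ a b : (layer d n) × Fin 2 → ℝ, nq q (a + b) ≤ nq q a + nq q b := by
    intro a b
    unfold nq
    rw [nq_aux_add, ← ENNReal.toReal_add (hfin a) (hfin b)]
    exact ENNReal.toReal_mono (ENNReal.add_ne_top.2 ⟨hfin a, hfin b⟩)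
      (eLpNorm_add_le (hm a).1 (hm b).1 hq1)
  have hsm : ∀ (c : ℝ) (a : (layer d n) × Fin 2 → ℝ), nq q (c • a) = |c| * nq q a := by
    intro c a
    unfold nq
    rw [nq_aux_smul, eLpNorm_const_smul, ENNReal.toReal_mul]
    simp
  have hle : ∀ a : (layer d n) × Fin 2 → ℝ, nq q a ≤ supn a := by
    intro a
    unfold nq
    have h := eLpNorm_le_of_ae_bound (p := ENNReal.ofReal q) (μ := TP d)
      (Filter.Eventually.of_forall (s5 a))
    rw [measure_univ, ENNReal.one_rpow, one_mul] at h
    calc _ ≤ (ENNReal.ofReal (supn a)).toReal := ENNReal.toReal_mono ENNReal.ofReal_ne_top h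
      _ = supn a := ENNReal.toReal_ofReal ((norm_nonneg _).trans (s5 a 0))
  have hof : ∀ a : (layer d n) × Fin 2 → ℝ,
      eLpNorm (poly a) (ENNReal.ofReal q) (TP d) = ENNReal.ofReal (nq q a) := by
    intro a
    unfold nq
    rw [ENNReal.ofReal_toReal (hfin a)]
  refine ⟨hadd, hsm, ?_, ?_, hof, hle⟩
  · rw [continuous_iff_continuousAt]
    intro a
    unfold ContinuousAt
    rw [tendsto_iff_dist_tendsto_zero]
    have hz : supn (0 : (layer d n) × Fin 2 → ℝ) = 0 := by
      have := s2 0 (0 : (layer d n) × Fin 2 → ℝ)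
      simpa using this
    have hlim : Filter.Tendsto (fun b : (layer d n) × Fin 2 → ℝ => supn (b - a)) (nhds a) (nhds 0) := by
      have h1 : Continuous (fun b : (layer d n) × Fin 2 → ℝ => supn (b - a)) :=
        s3.comp (continuous_id.sub continuous_const)
      have h2 := h1.tendsto a
      simpa [hz] using h2
    refine squeeze_zero (fun _ => dist_nonneg) (fun b => ?_) hlim
    rw [Real.dist_eq, abs_le]
    have h1 := hadd (b - a) a
    have h2 := hadd (a - b) b
    rw [sub_add_cancel] at h1 h2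
    have h3 := hle (b - a)
    have h4 : nq q (a - b) = nq q (b - a) := by
      have := hsm (-1) (b - a)
      rw [neg_one_smul, neg_sub] at this
      simpa using this
    constructor <;> linarith
  · intro a ha
    by_contra hcon
    apply ha
    have hn : 0 ≤ nq q a := ENNReal.toReal_nonneg
    have h0 : nq q a = 0 := le_antisymm (not_lt.1 hcon) hn
    have h1 : eLpNorm (poly a) (ENNReal.ofReal q) (TP d) = 0 := by rw [hof, h0]; simp
    rw [eLpNorm_eq_zero_iff (hm a).1 hq0] at h1
    have h2 : ∀ k : layer d n, a (k, 0) = 0 ∧ a (k, 1) = 0 := by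
      intro k
      have h3 := fc_poly a k
      have h4 : fc (poly a) k.1 = 0 := by
        unfold fc
        rw [integral_congr_ae (g := fun _ => (0:ℂ))]
        · simp
        · filter_upwards [h1] with x hx
          rw [hx]
          simp
      rw [h4] at h3
      have h5 := congrArg Complex.re h3
      have h6 := congrArg Complex.im h3
      simp at h5 h6
      exact ⟨h5.symm, h6.symm⟩
    funext i
    obtain ⟨k, e⟩ := i
    rcases Fin.exists_fin_two.1 ⟨e, rfl⟩ with he | he
    · subst he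
      exact (h2 k).1
    · subst he
      exact (h2 k).2

end Sol_EX_nq_facts

alias nq_facts := Sol_EX_nq_facts.nq_facts

end HypVol
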