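import Pool.Agent.EntX.Defs
import Pool.Agent.HypVol.L_fc_poly
import Pool.Agent.HypVol.L_TP_prob
import Pool.Agent.EntX.L_FC_pair
open MeasureTheory Real ProbabilityTheory
open scoped ENNReal BigOperators

namespace HypVol
namespace Sol_EX_parseval

theorem parseval {d n : ℕ} (b : (layer d n) × Fin 2 → ℝ) :
    eLpNorm (poly b) 2 (TP d) = ENNReal.ofReal (eu b) := by
  have := TP_prob d
  have hc : Continuous (poly b) := by
    unfold poly
    fun_prop
  have hbd : ∀ x, ‖poly b x‖ ≤ ∑ k : layer d n, ‖(b (k, 0) : ℂ) + (b (k, 1) : ℂ) * Complex.I‖ := by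
    intro x
    unfold poly
    refine (norm_sum_le _ _).trans (Finset.sum_le_sum fun k _ => ?_)
    rw [norm_mul, mul_comm Complex.I, Complex.norm_exp_ofReal_mul_I, mul_one]
  have hm : MemLp (poly b) 2 (TP d) :=
    MemLp.of_bound hc.aestronglyMeasurable _ (Filter.Eventually.of_forall hbd)
  have hi : Integrable (poly b) (TP d) := hm.integrable (by norm_num)
  have h1 := FC_pair (poly b) hi b
  have h2 : ∀ x, poly b x * (starRingEnd ℂ) (poly b x) = ((‖poly b x‖ ^ 2 : ℝ) : ℂ) := by
    intro x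
    rw [Complex.mul_conj, Complex.normSq_eq_norm_sq]
  have h3 : ∑ i, b i * FC d n (poly b) i = ∑ i, b i ^ 2 := by
    refine Finset.sum_congr rfl fun i _ => ?_
    obtain ⟨k, e⟩ := i
    have h4 : FC d n (poly b) (k, e) = b (k, e) := by
      unfold FC
      dsimp only
      rw [fc_poly b k]
      fin_cases e
      · simp
      · simp
    rw [h4, sq]
  have h5 : ∫ x, ‖poly b x‖ ^ 2 ∂(TP d) = ∑ i, b i ^ 2 := by
    rw [← h3, ← h1]
    simp_rw [h2]
    rw [integral_complex_ofReal, Complex.ofReal_re]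
  rw [hm.eLpNorm_eq_integral_rpow_norm (by norm_num) (by norm_num)]
  congr 1
  unfold eu
  rw [Real.sqrt_eq_rpow, ← h5]
  norm_num

end Sol_EX_parseval

alias parseval := Sol_EX_parseval.parseval

end HypVol
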