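import Pool.Agent.EntX.Defs
import Pool.Agent.HypVol.L_TP_prob
import Pool.Agent.EntX.L_parseval
import Pool.Agent.EntX.L_nq_facts
import Pool.Agent.EntX.L_supn_facts
open MeasureTheory Real ProbabilityTheory
open scoped ENNReal BigOperators

namespace HypVol
namespace Sol_EX_interp_q

theorem interp_q (d n : ℕ) (q : ℝ) (hq : 2 < q) (a : (layer d n) × Fin 2 → ℝ) :
    nq q a ≤ (eu a)^(2/q) * (supn a)^(1 - 2/q) := by
  have hq0 : 0 < q := by linarith
  obtain ⟨-, -, -, -, hle, -, -⟩ := supn_facts d n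
  have hS0 : 0 ≤ supn a := (norm_nonneg _).trans (hle a 0)
  have hE0 : 0 ≤ eu a := Real.sqrt_nonneg _
  have hqn : ENNReal.ofReal q ≠ 0 := (ENNReal.ofReal_pos.2 hq0).ne'
  have hqt : (ENNReal.ofReal q).toReal = q := ENNReal.toReal_ofReal hq0.le
  have h2q : 0 ≤ 1 - 2 / q := by
    rw [sub_nonneg, div_le_one hq0]
    exact hq.le
  have h2 : ∫⁻ x, ‖poly a x‖ₑ ^ (2:ℝ) ∂(TP d) = ENNReal.ofReal (eu a) ^ (2:ℝ) := by
    have h := parseval a
    rw [eLpNorm_eq_lintegral_rpow_enorm_toReal (by norm_num) (by norm_num)] at h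
    rw [← h, ← ENNReal.rpow_mul]
    simp
  have hpt : ∀ x, ‖poly a x‖ₑ ^ q ≤ ENNReal.ofReal (supn a) ^ (q - 2) * ‖poly a x‖ₑ ^ (2:ℝ) := by
    intro x
    have h1 : ‖poly a x‖ₑ ≤ ENNReal.ofReal (supn a) := by
      rw [← ofReal_norm]
      exact ENNReal.ofReal_le_ofReal (hle a x)
    calc ‖poly a x‖ₑ ^ q = ‖poly a x‖ₑ ^ (q - 2) * ‖poly a x‖ₑ ^ (2:ℝ) := by
          rw [← ENNReal.rpow_add_of_nonneg _ _ (by linarith) (by norm_num)]
          congr 1
          ring
      _ ≤ ENNReal.ofReal (supn a) ^ (q - 2) * ‖poly a x‖ₑ ^ (2:ℝ) := by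
          gcongr
  have hmain : eLpNorm (poly a) (ENNReal.ofReal q) (TP d) ≤
      ENNReal.ofReal ((eu a)^(2/q) * (supn a)^(1 - 2/q)) := by
    rw [eLpNorm_eq_lintegral_rpow_enorm_toReal hqn ENNReal.ofReal_ne_top, hqt]
    calc (∫⁻ x, ‖poly a x‖ₑ ^ q ∂(TP d)) ^ (1 / q)
        ≤ (∫⁻ x, ENNReal.ofReal (supn a) ^ (q - 2) * ‖poly a x‖ₑ ^ (2:ℝ) ∂(TP d)) ^ (1 / q) := by
          refine ENNReal.rpow_le_rpow (lintegral_mono fun x => hpt x) (by positivity)
      _ = (ENNReal.ofReal (supn a) ^ (q - 2) * ENNReal.ofReal (eu a) ^ (2:ℝ)) ^ (1 / q) := by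
          rw [lintegral_const_mul' _ _
            (ENNReal.rpow_ne_top_of_nonneg (by linarith) ENNReal.ofReal_ne_top), h2]
      _ = ENNReal.ofReal ((eu a)^(2/q) * (supn a)^(1 - 2/q)) := by
          rw [ENNReal.mul_rpow_of_nonneg _ _ (by positivity), ← ENNReal.rpow_mul,
            ← ENNReal.rpow_mul, ENNReal.ofReal_mul (by positivity),
            ENNReal.ofReal_rpow_of_nonneg hS0 (by
              have : 0 ≤ q - 2 := by linarith
              positivity),
            ENNReal.ofReal_rpow_of_nonneg hE0 (by positivity), mul_comm]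
          congr 3
          · ring
          · field_simp
  exact ENNReal.toReal_le_of_le_ofReal (by positivity) hmain

end Sol_EX_interp_q

alias interp_q := Sol_EX_interp_q.interp_q

end HypVol
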