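import Pool.Agent.EntX.Defs
import Pool.Agent.EntX.L_holder_FC
import Pool.Agent.EntX.L_parseval
import Pool.Agent.EntX.L_interp_q
import Pool.Agent.EntX.L_supn_facts
import Pool.Agent.EntX.L_nq_facts
import Pool.Agent.HypVol.L_TP_prob
open MeasureTheory Real ProbabilityTheory
open scoped ENNReal BigOperators

namespace HypVol
namespace Sol_EX_VP_eu

theorem VP_eu (d n : ℕ) (p : ℝ) (hp1 : 1 < p) (hp2 : p < 2) (a : (layer d n) × Fin 2 → ℝ) (ha : a ∈ VP d p n) :
    eu a ≤ ((layer d n).card : ℝ)^(1/p - 1/2) := by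
  obtain ⟨φ, hφ, hφ1, rfl⟩ := ha
  set a := FC d n φ with ha
  have hp0 : 0 < p := by linarith
  set q : ℝ := p / (p - 1) with hqdef
  have hpq : p.HolderConjugate q := Real.HolderConjugate.conjExponent hp1
  have hinv : q⁻¹ = 1 - p⁻¹ := by
    have := hpq.inv_add_inv_eq_one
    linarith
  have hq2 : 2 < q := by
    rw [hqdef, lt_div_iff₀ (by linarith)]
    linarith
  have hq0 : 0 < q := by linarith
  set N : ℝ := ((layer d n).card : ℝ) with hN
  have hN0 : 0 ≤ N := Nat.cast_nonneg _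
  have he0 : 0 ≤ eu a := Real.sqrt_nonneg _
  rcases he0.eq_or_lt with he | he
  · rw [← he]; exact Real.rpow_nonneg hN0 _
  · have hsq : (eu a) ^ 2 = ∑ i, a i ^ 2 := by
      unfold eu
      exact Real.sq_sqrt (Finset.sum_nonneg (fun i _ => sq_nonneg _))
    have h1 := holder_FC (n := n) p q hpq φ hφ a
    have h2 : ∑ i, a i * FC d n φ i = (eu a) ^ 2 := by
      rw [hsq]
      apply Finset.sum_congr rfl
      intro i _
      rw [← ha]; ring
    rw [h2, abs_of_nonneg (sq_nonneg _)] at h1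
    have h3 : (eLpNorm φ (ENNReal.ofReal p) (TP d)).toReal ≤ 1 := by
      have := ENNReal.toReal_mono ENNReal.one_ne_top hφ1
      simpa using this
    have h4 : (eu a) ^ 2 ≤ nq q a := by
      refine h1.trans ?_
      calc (eLpNorm φ (ENNReal.ofReal p) (TP d)).toReal * (eLpNorm (poly a) (ENNReal.ofReal q) (TP d)).toReal
          ≤ 1 * (eLpNorm (poly a) (ENNReal.ofReal q) (TP d)).toReal :=
            mul_le_mul_of_nonneg_right h3 ENNReal.toReal_nonneg
        _ = nq q a := by rw [one_mul]; rfl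
    have hsf := supn_facts d n
    have hs0 : 0 ≤ supn a := (norm_nonneg _).trans (hsf.2.2.2.2.1 a 0)
    have hs1 : supn a ≤ Real.sqrt N * eu a := hsf.2.2.2.2.2.2 a
    have hexp : 0 ≤ 1 - 2 / q := by
      have : 2 / q ≤ 1 := by rw [div_le_one hq0]; exact hq2.le
      linarith
    have h5 : nq q a ≤ (eu a) * (Real.sqrt N) ^ (1 - 2 / q) := by
      refine (interp_q d n q hq2 a).trans ?_
      calc (eu a)^(2/q) * (supn a)^(1 - 2/q) ≤ (eu a)^(2/q) * (Real.sqrt N * eu a)^(1 - 2/q) := by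
            apply mul_le_mul_of_nonneg_left _ (Real.rpow_nonneg he0 _)
            exact Real.rpow_le_rpow hs0 hs1 hexp
        _ = (eu a)^(2/q) * ((Real.sqrt N)^(1 - 2/q) * (eu a)^(1 - 2/q)) := by
            rw [Real.mul_rpow (Real.sqrt_nonneg _) he0]
        _ = ((eu a)^(2/q) * (eu a)^(1 - 2/q)) * (Real.sqrt N)^(1 - 2/q) := by ring
        _ = (eu a) * (Real.sqrt N) ^ (1 - 2 / q) := by
            rw [← Real.rpow_add he]
            have : 2 / q + (1 - 2 / q) = 1 := by ring
            rw [this, Real.rpow_one]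
    have h6 : eu a ≤ (Real.sqrt N) ^ (1 - 2 / q) := by
      have h7 : eu a * eu a ≤ eu a * (Real.sqrt N) ^ (1 - 2 / q) := by
        have := h4.trans h5
        rwa [sq] at this
      exact le_of_mul_le_mul_left h7 he
    refine h6.trans (le_of_eq ?_)
    rw [Real.sqrt_eq_rpow, ← Real.rpow_mul hN0]
    congr 1
    rw [div_eq_mul_inv 2 q, hinv]
    ring

end Sol_EX_VP_eu

alias VP_eu := Sol_EX_VP_eu.VP_eu

end HypVol
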