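import Pool.Agent.EntX.Defs
import Pool.Agent.HypVol.L_TP_prob
open MeasureTheory Real ProbabilityTheory
open scoped ENNReal BigOperators

namespace HypVol
namespace Sol_EX_WF_mono

theorem WF_mono {d : ℕ} (r : ℝ) (α : Fin d → ℝ) (p p' q q' : ℝ≥0∞) (hp1 : 1 ≤ p) (hp : p ≤ p') (hq : q' ≤ q)
    (k : ℕ) (ε : ℝ≥0∞) (h : Cov q k ε (WF d r p α)) : Cov q' k ε (WF d r p' α) := by
  haveI := TP_prob d
  obtain ⟨c, hc, hf⟩ := h
  refine ⟨c, fun j => (hc j).mono_exponent hq, ?_⟩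
  rintro f ⟨f1, φ, hφ, hφ1, hk⟩
  obtain ⟨j, hj⟩ := hf f ⟨f1, φ, hφ.mono_exponent hp,
    (eLpNorm_le_eLpNorm_of_exponent_le hp hφ.aestronglyMeasurable).trans hφ1, hk⟩
  refine ⟨j, (eLpNorm_le_eLpNorm_of_exponent_le hq ?_).trans hj⟩
  exact f1.aestronglyMeasurable.sub (hc j).aestronglyMeasurable

end Sol_EX_WF_mono

alias WF_mono := Sol_EX_WF_mono.WF_mono

end HypVol
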