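import Pool.Agent.EntX.Defs
import Pool.Agent.EntX.L_FC_pair
import Pool.Agent.EntX.L_parseval
import Pool.Agent.EntX.L_holder_FC
import Pool.Agent.HypVol.L_TP_prob
open MeasureTheory Real ProbabilityTheory
open scoped ENNReal BigOperators

namespace HypVol
namespace Sol_EX_bessel

theorem bessel {d n : ℕ} (φ : (Fin d → ℝ) → ℂ) (hφ : MemLp φ 2 (TP d)) (h : eLpNorm φ 2 (TP d) ≤ 1) :
    FC d n φ ∈ V2 d n := by
  set a := FC d n φ with ha
  have h2 : ENNReal.ofReal 2 = 2 := by norm_num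
  have hH := holder_FC (d := d) (n := n) 2 2
    (by rw [Real.holderConjugate_iff]; norm_num) φ (by rw [h2]; exact hφ) a
  rw [h2, parseval] at hH
  have h1 : (eLpNorm φ 2 (TP d)).toReal ≤ 1 := by
    have := ENNReal.toReal_mono ENNReal.one_ne_top h
    simpa using this
  have hS : ∑ i, a i * FC d n φ i = ∑ i, a i ^ 2 := by
    apply Finset.sum_congr rfl
    intro i _
    rw [← ha]; ring
  have hS0 : 0 ≤ ∑ i, a i ^ 2 := Finset.sum_nonneg (fun i _ => sq_nonneg _)
  rw [hS, abs_of_nonneg hS0, ENNReal.toReal_ofReal (show 0 ≤ eu a from Real.sqrt_nonneg _)] at hH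
  show ∑ i, a i ^ 2 ≤ 1
  have h3 : ∑ i, a i ^ 2 ≤ Real.sqrt (∑ i, a i ^ 2) := by
    refine hH.trans ?_
    have : (eLpNorm φ 2 (TP d)).toReal * eu a ≤ 1 * eu a :=
      mul_le_mul_of_nonneg_right h1 (Real.sqrt_nonneg _)
    rw [one_mul] at this
    exact this
  by_contra hcon
  push Not at hcon
  have h4 : Real.sqrt (∑ i, a i ^ 2) < ∑ i, a i ^ 2 := by
    rw [Real.sqrt_lt' (by linarith)]
    nlinarith
  linarith

end Sol_EX_bessel

alias bessel := Sol_EX_bessel.bessel

end HypVol
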