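import Pool.Agent.EntX.Defs
open MeasureTheory Real ProbabilityTheory
open scoped ENNReal BigOperators

namespace HypVol
namespace Sol_EX_scheme2

theorem scheme2 (d : ℕ) (hd : 3 ≤ d) (r : ℝ) (hr : 1 < r) (C1 : ℝ) (hC1 : 0 < C1) :
    ∃ C : ℝ, 0 < C ∧ ∀ k : ℕ, 2 ≤ k → (∃ n0 : ℕ, Real.exp (C1 * Bn d n0) ≤ 2^k ∧
      (2:ℝ)^(-(r * n0)) * Real.sqrt ((n0:ℝ) + 1) ≤ C * Rk d r k) ∨ 1 ≤ C * Rk d r k := by
  classical
  obtain ⟨L, hL⟩ : ∃ L : ℝ, L = Real.log 2 := ⟨_, rfl⟩
  have hL0 : 0 < L := by rw [hL]; exact Real.log_pos (by norm_num)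
  obtain ⟨c0, hc0⟩ : ∃ c0 : ℝ, c0 = L / C1 := ⟨_, rfl⟩
  have hc00 : 0 < c0 := by rw [hc0]; positivity
  have hc0C : C1 * c0 = L := by rw [hc0]; field_simp
  obtain ⟨s, hs⟩ : ∃ s : ℝ, s = ((d:ℝ)-1)*r + 1/2 := ⟨_, rfl⟩
  have hd1 : (3:ℝ) ≤ d := by exact_mod_cast hd
  have hs0 : 0 < s := by
    have : 0 ≤ ((d:ℝ)-1)*r := mul_nonneg (by linarith) (by linarith)
    rw [hs]; linarith
  obtain ⟨C', hC'⟩ : ∃ C' : ℝ, C' = |Real.log c0| / L^2 + 2 / L := ⟨_, rfl⟩
  have hC'0 : 0 < C' := by rw [hC']; positivity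
  obtain ⟨A, hA⟩ : ∃ A : ℝ, A = c0 / 2^d := ⟨_, rfl⟩
  have hA0 : 0 < A := by rw [hA]; positivity
  obtain ⟨C2, hC2⟩ : ∃ C2 : ℝ, C2 = A^(-r) * C'^s := ⟨_, rfl⟩
  have hC20 : 0 < C2 := by rw [hC2]; positivity
  obtain ⟨m1, hm1⟩ : ∃ m1 : ℝ, m1 = c0^r * L^s := ⟨_, rfl⟩
  have hm10 : 0 < m1 := by rw [hm1]; positivity
  refine ⟨C2 + 1/m1, by positivity, ?_⟩
  intro k hk
  have hk2 : (2:ℝ) ≤ k := by exact_mod_cast hk
  have hk0 : (0:ℝ) < k := by linarith
  have hlogk : L ≤ Real.log k := by rw [hL]; exact Real.log_le_log (by norm_num) hk2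
  have hlogk0 : 0 < Real.log k := hL0.trans_le hlogk
  have hRk : 0 < Rk d r k := by unfold Rk; positivity
  by_cases hck : c0 * k < 1
  · right
    have h1 : m1 ≤ Rk d r k := by
      unfold Rk
      rw [hm1, ← hs]
      apply mul_le_mul
      · have h2 : (k:ℝ)^(-r) = ((k:ℝ)⁻¹)^r := by
          rw [Real.rpow_neg hk0.le, Real.inv_rpow hk0.le]
        rw [h2]
        apply Real.rpow_le_rpow hc00.le _ (by linarith)
        rw [← one_div, le_div_iff₀ hk0]
        exact hck.le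
      · exact Real.rpow_le_rpow hL0.le hlogk hs0.le
      · positivity
      · positivity
    calc (1:ℝ) = 1/m1 * m1 := by field_simp
      _ ≤ 1/m1 * Rk d r k := mul_le_mul_of_nonneg_left h1 (by positivity)
      _ ≤ (C2 + 1/m1) * Rk d r k := mul_le_mul_of_nonneg_right (by linarith) hRk.le
  · left
    push Not at hck
    have hex : ∃ n, c0 * k < Bn d n := by
      obtain ⟨n, hn⟩ := exists_nat_gt (c0 * k)
      refine ⟨n, hn.trans_le ?_⟩
      unfold Bn
      have h1 : (n:ℝ) ≤ 2^n := by exact_mod_cast Nat.lt_two_pow_self.le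
      have h2 : (1:ℝ) ≤ ((n:ℝ)+1)^(d-1) :=
        one_le_pow₀ (by have := Nat.cast_nonneg (α := ℝ) n; linarith)
      calc (n:ℝ) ≤ 2^n := h1
        _ = 2^n * 1 := by ring
        _ ≤ 2^n * ((n:ℝ)+1)^(d-1) := mul_le_mul_of_nonneg_left h2 (by positivity)
    have hN : c0 * k < Bn d (Nat.find hex) := Nat.find_spec hex
    have hN0 : Nat.find hex ≠ 0 := by
      intro h0
      rw [h0] at hN
      have : Bn d 0 = 1 := by simp [Bn]
      rw [this] at hN
      linarith
    obtain ⟨n0, hn0⟩ := Nat.exists_eq_succ_of_ne_zero hN0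
    have hn0le : Bn d n0 ≤ c0 * k := by
      have := Nat.find_min hex (m := n0) (by omega)
      exact not_lt.mp this
    rw [hn0] at hN
    have hn00 : (0:ℝ) ≤ n0 := Nat.cast_nonneg n0
    have hBs : Bn d (n0 + 1) ≤ 2^d * Bn d n0 := by
      unfold Bn
      have h3 : (((n0 + 1 : ℕ) : ℝ) + 1)^(d-1) ≤ (2 * ((n0:ℝ)+1))^(d-1) := by
        apply pow_le_pow_left₀ (by positivity)
        push_cast
        linarith
      obtain ⟨e, he⟩ : ∃ e, d = e + 1 := ⟨d - 1, by omega⟩
      subst he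
      simp only [Nat.add_sub_cancel] at h3 ⊢
      calc (2:ℝ)^(n0+1) * (((n0 + 1 : ℕ) : ℝ) + 1)^e ≤ 2^(n0+1) * (2 * ((n0:ℝ)+1))^e :=
            mul_le_mul_of_nonneg_left h3 (by positivity)
        _ = 2^(e+1) * (2^n0 * ((n0:ℝ)+1)^e) := by rw [mul_pow]; ring
    have hlow : A * k ≤ Bn d n0 := by
      have h4 : c0 * k ≤ 2^d * Bn d n0 := hN.le.trans hBs
      rw [hA]
      rw [div_mul_eq_mul_div, div_le_iff₀ (by positivity)]
      linarith
    refine ⟨n0, ?_, ?_⟩
    · have h5 : (2:ℝ)^k = Real.exp (L * k) := by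
        rw [hL, ← Real.rpow_natCast, Real.rpow_def_of_pos (by norm_num)]
      rw [h5]
      apply Real.exp_le_exp.mpr
      calc C1 * Bn d n0 ≤ C1 * (c0 * k) := mul_le_mul_of_nonneg_left hn0le hC1.le
        _ = L * k := by rw [← mul_assoc, hc0C]
    · 
      have h2n : (2:ℝ)^n0 ≤ c0 * k := by
        refine le_trans ?_ hn0le
        unfold Bn
        have h2 : (1:ℝ) ≤ ((n0:ℝ)+1)^(d-1) := one_le_pow₀ (by linarith)
        calc (2:ℝ)^n0 = 2^n0 * 1 := by ring
          _ ≤ 2^n0 * ((n0:ℝ)+1)^(d-1) := mul_le_mul_of_nonneg_left h2 (by positivity)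
      have hn0L : n0 * L ≤ Real.log c0 + Real.log k := by
        have h6 := Real.log_le_log (by positivity) h2n
        rw [Real.log_pow, Real.log_mul hc00.ne' hk0.ne', ← hL] at h6
        exact h6
      have hn0C : (n0:ℝ) + 1 ≤ C' * Real.log k := by
        have h7 : Real.log c0 ≤ |Real.log c0| / L * Real.log k := by
          calc Real.log c0 ≤ |Real.log c0| := le_abs_self _
            _ = |Real.log c0| / L * L := by field_simp
            _ ≤ |Real.log c0| / L * Real.log k :=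
              mul_le_mul_of_nonneg_left hlogk (by positivity)
        have h8 : ((n0:ℝ) + 1) * L ≤ (C' * Real.log k) * L := by
          calc ((n0:ℝ) + 1) * L = n0 * L + L := by ring
            _ ≤ (|Real.log c0| / L * Real.log k + Real.log k) + Real.log k := by linarith
            _ = (C' * Real.log k) * L := by
              rw [hC']
              field_simp
              ring
        exact le_of_mul_le_mul_right h8 hL0
      have hsq : Real.sqrt ((n0:ℝ)+1) = ((n0:ℝ)+1)^(1/2:ℝ) := Real.sqrt_eq_rpow _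
      have hpos1 : (0:ℝ) < (n0:ℝ)+1 := by linarith
      have h2r : (2:ℝ)^(-(r * n0)) = ((2:ℝ)^n0)^(-r) := by
        rw [← Real.rpow_natCast, ← Real.rpow_mul (by norm_num)]
        congr 1
        ring
      have h9 : ((2:ℝ)^n0)^(-r) ≤ A^(-r) * (k:ℝ)^(-r) * ((n0:ℝ)+1)^(((d:ℝ)-1)*r) := by
        have h10 : A * k / ((n0:ℝ)+1)^(d-1) ≤ 2^n0 := by
          rw [div_le_iff₀ (by positivity)]
          exact hlow
        have h11 : ((2:ℝ)^n0)^(-r) ≤ (A * k / ((n0:ℝ)+1)^(d-1))^(-r) :=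
          Real.rpow_le_rpow_of_nonpos (by positivity) h10 (by linarith)
        refine h11.trans (le_of_eq ?_)
        rw [Real.div_rpow (by positivity) (by positivity), Real.mul_rpow hA0.le hk0.le]
        rw [div_eq_mul_inv]
        congr 1
        rw [← Real.rpow_neg (by positivity), neg_neg, ← Real.rpow_natCast,
          ← Real.rpow_mul hpos1.le]
        congr 1
        rw [Nat.cast_sub (by omega)]
        simp
      calc (2:ℝ)^(-(r * n0)) * Real.sqrt ((n0:ℝ) + 1)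
          ≤ (A^(-r) * (k:ℝ)^(-r) * ((n0:ℝ)+1)^(((d:ℝ)-1)*r)) * ((n0:ℝ)+1)^(1/2:ℝ) := by
            rw [h2r, hsq]
            exact mul_le_mul_of_nonneg_right h9 (by positivity)
        _ = A^(-r) * (k:ℝ)^(-r) * ((n0:ℝ)+1)^s := by
            rw [hs, Real.rpow_add hpos1]; ring
        _ ≤ A^(-r) * (k:ℝ)^(-r) * (C' * Real.log k)^s := by
            apply mul_le_mul_of_nonneg_left _ (by positivity)
            exact Real.rpow_le_rpow hpos1.le hn0C hs0.le
        _ = C2 * Rk d r k := by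
            unfold Rk
            rw [hC2, ← hs, Real.mul_rpow hC'0.le hlogk0.le]
            ring
        _ ≤ (C2 + 1/m1) * Rk d r k := by
            apply mul_le_mul_of_nonneg_right _ hRk.le
            have : 0 < 1/m1 := by positivity
            linarith

end Sol_EX_scheme2

alias scheme2 := Sol_EX_scheme2.scheme2

end HypVol
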