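import Pool.Agent.EntX.Defs
import Pool.Agent.EntX.L_scheme
import Pool.Agent.EntX.L_netP_inf
import Pool.Agent.EntX.L_supn_facts
import Pool.Agent.EntX.L_conv_series
import Pool.Agent.EntX.L_bessel
import Pool.Agent.EntX.L_Mact_norm
import Pool.Agent.EntX.L_conv_facts
import Pool.Agent.HypVol.L_TP_prob
open MeasureTheory Real ProbabilityTheory
open scoped ENNReal BigOperators

namespace HypVol
namespace Sol_EX_upper_inf

theorem upper_inf_enum {α : Type*} [Inhabited α] (P : Finset α) (m : ℕ) (h : P.card ≤ m) :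
    ∃ g : Fin m → α, ∀ x ∈ P, ∃ j, g j = x := by
  classical
  refine ⟨fun j => if h : (j:ℕ) < P.card then (P.equivFin.symm ⟨j, h⟩ : α) else default, ?_⟩
  intro x hx
  refine ⟨⟨P.equivFin ⟨x, hx⟩, lt_of_lt_of_le (P.equivFin ⟨x, hx⟩).2 h⟩, ?_⟩
  simp

theorem upper_inf_poly_sub {d n : ℕ} (a b : (layer d n) × Fin 2 → ℝ) (x : Fin d → ℝ) :
    poly (a - b) x = poly a x - poly b x := by
  unfold poly
  rw [← Finset.sum_sub_distrib]
  refine Finset.sum_congr rfl fun k _ => ?_
  simp only [Pi.sub_apply]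
  push_cast
  ring

theorem upper_inf_poly_smul {d n : ℕ} (c : ℝ) (a : (layer d n) × Fin 2 → ℝ) (x : Fin d → ℝ) :
    poly (c • a) x = (c : ℂ) * poly a x := by
  unfold poly
  rw [Finset.mul_sum]
  refine Finset.sum_congr rfl fun k _ => ?_
  simp only [Pi.smul_apply, smul_eq_mul]
  push_cast
  ring

theorem upper_inf_poly_zero {d n : ℕ} (x : Fin d → ℝ) :
    poly (0 : (layer d n) × Fin 2 → ℝ) x = 0 := by
  unfold poly
  simp

theorem upper_inf_poly_cont {d n : ℕ} (a : (layer d n) × Fin 2 → ℝ) :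
    Continuous (poly a) := by
  unfold poly
  fun_prop

theorem upper_inf_memLp {d n : ℕ} (a : (layer d n) × Fin 2 → ℝ) :
    MemLp (poly a) ⊤ (TP d) := by
  haveI := TP_prob d
  refine MemLp.of_bound (upper_inf_poly_cont a).aestronglyMeasurable (supn a) ?_
  exact Filter.Eventually.of_forall fun x => (supn_facts d n).2.2.2.2.1 a x

theorem upper_inf_V2 {d n : ℕ} (r : ℝ) (hr : 0 < r) (α : Fin d → ℝ)
    (a : (layer d n) × Fin 2 → ℝ) (ha : a ∈ V2 d n) :
    ((2:ℝ)^(r * d) * (2:ℝ)^(-(r * n)))⁻¹ • Mact r α a ∈ V2 d n := by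
  set κ : ℝ := (2:ℝ)^(r * d) * (2:ℝ)^(-(r * n)) with hκ
  have hκ0 : 0 < κ := by positivity
  have h1 : eu a ≤ 1 := by
    unfold eu
    exact Real.sqrt_le_one.2 ha
  have h2 : eu (Mact r α a) ≤ κ := by
    calc eu (Mact r α a) ≤ κ * eu a := Mact_norm r hr α a
      _ ≤ κ * 1 := mul_le_mul_of_nonneg_left h1 hκ0.le
      _ = κ := mul_one _
  have h3 : ∑ i, (Mact r α a) i ^ 2 ≤ κ ^ 2 := by
    have h4 : Real.sqrt (∑ i, (Mact r α a) i ^ 2) ≤ κ := h2
    exact (Real.sqrt_le_left hκ0.le).1 h4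
  show ∑ i, (κ⁻¹ • Mact r α a) i ^ 2 ≤ 1
  have h5 : ∑ i, (κ⁻¹ • Mact r α a) i ^ 2 = (κ ^ 2)⁻¹ * ∑ i, (Mact r α a) i ^ 2 := by
    rw [Finset.mul_sum]
    refine Finset.sum_congr rfl fun i _ => ?_
    simp only [Pi.smul_apply, smul_eq_mul]
    rw [mul_pow, inv_pow]
  rw [h5, inv_mul_le_iff₀ (by positivity), mul_one]
  exact h3

theorem upper_inf (d : ℕ) (hd : 3 ≤ d) (r : ℝ) (hr : 1 < r) (α : Fin d → ℝ) :
    ∃ C : ℝ, 0 < C ∧ ∀ k : ℕ, 2 ≤ k → Cov ⊤ k (ENNReal.ofReal (C * Rk d r k)) (MW ℂ d r 2 α) := by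
  classical
  haveI := TP_prob d
  obtain ⟨C, hC, hsch⟩ := scheme d hd r hr (V2 d) (fun _ => supn) (netP_inf d) (by
    intro n a ha
    have h1 := (supn_facts d n).2.2.2.2.2.2 a
    have h2 : Real.sqrt (∑ i, a i ^ 2) ≤ 1 := Real.sqrt_le_one.2 ha
    calc supn a ≤ Real.sqrt ((layer d n).card) * Real.sqrt (∑ i, a i ^ 2) := h1
      _ ≤ Real.sqrt ((layer d n).card) * 1 := mul_le_mul_of_nonneg_left h2 (Real.sqrt_nonneg _)
      _ = _ := mul_one _)
  refine ⟨(2:ℝ)^(r * d) * C, by positivity, fun k hk => ?_⟩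
  obtain ⟨L, S, e, hcard, hS, hL, he0, hsum, htot⟩ := hsch k hk
  set P : Finset (∀ i : Fin L, (layer d i) × Fin 2 → ℝ) := Fintype.piFinset (fun i => S i) with hP
  have hPcard : P.card ≤ 2^k := by
    rw [hP, Fintype.card_piFinset, Fin.prod_univ_eq_prod_range (fun n => (S n).card)]
    exact_mod_cast hcard
  obtain ⟨g, hg⟩ := upper_inf_enum P (2^k) hPcard
  set κ : ℕ → ℝ := fun n => (2:ℝ)^(r * d) * (2:ℝ)^(-(r * n)) with hκ
  have hκ0 : ∀ n, 0 < κ n := fun n => by simp only [hκ]; positivity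
  let s : Fin (2^k) → ∀ n : ℕ, (layer d n) × Fin 2 → ℝ :=
    fun j n => if h : n < L then g j ⟨n, h⟩ else 0
  refine ⟨fun j x => ∑ n ∈ Finset.range L, (κ n : ℂ) * poly (s j n) x, ?_, ?_⟩
  · intro j
    exact memLp_finset_sum _ fun n _ => (upper_inf_memLp (s j n)).const_mul _
  · rintro f ⟨φ, hφ, hφ1, rfl⟩
    set b : ∀ n : ℕ, (layer d n) × Fin 2 → ℝ := fun n => (κ n)⁻¹ • Mact r α (FC d n φ) with hb
    have hbV : ∀ n, b n ∈ V2 d n := fun n =>
      upper_inf_V2 r (by linarith) α _ (bessel φ hφ hφ1)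
    have hch : ∀ i : Fin L, ∃ t ∈ S i, supn (b i - t) ≤ e i := fun i => hS i i.2 (b i) (hbV i)
    choose t htS ht using hch
    obtain ⟨j, hj⟩ := hg t (by rw [hP, Fintype.mem_piFinset]; exact htS)
    refine ⟨j, ?_⟩
    have hint : Integrable φ (TP d) := hφ.integrable one_le_two
    have hsn : ∀ n, supn (b n - s j n) ≤ e n := by
      intro n
      by_cases hn : n < L
      · have h1 : s j n = t ⟨n, hn⟩ := by
          simp only [s, hn, dif_pos, hj]
        rw [h1]
        exact ht ⟨n, hn⟩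
      · have h1 : s j n = 0 := by
          simp only [s, hn, dif_neg, not_false_eq_true]
        rw [h1, sub_zero]
        exact hL n (not_lt.1 hn) (b n) (hbV n)
    have hbd : ∀ x, ‖(∫ y, Fr r α (x - y) • φ y ∂(TP d)) -
        ∑ n ∈ Finset.range L, (κ n : ℂ) * poly (s j n) x‖ ≤ (2:ℝ)^(r * d) * C * Rk d r k := by
      intro x
      have h1 := conv_series d r hr α φ hint x
      have h2 : HasSum (fun n : ℕ => (κ n : ℂ) * poly (s j n) x)
          (∑ n ∈ Finset.range L, (κ n : ℂ) * poly (s j n) x) := by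
        refine hasSum_sum_of_ne_finset_zero fun n hn => ?_
        rw [Finset.mem_range] at hn
        have h3 : s j n = 0 := by
          simp only [s, hn, dif_neg, not_false_eq_true]
        rw [h3, upper_inf_poly_zero, mul_zero]
      have h3 := h1.sub h2
      have h4 : HasSum (fun n => κ n * e n)
          ((2:ℝ)^(r * d) * ∑' n : ℕ, (2:ℝ)^(-(r * n)) * e n) := by
        have h5 := hsum.hasSum.mul_left ((2:ℝ)^(r * d))
        refine h5.congr_fun ?_
        intro n
        simp only [hκ]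
        ring
      have h6 := h3.norm_le_of_bounded h4 (fun n => by
        have h7 : poly (Mact r α (FC d n φ)) x = (κ n : ℂ) * poly (b n) x := by
          rw [hb]
          simp only
          rw [upper_inf_poly_smul, ← mul_assoc]
          push_cast
          rw [mul_inv_cancel₀ (by exact_mod_cast (hκ0 n).ne'), one_mul]
        rw [h7, ← mul_sub, ← upper_inf_poly_sub, norm_mul, Complex.norm_real, Real.norm_eq_abs,
          abs_of_pos (hκ0 n)]
        exact mul_le_mul_of_nonneg_left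
          (((supn_facts d n).2.2.2.2.1 _ x).trans (hsn n)) (hκ0 n).le)
      refine h6.trans ?_
      rw [mul_assoc]
      exact mul_le_mul_of_nonneg_left htot (by positivity)
    rw [eLpNorm_exponent_top]
    exact eLpNormEssSup_le_of_ae_bound (Filter.Eventually.of_forall hbd)

end Sol_EX_upper_inf

alias upper_inf := Sol_EX_upper_inf.upper_inf

end HypVol
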