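import Pool.Agent.EntX.Defs
import Pool.Agent.EntX.L_upper_inf
import Pool.Agent.EntX.L_Linf_lower
import Pool.Agent.EntX.L_conv_facts
import Pool.Agent.HypVol.L_TP_prob
open MeasureTheory Real ProbabilityTheory
open scoped ENNReal BigOperators

namespace HypVol
namespace Sol_EX_caseC

theorem caseC_indicator_sq (a lam : ℝ≥0∞) (h : lam < a) : (lam * a) ^ (2:ℝ) ≤ a ^ (4:ℝ) := by
  have h1 : lam * a ≤ a * a := by gcongr
  calc (lam * a) ^ (2:ℝ) ≤ (a * a) ^ (2:ℝ) := by gcongr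
    _ = a ^ (4:ℝ) := by
      rw [← pow_two, ← ENNReal.rpow_natCast, ← ENNReal.rpow_mul]
      norm_num

theorem caseC_split {𝕜 : Type} [RCLike 𝕜] {d : ℕ} (r : ℝ) (hr : 1 < r) (α : Fin d → ℝ)
    (lam : ℝ) (hlam : 1 ≤ lam) (φ : (Fin d → ℝ) → 𝕜) (hφ : MemLp φ 4 (TP d))
    (hφ1 : eLpNorm φ 4 (TP d) ≤ 1) :
    ∃ h1 ∈ MW 𝕜 d r ⊤ α, ∃ h2 ∈ MW 𝕜 d r 2 α,
      (fun x => ∫ y, Fr r α (x - y) • φ y ∂(TP d)) = lam • h1 + lam⁻¹ • h2 := by
  have := TP_prob d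
  have hlam0 : 0 < lam := by linarith
  obtain ⟨hFc, B, hB, hFB, -⟩ := conv_facts (𝕜 := 𝕜) (d := d) r hr α
  obtain ⟨ψ, hψm, hψe⟩ : ∃ ψ : (Fin d → ℝ) → 𝕜, StronglyMeasurable ψ ∧ φ =ᵐ[TP d] ψ :=
    ⟨hφ.1.mk φ, hφ.1.stronglyMeasurable_mk, hφ.1.ae_eq_mk⟩
  have hψL : MemLp ψ 4 (TP d) := hφ.ae_eq hψe
  have hψ1 : eLpNorm ψ 4 (TP d) ≤ 1 := by rwa [← eLpNorm_congr_ae hψe]
  set A : Set (Fin d → ℝ) := {y | ‖ψ y‖ ≤ lam} with hA
  have hAm : MeasurableSet A := measurableSet_le hψm.norm.measurable measurable_const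
  set φ1 : (Fin d → ℝ) → 𝕜 := A.indicator ψ with hφ1def
  set φ2 : (Fin d → ℝ) → 𝕜 := Aᶜ.indicator ψ with hφ2def
  have hφ1m : StronglyMeasurable φ1 := hψm.indicator hAm
  have hφ2m : StronglyMeasurable φ2 := hψm.indicator hAm.compl
  have hsum : ∀ y, ψ y = φ1 y + φ2 y := by
    intro y
    simp only [hφ1def, hφ2def, Set.indicator]
    by_cases hy : y ∈ A
    · simp [hy]
    · simp [hy]
  have hb1 : ∀ y, ‖lam⁻¹ • φ1 y‖ ≤ 1 := by
    intro y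
    rw [norm_smul, Real.norm_of_nonneg (inv_nonneg.2 hlam0.le)]
    rw [inv_mul_le_iff₀ hlam0, mul_one]
    simp only [hφ1def, Set.indicator]
    split_ifs with hy
    · exact hy
    · simp [hlam0.le]
  have hML1 : MemLp (fun y => lam⁻¹ • φ1 y) ⊤ (TP d) :=
    memLp_top_of_bound (hφ1m.const_smul _).aestronglyMeasurable 1 (Filter.Eventually.of_forall hb1)
  have hn1 : eLpNorm (fun y => lam⁻¹ • φ1 y) ⊤ (TP d) ≤ 1 := by
    rw [eLpNorm_exponent_top]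
    have := eLpNormEssSup_le_of_ae_bound (μ := TP d) (f := fun y => lam⁻¹ • φ1 y) (C := 1)
      (Filter.Eventually.of_forall hb1)
    simpa using this
  have hn2 : eLpNorm (fun y => lam • φ2 y) 2 (TP d) ≤ 1 := by
    rw [eLpNorm_eq_lintegral_rpow_enorm_toReal (by norm_num) (by norm_num)]
    have h4 : ∫⁻ x, ‖ψ x‖ₑ ^ (4:ℝ) ∂(TP d) ≤ 1 := by
      have := hψ1
      rw [eLpNorm_eq_lintegral_rpow_enorm_toReal (by norm_num) (by norm_num)] at this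
      have h5 := ENNReal.rpow_le_rpow this (show (0:ℝ) ≤ 4 by norm_num)
      rw [← ENNReal.rpow_mul, ENNReal.one_rpow] at h5
      simpa using h5
    have h6 : ∫⁻ x, ‖lam • φ2 x‖ₑ ^ (2:ℝ) ∂(TP d) ≤ 1 := by
      refine le_trans (lintegral_mono fun x => ?_) h4
      simp only [hφ2def, Set.indicator]
      split_ifs with hx
      · have hx' : lam < ‖ψ x‖ := by
          simpa [hA] using hx
        rw [enorm_smul]
        apply caseC_indicator_sq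
        rw [Real.enorm_eq_ofReal hlam0.le, ← ofReal_norm]
        exact (ENNReal.ofReal_lt_ofReal_iff (lt_trans hlam0 hx')).2 hx'
      · simp
    calc (∫⁻ x, ‖lam • φ2 x‖ₑ ^ (2:ℝ≥0∞).toReal ∂(TP d)) ^ (1 / (2:ℝ≥0∞).toReal)
        ≤ 1 ^ (1 / (2:ℝ≥0∞).toReal) := by
          apply ENNReal.rpow_le_rpow _ (by positivity)
          simpa using h6
      _ = 1 := ENNReal.one_rpow _
  have hML2 : MemLp (fun y => lam • φ2 y) 2 (TP d) :=
    ⟨(hφ2m.const_smul _).aestronglyMeasurable, lt_of_le_of_lt hn2 ENNReal.one_lt_top⟩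
  have hi1 : Integrable φ1 (TP d) := by
    have h : Integrable (fun y => lam⁻¹ • φ1 y) (TP d) := hML1.integrable le_top
    have := h.smul lam
    refine this.congr (Filter.Eventually.of_forall fun y => ?_)
    simp [smul_smul, mul_inv_cancel₀ hlam0.ne']
  have hi2 : Integrable φ2 (TP d) := by
    have h : Integrable (fun y => lam • φ2 y) (TP d) := hML2.integrable (by norm_num)
    have := h.smul lam⁻¹
    refine this.congr (Filter.Eventually.of_forall fun y => ?_)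
    simp [smul_smul, inv_mul_cancel₀ hlam0.ne']
  have hint : ∀ (χ : (Fin d → ℝ) → 𝕜), Integrable χ (TP d) → ∀ x,
      Integrable (fun y => Fr r α (x - y) • χ y) (TP d) := by
    intro χ hχ x
    have hcont : Continuous fun y => Fr r α (x - y) := hFc.comp (continuous_const.sub continuous_id)
    exact hχ.bdd_smul B hcont.aestronglyMeasurable (Filter.Eventually.of_forall fun y => by
      rw [Real.norm_eq_abs]; exact hFB _)
  refine ⟨fun x => ∫ y, Fr r α (x - y) • (lam⁻¹ • φ1 y) ∂(TP d), ⟨_, hML1, hn1, rfl⟩,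
    fun x => ∫ y, Fr r α (x - y) • (lam • φ2 y) ∂(TP d), ⟨_, hML2, hn2, rfl⟩, ?_⟩
  funext x
  simp only [Pi.add_apply, Pi.smul_apply]
  have e0 : ∫ y, Fr r α (x - y) • φ y ∂(TP d) = ∫ y, Fr r α (x - y) • ψ y ∂(TP d) := by
    apply integral_congr_ae
    filter_upwards [hψe] with y hy
    rw [hy]
  have e1 : ∫ y, Fr r α (x - y) • ψ y ∂(TP d) =
      ∫ y, Fr r α (x - y) • φ1 y ∂(TP d) + ∫ y, Fr r α (x - y) • φ2 y ∂(TP d) := by
    rw [← integral_add (hint φ1 hi1 x) (hint φ2 hi2 x)]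
    congr 1
    funext y
    rw [hsum y, smul_add]
  have e2 : lam • ∫ y, Fr r α (x - y) • (lam⁻¹ • φ1 y) ∂(TP d)
      = ∫ y, Fr r α (x - y) • φ1 y ∂(TP d) := by
    rw [← integral_smul]
    congr 1
    funext y
    rw [smul_comm lam, smul_smul lam, mul_inv_cancel₀ hlam0.ne', one_smul]
  have e3 : lam⁻¹ • ∫ y, Fr r α (x - y) • (lam • φ2 y) ∂(TP d)
      = ∫ y, Fr r α (x - y) • φ2 y ∂(TP d) := by
    rw [← integral_smul]
    congr 1
    funext y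
    rw [smul_comm lam⁻¹, smul_smul lam⁻¹, inv_mul_cancel₀ hlam0.ne', one_smul]
  rw [e0, e1, e2, e3]

theorem caseC_Rk (d : ℕ) (hd : 3 ≤ d) (r : ℝ) (hr : 1 < r) (k : ℕ) (hk : 2 ≤ k) :
    (2:ℝ)^(-r) * Rk d r k ≤ Rk d r (2 * k) ∧ 0 < Rk d r k := by
  have hk0 : (0:ℝ) < k := by positivity
  have hk1 : (1:ℝ) < k := by exact_mod_cast (by omega : 1 < k)
  have hlog : 0 < Real.log k := Real.log_pos hk1
  have hd' : (3:ℝ) ≤ d := by exact_mod_cast hd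
  have hexp : 0 ≤ ((d:ℝ)-1) * r + 1/2 := by
    have : 0 ≤ ((d:ℝ)-1) * r := mul_nonneg (by linarith) (by linarith)
    linarith
  constructor
  · unfold Rk
    push_cast
    rw [Real.mul_rpow (by norm_num) hk0.le, ← mul_assoc]
    have : (Real.log k) ^ (((d:ℝ)-1) * r + 1/2) ≤ (Real.log (2 * k)) ^ (((d:ℝ)-1) * r + 1/2) := by
      apply Real.rpow_le_rpow hlog.le _ hexp
      apply Real.log_le_log hk0
      linarith
    have h2 : (0:ℝ) ≤ (2:ℝ)^(-r) * (k:ℝ)^(-r) := by positivity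
    exact mul_le_mul_of_nonneg_left this h2
  · unfold Rk
    have := Real.rpow_pos_of_pos hlog (((d:ℝ)-1) * r + 1/2)
    have := Real.rpow_pos_of_pos hk0 (-r)
    positivity

theorem caseC_cov (d : ℕ) (hd : 3 ≤ d) (r : ℝ) (hr : 1 < r) (α : Fin d → ℝ) (lam : ℝ)
    (hlam : 1 ≤ lam) (k : ℕ) (ε δ : ℝ) (hε : 0 ≤ ε) (hδ : 0 ≤ δ)
    (h1 : Cov ⊤ k (ENNReal.ofReal ε) (MW ℂ d r ⊤ α))
    (h2 : Cov ⊤ k (ENNReal.ofReal δ) (MW ℂ d r 2 α)) :
    Cov ⊤ (2 * k) (ENNReal.ofReal (lam * ε + lam⁻¹ * δ)) (MW ℂ d r (ENNReal.ofReal 4) α) := by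
  have hlam0 : 0 < lam := by linarith
  obtain ⟨c, hc, hc'⟩ := h1
  obtain ⟨g, hg, hg'⟩ := h2
  have hcard : 2 ^ (2 * k) = 2 ^ k * 2 ^ k := by rw [two_mul, pow_add]
  let e : Fin (2 ^ (2 * k)) ≃ Fin (2 ^ k) × Fin (2 ^ k) :=
    (finCongr hcard).trans finProdFinEquiv.symm
  refine ⟨fun i => lam • c (e i).1 + lam⁻¹ • g (e i).2, fun i => ?_, ?_⟩
  · exact ((hc _).const_smul lam).add ((hg _).const_smul lam⁻¹)
  · rintro f ⟨φ, hφ, hφ1, rfl⟩
    have h44 : ENNReal.ofReal 4 = 4 := by norm_num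
    rw [h44] at hφ hφ1
    obtain ⟨f1, hf1, f2, hf2, he⟩ := caseC_split r hr α lam hlam φ hφ hφ1
    obtain ⟨j, hj⟩ := hc' f1 hf1
    obtain ⟨l, hl⟩ := hg' f2 hf2
    refine ⟨e.symm (j, l), ?_⟩
    simp only [Equiv.apply_symm_apply]
    have e1 : (fun x => (fun x => ∫ y, Fr r α (x - y) • φ y ∂(TP d)) x
        - (lam • c j + lam⁻¹ • g l) x)
        = (lam • fun x => f1 x - c j x) + (lam⁻¹ • fun x => f2 x - g l x) := by
      rw [he]
      funext x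
      simp only [Pi.add_apply, Pi.smul_apply, smul_sub]
      ring
    rw [e1, eLpNorm_exponent_top]
    refine (eLpNormEssSup_add_le).trans ?_
    rw [← eLpNorm_exponent_top, ← eLpNorm_exponent_top, eLpNorm_const_smul, eLpNorm_const_smul,
      ENNReal.ofReal_add (by positivity) (by positivity), ENNReal.ofReal_mul hlam0.le,
      ENNReal.ofReal_mul (inv_nonneg.2 hlam0.le), Real.enorm_eq_ofReal hlam0.le,
      Real.enorm_eq_ofReal (inv_nonneg.2 hlam0.le)]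
    gcongr

theorem caseC (d : ℕ) (hd : 3 ≤ d) (r : ℝ) (hr : 1 < r) (α : Fin d → ℝ) :
    ∃ c : ℝ, 0 < c ∧ ∀ (k : ℕ) (ε : ℝ), 2 ≤ k → 0 < ε →
      Cov ⊤ k (ENNReal.ofReal ε) (MW ℂ d r ⊤ α) → c * Rk d r k ≤ ε := by
  obtain ⟨c0, hc0, hlow⟩ := Linf_lower d hd 4 r (by norm_num) hr α
  obtain ⟨C, hC, hup⟩ := upper_inf d hd r hr α
  set lam : ℝ := 2 * C * (2:ℝ)^r / c0 + 1 with hlamdef
  have h2r : (0:ℝ) < (2:ℝ)^r := Real.rpow_pos_of_pos (by norm_num) r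
  have h2r' : (0:ℝ) < (2:ℝ)^(-r) := Real.rpow_pos_of_pos (by norm_num) _
  have hinv : (2:ℝ)^(-r) * (2:ℝ)^r = 1 := by
    rw [← Real.rpow_add (by norm_num)]; simp
  have hlam : 1 ≤ lam := by
    have : 0 ≤ 2 * C * (2:ℝ)^r / c0 := by positivity
    linarith
  have hlam0 : 0 < lam := by linarith
  refine ⟨c0 * (2:ℝ)^(-r) / (2 * lam), by positivity, fun k ε hk hε hcov => ?_⟩
  obtain ⟨hR, hRpos⟩ := caseC_Rk d hd r hr k hk
  have hcov2 := caseC_cov d hd r hr α lam hlam k ε (C * Rk d r k) hε.le (by positivity) hcov (hup k hk)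
  have h3 := hlow (2 * k) (lam * ε + lam⁻¹ * (C * Rk d r k)) (by omega) (by positivity) hcov2
  have h4 : c0 * ((2:ℝ)^(-r) * Rk d r k) ≤ lam * ε + lam⁻¹ * (C * Rk d r k) :=
    (mul_le_mul_of_nonneg_left hR hc0.le).trans h3
  have h5 : lam⁻¹ * C ≤ c0 * (2:ℝ)^(-r) / 2 := by
    rw [inv_mul_le_iff₀ hlam0]
    have : lam * (c0 * (2:ℝ)^(-r) / 2) = C * ((2:ℝ)^(-r) * (2:ℝ)^r) + c0 * (2:ℝ)^(-r) / 2 := by
      rw [hlamdef]; field_simp
    rw [this, hinv, mul_one]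
    have : 0 ≤ c0 * (2:ℝ)^(-r) / 2 := by positivity
    linarith
  have h6 : lam⁻¹ * (C * Rk d r k) ≤ c0 * (2:ℝ)^(-r) / 2 * Rk d r k := by
    rw [← mul_assoc]
    exact mul_le_mul_of_nonneg_right h5 hRpos.le
  have h7 : c0 * (2:ℝ)^(-r) / 2 * Rk d r k ≤ lam * ε := by
    have : c0 * ((2:ℝ)^(-r) * Rk d r k) = c0 * (2:ℝ)^(-r) / 2 * Rk d r k
      + c0 * (2:ℝ)^(-r) / 2 * Rk d r k := by ring
    linarith
  have h8 : c0 * (2:ℝ)^(-r) / (2 * lam) * Rk d r k = (c0 * (2:ℝ)^(-r) / 2 * Rk d r k) / lam := by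
    field_simp
  rw [h8, div_le_iff₀ hlam0, mul_comm ε]
  exact h7

end Sol_EX_caseC

alias caseC := Sol_EX_caseC.caseC

end HypVol
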