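import Pool.Agent.EntX.Defs
import Pool.Agent.HypVol.L_card_layer
import Pool.Agent.HypVol.L_shp_lower
import Pool.Agent.HypVol.L_shp_upper
open MeasureTheory Real ProbabilityTheory
open scoped ENNReal BigOperators

namespace HypVol
namespace Sol_EX_schemeH1

theorem schemeH1_dist (h : ℕ → ℝ) (hh : Summable h) (h0 : ∀ j, 0 ≤ h j) (n0 : ℕ) :
    Summable (fun n : ℕ => h ((n - n0) + (n0 - n))) ∧
    ∑' n : ℕ, h ((n - n0) + (n0 - n)) ≤ 2 * ∑' j, h j := by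
  have hs : Summable (fun n : ℕ => h ((n - n0) + (n0 - n))) := by
    rw [← summable_nat_add_iff n0]
    refine hh.congr (fun n => ?_)
    congr 1
    omega
  refine ⟨hs, ?_⟩
  rw [← hs.sum_add_tsum_nat_add n0, two_mul]
  refine add_le_add ?_ (le_of_eq ?_)
  · have h1 : ∑ i ∈ Finset.range n0, h ((i - n0) + (n0 - i)) =
        ∑ j ∈ (Finset.range n0).image (fun i => n0 - i), h j := by
      rw [Finset.sum_image]
      · refine Finset.sum_congr rfl (fun i hi => ?_)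
        have := Finset.mem_range.1 hi
        congr 1
        omega
      · intro a ha b hb hab
        have h2 := Finset.mem_range.1 (Finset.mem_coe.1 ha)
        have h3 := Finset.mem_range.1 (Finset.mem_coe.1 hb)
        have h4 : n0 - a = n0 - b := hab
        omega
    rw [h1]
    exact hh.sum_le_tsum _ (fun j _ => h0 j)
  · refine tsum_congr (fun n => ?_)
    congr 1
    omega

theorem schemeH1_low (d : ℕ) (hd : 1 ≤ d) (C C2 r p q : ℝ) (m : ℕ) (hm : 1 ≤ m) (hC : 0 < C) (hC2 : 0 < C2) (hr : 0 < r)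
    (hp : 0 < p) (hp2 : p⁻¹ ≤ Real.exp (r + 1)) (hq0 : 0 < q) (hq1 : q ≤ 1) (hq : q ^ (2 * m) = 1 / 2)
    (K : ℕ) (n j : ℕ) (hK : (K:ℝ) ≤ C2 * 2 ^ n * ((n:ℝ) + 1) ^ (d - 1)) :
    Real.exp (C * (K * ((n:ℝ) + 1) / (Real.sqrt ((n:ℝ) + 1)) ^ 2 + ((n:ℝ) + 1))) *
        (1 + 2 / p ^ j) ^ (2 * K) ≤
      Real.exp (C * ((n:ℝ) + 1) + (C2 * (C + 2 * (r + 3))) * Bn d (n + j) *
        (((j:ℝ) + 1) ^ d * (q ^ 2) ^ j)) := by
  have hn : (0:ℝ) < (n:ℝ) + 1 := by positivity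
  have hj : (0:ℝ) ≤ (j:ℝ) := Nat.cast_nonneg j
  have h1 : (Real.sqrt ((n:ℝ) + 1)) ^ 2 = (n:ℝ) + 1 := Real.sq_sqrt hn.le
  have h1' : (K:ℝ) * ((n:ℝ) + 1) / (Real.sqrt ((n:ℝ) + 1)) ^ 2 = K := by
    rw [h1]
    field_simp
  have h2 : 1 + 2 / p ^ j ≤ Real.exp ((r + 1) * j + 2) := by
    have h3 : 2 / p ^ j = 2 * (p⁻¹) ^ j := by
      rw [inv_pow]
      rfl
    have h4 : (p⁻¹) ^ j ≤ Real.exp ((r + 1) * j) := by
      rw [mul_comm, Real.exp_nat_mul]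
      exact pow_le_pow_left₀ (by positivity) hp2 j
    have h5 : 1 ≤ Real.exp ((r + 1) * j) := Real.one_le_exp (by positivity)
    have h6 : (3:ℝ) ≤ Real.exp 2 := by
      have := Real.add_one_le_exp (2:ℝ)
      linarith
    rw [h3, Real.exp_add]
    calc 1 + 2 * (p⁻¹) ^ j ≤ Real.exp ((r + 1) * j) + 2 * Real.exp ((r + 1) * j) := by linarith
      _ = Real.exp ((r + 1) * j) * 3 := by ring
      _ ≤ Real.exp ((r + 1) * j) * Real.exp 2 := by gcongr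
  have h7 : (1 + 2 / p ^ j) ^ (2 * K) ≤ Real.exp ((2 * K : ℕ) * ((r + 1) * j + 2)) := by
    rw [Real.exp_nat_mul]
    exact pow_le_pow_left₀ (by positivity) h2 _
  have h8 : (K:ℝ) * ((j:ℝ) + 1) ≤ C2 * Bn d (n + j) * (((j:ℝ) + 1) ^ d * (q ^ 2) ^ j) := by
    have h9 : (2:ℝ) ^ n = 2 ^ (n + j) * (q ^ (2 * m)) ^ j := by
      rw [hq, pow_add, mul_assoc, ← mul_pow]
      norm_num
    have h10 : (q ^ (2 * m)) ^ j ≤ (q ^ 2) ^ j :=
      pow_le_pow_left₀ (by positivity) (pow_le_pow_of_le_one hq0.le hq1 (by omega)) j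
    have h11 : (j:ℝ) + 1 ≤ ((j:ℝ) + 1) ^ d := le_self_pow₀ (by linarith) (by omega)
    have h12 : ((n:ℝ) + 1) ^ (d - 1) ≤ (((n + j : ℕ) : ℝ) + 1) ^ (d - 1) := by
      apply pow_le_pow_left₀ hn.le
      push_cast
      linarith
    unfold Bn
    calc (K:ℝ) * ((j:ℝ) + 1) ≤ (C2 * 2 ^ n * ((n:ℝ) + 1) ^ (d - 1)) * ((j:ℝ) + 1) ^ d := by
          gcongr
      _ = (C2 * (2 ^ (n + j) * (q ^ (2 * m)) ^ j) * ((n:ℝ) + 1) ^ (d - 1)) * ((j:ℝ) + 1) ^ d := by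
          rw [← h9]
      _ ≤ (C2 * (2 ^ (n + j) * (q ^ 2) ^ j) * (((n + j : ℕ) : ℝ) + 1) ^ (d - 1)) *
          ((j:ℝ) + 1) ^ d := by gcongr
      _ = C2 * (2 ^ (n + j) * (((n + j : ℕ) : ℝ) + 1) ^ (d - 1)) *
          (((j:ℝ) + 1) ^ d * (q ^ 2) ^ j) := by ring
  rw [h1']
  calc _ ≤ Real.exp (C * (K + ((n:ℝ) + 1))) * Real.exp ((2 * K : ℕ) * ((r + 1) * j + 2)) := by
        gcongr
    _ = Real.exp (C * (K + ((n:ℝ) + 1)) + (2 * K : ℕ) * ((r + 1) * j + 2)) := by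
        rw [← Real.exp_add]
    _ ≤ _ := by
        apply Real.exp_le_exp.2
        have hK0 : (0:ℝ) ≤ K := Nat.cast_nonneg K
        push_cast
        have h13 : (K:ℝ) * (C + 2 * ((r + 1) * j + 2)) ≤
            (C + 2 * (r + 3)) * ((K:ℝ) * ((j:ℝ) + 1)) := by
          have h14 : C + 2 * ((r + 1) * j + 2) ≤ (C + 2 * (r + 3)) * ((j:ℝ) + 1) := by
            nlinarith [mul_nonneg hC.le hj]
          calc (K:ℝ) * (C + 2 * ((r + 1) * j + 2)) ≤ K * ((C + 2 * (r + 3)) * ((j:ℝ) + 1)) :=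
                mul_le_mul_of_nonneg_left h14 hK0
            _ = _ := by ring
        have h15 : (C + 2 * (r + 3)) * ((K:ℝ) * ((j:ℝ) + 1)) ≤
            (C + 2 * (r + 3)) * (C2 * Bn d (n + j) * (((j:ℝ) + 1) ^ d * (q ^ 2) ^ j)) :=
          mul_le_mul_of_nonneg_left h8 (by linarith)
        have h16 : (C + 2 * (r + 3)) * (C2 * Bn d (n + j) * (((j:ℝ) + 1) ^ d * (q ^ 2) ^ j)) =
            (C2 * (C + 2 * (r + 3))) * Bn d (n + j) * (((j:ℝ) + 1) ^ d * (q ^ 2) ^ j) := by ring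
        rw [← h16]
        nlinarith [h13, h15]

theorem schemeH1_high (d : ℕ) (hd : 1 ≤ d) (C C2 q : ℝ) (m : ℕ) (hC : 0 < C) (hC2 : 0 < C2)
    (hq0 : 0 < q) (hq : q ^ (2 * m) = 1 / 2)
    (K : ℕ) (n0 j : ℕ)
    (hK : (K:ℝ) ≤ C2 * 2 ^ (n0 + j) * (((n0 + j : ℕ):ℝ) + 1) ^ (d - 1)) :
    C * (K * (((n0 + j : ℕ):ℝ) + 1) / (Real.sqrt ((n0:ℝ) + 1) * (q⁻¹) ^ ((m + 1) * j)) ^ 2 +
        (((n0 + j : ℕ):ℝ) + 1)) ≤
      C * (((n0 + j : ℕ):ℝ) + 1) + (C2 * C) * Bn d n0 * (((j:ℝ) + 1) ^ d * (q ^ 2) ^ j) := by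
  have hn0 : (0:ℝ) < (n0:ℝ) + 1 := by positivity
  have hj : (0:ℝ) ≤ (j:ℝ) := Nat.cast_nonneg j
  have h1 : (Real.sqrt ((n0:ℝ) + 1) * (q⁻¹) ^ ((m + 1) * j)) ^ 2 = ((n0:ℝ) + 1) * (q⁻¹) ^ ((2 * m + 2) * j) := by
    rw [mul_pow, Real.sq_sqrt hn0.le, ← pow_mul]
    congr 2
    ring
  have h2 : (q ^ 2) ^ j * (q⁻¹) ^ ((2 * m + 2) * j) = 2 ^ j := by
    have h3 : (q⁻¹) ^ ((2 * m + 2) * j) = ((q⁻¹) ^ (2 * m + 2)) ^ j := by rw [pow_mul]
    rw [h3, ← mul_pow]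
    congr 1
    have h4 : q ^ 2 * (q⁻¹) ^ (2 * m + 2) = (q ^ (2 * m))⁻¹ := by
      rw [pow_add, inv_pow, inv_pow]
      field_simp
    rw [h4, hq]
    norm_num
  have h5 : (K:ℝ) * (((n0 + j : ℕ):ℝ) + 1) / (((n0:ℝ) + 1) * (q⁻¹) ^ ((2 * m + 2) * j)) ≤
      C2 * Bn d n0 * (((j:ℝ) + 1) ^ d * (q ^ 2) ^ j) := by
    rw [div_le_iff₀ (by positivity)]
    have h6 : C2 * Bn d n0 * (((j:ℝ) + 1) ^ d * (q ^ 2) ^ j) * (((n0:ℝ) + 1) * (q⁻¹) ^ ((2 * m + 2) * j)) =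
        C2 * 2 ^ (n0 + j) * (((n0:ℝ) + 1) * ((j:ℝ) + 1)) ^ d := by
      unfold Bn
      have h7 : ((n0:ℝ) + 1) ^ (d - 1) * ((n0:ℝ) + 1) = ((n0:ℝ) + 1) ^ d := by
        rw [← pow_succ]
        congr 1
        omega
      calc _ = C2 * 2 ^ n0 * (((n0:ℝ) + 1) ^ (d - 1) * ((n0:ℝ) + 1)) * ((j:ℝ) + 1) ^ d *
            ((q ^ 2) ^ j * (q⁻¹) ^ ((2 * m + 2) * j)) := by ring
        _ = _ := by
            rw [h7, h2, mul_pow, pow_add]
            ring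
    rw [h6]
    have h8 : (((n0 + j : ℕ):ℝ) + 1) ≤ ((n0:ℝ) + 1) * ((j:ℝ) + 1) := by
      push_cast
      have : (0:ℝ) ≤ (n0:ℝ) * j := by positivity
      nlinarith
    have h9 : (((n0 + j : ℕ):ℝ) + 1) ^ (d - 1) * (((n0 + j : ℕ):ℝ) + 1) =
        (((n0 + j : ℕ):ℝ) + 1) ^ d := by
      rw [← pow_succ]
      congr 1
      omega
    calc (K:ℝ) * (((n0 + j : ℕ):ℝ) + 1) ≤
          (C2 * 2 ^ (n0 + j) * (((n0 + j : ℕ):ℝ) + 1) ^ (d - 1)) * (((n0 + j : ℕ):ℝ) + 1) := by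
          gcongr
      _ = C2 * 2 ^ (n0 + j) * (((n0 + j : ℕ):ℝ) + 1) ^ d := by rw [mul_assoc, h9]
      _ ≤ _ := by gcongr
  rw [h1, mul_add, add_comm]
  have h10 := mul_le_mul_of_nonneg_left h5 hC.le
  have h11 : C * (C2 * Bn d n0 * (((j:ℝ) + 1) ^ d * (q ^ 2) ^ j)) =
      (C2 * C) * Bn d n0 * (((j:ℝ) + 1) ^ d * (q ^ 2) ^ j) := by ring
  rw [← h11]
  linarith

theorem schemeH1_K (d : ℕ) (hd : 1 ≤ d) : ∃ C2 : ℝ, 0 < C2 ∧ ∀ n : ℕ,
    ((layer d n).card : ℝ) ≤ C2 * 2 ^ n * ((n:ℝ) + 1) ^ (d - 1) := by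
  obtain ⟨C', hC', h⟩ := shp_upper d hd
  have h00 : (0:ℝ) ≤ (shp d 0 : ℝ) := Nat.cast_nonneg _
  refine ⟨C' + shp d 0, by positivity, fun n => ?_⟩
  rw [card_layer]
  push_cast
  have h1 : (shp d n : ℝ) ≤ (C' + shp d 0) * ((n:ℝ) + 1) ^ (d - 1) := by
    rcases Nat.eq_zero_or_pos n with rfl | hn
    · simp only [Nat.cast_zero, zero_add, one_pow, mul_one]
      linarith
    · calc (shp d n : ℝ) ≤ C' * (n:ℝ) ^ (d - 1) := h n hn
        _ ≤ (C' + shp d 0) * ((n:ℝ) + 1) ^ (d - 1) := by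
          gcongr
          · linarith
          · linarith
  calc (2:ℝ) ^ n * shp d n ≤ 2 ^ n * ((C' + shp d 0) * ((n:ℝ) + 1) ^ (d - 1)) := by gcongr
    _ = _ := by ring

theorem schemeH1_summ (k : ℕ) (x : ℝ) (hx0 : 0 < x) (hx1 : x < 1) :
    Summable (fun n : ℕ => ((n:ℝ) + 1) ^ k * x ^ n) := by
  have h1 : Summable (fun n : ℕ => (n:ℝ) ^ k * x ^ n) :=
    summable_pow_mul_geometric_of_norm_lt_one k (by rw [Real.norm_of_nonneg hx0.le]; exact hx1)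
  have h2 := ((summable_nat_add_iff 1).2 h1).mul_left (x⁻¹)
  refine h2.congr (fun n => ?_)
  push_cast
  rw [pow_succ]
  field_simp

theorem schemeH1_N3 (k : ℕ) (C2 q : ℝ) (hC2 : 0 < C2) (hq0 : 0 < q) (hq1 : q < 1) :
    ∃ N3 : ℕ, ∀ n : ℕ, N3 ≤ n → C2 * ((n:ℝ) + 1) ^ k ≤ (q⁻¹) ^ n := by
  have h1 := (schemeH1_summ k q hq0 hq1).tendsto_atTop_zero
  have h2 : ∀ᶠ n : ℕ in Filter.atTop, ((n:ℝ) + 1) ^ k * q ^ n < 1 / C2 :=
    h1.eventually (gt_mem_nhds (by positivity))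
  obtain ⟨N3, hN3⟩ := Filter.eventually_atTop.1 h2
  refine ⟨N3, fun n hn => ?_⟩
  have h3 := (hN3 n hn).le
  rw [le_div_iff₀ hC2] at h3
  rw [inv_pow, ← one_div, le_div_iff₀ (by positivity)]
  calc _ = ((n:ℝ) + 1) ^ k * q ^ n * C2 := by ring
    _ ≤ 1 := h3

theorem schemeH1 (d : ℕ) (hd : 3 ≤ d) (r : ℝ) (hr : 1/2 < r) (V : ∀ n, Set ((layer d n) × Fin 2 → ℝ))
    (ν : ∀ n, ((layer d n) × Fin 2 → ℝ) → ℝ) (hnet : NetP d V ν)
    (htriv : ∀ n, ∀ a ∈ V n, ν n a ≤ Real.sqrt ((layer d n).card)) :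
    ∃ C1 : ℝ, 0 < C1 ∧ ∀ n0 : ℕ, ∃ (L : ℕ) (S : ∀ n, Finset ((layer d n) × Fin 2 → ℝ)) (e : ℕ → ℝ),
      (∏ n ∈ Finset.range L, ((S n).card : ℝ)) ≤ Real.exp (C1 * Bn d n0) ∧
      (∀ n < L, ∀ a ∈ V n, ∃ s ∈ S n, ν n (a - s) ≤ e n) ∧ (∀ n, L ≤ n → ∀ a ∈ V n, ν n a ≤ e n) ∧
      (∀ n, 0 ≤ e n) ∧ Summable (fun n : ℕ => (2:ℝ)^(-(r * n)) * e n) ∧
      ∑' n : ℕ, (2:ℝ)^(-(r * n)) * e n ≤ C1 * (2:ℝ)^(-(r * n0)) * Real.sqrt ((n0:ℝ) + 1) := by
  obtain ⟨C, hC, hA, hB⟩ := hnet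
  obtain ⟨C2, hC2, hK⟩ := schemeH1_K d (by omega)
  have hr0 : 0 < r := by linarith
  obtain ⟨m0, hm0⟩ := exists_nat_gt (1 / (r - 1 / 2))
  obtain ⟨m, hm⟩ : ∃ m : ℕ, m = m0 + 1 := ⟨_, rfl⟩
  have hm1 : 1 ≤ m := by omega
  have hmR : (0 : ℝ) < m := by exact_mod_cast hm1
  have hmr : (m : ℝ) + 2 ≤ 2 * m * r := by
    have h1 : 0 < r - 1 / 2 := by linarith
    rw [div_lt_iff₀ h1] at hm0
    have h2 : (m : ℝ) = m0 + 1 := by rw [hm]; push_cast; ring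
    nlinarith
  obtain ⟨q, hq0, hqd⟩ : ∃ q : ℝ, 0 < q ∧ q = (2:ℝ) ^ (-(1 / (2 * m)) : ℝ) :=
    ⟨_, by positivity, rfl⟩
  have hq : q ^ (2 * m) = 1 / 2 := by
    rw [hqd, ← Real.rpow_natCast, ← Real.rpow_mul (by norm_num)]
    push_cast
    have : -(1 / (2 * (m : ℝ))) * (2 * m) = -1 := by field_simp
    rw [this, Real.rpow_neg_one]
    norm_num
  have hq1 : q < 1 := by
    by_contra h
    push Not at h
    have := one_le_pow₀ h (n := 2 * m)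
    rw [hq] at this
    norm_num at this
  have hqi : 1 ≤ q⁻¹ := (one_le_inv₀ hq0).2 hq1.le
  obtain ⟨N3, hN3⟩ := schemeH1_N3 (d - 1) C2 q hC2 hq0 hq1
  
  obtain ⟨s, hs⟩ : ∃ s : ℝ, s = (2:ℝ) ^ (-r) := ⟨_, rfl⟩
  have hs0 : 0 < s := by rw [hs]; positivity
  have hsq : s ≤ q ^ (m + 2) := by
    rw [hs, hqd, ← Real.rpow_natCast, ← Real.rpow_mul (by norm_num)]
    apply Real.rpow_le_rpow_of_exponent_le (by norm_num)
    push_cast
    have : -(1 / (2 * (m : ℝ))) * (m + 2) = -(((m : ℝ) + 2) / (2 * m)) := by ring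
    rw [this]
    apply neg_le_neg
    rw [div_le_iff₀ (by positivity)]
    linarith
  have hs1 : s ≤ 1 := by
    rw [hs]
    exact Real.rpow_le_one_of_one_le_of_nonpos (by norm_num) (by linarith)
  have hsn : ∀ n : ℕ, (2:ℝ) ^ (-(r * n)) = s ^ n := by
    intro n
    rw [hs, ← Real.rpow_natCast, ← Real.rpow_mul (by norm_num)]
    congr 1
    ring
  obtain ⟨p, hp⟩ : ∃ p : ℝ, p = s / 2 := ⟨_, rfl⟩
  have hp0 : 0 < p := by rw [hp]; positivity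
  have hp1 : p ≤ 1 := by rw [hp]; linarith
  have hp2 : p⁻¹ ≤ Real.exp (r + 1) := by
    have h1 : p⁻¹ = (2:ℝ) ^ (r + 1) := by
      rw [hp, hs, Real.rpow_add (by norm_num), Real.rpow_one, Real.rpow_neg (by norm_num)]
      field_simp
    rw [h1, Real.rpow_def_of_pos (by norm_num)]
    apply Real.exp_le_exp.2
    have h2 : Real.log 2 ≤ 1 := by
      have := Real.log_two_lt_d9
      linarith
    nlinarith
  set h : ℕ → ℝ := fun j => ((j:ℝ) + 1) ^ d * (q ^ 2) ^ j with hh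
  have hh0 : ∀ j, 0 ≤ h j := fun j => by simp only [hh]; positivity
  have hq2 : q ^ 2 < 1 := by nlinarith
  have hhs : Summable h := schemeH1_summ d (q ^ 2) (by positivity) hq2
  have hgs : Summable (fun j : ℕ => q ^ j) := summable_geometric_of_lt_one hq0.le hq1
  obtain ⟨D, hD⟩ : ∃ D : ℝ, D = C2 * (C + 2 * (r + 3)) := ⟨_, rfl⟩
  have hD0 : 0 < D := by rw [hD]; positivity
  have hDC : C2 * C ≤ D := by
    rw [hD]
    apply mul_le_mul_of_nonneg_left _ hC2.le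
    linarith
  obtain ⟨C3, hC3⟩ : ∃ C3 : ℕ, C3 = max (2 * m + 2) N3 := ⟨_, rfl⟩
  have hC3a : 2 * m + 2 ≤ C3 := by rw [hC3]; exact le_max_left _ _
  have hC3b : N3 ≤ C3 := by rw [hC3]; exact le_max_right _ _
  have hH0 : 0 ≤ ∑' j, h j := tsum_nonneg hh0
  have hG0 : 0 ≤ ∑' j : ℕ, q ^ j := tsum_nonneg (fun j => by positivity)
  refine ⟨C * (C3:ℝ) ^ 2 + 2 * D * (∑' j, h j) + 2 * (∑' j : ℕ, q ^ j) + 1, by positivity, fun n0 => ?_⟩
  have hn01 : (1:ℝ) ≤ Real.sqrt ((n0:ℝ) + 1) := by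
    rw [Real.one_le_sqrt]
    linarith [Nat.cast_nonneg (α := ℝ) n0]
  have hBn0 : 0 < Bn d n0 := by
    unfold Bn
    positivity
  obtain ⟨e, he⟩ : ∃ e : ℕ → ℝ, e = fun n => if n < n0 then Real.sqrt ((n:ℝ) + 1) * p ^ (n0 - n)
    else Real.sqrt ((n0:ℝ) + 1) * (q⁻¹) ^ ((m + 1) * (n - n0)) := ⟨_, rfl⟩
  have hS : ∀ n, ∃ S : Finset ((layer d n) × Fin 2 → ℝ),
      (S.card : ℝ) ≤ Real.exp (C * ((n:ℝ) + 1) + D * Bn d n0 * h ((n - n0) + (n0 - n))) ∧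
      ∀ a ∈ V n, ∃ s ∈ S, ν n (a - s) ≤ e n := by
    intro n
    by_cases hn : n < n0
    · have h1 : (1:ℝ) ≤ Real.sqrt ((n:ℝ) + 1) := by
        rw [Real.one_le_sqrt]
        linarith [Nat.cast_nonneg (α := ℝ) n]
      obtain ⟨S, hS1, hS2⟩ := hB n (Real.sqrt ((n:ℝ) + 1)) (p ^ (n0 - n)) h1 (by positivity)
        (pow_le_one₀ hp0.le hp1)
      refine ⟨S, hS1.trans ?_, ?_⟩
      · have h2 := schemeH1_low d (by omega) C C2 r p q m hm1 hC hC2 hr0 hp0 hp2 hq0 hq1.le hq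
          (layer d n).card n (n0 - n) (hK n)
        have h3 : n + (n0 - n) = n0 := by omega
        have h4 : (n - n0) + (n0 - n) = n0 - n := by omega
        rw [h3, ← hD] at h2
        rw [h4]
        exact h2
      · intro a ha
        obtain ⟨t, ht, h2⟩ := hS2 a ha
        refine ⟨t, ht, h2.trans (le_of_eq ?_)⟩
        rw [he]
        simp only [if_pos hn]
        rw [mul_comm]
    · obtain ⟨j, rfl⟩ : ∃ j, n = n0 + j := ⟨n - n0, by omega⟩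
      have h1 : (1:ℝ) ≤ Real.sqrt ((n0:ℝ) + 1) * (q⁻¹) ^ ((m + 1) * j) :=
        one_le_mul_of_one_le_of_one_le hn01 (one_le_pow₀ hqi)
      obtain ⟨S, hS1, hS2⟩ := hA (n0 + j) _ h1
      refine ⟨S, hS1.trans ?_, ?_⟩
      · apply Real.exp_le_exp.2
        have h2 := schemeH1_high d (by omega) C C2 q m hC hC2 hq0 hq
          (layer d (n0 + j)).card n0 j (hK (n0 + j))
        refine h2.trans ?_
        have h4 : (n0 + j - n0) + (n0 - (n0 + j)) = j := by omega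
        rw [h4]
        have h5 : (C2 * C) * (Bn d n0 * h j) ≤ D * (Bn d n0 * h j) :=
          mul_le_mul_of_nonneg_right hDC (mul_nonneg hBn0.le (hh0 j))
        have h6 : (C2 * C) * Bn d n0 * (((j:ℝ) + 1) ^ d * (q ^ 2) ^ j) =
          (C2 * C) * (Bn d n0 * h j) := by
          simp only [hh]
          ring
        rw [h6, mul_assoc D]
        linarith
      · intro a ha
        obtain ⟨t, ht, h2⟩ := hS2 a ha
        refine ⟨t, ht, h2.trans (le_of_eq ?_)⟩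
        rw [he]
        simp only [if_neg hn]
        rw [Nat.add_sub_cancel_left]
  choose S hS1 hS2 using hS
  have he0 : ∀ n, 0 ≤ e n := by
    intro n
    rw [he]
    simp only
    split_ifs <;> positivity
  have hes : ∀ n : ℕ, (2:ℝ) ^ (-(r * n)) * e n ≤
      (s ^ n0 * Real.sqrt ((n0:ℝ) + 1)) * q ^ ((n - n0) + (n0 - n)) := by
    intro n
    rw [hsn, he]
    simp only
    split_ifs with hn
    · obtain ⟨j, rfl⟩ : ∃ j, n0 = n + j := ⟨n0 - n, by omega⟩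
      have h4 : (n - (n + j)) + (n + j - n) = j := by omega
      rw [h4, Nat.add_sub_cancel_left]
      have h5 : Real.sqrt ((n:ℝ) + 1) ≤ Real.sqrt (((n + j : ℕ):ℝ) + 1) := by
        apply Real.sqrt_le_sqrt
        push_cast
        linarith [Nat.cast_nonneg (α := ℝ) j]
      have h6 : (1 / 2 : ℝ) ^ j ≤ q ^ j := by
        apply pow_le_pow_left₀ (by norm_num)
        rw [← hq]
        exact pow_le_of_le_one hq0.le hq1.le (by omega)
      have h7 : s ^ n * (Real.sqrt ((n:ℝ) + 1) * p ^ j) =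
          (s ^ (n + j) * Real.sqrt ((n:ℝ) + 1)) * (1 / 2 : ℝ) ^ j := by
        rw [hp, div_pow, pow_add, one_div, inv_pow]
        field_simp
      rw [h7]
      gcongr
    · obtain ⟨j, rfl⟩ : ∃ j, n = n0 + j := ⟨n - n0, by omega⟩
      have h4 : (n0 + j - n0) + (n0 - (n0 + j)) = j := by omega
      rw [h4, Nat.add_sub_cancel_left]
      have h7 : s ^ (n0 + j) * (Real.sqrt ((n0:ℝ) + 1) * (q⁻¹) ^ ((m + 1) * j)) =
          (s ^ n0 * Real.sqrt ((n0:ℝ) + 1)) * (s * (q⁻¹) ^ (m + 1)) ^ j := by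
        rw [pow_add, mul_pow, pow_mul]
        ring
      rw [h7]
      have h8 : s * (q⁻¹) ^ (m + 1) ≤ q := by
        calc s * (q⁻¹) ^ (m + 1) ≤ q ^ (m + 2) * (q⁻¹) ^ (m + 1) := by gcongr
          _ = q := by
            rw [inv_pow, pow_succ q (m + 1)]
            field_simp
      gcongr
  obtain ⟨hd1, hd2⟩ := schemeH1_dist (fun j => q ^ j) hgs (fun j => by positivity) n0
  obtain ⟨hd3, hd4⟩ := schemeH1_dist h hhs hh0 n0
  have hsumm : Summable (fun n : ℕ => (2:ℝ) ^ (-(r * n)) * e n) :=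
    Summable.of_nonneg_of_le (fun n => mul_nonneg (by positivity) (he0 n)) hes
      (hd1.mul_left _)
  refine ⟨C3 * (n0 + 1), S, e, ?_, fun n _ => hS2 n, ?_, he0, hsumm, ?_⟩
  · calc (∏ n ∈ Finset.range (C3 * (n0 + 1)), ((S n).card : ℝ)) ≤
          ∏ n ∈ Finset.range (C3 * (n0 + 1)),
            Real.exp (C * ((n:ℝ) + 1) + D * Bn d n0 * h ((n - n0) + (n0 - n))) :=
          Finset.prod_le_prod (fun n _ => Nat.cast_nonneg _) (fun n _ => hS1 n)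
      _ = Real.exp (∑ n ∈ Finset.range (C3 * (n0 + 1)),
            (C * ((n:ℝ) + 1) + D * Bn d n0 * h ((n - n0) + (n0 - n)))) := by
          rw [Real.exp_sum]
      _ ≤ _ := by
          apply Real.exp_le_exp.2
          rw [Finset.sum_add_distrib, ← Finset.mul_sum, ← Finset.mul_sum]
          have h1 : ∑ n ∈ Finset.range (C3 * (n0 + 1)), ((n:ℝ) + 1) ≤
              ((C3:ℝ) * ((n0:ℝ) + 1)) * ((C3:ℝ) * ((n0:ℝ) + 1)) := by
            have h2 : ∀ n ∈ Finset.range (C3 * (n0 + 1)), ((n:ℝ) + 1) ≤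
                (C3:ℝ) * ((n0:ℝ) + 1) := by
              intro n hn
              have h3 := Finset.mem_range.1 hn
              have h4 : ((n + 1 : ℕ) : ℝ) ≤ ((C3 * (n0 + 1) : ℕ) : ℝ) := by
                exact_mod_cast h3
              push_cast at h4
              exact h4
            have h5 := Finset.sum_le_card_nsmul _ _ _ h2
            rw [Finset.card_range, nsmul_eq_mul] at h5
            push_cast at h5
            exact h5
          have h6 : ((C3:ℝ) * ((n0:ℝ) + 1)) * ((C3:ℝ) * ((n0:ℝ) + 1)) ≤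
              (C3:ℝ) ^ 2 * Bn d n0 := by
            have h7 : ((n0:ℝ) + 1) ^ 2 ≤ Bn d n0 := by
              unfold Bn
              have h8 : ((n0:ℝ) + 1) ^ 2 ≤ ((n0:ℝ) + 1) ^ (d - 1) :=
                pow_le_pow_right₀ (by linarith [Nat.cast_nonneg (α := ℝ) n0]) (by omega)
              have h9 : (1:ℝ) ≤ 2 ^ n0 := one_le_pow₀ (by norm_num)
              have h10 : (0:ℝ) ≤ ((n0:ℝ) + 1) ^ (d - 1) := by positivity
              nlinarith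
            calc ((C3:ℝ) * ((n0:ℝ) + 1)) * ((C3:ℝ) * ((n0:ℝ) + 1)) =
                  (C3:ℝ) ^ 2 * ((n0:ℝ) + 1) ^ 2 := by ring
              _ ≤ _ := by gcongr
          have h11 : ∑ n ∈ Finset.range (C3 * (n0 + 1)), h ((n - n0) + (n0 - n)) ≤
              2 * ∑' j, h j :=
            (hd3.sum_le_tsum _ (fun n _ => hh0 _)).trans hd4
          have h12 := mul_le_mul_of_nonneg_left (h1.trans h6) hC.le
          have h13 := mul_le_mul_of_nonneg_left h11 (mul_nonneg hD0.le hBn0.le)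
          have h14 : 0 ≤ (2 * (∑' j : ℕ, q ^ j) + 1) * Bn d n0 := by positivity
          nlinarith
  · intro n hn a ha
    refine (htriv n a ha).trans ?_
    have hnn : ¬ n < n0 := by
      have : n0 < C3 * (n0 + 1) := by nlinarith
      omega
    have h1 : (2 * m + 2) * (n0 + 1) ≤ n := le_trans (Nat.mul_le_mul_right _ hC3a) hn
    have h1' : 2 * m * n + n ≤ (m + 1) * (n - n0) * 2 := by
      obtain ⟨j, rfl⟩ : ∃ j, n = n0 + j := ⟨n - n0, by omega⟩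
      rw [Nat.add_sub_cancel_left]
      nlinarith
    have h2 : N3 ≤ n := by
      refine hC3b.trans (le_trans ?_ hn)
      exact Nat.le_mul_of_pos_right _ (by omega)
    rw [he]
    simp only [if_neg hnn]
    have h3 : Real.sqrt ((layer d n).card) ≤ (q⁻¹) ^ ((m + 1) * (n - n0)) := by
      rw [Real.sqrt_le_left (by positivity)]
      refine (hK n).trans ?_
      have h4 : (2:ℝ) ^ n = (q⁻¹) ^ (2 * m * n) := by
        rw [pow_mul, inv_pow, hq]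
        norm_num
      calc C2 * 2 ^ n * ((n:ℝ) + 1) ^ (d - 1) = 2 ^ n * (C2 * ((n:ℝ) + 1) ^ (d - 1)) := by ring
        _ ≤ (q⁻¹) ^ (2 * m * n) * (q⁻¹) ^ n := by
            rw [← h4]
            exact mul_le_mul_of_nonneg_left (hN3 n h2) (by positivity)
        _ = (q⁻¹) ^ (2 * m * n + n) := by rw [pow_add]
        _ ≤ (q⁻¹) ^ ((m + 1) * (n - n0) * 2) := pow_le_pow_right₀ hqi h1'
        _ = _ := by rw [pow_mul]
    calc Real.sqrt ((layer d n).card) ≤ (q⁻¹) ^ ((m + 1) * (n - n0)) := h3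
      _ = 1 * (q⁻¹) ^ ((m + 1) * (n - n0)) := (one_mul _).symm
      _ ≤ _ := by gcongr
  · rw [hsn]
    calc _ ≤ ∑' n : ℕ, (s ^ n0 * Real.sqrt ((n0:ℝ) + 1)) * q ^ ((n - n0) + (n0 - n)) :=
          hsumm.tsum_le_tsum hes (hd1.mul_left _)
      _ = (s ^ n0 * Real.sqrt ((n0:ℝ) + 1)) * ∑' n : ℕ, q ^ ((n - n0) + (n0 - n)) :=
          tsum_mul_left
      _ ≤ (s ^ n0 * Real.sqrt ((n0:ℝ) + 1)) * (2 * ∑' j : ℕ, q ^ j) :=
          mul_le_mul_of_nonneg_left hd2 (by positivity)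
      _ ≤ _ := by
          have h1 : 0 ≤ (C * (C3:ℝ) ^ 2 + 2 * D * (∑' j, h j) + 1) *
            (s ^ n0 * Real.sqrt ((n0:ℝ) + 1)) := by positivity
          nlinarith

end Sol_EX_schemeH1

alias schemeH1 := Sol_EX_schemeH1.schemeH1

end HypVol
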