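import Pool.Agent.EntX.Defs
import Pool.Agent.EntX.L_fc_unique
import Pool.Agent.HypVol.L_fc_poly
import Pool.Agent.EntX.L_fc_poly_out
import Pool.Agent.HypVol.L_mem_layer
import Pool.Agent.HypVol.L_TP_prob
open MeasureTheory Real ProbabilityTheory
open scoped ENNReal BigOperators

namespace HypVol
namespace Sol_EX_series_bound

theorem sb_poly_cont {d n : ℕ} (a : (layer d n) × Fin 2 → ℝ) : Continuous (poly a) := by
  unfold poly
  fun_prop

theorem sb_poly_int {d n : ℕ} (a : (layer d n) × Fin 2 → ℝ) : Integrable (poly a) (TP d) := by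
  haveI := TP_prob d
  refine Integrable.of_bound (sb_poly_cont a).aestronglyMeasurable
    (∑ k : layer d n, ‖((a (k, 0) : ℂ) + (a (k, 1) : ℂ) * Complex.I)‖) (ae_of_all _ (fun x => ?_))
  unfold poly
  refine (norm_sum_le _ _).trans (Finset.sum_le_sum (fun k _ => ?_))
  rw [norm_mul, Complex.norm_exp_I_mul_ofReal, mul_one]

noncomputable def sbe {d : ℕ} (k : Fin d → ℤ) (x : Fin d → ℝ) : ℂ :=
  Complex.exp (-(Complex.I * ((∑ j, (k j : ℝ) * x j : ℝ) : ℂ)))

theorem sbe_norm {d : ℕ} (k : Fin d → ℤ) (x : Fin d → ℝ) : ‖sbe k x‖ = 1 := by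
  unfold sbe
  have : -(Complex.I * ((∑ j, (k j : ℝ) * x j : ℝ) : ℂ)) = Complex.I * ((-(∑ j, (k j : ℝ) * x j) : ℝ) : ℂ) := by
    push_cast
    ring
  rw [this, Complex.norm_exp_I_mul_ofReal]

theorem sbe_cont {d : ℕ} (k : Fin d → ℤ) : Continuous (sbe k) := by
  unfold sbe
  fun_prop

theorem sb_int_mul {d : ℕ} (k : Fin d → ℤ) (g : (Fin d → ℝ) → ℂ) (hg : Integrable g (TP d)) :
    Integrable (fun x => g x * sbe k x) (TP d) := by
  refine Integrable.mono' hg.norm (hg.aestronglyMeasurable.mul (sbe_cont k).aestronglyMeasurable)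
    (ae_of_all _ (fun x => ?_))
  rw [norm_mul, sbe_norm, mul_one]

theorem sb_fc {d : ℕ} (g : (Fin d → ℝ) → ℂ) (k : Fin d → ℤ) : fc g k = ∫ x, g x * sbe k x ∂(TP d) := rfl

theorem sb_lim {d : ℕ} (p : ℝ≥0∞) (hp : 1 ≤ p) (g : ℕ → (Fin d → ℝ) → ℂ)
    (hg : ∀ n, AEStronglyMeasurable (g n) (TP d)) (B : ℕ → ℝ) (hB0 : ∀ n, 0 ≤ B n) (hB : Summable B)
    (hs : ∀ᵐ x ∂(TP d), Summable (fun n => g n x))
    (h : ∀ n, eLpNorm (g n) p (TP d) ≤ ENNReal.ofReal (B n)) :
    eLpNorm (fun x => ∑' n, g n x) p (TP d) ≤ ENNReal.ofReal (∑' n, B n) := by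
  have h1 := Lp.eLpNorm_lim_le_liminf_eLpNorm (p := p) (μ := TP d)
    (f := fun N x => ∑ n ∈ Finset.range N, g n x)
    (fun N => by
      have := Finset.aestronglyMeasurable_sum (μ := TP d) (f := g) (Finset.range N) (fun i _ => hg i)
      refine this.congr (ae_of_all _ (fun x => ?_))
      simp) (fun x => ∑' n, g n x)
    (hs.mono (fun x hx => hx.hasSum.tendsto_sum_nat))
  refine h1.trans ?_
  refine Filter.liminf_le_of_frequently_le' (Filter.Frequently.of_forall (fun N => ?_))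
  have h2 : (fun x => ∑ n ∈ Finset.range N, g n x) = ∑ n ∈ Finset.range N, g n := by
    funext x; simp
  rw [h2]
  refine (eLpNorm_sum_le (fun i _ => hg i) hp).trans ?_
  refine (Finset.sum_le_sum (fun i _ => h i)).trans ?_
  rw [← ENNReal.ofReal_sum_of_nonneg (fun i _ => hB0 i)]
  exact ENNReal.ofReal_le_ofReal (hB.sum_le_tsum _ (fun i _ => hB0 i))

theorem sb_summ {d : ℕ} (g : ℕ → (Fin d → ℝ) → ℂ)
    (hg : ∀ n, AEStronglyMeasurable (g n) (TP d)) (B : ℕ → ℝ) (hB0 : ∀ n, 0 ≤ B n) (hB : Summable B)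
    (h : ∀ n, eLpNorm (g n) 1 (TP d) ≤ ENNReal.ofReal (B n)) :
    ∀ᵐ x ∂(TP d), Summable (fun n => g n x) := by
  have h1 : ∫⁻ x, ∑' n, ‖g n x‖ₑ ∂(TP d) ≠ ⊤ := by
    rw [lintegral_tsum (fun n => (hg n).enorm)]
    have h2 : ∑' n, ∫⁻ x, ‖g n x‖ₑ ∂(TP d) ≤ ∑' n, ENNReal.ofReal (B n) := by
      refine ENNReal.tsum_le_tsum (fun n => ?_)
      rw [← eLpNorm_one_eq_lintegral_enorm]
      exact h n
    refine ne_top_of_le_ne_top ?_ h2
    rw [← ENNReal.ofReal_tsum_of_nonneg hB0 hB]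
    exact ENNReal.ofReal_ne_top
  have h3 := ae_lt_top' (AEMeasurable.ennreal_tsum (fun n => (hg n).enorm)) h1
  refine h3.mono (fun x hx => ?_)
  have h4 : ∑' n, ((‖g n x‖₊ : NNReal) : ℝ≥0∞) ≠ ⊤ := hx.ne
  have h5 := ENNReal.tsum_coe_ne_top_iff_summable.1 h4
  exact Summable.of_norm (NNReal.summable_coe.2 h5)

theorem series_bound {d : ℕ} (q : ℝ≥0∞) (hq : 1 ≤ q) (f : (Fin d → ℝ) → ℂ) (hf : Integrable f (TP d))
    (B : ℕ → ℝ) (hB0 : ∀ n, 0 ≤ B n) (hB : Summable B) (L : ℕ) (s : ∀ n, (layer d n) × Fin 2 → ℝ)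
    (hs : ∀ n, L ≤ n → s n = 0)
    (h : ∀ n, eLpNorm (poly (FC d n f - s n)) q (TP d) ≤ ENNReal.ofReal (B n)) :
    eLpNorm (fun x => f x - ∑ n ∈ Finset.range L, poly (s n) x) q (TP d) ≤ ENNReal.ofReal (∑' n, B n) := by
  haveI := TP_prob d
  set g : ℕ → (Fin d → ℝ) → ℂ := fun n => poly (FC d n f - s n) with hgdef
  have hgm : ∀ n, AEStronglyMeasurable (g n) (TP d) := fun n => (sb_poly_cont _).aestronglyMeasurable
  have hgi : ∀ n, Integrable (g n) (TP d) := fun n => sb_poly_int _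
  have h1 : ∀ n, eLpNorm (g n) 1 (TP d) ≤ ENNReal.ofReal (B n) := fun n =>
    (eLpNorm_le_eLpNorm_of_exponent_le hq (hgm n)).trans (h n)
  have hsum := sb_summ g hgm B hB0 hB h1
  set G : (Fin d → ℝ) → ℂ := fun x => ∑' n, g n x with hG
  have hGq : eLpNorm G q (TP d) ≤ ENNReal.ofReal (∑' n, B n) := sb_lim q hq g hgm B hB0 hB hsum h
  have hG1 : eLpNorm G 1 (TP d) ≤ ENNReal.ofReal (∑' n, B n) := sb_lim 1 le_rfl g hgm B hB0 hB hsum h1
  have hGm : AEStronglyMeasurable G (TP d) := by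
    refine aestronglyMeasurable_of_tendsto_ae Filter.atTop
      (f := fun N x => ∑ n ∈ Finset.range N, g n x) (fun N => ?_)
      (hsum.mono (fun x hx => hx.hasSum.tendsto_sum_nat))
    have := Finset.aestronglyMeasurable_sum (μ := TP d) (f := g) (Finset.range N) (fun i _ => hgm i)
    refine this.congr (ae_of_all _ (fun x => ?_))
    simp
  have hGi : Integrable G (TP d) :=
    memLp_one_iff_integrable.1 ⟨hGm, lt_of_le_of_lt hG1 ENNReal.ofReal_lt_top⟩
  have hint : ∀ n, ∫ x, ‖g n x‖ ∂(TP d) ≤ B n := by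
    intro n
    have h2 := h1 n
    rw [eLpNorm_one_eq_lintegral_enorm, ← ofReal_integral_norm_eq_lintegral_enorm (hgi n)] at h2
    exact (ENNReal.ofReal_le_ofReal_iff (hB0 n)).1 h2
  have hfcG : ∀ k : Fin d → ℤ, HasSum (fun n => fc (g n) k) (fc G k) := by
    intro k
    have h3 := hasSum_integral_of_summable_integral_norm (μ := TP d)
      (F := fun n x => g n x * sbe k x) (fun n => sb_int_mul k _ (hgi n)) (by
        refine Summable.of_nonneg_of_le (fun n => integral_nonneg (fun x => norm_nonneg _)) (fun n => ?_) hB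
        refine le_trans (le_of_eq ?_) (hint n)
        refine integral_congr_ae (ae_of_all _ (fun x => ?_))
        simp only [norm_mul, sbe_norm, mul_one])
    have h4 : (∫ x, ∑' n, g n x * sbe k x ∂(TP d)) = fc G k := by
      rw [sb_fc]
      refine integral_congr_ae (ae_of_all _ (fun x => ?_))
      simp only [hG]
      rw [tsum_mul_right]
    rw [h4] at h3
    exact h3
  have hS : Integrable (fun x => ∑ n ∈ Finset.range L, poly (s n) x) (TP d) :=
    integrable_finsetSum _ (fun n _ => sb_poly_int _)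
  have hD : ∀ k : Fin d → ℤ, fc (fun x => f x - ∑ n ∈ Finset.range L, poly (s n) x - G x) k = 0 := by
    intro k
    have e1 : fc (fun x => f x - ∑ n ∈ Finset.range L, poly (s n) x - G x) k =
        fc f k - ∑ n ∈ Finset.range L, fc (poly (s n)) k - fc G k := by
      have i1 := sb_int_mul k _ hf
      have i2 := sb_int_mul k _ hS
      have i3 := sb_int_mul k _ hGi
      have a1 : ∫ x, ((f x * sbe k x - (∑ n ∈ Finset.range L, poly (s n) x) * sbe k x) - G x * sbe k x) ∂(TP d) =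
        (∫ x, (f x * sbe k x - (∑ n ∈ Finset.range L, poly (s n) x) * sbe k x) ∂(TP d)) -
          ∫ x, G x * sbe k x ∂(TP d) := integral_sub (i1.sub i2) i3
      have a2 : ∫ x, (f x * sbe k x - (∑ n ∈ Finset.range L, poly (s n) x) * sbe k x) ∂(TP d) =
        (∫ x, f x * sbe k x ∂(TP d)) - ∫ x, (∑ n ∈ Finset.range L, poly (s n) x) * sbe k x ∂(TP d) :=
        integral_sub i1 i2
      have a3 : ∫ x, (∑ n ∈ Finset.range L, poly (s n) x) * sbe k x ∂(TP d) =
          ∑ n ∈ Finset.range L, fc (poly (s n)) k := by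
        simp only [sb_fc]
        rw [← integral_finsetSum _ (fun n _ => sb_int_mul k _ (sb_poly_int (s n)))]
        refine integral_congr_ae (ae_of_all _ (fun x => ?_))
        simp only [Finset.sum_mul]
      rw [sb_fc f, sb_fc G, ← a3, ← a2, ← a1, sb_fc]
      refine integral_congr_ae (ae_of_all _ (fun x => ?_))
      simp only [sub_mul]
    rw [e1]
    set m := ∑ j, Nat.size (k j).natAbs with hm
    have hkm : k ∈ layer d m := (mem_layer_iff d m k).2 rfl
    have hkn : ∀ n, n ≠ m → k ∉ layer d n := by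
      intro n hn hk
      exact hn ((mem_layer_iff d n k).1 hk).symm
    have e2 : fc G k = fc (g m) k := by
      refine (hfcG k).unique (hasSum_single m (fun n hn => ?_))
      exact fc_poly_out _ k (hkn n hn)
    have e3 : fc (g m) k = fc f k - ((s m (⟨k, hkm⟩, 0) : ℂ) + (s m (⟨k, hkm⟩, 1) : ℂ) * Complex.I) := by
      have e4 := fc_poly (FC d m f - s m) ⟨k, hkm⟩
      rw [show fc (g m) k = fc (poly (FC d m f - s m)) k from rfl, e4]
      have e5 : ((FC d m f - s m) (⟨k, hkm⟩, 0)) = (fc f k).re - s m (⟨k, hkm⟩, 0) := by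
        simp [FC]
      have e6 : ((FC d m f - s m) (⟨k, hkm⟩, 1)) = (fc f k).im - s m (⟨k, hkm⟩, 1) := by
        simp [FC]
      rw [e5, e6]
      apply Complex.ext
      · simp
      · simp
    have e7 : ∑ n ∈ Finset.range L, fc (poly (s n)) k =
        ((s m (⟨k, hkm⟩, 0) : ℂ) + (s m (⟨k, hkm⟩, 1) : ℂ) * Complex.I) := by
      by_cases hmL : m < L
      · rw [Finset.sum_eq_single m]
        · exact fc_poly (s m) ⟨k, hkm⟩
        · intro n _ hn
          exact fc_poly_out _ k (hkn n hn)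
        · intro hnot
          exact absurd (Finset.mem_range.2 hmL) hnot
      · push Not at hmL
        rw [hs m hmL]
        rw [Finset.sum_eq_zero]
        · simp
        · intro n hn
          refine fc_poly_out _ k (hkn n ?_)
          have := Finset.mem_range.1 hn
          omega
    rw [e2, e3, e7]
    ring
  have hfin := fc_unique _ ((hf.sub hS).sub hGi) hD
  have hae : (fun x => f x - ∑ n ∈ Finset.range L, poly (s n) x) =ᵐ[TP d] G := by
    refine hfin.mono (fun x hx => ?_)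
    have : f x - ∑ n ∈ Finset.range L, poly (s n) x - G x = 0 := hx
    exact sub_eq_zero.1 this
  rw [eLpNorm_congr_ae hae]
  exact hGq

end Sol_EX_series_bound

alias series_bound := Sol_EX_series_bound.series_bound

end HypVol
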