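import Pool.Agent.EntX.Defs
import Pool.Agent.EntX.L_schemeH
import Pool.Agent.EntX.L_netP_inf
import Pool.Agent.EntX.L_supn_facts
import Pool.Agent.EntX.L_series_bound
import Pool.Agent.EntX.L_bessel
import Pool.Agent.EntX.L_Mact_norm
import Pool.Agent.HypVol.L_TP_prob
open MeasureTheory Real ProbabilityTheory
open scoped ENNReal BigOperators

namespace HypVol
namespace Sol_EX_upper_inf_F

theorem upper_inf_enum {α : Type*} [Inhabited α] (P : Finset α) (m : ℕ) (h : P.card ≤ m) :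
    ∃ g : Fin m → α, ∀ x ∈ P, ∃ j, g j = x := by
  classical
  refine ⟨fun j => if h : (j:ℕ) < P.card then (P.equivFin.symm ⟨j, h⟩ : α) else default, ?_⟩
  intro x hx
  refine ⟨⟨P.equivFin ⟨x, hx⟩, lt_of_lt_of_le (P.equivFin ⟨x, hx⟩).2 h⟩, ?_⟩
  simp

theorem upper_inf_poly_sub {d n : ℕ} (a b : (layer d n) × Fin 2 → ℝ) (x : Fin d → ℝ) :
    poly (a - b) x = poly a x - poly b x := by
  unfold poly
  rw [← Finset.sum_sub_distrib]
  refine Finset.sum_congr rfl fun k _ => ?_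
  simp only [Pi.sub_apply]
  push_cast
  ring

theorem upper_inf_poly_smul {d n : ℕ} (c : ℝ) (a : (layer d n) × Fin 2 → ℝ) (x : Fin d → ℝ) :
    poly (c • a) x = (c : ℂ) * poly a x := by
  unfold poly
  rw [Finset.mul_sum]
  refine Finset.sum_congr rfl fun k _ => ?_
  simp only [Pi.smul_apply, smul_eq_mul]
  push_cast
  ring

theorem upper_inf_poly_zero {d n : ℕ} (x : Fin d → ℝ) :
    poly (0 : (layer d n) × Fin 2 → ℝ) x = 0 := by
  unfold poly
  simp

theorem upper_inf_poly_cont {d n : ℕ} (a : (layer d n) × Fin 2 → ℝ) :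
    Continuous (poly a) := by
  unfold poly
  fun_prop

theorem upper_inf_memLp {d n : ℕ} (a : (layer d n) × Fin 2 → ℝ) :
    MemLp (poly a) ⊤ (TP d) := by
  haveI := TP_prob d
  refine MemLp.of_bound (upper_inf_poly_cont a).aestronglyMeasurable (supn a) ?_
  exact Filter.Eventually.of_forall fun x => (supn_facts d n).2.2.2.2.1 a x

theorem upper_inf_V2 {d n : ℕ} (r : ℝ) (hr : 0 < r) (α : Fin d → ℝ)
    (a : (layer d n) × Fin 2 → ℝ) (ha : a ∈ V2 d n) :
    ((2:ℝ)^(r * d) * (2:ℝ)^(-(r * n)))⁻¹ • Mact r α a ∈ V2 d n := by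
  set κ : ℝ := (2:ℝ)^(r * d) * (2:ℝ)^(-(r * n)) with hκ
  have hκ0 : 0 < κ := by positivity
  have h1 : eu a ≤ 1 := by
    unfold eu
    exact Real.sqrt_le_one.2 ha
  have h2 : eu (Mact r α a) ≤ κ := by
    calc eu (Mact r α a) ≤ κ * eu a := Mact_norm r hr α a
      _ ≤ κ * 1 := mul_le_mul_of_nonneg_left h1 hκ0.le
      _ = κ := mul_one _
  have h3 : ∑ i, (Mact r α a) i ^ 2 ≤ κ ^ 2 := by
    have h4 : Real.sqrt (∑ i, (Mact r α a) i ^ 2) ≤ κ := h2
    exact (Real.sqrt_le_left hκ0.le).1 h4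
  show ∑ i, (κ⁻¹ • Mact r α a) i ^ 2 ≤ 1
  have h5 : ∑ i, (κ⁻¹ • Mact r α a) i ^ 2 = (κ ^ 2)⁻¹ * ∑ i, (Mact r α a) i ^ 2 := by
    rw [Finset.mul_sum]
    refine Finset.sum_congr rfl fun i _ => ?_
    simp only [Pi.smul_apply, smul_eq_mul]
    rw [mul_pow, inv_pow]
  rw [h5, inv_mul_le_iff₀ (by positivity), mul_one]
  exact h3

theorem upper_inf_FC {d n : ℕ} (r : ℝ) (α : Fin d → ℝ) (f φ : (Fin d → ℝ) → ℂ)
    (h : ∀ k : Fin d → ℤ, fc f k = Fh r α k * fc φ k) :
    FC d n f = Mact r α (FC d n φ) := by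
  funext i
  unfold FC Mact
  have h1 : (((fc φ i.1.1).re : ℝ) : ℂ) + (((fc φ i.1.1).im : ℝ) : ℂ) * Complex.I = fc φ i.1.1 :=
    Complex.re_add_im _
  have h10 : ¬ ((1 : Fin 2) = 0) := by decide
  simp only [h10, if_false, if_true]
  rw [h1, h]

theorem upper_inf_F (d : ℕ) (hd : 3 ≤ d) (r : ℝ) (hr : 1/2 < r) (α : Fin d → ℝ) :
    ∃ C : ℝ, 0 < C ∧ ∀ k : ℕ, 2 ≤ k → Cov ⊤ k (ENNReal.ofReal (C * Rk d r k)) (WF d r 2 α) := by
  classical
  haveI := TP_prob d
  obtain ⟨C, hC, hsch⟩ := schemeH d hd r hr (V2 d) (fun _ => supn) (netP_inf d) (by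
    intro n a ha
    have h1 := (supn_facts d n).2.2.2.2.2.2 a
    have h2 : Real.sqrt (∑ i, a i ^ 2) ≤ 1 := Real.sqrt_le_one.2 ha
    calc supn a ≤ Real.sqrt ((layer d n).card) * Real.sqrt (∑ i, a i ^ 2) := h1
      _ ≤ Real.sqrt ((layer d n).card) * 1 := mul_le_mul_of_nonneg_left h2 (Real.sqrt_nonneg _)
      _ = _ := mul_one _)
  refine ⟨(2:ℝ)^(r * d) * C, by positivity, fun k hk => ?_⟩
  obtain ⟨L, S, e, hcard, hS, hL, he0, hsum, htot⟩ := hsch k hk
  set P : Finset (∀ i : Fin L, (layer d i) × Fin 2 → ℝ) := Fintype.piFinset (fun i => S i) with hP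
  have hPcard : P.card ≤ 2^k := by
    rw [hP, Fintype.card_piFinset, Fin.prod_univ_eq_prod_range (fun n => (S n).card)]
    exact_mod_cast hcard
  obtain ⟨g, hg⟩ := upper_inf_enum P (2^k) hPcard
  set κ : ℕ → ℝ := fun n => (2:ℝ)^(r * d) * (2:ℝ)^(-(r * n)) with hκ
  have hκ0 : ∀ n, 0 < κ n := fun n => by simp only [hκ]; positivity
  let s : Fin (2^k) → ∀ n : ℕ, (layer d n) × Fin 2 → ℝ :=
    fun j n => if h : n < L then g j ⟨n, h⟩ else 0
  refine ⟨fun j x => ∑ n ∈ Finset.range L, poly (κ n • s j n) x, ?_, ?_⟩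
  · intro j
    exact memLp_finset_sum _ fun n _ => upper_inf_memLp (κ n • s j n)
  · rintro f ⟨hf, φ, hφ, hφ1, hfc⟩
    set b : ∀ n : ℕ, (layer d n) × Fin 2 → ℝ := fun n => (κ n)⁻¹ • Mact r α (FC d n φ) with hb
    have hbV : ∀ n, b n ∈ V2 d n := fun n =>
      upper_inf_V2 r (by linarith) α _ (bessel φ hφ hφ1)
    have hch : ∀ i : Fin L, ∃ t ∈ S i, supn (b i - t) ≤ e i := fun i => hS i i.2 (b i) (hbV i)
    choose t htS ht using hch
    obtain ⟨j, hj⟩ := hg t (by rw [hP, Fintype.mem_piFinset]; exact htS)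
    refine ⟨j, ?_⟩
    have hint : Integrable f (TP d) := memLp_one_iff_integrable.1 hf
    have hsn : ∀ n, supn (b n - s j n) ≤ e n := by
      intro n
      by_cases hn : n < L
      · have h1 : s j n = t ⟨n, hn⟩ := by
          simp only [s, hn, dif_pos, hj]
        rw [h1]
        exact ht ⟨n, hn⟩
      · have h1 : s j n = 0 := by
          simp only [s, hn, dif_neg, not_false_eq_true]
        rw [h1, sub_zero]
        exact hL n (not_lt.1 hn) (b n) (hbV n)
    have h4 : HasSum (fun n => κ n * e n)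
        ((2:ℝ)^(r * d) * ∑' n : ℕ, (2:ℝ)^(-(r * n)) * e n) := by
      have h5 := hsum.hasSum.mul_left ((2:ℝ)^(r * d))
      refine h5.congr_fun ?_
      intro n
      simp only [hκ]
      ring
    have hmain := series_bound (d := d) ⊤ le_top f hint (fun n => κ n * e n)
      (fun n => mul_nonneg (hκ0 n).le (he0 n)) h4.summable L (fun n => κ n • s j n) (by
        intro n hn
        have h1 : s j n = 0 := by
          simp only [s, not_lt.2 hn, dif_neg, not_false_eq_true]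
        simp only [h1, smul_zero]) (by
        intro n
        rw [eLpNorm_exponent_top]
        refine eLpNormEssSup_le_of_ae_bound (Filter.Eventually.of_forall fun x => ?_)
        have h7 : FC d n f = κ n • b n := by
          rw [upper_inf_FC r α f φ hfc, hb]
          simp only
          rw [smul_smul, mul_inv_cancel₀ (hκ0 n).ne', one_smul]
        rw [h7, ← smul_sub, upper_inf_poly_smul, norm_mul, Complex.norm_real, Real.norm_eq_abs,
          abs_of_pos (hκ0 n)]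
        exact mul_le_mul_of_nonneg_left
          (((supn_facts d n).2.2.2.2.1 _ x).trans (hsn n)) (hκ0 n).le)
    refine hmain.trans (ENNReal.ofReal_le_ofReal ?_)
    rw [h4.tsum_eq, mul_assoc]
    exact mul_le_mul_of_nonneg_left htot (by positivity)

end Sol_EX_upper_inf_F

alias upper_inf_F := Sol_EX_upper_inf_F.upper_inf_F

end HypVol
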