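import Pool.Agent.EntX.Defs
import Pool.Agent.EntX.L_scheme
import Pool.Agent.EntX.L_netP_two
import Pool.Agent.EntX.L_pol_ball_eu
import Pool.Agent.EntX.L_conv_series
import Pool.Agent.EntX.L_FC_L1
import Pool.Agent.EntX.L_Mact_norm
import Pool.Agent.EntX.L_parseval
import Pool.Agent.EntX.L_conv_facts
import Pool.Agent.HypVol.L_TP_prob
open MeasureTheory Real ProbabilityTheory
open scoped ENNReal BigOperators

namespace HypVol
namespace Sol_EX_upper_two

theorem ut_polyMact {d n : ℕ} (r : ℝ) (α : Fin d → ℝ) (a : (layer d n) × Fin 2 → ℝ) (x : Fin d → ℝ) :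
    poly (Mact r α a) x = ∑ k : layer d n, (Fh r α k.1 * ((a (k, 0) : ℂ) + (a (k, 1) : ℂ) * Complex.I)) *
      Complex.exp (Complex.I * ((∑ j, (k.1 j : ℝ) * x j : ℝ) : ℂ)) := by
  unfold poly
  refine Finset.sum_congr rfl fun k _ => ?_
  congr 1
  have h0 : Mact r α a (k, 0) = (Fh r α k.1 * ((a (k, 0) : ℂ) + (a (k, 1) : ℂ) * Complex.I)).re := by
    unfold Mact
    rw [if_pos rfl]
  have h1 : Mact r α a (k, 1) = (Fh r α k.1 * ((a (k, 0) : ℂ) + (a (k, 1) : ℂ) * Complex.I)).im := by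
    unfold Mact
    rw [if_neg (by norm_num)]
  rw [h0, h1]
  exact Complex.re_add_im _

theorem ut_sub {d n : ℕ} (r : ℝ) (α : Fin d → ℝ) (a b : (layer d n) × Fin 2 → ℝ) (x : Fin d → ℝ) :
    poly (Mact r α (a - b)) x = poly (Mact r α a) x - poly (Mact r α b) x := by
  rw [ut_polyMact, ut_polyMact, ut_polyMact, ← Finset.sum_sub_distrib]
  refine Finset.sum_congr rfl fun k _ => ?_
  simp only [Pi.sub_apply, Complex.ofReal_sub]
  ring

theorem ut_zero {d n : ℕ} (r : ℝ) (α : Fin d → ℝ) (x : Fin d → ℝ) :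
    poly (Mact r α (0 : (layer d n) × Fin 2 → ℝ)) x = 0 := by
  rw [ut_polyMact]
  refine Finset.sum_eq_zero fun k _ => ?_
  simp

theorem ut_cont {d n : ℕ} (a : (layer d n) × Fin 2 → ℝ) : Continuous (poly a) := by
  unfold poly
  fun_prop

theorem ut_memLp {d n : ℕ} (a : (layer d n) × Fin 2 → ℝ) : MemLp (poly a) 2 (TP d) :=
  ⟨(ut_cont a).aestronglyMeasurable, by rw [parseval]; exact ENNReal.ofReal_lt_top⟩

theorem ut_enum {β : Type*} (s : Finset β) (N : ℕ) (hs : s.card ≤ N) (b0 : β) :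
    ∃ g : Fin N → β, ∀ t ∈ s, ∃ j, g j = t := by
  classical
  refine ⟨fun j => if h : (j : ℕ) < s.card then (s.equivFin.symm ⟨j, h⟩ : s).1 else b0, ?_⟩
  intro t ht
  refine ⟨⟨s.equivFin ⟨t, ht⟩, (s.equivFin ⟨t, ht⟩).2.trans_le hs⟩, ?_⟩
  beta_reduce
  rw [dif_pos (s.equivFin ⟨t, ht⟩).2]
  simp

theorem ut_key (d : ℕ) (r : ℝ) (hr : 1 < r) (α : Fin d → ℝ) (φ : (Fin d → ℝ) → ℂ)
    (hφ : Integrable φ (TP d)) (L : ℕ) (s : ∀ n, (layer d n) × Fin 2 → ℝ) (hs : ∀ n, L ≤ n → s n = 0)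
    (e : ℕ → ℝ) (he : ∀ n, eu (FC d n φ - s n) ≤ e n) (he0 : ∀ n, 0 ≤ e n)
    (hsum : Summable (fun n : ℕ => (2:ℝ)^(-(r * n)) * e n)) :
    eLpNorm (fun x => (∫ y, Fr r α (x - y) • φ y ∂(TP d)) -
      ∑ n ∈ Finset.range L, poly (Mact r α (s n)) x) 2 (TP d) ≤
      ENNReal.ofReal ((2:ℝ)^(r * d) * ∑' n : ℕ, (2:ℝ)^(-(r * n)) * e n) := by
  have hlim : ∀ x : Fin d → ℝ, Filter.Tendsto
      (fun N : ℕ => ∑ n ∈ Finset.range N, poly (Mact r α (FC d n φ - s n)) x) Filter.atTop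
      (nhds ((∫ y, Fr r α (x - y) • φ y ∂(TP d)) - ∑ n ∈ Finset.range L, poly (Mact r α (s n)) x)) := by
    intro x
    have h1 := conv_series d r hr α φ hφ x
    have h2 : HasSum (fun n : ℕ => poly (Mact r α (s n)) x) (∑ n ∈ Finset.range L, poly (Mact r α (s n)) x) := by
      refine hasSum_sum_of_ne_finset_zero fun n hn => ?_
      rw [Finset.mem_range, not_lt] at hn
      rw [hs n hn, ut_zero]
    have h3 := (h1.sub h2).tendsto_sum_nat
    simpa only [ut_sub] using h3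
  have hle : ∀ N : ℕ, eLpNorm (fun x => ∑ n ∈ Finset.range N, poly (Mact r α (FC d n φ - s n)) x) 2 (TP d) ≤
      ENNReal.ofReal ((2:ℝ)^(r * d) * ∑' n : ℕ, (2:ℝ)^(-(r * n)) * e n) := by
    intro N
    have h1 : (fun x => ∑ n ∈ Finset.range N, poly (Mact r α (FC d n φ - s n)) x) =
        ∑ n ∈ Finset.range N, poly (Mact r α (FC d n φ - s n)) := by
      funext x
      rw [Finset.sum_apply]
    rw [h1]
    refine (eLpNorm_sum_le (fun n _ => (ut_cont _).aestronglyMeasurable) (by norm_num)).trans ?_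
    have h2 : ∀ n ∈ Finset.range N, eLpNorm (poly (Mact r α (FC d n φ - s n))) 2 (TP d) ≤
        ENNReal.ofReal ((2:ℝ)^(r * d) * ((2:ℝ)^(-(r * n)) * e n)) := by
      intro n _
      rw [parseval]
      refine ENNReal.ofReal_le_ofReal ((Mact_norm r (by linarith) α _).trans ?_)
      rw [mul_assoc]
      refine mul_le_mul_of_nonneg_left ?_ (by positivity)
      exact mul_le_mul_of_nonneg_left (he n) (by positivity)
    refine (Finset.sum_le_sum h2).trans ?_
    rw [← ENNReal.ofReal_sum_of_nonneg (fun n _ => by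
      have := he0 n
      positivity)]
    refine ENNReal.ofReal_le_ofReal ?_
    rw [← Finset.mul_sum]
    refine mul_le_mul_of_nonneg_left ?_ (by positivity)
    exact hsum.sum_le_tsum _ (fun n _ => by
      have := he0 n
      positivity)
  refine (Lp.eLpNorm_lim_le_liminf_eLpNorm (f := fun N x => ∑ n ∈ Finset.range N,
    poly (Mact r α (FC d n φ - s n)) x) (fun N => ?_) _ (Filter.Eventually.of_forall hlim)).trans ?_
  · refine Continuous.aestronglyMeasurable ?_
    exact continuous_finsetSum _ fun n _ => ut_cont _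
  · exact (Filter.liminf_le_liminf (Filter.Eventually.of_forall hle)).trans_eq (Filter.liminf_const _)

theorem upper_two (d : ℕ) (hd : 3 ≤ d) (r : ℝ) (hr : 1 < r) (α : Fin d → ℝ) :
    ∃ C : ℝ, 0 < C ∧ ∀ k : ℕ, 2 ≤ k → Cov 2 k (ENNReal.ofReal (C * Rk d r k)) (MW ℂ d r 1 α) := by
  classical
  obtain ⟨C0, hC0, hsch⟩ := scheme d hd r hr (fun n => pol (ball d n)) (fun _ => eu) (netP_two d)
    (fun n a ha => pol_ball_eu d n a ha)
  refine ⟨(2:ℝ)^(r * d) * C0, by positivity, fun k hk => ?_⟩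
  obtain ⟨L, S, e, hcard, hnet, htail, he0, hsum, hle⟩ := hsch k hk
  obtain ⟨P, hP⟩ : ∃ P : Finset (∀ n : Fin L, (layer d (n : ℕ)) × Fin 2 → ℝ),
      P = Fintype.piFinset (fun n : Fin L => S n) := ⟨_, rfl⟩
  have hPc : P.card ≤ 2 ^ k := by
    rw [hP, Fintype.card_piFinset]
    rw [Finset.prod_range (fun n => ((S n).card : ℝ))] at hcard
    exact_mod_cast hcard
  obtain ⟨g, hg⟩ := ut_enum P (2 ^ k) hPc (fun _ => 0)
  refine ⟨fun j x => ∑ n : Fin L, poly (Mact r α (g j n)) x, ?_, ?_⟩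
  · intro j
    exact memLp_finsetSum _ fun n _ => ut_memLp _
  · rintro f ⟨φ, hφ, hφ1, rfl⟩
    have hV : ∀ n, FC d n φ ∈ pol (ball d n) := fun n => FC_L1 φ hφ hφ1
    have hφi : Integrable φ (TP d) := memLp_one_iff_integrable.1 hφ
    choose s hs1 hs2 using fun n (hn : n < L) => hnet n hn _ (hV n)
    obtain ⟨j, hj⟩ := hg (fun n => s n n.2) (by
      rw [hP, Fintype.mem_piFinset]
      exact fun n => hs1 n n.2)
    refine ⟨j, ?_⟩
    have key := ut_key d r hr α φ hφi L (fun n => if h : n < L then s n h else 0)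
      (fun n hn => dif_neg (not_lt.2 hn)) e (by
        intro n
        by_cases h : n < L
        · rw [dif_pos h]
          exact hs2 n h
        · rw [dif_neg h, sub_zero]
          exact htail n (not_lt.1 h) _ (hV n)) he0 hsum
    have h1 : ∀ x, ∑ n ∈ Finset.range L, poly (Mact r α (if h : n < L then s n h else 0)) x =
        ∑ n : Fin L, poly (Mact r α (g j n)) x := by
      intro x
      rw [Finset.sum_range, hj]
      refine Finset.sum_congr rfl fun n _ => ?_
      rw [dif_pos n.2]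
    simp only [h1] at key
    refine key.trans (ENNReal.ofReal_le_ofReal ?_)
    rw [mul_assoc]
    exact mul_le_mul_of_nonneg_left hle (by positivity)

end Sol_EX_upper_two

alias upper_two := Sol_EX_upper_two.upper_two

end HypVol
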