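import Pool.Agent.EntX.Defs
import Pool.Agent.EntX.L_upper_two
import Pool.Agent.EntX.L_L1_lower
import Pool.Agent.EntX.L_conv_facts
import Pool.Agent.HypVol.L_TP_prob
open MeasureTheory Real ProbabilityTheory
open scoped ENNReal BigOperators

namespace HypVol
namespace Sol_EX_caseD

theorem caseD_interp {Ω : Type} [MeasurableSpace Ω] {μ : Measure Ω} (h : Ω → ℂ)
    (hm : AEStronglyMeasurable h μ) (A B : ℝ) (hA : 0 ≤ A) (hB : 0 ≤ B)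
    (h1 : eLpNorm h 1 μ ≤ ENNReal.ofReal A) (h2 : eLpNorm h 2 μ ≤ ENNReal.ofReal B) :
    eLpNorm h (ENNReal.ofReal (3/2)) μ ≤ ENNReal.ofReal (A ^ ((1:ℝ)/3) * B ^ ((2:ℝ)/3)) := by
  have hp0 : ENNReal.ofReal (3/2) ≠ 0 := by
    rw [Ne, ENNReal.ofReal_eq_zero]; norm_num
  have hpt : (ENNReal.ofReal (3/2)).toReal = 3/2 := ENNReal.toReal_ofReal (by norm_num)
  rw [eLpNorm_eq_lintegral_rpow_enorm_toReal hp0 ENNReal.ofReal_ne_top, hpt]
  have hme : AEMeasurable (fun x => ‖h x‖ₑ) μ := hm.enorm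
  have hol := ENNReal.lintegral_mul_norm_pow_le (μ := μ) hme (hme.pow_const (2:ℝ))
    (p := (1:ℝ)/2) (q := (1:ℝ)/2) (by norm_num) (by norm_num) (by norm_num)
  have e1 : ∀ x, ‖h x‖ₑ ^ ((1:ℝ)/2) * (‖h x‖ₑ ^ (2:ℝ)) ^ ((1:ℝ)/2) = ‖h x‖ₑ ^ ((3:ℝ)/2) := by
    intro x
    rw [← ENNReal.rpow_mul, ← ENNReal.rpow_add_of_nonneg _ _ (by norm_num) (by norm_num)]
    norm_num
  simp only [e1] at hol
  have h1' : ∫⁻ x, ‖h x‖ₑ ∂μ ≤ ENNReal.ofReal A := by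
    rw [← eLpNorm_one_eq_lintegral_enorm]; exact h1
  have h2' : (∫⁻ x, ‖h x‖ₑ ^ (2:ℝ) ∂μ) ^ ((1:ℝ)/2) ≤ ENNReal.ofReal B := by
    have := eLpNorm_eq_lintegral_rpow_enorm_toReal (μ := μ) (p := 2) (f := h) (by norm_num) (by norm_num)
    rw [this] at h2
    simpa using h2
  calc (∫⁻ x, ‖h x‖ₑ ^ ((3:ℝ)/2) ∂μ) ^ (1 / ((3:ℝ)/2))
      ≤ ((∫⁻ x, ‖h x‖ₑ ∂μ) ^ ((1:ℝ)/2) * (∫⁻ x, ‖h x‖ₑ ^ (2:ℝ) ∂μ) ^ ((1:ℝ)/2)) ^ (1 / ((3:ℝ)/2)) := by
        exact ENNReal.rpow_le_rpow hol (by norm_num)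
    _ ≤ ((ENNReal.ofReal A) ^ ((1:ℝ)/2) * ENNReal.ofReal B) ^ (1 / ((3:ℝ)/2)) := by
        apply ENNReal.rpow_le_rpow _ (by norm_num)
        exact mul_le_mul' (ENNReal.rpow_le_rpow h1' (by norm_num)) h2'
    _ = (ENNReal.ofReal A) ^ ((1:ℝ)/3) * (ENNReal.ofReal B) ^ ((2:ℝ)/3) := by
        rw [ENNReal.mul_rpow_of_nonneg _ _ (by norm_num), ← ENNReal.rpow_mul]
        norm_num
    _ = ENNReal.ofReal (A ^ ((1:ℝ)/3) * B ^ ((2:ℝ)/3)) := by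
        rw [ENNReal.ofReal_rpow_of_nonneg hA (by norm_num),
          ENNReal.ofReal_rpow_of_nonneg hB (by norm_num),
          ← ENNReal.ofReal_mul (by positivity)]

theorem caseD_tri {Ω : Type} [MeasurableSpace Ω] {μ : Measure Ω} (p : ℝ≥0∞) (hp : 1 ≤ p)
    (f g c : Ω → ℂ) (hf : AEStronglyMeasurable f μ) (hg : AEStronglyMeasurable g μ)
    (hc : AEStronglyMeasurable c μ) (A : ℝ) (hA : 0 ≤ A)
    (h1 : eLpNorm (fun x => f x - c x) p μ ≤ ENNReal.ofReal A)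
    (h2 : eLpNorm (fun x => g x - c x) p μ ≤ ENNReal.ofReal A) :
    eLpNorm (fun x => f x - g x) p μ ≤ ENNReal.ofReal (2 * A) := by
  have e : (fun x => f x - g x) = (fun x => f x - c x) - (fun x => g x - c x) := by
    funext x; simp
  rw [e]
  refine (eLpNorm_sub_le (hf.sub hc) (hg.sub hc) hp).trans ?_
  rw [two_mul, ENNReal.ofReal_add hA hA]
  exact add_le_add h1 h2

theorem caseD_mem {d : ℕ} (r : ℝ) (hr : 1 < r) (α : Fin d → ℝ) (f : (Fin d → ℝ) → ℂ)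
    (hf : f ∈ MW ℂ d r 1 α) (p : ℝ≥0∞) : MemLp f p (TP d) := by
  haveI := TP_prob d
  obtain ⟨-, B, hB, -, hφ⟩ := conv_facts (𝕜 := ℂ) r hr α
  obtain ⟨φ, h1, -, rfl⟩ := hf
  have hi : Integrable φ (TP d) := memLp_one_iff_integrable.mp h1
  obtain ⟨hc, hb⟩ := hφ φ hi
  refine MemLp.of_bound hc.aestronglyMeasurable (B * ∫ y, ‖φ y‖ ∂(TP d)) ?_
  exact Filter.Eventually.of_forall hb

theorem caseD_Rk (d : ℕ) (hd : 3 ≤ d) (r : ℝ) (hr : 1 < r) (k : ℕ) (hk : 2 ≤ k) :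
    0 < Rk d r k ∧ (2:ℝ)^(-r) * Rk d r k ≤ Rk d r (2 * k) := by
  have hk' : (2:ℝ) ≤ k := by exact_mod_cast hk
  have hlog : 0 < Real.log k := Real.log_pos (by linarith)
  have hd' : (3:ℝ) ≤ d := by exact_mod_cast hd
  have hexp : 0 ≤ ((d:ℝ)-1) * r + 1/2 := by nlinarith
  constructor
  · unfold Rk; positivity
  · unfold Rk
    push_cast
    rw [Real.mul_rpow (by norm_num) (by positivity), mul_assoc]
    have h2 : Real.log k ≤ Real.log (2 * k) := Real.log_le_log (by linarith) (by linarith)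
    have h3 : (Real.log k) ^ (((d:ℝ)-1) * r + 1/2) ≤ (Real.log (2 * k)) ^ (((d:ℝ)-1) * r + 1/2) :=
      Real.rpow_le_rpow hlog.le h2 hexp
    have : (0:ℝ) ≤ (2:ℝ)^(-r) := by positivity
    have h4 : (0:ℝ) ≤ (k:ℝ)^(-r) := by positivity
    exact mul_le_mul_of_nonneg_left (mul_le_mul_of_nonneg_left h3 h4) this

theorem caseD (d : ℕ) (hd : 3 ≤ d) (r : ℝ) (hr : 1 < r) (α : Fin d → ℝ) :
    ∃ c : ℝ, 0 < c ∧ ∀ (k : ℕ) (ε : ℝ), 2 ≤ k → 0 < ε →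
      Cov 1 k (ENNReal.ofReal ε) (MW ℂ d r 1 α) → c * Rk d r k ≤ ε := by
  obtain ⟨C, hC, hup⟩ := upper_two d hd r hr α
  obtain ⟨c0, hc0, hlow⟩ := L1_lower d hd (3/2) r (by norm_num) hr α
  refine ⟨c0^3 * ((2:ℝ)^(-r))^3 / (8 * C^2), by positivity, ?_⟩
  intro k ε hk hε hcov
  obtain ⟨hR, hR2⟩ := caseD_Rk d hd r hr k hk
  set R := Rk d r k with hRdef
  obtain ⟨c, hcm, hcc⟩ := hcov
  obtain ⟨g, hgm, hgc⟩ := hup k hk
  have hcard : Fintype.card (Fin (2^(2*k))) = Fintype.card (Fin (2^k) × Fin (2^k)) := by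
    simp only [Fintype.card_fin, Fintype.card_prod]
    rw [two_mul, pow_add]
  let e : Fin (2^(2*k)) ≃ Fin (2^k) × Fin (2^k) := Fintype.equivOfCardEq hcard
  classical
  let P : Fin (2^k) × Fin (2^k) → ((Fin d → ℝ) → ℂ) → Prop := fun jl f =>
    f ∈ MW ℂ d r 1 α ∧ eLpNorm (fun x => f x - c jl.1 x) 1 (TP d) ≤ ENNReal.ofReal ε ∧
      eLpNorm (fun x => f x - g jl.2 x) 2 (TP d) ≤ ENNReal.ofReal (C * R)
  let F : Fin (2^k) × Fin (2^k) → ((Fin d → ℝ) → ℂ) := fun jl =>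
    if h : ∃ f, P jl f then h.choose else 0
  have hFm : ∀ jl q, MemLp (F jl) q (TP d) := by
    intro jl q
    by_cases h : ∃ f, P jl f
    · have : F jl = h.choose := dif_pos h
      rw [this]
      exact caseD_mem r hr α _ h.choose_spec.1 q
    · have : F jl = 0 := dif_neg h
      rw [this]
      exact MemLp.zero
  have hcov2 : Cov (ENNReal.ofReal (3/2)) (2*k)
      (ENNReal.ofReal ((2 * ε) ^ ((1:ℝ)/3) * (2 * (C * R)) ^ ((2:ℝ)/3))) (MW ℂ d r 1 α) := by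
    refine ⟨fun i => F (e i), fun i => hFm _ _, ?_⟩
    intro f hf
    obtain ⟨j, hj⟩ := hcc f hf
    obtain ⟨l, hl⟩ := hgc f hf
    refine ⟨e.symm (j, l), ?_⟩
    simp only [Equiv.apply_symm_apply]
    have hex : ∃ f, P (j, l) f := ⟨f, hf, hj, hl⟩
    have hF : F (j, l) = hex.choose := dif_pos hex
    have hs := hex.choose_spec
    rw [← hF] at hs
    obtain ⟨hs1, hs2, hs3⟩ := hs
    have hfa : AEStronglyMeasurable f (TP d) := (caseD_mem r hr α f hf 1).aestronglyMeasurable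
    have hFa : AEStronglyMeasurable (F (j, l)) (TP d) := (hFm (j, l) 1).aestronglyMeasurable
    have t1 := caseD_tri 1 le_rfl f (F (j,l)) (c j) hfa hFa (hcm j).aestronglyMeasurable ε hε.le hj hs2
    have t2 := caseD_tri 2 (by norm_num) f (F (j,l)) (g l) hfa hFa (hgm l).aestronglyMeasurable
      (C * R) (by positivity) hl hs3
    exact caseD_interp (fun x => f x - F (j,l) x) (hfa.sub hFa) (2 * ε) (2 * (C * R))
      (by positivity) (by positivity) t1 t2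
  have hpos : 0 < (2 * ε) ^ ((1:ℝ)/3) * (2 * (C * R)) ^ ((2:ℝ)/3) := by positivity
  have key := hlow (2*k) _ (by omega) hpos hcov2
  have key2 : c0 * ((2:ℝ)^(-r) * R) ≤ (2 * ε) ^ ((1:ℝ)/3) * (2 * (C * R)) ^ ((2:ℝ)/3) :=
    (mul_le_mul_of_nonneg_left hR2 hc0.le).trans key
  have key3 : (c0 * ((2:ℝ)^(-r) * R))^3 ≤ ((2 * ε) ^ ((1:ℝ)/3) * (2 * (C * R)) ^ ((2:ℝ)/3))^3 :=
    pow_le_pow_left₀ (by positivity) key2 3
  have e3 : ((2 * ε) ^ ((1:ℝ)/3) * (2 * (C * R)) ^ ((2:ℝ)/3))^3 = (2 * ε) * (2 * (C * R))^2 := by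
    rw [mul_pow, ← Real.rpow_natCast, ← Real.rpow_natCast, ← Real.rpow_mul (by positivity),
      ← Real.rpow_mul (by positivity), ← Real.rpow_natCast]
    norm_num
  rw [e3] at key3
  have hR2pos : 0 < R^2 := by positivity
  rw [div_mul_eq_mul_div, div_le_iff₀ (by positivity)]
  have : (c0^3 * ((2:ℝ)^(-r))^3 * R) * R^2 ≤ (ε * (8 * C^2)) * R^2 := by
    calc (c0^3 * ((2:ℝ)^(-r))^3 * R) * R^2 = (c0 * ((2:ℝ)^(-r) * R))^3 := by ring
      _ ≤ (2 * ε) * (2 * (C * R))^2 := key3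
      _ = (ε * (8 * C^2)) * R^2 := by ring
  exact le_of_mul_le_mul_right this hR2pos

end Sol_EX_caseD

alias caseD := Sol_EX_caseD.caseD

end HypVol
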