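import Pool.Agent.EntX.Defs
import Pool.Agent.EntX.L_schemeH
import Pool.Agent.EntX.L_netP_two
import Pool.Agent.EntX.L_pol_ball_eu
import Pool.Agent.EntX.L_series_bound
import Pool.Agent.EntX.L_FC_L1
import Pool.Agent.EntX.L_Mact_norm
import Pool.Agent.EntX.L_parseval
import Pool.Agent.HypVol.L_TP_prob
open MeasureTheory Real ProbabilityTheory
open scoped ENNReal BigOperators

namespace HypVol
namespace Sol_EX_upper_two_F

theorem utF_polyMact {d n : ℕ} (r : ℝ) (α : Fin d → ℝ) (a : (layer d n) × Fin 2 → ℝ) (x : Fin d → ℝ) :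
    poly (Mact r α a) x = ∑ k : layer d n, (Fh r α k.1 * ((a (k, 0) : ℂ) + (a (k, 1) : ℂ) * Complex.I)) *
      Complex.exp (Complex.I * ((∑ j, (k.1 j : ℝ) * x j : ℝ) : ℂ)) := by
  unfold poly
  refine Finset.sum_congr rfl fun k _ => ?_
  congr 1
  have h0 : Mact r α a (k, 0) = (Fh r α k.1 * ((a (k, 0) : ℂ) + (a (k, 1) : ℂ) * Complex.I)).re := by
    unfold Mact
    rw [if_pos rfl]
  have h1 : Mact r α a (k, 1) = (Fh r α k.1 * ((a (k, 0) : ℂ) + (a (k, 1) : ℂ) * Complex.I)).im := by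
    unfold Mact
    rw [if_neg (by norm_num)]
  rw [h0, h1]
  exact Complex.re_add_im _

theorem utF_sub {d n : ℕ} (r : ℝ) (α : Fin d → ℝ) (a b : (layer d n) × Fin 2 → ℝ) (x : Fin d → ℝ) :
    poly (Mact r α (a - b)) x = poly (Mact r α a) x - poly (Mact r α b) x := by
  rw [utF_polyMact, utF_polyMact, utF_polyMact, ← Finset.sum_sub_distrib]
  refine Finset.sum_congr rfl fun k _ => ?_
  simp only [Pi.sub_apply, Complex.ofReal_sub]
  ring

theorem utF_zero {d n : ℕ} (r : ℝ) (α : Fin d → ℝ) (x : Fin d → ℝ) :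
    poly (Mact r α (0 : (layer d n) × Fin 2 → ℝ)) x = 0 := by
  rw [utF_polyMact]
  refine Finset.sum_eq_zero fun k _ => ?_
  simp

theorem utF_cont {d n : ℕ} (a : (layer d n) × Fin 2 → ℝ) : Continuous (poly a) := by
  unfold poly
  fun_prop

theorem utF_memLp {d n : ℕ} (a : (layer d n) × Fin 2 → ℝ) : MemLp (poly a) 2 (TP d) :=
  ⟨(utF_cont a).aestronglyMeasurable, by rw [parseval]; exact ENNReal.ofReal_lt_top⟩

theorem utF_enum {β : Type*} (s : Finset β) (N : ℕ) (hs : s.card ≤ N) (b0 : β) :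
    ∃ g : Fin N → β, ∀ t ∈ s, ∃ j, g j = t := by
  classical
  refine ⟨fun j => if h : (j : ℕ) < s.card then (s.equivFin.symm ⟨j, h⟩ : s).1 else b0, ?_⟩
  intro t ht
  refine ⟨⟨s.equivFin ⟨t, ht⟩, (s.equivFin ⟨t, ht⟩).2.trans_le hs⟩, ?_⟩
  beta_reduce
  rw [dif_pos (s.equivFin ⟨t, ht⟩).2]
  simp

theorem utF_Mact_sub {d n : ℕ} (r : ℝ) (α : Fin d → ℝ) (a b : (layer d n) × Fin 2 → ℝ) :
    Mact r α (a - b) = Mact r α a - Mact r α b := by
  funext i
  show Mact r α (a - b) i = Mact r α a i - Mact r α b i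
  unfold Mact
  split_ifs with h
  · rw [← Complex.sub_re]
    congr 1
    simp only [Pi.sub_apply, Complex.ofReal_sub]
    ring
  · rw [← Complex.sub_im]
    congr 1
    simp only [Pi.sub_apply, Complex.ofReal_sub]
    ring

theorem utF_Mact_zero {d n : ℕ} (r : ℝ) (α : Fin d → ℝ) :
    Mact r α (0 : (layer d n) × Fin 2 → ℝ) = 0 := by
  have h := utF_Mact_sub r α (0 : (layer d n) × Fin 2 → ℝ) 0
  simpa using h

theorem utF_FC {d n : ℕ} (r : ℝ) (α : Fin d → ℝ) (f φ : (Fin d → ℝ) → ℂ)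
    (h : ∀ k : Fin d → ℤ, fc f k = Fh r α k * fc φ k) :
    FC d n f = Mact r α (FC d n φ) := by
  funext i
  have e : ((FC d n φ (i.1, 0) : ℂ) + (FC d n φ (i.1, 1) : ℂ) * Complex.I) = fc φ i.1.1 := by
    have h0 : FC d n φ (i.1, 0) = (fc φ i.1.1).re := by
      unfold FC; rw [if_pos rfl]
    have h1 : FC d n φ (i.1, 1) = (fc φ i.1.1).im := by
      unfold FC; rw [if_neg (by norm_num)]
    rw [h0, h1]
    exact Complex.re_add_im _
  show FC d n f i = Mact r α (FC d n φ) i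
  unfold Mact
  rw [e, ← h i.1.1]
  rfl

theorem upper_two_F (d : ℕ) (hd : 3 ≤ d) (r : ℝ) (hr : 1/2 < r) (α : Fin d → ℝ) :
    ∃ C : ℝ, 0 < C ∧ ∀ k : ℕ, 2 ≤ k → Cov 2 k (ENNReal.ofReal (C * Rk d r k)) (WF d r 1 α) := by
  classical
  have hr0 : 0 < r := by linarith
  obtain ⟨C0, hC0, hsch⟩ := schemeH d hd r hr (fun n => pol (ball d n)) (fun _ => eu) (netP_two d)
    (fun n a ha => pol_ball_eu d n a ha)
  refine ⟨(2:ℝ)^(r * d) * C0, by positivity, fun k hk => ?_⟩
  obtain ⟨L, S, e, hcard, hnet, htail, he0, hsum, hle⟩ := hsch k hk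
  obtain ⟨P, hP⟩ : ∃ P : Finset (∀ n : Fin L, (layer d (n : ℕ)) × Fin 2 → ℝ),
      P = Fintype.piFinset (fun n : Fin L => S n) := ⟨_, rfl⟩
  have hPc : P.card ≤ 2 ^ k := by
    rw [hP, Fintype.card_piFinset]
    rw [Finset.prod_range (fun n => ((S n).card : ℝ))] at hcard
    exact_mod_cast hcard
  obtain ⟨g, hg⟩ := utF_enum P (2 ^ k) hPc (fun _ => 0)
  refine ⟨fun j x => ∑ n : Fin L, poly (Mact r α (g j n)) x, ?_, ?_⟩
  · intro j
    exact memLp_finsetSum _ fun n _ => utF_memLp _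
  · rintro f ⟨hf1, φ, hφ, hφ1, hfc⟩
    have hV : ∀ n, FC d n φ ∈ pol (ball d n) := fun n => FC_L1 φ hφ hφ1
    have hfi : Integrable f (TP d) := memLp_one_iff_integrable.1 hf1
    choose s hs1 hs2 using fun n (hn : n < L) => hnet n hn _ (hV n)
    obtain ⟨j, hj⟩ := hg (fun n => s n n.2) (by
      rw [hP, Fintype.mem_piFinset]
      exact fun n => hs1 n n.2)
    refine ⟨j, ?_⟩
    have hB : Summable (fun n : ℕ => (2:ℝ)^(r * d) * ((2:ℝ)^(-(r * n)) * e n)) := hsum.mul_left _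
    have key := series_bound (d := d) 2 (by norm_num) f hfi
      (fun n : ℕ => (2:ℝ)^(r * d) * ((2:ℝ)^(-(r * n)) * e n))
      (fun n => by have := he0 n; positivity) hB L
      (fun n => Mact r α (if h : n < L then s n h else 0))
      (fun n hn => by
        show Mact r α (if h : n < L then s n h else 0) = 0
        rw [dif_neg (not_lt.2 hn)]; exact utF_Mact_zero r α) (by
        intro n
        rw [utF_FC r α f φ hfc, ← utF_Mact_sub, parseval]
        refine ENNReal.ofReal_le_ofReal ((Mact_norm r hr0 α _).trans ?_)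
        rw [mul_assoc]
        refine mul_le_mul_of_nonneg_left ?_ (by positivity)
        refine mul_le_mul_of_nonneg_left ?_ (by positivity)
        by_cases h : n < L
        · rw [dif_pos h]
          exact hs2 n h
        · rw [dif_neg h, sub_zero]
          exact htail n (not_lt.1 h) _ (hV n))
    have h1 : ∀ x, ∑ n ∈ Finset.range L, poly (Mact r α (if h : n < L then s n h else 0)) x =
        ∑ n : Fin L, poly (Mact r α (g j n)) x := by
      intro x
      rw [Finset.sum_range, hj]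
      refine Finset.sum_congr rfl fun n _ => ?_
      rw [dif_pos n.2]
    simp only [h1] at key
    refine key.trans (ENNReal.ofReal_le_ofReal ?_)
    rw [tsum_mul_left, mul_assoc]
    exact mul_le_mul_of_nonneg_left hle (by positivity)

end Sol_EX_upper_two_F

alias upper_two_F := Sol_EX_upper_two_F.upper_two_F

end HypVol
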