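import Pool.Agent.EntX.Defs
import Pool.Agent.EntX.L_Cov_complex
open MeasureTheory Real ProbabilityTheory
open scoped ENNReal BigOperators

namespace HypVol
namespace Sol_EX_entNum_lowerS

theorem RkS_two (d : ℕ) (hd : 3 ≤ d) (r : ℝ) (hr : 1 < r) (s k : ℕ) (hk : 2 ≤ k) :
    (2:ℝ)^(-r) * RkS d r s k ≤ RkS d r s (2 * k) := by
  unfold RkS
  have hk' : (2:ℝ) ≤ k := by exact_mod_cast hk
  have hd' : (3:ℝ) ≤ d := by exact_mod_cast hd
  have h1 : ((2 * k : ℕ) : ℝ)^(-r) = (2:ℝ)^(-r) * (k:ℝ)^(-r) := by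
    push_cast
    rw [Real.mul_rpow (by norm_num) (by positivity)]
  rw [h1, ← mul_assoc]
  have hlog : 0 ≤ Real.log k := Real.log_nonneg (by linarith)
  have hexp : 0 ≤ ((d:ℝ)-1) * r + (s:ℝ)/2 := by
    have : 0 ≤ ((d:ℝ)-1) * r := mul_nonneg (by linarith) (by linarith)
    positivity
  have h2 : Real.log k ≤ Real.log ((2 * k : ℕ) : ℝ) := by
    apply Real.log_le_log (by linarith)
    push_cast
    linarith
  have h3 : (Real.log k)^(((d:ℝ)-1) * r + (s:ℝ)/2) ≤ (Real.log ((2 * k : ℕ) : ℝ))^(((d:ℝ)-1) * r + (s:ℝ)/2) :=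
    Real.rpow_le_rpow hlog h2 hexp
  exact mul_le_mul_of_nonneg_left h3 (by positivity)

theorem entNum_lowerS (𝕜 : Type) [RCLike 𝕜] (d : ℕ) (hd : 3 ≤ d) (r : ℝ) (hr : 1 < r) (α : Fin d → ℝ)
    (p q : ℝ≥0∞) (hp : 1 ≤ p) (hq : 1 ≤ q) (s : ℕ) (c : ℝ) (hc : 0 < c)
    (h : ∀ (k : ℕ) (ε : ℝ), 2 ≤ k → 0 < ε → Cov q k (ENNReal.ofReal ε) (MW ℂ d r p α) → c * RkS d r s k ≤ ε) :
    ∃ c' : ℝ, 0 < c' ∧ ∀ k : ℕ, 2 ≤ k → ENNReal.ofReal (c' * RkS d r s k) ≤ entNum q k (MW 𝕜 d r p α) := by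
  refine ⟨c * (2:ℝ)^(-r) / 2, by positivity, fun k hk => ?_⟩
  unfold entNum
  refine le_iInf fun ε => le_iInf fun hε => ?_
  obtain ⟨hε0, hcov⟩ := hε
  rcases eq_or_ne ε ⊤ with htop | htop
  · rw [htop]; exact le_top
  have he : 0 < ε.toReal := ENNReal.toReal_pos hε0.ne' htop
  have hεe : ENNReal.ofReal ε.toReal = ε := ENNReal.ofReal_toReal htop
  rw [← hεe] at hcov
  have h1 := Cov_complex 𝕜 d r hr α p q hp hq k ε.toReal he hcov
  have h2 := h (2 * k) (2 * ε.toReal) (by omega) (by positivity) h1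
  have h3 := RkS_two d hd r hr s k hk
  rw [← hεe]
  apply ENNReal.ofReal_le_ofReal
  have h4 := mul_le_mul_of_nonneg_left h3 hc.le
  calc c * (2:ℝ)^(-r) / 2 * RkS d r s k = (c * ((2:ℝ)^(-r) * RkS d r s k)) / 2 := by ring
    _ ≤ (c * RkS d r s (2 * k)) / 2 := by linarith
    _ ≤ ε.toReal := by linarith

end Sol_EX_entNum_lowerS

alias entNum_lowerS := Sol_EX_entNum_lowerS.entNum_lowerS

end HypVol
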