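import Pool.Agent.EntX.Defs
import Pool.Agent.EntX.L_Cov_ML_WF
open MeasureTheory Real ProbabilityTheory
open scoped ENNReal BigOperators

namespace HypVol
namespace Sol_EX_entNum_lower_F

theorem entNum_lower_F (𝕜 : Type) [RCLike 𝕜] (d : ℕ) (hd : 3 ≤ d) (r : ℝ) (hr : 0 < r) (α : Fin d → ℝ)
    (p q : ℝ≥0∞) (hp : 1 ≤ p) (hq : 1 ≤ q) (c : ℝ) (hc : 0 < c)
    (h : ∀ (k : ℕ) (ε : ℝ), 2 ≤ k → 0 < ε → Cov q k (ENNReal.ofReal ε) (WF d r p α) → c * Rk d r k ≤ ε) :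
    ∃ c' : ℝ, 0 < c' ∧ ∀ k : ℕ, 2 ≤ k → ENNReal.ofReal (c' * Rk d r k) ≤ entNum q k (ML 𝕜 d r p α) := by
  refine ⟨c * (2:ℝ)^(-r) / 2, by positivity, fun k hk => ?_⟩
  unfold entNum
  refine le_iInf (fun ε => le_iInf (fun hε => ?_))
  obtain ⟨hε0, hcov⟩ := hε
  by_cases htop : ε = ⊤
  · rw [htop]; exact le_top
  have he : 0 < ε.toReal := ENNReal.toReal_pos hε0.ne' htop
  have h1 := Cov_ML_WF 𝕜 d r hr α p q hp hq k ε.toReal he (by rw [ENNReal.ofReal_toReal htop]; exact hcov)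
  have h2 := h (2 * k) (2 * ε.toReal) (by omega) (by positivity) h1
  have hk0 : (0:ℝ) < k := by exact_mod_cast (by omega : 0 < k)
  have hk2 : (2:ℝ) ≤ k := by exact_mod_cast hk
  have hd' : (3:ℝ) ≤ d := by exact_mod_cast hd
  have hlog : 0 ≤ Real.log k := Real.log_nonneg (by linarith)
  have hexp : 0 ≤ ((d:ℝ)-1) * r + 1/2 := by nlinarith
  have h3 : (2:ℝ)^(-r) * Rk d r k ≤ Rk d r (2 * k) := by
    unfold Rk
    push_cast
    rw [Real.mul_rpow (by norm_num) hk0.le, mul_assoc]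
    have h4 : (Real.log k)^(((d:ℝ)-1) * r + 1/2) ≤ (Real.log (2 * k))^(((d:ℝ)-1) * r + 1/2) := by
      apply Real.rpow_le_rpow hlog _ hexp
      exact Real.log_le_log hk0 (by linarith)
    have h5 : 0 ≤ (2:ℝ)^(-r) := by positivity
    have h6 : 0 ≤ (k:ℝ)^(-r) := by positivity
    exact mul_le_mul_of_nonneg_left (mul_le_mul_of_nonneg_left h4 h6) h5
  have h7 : c * (2:ℝ)^(-r) / 2 * Rk d r k ≤ ε.toReal := by
    have h8 := mul_le_mul_of_nonneg_left h3 hc.le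
    have h9 : c * (2:ℝ)^(-r) / 2 * Rk d r k = c * ((2:ℝ)^(-r) * Rk d r k) / 2 := by ring
    rw [h9]
    linarith
  calc ENNReal.ofReal (c * (2:ℝ)^(-r) / 2 * Rk d r k)
      ≤ ENNReal.ofReal ε.toReal := ENNReal.ofReal_le_ofReal h7
    _ = ε := ENNReal.ofReal_toReal htop

end Sol_EX_entNum_lower_F

alias entNum_lower_F := Sol_EX_entNum_lower_F.entNum_lower_F

end HypVol
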