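import Pool.Agent.EntX.Defs
import Pool.Agent.HypVol.L_TP_prob
import Pool.Agent.EntX.L_conv_facts
open MeasureTheory Real ProbabilityTheory
open scoped ENNReal BigOperators

namespace HypVol
namespace Sol_EX_entNum_upper

theorem norm_mapC {𝕜 : Type} [RCLike 𝕜] (z : 𝕜) : ‖RCLike.map 𝕜 ℂ z‖ = ‖z‖ := by
  have h : ‖RCLike.map 𝕜 ℂ z‖ ^ 2 = ‖z‖ ^ 2 := by
    rw [RCLike.norm_sq_eq_def, RCLike.norm_sq_eq_def]
    simp
  exact (pow_left_inj₀ (norm_nonneg _) (norm_nonneg _) two_ne_zero).mp h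

theorem mapP_mapC {𝕜 : Type} [RCLike 𝕜] (z : 𝕜) : RCLike.map ℂ 𝕜 (RCLike.map 𝕜 ℂ z) = z := by
  simp

theorem norm_mapP_le {𝕜 : Type} [RCLike 𝕜] (w : ℂ) : ‖RCLike.map ℂ 𝕜 w‖ ≤ ‖w‖ := by
  have h : ‖RCLike.map ℂ 𝕜 w‖ ^ 2 ≤ ‖w‖ ^ 2 := by
    rw [RCLike.norm_sq_eq_def, RCLike.norm_sq_eq_def]
    rcases RCLike.I_eq_zero_or_im_I_eq_one (K := 𝕜) with h | h
    · simp [h]
      nlinarith [mul_self_nonneg w.im]
    · simp [h]
  exact (pow_le_pow_iff_left₀ (norm_nonneg _) (norm_nonneg _) two_ne_zero).mp h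

noncomputable def mapLI (𝕜 : Type) [RCLike 𝕜] : 𝕜 →ₗᵢ[ℝ] ℂ :=
  ⟨(RCLike.map 𝕜 ℂ).toLinearMap, fun z => norm_mapC z⟩

theorem entNum_upper (𝕜 : Type) [RCLike 𝕜] (d : ℕ) (r : ℝ) (hr : 1 < r) (α : Fin d → ℝ) (p q : ℝ≥0∞)
    (k : ℕ) (ε : ℝ) (hε : 0 < ε) (h : Cov q k (ENNReal.ofReal ε) (MW ℂ d r p α)) :
    entNum q k (MW 𝕜 d r p α) ≤ ENNReal.ofReal ε := by
  obtain ⟨c, hc, hcov⟩ := h
  refine iInf_le_of_le (ENNReal.ofReal ε) (iInf_le_of_le ⟨ENNReal.ofReal_pos.mpr hε, ?_⟩ le_rfl)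
  refine ⟨fun j x => RCLike.map ℂ 𝕜 (c j x), ?_, ?_⟩
  · intro j
    exact (RCLike.map ℂ 𝕜).comp_memLp' (hc j)
  · rintro f ⟨φ, hφ, hφ1, hf⟩
    have hmem : (fun x => mapLI 𝕜 (f x)) ∈ MW ℂ d r p α := by
      refine ⟨fun y => mapLI 𝕜 (φ y), ?_, ?_, ?_⟩
      · exact (RCLike.map 𝕜 ℂ).comp_memLp' hφ
      · refine le_trans (le_of_eq ?_) hφ1
        apply eLpNorm_congr_norm_ae
        filter_upwards with x
        exact norm_mapC _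
      · funext x
        rw [hf]
        simp only
        rw [← (mapLI 𝕜).integral_comp_comm]
        congr 1
        funext y
        exact (map_smul (mapLI 𝕜) _ _)
    obtain ⟨j, hj⟩ := hcov _ hmem
    refine ⟨j, le_trans ?_ hj⟩
    apply eLpNorm_mono
    intro x
    have e : f x - RCLike.map ℂ 𝕜 (c j x) = RCLike.map ℂ 𝕜 (mapLI 𝕜 (f x) - c j x) := by
      rw [map_sub]
      congr 1
      exact (mapP_mapC (f x)).symm
    rw [e]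
    exact norm_mapP_le _

end Sol_EX_entNum_upper

alias entNum_upper := Sol_EX_entNum_upper.entNum_upper

end HypVol
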