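import Pool.Agent.EntX.Defs
import Pool.Agent.EntX.L_conv_L
import Pool.Agent.HypVol.L_TP_prob
open MeasureTheory Real ProbabilityTheory
open scoped ENNReal BigOperators

namespace HypVol
namespace Sol_EX_entNum_upper_F

noncomputable def j35058_P (𝕜 : Type) [RCLike 𝕜] (w : ℂ) : 𝕜 :=
  (RCLike.ofReal w.re : 𝕜) + (RCLike.ofReal w.im : 𝕜) * RCLike.I

theorem j35058_P_toC {𝕜 : Type} [RCLike 𝕜] (z : 𝕜) : j35058_P 𝕜 (toC z) = z := by
  unfold j35058_P toC
  have h1 : (((RCLike.re z : ℝ) : ℂ) + ((RCLike.im z : ℝ) : ℂ) * Complex.I).re = RCLike.re z := by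
    simp
  have h2 : (((RCLike.re z : ℝ) : ℂ) + ((RCLike.im z : ℝ) : ℂ) * Complex.I).im = RCLike.im z := by
    simp
  rw [h1, h2]
  exact RCLike.re_add_im z

theorem j35058_norm_P {𝕜 : Type} [RCLike 𝕜] (w : ℂ) : ‖j35058_P 𝕜 w‖ ≤ ‖w‖ := by
  have h0 : RCLike.re (RCLike.I : 𝕜) = 0 := RCLike.I_re_ax
  have h1 : RCLike.im (RCLike.I : 𝕜) * RCLike.im (RCLike.I : 𝕜) = RCLike.im (RCLike.I : 𝕜) :=
    RCLike.I_im _
  have hre : RCLike.re (j35058_P 𝕜 w) = w.re := by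
    unfold j35058_P
    simp [h0]
  have him : RCLike.im (j35058_P 𝕜 w) = w.im * RCLike.im (RCLike.I : 𝕜) := by
    unfold j35058_P
    simp
  have hb : RCLike.im (RCLike.I : 𝕜) ^ 2 ≤ 1 := by nlinarith [sq_nonneg (RCLike.im (RCLike.I : 𝕜) - 1)]
  have hn : ‖j35058_P 𝕜 w‖ ^ 2 ≤ ‖w‖ ^ 2 := by
    rw [RCLike.norm_sq_eq_def, hre, him, Complex.sq_norm, Complex.normSq_apply]
    have := mul_le_mul_of_nonneg_left hb (sq_nonneg w.im)
    nlinarith
  exact le_of_sq_le_sq hn (norm_nonneg w)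

theorem j35058_P_sub {𝕜 : Type} [RCLike 𝕜] (w w' : ℂ) :
    j35058_P 𝕜 w - j35058_P 𝕜 w' = j35058_P 𝕜 (w - w') := by
  unfold j35058_P
  simp only [Complex.sub_re, Complex.sub_im, RCLike.ofReal_sub]
  ring

theorem j35058_P_cont {𝕜 : Type} [RCLike 𝕜] : Continuous (j35058_P 𝕜) := by
  unfold j35058_P
  exact (RCLike.continuous_ofReal.comp Complex.continuous_re).add
    ((RCLike.continuous_ofReal.comp Complex.continuous_im).mul continuous_const)

theorem j35058_norm_toC {𝕜 : Type} [RCLike 𝕜] (z : 𝕜) : ‖toC z‖ = ‖z‖ := by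
  have h : ‖toC z‖ ^ 2 = ‖z‖ ^ 2 := by
    rw [Complex.sq_norm, Complex.normSq_apply, RCLike.norm_sq_eq_def]
    unfold toC
    simp
  exact (pow_left_inj₀ (norm_nonneg _) (norm_nonneg _) (by norm_num)).mp h

theorem j35058_toC_cont {𝕜 : Type} [RCLike 𝕜] : Continuous (toC : 𝕜 → ℂ) := by
  unfold toC
  exact (Complex.continuous_ofReal.comp RCLike.continuous_re).add
    ((Complex.continuous_ofReal.comp RCLike.continuous_im).mul continuous_const)

theorem entNum_upper_F (𝕜 : Type) [RCLike 𝕜] (d : ℕ) (r : ℝ) (hr : 0 < r) (α : Fin d → ℝ) (p q : ℝ≥0∞)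
    (hp : 1 ≤ p) (k : ℕ) (ε : ℝ) (hε : 0 < ε) (h : Cov q k (ENNReal.ofReal ε) (WF d r p α)) :
    entNum q k (ML 𝕜 d r p α) ≤ ENNReal.ofReal ε := by
  haveI := TP_prob d
  obtain ⟨c, hc, hcov⟩ := h
  have hmap : ∀ (s : ℝ≥0∞) (g : (Fin d → ℝ) → 𝕜), MemLp g s (TP d) →
      MemLp (fun x => toC (g x)) s (TP d) := by
    intro s g hg
    exact hg.of_le (j35058_toC_cont.comp_aestronglyMeasurable hg.1)
      (Filter.Eventually.of_forall fun x => (j35058_norm_toC (g x)).le)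
  have hcov' : Cov q k (ENNReal.ofReal ε) (ML 𝕜 d r p α) := by
    refine ⟨fun j x => j35058_P 𝕜 (c j x), ?_, ?_⟩
    · intro j
      exact (hc j).of_le (j35058_P_cont.comp_aestronglyMeasurable (hc j).1)
        (Filter.Eventually.of_forall fun x => j35058_norm_P (c j x))
    · intro f hf
      obtain ⟨φ, hφ, hφ1, rfl⟩ := hf
      obtain ⟨hL1, hL2⟩ := conv_L r hr α φ (hφ.integrable hp)
      have hWF : (fun x => toC (∫ y, FrL r α (x - y) • φ y ∂(TP d))) ∈ WF d r p α := by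
        refine ⟨hmap 1 _ hL1, fun x => toC (φ x), hmap p φ hφ, ?_, hL2⟩
        refine le_trans (le_of_eq ?_) hφ1
        exact eLpNorm_congr_norm_ae (Filter.Eventually.of_forall fun x => j35058_norm_toC (φ x))
      obtain ⟨j, hj⟩ := hcov _ hWF
      refine ⟨j, le_trans (eLpNorm_mono fun x => ?_) hj⟩
      have e : (∫ y, FrL r α (x - y) • φ y ∂(TP d)) =
          j35058_P 𝕜 (toC (∫ y, FrL r α (x - y) • φ y ∂(TP d))) := (j35058_P_toC _).symm
      calc ‖(∫ y, FrL r α (x - y) • φ y ∂(TP d)) - j35058_P 𝕜 (c j x)‖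
          = ‖j35058_P 𝕜 (toC (∫ y, FrL r α (x - y) • φ y ∂(TP d)) - c j x)‖ := by
            rw [← j35058_P_sub, ← e]
        _ ≤ _ := j35058_norm_P _
  exact iInf₂_le (ENNReal.ofReal ε) ⟨ENNReal.ofReal_pos.mpr hε, hcov'⟩

end Sol_EX_entNum_upper_F

alias entNum_upper_F := Sol_EX_entNum_upper_F.entNum_upper_F

end HypVol
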