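import Pool.Agent.EntX.Defs
import Pool.Agent.HypVol.L_gam_prob
import Pool.Agent.HypVol.L_gam_mgf
import Pool.Agent.HypVol.L_TP_prob
import Pool.Agent.EntX.L_nq_facts
import Pool.Agent.EntX.L_supn_facts
open MeasureTheory Real ProbabilityTheory
open scoped ENNReal BigOperators

namespace HypVol
namespace Sol_EX_gauss_q

theorem gq_cont (d n : ℕ) : Continuous (fun z : ((layer d n) × Fin 2 → ℝ) × (Fin d → ℝ) => poly z.1 z.2) := by
  unfold poly
  fun_prop

noncomputable def gqr {d n : ℕ} (x : Fin d → ℝ) (i : (layer d n) × Fin 2) : ℝ :=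
  if i.2 = 0 then Real.cos (∑ j, (i.1.1 j : ℝ) * x j) else - Real.sin (∑ j, (i.1.1 j : ℝ) * x j)

noncomputable def gqi {d n : ℕ} (x : Fin d → ℝ) (i : (layer d n) × Fin 2) : ℝ :=
  if i.2 = 0 then Real.sin (∑ j, (i.1.1 j : ℝ) * x j) else Real.cos (∑ j, (i.1.1 j : ℝ) * x j)

theorem gq_re {d n : ℕ} (u : (layer d n) × Fin 2 → ℝ) (x : Fin d → ℝ) :
    (poly u x).re = ∑ i, u i * gqr x i := by
  unfold poly
  rw [Complex.re_sum, Fintype.sum_prod_type]
  apply Finset.sum_congr rfl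
  intro k _
  rw [Fin.sum_univ_two, mul_comm Complex.I, Complex.mul_re, Complex.exp_ofReal_mul_I_re,
    Complex.exp_ofReal_mul_I_im]
  simp [gqr]
  ring

theorem gq_im {d n : ℕ} (u : (layer d n) × Fin 2 → ℝ) (x : Fin d → ℝ) :
    (poly u x).im = ∑ i, u i * gqi x i := by
  unfold poly
  rw [Complex.im_sum, Fintype.sum_prod_type]
  apply Finset.sum_congr rfl
  intro k _
  rw [Fin.sum_univ_two, mul_comm Complex.I, Complex.mul_im, Complex.exp_ofReal_mul_I_re,
    Complex.exp_ofReal_mul_I_im]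
  simp [gqi]

theorem gq_rsq {d n : ℕ} (x : Fin d → ℝ) :
    ∑ i : (layer d n) × Fin 2, gqr x i ^ 2 = (layer d n).card := by
  rw [Fintype.sum_prod_type]
  have : ∀ k : layer d n, ∑ j : Fin 2, gqr x (k, j) ^ 2 = 1 := by
    intro k
    rw [Fin.sum_univ_two]
    simp [gqr]
  rw [Finset.sum_congr rfl (fun k _ => this k)]
  simp

theorem gq_isq {d n : ℕ} (x : Fin d → ℝ) :
    ∑ i : (layer d n) × Fin 2, gqi x i ^ 2 = (layer d n).card := by
  rw [Fintype.sum_prod_type]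
  have : ∀ k : layer d n, ∑ j : Fin 2, gqi x (k, j) ^ 2 = 1 := by
    intro k
    rw [Fin.sum_univ_two]
    simp [gqi]
  rw [Finset.sum_congr rfl (fun k _ => this k)]
  simp

theorem gq_abs (t a b : ℝ) (h : t ≤ |a| + |b|) :
    Real.exp t ≤ Real.exp (2 * a) + Real.exp (-(2 * a)) + Real.exp (2 * b) + Real.exp (-(2 * b)) := by
  have p1 := Real.exp_pos (2 * a)
  have p2 := Real.exp_pos (-(2 * a))
  have p3 := Real.exp_pos (2 * b)
  have p4 := Real.exp_pos (-(2 * b))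
  have h4 : t ≤ 2 * a ∨ t ≤ -(2 * a) ∨ t ≤ 2 * b ∨ t ≤ -(2 * b) := by
    rcases le_total |b| |a| with h1 | h1
    · have h5 : t ≤ 2 * |a| := by linarith
      rcases abs_cases a with ⟨ha, _⟩ | ⟨ha, _⟩
      · rw [ha] at h5; left; exact h5
      · rw [ha] at h5; right; left; linarith
    · have h5 : t ≤ 2 * |b| := by linarith
      rcases abs_cases b with ⟨ha, _⟩ | ⟨ha, _⟩
      · rw [ha] at h5; right; right; left; exact h5
      · rw [ha] at h5; right; right; right; linarith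
  rcases h4 with h | h | h | h
  · have := Real.exp_le_exp.2 h; linarith
  · have := Real.exp_le_exp.2 h; linarith
  · have := Real.exp_le_exp.2 h; linarith
  · have := Real.exp_le_exp.2 h; linarith

noncomputable def gqD {d n : ℕ} (u : (layer d n) × Fin 2 → ℝ) (x : Fin d → ℝ) : ℝ :=
  Real.exp (∑ i, u i * (2 * (Real.sqrt ((layer d n).card))⁻¹ * gqr x i)) +
  Real.exp (∑ i, u i * (-(2 * (Real.sqrt ((layer d n).card))⁻¹ * gqr x i))) +
  Real.exp (∑ i, u i * (2 * (Real.sqrt ((layer d n).card))⁻¹ * gqi x i)) +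
  Real.exp (∑ i, u i * (-(2 * (Real.sqrt ((layer d n).card))⁻¹ * gqi x i)))

theorem gq_pt {d n : ℕ} (p : ℕ) (hN : 0 < (layer d n).card) (u : (layer d n) × Fin 2 → ℝ) (x : Fin d → ℝ) :
    ‖poly u x‖ ^ p ≤ (Real.sqrt ((layer d n).card)) ^ p * (p.factorial * gqD u x) := by
  set R := Real.sqrt ((layer d n).card) with hR
  have hR0 : 0 < R := Real.sqrt_pos.2 (by exact_mod_cast hN)
  have h1 : ‖poly u x‖ = R * (R⁻¹ * ‖poly u x‖) := by
    rw [← mul_assoc, mul_inv_cancel₀ hR0.ne', one_mul]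
  have h2 := Real.pow_div_factorial_le_exp (R⁻¹ * ‖poly u x‖) (by positivity) p
  rw [div_le_iff₀ (by positivity)] at h2
  have h0 : ‖poly u x‖ ^ p = R ^ p * (R⁻¹ * ‖poly u x‖) ^ p := by
    rw [← mul_pow, ← h1]
  rw [h0]
  apply mul_le_mul_of_nonneg_left _ (pow_nonneg hR0.le p)
  refine h2.trans ?_
  rw [mul_comm]
  apply mul_le_mul_of_nonneg_left _ (by positivity)
  have h3 : R⁻¹ * ‖poly u x‖ ≤ |R⁻¹ * (poly u x).re| + |R⁻¹ * (poly u x).im| := by
    rw [abs_mul, abs_mul, abs_of_pos (inv_pos.2 hR0), ← mul_add]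
    exact mul_le_mul_of_nonneg_left (Complex.norm_le_abs_re_add_abs_im _) (inv_pos.2 hR0).le
  refine (gq_abs _ _ _ h3).trans (le_of_eq ?_)
  unfold gqD
  rw [gq_re, gq_im]
  have e1 : ∀ c : (layer d n) × Fin 2 → ℝ, 2 * (R⁻¹ * ∑ i, u i * c i) = ∑ i, u i * (2 * R⁻¹ * c i) := by
    intro c
    rw [Finset.mul_sum, Finset.mul_sum]
    apply Finset.sum_congr rfl
    intro i _
    ring
  have e2 : ∀ c : (layer d n) × Fin 2 → ℝ, -(2 * (R⁻¹ * ∑ i, u i * c i)) = ∑ i, u i * (-(2 * R⁻¹ * c i)) := by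
    intro c
    rw [Finset.mul_sum, Finset.mul_sum, ← Finset.sum_neg_distrib]
    apply Finset.sum_congr rfl
    intro i _
    ring
  rw [e2, e2, e1, e1]

theorem gq_mgf {d n : ℕ} (hN : 0 < (layer d n).card) (c : (layer d n) × Fin 2 → ℝ)
    (hc : ∑ i, c i ^ 2 = (layer d n).card) (σ : ℝ) (hσ : σ ^ 2 = 1) :
    Integrable (fun u => Real.exp (∑ i, u i * (σ * (2 * (Real.sqrt ((layer d n).card))⁻¹ * c i))))
      (gam ((layer d n) × Fin 2) 1) ∧
    ∫ u, Real.exp (∑ i, u i * (σ * (2 * (Real.sqrt ((layer d n).card))⁻¹ * c i)))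
      ∂(gam ((layer d n) × Fin 2) 1) = Real.exp 2 := by
  obtain ⟨h1, h2⟩ := gam_mgf (1 : ℝ) (fun i => σ * (2 * (Real.sqrt ((layer d n).card))⁻¹ * c i))
  refine ⟨h1, ?_⟩
  rw [h2]
  congr 1
  have hN' : (0 : ℝ) < (layer d n).card := by exact_mod_cast hN
  have e : ∑ i, (σ * (2 * (Real.sqrt ((layer d n).card))⁻¹ * c i)) ^ 2 = 4 := by
    have : ∀ i, (σ * (2 * (Real.sqrt ((layer d n).card))⁻¹ * c i)) ^ 2 =
        (4 * ((layer d n).card : ℝ)⁻¹) * c i ^ 2 := by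
      intro i
      rw [mul_pow, mul_pow, mul_pow, hσ, inv_pow, Real.sq_sqrt hN'.le]
      ring
    rw [Finset.sum_congr rfl (fun i _ => this i), ← Finset.mul_sum, hc]
    field_simp
  rw [e]
  norm_num

theorem gq_D {d n : ℕ} (hN : 0 < (layer d n).card) (x : Fin d → ℝ) :
    Integrable (fun u => gqD u x) (gam ((layer d n) × Fin 2) 1) ∧
    ∫ u, gqD u x ∂(gam ((layer d n) × Fin 2) 1) = 4 * Real.exp 2 := by
  obtain ⟨i1, j1⟩ := gq_mgf hN (gqr x) (gq_rsq x) 1 (by norm_num)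
  obtain ⟨i2, j2⟩ := gq_mgf hN (gqr x) (gq_rsq x) (-1) (by norm_num)
  obtain ⟨i3, j3⟩ := gq_mgf hN (gqi x) (gq_isq x) 1 (by norm_num)
  obtain ⟨i4, j4⟩ := gq_mgf hN (gqi x) (gq_isq x) (-1) (by norm_num)
  simp only [one_mul, neg_one_mul] at i1 j1 i2 j2 i3 j3 i4 j4
  refine ⟨((i1.add i2).add i3).add i4, ?_⟩
  have key := integral_add' ((i1.add i2).add i3) i4
  rw [integral_add' (i1.add i2) i3, integral_add' i1 i2, j1, j2, j3, j4] at key
  refine Eq.trans ?_ (key.trans ?_)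
  · rfl
  · ring

theorem gq_lint {d n : ℕ} (p : ℕ) (hN : 0 < (layer d n).card) (x : Fin d → ℝ) :
    ∫⁻ u, ‖poly u x‖ₑ ^ (p : ℝ) ∂(gam ((layer d n) × Fin 2) 1) ≤
      ENNReal.ofReal ((Real.sqrt ((layer d n).card)) ^ p * (p.factorial * (4 * Real.exp 2))) := by
  obtain ⟨h1, h2⟩ := gq_D hN x
  have h3 : ∫⁻ u, ‖poly u x‖ₑ ^ (p : ℝ) ∂(gam ((layer d n) × Fin 2) 1) ≤
      ∫⁻ u, ENNReal.ofReal ((Real.sqrt ((layer d n).card)) ^ p * (p.factorial * gqD u x))
        ∂(gam ((layer d n) × Fin 2) 1) := by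
    apply lintegral_mono
    intro u
    show ‖poly u x‖ₑ ^ (p : ℝ) ≤ _
    rw [ENNReal.rpow_natCast, ← ofReal_norm_eq_enorm, ← ENNReal.ofReal_pow (norm_nonneg _)]
    exact ENNReal.ofReal_le_ofReal (gq_pt p hN u x)
  refine h3.trans (le_of_eq ?_)
  rw [← ofReal_integral_eq_lintegral_ofReal ((h1.const_mul _).const_mul _)
    (Filter.Eventually.of_forall fun u => by unfold gqD; positivity)]
  rw [integral_const_mul, integral_const_mul, h2]

theorem gauss_q (d : ℕ) (q : ℝ) (hq : 1 ≤ q) : ∃ C : ℝ, 0 < C ∧ ∀ n : ℕ,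
    (1/2 : ℝ≥0∞) ≤ gam ((layer d n) × Fin 2) 1 {u | nq q u ≤ C * Real.sqrt ((layer d n).card)} := by
  obtain ⟨p, hp⟩ : ∃ p : ℕ, p = ⌈q⌉₊ := ⟨_, rfl⟩
  have hqp : q ≤ p := by rw [hp]; exact Nat.le_ceil q
  have hp0 : (0 : ℝ) < p := by linarith
  have hp0' : p ≠ 0 := by
    intro h
    rw [h] at hp0
    simp at hp0
  set Kc : ℝ := 2 * (p.factorial * (4 * Real.exp 2)) with hKc
  have hKc0 : 0 < Kc := by positivity
  refine ⟨Kc ^ ((p : ℝ)⁻¹), Real.rpow_pos_of_pos hKc0 _, fun n => ?_⟩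
  haveI := gam_prob ((layer d n) × Fin 2) 1
  haveI := TP_prob d
  have hcx : ∀ u : (layer d n) × Fin 2 → ℝ, Continuous (poly u) := fun u =>
    (gq_cont d n).comp (Continuous.prodMk_right u)
  rcases Nat.eq_zero_or_pos (layer d n).card with hN | hN
  · have hem : IsEmpty (layer d n) := by
      rw [Finset.isEmpty_coe_sort]
      exact Finset.card_eq_zero.1 hN
    have hset : {u : (layer d n) × Fin 2 → ℝ | nq q u ≤ Kc ^ ((p : ℝ)⁻¹) * Real.sqrt ((layer d n).card)} = Set.univ := by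
      rw [Set.eq_univ_iff_forall]
      intro u
      have hz : poly u = 0 := by
        funext x
        unfold poly
        rw [Finset.univ_eq_empty, Finset.sum_empty]
        rfl
      show nq q u ≤ _
      unfold nq
      rw [hz, eLpNorm_zero]
      simp only [ENNReal.toReal_zero]
      positivity
    rw [hset, measure_univ]
    exact ENNReal.half_le_self
  · set γ := gam ((layer d n) × Fin 2) 1 with hγ
    set R : ℝ := Real.sqrt ((layer d n).card) with hR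
    have hR0 : 0 < R := Real.sqrt_pos.2 (by exact_mod_cast hN)
    set B : ℝ := R ^ p * (p.factorial * (4 * Real.exp 2)) with hB
    have hB0 : 0 < B := by positivity
    set F : ((layer d n) × Fin 2 → ℝ) → ℝ≥0∞ := fun u => ∫⁻ x, ‖poly u x‖ₑ ^ (p : ℝ) ∂(TP d) with hF
    have hmeas : Measurable (fun z : ((layer d n) × Fin 2 → ℝ) × (Fin d → ℝ) => ‖poly z.1 z.2‖ₑ ^ (p : ℝ)) :=
      ((gq_cont d n).measurable.enorm).pow_const _
    have hFm : Measurable F := hmeas.lintegral_prod_right'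
    have hFI : ∫⁻ u, F u ∂γ ≤ ENNReal.ofReal B := by
      rw [hF, lintegral_lintegral_swap hmeas.aemeasurable]
      calc ∫⁻ x, ∫⁻ u, ‖poly u x‖ₑ ^ (p : ℝ) ∂γ ∂(TP d) ≤ ∫⁻ x, ENNReal.ofReal B ∂(TP d) :=
            lintegral_mono fun x => gq_lint p hN x
        _ = ENNReal.ofReal B := by rw [lintegral_const, measure_univ, mul_one]
    have hBne : ENNReal.ofReal B ≠ 0 := by
      rw [Ne, ENNReal.ofReal_eq_zero]
      exact not_le.2 hB0
    have hmk := meas_ge_le_lintegral_div hFm.aemeasurable (μ := γ) (ε := 2 * ENNReal.ofReal B)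
      (mul_ne_zero (by norm_num) hBne) (ENNReal.mul_ne_top (by norm_num) ENNReal.ofReal_ne_top)
    have hmk2 : γ {u | 2 * ENNReal.ofReal B ≤ F u} ≤ 1 / 2 := by
      refine hmk.trans ?_
      calc (∫⁻ u, F u ∂γ) / (2 * ENNReal.ofReal B) ≤ ENNReal.ofReal B / (2 * ENNReal.ofReal B) :=
            ENNReal.div_le_div_right hFI _
        _ = (1 * ENNReal.ofReal B) / (2 * ENNReal.ofReal B) := by rw [one_mul]
        _ = 1 / 2 := ENNReal.mul_div_mul_right _ _ hBne ENNReal.ofReal_ne_top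
    have hgood : {u | 2 * ENNReal.ofReal B ≤ F u}ᶜ ⊆ {u | nq q u ≤ Kc ^ ((p : ℝ)⁻¹) * R} := by
      intro u hu
      have hu' : F u < 2 * ENNReal.ofReal B := not_le.1 hu
      show nq q u ≤ _
      unfold nq
      apply ENNReal.toReal_le_of_le_ofReal (by positivity)
      have h1 : eLpNorm (poly u) (ENNReal.ofReal q) (TP d) ≤ eLpNorm (poly u) (p : ℝ≥0∞) (TP d) := by
        apply eLpNorm_le_eLpNorm_of_exponent_le _ (hcx u).aestronglyMeasurable
        rw [← ENNReal.ofReal_natCast]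
        exact ENNReal.ofReal_le_ofReal hqp
      refine h1.trans ?_
      rw [eLpNorm_eq_lintegral_rpow_enorm_toReal (by exact_mod_cast hp0') (by simp), ENNReal.toReal_natCast, one_div]
      have h2 : (∫⁻ x, ‖poly u x‖ₑ ^ (p : ℝ) ∂(TP d)) ≤ ENNReal.ofReal (2 * B) := by
        rw [ENNReal.ofReal_mul (by norm_num), show ENNReal.ofReal 2 = 2 by simp]
        exact hu'.le
      refine (ENNReal.rpow_le_rpow h2 (by positivity)).trans (le_of_eq ?_)
      rw [ENNReal.ofReal_rpow_of_nonneg (by positivity) (by positivity)]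
      congr 1
      have e : 2 * B = Kc * R ^ p := by rw [hB, hKc]; ring
      rw [e, Real.mul_rpow hKc0.le (by positivity), Real.pow_rpow_inv_natCast hR0.le hp0']
    have huniv : (1 : ℝ≥0∞) ≤ γ {u | 2 * ENNReal.ofReal B ≤ F u} + γ {u | nq q u ≤ Kc ^ ((p : ℝ)⁻¹) * R} := by
      calc (1 : ℝ≥0∞) = γ Set.univ := measure_univ.symm
        _ ≤ γ {u | 2 * ENNReal.ofReal B ≤ F u} + γ {u | 2 * ENNReal.ofReal B ≤ F u}ᶜ := measure_univ_le_add_compl _
        _ ≤ _ := by gcongr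
    by_contra hcon
    rw [not_le] at hcon
    have : γ {u | 2 * ENNReal.ofReal B ≤ F u} + γ {u | nq q u ≤ Kc ^ ((p : ℝ)⁻¹) * R} < 1 / 2 + 1 / 2 :=
      ENNReal.add_lt_add_of_le_of_lt (ne_top_of_le_ne_top (by norm_num) hmk2) hmk2 hcon
    rw [ENNReal.add_halves] at this
    exact absurd huniv (not_le.2 this)

end Sol_EX_gauss_q

alias gauss_q := Sol_EX_gauss_q.gauss_q

end HypVol
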