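import Pool.Agent.EntX.Defs
import Pool.Agent.HypVol.L_TP_prob
import Pool.Agent.EntX.L_parseval
import Pool.Agent.EntX.L_nq_facts
open MeasureTheory Real ProbabilityTheory
open scoped ENNReal BigOperators

namespace HypVol
namespace Sol_EX_interp_qq

theorem interp_qq (d n : ℕ) (q s θ : ℝ) (hq : 2 < q) (hqs : q ≤ s) (hθ0 : 0 ≤ θ) (hθ1 : θ ≤ 1)
    (h : 1/q = θ/2 + (1 - θ)/s) (a : (layer d n) × Fin 2 → ℝ) :
    nq q a ≤ (eu a)^θ * (nq s a)^(1 - θ) := by
  have hq0 : 0 < q := by linarith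
  have hs0 : 0 < s := by linarith
  have hcont : Continuous (poly a : (Fin d → ℝ) → ℂ) := by
    unfold poly
    fun_prop
  have hm : AEMeasurable (fun x => ‖poly a x‖ₑ) (TP d) :=
    hcont.enorm.measurable.aemeasurable
  have hm2 : AEMeasurable (fun x => ‖poly a x‖ₑ ^ (2:ℝ)) (TP d) := hm.pow_const _
  have hms : AEMeasurable (fun x => ‖poly a x‖ₑ ^ s) (TP d) := hm.pow_const _
  have hsum : q * θ / 2 + q * (1 - θ) / s = 1 := by
    have : q * (1/q) = q * (θ/2 + (1 - θ)/s) := by rw [h]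
    rw [mul_one_div_cancel hq0.ne'] at this
    have h2 : q * (θ/2 + (1 - θ)/s) = q * θ / 2 + q * (1 - θ) / s := by ring
    exact h2.symm.trans this.symm
  have hH := ENNReal.lintegral_mul_norm_pow_le hm2 hms
    (p := q * θ / 2) (q := q * (1 - θ) / s) (by positivity)
    (div_nonneg (mul_nonneg hq0.le (by linarith)) hs0.le) hsum
  have e0 : ∀ x, (‖poly a x‖ₑ ^ (2:ℝ)) ^ (q * θ / 2) * (‖poly a x‖ₑ ^ s) ^ (q * (1 - θ) / s)
      = ‖poly a x‖ₑ ^ q := by
    intro x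
    rw [← ENNReal.rpow_mul, ← ENNReal.rpow_mul, ← ENNReal.rpow_add_of_nonneg]
    · congr 1
      field_simp
      ring
    · positivity
    · have : s * (q * (1 - θ) / s) = q * (1 - θ) := by field_simp
      rw [this]
      exact mul_nonneg hq0.le (by linarith)
  simp only [e0] at hH
  have hfacts := nq_facts d n q (by linarith)
  have hfs := nq_facts d n s (by linarith)
  have eq := hfacts.2.2.2.2.1 a
  have es := hfs.2.2.2.2.1 a
  have e2 := parseval a
  have f1 : ∀ r : ℝ, 0 < r → eLpNorm (poly a) (ENNReal.ofReal r) (TP d)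
      = (∫⁻ x, ‖poly a x‖ₑ ^ r ∂(TP d)) ^ (1/r) := by
    intro r hr
    rw [eLpNorm_eq_lintegral_rpow_enorm_toReal (by simpa using hr) ENNReal.ofReal_ne_top,
      ENNReal.toReal_ofReal hr.le]
  have e2' : eLpNorm (poly a) (ENNReal.ofReal 2) (TP d) = ENNReal.ofReal (eu a) := by
    rw [← e2]; norm_num
  rw [f1 q hq0] at eq
  rw [f1 s hs0] at es
  rw [f1 2 (by norm_num)] at e2'
  have hnn : 0 ≤ eu a := Real.sqrt_nonneg _
  have hnq : ∀ r : ℝ, 0 ≤ nq r a := fun r => ENNReal.toReal_nonneg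
  have hfin : ENNReal.ofReal (nq q a) ≤ ENNReal.ofReal ((eu a)^θ * (nq s a)^(1 - θ)) := by
    rw [ENNReal.ofReal_mul (Real.rpow_nonneg hnn _),
      ← ENNReal.ofReal_rpow_of_nonneg hnn hθ0,
      ← ENNReal.ofReal_rpow_of_nonneg (hnq s) (by linarith), ← eq, ← es, ← e2',
      ← ENNReal.rpow_mul, ← ENNReal.rpow_mul]
    calc (∫⁻ x, ‖poly a x‖ₑ ^ q ∂(TP d)) ^ (1/q)
        ≤ ((∫⁻ x, ‖poly a x‖ₑ ^ (2:ℝ) ∂(TP d)) ^ (q * θ / 2)
          * (∫⁻ x, ‖poly a x‖ₑ ^ s ∂(TP d)) ^ (q * (1 - θ) / s)) ^ (1/q) :=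
          ENNReal.rpow_le_rpow hH (by positivity)
      _ = _ := by
        rw [ENNReal.mul_rpow_of_nonneg _ _ (by positivity), ← ENNReal.rpow_mul,
          ← ENNReal.rpow_mul]
        congr 2
        · field_simp
        · field_simp
  exact (ENNReal.ofReal_le_ofReal_iff (mul_nonneg (Real.rpow_nonneg hnn _)
    (Real.rpow_nonneg (hnq s) _))).1 hfin

end Sol_EX_interp_qq

alias interp_qq := Sol_EX_interp_qq.interp_qq

end HypVol
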