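import Pool.Agent.EntX.Defs
import Pool.Agent.EntX.L_dual_sudakov
import Pool.Agent.EntX.L_gauss_q
import Pool.Agent.EntX.L_nq_facts
import Pool.Agent.EntX.L_supn_facts
import Pool.Agent.EntX.L_sudakov_primal
import Pool.Agent.EntX.L_pol_ball_eu
import Pool.Agent.HypVol.L_card_layer
import Pool.Agent.HypVol.L_shp_upper
open MeasureTheory Real ProbabilityTheory
open scoped ENNReal BigOperators

namespace HypVol
namespace Sol_EX_netE_polq

theorem npq_card (d n : ℕ) : (layer d n).card ≤ 2 ^ (d * (n + 1)) := by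
  classical
  unfold layer
  refine le_trans (Finset.card_filter_le _ _) ?_
  rw [Fintype.card_piFinset]
  simp only [Int.card_Ioo, Finset.prod_const, Finset.card_univ, Fintype.card_fin]
  calc ((2 : ℤ) ^ n - -(2 : ℤ) ^ n - 1).toNat ^ d ≤ (2 ^ (n + 1)) ^ d := by
        refine Nat.pow_le_pow_left ?_ _
        rw [Int.toNat_le]
        push_cast
        rw [pow_succ]
        linarith
    _ = 2 ^ (d * (n + 1)) := by rw [← pow_mul, mul_comm]

theorem netE_polq (d : ℕ) (q : ℝ) (hq : 1 ≤ q) :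
    NetE d (fun n => pol (LB d n (ENNReal.ofReal q))) (fun _ => eu) 0 := by
  obtain ⟨C0, hC0, hG⟩ := gauss_q d q hq
  refine ⟨172 * C0 ^ 2 + d, by positivity, fun n ε hε => ?_⟩
  have hε0 : 0 < ε := by linarith
  have hLB : LB d n (ENNReal.ofReal q) = {b | nq q b ≤ 1} := by
    ext b
    unfold LB
    show eLpNorm (poly b) (ENNReal.ofReal q) (TP d) ≤ 1 ↔ nq q b ≤ 1
    rw [(nq_facts d n q hq).2.2.2.2.1 b]
    exact ENNReal.ofReal_le_one
  show ∃ S : Finset ((layer d n) × Fin 2 → ℝ),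
    (S.card : ℝ) ≤ Real.exp ((172 * C0 ^ 2 + d) * ((layer d n).card * ((n : ℝ) + 1) ^ 0 / ε ^ 2 +
      ((n : ℝ) + 1))) ∧
    ∀ b ∈ pol (LB d n (ENNReal.ofReal q)), ∃ s ∈ S, eu (b - s) ≤ ε
  rw [hLB, pow_zero, mul_one]
  rcases Nat.eq_zero_or_pos (layer d n).card with h0 | hpos
  · have hemp : IsEmpty ((layer d n) × Fin 2) := by
      have h1 : layer d n = ∅ := Finset.card_eq_zero.1 h0
      constructor
      rintro ⟨⟨k, hk⟩, _⟩
      rw [h1] at hk
      exact absurd hk (Finset.notMem_empty _)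
    refine ⟨{0}, ?_, fun b _ => ⟨0, Finset.mem_singleton_self _, ?_⟩⟩
    · rw [Finset.card_singleton, Nat.cast_one]
      exact Real.one_le_exp (by positivity)
    · unfold eu
      rw [Finset.univ_eq_empty, Finset.sum_empty, Real.sqrt_zero]
      exact hε0.le
  · have hcr : (0 : ℝ) < (layer d n).card := by exact_mod_cast hpos
    have ht : 0 < C0 * Real.sqrt (layer d n).card := mul_pos hC0 (Real.sqrt_pos.2 hcr)
    obtain ⟨n1, n2, n3, n4, n5, n6⟩ := nq_facts d n q hq
    have hcov : ∀ η : ℝ, 0 < η → ∃ S : Finset ((layer d n) × Fin 2 → ℝ),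
        (S.card : ℝ) ≤ 2 * Real.exp (2 * C0 ^ 2 * (layer d n).card / η ^ 2) ∧
        ∀ a : (layer d n) × Fin 2 → ℝ, ∑ i, a i ^ 2 ≤ 1 → ∃ s ∈ S, nq q (a - s) ≤ η := by
      intro η hη
      obtain ⟨S, hS1, hS2⟩ := dual_sudakov (nq q) n1 n2 n3 _ ht (hG n) η hη
      refine ⟨S, ?_, hS2⟩
      have h1 : 2 * (C0 * Real.sqrt (layer d n).card) ^ 2 = 2 * C0 ^ 2 * (layer d n).card := by
        rw [mul_pow, Real.sq_sqrt hcr.le]
        ring
      rwa [h1] at hS1
    have hR : ∀ y ∈ pol {b : (layer d n) × Fin 2 → ℝ | nq q b ≤ 1},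
        eu y ≤ Real.sqrt (layer d n).card := by
      intro y hy
      apply pol_ball_eu
      intro b hb
      apply hy
      show nq q b ≤ 1
      exact le_trans (n6 b) ((supn_facts d n).2.2.2.2.2.1 b 1 hb)
    have hm : Real.sqrt (layer d n).card ≤ 2 ^ (d * (n + 1)) * ε := by
      have h1 : Real.sqrt (layer d n).card ≤ (layer d n).card := by
        have h2 : (1 : ℝ) ≤ (layer d n).card := by exact_mod_cast hpos
        rw [Real.sqrt_le_left (by linarith)]
        nlinarith
      have h2 : ((layer d n).card : ℝ) ≤ 2 ^ (d * (n + 1)) := by exact_mod_cast npq_card d n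
      have h3 : (0 : ℝ) < 2 ^ (d * (n + 1)) := by positivity
      nlinarith
    obtain ⟨S, hS1, hS2⟩ := sudakov_primal (nq q) n1 n2 (2 * C0 ^ 2 * (layer d n).card)
      (by positivity) hcov n4 _ hR _ ε hε0 hm
    refine ⟨S, le_trans hS1 ?_, hS2⟩
    have h2e : (2 : ℝ) ^ (d * (n + 1)) ≤ Real.exp (d * ((n : ℝ) + 1)) := by
      have h3 : (2 : ℝ) ≤ Real.exp 1 := by
        have := Real.add_one_le_exp (1 : ℝ)
        linarith
      calc (2 : ℝ) ^ (d * (n + 1)) ≤ (Real.exp 1) ^ (d * (n + 1)) :=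
            pow_le_pow_left₀ (by norm_num) h3 _
        _ = Real.exp (d * ((n : ℝ) + 1)) := by
            rw [← Real.exp_nat_mul]
            congr 1
            push_cast
            ring
    calc (2 : ℝ) ^ (d * (n + 1)) * Real.exp (86 * (2 * C0 ^ 2 * (layer d n).card) / ε ^ 2)
          ≤ Real.exp (d * ((n : ℝ) + 1)) *
            Real.exp (86 * (2 * C0 ^ 2 * (layer d n).card) / ε ^ 2) :=
          mul_le_mul_of_nonneg_right h2e (Real.exp_pos _).le
      _ = Real.exp (d * ((n : ℝ) + 1) + 86 * (2 * C0 ^ 2 * (layer d n).card) / ε ^ 2) := by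
          rw [Real.exp_add]
      _ ≤ Real.exp ((172 * C0 ^ 2 + d) * ((layer d n).card / ε ^ 2 + ((n : ℝ) + 1))) := by
          apply Real.exp_le_exp.2
          have h4 : 86 * (2 * C0 ^ 2 * (layer d n).card) / ε ^ 2 =
              172 * C0 ^ 2 * ((layer d n).card / ε ^ 2) := by ring
          rw [h4]
          have h5 : 0 ≤ ((layer d n).card : ℝ) / ε ^ 2 := by positivity
          have h6 : 0 ≤ (n : ℝ) + 1 := by positivity
          have h7 : 0 ≤ (d : ℝ) * ((layer d n).card / ε ^ 2) := by positivity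
          have h8 : 0 ≤ 172 * C0 ^ 2 * ((n : ℝ) + 1) := by positivity
          nlinarith

end Sol_EX_netE_polq

alias netE_polq := Sol_EX_netE_polq.netE_polq

end HypVol
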