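import Pool.Agent.EntX.Defs
import Pool.Agent.EntX.L_netE_polq
import Pool.Agent.EntX.L_holder_FC
import Pool.Agent.EntX.L_bessel
import Pool.Agent.HypVol.L_TP_prob
open MeasureTheory Real ProbabilityTheory
open scoped ENNReal BigOperators

namespace HypVol
namespace Sol_EX_netA_VP

theorem eu_eq {ι : Type} [Fintype ι] (a : ι → ℝ) : eu a = ‖(WithLp.toLp 2 a : EuclideanSpace ℝ ι)‖ := by
  rw [EuclideanSpace.norm_eq]
  unfold eu
  congr 1
  refine Finset.sum_congr rfl fun i _ => ?_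
  simp

theorem eu_add {ι : Type} [Fintype ι] (a b : ι → ℝ) : eu (a + b) ≤ eu a + eu b := by
  rw [eu_eq, eu_eq, eu_eq, WithLp.toLp_add]
  exact norm_add_le _ _

theorem eu_smul {ι : Type} [Fintype ι] (c : ℝ) (hc : 0 ≤ c) (a : ι → ℝ) : eu (c • a) = c * eu a := by
  rw [eu_eq, eu_eq, WithLp.toLp_smul, norm_smul, Real.norm_eq_abs, abs_of_nonneg hc]

theorem fc_congr {d : ℕ} {f g : (Fin d → ℝ) → ℂ} (h : f =ᵐ[TP d] g) (k : Fin d → ℤ) :
    fc f k = fc g k := by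
  unfold fc
  refine integral_congr_ae (h.mono fun x hx => ?_)
  simp only [hx]

theorem fc_smul {d : ℕ} (c : ℝ) (f : (Fin d → ℝ) → ℂ) (k : Fin d → ℤ) :
    fc (fun x => (c : ℂ) * f x) k = (c : ℂ) * fc f k := by
  unfold fc
  simp_rw [mul_assoc]
  exact integral_const_mul _ _

theorem fc_int {d : ℕ} (f : (Fin d → ℝ) → ℂ) (hf : Integrable f (TP d)) (k : Fin d → ℤ) :
    Integrable (fun x => f x * Complex.exp (-(Complex.I * ((∑ j, (k j : ℝ) * x j : ℝ) : ℂ)))) (TP d) := by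
  refine hf.norm.mono' ?_ (Filter.Eventually.of_forall fun x => ?_)
  · refine hf.aestronglyMeasurable.mul (Continuous.aestronglyMeasurable ?_)
    fun_prop
  · rw [norm_mul, Complex.norm_exp]
    have : (-(Complex.I * ((∑ j, (k j : ℝ) * x j : ℝ) : ℂ))).re = 0 := by
      simp only [Complex.neg_re, Complex.mul_re, Complex.I_re, Complex.I_im, Complex.ofReal_re,
        Complex.ofReal_im]
      ring
    rw [this, Real.exp_zero, mul_one]

theorem fc_add {d : ℕ} (f g : (Fin d → ℝ) → ℂ) (hf : Integrable f (TP d)) (hg : Integrable g (TP d))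
    (k : Fin d → ℤ) : fc (fun x => f x + g x) k = fc f k + fc g k := by
  unfold fc
  simp_rw [add_mul]
  exact integral_add (fc_int f hf k) (fc_int g hg k)

theorem FC_comb {d n : ℕ} (f g : (Fin d → ℝ) → ℂ) (hf : Integrable f (TP d)) (hg : Integrable g (TP d))
    (u v : ℝ) : FC d n (fun x => (u : ℂ) * f x + (v : ℂ) * g x) = u • FC d n f + v • FC d n g := by
  ext i
  have h : fc (fun x => (u : ℂ) * f x + (v : ℂ) * g x) i.1.1 = (u : ℂ) * fc f i.1.1 + (v : ℂ) * fc g i.1.1 := by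
    rw [fc_add _ _ (hf.const_mul _) (hg.const_mul _), fc_smul, fc_smul]
  simp only [FC, Pi.add_apply, Pi.smul_apply, smul_eq_mul]
  rw [h]
  split_ifs
  · simp
  · simp

theorem FC_congr {d n : ℕ} {f g : (Fin d → ℝ) → ℂ} (h : f =ᵐ[TP d] g) : FC d n f = FC d n g := by
  ext i
  simp only [FC, fc_congr h]

theorem lemG {d : ℕ} (φ ψ : (Fin d → ℝ) → ℂ) (p q : ℝ) (hq : 0 < q)
    (hφ : ∫⁻ x, ‖φ x‖ₑ ^ p ∂(TP d) ≤ 1) (h : ∀ x, ‖ψ x‖ ^ q ≤ ‖φ x‖ ^ p) (hp : 0 < p) :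
    eLpNorm ψ (ENNReal.ofReal q) (TP d) ≤ 1 := by
  rw [eLpNorm_eq_lintegral_rpow_enorm_toReal (by simpa using hq) ENNReal.ofReal_ne_top,
    ENNReal.toReal_ofReal hq.le]
  have h1 : ∫⁻ x, ‖ψ x‖ₑ ^ q ∂(TP d) ≤ ∫⁻ x, ‖φ x‖ₑ ^ p ∂(TP d) := by
    refine lintegral_mono fun x => ?_
    rw [← ofReal_norm_eq_enorm, ← ofReal_norm_eq_enorm,
      ENNReal.ofReal_rpow_of_nonneg (norm_nonneg _) hq.le,
      ENNReal.ofReal_rpow_of_nonneg (norm_nonneg _) hp.le]
    exact ENNReal.ofReal_le_ofReal (h x)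
  calc (∫⁻ x, ‖ψ x‖ₑ ^ q ∂(TP d)) ^ (1 / q) ≤ 1 ^ (1 / q) :=
        ENNReal.rpow_le_rpow (h1.trans hφ) (by positivity)
    _ = 1 := ENNReal.one_rpow _

theorem memPol {d n : ℕ} (q q' : ℝ) (hq : q.HolderConjugate q') (f : (Fin d → ℝ) → ℂ)
    (hf : MemLp f (ENNReal.ofReal q) (TP d)) (hf1 : eLpNorm f (ENNReal.ofReal q) (TP d) ≤ 1) :
    FC d n f ∈ pol (LB d n (ENNReal.ofReal q')) := by
  intro b hb
  have h := holder_FC q q' hq f hf b
  have h1 : (eLpNorm f (ENNReal.ofReal q) (TP d)).toReal ≤ 1 := by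
    simpa using ENNReal.toReal_mono ENNReal.one_ne_top hf1
  have h2 : (eLpNorm (poly b) (ENNReal.ofReal q') (TP d)).toReal ≤ 1 := by
    simpa using ENNReal.toReal_mono ENNReal.one_ne_top hb
  exact h.trans (mul_le_one₀ h1 ENNReal.toReal_nonneg h2)

theorem decomp {d n : ℕ} (p A p0 : ℝ) (hp1 : 1 < p) (hp2 : p < 2) (hA : 2 ≤ A) (hp01 : 1 < p0)
    (hp0p : p0 ≤ p) (hrel : p0 * (A - 2) * (2 - p) = 4 * (p - p0)) (E : ℝ) (hE : 1 ≤ E)
    (b : (layer d n) × Fin 2 → ℝ) (hb : b ∈ VP d p n) :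
    ∃ ψ1 ψ2 : (Fin d → ℝ) → ℂ, MemLp ψ1 (ENNReal.ofReal p0) (TP d) ∧
      eLpNorm ψ1 (ENNReal.ofReal p0) (TP d) ≤ 1 ∧ MemLp ψ2 2 (TP d) ∧ eLpNorm ψ2 2 (TP d) ≤ 1 ∧
      b = E ^ (1 - A/2) • FC d n ψ1 + E • FC d n ψ2 := by
  haveI := TP_prob d
  obtain ⟨φ0, hm0, hn0, rfl⟩ := hb
  obtain ⟨φ, hφm, hφae⟩ := hm0.aestronglyMeasurable
  have hn : eLpNorm φ (ENNReal.ofReal p) (TP d) ≤ 1 := by
    rw [← eLpNorm_congr_ae hφae]; exact hn0
  rw [FC_congr hφae]
  have hp0 : 0 < p := by linarith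
  have hp00 : 0 < p0 := by linarith
  have hE0 : 0 < E := by linarith
  have hint : ∫⁻ x, ‖φ x‖ₑ ^ p ∂(TP d) ≤ 1 := by
    rw [eLpNorm_eq_lintegral_rpow_enorm_toReal (by simpa using hp0) ENNReal.ofReal_ne_top,
      ENNReal.toReal_ofReal hp0.le] at hn
    have := ENNReal.rpow_le_rpow hn hp0.le
    rw [← ENNReal.rpow_mul, one_div, inv_mul_cancel₀ hp0.ne', ENNReal.rpow_one, ENNReal.one_rpow] at this
    exact this
  obtain ⟨lam, hlam⟩ : ∃ lam : ℝ, lam = E ^ (2 / (2 - p)) := ⟨_, rfl⟩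
  have hlam0 : 0 < lam := hlam ▸ Real.rpow_pos_of_pos hE0 _
  obtain ⟨mu, hmu⟩ : ∃ mu : ℝ, mu = E ^ (1 - A/2) := ⟨_, rfl⟩
  have hmu0 : 0 < mu := hmu ▸ Real.rpow_pos_of_pos hE0 _
  rw [← hmu]
  let s : Set (Fin d → ℝ) := {x | lam < ‖φ x‖}
  have hs : MeasurableSet s := measurableSet_lt measurable_const hφm.norm.measurable
  let ψ1 : (Fin d → ℝ) → ℂ := fun x => ((mu⁻¹ : ℝ) : ℂ) * s.indicator φ x
  let ψ2 : (Fin d → ℝ) → ℂ := fun x => ((E⁻¹ : ℝ) : ℂ) * sᶜ.indicator φ x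
  have hm1 : AEStronglyMeasurable ψ1 (TP d) :=
    ((hφm.indicator hs).const_mul _).aestronglyMeasurable
  have hm2 : AEStronglyMeasurable ψ2 (TP d) :=
    ((hφm.indicator hs.compl).const_mul _).aestronglyMeasurable
  have h2p : 0 < 2 - p := by linarith
  
  have hc1 : mu ^ p0 * lam ^ (p - p0) = 1 := by
    rw [hmu, hlam, ← Real.rpow_mul hE0.le, ← Real.rpow_mul hE0.le, ← Real.rpow_add hE0]
    have : (1 - A/2) * p0 + 2 / (2 - p) * (p - p0) = 0 := by
      field_simp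
      linarith
    rw [this, Real.rpow_zero]
  have hc2 : lam ^ (2 - p) = E ^ (2:ℝ) := by
    rw [hlam, ← Real.rpow_mul hE0.le]
    congr 1
    field_simp
  have e1 : eLpNorm ψ1 (ENNReal.ofReal p0) (TP d) ≤ 1 := by
    refine lemG φ ψ1 p p0 hp00 hint (fun x => ?_) hp0
    by_cases hx : x ∈ s
    · have hx' : lam < ‖φ x‖ := hx
      have hpos : 0 < ‖φ x‖ := hlam0.trans hx'
      simp only [ψ1, Set.indicator_of_mem hx, norm_mul, Complex.norm_real, Real.norm_eq_abs]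
      rw [abs_of_pos (inv_pos.2 hmu0), Real.mul_rpow (inv_pos.2 hmu0).le hpos.le, Real.inv_rpow hmu0.le]
      rw [inv_mul_le_iff₀ (Real.rpow_pos_of_pos hmu0 _)]
      have h1 : lam ^ (p - p0) ≤ ‖φ x‖ ^ (p - p0) :=
        Real.rpow_le_rpow hlam0.le hx'.le (by linarith)
      have h2 : ‖φ x‖ ^ p = ‖φ x‖ ^ (p - p0) * ‖φ x‖ ^ p0 := by
        rw [← Real.rpow_add hpos]; congr 1; ring
      rw [h2]
      calc ‖φ x‖ ^ p0 = (mu ^ p0 * lam ^ (p - p0)) * ‖φ x‖ ^ p0 := by rw [hc1, one_mul]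
        _ ≤ (mu ^ p0 * ‖φ x‖ ^ (p - p0)) * ‖φ x‖ ^ p0 := by gcongr
        _ = mu ^ p0 * (‖φ x‖ ^ (p - p0) * ‖φ x‖ ^ p0) := by ring
    · simp only [ψ1, Set.indicator_of_notMem hx, mul_zero, norm_zero]
      rw [Real.zero_rpow hp00.ne']
      positivity
  have e2 : eLpNorm ψ2 (ENNReal.ofReal 2) (TP d) ≤ 1 := by
    refine lemG φ ψ2 p 2 (by norm_num) hint (fun x => ?_) hp0
    by_cases hx : x ∈ s
    · have hx' : x ∉ sᶜ := fun h => h hx
      simp only [ψ2, Set.indicator_of_notMem hx', mul_zero, norm_zero]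
      rw [Real.zero_rpow (by norm_num)]
      positivity
    · have hx' : x ∈ sᶜ := hx
      have hle : ‖φ x‖ ≤ lam := not_lt.1 hx
      simp only [ψ2, Set.indicator_of_mem hx', norm_mul, Complex.norm_real, Real.norm_eq_abs]
      rcases eq_or_lt_of_le (norm_nonneg (φ x)) with h0 | h0
      · rw [← h0, mul_zero, Real.zero_rpow (by norm_num), Real.zero_rpow hp0.ne']
      · rw [abs_of_pos (inv_pos.2 hE0), Real.mul_rpow (inv_pos.2 hE0).le h0.le, Real.inv_rpow hE0.le]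
        rw [inv_mul_le_iff₀ (Real.rpow_pos_of_pos hE0 _)]
        have h1 : ‖φ x‖ ^ (2 - p) ≤ lam ^ (2 - p) := Real.rpow_le_rpow h0.le hle h2p.le
        have h2 : ‖φ x‖ ^ (2:ℝ) = ‖φ x‖ ^ (2 - p) * ‖φ x‖ ^ p := by
          rw [← Real.rpow_add h0]; congr 1; ring
        rw [h2, ← hc2]
        gcongr
  rw [show ENNReal.ofReal 2 = 2 by simp] at e2
  have M1 : MemLp ψ1 (ENNReal.ofReal p0) (TP d) := ⟨hm1, e1.trans_lt ENNReal.one_lt_top⟩
  have M2 : MemLp ψ2 2 (TP d) := ⟨hm2, e2.trans_lt ENNReal.one_lt_top⟩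
  refine ⟨ψ1, ψ2, M1, e1, M2, e2, ?_⟩
  have i1 : Integrable ψ1 (TP d) := M1.integrable (by
    rw [show (1 : ℝ≥0∞) = ENNReal.ofReal 1 by simp]
    exact ENNReal.ofReal_le_ofReal hp01.le)
  have i2 : Integrable ψ2 (TP d) := M2.integrable (by norm_num)
  rw [← FC_comb ψ1 ψ2 i1 i2]
  congr 1
  ext x
  simp only [ψ1, ψ2]
  have hmuC : (mu : ℂ) ≠ 0 := by exact_mod_cast hmu0.ne'
  have hEC : (E : ℂ) ≠ 0 := by exact_mod_cast hE0.ne'
  rw [← mul_assoc, ← mul_assoc, Complex.ofReal_inv, Complex.ofReal_inv, mul_inv_cancel₀ hmuC,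
    mul_inv_cancel₀ hEC, one_mul, one_mul]
  have := congrFun (Set.indicator_self_add_compl s φ) x
  simpa using this.symm

theorem netA_VP (d : ℕ) (p A : ℝ) (hp1 : 1 < p) (hp2 : p < 2) (hA : 2 ≤ A) (hA2 : A * (1/p - 1/2) < 1) :
    NetA d (VP d p) (fun _ => eu) 0 A := by
  have hp0 : 0 < p := by linarith
  have h2p : 0 < 2 - p := by linarith
  have hAp : A * (2 - p) < 2 * p := by
    have : A * (1/p - 1/2) * (2 * p) < 1 * (2 * p) := by
      apply mul_lt_mul_of_pos_right hA2; positivity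
    have h2 : A * (1/p - 1/2) * (2 * p) = A * (2 - p) := by
      field_simp
    linarith
  obtain ⟨D, hD⟩ : ∃ D : ℝ, D = (A - 2) * (2 - p) + 4 := ⟨_, rfl⟩
  have hD0 : 0 < D := by
    rw [hD]
    have : 0 ≤ (A - 2) * (2 - p) := mul_nonneg (by linarith) h2p.le
    linarith
  obtain ⟨p0, hp0def⟩ : ∃ p0 : ℝ, p0 = 4 * p / D := ⟨_, rfl⟩
  have hp0D : p0 * D = 4 * p := by rw [hp0def]; field_simp
  have hp01 : 1 < p0 := by
    rw [hp0def, lt_div_iff₀ hD0, hD]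
    nlinarith
  have hrel : p0 * (A - 2) * (2 - p) = 4 * (p - p0) := by
    rw [hD] at hp0D
    linarith
  have hp0p : p0 ≤ p := by
    have : 0 ≤ p0 * (A - 2) * (2 - p) := by
      have h1 : 0 ≤ A - 2 := by linarith
      have h2 : 0 ≤ p0 := by linarith
      positivity
    linarith
  have hc := Real.HolderConjugate.conjExponent hp1
  have hc0 := Real.HolderConjugate.conjExponent hp01
  obtain ⟨C1, hC1, h1⟩ := netE_polq d (Real.conjExponent p) hc.symm.lt.le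
  obtain ⟨C2, hC2, h2⟩ := netE_polq d (Real.conjExponent p0) hc0.symm.lt.le
  have h2A : (1:ℝ) ≤ 2 ^ A := Real.one_le_rpow (by norm_num) (by linarith)
  refine ⟨2 ^ A * (C1 + C2), by positivity, fun n ε hε => ?_⟩
  have hcard : (0:ℝ) ≤ ((layer d n).card : ℝ) := Nat.cast_nonneg _
  have hn0 : (0:ℝ) ≤ (n:ℝ) + 1 := by positivity
  have hεA : 0 < ε ^ A := Real.rpow_pos_of_pos (by linarith) _
  rcases lt_or_ge ε 2 with hlt | hge
  · obtain ⟨S, hS, hS2⟩ := h1 n 1 le_rfl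
    refine ⟨S, hS.trans (Real.exp_le_exp.2 ?_), fun b hb => ?_⟩
    · have h3 : ε ^ A ≤ 2 ^ A := Real.rpow_le_rpow (by linarith) hlt.le (by linarith)
      have h4 : ((layer d n).card : ℝ) ≤ 2 ^ A * (((layer d n).card : ℝ) / ε ^ A) := by
        rw [mul_div_assoc', le_div_iff₀ hεA, mul_comm]
        gcongr
      have h5 : 0 ≤ ((layer d n).card : ℝ) / ε ^ A := by positivity
      simp only [pow_zero, mul_one, one_pow, div_one]
      calc C1 * (((layer d n).card : ℝ) + ((n:ℝ) + 1))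
          ≤ C1 * (2 ^ A * (((layer d n).card : ℝ) / ε ^ A) + 2 ^ A * ((n:ℝ) + 1)) := by
            gcongr
            exact le_mul_of_one_le_left hn0 h2A
        _ = 2 ^ A * C1 * (((layer d n).card : ℝ) / ε ^ A + ((n:ℝ) + 1)) := by ring
        _ ≤ 2 ^ A * (C1 + C2) * (((layer d n).card : ℝ) / ε ^ A + ((n:ℝ) + 1)) := by
            gcongr
            linarith
    · obtain ⟨φ, hφ1, hφ2, rfl⟩ := hb
      obtain ⟨s, hs, hs2⟩ := hS2 _ (memPol p _ hc φ hφ1 hφ2)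
      exact ⟨s, hs, hs2.trans hε⟩
  · classical
    obtain ⟨E, hE⟩ : ∃ E : ℝ, E = ε / 2 := ⟨_, rfl⟩
    have hE1 : 1 ≤ E := by rw [hE]; linarith
    have hE0 : 0 < E := by linarith
    have hεE : ε = 2 * E := by rw [hE]; ring
    obtain ⟨S, hS, hS2⟩ := h2 n (E ^ (A/2)) (Real.one_le_rpow hE1 (by linarith))
    have hmu0 : 0 < E ^ (1 - A/2) := Real.rpow_pos_of_pos hE0 _
    refine ⟨S.image (fun s => E ^ (1 - A/2) • s), ?_, fun b hb => ?_⟩
    · have hle : ((S.image (fun s => E ^ (1 - A/2) • s)).card : ℝ) ≤ S.card := by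
        exact_mod_cast Finset.card_image_le
      refine hle.trans (hS.trans (Real.exp_le_exp.2 ?_))
      have h6 : (E ^ (A/2)) ^ 2 = E ^ A := by
        rw [← Real.rpow_natCast, ← Real.rpow_mul hE0.le]
        congr 1
        push_cast
        ring
      have h7 : ε ^ A = 2 ^ A * E ^ A := by
        rw [hεE, Real.mul_rpow (by norm_num) hE0.le]
      have hEA : E ^ A ≠ 0 := (Real.rpow_pos_of_pos hE0 _).ne'
      have h22 : (2:ℝ) ^ A ≠ 0 := (Real.rpow_pos_of_pos (by norm_num) _).ne'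
      have h22' : (0:ℝ) < 2 ^ A := Real.rpow_pos_of_pos (by norm_num) _
      have h8 : ((layer d n).card : ℝ) / E ^ A = 2 ^ A * (((layer d n).card : ℝ) / ε ^ A) := by
        rw [h7, mul_div_assoc', mul_div_mul_left _ _ h22]
      simp only [pow_zero, mul_one]
      rw [h6, h8]
      have h9 : (0:ℝ) ≤ ((layer d n).card : ℝ) / ε ^ A := div_nonneg hcard hεA.le
      generalize ((layer d n).card : ℝ) / ε ^ A = T at h9 ⊢
      generalize (2:ℝ) ^ A = W at h22' h2A ⊢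
      generalize (n:ℝ) + 1 = N at hn0 ⊢
      have e1 : N ≤ W * N := le_mul_of_one_le_left hn0 h2A
      calc C2 * (W * T + N)
          ≤ C2 * (W * T + W * N) :=
            mul_le_mul_of_nonneg_left (by linarith) (by linarith)
        _ = W * C2 * (T + N) := by ring
        _ ≤ W * (C1 + C2) * (T + N) :=
            mul_le_mul_of_nonneg_right (mul_le_mul_of_nonneg_left (by linarith) h22'.le)
              (by linarith)
    · obtain ⟨ψ1, ψ2, m1, e1, m2, e2, rfl⟩ := decomp p A p0 hp1 hp2 hA hp01 hp0p hrel E hE1 b hb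
      obtain ⟨s, hs, hs2⟩ := hS2 _ (memPol p0 _ hc0 ψ1 m1 e1)
      refine ⟨E ^ (1 - A/2) • s, Finset.mem_image_of_mem _ hs, ?_⟩
      have hv : eu (FC d n ψ2) ≤ 1 := by
        have := bessel (n := n) ψ2 m2 e2
        unfold eu
        rw [show (1:ℝ) = Real.sqrt 1 by simp]
        exact Real.sqrt_le_sqrt this
      have heq : E ^ (1 - A/2) • FC d n ψ1 + E • FC d n ψ2 - E ^ (1 - A/2) • s =
          E ^ (1 - A/2) • (FC d n ψ1 - s) + E • FC d n ψ2 := by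
        rw [smul_sub]; abel
      rw [heq]
      calc eu (E ^ (1 - A/2) • (FC d n ψ1 - s) + E • FC d n ψ2)
          ≤ eu (E ^ (1 - A/2) • (FC d n ψ1 - s)) + eu (E • FC d n ψ2) := eu_add _ _
        _ = E ^ (1 - A/2) * eu (FC d n ψ1 - s) + E * eu (FC d n ψ2) := by
            rw [eu_smul _ hmu0.le, eu_smul _ hE0.le]
        _ ≤ E ^ (1 - A/2) * E ^ (A/2) + E * 1 := by gcongr
        _ = ε := by
            rw [← Real.rpow_add hE0, hεE]
            have : 1 - A/2 + A/2 = 1 := by ring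
            rw [this, Real.rpow_one]; ring

end Sol_EX_netA_VP

alias netA_VP := Sol_EX_netA_VP.netA_VP

end HypVol
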