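import Pool.Agent.EntX.Defs
import Pool.Agent.EntX.L_dual_sudakov
import Pool.Agent.EntX.L_gauss_q
import Pool.Agent.EntX.L_nq_facts
import Pool.Agent.EntX.L_interp_qq
import Pool.Agent.EntX.L_parseval
open MeasureTheory Real ProbabilityTheory
open scoped ENNReal BigOperators

namespace HypVol
namespace Sol_EX_netA_q

theorem na_neg {d n : ℕ} (s : ℝ) (hs : 1 ≤ s) (a : (layer d n) × Fin 2 → ℝ) :
    nq s (-a) = nq s a := by
  have h := (nq_facts d n s hs).2.1 (-1) a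
  rw [neg_one_smul, abs_neg, abs_one, one_mul] at h
  exact h

theorem na_zero {d n : ℕ} (s : ℝ) (hs : 1 ≤ s) : nq s (0 : (layer d n) × Fin 2 → ℝ) = 0 := by
  have h := (nq_facts d n s hs).2.1 0 0
  rw [zero_smul, abs_zero, zero_mul] at h
  exact h

theorem na_eu {ι : Type} [Fintype ι] (a p : ι → ℝ) (ha : ∑ i, a i ^ 2 ≤ 1)
    (hp : ∑ i, p i ^ 2 ≤ 1) : eu (a - p) ≤ 2 := by
  unfold eu
  have h1 : ∑ i, (a - p) i ^ 2 ≤ 2 ^ 2 := by
    calc ∑ i, (a - p) i ^ 2 ≤ ∑ i, (2 * a i ^ 2 + 2 * p i ^ 2) := by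
          refine Finset.sum_le_sum (fun i _ => ?_)
          rw [Pi.sub_apply]
          nlinarith [sq_nonneg (a i + p i)]
      _ = 2 * ∑ i, a i ^ 2 + 2 * ∑ i, p i ^ 2 := by
          rw [Finset.sum_add_distrib, Finset.mul_sum, Finset.mul_sum]
      _ ≤ 2 ^ 2 := by linarith
  calc Real.sqrt (∑ i, (a - p) i ^ 2) ≤ Real.sqrt (2 ^ 2) := Real.sqrt_le_sqrt h1
    _ = 2 := Real.sqrt_sq (by norm_num)

theorem netA_q (d : ℕ) (q A : ℝ) (hq : 2 < q) (hA : 2 ≤ A) (hA2 : A * (1/2 - 1/q) < 1) :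
    NetA d (V2 d) (fun _ => nq q) 0 A := by
  classical
  have hq0 : 0 < q := by linarith
  set δ : ℝ := 1/2 - 1/q with hδ
  have hδ0 : 0 < δ := by
    have : 1 / q < 1 / 2 := one_div_lt_one_div_of_lt (by norm_num) hq
    linarith
  have hD : 0 < 1 - A * δ := by linarith
  set s : ℝ := max q (2 / (1 - A * δ)) with hs
  have hsq : q ≤ s := le_max_left _ _
  have hs2 : 2 < s := lt_of_lt_of_le hq hsq
  have hs0 : 0 < s := by linarith
  have hs1 : 1 ≤ s := by linarith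
  have hs3 : 2 / (1 - A * δ) ≤ s := le_max_right _ _
  have hinv : 1 / s ≤ (1 - A * δ) / 2 := by
    rw [div_le_iff₀ hD] at hs3
    rw [div_le_div_iff₀ hs0 (by norm_num)]
    linarith
  have hsD : 0 < 1 / 2 - 1 / s := by
    have : 1 / s < 1 / 2 := one_div_lt_one_div_of_lt (by norm_num) hs2
    linarith
  set κ : ℝ := δ / (1 / 2 - 1 / s) with hκ
  have hκ0 : 0 < κ := div_pos hδ0 hsD
  have hκ1 : κ ≤ 1 := by
    rw [hκ, div_le_one hsD]
    have : 1 / s ≤ 1 / q := one_div_le_one_div_of_le hq0 hsq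
    linarith
  have hAκ : A ≤ 2 / κ := by
    rw [le_div_iff₀ hκ0, hκ, ← mul_div_assoc, div_le_iff₀ hsD]
    linarith
  have hκδ : κ * (1 / 2 - 1 / s) = δ := by
    rw [hκ]
    exact div_mul_cancel₀ _ hsD.ne'
  have hθ : 1 / q = (1 - κ) / 2 + (1 - (1 - κ)) / s := by
    have h1 : (1 - κ) / 2 + (1 - (1 - κ)) / s = 1 / 2 - κ * (1 / 2 - 1 / s) := by ring
    rw [h1, hκδ, hδ]
    ring
  obtain ⟨C0, hC0, hg⟩ := gauss_q d s hs1
  refine ⟨2 * C0 ^ 2 * (2:ℝ) ^ (2 / κ) + 1, by positivity, ?_⟩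
  intro n ε hε
  have hε0 : 0 < ε := by linarith
  have hεA : 0 < ε ^ A := Real.rpow_pos_of_pos hε0 A
  have hn1 : (1:ℝ) ≤ (n:ℝ) + 1 := by linarith [Nat.cast_nonneg (α := ℝ) n]
  have hCge : (1:ℝ) ≤ 2 * C0 ^ 2 * (2:ℝ) ^ (2 / κ) + 1 := by
    have : 0 ≤ 2 * C0 ^ 2 * (2:ℝ) ^ (2 / κ) := by positivity
    linarith
  rcases Nat.eq_zero_or_pos (layer d n).card with hN | hN
  · refine ⟨{0}, ?_, ?_⟩
    · rw [Finset.card_singleton, Nat.cast_one]
      refine Real.one_le_exp ?_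
      exact mul_nonneg (by linarith) (add_nonneg (div_nonneg (mul_nonneg (Nat.cast_nonneg _)
        (pow_nonneg (by linarith) _)) hεA.le) (by linarith))
    · intro b _
      refine ⟨0, Finset.mem_singleton_self _, ?_⟩
      have hb : b - 0 = 0 := by
        funext i
        have h1 : 0 < (layer d n).card := Finset.card_pos.2 ⟨_, i.1.2⟩
        exact absurd hN h1.ne'
      show nq q (b - 0) ≤ ε
      rw [hb, na_zero q (by linarith)]
      exact hε0.le
  · have hNpos : (0:ℝ) < ((layer d n).card : ℝ) := by exact_mod_cast hN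
    have ht : 0 < C0 * Real.sqrt ((layer d n).card) := mul_pos hC0 (Real.sqrt_pos.2 hNpos)
    set ε' : ℝ := (ε / 2) ^ (1 / κ) with hε'
    have hε2 : 0 < ε / 2 := by positivity
    have hε'0 : 0 < ε' := Real.rpow_pos_of_pos hε2 _
    obtain ⟨S0, hS0c, hS0⟩ := dual_sudakov (ι := (layer d n) × Fin 2) (nq s)
      (nq_facts d n s hs1).1 (nq_facts d n s hs1).2.1 (nq_facts d n s hs1).2.2.1 _ ht (hg n)
      ε' hε'0
    
    let p : ((layer d n) × Fin 2 → ℝ) → ((layer d n) × Fin 2 → ℝ) := fun y =>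
      if h : ∃ x : (layer d n) × Fin 2 → ℝ, ∑ i, x i ^ 2 ≤ 1 ∧ nq s (x - y) ≤ ε' then h.choose
      else 0
    refine ⟨S0.image p, ?_, ?_⟩
    · have h1 : ((S0.image p).card : ℝ) ≤ 2 * Real.exp (2 * (C0 * Real.sqrt ((layer d n).card)) ^ 2 / ε' ^ 2) := by
        refine le_trans ?_ hS0c
        exact_mod_cast Finset.card_image_le
      refine h1.trans ?_
      have h2 : (2:ℝ) ≤ Real.exp ((n:ℝ) + 1) := by
        have := Real.add_one_le_exp ((n:ℝ) + 1)
        linarith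
      have h3 : 2 * (C0 * Real.sqrt ((layer d n).card)) ^ 2 / ε' ^ 2 ≤
          (2 * C0 ^ 2 * (2:ℝ) ^ (2 / κ)) * (((layer d n).card : ℝ) / ε ^ A) := by
        have h4 : (C0 * Real.sqrt ((layer d n).card)) ^ 2 = C0 ^ 2 * (layer d n).card := by
          rw [mul_pow, Real.sq_sqrt hNpos.le]
        have h5 : ε' ^ 2 = ε ^ (2 / κ) / (2:ℝ) ^ (2 / κ) := by
          rw [hε', ← Real.rpow_natCast, ← Real.rpow_mul hε2.le, Real.div_rpow hε0.le (by norm_num)]
          have : 1 / κ * ((2:ℕ):ℝ) = 2 / κ := by push_cast; ring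
          rw [this]
        have h6 : ε ^ A ≤ ε ^ (2 / κ) := Real.rpow_le_rpow_of_exponent_le hε hAκ
        have h7 : 0 < ε ^ (2 / κ) := Real.rpow_pos_of_pos hε0 _
        have h8 : 0 < (2:ℝ) ^ (2 / κ) := Real.rpow_pos_of_pos (by norm_num) _
        have hgen : ∀ N x y c : ℝ, 0 < x → 0 < y →
            2 * (c * N) / (x / y) = (2 * c * y) * (N / x) := by
          intro N x y c hx hy
          field_simp
        rw [h4, h5]
        have h9 : 2 * (C0 ^ 2 * ((layer d n).card : ℝ)) / (ε ^ (2 / κ) / (2:ℝ) ^ (2 / κ)) =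
            (2 * C0 ^ 2 * (2:ℝ) ^ (2 / κ)) * (((layer d n).card : ℝ) / ε ^ (2 / κ)) :=
          hgen _ _ _ _ h7 h8
        rw [h9]
        refine mul_le_mul_of_nonneg_left ?_ (by positivity)
        exact div_le_div_of_nonneg_left hNpos.le hεA h6
      calc 2 * Real.exp (2 * (C0 * Real.sqrt ((layer d n).card)) ^ 2 / ε' ^ 2)
          ≤ Real.exp ((n:ℝ) + 1) * Real.exp ((2 * C0 ^ 2 * (2:ℝ) ^ (2 / κ)) *
              (((layer d n).card : ℝ) / ε ^ A)) :=
            mul_le_mul h2 (Real.exp_le_exp.2 h3) (Real.exp_pos _).le (Real.exp_pos _).le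
        _ = Real.exp (((n:ℝ) + 1) + (2 * C0 ^ 2 * (2:ℝ) ^ (2 / κ)) *
              (((layer d n).card : ℝ) / ε ^ A)) := (Real.exp_add _ _).symm
        _ ≤ _ := by
            refine Real.exp_le_exp.2 ?_
            rw [pow_zero, mul_one]
            have h10 : 0 ≤ ((layer d n).card : ℝ) / ε ^ A := div_nonneg hNpos.le hεA.le
            have h11 : 0 ≤ 2 * C0 ^ 2 * (2:ℝ) ^ (2 / κ) := by positivity
            nlinarith [mul_nonneg h11 (by linarith : (0:ℝ) ≤ (n:ℝ) + 1)]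
    · intro a ha
      have ha' : ∑ i, a i ^ 2 ≤ 1 := ha
      obtain ⟨y, hy, hay⟩ := hS0 a ha'
      refine ⟨p y, Finset.mem_image_of_mem p hy, ?_⟩
      have hex : ∃ x : (layer d n) × Fin 2 → ℝ, ∑ i, x i ^ 2 ≤ 1 ∧ nq s (x - y) ≤ ε' :=
        ⟨a, ha', hay⟩
      have hp : p y = hex.choose := dif_pos hex
      obtain ⟨hp1, hp2⟩ := hex.choose_spec
      rw [← hp] at hp1 hp2
      have h1 : nq s (a - p y) ≤ 2 * ε' := by
        have h2 : a - p y = (a - y) + (-(p y - y)) := by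
          funext i
          simp only [Pi.sub_apply, Pi.add_apply, Pi.neg_apply]
          ring
        rw [h2]
        refine ((nq_facts d n s hs1).1 _ _).trans ?_
        rw [na_neg s hs1]
        linarith
      have h3 : eu (a - p y) ≤ 2 := na_eu a (p y) ha' hp1
      have h4 := interp_qq d n q s (1 - κ) hq hsq (by linarith) (by linarith) hθ (a - p y)
      have h5 : 1 - (1 - κ) = κ := by ring
      rw [h5] at h4
      have hnn : 0 ≤ nq s (a - p y) := ENNReal.toReal_nonneg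
      have hen : 0 ≤ eu (a - p y) := Real.sqrt_nonneg _
      have h6 : (eu (a - p y)) ^ (1 - κ) ≤ (2:ℝ) ^ (1 - κ) :=
        Real.rpow_le_rpow hen h3 (by linarith)
      have h7 : (nq s (a - p y)) ^ κ ≤ (2 * ε') ^ κ := Real.rpow_le_rpow hnn h1 hκ0.le
      have h8 : (2:ℝ) ^ (1 - κ) * (2 * ε') ^ κ = ε := by
        rw [Real.mul_rpow (by norm_num) hε'0.le, ← mul_assoc, ← Real.rpow_add (by norm_num),
          hε', ← Real.rpow_mul hε2.le]
        have e1 : 1 - κ + κ = 1 := by ring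
        have e2 : 1 / κ * κ = 1 := by field_simp
        rw [e1, e2, Real.rpow_one, Real.rpow_one]
        ring
      show nq q (a - p y) ≤ ε
      calc nq q (a - p y) ≤ (eu (a - p y)) ^ (1 - κ) * (nq s (a - p y)) ^ κ := h4
        _ ≤ (2:ℝ) ^ (1 - κ) * (2 * ε') ^ κ :=
            mul_le_mul h6 h7 (Real.rpow_nonneg hnn _) (Real.rpow_nonneg (by norm_num) _)
        _ = ε := h8

end Sol_EX_netA_q

alias netA_q := Sol_EX_netA_q.netA_q

end HypVol
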