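import Pool.Agent.EntX.Defs
import Pool.Agent.EntX.L_dual_sudakov
import Pool.Agent.EntX.L_gauss_q
import Pool.Agent.EntX.L_nq_facts
open MeasureTheory Real ProbabilityTheory
open scoped ENNReal BigOperators

namespace HypVol
namespace Sol_EX_netE_q

theorem netE_q (d : ℕ) (q : ℝ) (hq : 1 ≤ q) : NetE d (V2 d) (fun _ => nq q) 0 := by
  obtain ⟨C0, hC0, hg⟩ := gauss_q d q hq
  refine ⟨2 * C0 ^ 2 + 1, by positivity, ?_⟩
  intro n ε hε
  obtain ⟨h1, h2, h3, _, _, _⟩ := nq_facts d n q hq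
  have hε0 : 0 < ε := by linarith
  have hn0 : (0:ℝ) ≤ (n:ℝ) := Nat.cast_nonneg n
  rcases Nat.eq_zero_or_pos (layer d n).card with hc | hc
  · have hemp : layer d n = ∅ := Finset.card_eq_zero.mp hc
    haveI : IsEmpty ((layer d n) × Fin 2) := by
      refine ⟨fun p => ?_⟩
      exact Finset.eq_empty_iff_forall_notMem.mp hemp _ p.1.2
    refine ⟨{0}, ?_, ?_⟩
    · rw [Finset.card_singleton]
      push_cast
      refine Real.one_le_exp ?_
      positivity
    · intro b _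
      refine ⟨0, Finset.mem_singleton_self _, ?_⟩
      have hb : b - 0 = (0:ℝ) • b := Subsingleton.elim _ _
      show nq q (b - 0) ≤ ε
      rw [hb, h2]
      simp
      linarith
  · have hc' : (0:ℝ) < ((layer d n).card : ℝ) := by exact_mod_cast hc
    have ht : 0 < C0 * Real.sqrt ((layer d n).card) := mul_pos hC0 (Real.sqrt_pos.mpr hc')
    obtain ⟨S, hS, hS2⟩ := dual_sudakov (nq q : ((layer d n) × Fin 2 → ℝ) → ℝ) h1 h2 h3 _ ht (hg n) ε hε0
    refine ⟨S, ?_, fun b hb => hS2 b hb⟩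
    have e1 : 2 * (C0 * Real.sqrt ((layer d n).card)) ^ 2 / ε ^ 2 = 2 * C0 ^ 2 * ((layer d n).card / ε ^ 2) := by
      rw [mul_pow, Real.sq_sqrt hc'.le]
      ring
    rw [e1] at hS
    have h2e : (2:ℝ) ≤ Real.exp ((n:ℝ) + 1) := by
      have h5 : (1:ℝ) + 1 ≤ Real.exp 1 := Real.add_one_le_exp 1
      have h6 : Real.exp 1 ≤ Real.exp ((n:ℝ) + 1) := Real.exp_le_exp.mpr (by linarith)
      linarith
    calc (S.card : ℝ) ≤ 2 * Real.exp (2 * C0 ^ 2 * ((layer d n).card / ε ^ 2)) := hS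
      _ ≤ Real.exp ((n:ℝ) + 1) * Real.exp (2 * C0 ^ 2 * ((layer d n).card / ε ^ 2)) :=
          mul_le_mul_of_nonneg_right h2e (Real.exp_pos _).le
      _ = Real.exp (((n:ℝ) + 1) + 2 * C0 ^ 2 * ((layer d n).card / ε ^ 2)) := (Real.exp_add _ _).symm
      _ ≤ _ := by
          refine Real.exp_le_exp.mpr ?_
          rw [pow_zero, mul_one]
          have h7 : 0 ≤ ((layer d n).card : ℝ) / ε ^ 2 := by positivity
          have h8 : 0 ≤ C0 ^ 2 * ((n:ℝ) + 1) := by positivity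
          nlinarith

end Sol_EX_netE_q

alias netE_q := Sol_EX_netE_q.netE_q

end HypVol
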