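import Pool.Agent.EntX.Defs
import Pool.Agent.HypVol.L_card_layer
import Pool.Agent.HypVol.L_shp_lower
import Pool.Agent.HypVol.L_shp_upper
open MeasureTheory Real ProbabilityTheory
open scoped ENNReal BigOperators

namespace HypVol
namespace Sol_EX_schemeQ1

theorem q1_dist (h : ℕ → ℝ) (hh : Summable h) (h0 : ∀ j, 0 ≤ h j) (n0 : ℕ) :
    Summable (fun n : ℕ => h ((n - n0) + (n0 - n))) ∧
    ∑' n : ℕ, h ((n - n0) + (n0 - n)) ≤ 2 * ∑' j, h j := by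
  have hs : Summable (fun n : ℕ => h ((n - n0) + (n0 - n))) := by
    rw [← summable_nat_add_iff n0]
    refine hh.congr (fun n => ?_)
    congr 1
    omega
  refine ⟨hs, ?_⟩
  rw [← hs.sum_add_tsum_nat_add n0, two_mul]
  refine add_le_add ?_ (le_of_eq ?_)
  · have h1 : ∑ i ∈ Finset.range n0, h ((i - n0) + (n0 - i)) =
        ∑ j ∈ (Finset.range n0).image (fun i => n0 - i), h j := by
      rw [Finset.sum_image]
      · refine Finset.sum_congr rfl (fun i hi => ?_)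
        have := Finset.mem_range.1 hi
        congr 1
        omega
      · intro a ha b hb hab
        have h2 := Finset.mem_range.1 (Finset.mem_coe.1 ha)
        have h3 := Finset.mem_range.1 (Finset.mem_coe.1 hb)
        have h4 : n0 - a = n0 - b := hab
        omega
    rw [h1]
    exact hh.sum_le_tsum _ (fun j _ => h0 j)
  · refine tsum_congr (fun n => ?_)
    congr 1
    omega

theorem q1_low (d : ℕ) (hd : 1 ≤ d) (C C2 r p κ : ℝ) (hC : 0 < C) (hC2 : 0 < C2) (hr : 1 < r)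
    (hp : 0 < p) (hp2 : p⁻¹ ≤ Real.exp (r + 1)) (hκ : 1 / 2 ≤ κ)
    (K : ℕ) (n j : ℕ) (hK : (K:ℝ) ≤ C2 * 2 ^ n * ((n:ℝ) + 1) ^ (d - 1)) :
    Real.exp (C * (K + ((n:ℝ) + 1))) * (1 + 2 / p ^ j) ^ (2 * K) ≤
      Real.exp (C * ((n:ℝ) + 1) + (C2 * (C + 2 * (r + 3))) * Bn d (n + j) *
        (((j:ℝ) + 1) ^ d * κ ^ j)) := by
  have hn : (0:ℝ) < (n:ℝ) + 1 := by positivity
  have hj : (0:ℝ) ≤ (j:ℝ) := Nat.cast_nonneg j
  have h2 : 1 + 2 / p ^ j ≤ Real.exp ((r + 1) * j + 2) := by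
    have h3 : 2 / p ^ j = 2 * (p⁻¹) ^ j := by
      rw [inv_pow]
      rfl
    have h4 : (p⁻¹) ^ j ≤ Real.exp ((r + 1) * j) := by
      rw [mul_comm, Real.exp_nat_mul]
      exact pow_le_pow_left₀ (by positivity) hp2 j
    have h5 : 1 ≤ Real.exp ((r + 1) * j) := Real.one_le_exp (by positivity)
    have h6 : (3:ℝ) ≤ Real.exp 2 := by
      have := Real.add_one_le_exp (2:ℝ)
      linarith
    rw [h3, Real.exp_add]
    calc 1 + 2 * (p⁻¹) ^ j ≤ Real.exp ((r + 1) * j) + 2 * Real.exp ((r + 1) * j) := by linarith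
      _ = Real.exp ((r + 1) * j) * 3 := by ring
      _ ≤ Real.exp ((r + 1) * j) * Real.exp 2 := by gcongr
  have h7 : (1 + 2 / p ^ j) ^ (2 * K) ≤ Real.exp ((2 * K : ℕ) * ((r + 1) * j + 2)) := by
    rw [Real.exp_nat_mul]
    exact pow_le_pow_left₀ (by positivity) h2 _
  have h8 : (K:ℝ) * ((j:ℝ) + 1) ≤ C2 * Bn d (n + j) * (((j:ℝ) + 1) ^ d * κ ^ j) := by
    have h9 : (2:ℝ) ^ n = 2 ^ (n + j) * (1 / 2) ^ j := by
      rw [pow_add, mul_assoc, ← mul_pow]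
      norm_num
    have h10 : (1 / 2 : ℝ) ^ j ≤ κ ^ j := pow_le_pow_left₀ (by norm_num) hκ j
    have h11 : (j:ℝ) + 1 ≤ ((j:ℝ) + 1) ^ d := le_self_pow₀ (by linarith) (by omega)
    have h12 : ((n:ℝ) + 1) ^ (d - 1) ≤ (((n + j : ℕ) : ℝ) + 1) ^ (d - 1) := by
      apply pow_le_pow_left₀ hn.le
      push_cast
      linarith
    unfold Bn
    calc (K:ℝ) * ((j:ℝ) + 1) ≤ (C2 * 2 ^ n * ((n:ℝ) + 1) ^ (d - 1)) * ((j:ℝ) + 1) ^ d := by
          gcongr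
      _ = (C2 * (2 ^ (n + j) * (1 / 2) ^ j) * ((n:ℝ) + 1) ^ (d - 1)) * ((j:ℝ) + 1) ^ d := by
          rw [← h9]
      _ ≤ (C2 * (2 ^ (n + j) * κ ^ j) * (((n + j : ℕ) : ℝ) + 1) ^ (d - 1)) *
          ((j:ℝ) + 1) ^ d := by gcongr
      _ = C2 * (2 ^ (n + j) * (((n + j : ℕ) : ℝ) + 1) ^ (d - 1)) *
          (((j:ℝ) + 1) ^ d * κ ^ j) := by ring
  calc _ ≤ Real.exp (C * (K + ((n:ℝ) + 1))) * Real.exp ((2 * K : ℕ) * ((r + 1) * j + 2)) := by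
        gcongr
    _ = Real.exp (C * (K + ((n:ℝ) + 1)) + (2 * K : ℕ) * ((r + 1) * j + 2)) := by
        rw [← Real.exp_add]
    _ ≤ _ := by
        apply Real.exp_le_exp.2
        have hK0 : (0:ℝ) ≤ K := Nat.cast_nonneg K
        push_cast
        have h13 : (K:ℝ) * (C + 2 * ((r + 1) * j + 2)) ≤
            (C + 2 * (r + 3)) * ((K:ℝ) * ((j:ℝ) + 1)) := by
          have h14 : C + 2 * ((r + 1) * j + 2) ≤ (C + 2 * (r + 3)) * ((j:ℝ) + 1) := by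
            nlinarith [mul_nonneg hC.le hj]
          calc (K:ℝ) * (C + 2 * ((r + 1) * j + 2)) ≤ K * ((C + 2 * (r + 3)) * ((j:ℝ) + 1)) :=
                mul_le_mul_of_nonneg_left h14 hK0
            _ = _ := by ring
        have h15 : (C + 2 * (r + 3)) * ((K:ℝ) * ((j:ℝ) + 1)) ≤
            (C + 2 * (r + 3)) * (C2 * Bn d (n + j) * (((j:ℝ) + 1) ^ d * κ ^ j)) :=
          mul_le_mul_of_nonneg_left h8 (by linarith)
        have h16 : (C + 2 * (r + 3)) * (C2 * Bn d (n + j) * (((j:ℝ) + 1) ^ d * κ ^ j)) =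
            (C2 * (C + 2 * (r + 3))) * Bn d (n + j) * (((j:ℝ) + 1) ^ d * κ ^ j) := by ring
        rw [← h16]
        nlinarith [h13, h15]

theorem q1_high (d : ℕ) (hd : 1 ≤ d) (C C2 q κ : ℝ) (hC : 0 < C) (hC2 : 0 < C2)
    (hq0 : 0 < q) (hκ : q ^ 2 ≤ κ)
    (K : ℕ) (n0 j : ℕ)
    (hK : (K:ℝ) ≤ C2 * 2 ^ (n0 + j) * (((n0 + j : ℕ):ℝ) + 1) ^ (d - 1)) :
    C * (K / ((2 * (q⁻¹) ^ 2) ^ j / ((j:ℝ) + 1)) + (((n0 + j : ℕ):ℝ) + 1)) ≤
      C * (((n0 + j : ℕ):ℝ) + 1) + (C2 * C) * Bn d n0 * (((j:ℝ) + 1) ^ d * κ ^ j) := by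
  have hn0 : (0:ℝ) < (n0:ℝ) + 1 := by positivity
  have hj : (0:ℝ) ≤ (j:ℝ) := Nat.cast_nonneg j
  have h5 : (K:ℝ) / ((2 * (q⁻¹) ^ 2) ^ j / ((j:ℝ) + 1)) ≤
      C2 * Bn d n0 * (((j:ℝ) + 1) ^ d * κ ^ j) := by
    have h1 : (K:ℝ) / ((2 * (q⁻¹) ^ 2) ^ j / ((j:ℝ) + 1)) =
        K * ((1 / 2) ^ j * (q ^ 2) ^ j * ((j:ℝ) + 1)) := by
      have h2 : ((2 * (q⁻¹) ^ 2) ^ j)⁻¹ = (1 / 2 : ℝ) ^ j * (q ^ 2) ^ j := by
        rw [← mul_pow, ← inv_pow]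
        congr 1
        field_simp
      rw [div_div_eq_mul_div, div_eq_mul_inv, h2]
      ring
    rw [h1]
    have h8 : (((n0 + j : ℕ):ℝ) + 1) ≤ ((n0:ℝ) + 1) * ((j:ℝ) + 1) := by
      push_cast
      have : (0:ℝ) ≤ (n0:ℝ) * j := by positivity
      nlinarith
    have h10 : (q ^ 2) ^ j ≤ κ ^ j := pow_le_pow_left₀ (by positivity) hκ j
    have h12 : (2:ℝ) ^ (n0 + j) * (1 / 2) ^ j = 2 ^ n0 := by
      rw [pow_add, mul_assoc, ← mul_pow]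
      norm_num
    have h13 : ((j:ℝ) + 1) ^ (d - 1) * ((j:ℝ) + 1) = ((j:ℝ) + 1) ^ d := by
      rw [← pow_succ]
      congr 1
      omega
    have hκ0 : 0 ≤ κ := le_trans (by positivity) hκ
    unfold Bn
    calc (K:ℝ) * ((1 / 2) ^ j * (q ^ 2) ^ j * ((j:ℝ) + 1)) ≤
          (C2 * 2 ^ (n0 + j) * (((n0:ℝ) + 1) * ((j:ℝ) + 1)) ^ (d - 1)) *
            ((1 / 2) ^ j * κ ^ j * ((j:ℝ) + 1)) := by
          refine mul_le_mul (hK.trans ?_) ?_ (by positivity) (by positivity)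
          · gcongr
          · gcongr
      _ = C2 * (2 ^ (n0 + j) * (1 / 2) ^ j) * ((n0:ℝ) + 1) ^ (d - 1) *
            ((((j:ℝ) + 1) ^ (d - 1) * ((j:ℝ) + 1)) * κ ^ j) := by
          rw [mul_pow]
          ring
      _ = _ := by
          rw [h12, h13]
          ring
  rw [mul_add, add_comm]
  have h10 := mul_le_mul_of_nonneg_left h5 hC.le
  have h11 : C * (C2 * Bn d n0 * (((j:ℝ) + 1) ^ d * κ ^ j)) =
      (C2 * C) * Bn d n0 * (((j:ℝ) + 1) ^ d * κ ^ j) := by ring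
  rw [← h11]
  linarith

theorem q1_w (s : ℕ) (hs : s ≤ 2) (n0 j : ℕ) :
    (((n0 + j : ℕ):ℝ) + 1) ^ ((s:ℝ)/2) ≤ ((n0:ℝ) + 1) ^ ((s:ℝ)/2) * ((j:ℝ) + 1) := by
  have hj : (0:ℝ) ≤ (j:ℝ) := Nat.cast_nonneg j
  have hn0 : (0:ℝ) ≤ (n0:ℝ) := Nat.cast_nonneg n0
  have hs' : (s:ℝ) / 2 ≤ 1 := by
    have : (s:ℝ) ≤ 2 := by exact_mod_cast hs
    linarith
  have h8 : (((n0 + j : ℕ):ℝ) + 1) ≤ ((n0:ℝ) + 1) * ((j:ℝ) + 1) := by
    push_cast
    have : (0:ℝ) ≤ (n0:ℝ) * j := by positivity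
    nlinarith
  calc (((n0 + j : ℕ):ℝ) + 1) ^ ((s:ℝ)/2) ≤ (((n0:ℝ) + 1) * ((j:ℝ) + 1)) ^ ((s:ℝ)/2) :=
        Real.rpow_le_rpow (by positivity) h8 (by positivity)
    _ = ((n0:ℝ) + 1) ^ ((s:ℝ)/2) * ((j:ℝ) + 1) ^ ((s:ℝ)/2) :=
        Real.mul_rpow (by positivity) (by positivity)
    _ ≤ ((n0:ℝ) + 1) ^ ((s:ℝ)/2) * ((j:ℝ) + 1) ^ (1:ℝ) := by
        refine mul_le_mul_of_nonneg_left ?_ (by positivity)
        exact Real.rpow_le_rpow_of_exponent_le (by linarith) hs'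
    _ = _ := by rw [Real.rpow_one]

theorem q1_K (d : ℕ) (hd : 1 ≤ d) : ∃ C2 : ℝ, 0 < C2 ∧ ∀ n : ℕ,
    ((layer d n).card : ℝ) ≤ C2 * 2 ^ n * ((n:ℝ) + 1) ^ (d - 1) := by
  obtain ⟨C', hC', h⟩ := shp_upper d hd
  have h00 : (0:ℝ) ≤ (shp d 0 : ℝ) := Nat.cast_nonneg _
  refine ⟨C' + shp d 0, by positivity, fun n => ?_⟩
  rw [card_layer]
  push_cast
  have h1 : (shp d n : ℝ) ≤ (C' + shp d 0) * ((n:ℝ) + 1) ^ (d - 1) := by
    rcases Nat.eq_zero_or_pos n with rfl | hn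
    · simp only [Nat.cast_zero, zero_add, one_pow, mul_one]
      linarith
    · calc (shp d n : ℝ) ≤ C' * (n:ℝ) ^ (d - 1) := h n hn
        _ ≤ (C' + shp d 0) * ((n:ℝ) + 1) ^ (d - 1) := by
          gcongr
          · linarith
          · linarith
  calc (2:ℝ) ^ n * shp d n ≤ 2 ^ n * ((C' + shp d 0) * ((n:ℝ) + 1) ^ (d - 1)) := by gcongr
    _ = _ := by ring

theorem q1_summ (k : ℕ) (x : ℝ) (hx0 : 0 < x) (hx1 : x < 1) :
    Summable (fun n : ℕ => ((n:ℝ) + 1) ^ k * x ^ n) := by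
  have h1 : Summable (fun n : ℕ => (n:ℝ) ^ k * x ^ n) :=
    summable_pow_mul_geometric_of_norm_lt_one k (by rw [Real.norm_of_nonneg hx0.le]; exact hx1)
  have h2 := ((summable_nat_add_iff 1).2 h1).mul_left (x⁻¹)
  refine h2.congr (fun n => ?_)
  push_cast
  rw [pow_succ]
  field_simp

theorem q1_N3 (k : ℕ) (C2 q : ℝ) (hC2 : 0 < C2) (hq0 : 0 < q) (hq1 : q < 1) :
    ∃ N3 : ℕ, ∀ n : ℕ, N3 ≤ n → C2 * ((n:ℝ) + 1) ^ k ≤ (q⁻¹) ^ n := by
  have h1 := (q1_summ k q hq0 hq1).tendsto_atTop_zero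
  have h2 : ∀ᶠ n : ℕ in Filter.atTop, ((n:ℝ) + 1) ^ k * q ^ n < 1 / C2 :=
    h1.eventually (gt_mem_nhds (by positivity))
  obtain ⟨N3, hN3⟩ := Filter.eventually_atTop.1 h2
  refine ⟨N3, fun n hn => ?_⟩
  have h3 := (hN3 n hn).le
  rw [le_div_iff₀ hC2] at h3
  rw [inv_pow, ← one_div, le_div_iff₀ (by positivity)]
  calc _ = ((n:ℝ) + 1) ^ k * q ^ n * C2 := by ring
    _ ≤ 1 := h3

theorem schemeQ1 (d : ℕ) (hd : 3 ≤ d) (r : ℝ) (hr : 1 < r) (s : ℕ) (hs : s ≤ 2)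
    (V : ∀ n, Set ((layer d n) × Fin 2 → ℝ)) (ν : ∀ n, ((layer d n) × Fin 2 → ℝ) → ℝ) (hnet : NetQ d V ν s)
    (htriv : ∀ n, ∀ a ∈ V n, ν n a ≤ (layer d n).card) :
    ∃ C1 : ℝ, 0 < C1 ∧ ∀ n0 : ℕ, ∃ (L : ℕ) (S : ∀ n, Finset ((layer d n) × Fin 2 → ℝ)) (e : ℕ → ℝ),
      (∏ n ∈ Finset.range L, ((S n).card : ℝ)) ≤ Real.exp (C1 * Bn d n0) ∧
      (∀ n < L, ∀ a ∈ V n, ∃ s' ∈ S n, ν n (a - s') ≤ e n) ∧ (∀ n, L ≤ n → ∀ a ∈ V n, ν n a ≤ e n) ∧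
      (∀ n, 0 ≤ e n) ∧ Summable (fun n : ℕ => (2:ℝ)^(-(r * n)) * e n) ∧
      ∑' n : ℕ, (2:ℝ)^(-(r * n)) * e n ≤ C1 * (2:ℝ)^(-(r * n0)) * ((n0:ℝ) + 1)^((s:ℝ)/2) := by
  obtain ⟨C, hC, hA, hB⟩ := hnet
  obtain ⟨C2, hC2, hK⟩ := q1_K d (by omega)
  
  obtain ⟨σ, hσ⟩ : ∃ σ : ℝ, σ = (2:ℝ) ^ (-r) := ⟨_, rfl⟩
  have hσ0 : 0 < σ := by rw [hσ]; positivity
  have hσ1 : σ < 1 / 2 := by
    rw [hσ]
    have h1 : (2:ℝ) ^ (-r) < (2:ℝ) ^ (-1 : ℝ) :=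
      Real.rpow_lt_rpow_of_exponent_lt (by norm_num) (by linarith)
    rw [Real.rpow_neg_one] at h1
    norm_num at h1 ⊢
    exact h1
  have hσn : ∀ n : ℕ, (2:ℝ) ^ (-(r * n)) = σ ^ n := by
    intro n
    rw [hσ, ← Real.rpow_natCast, ← Real.rpow_mul (by norm_num)]
    congr 1
    ring
  obtain ⟨q, hq0, hq⟩ : ∃ q : ℝ, 0 < q ∧ q ^ 4 = 2 * σ := by
    refine ⟨(2 * σ) ^ ((1 / 4 : ℝ)), by positivity, ?_⟩
    rw [← Real.rpow_natCast, ← Real.rpow_mul (by positivity)]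
    norm_num
  have hq1 : q < 1 := by
    by_contra h
    push Not at h
    have := one_le_pow₀ h (n := 4)
    rw [hq] at this
    linarith
  have hqi : 1 ≤ q⁻¹ := (one_le_inv₀ hq0).2 hq1.le
  have hqi' : 1 < q⁻¹ := (one_lt_inv₀ hq0).2 hq1
  obtain ⟨N3, hN3⟩ := q1_N3 (d - 1) C2 q hC2 hq0 hq1
  obtain ⟨M, hM⟩ : ∃ M : ℕ, 2 * (q⁻¹) ^ 2 ≤ (q⁻¹) ^ M := by
    obtain ⟨M, hM⟩ := pow_unbounded_of_one_lt (2 * (q⁻¹) ^ 2) hqi'
    exact ⟨M, hM.le⟩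
  obtain ⟨b, hb⟩ : ∃ b : ℝ, b = 2 * (q⁻¹) ^ 2 := ⟨_, rfl⟩
  have hb2 : 2 ≤ b := by
    rw [hb]
    have := one_le_pow₀ hqi (n := 2)
    linarith
  have hb0 : 0 < b := by linarith
  have hσb : σ * b = q ^ 2 := by
    have h1 : σ = q ^ 4 / 2 := by rw [hq]; ring
    rw [hb, h1]
    field_simp
  obtain ⟨p, hp⟩ : ∃ p : ℝ, p = σ / 2 := ⟨_, rfl⟩
  have hp0 : 0 < p := by rw [hp]; positivity
  have hp1 : p ≤ 1 := by rw [hp]; linarith
  have hp2 : p⁻¹ ≤ Real.exp (r + 1) := by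
    have h1 : p⁻¹ = (2:ℝ) ^ (r + 1) := by
      rw [hp, hσ, Real.rpow_add (by norm_num), Real.rpow_one, Real.rpow_neg (by norm_num)]
      field_simp
    rw [h1, Real.rpow_def_of_pos (by norm_num)]
    apply Real.exp_le_exp.2
    have h2 : Real.log 2 ≤ 1 := by
      have := Real.log_two_lt_d9
      linarith
    nlinarith
  obtain ⟨κ, hκ⟩ : ∃ κ : ℝ, κ = max (q ^ 2) (1 / 2) := ⟨_, rfl⟩
  have hκq : q ^ 2 ≤ κ := by rw [hκ]; exact le_max_left _ _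
  have hκh : 1 / 2 ≤ κ := by rw [hκ]; exact le_max_right _ _
  have hκ0 : 0 < κ := by linarith
  have hq2 : q ^ 2 < 1 := by nlinarith
  have hκ1 : κ < 1 := by
    rw [hκ]
    exact max_lt hq2 (by norm_num)
  set h : ℕ → ℝ := fun j => ((j:ℝ) + 1) ^ d * κ ^ j with hh
  have hh0 : ∀ j, 0 ≤ h j := fun j => by simp only [hh]; positivity
  have hhs : Summable h := q1_summ d κ hκ0 hκ1
  have hgs : Summable (fun j : ℕ => κ ^ j) := summable_geometric_of_lt_one hκ0.le hκ1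
  obtain ⟨D, hD⟩ : ∃ D : ℝ, D = C2 * (C + 2 * (r + 3)) := ⟨_, rfl⟩
  have hD0 : 0 < D := by rw [hD]; positivity
  have hDC : C2 * C ≤ D := by
    rw [hD]
    apply mul_le_mul_of_nonneg_left _ hC2.le
    linarith
  obtain ⟨C3, hC3⟩ : ∃ C3 : ℕ, C3 = max (max 2 M) N3 := ⟨_, rfl⟩
  have hC3a : 2 ≤ C3 := by rw [hC3]; exact le_trans (le_max_left _ _) (le_max_left _ _)
  have hC3c : M ≤ C3 := by rw [hC3]; exact le_trans (le_max_right _ _) (le_max_left _ _)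
  have hC3b : N3 ≤ C3 := by rw [hC3]; exact le_max_right _ _
  have hH0 : 0 ≤ ∑' j, h j := tsum_nonneg hh0
  have hG0 : 0 ≤ ∑' j : ℕ, κ ^ j := tsum_nonneg (fun j => by positivity)
  refine ⟨C * (C3:ℝ) ^ 2 + 2 * D * (∑' j, h j) + 2 * (∑' j : ℕ, κ ^ j) + 1, by positivity, fun n0 => ?_⟩
  have hw1 : ∀ n : ℕ, (1:ℝ) ≤ ((n:ℝ) + 1) ^ ((s:ℝ)/2) := by
    intro n
    apply Real.one_le_rpow
    · linarith [Nat.cast_nonneg (α := ℝ) n]
    · positivity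
  have hw0 : ∀ n : ℕ, (0:ℝ) < ((n:ℝ) + 1) ^ ((s:ℝ)/2) := fun n => lt_of_lt_of_le one_pos (hw1 n)
  have hBn0 : 0 < Bn d n0 := by
    unfold Bn
    positivity
  obtain ⟨e, he⟩ : ∃ e : ℕ → ℝ, e = fun n => if n < n0 then ((n:ℝ) + 1) ^ ((s:ℝ)/2) * p ^ (n0 - n)
    else ((n0:ℝ) + 1) ^ ((s:ℝ)/2) * b ^ (n - n0) := ⟨_, rfl⟩
  have hS : ∀ n, ∃ S : Finset ((layer d n) × Fin 2 → ℝ),
      (S.card : ℝ) ≤ Real.exp (C * ((n:ℝ) + 1) + D * Bn d n0 * h ((n - n0) + (n0 - n))) ∧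
      ∀ a ∈ V n, ∃ s ∈ S, ν n (a - s) ≤ e n := by
    intro n
    by_cases hn : n < n0
    · obtain ⟨S, hS1, hS2⟩ := hB n (p ^ (n0 - n)) (by positivity) (pow_le_one₀ hp0.le hp1)
      refine ⟨S, hS1.trans ?_, ?_⟩
      · have h2 := q1_low d (by omega) C C2 r p κ hC hC2 hr hp0 hp2 hκh
          (layer d n).card n (n0 - n) (hK n)
        have h3 : n + (n0 - n) = n0 := by omega
        have h4 : (n - n0) + (n0 - n) = n0 - n := by omega
        rw [h3, ← hD] at h2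
        rw [h4]
        exact h2
      · intro a ha
        obtain ⟨t, ht, h2⟩ := hS2 a ha
        refine ⟨t, ht, h2.trans (le_of_eq ?_)⟩
        rw [he]
        simp only [if_pos hn]
        rw [mul_comm]
    · obtain ⟨j, rfl⟩ : ∃ j, n = n0 + j := ⟨n - n0, by omega⟩
      have hj1 : (0:ℝ) < (j:ℝ) + 1 := by positivity
      have h1 : (1:ℝ) ≤ b ^ j / ((j:ℝ) + 1) := by
        rw [le_div_iff₀ hj1, one_mul]
        have h2 : (j:ℝ) + 1 ≤ 2 ^ j := by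
          have : j + 1 ≤ 2 ^ j := Nat.lt_two_pow_self
          exact_mod_cast this
        exact h2.trans (pow_le_pow_left₀ (by norm_num) hb2 j)
      obtain ⟨S, hS1, hS2⟩ := hA (n0 + j) _ h1
      refine ⟨S, hS1.trans ?_, ?_⟩
      · apply Real.exp_le_exp.2
        have h2 := q1_high d (by omega) C C2 q κ hC hC2 hq0 hκq
          (layer d (n0 + j)).card n0 j (hK (n0 + j))
        rw [← hb] at h2
        refine h2.trans ?_
        have h4 : (n0 + j - n0) + (n0 - (n0 + j)) = j := by omega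
        rw [h4]
        have h5 : (C2 * C) * (Bn d n0 * h j) ≤ D * (Bn d n0 * h j) :=
          mul_le_mul_of_nonneg_right hDC (mul_nonneg hBn0.le (hh0 j))
        have h6 : (C2 * C) * Bn d n0 * (((j:ℝ) + 1) ^ d * κ ^ j) =
          (C2 * C) * (Bn d n0 * h j) := by
          simp only [hh]
          ring
        rw [h6, mul_assoc D]
        linarith
      · intro a ha
        obtain ⟨t, ht, h2⟩ := hS2 a ha
        refine ⟨t, ht, h2.trans ?_⟩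
        rw [he]
        simp only [if_neg hn]
        rw [Nat.add_sub_cancel_left]
        calc (((n0 + j : ℕ):ℝ) + 1) ^ ((s:ℝ)/2) * (b ^ j / ((j:ℝ) + 1)) ≤
              (((n0:ℝ) + 1) ^ ((s:ℝ)/2) * ((j:ℝ) + 1)) * (b ^ j / ((j:ℝ) + 1)) :=
              mul_le_mul_of_nonneg_right (q1_w s hs n0 j) (by positivity)
          _ = _ := by
              field_simp
  choose S hS1 hS2 using hS
  have he0 : ∀ n, 0 ≤ e n := by
    intro n
    rw [he]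
    simp only
    split_ifs <;> positivity
  have hes : ∀ n : ℕ, (2:ℝ) ^ (-(r * n)) * e n ≤
      (σ ^ n0 * ((n0:ℝ) + 1) ^ ((s:ℝ)/2)) * κ ^ ((n - n0) + (n0 - n)) := by
    intro n
    rw [hσn, he]
    simp only
    split_ifs with hn
    · obtain ⟨j, rfl⟩ : ∃ j, n0 = n + j := ⟨n0 - n, by omega⟩
      have h4 : (n - (n + j)) + (n + j - n) = j := by omega
      rw [h4, Nat.add_sub_cancel_left]
      have h5 : ((n:ℝ) + 1) ^ ((s:ℝ)/2) ≤ (((n + j : ℕ):ℝ) + 1) ^ ((s:ℝ)/2) := by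
        apply Real.rpow_le_rpow (by positivity) _ (by positivity)
        push_cast
        linarith [Nat.cast_nonneg (α := ℝ) j]
      have h6 : (1 / 2 : ℝ) ^ j ≤ κ ^ j := pow_le_pow_left₀ (by norm_num) hκh j
      have h7 : σ ^ n * (((n:ℝ) + 1) ^ ((s:ℝ)/2) * p ^ j) =
          (σ ^ (n + j) * ((n:ℝ) + 1) ^ ((s:ℝ)/2)) * (1 / 2 : ℝ) ^ j := by
        rw [hp, div_pow, pow_add, one_div, inv_pow]
        field_simp
      rw [h7]
      gcongr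
    · obtain ⟨j, rfl⟩ : ∃ j, n = n0 + j := ⟨n - n0, by omega⟩
      have h4 : (n0 + j - n0) + (n0 - (n0 + j)) = j := by omega
      rw [h4, Nat.add_sub_cancel_left]
      have h7 : σ ^ (n0 + j) * (((n0:ℝ) + 1) ^ ((s:ℝ)/2) * b ^ j) =
          (σ ^ n0 * ((n0:ℝ) + 1) ^ ((s:ℝ)/2)) * (σ * b) ^ j := by
        rw [pow_add, mul_pow]
        ring
      rw [h7, hσb]
      gcongr
  obtain ⟨hd1, hd2⟩ := q1_dist (fun j => κ ^ j) hgs (fun j => by positivity) n0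
  obtain ⟨hd3, hd4⟩ := q1_dist h hhs hh0 n0
  have hsumm : Summable (fun n : ℕ => (2:ℝ) ^ (-(r * n)) * e n) :=
    Summable.of_nonneg_of_le (fun n => mul_nonneg (by positivity) (he0 n)) hes
      (hd1.mul_left _)
  refine ⟨C3 * (n0 + 1), S, e, ?_, fun n _ => hS2 n, ?_, he0, hsumm, ?_⟩
  · calc (∏ n ∈ Finset.range (C3 * (n0 + 1)), ((S n).card : ℝ)) ≤
          ∏ n ∈ Finset.range (C3 * (n0 + 1)),
            Real.exp (C * ((n:ℝ) + 1) + D * Bn d n0 * h ((n - n0) + (n0 - n))) :=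
          Finset.prod_le_prod (fun n _ => Nat.cast_nonneg _) (fun n _ => hS1 n)
      _ = Real.exp (∑ n ∈ Finset.range (C3 * (n0 + 1)),
            (C * ((n:ℝ) + 1) + D * Bn d n0 * h ((n - n0) + (n0 - n)))) := by
          rw [Real.exp_sum]
      _ ≤ _ := by
          apply Real.exp_le_exp.2
          rw [Finset.sum_add_distrib, ← Finset.mul_sum, ← Finset.mul_sum]
          have h1 : ∑ n ∈ Finset.range (C3 * (n0 + 1)), ((n:ℝ) + 1) ≤
              ((C3:ℝ) * ((n0:ℝ) + 1)) * ((C3:ℝ) * ((n0:ℝ) + 1)) := by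
            have h2 : ∀ n ∈ Finset.range (C3 * (n0 + 1)), ((n:ℝ) + 1) ≤
                (C3:ℝ) * ((n0:ℝ) + 1) := by
              intro n hn
              have h3 := Finset.mem_range.1 hn
              have h4 : ((n + 1 : ℕ) : ℝ) ≤ ((C3 * (n0 + 1) : ℕ) : ℝ) := by
                exact_mod_cast h3
              push_cast at h4
              exact h4
            have h5 := Finset.sum_le_card_nsmul _ _ _ h2
            rw [Finset.card_range, nsmul_eq_mul] at h5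
            push_cast at h5
            exact h5
          have h6 : ((C3:ℝ) * ((n0:ℝ) + 1)) * ((C3:ℝ) * ((n0:ℝ) + 1)) ≤
              (C3:ℝ) ^ 2 * Bn d n0 := by
            have h7 : ((n0:ℝ) + 1) ^ 2 ≤ Bn d n0 := by
              unfold Bn
              have h8 : ((n0:ℝ) + 1) ^ 2 ≤ ((n0:ℝ) + 1) ^ (d - 1) :=
                pow_le_pow_right₀ (by linarith [Nat.cast_nonneg (α := ℝ) n0]) (by omega)
              have h9 : (1:ℝ) ≤ 2 ^ n0 := one_le_pow₀ (by norm_num)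
              have h10 : (0:ℝ) ≤ ((n0:ℝ) + 1) ^ (d - 1) := by positivity
              nlinarith
            calc ((C3:ℝ) * ((n0:ℝ) + 1)) * ((C3:ℝ) * ((n0:ℝ) + 1)) =
                  (C3:ℝ) ^ 2 * ((n0:ℝ) + 1) ^ 2 := by ring
              _ ≤ _ := by gcongr
          have h11 : ∑ n ∈ Finset.range (C3 * (n0 + 1)), h ((n - n0) + (n0 - n)) ≤
              2 * ∑' j, h j :=
            (hd3.sum_le_tsum _ (fun n _ => hh0 _)).trans hd4
          have h12 := mul_le_mul_of_nonneg_left (h1.trans h6) hC.le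
          have h13 := mul_le_mul_of_nonneg_left h11 (mul_nonneg hD0.le hBn0.le)
          have h14 : 0 ≤ (2 * (∑' j : ℕ, κ ^ j) + 1) * Bn d n0 := by positivity
          nlinarith
  · intro n hn a ha
    refine (htriv n a ha).trans ?_
    have hnn : ¬ n < n0 := by
      have : n0 < C3 * (n0 + 1) := by nlinarith
      omega
    have h1 : M * n0 ≤ n :=
      le_trans (Nat.mul_le_mul hC3c (Nat.le_succ n0)) hn
    have h2 : N3 ≤ n := by
      refine hC3b.trans (le_trans ?_ hn)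
      exact Nat.le_mul_of_pos_right _ (by omega)
    rw [he]
    simp only [if_neg hnn]
    obtain ⟨j, rfl⟩ : ∃ j, n = n0 + j := ⟨n - n0, by omega⟩
    rw [Nat.add_sub_cancel_left]
    have h3 : ((layer d (n0 + j)).card : ℝ) ≤ b ^ j := by
      refine (hK (n0 + j)).trans ?_
      have h5 : b ^ n0 ≤ (q⁻¹) ^ (n0 + j) := by
        calc b ^ n0 ≤ ((q⁻¹) ^ M) ^ n0 := by
              rw [hb]
              exact pow_le_pow_left₀ (by positivity) hM n0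
          _ = (q⁻¹) ^ (M * n0) := by rw [pow_mul]
          _ ≤ _ := pow_le_pow_right₀ hqi h1
      have h6 : b ^ (n0 + j) = 2 ^ (n0 + j) * ((q⁻¹) ^ (n0 + j) * (q⁻¹) ^ (n0 + j)) := by
        rw [hb, mul_pow, ← mul_pow (q⁻¹), sq]
      have h7 : b ^ n0 * (C2 * 2 ^ (n0 + j) * (((n0 + j : ℕ):ℝ) + 1) ^ (d - 1)) ≤
          b ^ n0 * b ^ j := by
        rw [← pow_add, h6]
        calc b ^ n0 * (C2 * 2 ^ (n0 + j) * (((n0 + j : ℕ):ℝ) + 1) ^ (d - 1)) =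
              2 ^ (n0 + j) * (b ^ n0 * (C2 * (((n0 + j : ℕ):ℝ) + 1) ^ (d - 1))) := by ring
          _ ≤ _ := by
              refine mul_le_mul_of_nonneg_left ?_ (by positivity)
              exact mul_le_mul h5 (hN3 _ h2) (by positivity) (by positivity)
      exact le_of_mul_le_mul_left h7 (by positivity)
    calc ((layer d (n0 + j)).card : ℝ) ≤ b ^ j := h3
      _ = 1 * b ^ j := (one_mul _).symm
      _ ≤ _ := mul_le_mul_of_nonneg_right (hw1 n0) (by positivity)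
  · rw [hσn]
    calc _ ≤ ∑' n : ℕ, (σ ^ n0 * ((n0:ℝ) + 1) ^ ((s:ℝ)/2)) * κ ^ ((n - n0) + (n0 - n)) :=
          hsumm.tsum_le_tsum hes (hd1.mul_left _)
      _ = (σ ^ n0 * ((n0:ℝ) + 1) ^ ((s:ℝ)/2)) * ∑' n : ℕ, κ ^ ((n - n0) + (n0 - n)) :=
          tsum_mul_left
      _ ≤ (σ ^ n0 * ((n0:ℝ) + 1) ^ ((s:ℝ)/2)) * (2 * ∑' j : ℕ, κ ^ j) :=
          mul_le_mul_of_nonneg_left hd2 (by positivity)
      _ ≤ _ := by
          have h1 : 0 ≤ (C * (C3:ℝ) ^ 2 + 2 * D * (∑' j, h j) + 1) *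
            (σ ^ n0 * ((n0:ℝ) + 1) ^ ((s:ℝ)/2)) := by positivity
          nlinarith

end Sol_EX_schemeQ1

alias schemeQ1 := Sol_EX_schemeQ1.schemeQ1

end HypVol
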