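import Pool.Agent.EntX.Defs
open MeasureTheory Real ProbabilityTheory
open scoped ENNReal BigOperators

namespace HypVol
namespace Sol_EX_schemeQ2

theorem schemeQ2 (d : ℕ) (hd : 3 ≤ d) (r : ℝ) (hr : 1 < r) (s : ℕ) (C1 : ℝ) (hC1 : 0 < C1) :
    ∃ C : ℝ, 0 < C ∧ ∀ k : ℕ, 2 ≤ k → (∃ n0 : ℕ, Real.exp (C1 * Bn d n0) ≤ 2^k ∧
      (2:ℝ)^(-(r * n0)) * ((n0:ℝ) + 1)^((s:ℝ)/2) ≤ C * RkS d r s k) ∨ 1 ≤ C * RkS d r s k := by
  have hl2 : 0 < Real.log 2 := Real.log_pos (by norm_num)
  have hdr : (3:ℝ) ≤ (d:ℝ) := by exact_mod_cast hd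
  set e : ℝ := ((d:ℝ)-1) * r + (s:ℝ)/2 with he
  have he0 : 0 ≤ e := by
    rw [he]
    have : 0 ≤ ((d:ℝ)-1) * r := mul_nonneg (by linarith) (by linarith)
    positivity
  set A : ℝ := C1 * 2^d / Real.log 2 with hA
  have hAp : 0 < A := by positivity
  set B : ℝ := (2 + |Real.log (Real.log 2 / C1)| / Real.log 2) / Real.log 2 with hB
  have hBp : 0 < B := by positivity
  set K : ℝ := C1 / Real.log 2 with hK
  have hKp : 0 < K := by positivity
  have hCa : 0 < A^r * B^e := mul_pos (Real.rpow_pos_of_pos hAp _) (Real.rpow_pos_of_pos hBp _)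
  have hCb : 0 < K^r * (Real.log 2)^(-e) := mul_pos (Real.rpow_pos_of_pos hKp _) (Real.rpow_pos_of_pos hl2 _)
  refine ⟨A^r * B^e + K^r * (Real.log 2)^(-e), by positivity, ?_⟩
  intro k hk
  have hkr : (2:ℝ) ≤ (k:ℝ) := by exact_mod_cast hk
  have hk0 : (0:ℝ) < (k:ℝ) := by linarith
  have hlk : Real.log 2 ≤ Real.log k := Real.log_le_log (by norm_num) hkr
  have hlk0 : 0 < Real.log k := by linarith
  have hRpos : 0 < RkS d r s k := by
    unfold RkS
    exact mul_pos (Real.rpow_pos_of_pos hk0 _) (Real.rpow_pos_of_pos hlk0 _)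
  by_cases hcase : C1 ≤ k * Real.log 2
  · left
    set P : ℕ → Prop := fun n => C1 * Bn d n ≤ k * Real.log 2 with hP
    have hP0 : P 0 := by
      simp only [hP, Bn]
      simpa using hcase
    have hex : ∃ n, ¬ P n := by
      obtain ⟨n, hn⟩ := pow_unbounded_of_one_lt (k * Real.log 2 / C1) (show (1:ℝ) < 2 by norm_num)
      refine ⟨n, ?_⟩
      simp only [hP, not_le]
      rw [div_lt_iff₀ hC1] at hn
      have h1 : (1:ℝ) ≤ ((n:ℝ) + 1)^(d-1) := one_le_pow₀ (by
        have : (0:ℝ) ≤ n := Nat.cast_nonneg n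
        linarith)
      calc k * Real.log 2 < 2^n * C1 := hn
        _ = C1 * (2^n * 1) := by ring
        _ ≤ C1 * Bn d n := by
          unfold Bn
          gcongr
    classical
    set m := Nat.find hex with hm
    have hmne : m ≠ 0 := by
      intro h
      have h1 := Nat.find_spec hex
      rw [← hm, h] at h1
      exact h1 hP0
    obtain ⟨n0, hn0⟩ : ∃ n0, m = n0 + 1 := ⟨m - 1, by omega⟩
    have hPn : P n0 := by
      by_contra h
      have h1 := Nat.find_min' hex h
      rw [← hm] at h1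
      omega
    have hPn1 : ¬ P (n0 + 1) := by
      rw [← hn0]
      exact Nat.find_spec hex
    simp only [hP] at hPn hPn1
    rw [not_le] at hPn1
    set x : ℝ := (n0:ℝ) + 1 with hx
    have hn0r : (0:ℝ) ≤ (n0:ℝ) := Nat.cast_nonneg n0
    have hx1 : 1 ≤ x := by linarith
    have hx0 : 0 < x := by linarith
    set X : ℝ := (2:ℝ)^n0 with hX
    have hXp : 0 < X := by positivity
    refine ⟨n0, ?_, ?_⟩
    · have h1 : (2:ℝ)^k = Real.exp (k * Real.log 2) := by
        rw [Real.exp_nat_mul, Real.exp_log (by norm_num)]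
      rw [h1]
      exact Real.exp_le_exp.2 hPn
    · 
      have h1 : k * Real.log 2 < C1 * 2^d * (X * x^(d-1)) := by
        refine hPn1.trans_le ?_
        unfold Bn
        have h2 : (((n0 + 1 : ℕ) : ℝ) + 1)^(d-1) ≤ 2^(d-1) * x^(d-1) := by
          rw [← mul_pow]
          apply pow_le_pow_left₀ (by positivity)
          push_cast
          linarith
        have h3 : (2:ℝ)^d = 2 * 2^(d-1) := by
          rw [← pow_succ']
          congr 1
          omega
        calc C1 * (2^(n0+1) * (((n0 + 1 : ℕ) : ℝ) + 1)^(d-1)) ≤ C1 * (2^(n0+1) * (2^(d-1) * x^(d-1))) := by gcongr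
          _ = C1 * 2^d * (X * x^(d-1)) := by
            rw [h3, hX, pow_succ]
            ring
      have h4 : (k:ℝ) / (A * x^(d-1)) ≤ X := by
        rw [div_le_iff₀ (by positivity), hA]
        have h5 : X * (C1 * 2^d / Real.log 2 * x^(d-1)) = C1 * 2^d * (X * x^(d-1)) / Real.log 2 := by ring
        rw [h5, le_div_iff₀ hl2]
        exact h1.le
      have h6 : X^(-r) ≤ ((k:ℝ) / (A * x^(d-1)))^(-r) :=
        Real.rpow_le_rpow_of_nonpos (by positivity) h4 (by linarith)
      have h7 : ((k:ℝ) / (A * x^(d-1)))^(-r) = (k:ℝ)^(-r) * (A^r * x^(((d:ℝ)-1) * r)) := by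
        rw [Real.div_rpow hk0.le (by positivity), Real.rpow_neg (by positivity : (0:ℝ) ≤ A * x^(d-1)),
          div_inv_eq_mul, Real.mul_rpow hAp.le (by positivity), ← Real.rpow_natCast x (d-1),
          ← Real.rpow_mul hx0.le, Nat.cast_sub (by omega), Nat.cast_one]
      have h8 : (2:ℝ)^(-(r * n0)) = X^(-r) := by
        rw [hX, ← Real.rpow_natCast 2 n0, ← Real.rpow_mul (by norm_num)]
        congr 1
        ring
      
      have h9 : X ≤ k * (Real.log 2 / C1) := by
        have h10 : C1 * X ≤ k * Real.log 2 := by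
          refine le_trans ?_ hPn
          unfold Bn
          have : (1:ℝ) ≤ x^(d-1) := one_le_pow₀ hx1
          calc C1 * X = C1 * (X * 1) := by ring
            _ ≤ C1 * (X * x^(d-1)) := by gcongr
        have h11 : k * (Real.log 2 / C1) = k * Real.log 2 / C1 := by ring
        rw [h11, le_div_iff₀ hC1]
        linarith
      have h12 : (n0:ℝ) * Real.log 2 ≤ Real.log k + |Real.log (Real.log 2 / C1)| := by
        have h13 := Real.log_le_log hXp h9
        rw [Real.log_mul hk0.ne' (by positivity), hX, Real.log_pow] at h13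
        have := le_abs_self (Real.log (Real.log 2 / C1))
        linarith
      have h14 : x ≤ B * Real.log k := by
        set c := |Real.log (Real.log 2 / C1)| with hc
        have hc0 : 0 ≤ c := abs_nonneg _
        have h15 : (n0:ℝ) ≤ (Real.log k + c) / Real.log 2 := by
          rw [le_div_iff₀ hl2]
          exact h12
        have h16 : 1 ≤ Real.log k / Real.log 2 := by
          rw [le_div_iff₀ hl2]
          linarith
        have h17 : B * Real.log k = (2 + c / Real.log 2) * (Real.log k / Real.log 2) := by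
          rw [hB]
          ring
        rw [h17, hx]
        have h18 : (Real.log k + c) / Real.log 2 = Real.log k / Real.log 2 + c / Real.log 2 := by ring
        rw [h18] at h15
        have h19 : 0 ≤ c / Real.log 2 := by positivity
        nlinarith
      have h20 : x^e ≤ B^e * (Real.log k)^e := by
        rw [← Real.mul_rpow hBp.le hlk0.le]
        exact Real.rpow_le_rpow hx0.le h14 he0
      calc (2:ℝ)^(-(r * n0)) * x^((s:ℝ)/2) ≤ ((k:ℝ)^(-r) * (A^r * x^(((d:ℝ)-1) * r))) * x^((s:ℝ)/2) := by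
            rw [h8, ← h7]
            exact mul_le_mul_of_nonneg_right h6 (Real.rpow_nonneg hx0.le _)
        _ = (k:ℝ)^(-r) * A^r * x^e := by
            rw [he, Real.rpow_add hx0]
            ring
        _ ≤ (k:ℝ)^(-r) * A^r * (B^e * (Real.log k)^e) := by
            apply mul_le_mul_of_nonneg_left h20
            exact mul_nonneg (Real.rpow_nonneg hk0.le _) (Real.rpow_nonneg hAp.le _)
        _ = (A^r * B^e) * RkS d r s k := by
            unfold RkS
            rw [← he]
            ring
        _ ≤ (A^r * B^e + K^r * (Real.log 2)^(-e)) * RkS d r s k := by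
            apply mul_le_mul_of_nonneg_right _ hRpos.le
            linarith
  · right
    rw [not_le] at hcase
    have h1 : (k:ℝ) ≤ K := by
      rw [hK, le_div_iff₀ hl2]
      exact hcase.le
    have h2 : K^(-r) ≤ (k:ℝ)^(-r) := Real.rpow_le_rpow_of_nonpos hk0 h1 (by linarith)
    have h3 : (Real.log 2)^e ≤ (Real.log k)^e := Real.rpow_le_rpow hl2.le hlk he0
    have h4 : (K^r * (Real.log 2)^(-e)) * (K^(-r) * (Real.log 2)^e) = 1 := by
      have a1 : K^r * K^(-r) = 1 := by
        rw [← Real.rpow_add hKp, add_neg_cancel, Real.rpow_zero]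
      have a2 : (Real.log 2)^(-e) * (Real.log 2)^e = 1 := by
        rw [← Real.rpow_add hl2, neg_add_cancel, Real.rpow_zero]
      calc (K^r * (Real.log 2)^(-e)) * (K^(-r) * (Real.log 2)^e) =
          (K^r * K^(-r)) * ((Real.log 2)^(-e) * (Real.log 2)^e) := by ring
        _ = 1 := by rw [a1, a2, one_mul]
    have h5 : K^(-r) * (Real.log 2)^e ≤ RkS d r s k := by
      unfold RkS
      rw [← he]
      exact mul_le_mul h2 h3 (Real.rpow_nonneg hl2.le _) (Real.rpow_nonneg hk0.le _)
    calc (1:ℝ) = (K^r * (Real.log 2)^(-e)) * (K^(-r) * (Real.log 2)^e) := h4.symm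
      _ ≤ (K^r * (Real.log 2)^(-e)) * RkS d r s k := mul_le_mul_of_nonneg_left h5 hCb.le
      _ ≤ (A^r * B^e + K^r * (Real.log 2)^(-e)) * RkS d r s k := by
          apply mul_le_mul_of_nonneg_right _ hRpos.le
          linarith

end Sol_EX_schemeQ2

alias schemeQ2 := Sol_EX_schemeQ2.schemeQ2

end HypVol
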