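import Pool.Agent.EntX.Defs
import Pool.Agent.HypVol.L_card_layer
import Pool.Agent.HypVol.L_shp_upper
import Pool.Agent.EntX.L_schemeQ1
import Pool.Agent.EntX.L_schemeQ2
open MeasureTheory Real ProbabilityTheory
open scoped ENNReal BigOperators

namespace HypVol
namespace Sol_EX_schemeQ

theorem aux_summ_card (d : ℕ) (hd : 1 ≤ d) (r : ℝ) (hr : 1 < r) :
    Summable (fun n : ℕ => (2:ℝ)^(-(r * n)) * ((layer d n).card : ℝ)) := by
  obtain ⟨C, hC, hC'⟩ := shp_upper d hd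
  have hρ : (2:ℝ) ^ (1 - r) < 1 := Real.rpow_lt_one_of_one_lt_of_neg (by norm_num) (by linarith)
  have hρ0 : (0:ℝ) < (2:ℝ) ^ (1 - r) := by positivity
  have hg : Summable (fun n : ℕ => C * ((n:ℝ)^(d-1) * ((2:ℝ) ^ (1 - r))^n)) := by
    refine Summable.mul_left C ?_
    refine summable_pow_mul_geometric_of_norm_lt_one (d-1) ?_
    rw [Real.norm_eq_abs, abs_of_pos hρ0]
    exact hρ
  rw [← summable_nat_add_iff 1] at hg ⊢
  refine Summable.of_nonneg_of_le (fun n => by positivity) (fun n => ?_) hg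
  have h1 := hC' (n + 1) (by omega)
  rw [card_layer]
  have h2 : (2:ℝ)^(-(r * ((n+1:ℕ):ℝ))) * ((2:ℝ)^(n+1)) = ((2:ℝ) ^ (1 - r))^(n+1) := by
    rw [← Real.rpow_natCast ((2:ℝ) ^ (1 - r)) (n+1), ← Real.rpow_mul (by norm_num),
      ← Real.rpow_natCast (2:ℝ) (n+1), ← Real.rpow_add (by norm_num)]
    congr 1
    ring
  push_cast at h1 h2 ⊢
  have h3 : (2:ℝ)^(-(r * ((n:ℝ)+1))) * ((2:ℝ)^(n+1) * (shp d (n+1) : ℝ))
      = ((2:ℝ) ^ (1 - r))^(n+1) * (shp d (n+1) : ℝ) := by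
    rw [← mul_assoc, h2]
  rw [h3]
  calc ((2:ℝ) ^ (1 - r))^(n+1) * (shp d (n+1) : ℝ)
      ≤ ((2:ℝ) ^ (1 - r))^(n+1) * (C * ((n:ℝ)+1)^(d-1)) :=
        mul_le_mul_of_nonneg_left h1 (by positivity)
    _ = C * (((n:ℝ)+1)^(d-1) * ((2:ℝ) ^ (1 - r))^(n+1)) := by ring

theorem schemeQ (d : ℕ) (hd : 3 ≤ d) (r : ℝ) (hr : 1 < r) (s : ℕ) (hs : s ≤ 2)
    (V : ∀ n, Set ((layer d n) × Fin 2 → ℝ)) (ν : ∀ n, ((layer d n) × Fin 2 → ℝ) → ℝ) (hnet : NetQ d V ν s)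
    (htriv : ∀ n, ∀ a ∈ V n, ν n a ≤ (layer d n).card) :
    ∃ C : ℝ, 0 < C ∧ ∀ k : ℕ, 2 ≤ k → ∃ (L : ℕ) (S : ∀ n, Finset ((layer d n) × Fin 2 → ℝ)) (e : ℕ → ℝ),
      (∏ n ∈ Finset.range L, ((S n).card : ℝ)) ≤ 2^k ∧
      (∀ n < L, ∀ a ∈ V n, ∃ s' ∈ S n, ν n (a - s') ≤ e n) ∧ (∀ n, L ≤ n → ∀ a ∈ V n, ν n a ≤ e n) ∧
      (∀ n, 0 ≤ e n) ∧ Summable (fun n : ℕ => (2:ℝ)^(-(r * n)) * e n) ∧
      ∑' n : ℕ, (2:ℝ)^(-(r * n)) * e n ≤ C * RkS d r s k := by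
  obtain ⟨C1, hC1, h1⟩ := schemeQ1 d hd r hr s hs V ν hnet htriv
  obtain ⟨C, hC, h2⟩ := schemeQ2 d hd r hr s C1 hC1
  have hsum := aux_summ_card d (by omega) r hr
  have hT : 0 ≤ ∑' n : ℕ, (2:ℝ)^(-(r * n)) * ((layer d n).card : ℝ) :=
    tsum_nonneg fun n => by positivity
  set T := ∑' n : ℕ, (2:ℝ)^(-(r * n)) * ((layer d n).card : ℝ) with hTdef
  refine ⟨C1 * C + T * C, by positivity, fun k hk => ?_⟩
  rcases h2 k hk with ⟨n0, ha, hb⟩ | h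
  · obtain ⟨L, S, e, p1, p2, p3, p4, p5, p6⟩ := h1 n0
    have hR : 0 ≤ C * RkS d r s k := le_trans (by positivity) hb
    refine ⟨L, S, e, p1.trans ha, p2, p3, p4, p5, p6.trans ?_⟩
    have h3 := mul_le_mul_of_nonneg_left hb hC1.le
    have h4 := mul_nonneg hT hR
    calc C1 * (2:ℝ)^(-(r * n0)) * ((n0:ℝ) + 1)^((s:ℝ)/2)
        = C1 * ((2:ℝ)^(-(r * n0)) * ((n0:ℝ) + 1)^((s:ℝ)/2)) := by ring
      _ ≤ C1 * (C * RkS d r s k) := h3
      _ ≤ C1 * (C * RkS d r s k) + T * (C * RkS d r s k) := by linarith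
      _ = (C1 * C + T * C) * RkS d r s k := by ring
  · refine ⟨0, fun _ => ∅, fun n => (layer d n).card, ?_, fun n hn => absurd hn (by omega),
      fun n _ => htriv n, fun n => by positivity, hsum, ?_⟩
    · simp only [Finset.range_zero, Finset.prod_empty]
      exact one_le_pow₀ (by norm_num)
    · have h3 := mul_le_mul_of_nonneg_left h hT
      have h4 : 0 ≤ C1 * (C * RkS d r s k) := mul_nonneg hC1.le (le_trans zero_le_one h)
      calc ∑' n : ℕ, (2:ℝ)^(-(r * n)) * ((layer d n).card : ℝ) = T * 1 := by rw [mul_one]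
        _ ≤ T * (C * RkS d r s k) := h3
        _ ≤ C1 * (C * RkS d r s k) + T * (C * RkS d r s k) := by linarith
        _ = (C1 * C + T * C) * RkS d r s k := by ring

end Sol_EX_schemeQ

alias schemeQ := Sol_EX_schemeQ.schemeQ

end HypVol
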