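import Pool.Agent.EntX.Defs
import Pool.Agent.HypVol.L_card_layer
import Pool.Agent.HypVol.L_shp_upper
import Pool.Agent.EntX.L_schemeT1
import Pool.Agent.EntX.L_schemeH2
open MeasureTheory Real ProbabilityTheory
open scoped ENNReal BigOperators

namespace HypVol
namespace Sol_EX_schemeT

theorem scheme_auxT (d : ℕ) (hd : 3 ≤ d) (r θ : ℝ) (hθ : 1/2 ≤ θ) (hθ1 : θ ≤ 1) (hr : θ < r) :
    Summable (fun n : ℕ => (2:ℝ)^(-(r * n)) * ((layer d n).card : ℝ)^θ) := by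
  obtain ⟨C, hC, hsh⟩ := shp_upper d (by omega)
  have hq0 : (0:ℝ) ≤ (2:ℝ)^(θ - r) := (Real.rpow_pos_of_pos (by norm_num) _).le
  have hq1 : (2:ℝ)^(θ - r) < 1 := Real.rpow_lt_one_of_one_lt_of_neg (by norm_num) (by linarith)
  have hsum : Summable (fun n : ℕ => C * ((n:ℝ)^(d-1) * ((2:ℝ)^(θ - r))^n) + ((2:ℝ)^(θ - r))^n) := by
    refine Summable.add ((summable_pow_mul_geometric_of_norm_lt_one (d-1) ?_).mul_left C)
      (summable_geometric_of_lt_one hq0 hq1)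
    rw [Real.norm_eq_abs, abs_of_nonneg hq0]
    exact hq1
  rw [← summable_nat_add_iff 1] at hsum ⊢
  refine Summable.of_nonneg_of_le (fun n => by positivity) (fun n => ?_) hsum
  set m : ℕ := n + 1 with hm
  have hm1 : 1 ≤ m := by omega
  have h2 : ((layer d m).card : ℝ) ≤ 2^m * (C * (m:ℝ)^(d-1)) := by
    rw [card_layer]
    push_cast
    exact mul_le_mul_of_nonneg_left (hsh m hm1) (by positivity)
  have hX : 0 ≤ C * (m:ℝ)^(d-1) := by positivity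
  have hθ0 : 0 ≤ θ := by linarith
  have h1 : ((layer d m).card : ℝ)^θ ≤ (2:ℝ)^(θ * m) * (C * (m:ℝ)^(d-1) + 1) := by
    have h5 : (2^m * (C * (m:ℝ)^(d-1)))^θ =
        (2:ℝ)^(θ * m) * (C * (m:ℝ)^(d-1))^θ := by
      rw [Real.mul_rpow (by positivity) hX]
      congr 1
      rw [← Real.rpow_natCast (2:ℝ) m, ← Real.rpow_mul (by norm_num)]
      congr 1
      ring
    have h6 : (C * (m:ℝ)^(d-1))^θ ≤ C * (m:ℝ)^(d-1) + 1 := by
      rcases le_total 1 (C * (m:ℝ)^(d-1)) with h | h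
      · calc (C * (m:ℝ)^(d-1))^θ ≤ (C * (m:ℝ)^(d-1))^(1:ℝ) :=
              Real.rpow_le_rpow_of_exponent_le h hθ1
          _ = C * (m:ℝ)^(d-1) := Real.rpow_one _
          _ ≤ _ := by linarith
      · calc (C * (m:ℝ)^(d-1))^θ ≤ 1 := Real.rpow_le_one hX h hθ0
          _ ≤ _ := by linarith
    calc ((layer d m).card : ℝ)^θ ≤ (2^m * (C * (m:ℝ)^(d-1)))^θ :=
          Real.rpow_le_rpow (by positivity) h2 hθ0
      _ = (2:ℝ)^(θ * m) * (C * (m:ℝ)^(d-1))^θ := h5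
      _ ≤ _ := mul_le_mul_of_nonneg_left h6 (by positivity)
  have h3 : (2:ℝ)^(-(r * m)) * (2:ℝ)^(θ * m) = ((2:ℝ)^(θ - r))^m := by
    rw [← Real.rpow_natCast ((2:ℝ)^(θ - r)) m, ← Real.rpow_mul (by norm_num),
      ← Real.rpow_add (by norm_num)]
    congr 1
    ring
  calc (2:ℝ)^(-(r * (m:ℕ))) * ((layer d m).card : ℝ)^θ
      ≤ (2:ℝ)^(-(r * m)) * ((2:ℝ)^(θ * m) * (C * (m:ℝ)^(d-1) + 1)) :=
        mul_le_mul_of_nonneg_left h1 (by positivity)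
    _ = ((2:ℝ)^(-(r * m)) * (2:ℝ)^(θ * m)) * (C * (m:ℝ)^(d-1) + 1) := by ring
    _ = C * ((m:ℝ)^(d-1) * ((2:ℝ)^(θ - r))^m) + ((2:ℝ)^(θ - r))^m := by rw [h3]; ring

theorem scheme_auxT2 (d : ℕ) (r : ℝ) (k : ℕ) (hk : 2 ≤ k) : 0 ≤ Rk d r k := by
  unfold Rk
  have h1 : (1:ℝ) ≤ k := by exact_mod_cast (by omega : 1 ≤ k)
  exact mul_nonneg (Real.rpow_nonneg (by positivity) _) (Real.rpow_nonneg (Real.log_nonneg h1) _)

theorem schemeT (d : ℕ) (hd : 3 ≤ d) (r θ : ℝ) (hθ : 1/2 ≤ θ) (hθ1 : θ ≤ 1) (hr : θ < r)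
    (V : ∀ n, Set ((layer d n) × Fin 2 → ℝ)) (ν : ∀ n, ((layer d n) × Fin 2 → ℝ) → ℝ) (hnet : NetT d V ν θ)
    (htriv : ∀ n, ∀ a ∈ V n, ν n a ≤ ((layer d n).card : ℝ)^θ) :
    ∃ C : ℝ, 0 < C ∧ ∀ k : ℕ, 2 ≤ k → ∃ (L : ℕ) (S : ∀ n, Finset ((layer d n) × Fin 2 → ℝ)) (e : ℕ → ℝ),
      (∏ n ∈ Finset.range L, ((S n).card : ℝ)) ≤ 2^k ∧
      (∀ n < L, ∀ a ∈ V n, ∃ s' ∈ S n, ν n (a - s') ≤ e n) ∧ (∀ n, L ≤ n → ∀ a ∈ V n, ν n a ≤ e n) ∧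
      (∀ n, 0 ≤ e n) ∧ Summable (fun n : ℕ => (2:ℝ)^(-(r * n)) * e n) ∧
      ∑' n : ℕ, (2:ℝ)^(-(r * n)) * e n ≤ C * Rk d r k := by
  obtain ⟨C1, hC1, h1⟩ := schemeT1 d hd r θ hθ hθ1 hr V ν hnet htriv
  obtain ⟨C2, hC2, h2⟩ := schemeH2 d hd r (by linarith) C1 hC1
  set T0 : ℝ := ∑' n : ℕ, (2:ℝ)^(-(r * n)) * ((layer d n).card : ℝ)^θ with hT0
  have hT0n : 0 ≤ T0 := tsum_nonneg fun n => by positivity
  refine ⟨(C1 + T0 + 1) * C2, by positivity, fun k hk => ?_⟩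
  have hRk := scheme_auxT2 d r k hk
  have hCR : 0 ≤ C2 * Rk d r k := mul_nonneg hC2.le hRk
  rcases h2 k hk with ⟨n0, ha, hb⟩ | hc
  · obtain ⟨L, S, e, e1, e2, e3, e4, e5, e6⟩ := h1 n0
    refine ⟨L, S, e, e1.trans ha, e2, e3, e4, e5, e6.trans ?_⟩
    have h3 : C1 * (2:ℝ)^(-(r * n0)) * Real.sqrt ((n0:ℝ) + 1) ≤ C1 * (C2 * Rk d r k) := by
      rw [mul_assoc]
      exact mul_le_mul_of_nonneg_left hb hC1.le
    have h4 : 0 ≤ (T0 + 1) * (C2 * Rk d r k) := mul_nonneg (by linarith) hCR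
    nlinarith
  · refine ⟨0, fun _ => ∅, fun n => ((layer d n).card : ℝ)^θ, ?_, ?_, ?_, ?_, ?_, ?_⟩
    · simp only [Finset.range_zero, Finset.prod_empty]
      exact one_le_pow₀ (by norm_num)
    · intro n hn
      exact absurd hn (Nat.not_lt_zero n)
    · intro n _ a ha
      exact htriv n a ha
    · intro n
      positivity
    · exact scheme_auxT d hd r θ hθ hθ1 hr
    · show T0 ≤ _
      have h4 : T0 * 1 ≤ T0 * (C2 * Rk d r k) := mul_le_mul_of_nonneg_left hc hT0n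
      have h5 : 0 ≤ (C1 + 1) * (C2 * Rk d r k) := mul_nonneg (by linarith) hCR
      nlinarith

end Sol_EX_schemeT

alias schemeT := Sol_EX_schemeT.schemeT

end HypVol
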