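import Pool.Agent.EntX.Defs
import Pool.Agent.EntX.L_schemeQ
import Pool.Agent.EntX.L_conv_series
import Pool.Agent.EntX.L_conv_facts
import Pool.Agent.HypVol.L_TP_prob
open MeasureTheory Real ProbabilityTheory
open scoped ENNReal BigOperators

namespace HypVol
namespace Sol_EX_upper_gen

theorem upper_gen_smul {d n : ℕ} (c : ℝ) (a : (layer d n) × Fin 2 → ℝ) (x : Fin d → ℝ) :
    poly (c • a) x = (c : ℂ) * poly a x := by
  unfold poly
  rw [Finset.mul_sum]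
  refine Finset.sum_congr rfl fun k _ => ?_
  simp only [Pi.smul_apply, smul_eq_mul, Complex.ofReal_mul]
  ring

theorem upper_gen_sub {d n : ℕ} (a b : (layer d n) × Fin 2 → ℝ) (x : Fin d → ℝ) :
    poly (a - b) x = poly a x - poly b x := by
  unfold poly
  rw [← Finset.sum_sub_distrib]
  refine Finset.sum_congr rfl fun k _ => ?_
  simp only [Pi.sub_apply, Complex.ofReal_sub]
  ring

theorem upper_gen_cont {d n : ℕ} (a : (layer d n) × Fin 2 → ℝ) : Continuous (poly a) := by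
  unfold poly
  fun_prop

theorem upper_gen_index {β : ℕ → Type} (k L : ℕ) (T : ∀ n : ℕ, Finset (β n))
    (hT : (∏ n ∈ Finset.range L, ((T n).card : ℝ)) ≤ 2^k) :
    Nonempty (((n : Fin L) → {x // x ∈ T n}) ↪ Fin (2^k)) := by
  classical
  apply Function.Embedding.nonempty_of_card_le
  rw [Fintype.card_pi, Fintype.card_fin]
  simp only [Fintype.card_coe]
  rw [Finset.prod_range] at hT
  exact_mod_cast hT

theorem upper_gen_series {d : ℕ} (q : ℝ≥0∞) (hq : 1 ≤ q) (g : ℕ → (Fin d → ℝ) → ℂ)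
    (hg : ∀ n, AEStronglyMeasurable (g n) (TP d)) (F : (Fin d → ℝ) → ℂ)
    (hF : ∀ x, HasSum (fun n => g n x) (F x)) (u : ℕ → ℝ) (hu0 : ∀ n, 0 ≤ u n) (hu : Summable u)
    (hgu : ∀ n, eLpNorm (g n) q (TP d) ≤ ENNReal.ofReal (u n)) :
    eLpNorm F q (TP d) ≤ ENNReal.ofReal (∑' n, u n) := by
  have h1 : eLpNorm F q (TP d) ≤
      Filter.atTop.liminf (fun N : ℕ => eLpNorm (∑ n ∈ Finset.range N, g n) q (TP d)) := by
    refine MeasureTheory.Lp.eLpNorm_lim_le_liminf_eLpNorm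
      (fun N => Finset.aestronglyMeasurable_sum _ fun n _ => hg n) F ?_
    refine Filter.Eventually.of_forall fun x => ?_
    have h2 := (hF x).tendsto_sum_nat
    simpa only [Finset.sum_apply] using h2
  refine h1.trans ?_
  have h3 : ∀ N : ℕ, eLpNorm (∑ n ∈ Finset.range N, g n) q (TP d) ≤
      ENNReal.ofReal (∑' n, u n) := by
    intro N
    calc eLpNorm (∑ n ∈ Finset.range N, g n) q (TP d)
        ≤ ∑ n ∈ Finset.range N, eLpNorm (g n) q (TP d) := eLpNorm_sum_le (fun n _ => hg n) hq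
      _ ≤ ∑ n ∈ Finset.range N, ENNReal.ofReal (u n) := Finset.sum_le_sum fun n _ => hgu n
      _ = ENNReal.ofReal (∑ n ∈ Finset.range N, u n) :=
          (ENNReal.ofReal_sum_of_nonneg fun n _ => hu0 n).symm
      _ ≤ ENNReal.ofReal (∑' n, u n) :=
          ENNReal.ofReal_le_ofReal (hu.sum_le_tsum _ fun n _ => hu0 n)
  calc Filter.atTop.liminf (fun N : ℕ => eLpNorm (∑ n ∈ Finset.range N, g n) q (TP d))
      ≤ Filter.atTop.liminf (fun _ : ℕ => ENNReal.ofReal (∑' n, u n)) :=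
        Filter.liminf_le_liminf (Filter.Eventually.of_forall h3)
    _ = ENNReal.ofReal (∑' n, u n) := Filter.liminf_const _

theorem upper_gen (d : ℕ) (hd : 3 ≤ d) (r : ℝ) (hr : 1 < r) (α : Fin d → ℝ) (p q : ℝ≥0∞) (hp : 1 ≤ p)
    (hq : 1 ≤ q) (s : ℕ) (hs : s ≤ 2) (V : ∀ n, Set ((layer d n) × Fin 2 → ℝ))
    (ν : ∀ n, ((layer d n) × Fin 2 → ℝ) → ℝ)
    (hV : ∀ n, ∀ φ : (Fin d → ℝ) → ℂ, MemLp φ p (TP d) → eLpNorm φ p (TP d) ≤ 1 → FC d n φ ∈ V n)
    (hν : ∀ n a, eLpNorm (poly a) q (TP d) ≤ ENNReal.ofReal (ν n a))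
    (hnet : NetQ d (Vs r α V) ν s) (htriv : ∀ n, ∀ a ∈ Vs r α V n, ν n a ≤ (layer d n).card) :
    ∃ C : ℝ, 0 < C ∧ ∀ k : ℕ, 2 ≤ k → Cov q k (ENNReal.ofReal (C * RkS d r s k)) (MW ℂ d r p α) := by
  obtain ⟨C0, hC0, hsch⟩ := schemeQ d hd r hr s hs (Vs r α V) ν hnet htriv
  have hP : IsProbabilityMeasure (TP d) := TP_prob d
  have h2 : (0:ℝ) < (2:ℝ)^(r * d) := Real.rpow_pos_of_pos (by norm_num) _
  refine ⟨(2:ℝ)^(r * d) * C0, mul_pos h2 hC0, fun k hk => ?_⟩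
  obtain ⟨L, S, e, hcard, hsel, htail, he0, hesum, hetsum⟩ := hsch k hk
  obtain ⟨ι⟩ := upper_gen_index k L S hcard
  have hkap : ∀ n : ℕ, 0 < (2:ℝ)^(r * d) * (2:ℝ)^(-(r * n)) := fun n =>
    mul_pos h2 (Real.rpow_pos_of_pos (by norm_num) _)
  let F : ((n : Fin L) → {x // x ∈ S n}) → (Fin d → ℝ) → ℂ := fun σ x =>
    ∑ n : Fin L, (((2:ℝ)^(r * d) * (2:ℝ)^(-(r * (n:ℕ))) : ℝ) : ℂ) * poly (σ n).1 x
  have hFm : ∀ σ, MemLp (F σ) q (TP d) := by
    intro σ
    refine memLp_finsetSum Finset.univ fun n _ => ?_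
    refine MemLp.const_mul ?_ _
    exact ⟨(upper_gen_cont _).aestronglyMeasurable, lt_of_le_of_lt (hν _ _) ENNReal.ofReal_lt_top⟩
  refine ⟨Function.extend ι F (fun _ _ => 0), ?_, ?_⟩
  · intro j
    by_cases hj : ∃ σ, ι σ = j
    · obtain ⟨σ, rfl⟩ := hj
      rw [ι.injective.extend_apply]
      exact hFm σ
    · rw [Function.extend_apply' _ _ _ hj]
      exact MemLp.zero'
  · intro f hf
    obtain ⟨φ, hφ, hφ1, rfl⟩ := hf
    have hbm : ∀ n : ℕ, ((2:ℝ)^(r * d) * (2:ℝ)^(-(r * n)))⁻¹ • Mact r α (FC d n φ) ∈ Vs r α V n :=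
      fun n => ⟨FC d n φ, hV n φ hφ hφ1, rfl⟩
    have hsel' : ∀ n : Fin L, ∃ t : {x // x ∈ S n}, ν n
        (((2:ℝ)^(r * d) * (2:ℝ)^(-(r * (n:ℕ))))⁻¹ • Mact r α (FC d n φ) - t.1) ≤ e n := by
      intro n
      obtain ⟨t, ht, ht2⟩ := hsel n n.2 _ (hbm n)
      exact ⟨⟨t, ht⟩, ht2⟩
    choose σ hσ using hsel'
    refine ⟨ι σ, ?_⟩
    rw [ι.injective.extend_apply]
    let a' : ∀ n : ℕ, (layer d n) × Fin 2 → ℝ := fun n =>
      if h : n < L then
        ((2:ℝ)^(r * d) * (2:ℝ)^(-(r * n)))⁻¹ • Mact r α (FC d n φ) - (σ ⟨n, h⟩).1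
      else ((2:ℝ)^(r * d) * (2:ℝ)^(-(r * n)))⁻¹ • Mact r α (FC d n φ)
    have ha' : ∀ n, ν n (a' n) ≤ e n := by
      intro n
      by_cases h : n < L
      · simp only [a', dif_pos h]
        exact hσ ⟨n, h⟩
      · simp only [a', dif_neg h]
        exact htail n (not_lt.mp h) _ (hbm n)
    have key := upper_gen_series q hq
      (fun n => fun x => (((2:ℝ)^(r * d) * (2:ℝ)^(-(r * n)) : ℝ) : ℂ) * poly (a' n) x)
      (fun n => (continuous_const.mul (upper_gen_cont _)).aestronglyMeasurable)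
      (fun x => (∫ y, Fr r α (x - y) • φ y ∂(TP d)) - F σ x) ?_
      (fun n => (2:ℝ)^(r * d) * ((2:ℝ)^(-(r * n)) * e n)) ?_ (hesum.mul_left _) ?_
    · refine key.trans (ENNReal.ofReal_le_ofReal ?_)
      rw [tsum_mul_left, mul_assoc]
      exact mul_le_mul_of_nonneg_left hetsum h2.le
    · intro x
      have hs1 := conv_series d r hr α φ (hφ.integrable hp) x
      have hs2 : HasSum (fun n : ℕ => if h : n < L then
          (((2:ℝ)^(r * d) * (2:ℝ)^(-(r * n)) : ℝ) : ℂ) * poly (σ ⟨n, h⟩).1 x else 0) (F σ x) := by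
        have h3 : F σ x = ∑ n ∈ Finset.range L, (if h : n < L then
          (((2:ℝ)^(r * d) * (2:ℝ)^(-(r * n)) : ℝ) : ℂ) * poly (σ ⟨n, h⟩).1 x else 0) := by
          rw [Finset.sum_range]
          refine Finset.sum_congr rfl fun n _ => ?_
          rw [dif_pos n.2]
        rw [h3]
        refine hasSum_sum_of_ne_finset_zero fun n hn => ?_
        rw [Finset.mem_range] at hn
        rw [dif_neg hn]
      refine (hs1.sub hs2).congr_fun ?_
      intro n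
      have hk0 : ((((2:ℝ)^(r * d) * (2:ℝ)^(-(r * n)) : ℝ)) : ℂ) ≠ 0 := by
        exact_mod_cast (hkap n).ne'
      have h5 : poly (Mact r α (FC d n φ)) x = (((2:ℝ)^(r * d) * (2:ℝ)^(-(r * n)) : ℝ) : ℂ) *
          poly (((2:ℝ)^(r * d) * (2:ℝ)^(-(r * n)))⁻¹ • Mact r α (FC d n φ)) x := by
        rw [upper_gen_smul, ← mul_assoc, Complex.ofReal_inv, mul_inv_cancel₀ hk0, one_mul]
      by_cases h : n < L
      · simp only [a', dif_pos h]
        rw [h5, upper_gen_sub, mul_sub]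
      · simp only [a', dif_neg h]
        rw [h5, sub_zero]
    · intro n
      exact mul_nonneg h2.le (mul_nonneg (Real.rpow_pos_of_pos (by norm_num) _).le (he0 n))
    · intro n
      have h6 : (fun x => (((2:ℝ)^(r * d) * (2:ℝ)^(-(r * n)) : ℝ) : ℂ) * poly (a' n) x) =
          (((2:ℝ)^(r * d) * (2:ℝ)^(-(r * n)) : ℝ)) • poly (a' n) := by
        funext x
        rw [Pi.smul_apply, Complex.real_smul]
      show eLpNorm (fun x => (((2:ℝ)^(r * d) * (2:ℝ)^(-(r * n)) : ℝ) : ℂ) * poly (a' n) x) q (TP d) ≤ _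
      rw [h6, eLpNorm_const_smul, Real.enorm_of_nonneg (hkap n).le, ← mul_assoc,
        ENNReal.ofReal_mul (hkap n).le]
      refine mul_le_mul_right ?_ _
      exact (hν n _).trans (ENNReal.ofReal_le_ofReal (ha' n))

end Sol_EX_upper_gen

alias upper_gen := Sol_EX_upper_gen.upper_gen

end HypVol
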