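import Pool.Agent.EntX.Defs
import Pool.Agent.EntX.L_upper_gen
import Pool.Agent.EntX.L_net_two
import Pool.Agent.EntX.L_netE_pol
import Pool.Agent.EntX.L_netE_sup
import Pool.Agent.EntX.L_supn_facts
import Pool.Agent.EntX.L_pol_ball_eu
import Pool.Agent.EntX.L_Mact_norm
import Pool.Agent.EntX.L_FC_L1
import Pool.Agent.HypVol.L_TP_prob
open MeasureTheory Real ProbabilityTheory
open scoped ENNReal BigOperators

namespace HypVol
namespace Sol_EX_upper_1inf

theorem upper_1inf (d : ℕ) (hd : 3 ≤ d) (r : ℝ) (hr : 1 < r) (α : Fin d → ℝ) :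
    ∃ C : ℝ, 0 < C ∧ ∀ k : ℕ, 2 ≤ k → Cov ⊤ k (ENNReal.ofReal (C * RkS d r 2 k)) (MW ℂ d r 1 α) := by
  refine upper_gen d hd r hr α 1 ⊤ le_rfl le_top 2 le_rfl (fun n => pol (ball d n)) (fun _ => supn)
    ?_ ?_ ?_ ?_
  · intro n φ hφ h
    exact FC_L1 φ hφ h
  · intro n a
    rw [eLpNorm_exponent_top]
    apply eLpNormEssSup_le_of_ae_bound
    exact Filter.Eventually.of_forall (fun x => (supn_facts d n).2.2.2.2.1 a x)
  · exact net_two d r hr α (fun n => pol (ball d n)) (fun _ => supn) 1 1 (netE_pol d) (netE_sup d)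
      (fun n x y => (supn_facts d n).1 x y) (fun n c x => (supn_facts d n).2.1 c x)
      (fun n => (supn_facts d n).2.2.1) (fun n x hx => (supn_facts d n).2.2.2.1 x hx)
  · intro n a ha
    obtain ⟨x, hx, rfl⟩ := ha
    have hk : 0 < (2:ℝ)^(r * d) * (2:ℝ)^(-(r * n)) := by positivity
    set κ := (2:ℝ)^(r * d) * (2:ℝ)^(-(r * n)) with hκ
    have h1 : eu (κ⁻¹ • Mact r α x) = κ⁻¹ * eu (Mact r α x) := by
      unfold eu
      have : ∑ i, (κ⁻¹ • Mact r α x) i ^ 2 = κ⁻¹ ^ 2 * ∑ i, (Mact r α x) i ^ 2 := by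
        rw [Finset.mul_sum]
        apply Finset.sum_congr rfl
        intro i _
        simp only [Pi.smul_apply, smul_eq_mul]
        ring
      rw [this, Real.sqrt_mul (by positivity), Real.sqrt_sq (by positivity)]
    have h2 : eu (Mact r α x) ≤ κ * eu x := Mact_norm r (by linarith) α x
    have h3 : eu x ≤ Real.sqrt ((layer d n).card) := pol_ball_eu d n x hx
    have h4 : eu (κ⁻¹ • Mact r α x) ≤ Real.sqrt ((layer d n).card) := by
      rw [h1]
      calc κ⁻¹ * eu (Mact r α x) ≤ κ⁻¹ * (κ * eu x) :=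
            mul_le_mul_of_nonneg_left h2 (by positivity)
        _ = eu x := by field_simp
        _ ≤ _ := h3
    calc supn (κ⁻¹ • Mact r α x) ≤ Real.sqrt ((layer d n).card) * eu (κ⁻¹ • Mact r α x) :=
          (supn_facts d n).2.2.2.2.2.2 _
      _ ≤ Real.sqrt ((layer d n).card) * Real.sqrt ((layer d n).card) :=
          mul_le_mul_of_nonneg_left h4 (Real.sqrt_nonneg _)
      _ = (layer d n).card := Real.mul_self_sqrt (by positivity)

end Sol_EX_upper_1inf

alias upper_1inf := Sol_EX_upper_1inf.upper_1inf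

end HypVol
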