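import Pool.Agent.EntX.Defs
import Pool.Agent.EntX.L_upper_gen
import Pool.Agent.EntX.L_net_two
import Pool.Agent.EntX.L_netE_pol
import Pool.Agent.EntX.L_netE_q
import Pool.Agent.EntX.L_nq_facts
import Pool.Agent.EntX.L_supn_facts
import Pool.Agent.EntX.L_pol_ball_eu
import Pool.Agent.EntX.L_Mact_norm
import Pool.Agent.EntX.L_FC_L1
import Pool.Agent.HypVol.L_TP_prob
open MeasureTheory Real ProbabilityTheory
open scoped ENNReal BigOperators

namespace HypVol
namespace Sol_EX_upper_1q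

theorem h338_eu_smul {ι : Type} [Fintype ι] (c : ℝ) (hc : 0 ≤ c) (a : ι → ℝ) :
    eu (c • a) = c * eu a := by
  unfold eu
  have : ∑ i, (c • a) i ^ 2 = c ^ 2 * ∑ i, a i ^ 2 := by
    rw [Finset.mul_sum]
    refine Finset.sum_congr rfl fun i _ => ?_
    simp only [Pi.smul_apply, smul_eq_mul]
    ring
  rw [this, Real.sqrt_mul (sq_nonneg c), Real.sqrt_sq hc]

theorem upper_1q (d : ℕ) (hd : 3 ≤ d) (q r : ℝ) (hq : 1 ≤ q) (hr : 1 < r) (α : Fin d → ℝ) :
    ∃ C : ℝ, 0 < C ∧ ∀ k : ℕ, 2 ≤ k →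
      Cov (ENNReal.ofReal q) k (ENNReal.ofReal (C * RkS d r 1 k)) (MW ℂ d r 1 α) := by
  have hcov := upper_gen d hd r hr α 1 (ENNReal.ofReal q) le_rfl
    (by
      rw [show (1 : ℝ≥0∞) = ENNReal.ofReal 1 from by simp]
      exact ENNReal.ofReal_le_ofReal hq)
    1 (by norm_num) (fun n => pol (ball d n)) (fun _ => nq q)
    (fun n φ hφ h => FC_L1 φ hφ h)
    (fun n a => le_of_eq ((nq_facts d n q hq).2.2.2.2.1 a))
    (by
      have h := net_two d r hr α (fun n => pol (ball d n)) (fun _ => nq q) 1 0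
        (netE_pol d) (netE_q d q hq)
        (fun n x y => (nq_facts d n q hq).1 x y)
        (fun n c x => (nq_facts d n q hq).2.1 c x)
        (fun n => (nq_facts d n q hq).2.2.1)
        (fun n x hx => (nq_facts d n q hq).2.2.2.1 x hx)
      simpa using h)
    (by
      intro n a ha
      obtain ⟨x, hx, rfl⟩ := ha
      have hk : (0:ℝ) < (2:ℝ)^(r * d) * (2:ℝ)^(-(r * n)) := by positivity
      have h1 : eu (((2:ℝ)^(r * d) * (2:ℝ)^(-(r * n)))⁻¹ • Mact r α x)
          ≤ Real.sqrt ((layer d n).card) := by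
        rw [h338_eu_smul _ (inv_nonneg.mpr hk.le)]
        calc ((2:ℝ)^(r * d) * (2:ℝ)^(-(r * n)))⁻¹ * eu (Mact r α x)
            ≤ ((2:ℝ)^(r * d) * (2:ℝ)^(-(r * n)))⁻¹ *
              ((2:ℝ)^(r * d) * (2:ℝ)^(-(r * n)) * eu x) :=
              mul_le_mul_of_nonneg_left (Mact_norm r (by linarith) α x) (inv_nonneg.mpr hk.le)
          _ = eu x := by
              rw [← mul_assoc, inv_mul_cancel₀ hk.ne', one_mul]
          _ ≤ _ := pol_ball_eu d n x hx
      calc nq q (((2:ℝ)^(r * d) * (2:ℝ)^(-(r * n)))⁻¹ • Mact r α x)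
          ≤ supn (((2:ℝ)^(r * d) * (2:ℝ)^(-(r * n)))⁻¹ • Mact r α x) :=
            (nq_facts d n q hq).2.2.2.2.2 _
        _ ≤ Real.sqrt ((layer d n).card) *
            Real.sqrt (∑ i, (((2:ℝ)^(r * d) * (2:ℝ)^(-(r * n)))⁻¹ • Mact r α x) i ^ 2) :=
            (supn_facts d n).2.2.2.2.2.2 _
        _ ≤ Real.sqrt ((layer d n).card) * Real.sqrt ((layer d n).card) :=
            mul_le_mul_of_nonneg_left h1 (Real.sqrt_nonneg _)
        _ = (layer d n).card := Real.mul_self_sqrt (Nat.cast_nonneg _))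
  exact hcov

end Sol_EX_upper_1q

alias upper_1q := Sol_EX_upper_1q.upper_1q

end HypVol
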