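import Pool.Agent.EntX.Defs
import Pool.Agent.EntX.L_schemeT
import Pool.Agent.EntX.L_series_bound
import Pool.Agent.HypVol.L_TP_prob
open MeasureTheory Real ProbabilityTheory
open scoped ENNReal BigOperators

namespace HypVol
namespace Sol_EX_upper_genT

theorem upper_genT_enum {α : Type*} [Inhabited α] (P : Finset α) (m : ℕ) (h : P.card ≤ m) :
    ∃ g : Fin m → α, ∀ x ∈ P, ∃ j, g j = x := by
  classical
  refine ⟨fun j => if h : (j:ℕ) < P.card then (P.equivFin.symm ⟨j, h⟩ : α) else default, ?_⟩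
  intro x hx
  refine ⟨⟨P.equivFin ⟨x, hx⟩, lt_of_lt_of_le (P.equivFin ⟨x, hx⟩).2 h⟩, ?_⟩
  simp

theorem upper_genT_cont {d n : ℕ} (a : (layer d n) × Fin 2 → ℝ) :
    Continuous (poly a) := by
  unfold poly
  fun_prop

theorem upper_genT_FC {d n : ℕ} (r : ℝ) (α : Fin d → ℝ) (f φ : (Fin d → ℝ) → ℂ)
    (h : ∀ k : Fin d → ℤ, fc f k = Fh r α k * fc φ k) :
    FC d n f = Mact r α (FC d n φ) := by
  funext i
  unfold FC Mact
  have h1 : (((fc φ i.1.1).re : ℝ) : ℂ) + (((fc φ i.1.1).im : ℝ) : ℂ) * Complex.I = fc φ i.1.1 :=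
    Complex.re_add_im _
  have h10 : ¬ ((1 : Fin 2) = 0) := by decide
  simp only [h10, if_false, if_true]
  rw [h1, h]

theorem upper_genT (d : ℕ) (hd : 3 ≤ d) (r θ : ℝ) (hθ : 1/2 ≤ θ) (hθ1 : θ ≤ 1) (hr : θ < r) (α : Fin d → ℝ)
    (p q : ℝ≥0∞) (hp : 1 ≤ p) (hq : 1 ≤ q) (V : ∀ n, Set ((layer d n) × Fin 2 → ℝ))
    (ν : ∀ n, ((layer d n) × Fin 2 → ℝ) → ℝ)
    (hV : ∀ n, ∀ φ : (Fin d → ℝ) → ℂ, MemLp φ p (TP d) → eLpNorm φ p (TP d) ≤ 1 → FC d n φ ∈ V n)
    (hν : ∀ n a, eLpNorm (poly a) q (TP d) ≤ ENNReal.ofReal (ν n a))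
    (hν2 : ∀ n (c : ℝ) a, ν n (c • a) = |c| * ν n a)
    (hnet : NetT d (Vs r α V) ν θ) (htriv : ∀ n, ∀ a ∈ Vs r α V n, ν n a ≤ ((layer d n).card : ℝ)^θ) :
    ∃ C : ℝ, 0 < C ∧ ∀ k : ℕ, 2 ≤ k → Cov q k (ENNReal.ofReal (C * Rk d r k)) (WF d r p α) := by
  classical
  haveI := TP_prob d
  obtain ⟨C, hC, hsch⟩ := schemeT d hd r θ hθ hθ1 hr (Vs r α V) ν hnet htriv
  refine ⟨(2:ℝ)^(r * d) * C, by positivity, fun k hk => ?_⟩
  obtain ⟨L, S, e, hcard, hS, hL, he0, hsum, htot⟩ := hsch k hk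
  set P : Finset (∀ i : Fin L, (layer d i) × Fin 2 → ℝ) := Fintype.piFinset (fun i => S i) with hP
  have hPcard : P.card ≤ 2^k := by
    rw [hP, Fintype.card_piFinset, Fin.prod_univ_eq_prod_range (fun n => (S n).card)]
    exact_mod_cast hcard
  obtain ⟨g, hg⟩ := upper_genT_enum P (2^k) hPcard
  set κ : ℕ → ℝ := fun n => (2:ℝ)^(r * d) * (2:ℝ)^(-(r * n)) with hκ
  have hκ0 : ∀ n, 0 < κ n := fun n => by simp only [hκ]; positivity
  let s : Fin (2^k) → ∀ n : ℕ, (layer d n) × Fin 2 → ℝ :=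
    fun j n => if h : n < L then g j ⟨n, h⟩ else 0
  refine ⟨fun j x => ∑ n ∈ Finset.range L, poly (κ n • s j n) x, ?_, ?_⟩
  · intro j
    exact memLp_finsetSum _ fun n _ =>
      ⟨(upper_genT_cont _).aestronglyMeasurable, lt_of_le_of_lt (hν _ _) ENNReal.ofReal_lt_top⟩
  · rintro f ⟨hf, φ, hφ, hφ1, hfc⟩
    set b : ∀ n : ℕ, (layer d n) × Fin 2 → ℝ := fun n => (κ n)⁻¹ • Mact r α (FC d n φ) with hb
    have hbV : ∀ n, b n ∈ Vs r α V n := fun n => ⟨FC d n φ, hV n φ hφ hφ1, rfl⟩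
    have hch : ∀ i : Fin L, ∃ t ∈ S i, ν i (b i - t) ≤ e i := fun i => hS i i.2 (b i) (hbV i)
    choose t htS ht using hch
    obtain ⟨j, hj⟩ := hg t (by rw [hP, Fintype.mem_piFinset]; exact htS)
    refine ⟨j, ?_⟩
    have hint : Integrable f (TP d) := memLp_one_iff_integrable.1 hf
    have hsn : ∀ n, ν n (b n - s j n) ≤ e n := by
      intro n
      by_cases hn : n < L
      · have h1 : s j n = t ⟨n, hn⟩ := by
          simp only [s, hn, dif_pos, hj]
        rw [h1]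
        exact ht ⟨n, hn⟩
      · have h1 : s j n = 0 := by
          simp only [s, hn, dif_neg, not_false_eq_true]
        rw [h1, sub_zero]
        exact hL n (not_lt.1 hn) (b n) (hbV n)
    have h4 : HasSum (fun n => κ n * e n)
        ((2:ℝ)^(r * d) * ∑' n : ℕ, (2:ℝ)^(-(r * n)) * e n) := by
      have h5 := hsum.hasSum.mul_left ((2:ℝ)^(r * d))
      refine h5.congr_fun ?_
      intro n
      simp only [hκ]
      ring
    have hmain := series_bound (d := d) q hq f hint (fun n => κ n * e n)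
      (fun n => mul_nonneg (hκ0 n).le (he0 n)) h4.summable L (fun n => κ n • s j n) (by
        intro n hn
        have h1 : s j n = 0 := by
          simp only [s, not_lt.2 hn, dif_neg, not_false_eq_true]
        simp only [h1, smul_zero]) (by
        intro n
        have h7 : FC d n f = κ n • b n := by
          rw [upper_genT_FC r α f φ hfc, hb]
          simp only
          rw [smul_smul, mul_inv_cancel₀ (hκ0 n).ne', one_smul]
        rw [h7, ← smul_sub]
        refine (hν n _).trans (ENNReal.ofReal_le_ofReal ?_)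
        rw [hν2, abs_of_pos (hκ0 n)]
        exact mul_le_mul_of_nonneg_left (hsn n) (hκ0 n).le)
    refine hmain.trans (ENNReal.ofReal_le_ofReal ?_)
    rw [h4.tsum_eq, mul_assoc]
    exact mul_le_mul_of_nonneg_left htot (by positivity)

end Sol_EX_upper_genT

alias upper_genT := Sol_EX_upper_genT.upper_genT

end HypVol
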