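import Pool.Agent.EntX.Defs
import Pool.Agent.EntX.L_upper_genT
import Pool.Agent.EntX.L_net_twoT
import Pool.Agent.EntX.L_netE_pol
import Pool.Agent.EntX.L_netA_q
import Pool.Agent.EntX.L_nq_facts
import Pool.Agent.EntX.L_supn_facts
import Pool.Agent.EntX.L_pol_ball_eu
import Pool.Agent.EntX.L_Mact_norm
import Pool.Agent.EntX.L_FC_L1
import Pool.Agent.EntX.L_interp_q
import Pool.Agent.HypVol.L_TP_prob
open MeasureTheory Real ProbabilityTheory
open scoped ENNReal BigOperators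

namespace HypVol
namespace Sol_EX_upper_1q_F

theorem q615_eu_smul {ι : Type} [Fintype ι] (c : ℝ) (a : ι → ℝ) : eu (c • a) = |c| * eu a := by
  unfold eu
  have h : ∑ i, (c • a) i ^ 2 = c ^ 2 * ∑ i, a i ^ 2 := by
    rw [Finset.mul_sum]
    apply Finset.sum_congr rfl
    intro i _
    simp only [Pi.smul_apply, smul_eq_mul]
    ring
  rw [h, Real.sqrt_mul (sq_nonneg c), Real.sqrt_sq_eq_abs]

theorem q615_Vs_eu {d n : ℕ} (r : ℝ) (hr : 0 < r) (α : Fin d → ℝ) (a : (layer d n) × Fin 2 → ℝ)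
    (ha : a ∈ Vs r α (fun n => pol (ball d n)) n) : eu a ≤ Real.sqrt ((layer d n).card) := by
  obtain ⟨x, hx, rfl⟩ := ha
  have hk : (0:ℝ) < (2:ℝ)^(r * d) * (2:ℝ)^(-(r * n)) := by positivity
  rw [q615_eu_smul, abs_of_pos (inv_pos.mpr hk)]
  calc ((2:ℝ)^(r * d) * (2:ℝ)^(-(r * n)))⁻¹ * eu (Mact r α x)
      ≤ ((2:ℝ)^(r * d) * (2:ℝ)^(-(r * n)))⁻¹ * ((2:ℝ)^(r * d) * (2:ℝ)^(-(r * n)) * eu x) :=
        mul_le_mul_of_nonneg_left (Mact_norm r hr α x) (inv_pos.mpr hk).le
    _ = eu x := by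
        rw [← mul_assoc, inv_mul_cancel₀ hk.ne', one_mul]
    _ ≤ _ := pol_ball_eu d n x hx

theorem upper_1q_F (d : ℕ) (hd : 3 ≤ d) (q r : ℝ) (hq : 2 < q) (hr : 1 - 1/q < r) (α : Fin d → ℝ) :
    ∃ C : ℝ, 0 < C ∧ ∀ k : ℕ, 2 ≤ k →
      Cov (ENNReal.ofReal q) k (ENNReal.ofReal (C * Rk d r k)) (WF d r 1 α) := by
  have hq0 : 0 < q := by linarith
  have hq1 : 1 ≤ q := by linarith
  have hqi : 0 < 1 / q := by positivity
  have hqi2 : 1 / q < 1 / 2 := one_div_lt_one_div_of_lt (by norm_num) hq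
  have hr0 : 0 < r := by linarith
  obtain ⟨θ, h1, h2, h3⟩ : ∃ θ : ℝ, 1 - 1 / q < θ ∧ θ < r ∧ θ < 1 := by
    refine ⟨(1 - 1/q + min r 1) / 2, ?_, ?_, ?_⟩
    · have : 1 - 1/q < min r 1 := lt_min hr (by linarith)
      linarith
    · have : min r 1 ≤ r := min_le_left _ _
      linarith
    · have : min r 1 ≤ 1 := min_le_right _ _
      linarith
  have hθ : 0 < θ - 1/2 := by linarith
  have hB : 2 ≤ 1 / (θ - 1/2) := by
    rw [le_div_iff₀ hθ]
    linarith
  have hBq : 1 / (θ - 1/2) * (1/2 - 1/q) < 1 := by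
    rw [one_div, inv_mul_lt_iff₀ hθ]
    linarith
  have hE : NetA d (fun n => pol (ball d n)) (fun _ => eu) 1 2 := by
    obtain ⟨C, hC, hC2⟩ := netE_pol d
    refine ⟨C, hC, ?_⟩
    intro n ε hε
    obtain ⟨S, hS1, hS2⟩ := hC2 n ε hε
    refine ⟨S, ?_, hS2⟩
    have : ε ^ (2:ℝ) = ε ^ (2:ℕ) := by
      rw [← Real.rpow_natCast ε 2]
      norm_num
    rw [this]
    exact hS1
  have hN : NetA d (V2 d) (fun _ => nq q) 0 (1 / (θ - 1/2)) := netA_q d q _ hq hB hBq
  have hnet0 := net_twoT d r hr0 α (fun n => pol (ball d n)) (fun _ => nq q) 1 0 2 (1 / (θ - 1/2))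
    le_rfl hB (by norm_num) hE hN (fun n x y => (nq_facts d n q hq1).1 x y)
    (fun n c x => (nq_facts d n q hq1).2.1 c x) (fun n => (nq_facts d n q hq1).2.2.1)
    (fun n x hx => (nq_facts d n q hq1).2.2.2.1 x hx)
  have hth : 1 / 2 + 1 / (1 / (θ - 1/2)) = θ := by
    rw [one_div_one_div]
    ring
  rw [hth] at hnet0
  refine upper_genT d hd r θ (by linarith) h3.le h2 α 1 (ENNReal.ofReal q) le_rfl ?_
    (fun n => pol (ball d n)) (fun _ => nq q) ?_ ?_ ?_ hnet0 ?_
  · rw [← ENNReal.ofReal_one]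
    exact ENNReal.ofReal_le_ofReal hq1
  · intro n φ h h'
    exact FC_L1 φ h h'
  · intro n a
    exact ((nq_facts d n q hq1).2.2.2.2.1 a).le
  · intro n c a
    exact (nq_facts d n q hq1).2.1 c a
  · intro n a ha
    have e1 : eu a ≤ Real.sqrt ((layer d n).card) := q615_Vs_eu r hr0 α a ha
    have e0 : 0 ≤ eu a := Real.sqrt_nonneg _
    have s0 : 0 ≤ supn a :=
      le_trans (norm_nonneg _) ((supn_facts d n).2.2.2.2.1 a 0)
    have s1 : supn a ≤ Real.sqrt ((layer d n).card) * eu a := (supn_facts d n).2.2.2.2.2.2 a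
    have s2 : supn a ≤ ((layer d n).card : ℝ) := by
      calc supn a ≤ Real.sqrt ((layer d n).card) * eu a := s1
        _ ≤ Real.sqrt ((layer d n).card) * Real.sqrt ((layer d n).card) :=
          mul_le_mul_of_nonneg_left e1 (Real.sqrt_nonneg _)
        _ = _ := Real.mul_self_sqrt (Nat.cast_nonneg _)
    have hint := interp_q d n q hq a
    have h2q : 0 < 2 / q := by positivity
    have h2q1 : 0 ≤ 1 - 2 / q := by
      have : 2 / q = 2 * (1 / q) := by ring
      rw [this]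
      linarith
    rcases Nat.eq_zero_or_pos (layer d n).card with hc | hc
    · rw [hc] at e1
      have e2 : eu a = 0 := by
        apply le_antisymm _ e0
        simpa using e1
      rw [e2, Real.zero_rpow h2q.ne', zero_mul] at hint
      exact hint.trans (Real.rpow_nonneg (Nat.cast_nonneg _) _)
    · have hc1 : (1:ℝ) ≤ ((layer d n).card : ℝ) := by exact_mod_cast hc
      have hc0 : (0:ℝ) < ((layer d n).card : ℝ) := by linarith
      calc nq q a ≤ (eu a)^(2/q) * (supn a)^(1 - 2/q) := hint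
        _ ≤ (Real.sqrt ((layer d n).card))^(2/q) * ((layer d n).card : ℝ)^(1 - 2/q) := by
            apply mul_le_mul
            · exact Real.rpow_le_rpow e0 e1 h2q.le
            · exact Real.rpow_le_rpow s0 s2 h2q1
            · exact Real.rpow_nonneg s0 _
            · exact Real.rpow_nonneg (Real.sqrt_nonneg _) _
        _ = ((layer d n).card : ℝ)^(1 - 1/q) := by
            rw [Real.sqrt_eq_rpow, ← Real.rpow_mul hc0.le, ← Real.rpow_add hc0]
            congr 1
            field_simp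
            ring
        _ ≤ ((layer d n).card : ℝ)^θ := Real.rpow_le_rpow_of_exponent_le hc1 h1.le

end Sol_EX_upper_1q_F

alias upper_1q_F := Sol_EX_upper_1q_F.upper_1q_F

end HypVol
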