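import Pool.Agent.EntX.Defs
import Pool.Agent.EntX.L_upper_gen
import Pool.Agent.EntX.L_net_two
import Pool.Agent.EntX.L_netE_polq
import Pool.Agent.EntX.L_netE_sup
import Pool.Agent.EntX.L_nq_facts
import Pool.Agent.EntX.L_supn_facts
import Pool.Agent.EntX.L_pol_ball_eu
import Pool.Agent.EntX.L_Mact_norm
import Pool.Agent.EntX.L_holder_FC
import Pool.Agent.HypVol.L_TP_prob
open MeasureTheory Real ProbabilityTheory
open scoped ENNReal BigOperators

namespace HypVol
namespace Sol_EX_upper_pinf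

theorem eu_smul_aux {ι : Type} [Fintype ι] (c : ℝ) (y : ι → ℝ) : eu (c • y) = |c| * eu y := by
  unfold eu
  have h1 : ∑ i, (c • y) i ^ 2 = c ^ 2 * ∑ i, y i ^ 2 := by
    rw [Finset.mul_sum]
    refine Finset.sum_congr rfl (fun i _ => ?_)
    simp only [Pi.smul_apply, smul_eq_mul]
    ring
  rw [h1, Real.sqrt_mul (sq_nonneg c), Real.sqrt_sq_eq_abs]

theorem upper_pinf (d : ℕ) (hd : 3 ≤ d) (p r : ℝ) (hp : 1 < p) (hr : 1 < r) (α : Fin d → ℝ) :
    ∃ C : ℝ, 0 < C ∧ ∀ k : ℕ, 2 ≤ k →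
      Cov ⊤ k (ENNReal.ofReal (C * RkS d r 1 k)) (MW ℂ d r (ENNReal.ofReal p) α) := by
  have hpp : p.HolderConjugate p.conjExponent := Real.HolderConjugate.conjExponent hp
  have hp' : 1 < p.conjExponent := hpp.symm.lt
  refine upper_gen d hd r hr α (ENNReal.ofReal p) ⊤ ?_ le_top 1 (by norm_num)
    (fun n => pol (LB d n (ENNReal.ofReal p.conjExponent))) (fun _ => supn) ?_ ?_ ?_ ?_
  · rw [← ENNReal.ofReal_one]
    exact ENNReal.ofReal_le_ofReal hp.le
  · intro n φ hφ hφ1 b hb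
    have h1 := holder_FC p p.conjExponent hpp φ hφ b
    have hb' : eLpNorm (poly b) (ENNReal.ofReal p.conjExponent) (TP d) ≤ 1 := hb
    have h2 : (eLpNorm φ (ENNReal.ofReal p) (TP d)).toReal ≤ 1 := by
      have := ENNReal.toReal_mono ENNReal.one_ne_top hφ1
      simpa using this
    have h3 : (eLpNorm (poly b) (ENNReal.ofReal p.conjExponent) (TP d)).toReal ≤ 1 := by
      have := ENNReal.toReal_mono ENNReal.one_ne_top hb'
      simpa using this
    refine h1.trans ?_
    calc _ ≤ (1:ℝ) * 1 := mul_le_mul h2 h3 ENNReal.toReal_nonneg zero_le_one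
      _ = 1 := one_mul 1
  · intro n a
    rw [eLpNorm_exponent_top]
    exact eLpNormEssSup_le_of_ae_bound (Filter.Eventually.of_forall (fun x => (supn_facts d n).2.2.2.2.1 a x))
  · exact net_two d r hr α _ _ 0 1 (netE_polq d p.conjExponent hp'.le) (netE_sup d)
      (fun n => (supn_facts d n).1) (fun n => (supn_facts d n).2.1)
      (fun n => (supn_facts d n).2.2.1) (fun n => (supn_facts d n).2.2.2.1)
  · intro n a ha
    obtain ⟨x, hx, rfl⟩ := ha
    have hxb : x ∈ pol (ball d n) := by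
      intro b hb
      apply hx b
      change eLpNorm (poly b) (ENNReal.ofReal p.conjExponent) (TP d) ≤ 1
      rw [(nq_facts d n p.conjExponent hp'.le).2.2.2.2.1 b, ← ENNReal.ofReal_one]
      apply ENNReal.ofReal_le_ofReal
      refine ((nq_facts d n p.conjExponent hp'.le).2.2.2.2.2 b).trans ?_
      exact (supn_facts d n).2.2.2.2.2.1 b 1 hb
    have hc : 0 < (2:ℝ)^(r * d) * (2:ℝ)^(-(r * n)) := by positivity
    have h1 := pol_ball_eu d n x hxb
    have h2 := Mact_norm r (by linarith : 0 < r) α x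
    have h3 : eu (((2:ℝ)^(r * d) * (2:ℝ)^(-(r * n)))⁻¹ • Mact r α x) ≤ Real.sqrt ((layer d n).card) := by
      rw [eu_smul_aux, abs_of_pos (inv_pos.2 hc), inv_mul_le_iff₀ hc]
      exact h2.trans (mul_le_mul_of_nonneg_left h1 hc.le)
    refine ((supn_facts d n).2.2.2.2.2.2 _).trans ?_
    calc _ ≤ Real.sqrt ((layer d n).card) * Real.sqrt ((layer d n).card) :=
          mul_le_mul_of_nonneg_left h3 (Real.sqrt_nonneg _)
      _ = (layer d n).card := Real.mul_self_sqrt (Nat.cast_nonneg _)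

end Sol_EX_upper_pinf

alias upper_pinf := Sol_EX_upper_pinf.upper_pinf

end HypVol
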