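import Pool.Agent.EntX.Defs
import Pool.Agent.EntX.L_upper_genT
import Pool.Agent.EntX.L_net_twoT
import Pool.Agent.EntX.L_netA_VP
import Pool.Agent.EntX.L_netE_sup
import Pool.Agent.EntX.L_VP_eu
import Pool.Agent.EntX.L_supn_facts
import Pool.Agent.EntX.L_Mact_norm
import Pool.Agent.HypVol.L_TP_prob
open MeasureTheory Real ProbabilityTheory
open scoped ENNReal BigOperators

namespace HypVol
namespace Sol_EX_upper_pinf_F

theorem eu_smul_aux {ι : Type} [Fintype ι] (c : ℝ) (hc : 0 ≤ c) (a : ι → ℝ) :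
    eu (c • a) = c * eu a := by
  unfold eu
  have h1 : ∑ i, (c • a) i ^ 2 = c ^ 2 * ∑ i, a i ^ 2 := by
    rw [Finset.mul_sum]
    refine Finset.sum_congr rfl ?_
    intro i _
    simp only [Pi.smul_apply, smul_eq_mul]
    ring
  rw [h1, Real.sqrt_mul (by positivity), Real.sqrt_sq hc]

theorem upper_pinf_F (d : ℕ) (hd : 3 ≤ d) (p r : ℝ) (hp1 : 1 < p) (hp2 : p < 2) (hr : 1/p < r) (α : Fin d → ℝ) :
    ∃ C : ℝ, 0 < C ∧ ∀ k : ℕ, 2 ≤ k →
      Cov ⊤ k (ENNReal.ofReal (C * Rk d r k)) (WF d r (ENNReal.ofReal p) α) := by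
  have hp0 : 0 < p := by linarith
  have hr0 : 0 < r := lt_trans (by positivity) hr
  have hδ0 : 0 < 1/p - 1/2 := by
    have : 1/2 < 1/p := one_div_lt_one_div_of_lt hp0 hp2
    linarith
  have hδ1 : 1/p - 1/2 < 1/2 := by
    have : 1/p < 1 := by rw [div_lt_one hp0]; exact hp1
    linarith
  have hδr : 1/p - 1/2 < r - 1/2 := by linarith
  set δ := 1/p - 1/2 with hδ
  obtain ⟨τ, hτ1, hτ2⟩ := exists_between (lt_min hδ1 hδr)
  have hτa : τ < 1/2 := lt_of_lt_of_le hτ2 (min_le_left _ _)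
  have hτb : τ < r - 1/2 := lt_of_lt_of_le hτ2 (min_le_right _ _)
  have hτ0 : 0 < τ := hδ0.trans hτ1
  have hA : 2 ≤ 1/τ := by
    rw [le_div_iff₀ hτ0]; linarith
  have hAδ : (1/τ) * δ < 1 := by
    rw [one_div, inv_mul_lt_iff₀ hτ0]; linarith
  have hinv : 1 / (1/τ) = τ := by rw [one_div_one_div]
  have hN : NetA d (V2 d) (fun _ => supn) 1 2 := by
    obtain ⟨C, hC, h⟩ := netE_sup d
    refine ⟨C, hC, fun n ε hε => ?_⟩
    obtain ⟨S, h1, h2⟩ := h n ε hε
    refine ⟨S, ?_, h2⟩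
    rw [Real.rpow_two]
    exact h1
  have hnet : NetT d (Vs r α (VP d p)) (fun _ => supn) (τ + 1/2) := by
    have := net_twoT d r hr0 α (VP d p) (fun _ => supn) 0 1 (1/τ) 2 hA le_rfl (by norm_num)
      (netA_VP d p (1/τ) hp1 hp2 hA hAδ) hN (fun n => (supn_facts d n).1)
      (fun n => (supn_facts d n).2.1) (fun n => (supn_facts d n).2.2.1)
      (fun n => (supn_facts d n).2.2.2.1)
    rwa [hinv] at this
  refine upper_genT d hd r (τ + 1/2) (by linarith) (by linarith) (by linarith) α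
    (ENNReal.ofReal p) ⊤ (ENNReal.one_le_ofReal.2 hp1.le) le_top (VP d p) (fun _ => supn)
    (fun n φ h1 h2 => ⟨φ, h1, h2, rfl⟩) ?_ (fun n => (supn_facts d n).2.1) hnet ?_
  · intro n a
    rw [eLpNorm_exponent_top]
    exact eLpNormEssSup_le_of_ae_bound
      (Filter.Eventually.of_forall fun x => (supn_facts d n).2.2.2.2.1 a x)
  · rintro n a ⟨x, hx, rfl⟩
    set kap : ℝ := (2:ℝ)^(r * d) * (2:ℝ)^(-(r * n)) with hkap
    have hk0 : 0 < kap := by positivity
    have h1 : eu (kap⁻¹ • Mact r α x) ≤ ((layer d n).card : ℝ)^δ := by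
      rw [eu_smul_aux _ (by positivity)]
      calc kap⁻¹ * eu (Mact r α x) ≤ kap⁻¹ * (kap * eu x) :=
            mul_le_mul_of_nonneg_left (Mact_norm r hr0 α x) (by positivity)
        _ = eu x := by field_simp
        _ ≤ _ := VP_eu d n p hp1 hp2 x hx
    have h2 := (supn_facts d n).2.2.2.2.2.2 (kap⁻¹ • Mact r α x)
    have h3 : supn (kap⁻¹ • Mact r α x) ≤
        Real.sqrt ((layer d n).card) * ((layer d n).card : ℝ)^δ :=
      h2.trans (mul_le_mul_of_nonneg_left h1 (Real.sqrt_nonneg _))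
    refine h3.trans ?_
    rcases Nat.eq_zero_or_pos (layer d n).card with h0 | h0
    · rw [h0]
      simp only [Nat.cast_zero, Real.sqrt_zero, zero_mul]
      exact Real.rpow_nonneg le_rfl _
    · have hc1 : (1:ℝ) ≤ (layer d n).card := by exact_mod_cast h0
      have hc0 : (0:ℝ) < (layer d n).card := by linarith
      rw [Real.sqrt_eq_rpow, ← Real.rpow_add hc0]
      exact Real.rpow_le_rpow_of_exponent_le hc1 (by linarith)

end Sol_EX_upper_pinf_F

alias upper_pinf_F := Sol_EX_upper_pinf_F.upper_pinf_F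

end HypVol
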